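import Mathlib

/-!
# Piece MERTCHI: Mertens' first theorem twisted by the character mod 4
-/

set_option autoImplicit false

namespace Pool.Agent.GaussMR

open Filter Topology

/-- `χ(n) Λ(n) / n` -/
noncomputable def mcF : ArithmeticFunction ℝ :=
  ⟨fun n => (ZMod.χ₄ (n : ZMod 4) : ℝ) * ArithmeticFunction.vonMangoldt n / (n : ℝ), by simp⟩

/-- `χ(n) / n` -/
noncomputable def mcG : ArithmeticFunction ℝ :=
  ⟨fun n => (ZMod.χ₄ (n : ZMod 4) : ℝ) / (n : ℝ), by simp⟩

theorem mcF_apply (n : ℕ) : mcF n =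
    (ZMod.χ₄ (n : ZMod 4) : ℝ) * ArithmeticFunction.vonMangoldt n / (n : ℝ) := rfl

theorem mcG_apply (n : ℕ) : mcG n = (ZMod.χ₄ (n : ZMod 4) : ℝ) / (n : ℝ) := rfl

theorem mcF_mul_mcG (n : ℕ) :
    (mcF * mcG) n = (ZMod.χ₄ (n : ZMod 4) : ℝ) * (Real.log n / n) := by
  rw [ArithmeticFunction.mul_apply]
  have h : ∀ p ∈ n.divisorsAntidiagonal, mcF p.1 * mcG p.2
      = ((ZMod.χ₄ (n : ZMod 4) : ℝ) / n) * ArithmeticFunction.vonMangoldt p.1 := by
    intro p hp
    obtain ⟨h1, h2⟩ := Nat.mem_divisorsAntidiagonal.1 hp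
    rw [mcF_apply, mcG_apply, ← h1]
    push_cast
    rw [map_mul]
    push_cast
    rw [div_mul_div_comm, div_mul_eq_mul_div]
    ring
  rw [Finset.sum_congr rfl h, ← Finset.mul_sum,
    Nat.sum_divisorsAntidiagonal (fun a _ => ArithmeticFunction.vonMangoldt a),
    ArithmeticFunction.vonMangoldt_sum]
  ring

/-- sums twisted by the character as alternating sums -/
theorem mc_alt (h : ℕ → ℝ) (k : ℕ) :
    ∑ d ∈ Finset.Ioc 0 k, (ZMod.χ₄ (d : ZMod 4) : ℝ) * h d
      = ∑ i ∈ Finset.range ((k + 1) / 2), (-1) ^ i * h (2 * i + 1) := by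
  induction k with
  | zero => simp
  | succ k ih =>
    rw [Finset.sum_Ioc_succ_top (Nat.zero_le k), ih]
    rcases Nat.even_or_odd' k with ⟨j, rfl | rfl⟩
    · have e1 : (2 * j + 1) / 2 = j := by omega
      have e2 : (2 * j + 1 + 1) / 2 = j + 1 := by omega
      rw [e1, e2, Finset.sum_range_succ]
      congr 1
      have e3 : ZMod.χ₄ ((2 * j + 1 : ℕ) : ZMod 4) = (-1) ^ j := by
        rw [ZMod.χ₄_eq_neg_one_pow (by omega), e1]
      rw [e3]
      push_cast
      ring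
    · have e1 : (2 * j + 1 + 1) / 2 = j + 1 := by omega
      have e2 : (2 * j + 1 + 1 + 1) / 2 = j + 1 := by omega
      rw [e1, e2]
      have e3 : ZMod.χ₄ ((2 * j + 1 + 1 : ℕ) : ZMod 4) = 0 := by
        rw [ZMod.χ₄_nat_eq_if_mod_four, if_pos (by omega)]
      rw [e3]
      simp

/-- the error bound for the Leibniz series -/
theorem mc_leibniz (n : ℕ) :
    |∑ i ∈ Finset.range n, (-1 : ℝ) ^ i * (1 / (2 * (i : ℝ) + 1)) - Real.pi / 4|
      ≤ 1 / (2 * (n : ℝ) + 1) := by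
  have hanti : Antitone (fun i : ℕ => 1 / (2 * (i : ℝ) + 1)) := by
    intro i j hij
    have : (i : ℝ) ≤ j := by exact_mod_cast hij
    apply one_div_le_one_div_of_le (by positivity)
    linarith
  have hl : Tendsto (fun n => ∑ i ∈ Finset.range n, (-1 : ℝ) ^ i * (1 / (2 * (i : ℝ) + 1))) atTop
      (𝓝 (Real.pi / 4)) := by
    refine (Real.tendsto_sum_pi_div_four).congr (fun n => ?_)
    refine Finset.sum_congr rfl (fun i _ => ?_)
    ring
  rcases Nat.even_or_odd' n with ⟨j, rfl | rfl⟩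
  · have h1 := hanti.alternating_series_le_tendsto hl j
    have h2 := hanti.tendsto_le_alternating_series hl j
    rw [Finset.sum_range_succ] at h2
    have e : (-1 : ℝ) ^ (2 * j) = 1 := by simp
    rw [e, one_mul] at h2
    push_cast at h2 ⊢
    rw [abs_le]
    constructor <;> linarith
  · have h1 := hanti.alternating_series_le_tendsto hl (j + 1)
    have h2 := hanti.tendsto_le_alternating_series hl j
    rw [show 2 * (j + 1) = 2 * j + 1 + 1 by ring, Finset.sum_range_succ] at h1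
    have e : (-1 : ℝ) ^ (2 * j + 1) = -1 := by
      rw [pow_succ]; simp
    rw [e, neg_one_mul] at h1
    push_cast at h1 ⊢
    have h3 : 0 ≤ 1 / (2 * (2 * (j : ℝ) + 1) + 1) := by positivity
    rw [abs_le]
    constructor <;> linarith

/-- partial sums of an alternating series with an antitone sequence -/
theorem mc_alt_bound (g : ℕ → ℝ) (hg : Antitone g) (h0 : ∀ n, 0 ≤ g n) (n : ℕ) :
    0 ≤ ∑ i ∈ Finset.range n, (-1 : ℝ) ^ i * g i ∧
      ∑ i ∈ Finset.range n, (-1 : ℝ) ^ i * g i ≤ g 0 := by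
  have key : ∀ k : ℕ, 0 ≤ ∑ i ∈ Finset.range (2 * k), (-1 : ℝ) ^ i * g i ∧
      ∑ i ∈ Finset.range (2 * k), (-1 : ℝ) ^ i * g i + g (2 * k) ≤ g 0 := by
    intro k
    induction k with
    | zero => simp
    | succ k ih =>
      have e1 : (-1 : ℝ) ^ (2 * k) = 1 := by simp
      have e2 : (-1 : ℝ) ^ (2 * k + 1) = -1 := by rw [pow_succ]; simp
      rw [show 2 * (k + 1) = 2 * k + 1 + 1 by ring, Finset.sum_range_succ, Finset.sum_range_succ,
        e1, e2]
      have h1 : g (2 * k + 1) ≤ g (2 * k) := hg (by omega)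
      have h2 : g (2 * k + 1 + 1) ≤ g (2 * k + 1) := hg (by omega)
      constructor <;> linarith [ih.1, ih.2]
  rcases Nat.even_or_odd' n with ⟨j, rfl | rfl⟩
  · have := key j
    exact ⟨this.1, by linarith [this.2, h0 (2 * j)]⟩
  · have := key j
    rw [Finset.sum_range_succ]
    have e1 : (-1 : ℝ) ^ (2 * j) = 1 := by simp
    rw [e1, one_mul]
    exact ⟨by linarith [this.1, h0 (2 * j)], this.2⟩

theorem mc_log_antitone :
    Antitone (fun i : ℕ => Real.log ((2 * (i + 1) + 1 : ℕ) : ℝ) / ((2 * (i + 1) + 1 : ℕ) : ℝ)) := by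
  intro i j hij
  have he : Real.exp 1 ≤ 3 := by
    have := Real.exp_one_lt_d9
    linarith
  have h1 : (3 : ℝ) ≤ ((2 * (i + 1) + 1 : ℕ) : ℝ) := by
    push_cast
    have : (0 : ℝ) ≤ i := Nat.cast_nonneg i
    linarith
  have h2 : ((2 * (i + 1) + 1 : ℕ) : ℝ) ≤ ((2 * (j + 1) + 1 : ℕ) : ℝ) := by
    have : 2 * (i + 1) + 1 ≤ 2 * (j + 1) + 1 := by omega
    exact_mod_cast this
  exact Real.log_div_self_antitoneOn (he.trans h1) (he.trans (h1.trans h2)) h2

/-- `∑ χ(n) log n / n` is bounded -/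
theorem mc_T_bound (N : ℕ) :
    |∑ n ∈ Finset.Ioc 0 N, (ZMod.χ₄ (n : ZMod 4) : ℝ) * (Real.log n / n)| ≤ Real.log 3 / 3 := by
  rw [mc_alt (fun n => Real.log n / n)]
  have h3 : 0 ≤ Real.log 3 / 3 := by
    have : 0 ≤ Real.log 3 := Real.log_nonneg (by norm_num)
    positivity
  rcases Nat.eq_zero_or_pos ((N + 1) / 2) with h | h
  · rw [h]
    simpa using h3
  · obtain ⟨n, hn⟩ := Nat.exists_eq_succ_of_ne_zero h.ne'
    rw [hn, Nat.succ_eq_add_one, Finset.sum_range_succ']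
    have hb := mc_alt_bound _ mc_log_antitone (fun i => by
      have : (1 : ℝ) ≤ ((2 * (i + 1) + 1 : ℕ) : ℝ) := by
        have : 1 ≤ 2 * (i + 1) + 1 := by omega
        exact_mod_cast this
      have := Real.log_nonneg this
      positivity) n
    have e1 : ∑ k ∈ Finset.range n, (-1 : ℝ) ^ (k + 1) *
        (Real.log ((2 * (k + 1) + 1 : ℕ) : ℝ) / ((2 * (k + 1) + 1 : ℕ) : ℝ))
        = -∑ k ∈ Finset.range n, (-1 : ℝ) ^ k *
        (Real.log ((2 * (k + 1) + 1 : ℕ) : ℝ) / ((2 * (k + 1) + 1 : ℕ) : ℝ)) := by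
      rw [← Finset.sum_neg_distrib]
      refine Finset.sum_congr rfl (fun k _ => ?_)
      rw [pow_succ]
      ring
    rw [e1]
    have e2 : (-1 : ℝ) ^ 0 * (Real.log ((2 * 0 + 1 : ℕ) : ℝ) / ((2 * 0 + 1 : ℕ) : ℝ)) = 0 := by
      simp
    rw [e2, add_zero, abs_neg, abs_of_nonneg hb.1]
    refine hb.2.trans (le_of_eq ?_)
    norm_num

/-- `∑_{n ≤ N} χ(n) log n / n` is bounded (alternating sum over odd `n` of an eventually decreasing
function) and equals `∑_{m ≤ N} (χ(m) Λ(m) / m) ∑_{d ≤ N/m} χ(d) / d`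
`= L ∑_{m ≤ N} χ(m) Λ(m) / m + O(∑_{m ≤ N} (Λ(m) / m) (m / N))`, where `L = ∑ χ(d) / d ≥ 2/3` and the tail of
this alternating series after `y` is at most `1 / y` (up to a constant); `∑_{m ≤ N} Λ(m) ≤ C N`. -/
theorem mert_chi : ∃ C : ℝ, ∀ N : ℕ, 1 ≤ N →
    |∑ n ∈ Finset.Icc 1 N, (ZMod.χ₄ (n : ZMod 4) : ℝ) * ArithmeticFunction.vonMangoldt n / (n : ℝ)| ≤
      C := by
  have hpi := Real.pi_pos
  refine ⟨(Real.log 3 / 3 + (Real.log 4 + 4)) * (4 / Real.pi), fun N hN => ?_⟩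
  have hIcc : Finset.Icc 1 N = Finset.Ioc 0 N := by
    ext x; simp only [Finset.mem_Icc, Finset.mem_Ioc]; omega
  rw [hIcc]
  have hNpos : (0 : ℝ) < N := by exact_mod_cast hN
  have hT := mc_T_bound N
  have hconv := ArithmeticFunction.sum_Ioc_mul_eq_sum_sum mcF mcG N
  rw [Finset.sum_congr rfl (fun n _ => mcF_mul_mcG n)] at hconv
  rw [hconv] at hT
  -- the inner sums
  have hinner : ∀ k : ℕ, |∑ d ∈ Finset.Ioc 0 k, mcG d - Real.pi / 4| ≤ 1 / ((k : ℝ) + 1) := by
    intro k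
    have e1 : ∑ d ∈ Finset.Ioc 0 k, mcG d
        = ∑ i ∈ Finset.range ((k + 1) / 2), (-1 : ℝ) ^ i * (1 / (2 * (i : ℝ) + 1)) := by
      have e2 := mc_alt (fun d => 1 / (d : ℝ)) k
      have e3 : ∑ d ∈ Finset.Ioc 0 k, mcG d
          = ∑ d ∈ Finset.Ioc 0 k, (ZMod.χ₄ (d : ZMod 4) : ℝ) * (1 / (d : ℝ)) := by
        refine Finset.sum_congr rfl (fun d _ => ?_)
        rw [mcG_apply]
        ring
      rw [e3, e2]
      refine Finset.sum_congr rfl (fun i _ => ?_)
      push_cast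
      rfl
    rw [e1]
    refine (mc_leibniz _).trans ?_
    apply one_div_le_one_div_of_le (by positivity)
    have h1 : k ≤ 2 * ((k + 1) / 2) := by omega
    have h2 : (k : ℝ) ≤ 2 * (((k + 1) / 2 : ℕ) : ℝ) := by exact_mod_cast h1
    linarith
  have hchi : ∀ a : ZMod 4, |(ZMod.χ₄ a : ℝ)| ≤ 1 := by
    intro a
    rcases ZMod.isQuadratic_χ₄ a with h | h | h <;> rw [h] <;> simp
  have hpsi : ∑ n ∈ Finset.Ioc 0 N, ArithmeticFunction.vonMangoldt n ≤ (Real.log 4 + 4) * N := by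
    have h1 := Chebyshev.psi_le_const_mul_self (x := (N : ℝ)) hNpos.le
    refine le_trans (le_of_eq ?_) h1
    unfold Chebyshev.psi
    rw [Nat.floor_natCast]
  set M : ℝ := ∑ n ∈ Finset.Ioc 0 N, mcF n with hM
  have hdiff : |∑ n ∈ Finset.Ioc 0 N, mcF n * ∑ d ∈ Finset.Ioc 0 (N / n), mcG d
      - Real.pi / 4 * M| ≤ Real.log 4 + 4 := by
    have e1 : ∑ n ∈ Finset.Ioc 0 N, mcF n * ∑ d ∈ Finset.Ioc 0 (N / n), mcG d
        - Real.pi / 4 * M
        = ∑ n ∈ Finset.Ioc 0 N, mcF n * (∑ d ∈ Finset.Ioc 0 (N / n), mcG d - Real.pi / 4) := by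
      rw [hM, Finset.mul_sum, ← Finset.sum_sub_distrib]
      refine Finset.sum_congr rfl (fun n _ => ?_)
      ring
    rw [e1]
    refine (Finset.abs_sum_le_sum_abs _ _).trans ?_
    have h1 : ∀ n ∈ Finset.Ioc 0 N, |mcF n * (∑ d ∈ Finset.Ioc 0 (N / n), mcG d - Real.pi / 4)|
        ≤ ArithmeticFunction.vonMangoldt n / N := by
      intro n hn
      rw [Finset.mem_Ioc] at hn
      have hn0 : (0 : ℝ) < n := by exact_mod_cast hn.1
      have hv : 0 ≤ ArithmeticFunction.vonMangoldt n := ArithmeticFunction.vonMangoldt_nonneg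
      rw [abs_mul]
      have h2 : |mcF n| ≤ ArithmeticFunction.vonMangoldt n / n := by
        rw [mcF_apply, abs_div, abs_mul, abs_of_nonneg hv, abs_of_pos hn0]
        apply div_le_div_of_nonneg_right _ hn0.le
        have := hchi (n : ZMod 4)
        nlinarith
      have h3 : |∑ d ∈ Finset.Ioc 0 (N / n), mcG d - Real.pi / 4| ≤ n / N := by
        refine (hinner (N / n)).trans ?_
        rw [div_le_div_iff₀ (by positivity) hNpos, one_mul]
        have h4 : N < n * (N / n + 1) := by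
          have := Nat.lt_mul_div_succ N hn.1
          simpa [Nat.succ_eq_add_one] using this
        have h5 : (N : ℝ) < n * (((N / n : ℕ) : ℝ) + 1) := by exact_mod_cast h4
        linarith
      calc |mcF n| * |∑ d ∈ Finset.Ioc 0 (N / n), mcG d - Real.pi / 4|
          ≤ (ArithmeticFunction.vonMangoldt n / n) * (n / N) := by
            apply mul_le_mul h2 h3 (abs_nonneg _) (by positivity)
        _ = ArithmeticFunction.vonMangoldt n / N := by
            field_simp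
    refine (Finset.sum_le_sum h1).trans ?_
    rw [← Finset.sum_div, div_le_iff₀ hNpos]
    exact hpsi
  have hMeq : ∑ n ∈ Finset.Ioc 0 N, (ZMod.χ₄ (n : ZMod 4) : ℝ) *
      ArithmeticFunction.vonMangoldt n / (n : ℝ) = M := rfl
  rw [hMeq]
  have h6 : |Real.pi / 4 * M| ≤ Real.log 3 / 3 + (Real.log 4 + 4) := by
    have h7 := abs_le.1 hdiff
    have h8 := abs_le.1 hT
    rw [abs_le]
    constructor <;> linarith [h7.1, h7.2, h8.1, h8.2]
  rw [abs_mul, abs_of_pos (by positivity : (0 : ℝ) < Real.pi / 4)] at h6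
  have h9 : |M| = (Real.pi / 4 * |M|) * (4 / Real.pi) := by
    field_simp
  rw [h9]
  exact mul_le_mul_of_nonneg_right h6 (by positivity)

end Pool.Agent.GaussMR
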