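import Pool.Agent.Lib_MP_f1a94e_mr.MertOne
import Pool.Agent.Lib_MP_f1a94e_mr.MertChi

/-!
# Piece MERTENSA: Mertens' first theorem for primes `1 mod 4`
-/

set_option autoImplicit false

namespace Pool.Agent.GaussMR

/-- The proper prime powers contribute a bounded amount. -/
theorem mertensA_powers : ∃ C : ℝ, ∀ N : ℕ, ∑ n ∈ Finset.Icc 1 N,
    (if n.Prime then 0 else ArithmeticFunction.vonMangoldt n) / (n : ℝ) ≤ C := by
  have h := ArithmeticFunction.vonMangoldt.summable_residueClass_non_primes_div (0 : ZMod 1)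
  have e : ∀ n : ℕ, (if n.Prime then 0 else ArithmeticFunction.vonMangoldt.residueClass
      (0 : ZMod 1) n) / (n : ℝ) =
      (if n.Prime then 0 else ArithmeticFunction.vonMangoldt n) / (n : ℝ) := by
    intro n
    congr 1
    split_ifs
    · rfl
    · rw [ArithmeticFunction.vonMangoldt.residueClass, Set.indicator_of_mem]
      exact Subsingleton.elim _ _
  simp only [e] at h
  refine ⟨∑' n : ℕ, (if n.Prime then 0 else ArithmeticFunction.vonMangoldt n) / (n : ℝ),
    fun N => h.sum_le_tsum _ fun n _ => ?_⟩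
  split_ifs
  · simp
  · exact div_nonneg ArithmeticFunction.vonMangoldt_nonneg n.cast_nonneg

/-- half the sum of `mert_one` and `mert_chi`: `(1 + χ(n)) / 2` is the indicator of `n = 1 mod 4` up to
even numbers; powers of 2 and proper prime powers contribute `O(1)`; `log ⌊x⌋ = log x + O(1)` -/
theorem mertens_log : ∃ C : ℝ, ∀ x : ℝ, 2 ≤ x →
    |∑ p ∈ (Finset.Icc 1 ⌊x⌋₊).filter (fun p => p.Prime ∧ p % 4 = 1), Real.log p / p -
      Real.log x / 2| ≤ C := by
  obtain ⟨C1, h1⟩ := mert_one
  obtain ⟨C2, h2⟩ := mert_chi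
  obtain ⟨C3, h3⟩ := mertensA_powers
  refine ⟨C1 / 2 + C2 / 2 + (C3 + 1) + Real.log 2 / 2, fun x hx => ?_⟩
  set N := ⌊x⌋₊ with hN
  have hN1 : 1 ≤ N := by
    rw [hN, Nat.one_le_floor_iff]
    linarith
  have hNpos : (0 : ℝ) < N := by exact_mod_cast hN1
  have k1 := h1 N hN1
  have k2 := h2 N hN1
  have k3 := h3 N
  set S1 := ∑ n ∈ Finset.Icc 1 N, ArithmeticFunction.vonMangoldt n / (n : ℝ) with hS1
  set S2 := ∑ n ∈ Finset.Icc 1 N,
    (ZMod.χ₄ (n : ZMod 4) : ℝ) * ArithmeticFunction.vonMangoldt n / (n : ℝ) with hS2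
  set A := ∑ p ∈ (Finset.Icc 1 N).filter (fun p => p.Prime ∧ p % 4 = 1), Real.log p / p with hA
  -- comparison of the logarithms
  have hlog : |Real.log N - Real.log x| ≤ Real.log 2 := by
    have a1 : (N : ℝ) ≤ x := Nat.floor_le (by linarith)
    have a2 : x ≤ 2 * N := by
      have := Nat.lt_floor_add_one x
      rw [← hN] at this
      have : (1 : ℝ) ≤ N := by exact_mod_cast hN1
      linarith
    have b1 := Real.log_le_log hNpos a1
    have b2 := Real.log_le_log (by linarith) a2
    rw [Real.log_mul (by norm_num) hNpos.ne'] at b2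
    rw [abs_le]
    constructor <;> linarith [Real.log_nonneg (by norm_num : (1 : ℝ) ≤ 2)]
  -- termwise comparison
  have hterm : ∀ n ∈ Finset.Icc 1 N,
      |(if n.Prime ∧ n % 4 = 1 then Real.log n / (n : ℝ) else 0) -
        (ArithmeticFunction.vonMangoldt n / (n : ℝ) +
          (ZMod.χ₄ (n : ZMod 4) : ℝ) * ArithmeticFunction.vonMangoldt n / (n : ℝ)) / 2| ≤
      (if n.Prime then 0 else ArithmeticFunction.vonMangoldt n) / (n : ℝ) +
        (if n = 2 then 1 else 0) := by
    intro n hn
    have hn1 : 1 ≤ n := (Finset.mem_Icc.1 hn).1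
    have hnpos : (0 : ℝ) < n := by exact_mod_cast hn1
    by_cases hp : n.Prime
    · have hΛ : ArithmeticFunction.vonMangoldt n = Real.log n :=
        ArithmeticFunction.vonMangoldt_apply_prime hp
      rw [if_pos hp, zero_div, zero_add, hΛ]
      rcases hp.eq_two_or_odd with h2 | hodd
      · subst h2
        have hχ : ZMod.χ₄ ((2 : ℕ) : ZMod 4) = 0 := by decide
        rw [hχ]
        simp only [Nat.reduceMod, Int.cast_zero, if_true]
        have l1 := Real.log_two_lt_d9
        have l2 := Real.log_two_gt_d9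
        rw [if_neg (by norm_num), abs_le]
        push_cast
        constructor <;> linarith
      · have hne : n ≠ 2 := by
          rintro rfl
          simp at hodd
        rw [if_neg hne]
        have h4 : n % 4 = 1 ∨ n % 4 = 3 := by omega
        rcases h4 with h4 | h4
        · rw [ZMod.χ₄_nat_one_mod_four h4, if_pos ⟨hp, h4⟩]
          simp
        · rw [ZMod.χ₄_nat_three_mod_four h4, if_neg (by omega)]
          simp [neg_div]
    · have hne : n ≠ 2 := by
        rintro rfl
        exact hp Nat.prime_two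
      rw [if_neg hp, if_neg hne, if_neg (fun h => hp h.1), add_zero, zero_sub, abs_neg]
      have hΛ : 0 ≤ ArithmeticFunction.vonMangoldt n / (n : ℝ) :=
        div_nonneg ArithmeticFunction.vonMangoldt_nonneg hnpos.le
      have hχ : |(ZMod.χ₄ (n : ZMod 4) : ℝ)| ≤ 1 := by
        rw [ZMod.χ₄_nat_eq_if_mod_four]
        split_ifs <;> norm_num
      rw [mul_div_assoc]
      set L := ArithmeticFunction.vonMangoldt n / (n : ℝ) with hL
      set c := (ZMod.χ₄ (n : ZMod 4) : ℝ) with hc
      rw [abs_le] at hχ ⊢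
      constructor <;> nlinarith [hχ.1, hχ.2]
  have hAsum : A = ∑ n ∈ Finset.Icc 1 N, (if n.Prime ∧ n % 4 = 1 then Real.log n / (n : ℝ) else 0) := by
    rw [hA, Finset.sum_filter]
  have hdiff : |A - (S1 + S2) / 2| ≤ C3 + 1 := by
    have e1 : A - (S1 + S2) / 2 = ∑ n ∈ Finset.Icc 1 N,
        ((if n.Prime ∧ n % 4 = 1 then Real.log n / (n : ℝ) else 0) -
        (ArithmeticFunction.vonMangoldt n / (n : ℝ) +
          (ZMod.χ₄ (n : ZMod 4) : ℝ) * ArithmeticFunction.vonMangoldt n / (n : ℝ)) / 2) := by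
      rw [Finset.sum_sub_distrib, ← hAsum, ← Finset.sum_div, Finset.sum_add_distrib]
    rw [e1]
    refine (Finset.abs_sum_le_sum_abs _ _).trans ((Finset.sum_le_sum hterm).trans ?_)
    rw [Finset.sum_add_distrib]
    refine add_le_add k3 ?_
    rw [Finset.sum_ite_eq']
    split_ifs <;> norm_num
  have e2 : A - Real.log x / 2 = (A - (S1 + S2) / 2) + (S1 - Real.log N) / 2 + S2 / 2 +
      (Real.log N - Real.log x) / 2 := by ring
  rw [e2]
  have t1 : |(S1 - Real.log N) / 2| ≤ C1 / 2 := by
    rw [abs_div, abs_of_pos (by norm_num : (0 : ℝ) < 2)]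
    linarith
  have t2 : |S2 / 2| ≤ C2 / 2 := by
    rw [abs_div, abs_of_pos (by norm_num : (0 : ℝ) < 2)]
    linarith
  have t3 : |(Real.log N - Real.log x) / 2| ≤ Real.log 2 / 2 := by
    rw [abs_div, abs_of_pos (by norm_num : (0 : ℝ) < 2)]
    linarith
  refine (abs_add_le _ _).trans ?_
  have u1 := abs_add_le (A - (S1 + S2) / 2 + (S1 - Real.log N) / 2) (S2 / 2)
  have u2 := abs_add_le (A - (S1 + S2) / 2) ((S1 - Real.log N) / 2)
  linarith

end Pool.Agent.GaussMR
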