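import Pool.Agent.Lib_MP_f1a94e_mr.Basic

/-!
# Piece SPLITA: split primes
-/

set_option autoImplicit false

namespace Pool.Agent.GaussMR

theorem Spl.prime {w : G} (h : Spl w) : Prime w := by
  have hp : (nm w).Prime := h.1
  have hirr : Irreducible w := by
    constructor
    · intro hu
      have := nm_eq_one_iff.2 hu
      rw [this] at hp
      exact Nat.not_prime_one hp
    · intro a b hab
      rw [hab, nm_mul] at hp
      rcases Nat.prime_mul_iff.1 hp with ⟨_, h1⟩ | ⟨_, h1⟩
      · exact Or.inr (nm_eq_one_iff.1 h1)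
      · exact Or.inl (nm_eq_one_iff.1 h1)
  exact hirr.prime

theorem Spl.odd {w : G} (h : Spl w) : Odd (nm w) := by
  rw [Nat.odd_iff]
  have := h.2
  omega

theorem spl_nm_natCast (n : ℕ) : nm (n : G) = n ^ 2 := by
  have h : (nm (n : G) : ℤ) = ((n ^ 2 : ℕ) : ℤ) := by
    rw [nm_eq]
    simp
  exact_mod_cast h

theorem Spl.prim {w : G} (h : Spl w) : Prim w := by
  rw [prim_iff]
  intro n hn
  have h1 := nm_dvd hn
  rw [spl_nm_natCast] at h1
  rcases (Nat.dvd_prime h.1).1 h1 with h2 | h2
  · exact (Nat.pow_eq_one.1 h2).resolve_right (by norm_num)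
  · exfalso
    have h3 := h.1
    rw [← h2] at h3
    exact Nat.Prime.not_prime_pow (le_refl 2) h3

theorem Spl.conj {w : G} (h : Spl w) : Spl (star w) := by
  unfold Spl at h ⊢
  rw [nm_star]
  exact h

/-- a split prime is not associated to its conjugate -/
theorem Spl.not_dvd_star {w : G} (h : Spl w) : ¬(w ∣ star w) := by
  intro hd
  have hpp : Prime ((nm w : ℕ) : ℤ) := Nat.prime_iff_prime_int.1 h.1
  have h2 : ¬(((nm w : ℕ) : ℤ) ∣ 2) := by
    intro h3
    have h4 : nm w ∣ 2 := by exact_mod_cast h3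
    have h5 := Nat.le_of_dvd (by norm_num) h4
    have h6 := h.2
    have h7 := h.1.two_le
    omega
  have key : ∀ x : G, w ∣ x → ((nm w : ℕ) : ℤ) ∣ x.re ^ 2 + x.im ^ 2 := by
    intro x hx
    rw [← nm_eq]
    exact_mod_cast nm_dvd hx
  have h3 : ((nm w : ℕ) : ℤ) ∣ w.re := by
    have h4 := key (star w + w) (dvd_add hd (dvd_refl w))
    have e1 : (star w + w).re = 2 * w.re := by
      simp
      ring
    have e2 : (star w + w).im = 0 := by simp
    rw [e1, e2] at h4
    have h5 : ((nm w : ℕ) : ℤ) ∣ (2 * w.re) ^ 2 := by simpa using h4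
    exact (hpp.dvd_mul.1 (hpp.dvd_of_dvd_pow h5)).resolve_left h2
  have h3' : ((nm w : ℕ) : ℤ) ∣ w.im := by
    have h4 := key (w - star w) (dvd_sub (dvd_refl w) hd)
    have e1 : (w - star w).re = 0 := by simp
    have e2 : (w - star w).im = 2 * w.im := by
      simp
      ring
    rw [e1, e2] at h4
    have h5 : ((nm w : ℕ) : ℤ) ∣ (2 * w.im) ^ 2 := by simpa using h4
    exact (hpp.dvd_mul.1 (hpp.dvd_of_dvd_pow h5)).resolve_left h2
  have h4 : IsCoprime w.re w.im := h.prim
  exact hpp.not_isUnit (h4.isUnit_of_dvd' h3 h3')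

theorem spl_mul_star (w : G) : w * star w = ((nm w : ℕ) : G) := by
  have h := nm_eq w
  ext
  · have e : (((nm w : ℕ) : G)).re = ((nm w : ℕ) : ℤ) := by simp
    rw [e, h]
    simp
    ring
  · simp
    ring

/-- `w z` is primitive iff `star w` does not divide the primitive `z`: if a prime number `q` divides
`w z` then `q ∤ z`; `q ≠ nm w` is impossible (multiply by `star w`), and for `q = nm w = w * star w`
the condition is `star w ∣ z`. -/
theorem prim_mul_iff {w z : G} (h : Spl w) (hz : Prim z) : Prim (w * z) ↔ ¬(star w ∣ z) := by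
  have hw0 : w ≠ 0 := h.prime.ne_zero
  constructor
  · rintro h1 ⟨u, rfl⟩
    have h2 := prim_iff.1 h1 (nm w) ⟨u, by rw [← spl_mul_star]; ring⟩
    have h3 := h.1
    rw [h2] at h3
    exact Nat.not_prime_one h3
  · intro h1
    rw [prim_iff]
    intro n hn
    by_contra hn1
    obtain ⟨q, hq, hqn⟩ := Nat.exists_prime_and_dvd hn1
    have h2 : ((q : ℕ) : G) ∣ w * z := dvd_trans (by exact_mod_cast Nat.cast_dvd_cast hqn) hn
    by_cases hqp : q = nm w
    · rw [hqp, ← spl_mul_star] at h2
      exact h1 ((mul_dvd_mul_iff_left hw0).1 h2)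
    · have h3 : ((q : ℕ) : G) ∣ ((nm w : ℕ) : G) * z := by
        rw [← spl_mul_star]
        have : w * star w * z = star w * (w * z) := by ring
        rw [this]
        exact Dvd.dvd.mul_left h2 _
      have h4 : Nat.Coprime q (nm w) := (Nat.coprime_primes hq h.1).2 hqp
      have h5 : IsCoprime ((q : ℕ) : G) ((nm w : ℕ) : G) := by
        have h6 : IsCoprime ((q : ℕ) : ℤ) ((nm w : ℕ) : ℤ) := Nat.isCoprime_iff_coprime.2 h4
        have h7 := h6.map (Int.castRingHom G)
        simpa using h7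
      have h6 : ((q : ℕ) : G) ∣ z := h5.dvd_of_dvd_mul_left h3
      have h7 := prim_iff.1 hz q h6
      exact hq.one_lt.ne' h7

theorem Spl.coprime {w w' : G} (h : Spl w) (h' : Spl w') (hn : nm w ≠ nm w') : IsCoprime w w' := by
  rw [h.prime.irreducible.coprime_iff_not_dvd]
  intro hd
  have h1 := nm_dvd hd
  rcases (Nat.dvd_prime h'.1).1 h1 with h2 | h2
  · have h3 := h.1
    rw [h2] at h3
    exact Nat.not_prime_one h3
  · exact hn h2

end Pool.Agent.GaussMR
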