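import Pool.Agent.Lib_MP_f1a94e_mr.SplitA

/-!
# Piece SPLITB: the canonical split primes PP
-/

set_option autoImplicit false

namespace Pool.Agent.GaussMR

theorem mem_PP {P Q : ℝ} {w : G} : w ∈ PP P Q ↔
    P < (nm w : ℝ) ∧ (nm w : ℝ) ≤ Q ∧ (nm w).Prime ∧ 0 < w.im ∧ w.im < w.re := by
  classical
  simp only [PP, Finset.mem_filter, mem_ball]
  tauto

theorem PP_spl {P Q : ℝ} {w : G} (h : w ∈ PP P Q) : Spl w := by
  obtain ⟨_, _, hp, h1, h2⟩ := mem_PP.1 h
  refine ⟨hp, ?_⟩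
  have hn : (nm w : ℤ) = w.re ^ 2 + w.im ^ 2 := nm_eq w
  have h5 : (2 : ℤ) < nm w := by
    rw [hn]
    nlinarith
  have hodd : nm w % 2 = 1 := by
    rcases hp.eq_two_or_odd with h3 | h3
    · rw [h3] at h5
      norm_num at h5
    · exact h3
  have hodd' : (nm w : ℤ) % 2 = 1 := by omega
  have key : ∀ a b : ℤ, (a ^ 2 + b ^ 2) % 2 = 1 → (a ^ 2 + b ^ 2) % 4 = 1 := by
    intro a b hab
    rcases Int.even_or_odd' a with ⟨x, rfl | rfl⟩ <;> rcases Int.even_or_odd' b with ⟨y, rfl | rfl⟩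
    · exfalso
      have : (2 * x) ^ 2 + (2 * y) ^ 2 = 2 * (2 * x ^ 2 + 2 * y ^ 2) := by ring
      omega
    · have : (2 * x) ^ 2 + (2 * y + 1) ^ 2 = 4 * (x ^ 2 + y ^ 2 + y) + 1 := by ring
      omega
    · have : (2 * x + 1) ^ 2 + (2 * y) ^ 2 = 4 * (x ^ 2 + x + y ^ 2) + 1 := by ring
      omega
    · exfalso
      have : (2 * x + 1) ^ 2 + (2 * y + 1) ^ 2 = 2 * (2 * x ^ 2 + 2 * x + 2 * y ^ 2 + 2 * y + 1) := by
        ring
      omega
  have h6 : (nm w : ℤ) % 4 = 1 := by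
    rw [hn]
    apply key
    rw [← hn]
    exact hodd'
  omega

/-- a multiple of `w` with the same norm is `± w` or `± i w` -/
theorem split_assoc {w z : G} (hd : w ∣ z) (hn : nm z = nm w) (hw : nm w ≠ 0) :
    (z.re = w.re ∧ z.im = w.im) ∨ (z.re = -w.re ∧ z.im = -w.im) ∨
      (z.re = -w.im ∧ z.im = w.re) ∨ (z.re = w.im ∧ z.im = -w.re) := by
  obtain ⟨c, rfl⟩ := hd
  have hc : nm c = 1 := by
    rw [nm_mul] at hn
    exact Nat.eq_of_mul_eq_mul_left (Nat.pos_of_ne_zero hw) (by rw [hn, mul_one])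
  have hc' : c.re ^ 2 + c.im ^ 2 = 1 := by
    rw [← nm_eq, hc]
    rfl
  have hre : (w * c).re = w.re * c.re - w.im * c.im := by
    simp
    ring
  have him : (w * c).im = w.re * c.im + w.im * c.re := by simp
  rw [hre, him]
  have h1 : -1 ≤ c.re := by nlinarith [sq_nonneg c.im]
  have h2 : c.re ≤ 1 := by nlinarith [sq_nonneg c.im]
  have h3 : -1 ≤ c.im := by nlinarith [sq_nonneg c.re]
  have h4 : c.im ≤ 1 := by nlinarith [sq_nonneg c.re]
  have h5 : c.re = -1 ∨ c.re = 0 ∨ c.re = 1 := by omega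
  have h6 : c.im = -1 ∨ c.im = 0 ∨ c.im = 1 := by omega
  rcases h5 with h5 | h5 | h5 <;> rcases h6 with h6 | h6 | h6 <;> rw [h5, h6] at hc' ⊢ <;>
    first
    | (left; constructor <;> ring1)
    | (right; left; constructor <;> ring1)
    | (right; right; left; constructor <;> ring1)
    | (right; right; right; constructor <;> ring1)
    | (exfalso; norm_num at hc')

theorem PP_not_dvd_star {P Q P' Q' : ℝ} {w w' : G} (h : w ∈ PP P Q) (h' : w' ∈ PP P' Q') :
    ¬(w ∣ star w') := by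
  intro hd
  obtain ⟨_, _, hp, h1, h2⟩ := mem_PP.1 h
  obtain ⟨_, _, hp', h1', h2'⟩ := mem_PP.1 h'
  have hn : nm (star w') = nm w := by
    have h3 := nm_dvd hd
    rw [nm_star] at h3
    rw [nm_star]
    exact ((Nat.prime_dvd_prime_iff_eq hp hp').1 h3).symm
  have h4 := split_assoc hd hn hp.ne_zero
  have hre : (star w').re = w'.re := rfl
  have him : (star w').im = -w'.im := rfl
  rw [hre, him] at h4
  omega

theorem PP_inj {P Q P' Q' : ℝ} {w w' : G} (h : w ∈ PP P Q) (h' : w' ∈ PP P' Q')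
    (hn : nm w = nm w') : w = w' := by
  obtain ⟨_, _, hp, h1, h2⟩ := mem_PP.1 h
  obtain ⟨_, _, hp', h1', h2'⟩ := mem_PP.1 h'
  have hpr : Prime w := (PP_spl h).prime
  have hdd : w ∣ w' * star w' := by
    have e1 : w * star w = w' * star w' := by
      have e2 : ∀ z : G, z * star z = ((nm z : ℤ) : G) := by
        intro z
        apply Zsqrtd.ext
        · rw [Zsqrtd.re_intCast, nm_eq]
          simp
          ring
        · rw [Zsqrtd.im_intCast]
          simp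
          ring
      rw [e2, e2, hn]
    rw [← e1]
    exact dvd_mul_right _ _
  rcases hpr.dvd_or_dvd hdd with hd | hd
  · have h4 := split_assoc hd hn.symm hp.ne_zero
    apply Zsqrtd.ext <;> omega
  · exact absurd hd (PP_not_dvd_star h h')

theorem PP_dvd {P Q P' Q' : ℝ} {w w' : G} (h : w ∈ PP P Q) (h' : w' ∈ PP P' Q')
    (hd : w ∣ w') : w = w' := by
  obtain ⟨_, _, hp, _, _⟩ := mem_PP.1 h
  obtain ⟨_, _, hp', _, _⟩ := mem_PP.1 h'
  exact PP_inj h h' ((Nat.prime_dvd_prime_iff_eq hp hp').1 (nm_dvd hd))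

/-- Fermat -/
theorem PP_exists {P Q : ℝ} {p : ℕ} (hp : p.Prime) (h1 : p % 4 = 1) (hP : P < (p : ℝ))
    (hQ : (p : ℝ) ≤ Q) : ∃ w ∈ PP P Q, nm w = p := by
  have : Fact p.Prime := ⟨hp⟩
  obtain ⟨a, b, hab⟩ := Nat.Prime.sq_add_sq (p := p) (by omega)
  have aux : ∀ a b : ℕ, a ^ 2 + b ^ 2 = p → b < a → ∃ w ∈ PP P Q, nm w = p := by
    intro a b hab hlt
    have hb : 0 < b := by
      rcases Nat.eq_zero_or_pos b with h0 | h0
      · exfalso
        rw [h0] at hab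
        have h2 : p = a * a := by rw [← hab]; ring
        have h3 : a ∣ p := ⟨a, h2⟩
        rcases (Nat.dvd_prime hp).1 h3 with h4 | h4
        · rw [h4] at h2
          exact hp.one_lt.ne' (by omega)
        · rw [h4] at h2
          have := hp.one_lt
          nlinarith
      · exact h0
    refine ⟨⟨(a : ℤ), (b : ℤ)⟩, ?_, ?_⟩
    · have hn : nm (⟨(a : ℤ), (b : ℤ)⟩ : G) = p := by
        have h2 : (nm (⟨(a : ℤ), (b : ℤ)⟩ : G) : ℤ) = (p : ℤ) := by
          rw [nm_eq, ← hab]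
          push_cast
          ring
        exact_mod_cast h2
      rw [mem_PP, hn]
      refine ⟨hP, hQ, hp, ?_, ?_⟩
      · show (0 : ℤ) < (b : ℤ)
        exact_mod_cast hb
      · show (b : ℤ) < (a : ℤ)
        exact_mod_cast hlt
    · have h2 : (nm (⟨(a : ℤ), (b : ℤ)⟩ : G) : ℤ) = (p : ℤ) := by
        rw [nm_eq, ← hab]
        push_cast
        ring
      exact_mod_cast h2
  rcases lt_trichotomy a b with h | h | h
  · exact aux b a (by omega) h
  · exfalso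
    rw [h] at hab
    omega
  · exact aux a b hab h

theorem Ls_eq (P Q : ℝ) (hP : 0 ≤ P) (hQ : 0 ≤ Q) : Ls P Q =
    ∑ p ∈ (Finset.Icc 1 ⌊Q⌋₊).filter (fun p => p.Prime ∧ p % 4 = 1 ∧ ⌊P⌋₊ < p), (1 : ℝ) / p := by
  unfold Ls
  refine Finset.sum_bij (fun w _ => nm w) ?_ ?_ ?_ ?_
  · intro w hw
    have hs := PP_spl hw
    obtain ⟨h1, h2, h3, _, _⟩ := mem_PP.1 hw
    rw [Finset.mem_filter, Finset.mem_Icc]
    exact ⟨⟨h3.one_lt.le, Nat.le_floor h2⟩, h3, hs.2, (Nat.floor_lt hP).2 h1⟩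
  · intro w hw w' hw' he
    exact PP_inj hw hw' he
  · intro p hp
    rw [Finset.mem_filter, Finset.mem_Icc] at hp
    obtain ⟨⟨_, h2⟩, h3, h4, h5⟩ := hp
    obtain ⟨w, hw, hn⟩ := PP_exists (P := P) (Q := Q) h3 h4 ((Nat.floor_lt hP).1 h5)
      ((Nat.cast_le.2 h2).trans (Nat.floor_le hQ))
    exact ⟨w, hw, hn⟩
  · intro w _
    rfl

theorem card_le_of_PP {P Q Y : ℝ} {s : Finset G} (hs : s ⊆ PP P Q) (hY : 0 ≤ Y)
    (h : ∀ w ∈ s, (nm w : ℝ) ≤ Y) : (s.card : ℝ) ≤ Y := by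
  have h1 : s.card ≤ (Finset.Icc 1 ⌊Y⌋₊).card := by
    refine Finset.card_le_card_of_injOn (fun w => nm w) ?_ ?_
    · intro w hw
      obtain ⟨_, _, h3, _, _⟩ := mem_PP.1 (hs hw)
      simp only [Finset.coe_Icc, Set.mem_Icc]
      exact ⟨h3.one_lt.le, Nat.le_floor (h w hw)⟩
    · intro w hw w' hw' he
      exact PP_inj (hs hw) (hs hw') he
  rw [Nat.card_Icc, Nat.add_sub_cancel] at h1
  exact (Nat.cast_le.2 h1).trans (Nat.floor_le hY)

/-- distinct elements have distinct norms -/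
theorem card_PP_le (P Q : ℝ) (hQ : 0 ≤ Q) : ((PP P Q).card : ℝ) ≤ Q :=
  card_le_of_PP (Finset.Subset.refl _) hQ fun _ hw => (mem_PP.1 hw).2.1

theorem card_blk_le (P Q ρ : ℝ) (v : ℕ) : ((blk P Q ρ v).card : ℝ) ≤ Real.exp ((v + 1) * ρ) := by
  classical
  refine card_le_of_PP (P := P) (Q := Q) ?_ (Real.exp_pos _).le ?_
  · unfold blk
    exact Finset.filter_subset _ _
  · intro w hw
    unfold blk at hw
    exact (Finset.mem_filter.1 hw).2.2

end Pool.Agent.GaussMR
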