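import Pool.Agent.Lib_MP_f1a94e_mr.Defs

/-!
# Elementary lemmas about norms, directions, characters, sign functions
-/

set_option autoImplicit false

namespace Pool.Agent.GaussMR

open Complex

theorem mem_ball {X : ℝ} {z : G} : z ∈ ball X ↔ (nm z : ℝ) ≤ X := by
  simp [ball]

theorem mem_V {X : ℝ} {z : G} : z ∈ V X ↔ (nm z : ℝ) ≤ X ∧ Odd (nm z) ∧ Prim z := by
  classical
  simp [V, mem_ball]

theorem mem_fr {T : ℕ} {k : ℤ} : k ∈ fr T ↔ -(T : ℤ) ≤ k ∧ k ≤ T := by
  simp [fr]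

theorem nm_mul (z w : G) : nm (z * w) = nm z * nm w := by
  unfold nm
  rw [Zsqrtd.norm_mul, Int.natAbs_mul]

theorem nm_star (z : G) : nm (star z) = nm z := by
  have h : (nm (star z) : ℤ) = nm z := by
    rw [nm_eq, nm_eq]
    simp
  exact_mod_cast h

theorem nm_neg (z : G) : nm (-z) = nm z := by
  have h : (nm (-z) : ℤ) = nm z := by
    rw [nm_eq, nm_eq]
    simp
  exact_mod_cast h

@[simp] theorem nm_one : nm 1 = 1 := by
  have h : (nm 1 : ℤ) = 1 := by
    rw [nm_eq]; simp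
  exact_mod_cast h

@[simp] theorem nm_zero : nm 0 = 0 := by
  have h : (nm 0 : ℤ) = 0 := by
    rw [nm_eq]; simp
  exact_mod_cast h

theorem nm_eq_zero {z : G} : nm z = 0 ↔ z = 0 := by
  constructor
  · intro h
    have h' : (nm z : ℤ) = 0 := by exact_mod_cast h
    rw [nm_eq] at h'
    have h1 : z.re = 0 := by nlinarith [sq_nonneg z.re, sq_nonneg z.im]
    have h2 : z.im = 0 := by nlinarith [sq_nonneg z.re, sq_nonneg z.im]
    apply Zsqrtd.ext <;> simp [h1, h2]
  · rintro rfl; exact nm_zero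

theorem nm_pos {z : G} (h : z ≠ 0) : 0 < nm z :=
  Nat.pos_of_ne_zero (fun h' => h (nm_eq_zero.1 h'))

theorem ne_zero_of_odd {z : G} (h : Odd (nm z)) : z ≠ 0 := by
  rintro rfl
  rw [nm_zero] at h
  exact absurd h (by decide)

theorem nm_pos_of_odd {z : G} (h : Odd (nm z)) : 0 < nm z := nm_pos (ne_zero_of_odd h)

theorem nm_eq_one_iff {z : G} : nm z = 1 ↔ IsUnit z := by
  unfold nm
  exact Zsqrtd.norm_eq_one_iff

theorem nm_dvd {z w : G} (h : z ∣ w) : nm z ∣ nm w := by
  obtain ⟨c, rfl⟩ := h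
  rw [nm_mul]
  exact dvd_mul_right _ _

theorem odd_nm_mul {z w : G} : Odd (nm (z * w)) ↔ Odd (nm z) ∧ Odd (nm w) := by
  rw [nm_mul, Nat.odd_mul]

/-- `z` has odd norm iff exactly one of its coordinates is odd -/
theorem odd_nm_iff {z : G} : Odd (nm z) ↔ Odd (z.re + z.im) := by
  rw [← Int.odd_coe_nat, nm_eq]
  constructor
  · intro h
    rcases Int.even_or_odd (z.re + z.im) with h1 | h1
    · exfalso
      have h2 : z.re ^ 2 + z.im ^ 2 = (z.re + z.im) * (z.re + z.im) - 2 * (z.re * z.im) := by ring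
      rw [h2] at h
      have h3 : Even ((z.re + z.im) * (z.re + z.im) - 2 * (z.re * z.im)) :=
        (h1.mul_right _).sub (even_two_mul _)
      exact (Int.not_odd_iff_even.2 h3) h
    · exact h1
  · intro h
    have h2 : z.re ^ 2 + z.im ^ 2 = (z.re + z.im) * (z.re + z.im) - 2 * (z.re * z.im) := by ring
    rw [h2]
    exact (h.mul h).sub_even (even_two_mul _)

theorem star_mul_eq (z w : G) : star z * w = ⟨dot z w, det z w⟩ := by
  apply Zsqrtd.ext
  · simp [dot]
  · simp [det]; ring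

theorem dot_sq_add_det_sq (z w : G) : dot z w ^ 2 + det z w ^ 2 = (nm z : ℤ) * nm w := by
  rw [nm_eq, nm_eq]
  unfold dot det
  ring

theorem det_self (z : G) : det z z = 0 := by unfold det; ring

theorem det_comm (z w : G) : det w z = -det z w := by unfold det; ring

/-! ### complex absolute value -/

theorem toComplex_eq (z : G) : (z : ℂ) = (z.re : ℂ) + (z.im : ℂ) * I := GaussianInt.toComplex_def z

theorem norm_sq_eq (z : G) : ‖(z : ℂ)‖ ^ 2 = (nm z : ℝ) := by
  rw [← Complex.normSq_eq_norm_sq, Complex.normSq_apply]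
  have h : ((nm z : ℤ) : ℝ) = ((z.re ^ 2 + z.im ^ 2 : ℤ) : ℝ) := by rw [nm_eq]
  push_cast at h
  rw [h, GaussianInt.intCast_re, GaussianInt.intCast_im]
  ring

theorem norm_eq_sqrt (z : G) : ‖(z : ℂ)‖ = Real.sqrt (nm z) := by
  rw [← norm_sq_eq, Real.sqrt_sq (norm_nonneg _)]

theorem norm_pos {z : G} (h : z ≠ 0) : 0 < ‖(z : ℂ)‖ := by
  rw [norm_eq_sqrt]
  exact Real.sqrt_pos.2 (by exact_mod_cast nm_pos h)

theorem toComplex_ne_zero {z : G} (h : z ≠ 0) : (z : ℂ) ≠ 0 := norm_pos_iff.1 (norm_pos h)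

theorem norm_dir {z : G} (h : z ≠ 0) : ‖dir z‖ = 1 := by
  unfold dir
  rw [norm_div, Complex.norm_real, norm_norm, div_self (norm_pos h).ne']

theorem dir_ne_zero {z : G} (h : z ≠ 0) : dir z ≠ 0 := by
  intro h'
  have := norm_dir h
  rw [h', norm_zero] at this
  exact zero_ne_one this

theorem dir_mul (z w : G) : dir (z * w) = dir z * dir w := by
  unfold dir
  rw [GaussianInt.toComplex_mul, norm_mul]
  push_cast
  rw [mul_div_mul_comm]

theorem dir_neg (z : G) : dir (-z) = -dir z := by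
  unfold dir
  rw [GaussianInt.toComplex_neg, norm_neg, neg_div]

theorem toComplex_star' (z : G) : ((star z : G) : ℂ) = (starRingEnd ℂ) (z : ℂ) :=
  GaussianInt.toComplex_star z

theorem dir_star (z : G) : dir (star z) = (starRingEnd ℂ) (dir z) := by
  unfold dir
  rw [toComplex_star', map_div₀, Complex.conj_ofReal, RCLike.norm_conj]

theorem conj_dir {z : G} (h : z ≠ 0) : (starRingEnd ℂ) (dir z) = (dir z)⁻¹ := by
  rw [Complex.inv_def, Complex.normSq_eq_norm_sq, norm_dir h]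
  simp

theorem xi_mul (k : ℤ) (z w : G) : xi k (z * w) = xi k z * xi k w := by
  unfold xi
  rw [dir_mul, mul_zpow]

@[simp] theorem xi_zero (z : G) : xi 0 z = 1 := by
  unfold xi
  exact zpow_zero _

theorem norm_xi (k : ℤ) {z : G} (h : z ≠ 0) : ‖xi k z‖ = 1 := by
  unfold xi
  rw [norm_zpow, norm_dir h, one_zpow]

theorem xi_ne_zero (k : ℤ) {z : G} (h : z ≠ 0) : xi k z ≠ 0 := zpow_ne_zero _ (dir_ne_zero h)

theorem xi_add (j k : ℤ) {z : G} (h : z ≠ 0) : xi (j + k) z = xi j z * xi k z := by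
  unfold xi
  exact zpow_add₀ (dir_ne_zero h) _ _

theorem xi_neg (k : ℤ) (z : G) : xi (-k) z = (xi k z)⁻¹ := by
  unfold xi
  exact zpow_neg _ _

theorem conj_xi (k : ℤ) {z : G} (h : z ≠ 0) : (starRingEnd ℂ) (xi k z) = xi (-k) z := by
  unfold xi
  rw [map_zpow₀, conj_dir h, inv_zpow, zpow_neg]

theorem star_ne_zero' {z : G} (h : z ≠ 0) : star z ≠ 0 := by
  intro h'
  apply h
  have := congrArg star h'
  simpa using this

theorem xi_star (k : ℤ) {z : G} (h : z ≠ 0) : xi k (star z) = xi (-k) z := by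
  rw [← conj_xi k h]
  unfold xi
  rw [dir_star, map_zpow₀]

/-- positive integers have direction one -/
theorem dir_natCast {n : ℕ} (h : 0 < n) : dir (n : G) = 1 := by
  unfold dir
  have h1 : (((n : G) : G) : ℂ) = (n : ℂ) := by simp
  rw [h1]
  have h2 : ‖(n : ℂ)‖ = n := by simp
  rw [h2]
  push_cast
  exact div_self (by exact_mod_cast h.ne')

theorem xi_natCast_mul (k : ℤ) {n : ℕ} (h : 0 < n) (z : G) : xi k ((n : G) * z) = xi k z := by
  rw [xi_mul]
  unfold xi
  rw [dir_natCast h, one_zpow, one_mul]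

/-! ### primitive -/

theorem prim_star {z : G} : Prim (star z) ↔ Prim z := by
  unfold Prim
  rw [Zsqrtd.re_star, Zsqrtd.im_star, IsCoprime.neg_right_iff]

theorem prim_neg {z : G} : Prim (-z) ↔ Prim z := by
  unfold Prim
  simp [IsCoprime.neg_neg_iff]

theorem prim_one : Prim 1 := by
  unfold Prim
  exact isCoprime_one_left

theorem mem_V_star {X : ℝ} {z : G} : star z ∈ V X ↔ z ∈ V X := by
  rw [mem_V, mem_V, nm_star, prim_star]

theorem mem_V_neg {X : ℝ} {z : G} : -z ∈ V X ↔ z ∈ V X := by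
  rw [mem_V, mem_V, nm_neg, prim_neg]

theorem V_ne_zero {X : ℝ} {z : G} (h : z ∈ V X) : z ≠ 0 := ne_zero_of_odd (mem_V.1 h).2.1

/-- a primitive Gaussian integer is not divisible by a natural number `> 1` -/
theorem prim_iff {z : G} : Prim z ↔ ∀ n : ℕ, (n : G) ∣ z → n = 1 := by
  have key : ∀ n : ℕ, (n : G) ∣ z ↔ (n : ℤ) ∣ z.re ∧ (n : ℤ) ∣ z.im := by
    intro n
    have := Zsqrtd.intCast_dvd (d := -1) (n : ℤ) z
    simpa using this
  unfold Prim
  rw [Int.isCoprime_iff_gcd_eq_one]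
  constructor
  · intro h n hn
    rw [key] at hn
    have h1 : (n : ℤ) ∣ (Int.gcd z.re z.im : ℤ) := Int.dvd_coe_gcd hn.1 hn.2
    rw [h] at h1
    exact Nat.dvd_one.1 (by exact_mod_cast h1)
  · intro h
    apply h
    rw [key]
    exact ⟨Int.gcd_dvd_left _ _, Int.gcd_dvd_right _ _⟩

theorem prim_of_mul {z w : G} (h : Prim (z * w)) : Prim z ∧ Prim w := by
  rw [prim_iff] at h
  constructor
  · rw [prim_iff]
    intro n hn
    exact h n (hn.mul_right _)
  · rw [prim_iff]
    intro n hn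
    exact h n (hn.mul_left _)

/-! ### sign functions -/

theorem PM.neg {F : G → ℝ} (hF : PM F) {z : G} (h : Odd (nm z)) : F (-z) = F z := by
  have h1 : Odd (nm (-1 : G)) := by rw [nm_neg, nm_one]; exact odd_one
  have := hF.mul (-1) z h1 h
  rw [hF.neg_one, one_mul, neg_one_mul] at this
  exact this

theorem PM.one {F : G → ℝ} (hF : PM F) : F 1 = 1 := by
  have h1 : Odd (nm (-1 : G)) := by rw [nm_neg, nm_one]; exact odd_one
  have := hF.mul (-1) (-1) h1 h1
  rw [hF.neg_one] at this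
  simpa using this

theorem PM.sq {F : G → ℝ} (hF : PM F) {z : G} (h : Odd (nm z)) : F z ^ 2 = 1 := by
  rcases hF.pm z h with h1 | h1 <;> rw [h1] <;> norm_num

theorem PM.abs {F : G → ℝ} (hF : PM F) {z : G} (h : Odd (nm z)) : |F z| = 1 := by
  rcases hF.pm z h with h1 | h1 <;> rw [h1] <;> norm_num

theorem PM.norm {F : G → ℝ} (hF : PM F) {z : G} (h : Odd (nm z)) : ‖(F z : ℂ)‖ = 1 := by
  rw [Complex.norm_real, Real.norm_eq_abs, hF.abs h]

theorem PM.mul_eq {F : G → ℝ} (hF : PM F) {z w : G} (hz : Odd (nm z)) (hw : Odd (nm w)) :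
    F z * F w = 1 - 2 * (if F z ≠ F w then 1 else 0) := by
  rcases hF.pm z hz with h1 | h1 <;> rcases hF.pm w hw with h2 | h2 <;> rw [h1, h2] <;> norm_num

end Pool.Agent.GaussMR
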