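import Pool.Agent.Lib_MP_f1a94e_mr.Ball0

/-!
# Piece BALL: counting Gaussian integers in discs
-/

set_option autoImplicit false

namespace Pool.Agent.GaussMR

open MeasureTheory

/-- the half open unit square around `z` -/
def sqr (z : G) : Set ℂ :=
  Complex.measurableEquivRealProd ⁻¹'
    (Set.Ico ((z.re : ℝ) - 1 / 2) (z.re + 1 / 2) ×ˢ Set.Ico ((z.im : ℝ) - 1 / 2) (z.im + 1 / 2))

theorem mem_sqr {z : G} {w : ℂ} : w ∈ sqr z ↔
    ((z.re : ℝ) - 1 / 2 ≤ w.re ∧ w.re < z.re + 1 / 2) ∧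
      ((z.im : ℝ) - 1 / 2 ≤ w.im ∧ w.im < z.im + 1 / 2) := by
  unfold sqr
  rw [Set.mem_preimage, Set.mem_prod, Set.mem_Ico, Set.mem_Ico]
  rfl

theorem measurableSet_sqr (z : G) : MeasurableSet (sqr z) :=
  Complex.measurableEquivRealProd.measurable (measurableSet_Ico.prod measurableSet_Ico)

theorem volume_sqr (z : G) : volume (sqr z) = 1 := by
  unfold sqr
  rw [Complex.volume_preserving_equiv_real_prod.measure_preimage
    (measurableSet_Ico.prod measurableSet_Ico).nullMeasurableSet, Measure.volume_eq_prod,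
    Measure.prod_prod, Real.volume_Ico, Real.volume_Ico]
  have h : ∀ x : ℝ, x + 1 / 2 - (x - 1 / 2) = 1 := fun x => by ring
  rw [h, h, ENNReal.ofReal_one, one_mul]

theorem disjoint_sqr {z w : G} (h : z ≠ w) : Disjoint (sqr z) (sqr w) := by
  rw [Set.disjoint_left]
  intro x hx hy
  rw [mem_sqr] at hx hy
  apply h
  have key : ∀ a b : ℤ, ∀ y : ℝ, (a : ℝ) - 1 / 2 ≤ y → y < a + 1 / 2 → (b : ℝ) - 1 / 2 ≤ y →
      y < b + 1 / 2 → a = b := by
    intro a b y h1 h2 h3 h4
    have e1 : (a : ℝ) < b + 1 := by linarith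
    have e2 : (b : ℝ) < a + 1 := by linarith
    have e1' : a < b + 1 := by exact_mod_cast e1
    have e2' : b < a + 1 := by exact_mod_cast e2
    omega
  apply Zsqrtd.ext
  · exact key _ _ _ hx.1.1 hx.1.2 hy.1.1 hy.1.2
  · exact key _ _ _ hx.2.1 hx.2.2 hy.2.1 hy.2.2

theorem volume_union_sqr (S : Finset G) : volume (⋃ z ∈ S, sqr z) = (S.card : ENNReal) := by
  rw [measure_biUnion_finset (fun z _ w _ h => disjoint_sqr h) (fun z _ => measurableSet_sqr z)]
  simp [volume_sqr]

theorem dist_sqr {z : G} {w : ℂ} (h : w ∈ sqr z) : ‖(z : ℂ) - w‖ < 1 := by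
  rw [mem_sqr] at h
  have h1 : ‖(z : ℂ) - w‖ ^ 2 < 1 := by
    rw [← Complex.normSq_eq_norm_sq, Complex.normSq_apply]
    simp only [Complex.sub_re, Complex.sub_im, ← GaussianInt.intCast_re, ← GaussianInt.intCast_im]
    have a1 : |((z.re : ℝ)) - w.re| ≤ 1 / 2 := by
      rw [abs_le]; constructor <;> linarith [h.1.1, h.1.2]
    have a2 : |((z.im : ℝ)) - w.im| ≤ 1 / 2 := by
      rw [abs_le]; constructor <;> linarith [h.2.1, h.2.2]
    have b1 := abs_le.1 a1
    have b2 := abs_le.1 a2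
    nlinarith
  nlinarith [norm_nonneg ((z : ℂ) - w)]

theorem card_ball_upper (t : ℝ) :
    ((ball t).card : ℝ) ≤ Real.pi * (Real.sqrt t + 1) ^ 2 := by
  have hsub : (⋃ z ∈ ball t, sqr z) ⊆ Metric.ball (0 : ℂ) (Real.sqrt t + 1) := by
    intro w hw
    rw [Set.mem_iUnion₂] at hw
    obtain ⟨z, hz, hw⟩ := hw
    rw [mem_ball] at hz
    rw [mem_ball_zero_iff]
    have h1 := dist_sqr hw
    have h2 : ‖(z : ℂ)‖ ≤ Real.sqrt t := by
      rw [norm_eq_sqrt]
      exact Real.sqrt_le_sqrt hz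
    have h3 : ‖w‖ ≤ ‖(z : ℂ)‖ + ‖(z : ℂ) - w‖ := by
      have := norm_sub_le (z : ℂ) ((z : ℂ) - w)
      rwa [sub_sub_cancel] at this
    linarith
  have h1 := measure_mono (μ := volume) hsub
  rw [volume_union_sqr, Complex.volume_ball] at h1
  have hs : 0 ≤ Real.sqrt t + 1 := by positivity
  have h2 : ENNReal.ofReal (Real.sqrt t + 1) ^ 2 * (NNReal.pi : ENNReal) =
      ENNReal.ofReal (Real.pi * (Real.sqrt t + 1) ^ 2) := by
    rw [mul_comm, ENNReal.ofReal_mul Real.pi_pos.le, ENNReal.ofReal_pow hs]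
    congr 1
    rw [← NNReal.coe_real_pi, ENNReal.ofReal_coe_nnreal]
  rw [h2] at h1
  have h3 : ENNReal.ofReal ((ball t).card : ℝ) ≤
      ENNReal.ofReal (Real.pi * (Real.sqrt t + 1) ^ 2) := by
    rwa [ENNReal.ofReal_natCast]
  exact (ENNReal.ofReal_le_ofReal_iff (by positivity)).1 h3

theorem card_ball_lower (t : ℝ) (ht : 1 ≤ t) :
    Real.pi * (Real.sqrt t - 1) ^ 2 ≤ ((ball t).card : ℝ) := by
  have hs1 : 1 ≤ Real.sqrt t := Real.one_le_sqrt.2 ht
  have hsub : Metric.ball (0 : ℂ) (Real.sqrt t - 1) ⊆ ⋃ z ∈ ball t, sqr z := by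
    intro w hw
    rw [mem_ball_zero_iff] at hw
    set z : G := ⟨⌊w.re + 1 / 2⌋, ⌊w.im + 1 / 2⌋⟩ with hz
    have hwz : w ∈ sqr z := by
      rw [mem_sqr, hz]
      have a1 := Int.floor_le (w.re + 1 / 2)
      have a2 := Int.lt_floor_add_one (w.re + 1 / 2)
      have a3 := Int.floor_le (w.im + 1 / 2)
      have a4 := Int.lt_floor_add_one (w.im + 1 / 2)
      simp only
      refine ⟨⟨by linarith, by linarith⟩, by linarith, by linarith⟩
    rw [Set.mem_iUnion₂]
    refine ⟨z, ?_, hwz⟩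
    rw [mem_ball]
    have h1 := dist_sqr hwz
    have h3 : ‖(z : ℂ)‖ ≤ ‖(z : ℂ) - w‖ + ‖w‖ := by
      have := norm_add_le ((z : ℂ) - w) w
      rwa [sub_add_cancel] at this
    have h4 : ‖(z : ℂ)‖ ≤ Real.sqrt t := by linarith
    have h5 : ‖(z : ℂ)‖ ^ 2 ≤ Real.sqrt t ^ 2 := pow_le_pow_left₀ (norm_nonneg _) h4 2
    rwa [norm_sq_eq, Real.sq_sqrt (by linarith)] at h5
  have h1 := measure_mono (μ := volume) hsub
  rw [volume_union_sqr, Complex.volume_ball] at h1
  have hs : 0 ≤ Real.sqrt t - 1 := by linarith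
  have h2 : ENNReal.ofReal (Real.sqrt t - 1) ^ 2 * (NNReal.pi : ENNReal) =
      ENNReal.ofReal (Real.pi * (Real.sqrt t - 1) ^ 2) := by
    rw [mul_comm, ENNReal.ofReal_mul Real.pi_pos.le, ENNReal.ofReal_pow hs]
    congr 1
    rw [← NNReal.coe_real_pi, ENNReal.ofReal_coe_nnreal]
  rw [h2] at h1
  have h3 : ENNReal.ofReal (Real.pi * (Real.sqrt t - 1) ^ 2) ≤
      ENNReal.ofReal ((ball t).card : ℝ) := by
    rwa [ENNReal.ofReal_natCast]
  exact (ENNReal.ofReal_le_ofReal_iff (by positivity)).1 h3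

/-- Gauss circle problem with the trivial error term, constant `π`. -/
theorem ball_asymp_pi (t : ℝ) (ht : 0 ≤ t) :
    |((ball t).card : ℝ) - Real.pi * t| ≤ 2 * Real.pi * (Real.sqrt t + 1) := by
  have hpi := Real.pi_pos
  have h1 := card_ball_upper t
  have hs0 := Real.sqrt_nonneg t
  have hss := Real.mul_self_sqrt ht
  rw [abs_le]
  constructor
  · rcases lt_or_ge t 1 with h | h
    · have h2 : (0 : ℝ) ≤ ((ball t).card : ℝ) := Nat.cast_nonneg _
      nlinarith
    · have h2 := card_ball_lower t h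
      nlinarith
  · nlinarith

/-- Gauss circle problem with the trivial error term. -/
theorem ball_asymp : ∃ κ C : ℝ, 0 < κ ∧ 0 < C ∧ ∀ t : ℝ, 0 ≤ t →
    |((ball t).card : ℝ) - κ * t| ≤ C * (Real.sqrt t + 1) :=
  ⟨Real.pi, 2 * Real.pi, Real.pi_pos, by positivity, fun t ht => ball_asymp_pi t ht⟩

open Classical in
theorem card_ob (t : ℝ) : ((ob t).card : ℝ) = (ball t).card - (ball (t / 2)).card := by
  have h1 : (ob t).card + ((ball t).filter (fun z => ¬ Odd (nm z))).card = (ball t).card := by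
    unfold ob
    exact Finset.card_filter_add_card_filter_not _
  have h2 : ((ball t).filter (fun z => ¬ Odd (nm z))).card = (ball (t / 2)).card := by
    symm
    apply Finset.card_bij (fun w _ => (⟨w.re - w.im, w.re + w.im⟩ : G))
    · intro w hw
      have e1 : nm (⟨w.re - w.im, w.re + w.im⟩ : G) = 2 * nm w := by
        have : (nm (⟨w.re - w.im, w.re + w.im⟩ : G) : ℤ) = 2 * nm w := by
          rw [nm_eq, nm_eq]; ring
        exact_mod_cast this
      rw [mem_ball] at hw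
      rw [Finset.mem_filter, mem_ball, e1]
      refine ⟨by push_cast; linarith, ?_⟩
      rw [Nat.not_odd_iff_even]
      exact even_two_mul _
    · intro w _ w' _ h
      have a1 := congrArg Zsqrtd.re h
      have a2 := congrArg Zsqrtd.im h
      simp only at a1 a2
      apply Zsqrtd.ext
      · omega
      · omega
    · intro z hz
      rw [Finset.mem_filter, mem_ball] at hz
      obtain ⟨hz1, hz2⟩ := hz
      rw [odd_nm_iff, Int.not_odd_iff_even] at hz2
      obtain ⟨c, hc⟩ := hz2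
      refine ⟨⟨c, z.im - c⟩, ?_, ?_⟩
      · rw [mem_ball]
        have e1 : 2 * nm (⟨c, z.im - c⟩ : G) = nm z := by
          have : 2 * (nm (⟨c, z.im - c⟩ : G) : ℤ) = nm z := by
            rw [nm_eq, nm_eq]
            simp only
            have : z.re = c + c - z.im := by linarith
            rw [this]
            ring
          exact_mod_cast this
        have e2 : (2 : ℝ) * (nm (⟨c, z.im - c⟩ : G) : ℝ) = nm z := by exact_mod_cast e1
        linarith
      · apply Zsqrtd.ext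
        · simp only; omega
        · simp only; omega
  rw [h2] at h1
  have h3 : ((ob t).card : ℝ) + (ball (t / 2)).card = (ball t).card := by exact_mod_cast h1
  linarith

theorem ob_eq_empty {t : ℝ} (ht : t < 1) : ob t = ∅ := by
  classical
  unfold ob
  rw [Finset.filter_eq_empty_iff]
  intro z hz h0
  rw [mem_ball] at hz
  have h2 := nm_pos_of_odd h0
  have h3 : (1 : ℝ) ≤ nm z := by exact_mod_cast h2
  linarith

/-- odd Gaussian integers -/
theorem odd_asymp : ∃ κ C : ℝ, 0 < κ ∧ 0 < C ∧ ∀ t : ℝ, 0 ≤ t →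
    |((ob t).card : ℝ) - κ * t| ≤ C * Real.sqrt t := by
  have hpi := Real.pi_pos
  refine ⟨Real.pi / 2, 8 * Real.pi, by positivity, by positivity, fun t ht => ?_⟩
  have hs0 := Real.sqrt_nonneg t
  have hss := Real.mul_self_sqrt ht
  rcases lt_or_ge t 1 with h | h
  · rw [ob_eq_empty h, Finset.card_empty, Nat.cast_zero, zero_sub, abs_neg,
      abs_of_nonneg (by positivity)]
    have h1 : Real.sqrt t ≤ 1 := Real.sqrt_le_one.2 h.le
    have h2 : t ≤ Real.sqrt t := by nlinarith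
    have h3 : Real.pi / 2 * t ≤ Real.pi / 2 * Real.sqrt t :=
      mul_le_mul_of_nonneg_left h2 (by positivity)
    have h4 : 0 ≤ Real.pi * Real.sqrt t := by positivity
    linarith
  · have h1 := ball_asymp_pi t ht
    have h2 := ball_asymp_pi (t / 2) (by linarith)
    have h3 : Real.sqrt (t / 2) ≤ Real.sqrt t := Real.sqrt_le_sqrt (by linarith)
    have h4 : 1 ≤ Real.sqrt t := Real.one_le_sqrt.2 h
    rw [card_ob, abs_le]
    rw [abs_le] at h1 h2
    have h5 : Real.pi * Real.sqrt (t / 2) ≤ Real.pi * Real.sqrt t :=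
      mul_le_mul_of_nonneg_left h3 hpi.le
    have h6 : Real.pi * 1 ≤ Real.pi * Real.sqrt t := mul_le_mul_of_nonneg_left h4 hpi.le
    constructor <;> nlinarith [h1.1, h1.2, h2.1, h2.2]

end Pool.Agent.GaussMR
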