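import Pool.Agent.Lib_MP_f1a94e_mr.Basic
import Pool.Agent.Lib_MP_f1a94e_mr.Ball

/-!
# Piece SMALLJ: the sum of `xi j` over a disc, small `j`
-/

set_option autoImplicit false

namespace Pool.Agent.GaussMR

open Complex

namespace SmallJAux

theorem mem_ball_iff_norm {s : ℝ} (hs : 0 ≤ s) (z : G) : z ∈ ball (s ^ 2) ↔ ‖(z : ℂ)‖ ≤ s := by
  rw [mem_ball, ← norm_sq_eq]
  exact pow_le_pow_iff_left₀ (norm_nonneg _) hs two_ne_zero

/-- the sup norm -/
def M (u : G) : ℕ := max u.re.natAbs u.im.natAbs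

theorem M_le (u : G) : (M u : ℝ) ≤ ‖(u : ℂ)‖ := by
  have h1 : ((u.re.natAbs : ℕ) : ℝ) ≤ ‖(u : ℂ)‖ := by
    have := Complex.abs_re_le_norm (u : ℂ)
    rw [← GaussianInt.intCast_re] at this
    rw [Nat.cast_natAbs, Int.cast_abs]
    exact this
  have h2 : ((u.im.natAbs : ℕ) : ℝ) ≤ ‖(u : ℂ)‖ := by
    have := Complex.abs_im_le_norm (u : ℂ)
    rw [← GaussianInt.intCast_im] at this
    rw [Nat.cast_natAbs, Int.cast_abs]
    exact this
  unfold M
  rw [Nat.cast_max]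
  exact max_le h1 h2

theorem M_pos {u : G} (h : u ≠ 0) : 1 ≤ M u := by
  by_contra hcon
  apply h
  have h0 : M u = 0 := by omega
  unfold M at h0
  have h1 : u.re.natAbs = 0 := by
    have := le_max_left u.re.natAbs u.im.natAbs
    omega
  have h2 : u.im.natAbs = 0 := by
    have := le_max_right u.re.natAbs u.im.natAbs
    omega
  apply Zsqrtd.ext
  · simpa using h1
  · simpa using h2

open Classical in
theorem sum_inv (s : ℝ) (hs : 0 ≤ s) :
    ∑ u ∈ (ball (s ^ 2)).filter (fun u => u ≠ 0), 1 / ‖(u : ℂ)‖ ≤ 8 * s := by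
  have hmap : ∀ u ∈ (ball (s ^ 2)).filter (fun u => u ≠ 0), M u ∈ Finset.Icc 1 ⌊s⌋₊ := by
    intro u hu
    rw [Finset.mem_filter, mem_ball_iff_norm hs] at hu
    rw [Finset.mem_Icc]
    exact ⟨M_pos hu.2, Nat.le_floor ((M_le u).trans hu.1)⟩
  rw [← Finset.sum_fiberwise_of_maps_to hmap]
  have hfib : ∀ m ∈ Finset.Icc 1 ⌊s⌋₊,
      ∑ u ∈ ((ball (s ^ 2)).filter (fun u => u ≠ 0)).filter (fun u => M u = m),
        1 / ‖(u : ℂ)‖ ≤ 8 := by
    intro m hm
    rw [Finset.mem_Icc] at hm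
    have hm0 : (0 : ℝ) < m := by exact_mod_cast hm.1
    have hcard : (((ball (s ^ 2)).filter (fun u => u ≠ 0)).filter (fun u => M u = m)).card ≤
        8 * m := by
      rw [← Int.card_box (by omega : m ≠ 0)]
      refine Finset.card_le_card_of_injOn (fun u : G => (u.re, u.im)) ?_ ?_
      · intro u hu
        have hu' := (Finset.mem_filter.1 (Finset.mem_coe.1 hu)).2
        exact Finset.mem_coe.2 (Int.mem_box.2 hu')
      · intro u _ v _ huv
        have := Prod.ext_iff.1 huv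
        exact Zsqrtd.ext this.1 this.2
    have hterm : ∀ u ∈ ((ball (s ^ 2)).filter (fun u => u ≠ 0)).filter (fun u => M u = m),
        1 / ‖(u : ℂ)‖ ≤ 1 / (m : ℝ) := by
      intro u hu
      have hu' := (Finset.mem_filter.1 hu).2
      have := M_le u
      rw [hu'] at this
      exact one_div_le_one_div_of_le hm0 this
    refine (Finset.sum_le_sum hterm).trans ?_
    rw [Finset.sum_const, nsmul_eq_mul]
    calc _ ≤ ((8 * m : ℕ) : ℝ) * (1 / (m : ℝ)) := by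
          refine mul_le_mul_of_nonneg_right ?_ (by positivity)
          exact_mod_cast hcard
      _ = 8 := by push_cast; field_simp
  refine (Finset.sum_le_sum hfib).trans ?_
  rw [Finset.sum_const, nsmul_eq_mul, Nat.card_Icc, Nat.add_sub_cancel]
  have := Nat.floor_le hs
  linarith

open Classical in
/-- lattice points in an annulus_smallj -/
theorem annulus_smallj : ∃ C : ℝ, 0 < C ∧ ∀ s : ℝ, 1 ≤ s →
    (((ball ((s + 1) ^ 2)).filter (fun u : G => s - 1 < ‖(u : ℂ)‖)).card : ℝ) ≤ C * s := by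
  obtain ⟨κ, C, hκ, hC, hb⟩ := ball_asymp
  refine ⟨9 * κ + 5 * C, by positivity, fun s hs => ?_⟩
  have h1 := hb ((s + 1) ^ 2) (by positivity)
  rw [Real.sqrt_sq (by linarith)] at h1
  have h1' := (abs_le.1 h1).2
  have h2 := hb ((s - 1) ^ 2) (by positivity)
  rw [Real.sqrt_sq (by linarith)] at h2
  have h2' := (abs_le.1 h2).1
  have hsub : (ball ((s + 1) ^ 2)).filter (fun u : G => s - 1 < ‖(u : ℂ)‖) ⊆
      (ball ((s + 1) ^ 2)) \ (ball ((s - 1) ^ 2)) := by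
    intro u hu
    rw [Finset.mem_filter] at hu
    rw [Finset.mem_sdiff]
    refine ⟨hu.1, ?_⟩
    rw [mem_ball_iff_norm (by linarith)]
    exact not_le.2 hu.2
  have hss : ball ((s - 1) ^ 2) ⊆ ball ((s + 1) ^ 2) := by
    intro u hu
    rw [mem_ball_iff_norm (by linarith)] at hu ⊢
    linarith
  have hcard := Finset.card_le_card hsub
  have hc2 := Finset.card_sdiff_add_card_eq_card hss
  have h3 : (((ball ((s + 1) ^ 2)).filter (fun u : G => s - 1 < ‖(u : ℂ)‖)).card : ℝ) ≤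
      ((ball ((s + 1) ^ 2)).card : ℝ) - (ball ((s - 1) ^ 2)).card := by
    have : (((ball ((s + 1) ^ 2)).filter (fun u : G => s - 1 < ‖(u : ℂ)‖)).card : ℝ) ≤
      (((ball ((s + 1) ^ 2)) \ (ball ((s - 1) ^ 2))).card : ℝ) := by exact_mod_cast hcard
    have h4 : ((((ball ((s + 1) ^ 2)) \ (ball ((s - 1) ^ 2))).card : ℝ)) +
      (ball ((s - 1) ^ 2)).card = (ball ((s + 1) ^ 2)).card := by exact_mod_cast hc2
    linarith
  have h5 : κ * (s + 1) ^ 2 - κ * (s - 1) ^ 2 = 4 * κ * s := by ring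
  nlinarith [mul_pos hκ (by linarith : (0:ℝ) < s), mul_pos hC (by linarith : (0:ℝ) < s)]

theorem dir_zero : dir 0 = 0 := by
  unfold dir
  simp

theorem norm_dir_le (z : G) : ‖dir z‖ ≤ 1 := by
  by_cases h : z = 0
  · rw [h, dir_zero, norm_zero]; exact zero_le_one
  · exact (norm_dir h).le

theorem xi_at_zero {j : ℤ} (hj : j ≠ 0) : xi j 0 = 0 := by
  unfold xi
  rw [dir_zero, zero_zpow _ hj]

theorem norm_xi_le (j : ℤ) (z : G) : ‖xi j z‖ ≤ 1 := by
  by_cases h : z = 0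
  · by_cases hj : j = 0
    · rw [hj, xi_zero]; simp
    · rw [h, xi_at_zero hj, norm_zero]; exact zero_le_one
  · exact (norm_xi j h).le

theorem dir_sub (z c : G) (hz : z ≠ 0) : ‖dir (z + c) - dir z‖ ≤ 2 * ‖(c : ℂ)‖ / ‖(z : ℂ)‖ := by
  have hz0 := norm_pos hz
  by_cases h : z + c = 0
  · have hc : c = -z := by
      rw [add_comm] at h
      exact eq_neg_of_add_eq_zero_left h
    rw [h, dir_zero, zero_sub, norm_neg, norm_dir hz, hc, GaussianInt.toComplex_neg, norm_neg,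
      mul_div_assoc, div_self hz0.ne']
    norm_num
  · have hw0 := norm_pos h
    have hadd : ((z + c : G) : ℂ) = (z : ℂ) + (c : ℂ) := GaussianInt.toComplex_add z c
    set w : ℂ := ((z + c : G) : ℂ) with hw
    have e1 : dir (z + c) - dir z =
        w * (((‖(z : ℂ)‖ - ‖w‖ : ℝ) : ℂ) / ((‖w‖ * ‖(z : ℂ)‖ : ℝ) : ℂ)) +
          (c : ℂ) / ((‖(z : ℂ)‖ : ℝ) : ℂ) := by
      unfold dir
      rw [← hw]
      have n1 : ((‖w‖ : ℝ) : ℂ) ≠ 0 := by exact_mod_cast hw0.ne'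
      have n2 : ((‖(z : ℂ)‖ : ℝ) : ℂ) ≠ 0 := by exact_mod_cast hz0.ne'
      have hc : (c : ℂ) = w - z := by rw [hadd]; ring
      rw [hc]
      push_cast
      field_simp
      ring
    rw [e1]
    refine (norm_add_le _ _).trans ?_
    have h1 : ‖w * (((‖(z : ℂ)‖ - ‖w‖ : ℝ) : ℂ) / ((‖w‖ * ‖(z : ℂ)‖ : ℝ) : ℂ))‖ ≤
        ‖(c : ℂ)‖ / ‖(z : ℂ)‖ := by
      rw [norm_mul, norm_div, Complex.norm_real, Complex.norm_real, Real.norm_eq_abs,
        Real.norm_eq_abs, abs_of_pos (mul_pos hw0 hz0)]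
      have h2 : |‖(z : ℂ)‖ - ‖w‖| ≤ ‖(c : ℂ)‖ := by
        have := abs_norm_sub_norm_le (z : ℂ) w
        refine this.trans (le_of_eq ?_)
        rw [hadd, ← norm_neg]
        congr 1
        ring
      calc _ = |‖(z : ℂ)‖ - ‖w‖| / ‖(z : ℂ)‖ := by field_simp
        _ ≤ _ := div_le_div_of_nonneg_right h2 hz0.le
    have h3 : ‖(c : ℂ) / ((‖(z : ℂ)‖ : ℝ) : ℂ)‖ = ‖(c : ℂ)‖ / ‖(z : ℂ)‖ := by
      rw [norm_div, Complex.norm_real, norm_norm]
    rw [h3]
    calc _ ≤ ‖(c : ℂ)‖ / ‖(z : ℂ)‖ + ‖(c : ℂ)‖ / ‖(z : ℂ)‖ := by gcongr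
      _ = _ := by ring

theorem pow_sub (a b : ℂ) (ha : ‖a‖ ≤ 1) (hb : ‖b‖ ≤ 1) (n : ℕ) :
    ‖a ^ n - b ^ n‖ ≤ n * ‖a - b‖ := by
  induction n with
  | zero => simp
  | succ n ih =>
    have : a ^ (n + 1) - b ^ (n + 1) = a * (a ^ n - b ^ n) + (a - b) * b ^ n := by ring
    rw [this]
    refine (norm_add_le _ _).trans ?_
    rw [norm_mul, norm_mul, norm_pow]
    have h1 : ‖a‖ * ‖a ^ n - b ^ n‖ ≤ 1 * ‖a ^ n - b ^ n‖ :=
      mul_le_mul_of_nonneg_right ha (norm_nonneg _)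
    have h2 : ‖a - b‖ * ‖b‖ ^ n ≤ ‖a - b‖ * 1 :=
      mul_le_mul_of_nonneg_left (pow_le_one₀ (norm_nonneg _) hb) (norm_nonneg _)
    push_cast
    linarith

theorem xi_sub (j : ℤ) (hj : j ≠ 0) (z c : G) (hz : z ≠ 0) :
    ‖xi j (z + c) - xi j z‖ ≤ 2 * |(j : ℝ)| * (‖(c : ℂ)‖ / ‖(z : ℂ)‖) := by
  have hd := dir_sub z c hz
  have key : ∃ n : ℕ, (n : ℝ) = |(j : ℝ)| ∧ (((∀ w, xi j w = (dir w) ^ n)) ∨
      (∀ w, xi j w = ((starRingEnd ℂ) (dir w)) ^ n)) := by
    rcases le_total 0 j with h | h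
    · refine ⟨j.toNat, ?_, Or.inl fun w => ?_⟩
      · rw [abs_of_nonneg (by exact_mod_cast h)]
        exact_mod_cast Int.toNat_of_nonneg h
      · unfold xi
        rw [← zpow_natCast, Int.toNat_of_nonneg h]
    · refine ⟨(-j).toNat, ?_, Or.inr fun w => ?_⟩
      · rw [abs_of_nonpos (by exact_mod_cast h)]
        have := Int.toNat_of_nonneg (by omega : 0 ≤ -j)
        exact_mod_cast this
      · unfold xi
        rw [← zpow_natCast, Int.toNat_of_nonneg (by omega : 0 ≤ -j)]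
        by_cases hw : w = 0
        · rw [hw, dir_zero, map_zero, zero_zpow _ hj, zero_zpow _ (neg_ne_zero.2 hj)]
        · rw [conj_dir hw, inv_zpow, zpow_neg, inv_inv]
  obtain ⟨n, hn, h | h⟩ := key
  · rw [h, h]
    refine (pow_sub _ _ (norm_dir_le _) (norm_dir_le _) n).trans ?_
    rw [hn]
    calc _ ≤ |(j : ℝ)| * (2 * ‖(c : ℂ)‖ / ‖(z : ℂ)‖) :=
          mul_le_mul_of_nonneg_left hd (abs_nonneg _)
      _ = _ := by ring
  · rw [h, h]
    refine (pow_sub _ _ ?_ ?_ n).trans ?_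
    · rw [RCLike.norm_conj]; exact norm_dir_le _
    · rw [RCLike.norm_conj]; exact norm_dir_le _
    · rw [hn, ← map_sub, RCLike.norm_conj]
      calc _ ≤ |(j : ℝ)| * (2 * ‖(c : ℂ)‖ / ‖(z : ℂ)‖) :=
            mul_le_mul_of_nonneg_left hd (abs_nonneg _)
        _ = _ := by ring

open Classical in
/-- one residue class -/
theorem class_bound : ∃ C : ℝ, 0 < C ∧ ∀ (s : ℝ) (j : ℤ) (α c : G), 1 ≤ s → j ≠ 0 → α ≠ 0 →
    ‖(c : ℂ)‖ ≤ ‖(α : ℂ)‖ →
    ‖∑ z ∈ (ball ((‖(α : ℂ)‖ * s) ^ 2)).filter (fun z => α ∣ z - c), xi j z -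
      xi j α * ∑ z ∈ ball (s ^ 2), xi j z‖ ≤ C * |(j : ℝ)| * s := by
  obtain ⟨C, hC, hann⟩ := annulus_smallj
  refine ⟨33 + C, by positivity, fun s j α c hs hj hα hc => ?_⟩
  have hs0 : 0 ≤ s := by linarith
  have hα0 := norm_pos hα
  have hj1 : 1 ≤ |(j : ℝ)| := by
    have : 1 ≤ |j| := Int.one_le_abs hj
    exact_mod_cast this
  set B := ball ((s + 1) ^ 2) with hB
  have hlin : ∀ u : G, ((α * u + c : G) : ℂ) = (α : ℂ) * (u : ℂ) + (c : ℂ) := fun u => by
    rw [GaussianInt.toComplex_add, GaussianInt.toComplex_mul]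
  have hnear : ∀ u : G, |‖((α * u + c : G) : ℂ)‖ - ‖(α : ℂ)‖ * ‖(u : ℂ)‖| ≤ ‖(α : ℂ)‖ := by
    intro u
    rw [hlin, ← norm_mul]
    refine (abs_norm_sub_norm_le _ _).trans ?_
    rw [add_sub_cancel_left]
    exact hc
  -- first sum
  have hsum1 : ∑ z ∈ (ball ((‖(α : ℂ)‖ * s) ^ 2)).filter (fun z => α ∣ z - c), xi j z =
      ∑ u ∈ B, (if ‖((α * u + c : G) : ℂ)‖ ≤ ‖(α : ℂ)‖ * s then xi j (α * u + c) else 0) := by
    rw [← Finset.sum_filter]
    symm
    refine Finset.sum_bij (fun u _ => α * u + c) ?_ ?_ ?_ ?_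
    · intro u hu
      rw [Finset.mem_filter] at hu ⊢
      refine ⟨(mem_ball_iff_norm (by positivity) _).2 hu.2, ⟨u, by ring⟩⟩
    · intro u _ v _ huv
      have : α * u = α * v := add_right_cancel huv
      exact mul_left_cancel₀ hα this
    · intro z hz
      rw [Finset.mem_filter, mem_ball_iff_norm (by positivity)] at hz
      obtain ⟨u, hu⟩ := hz.2
      have hzu : α * u + c = z := by rw [← hu]; ring
      refine ⟨u, ?_, hzu⟩
      rw [Finset.mem_filter, hzu]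
      refine ⟨?_, hz.1⟩
      rw [hB, mem_ball_iff_norm (by linarith)]
      have h1 := (abs_le.1 (hnear u)).1
      rw [hzu] at h1
      have h2 : ‖(α : ℂ)‖ * ‖(u : ℂ)‖ ≤ ‖(α : ℂ)‖ * (s + 1) := by linarith [hz.1]
      exact le_of_mul_le_mul_left h2 hα0
    · intro u _
      rfl
  have hsum2 : xi j α * ∑ z ∈ ball (s ^ 2), xi j z =
      ∑ u ∈ B, (if ‖(u : ℂ)‖ ≤ s then xi j (α * u) else 0) := by
    rw [← Finset.sum_filter, Finset.mul_sum]
    have : B.filter (fun u : G => ‖(u : ℂ)‖ ≤ s) = ball (s ^ 2) := by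
      ext u
      rw [Finset.mem_filter, hB, mem_ball_iff_norm (by linarith), mem_ball_iff_norm hs0]
      constructor
      · exact fun h => h.2
      · exact fun h => ⟨by linarith, h⟩
    rw [this]
    exact Finset.sum_congr rfl fun u _ => (xi_mul j α u).symm
  rw [hsum1, hsum2, ← Finset.sum_sub_distrib]
  refine (norm_sum_le _ _).trans ?_
  have hterm : ∀ u ∈ B,
      ‖(if ‖((α * u + c : G) : ℂ)‖ ≤ ‖(α : ℂ)‖ * s then xi j (α * u + c) else 0) -
        (if ‖(u : ℂ)‖ ≤ s then xi j (α * u) else 0)‖ ≤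
      (if u ≠ 0 then 2 * |(j : ℝ)| * (1 / ‖(u : ℂ)‖) else 0) + (if u = 0 then 1 else 0) +
        (if s - 1 < ‖(u : ℂ)‖ then 1 else 0) := by
    intro u hu
    have e1 : (0 : ℝ) ≤ (if u ≠ 0 then 2 * |(j : ℝ)| * (1 / ‖(u : ℂ)‖) else 0) := by
      split_ifs <;> positivity
    have e2 : (0 : ℝ) ≤ (if u = 0 then 1 else 0) := by split_ifs <;> norm_num
    have e3 : (0 : ℝ) ≤ (if s - 1 < ‖(u : ℂ)‖ then 1 else 0) := by split_ifs <;> norm_num
    by_cases h1 : ‖((α * u + c : G) : ℂ)‖ ≤ ‖(α : ℂ)‖ * s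
    · by_cases h2 : ‖(u : ℂ)‖ ≤ s
      · rw [if_pos h1, if_pos h2]
        by_cases h0 : u = 0
        · rw [if_neg (not_not.2 h0), if_pos h0, h0, mul_zero, xi_at_zero hj, sub_zero]
          have := norm_xi_le j (0 + c)
          rw [h0] at e3
          linarith
        · have h3 := xi_sub j hj (α * u) c (mul_ne_zero hα h0)
          rw [if_pos h0, if_neg h0]
          have h4 : ‖(c : ℂ)‖ / ‖((α * u : G) : ℂ)‖ ≤ 1 / ‖(u : ℂ)‖ := by
            rw [GaussianInt.toComplex_mul, norm_mul]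
            rw [div_le_div_iff₀ (mul_pos hα0 (norm_pos h0)) (norm_pos h0)]
            have := norm_pos h0
            nlinarith
          have h5 : 2 * |(j : ℝ)| * (‖(c : ℂ)‖ / ‖((α * u : G) : ℂ)‖) ≤
              2 * |(j : ℝ)| * (1 / ‖(u : ℂ)‖) := mul_le_mul_of_nonneg_left h4 (by positivity)
          linarith
      · rw [if_pos h1, if_neg h2, sub_zero]
        have h3 : s - 1 < ‖(u : ℂ)‖ := by linarith [not_le.1 h2]
        rw [if_pos h3] at e3 ⊢
        have := norm_xi_le j (α * u + c)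
        linarith
    · by_cases h2 : ‖(u : ℂ)‖ ≤ s
      · rw [if_neg h1, if_pos h2, zero_sub, norm_neg]
        have h3 : s - 1 < ‖(u : ℂ)‖ := by
          have h4 := (abs_le.1 (hnear u)).2
          have h5 := not_le.1 h1
          have h6 : ‖(α : ℂ)‖ * (s - 1) < ‖(α : ℂ)‖ * ‖(u : ℂ)‖ := by linarith
          exact lt_of_mul_lt_mul_left h6 hα0.le
        rw [if_pos h3] at e3 ⊢
        have := norm_xi_le j (α * u)
        linarith
      · rw [if_neg h1, if_neg h2, sub_zero, norm_zero]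
        linarith
  refine (Finset.sum_le_sum hterm).trans ?_
  rw [Finset.sum_add_distrib, Finset.sum_add_distrib, ← Finset.sum_filter, ← Finset.sum_filter,
    ← Finset.sum_filter, ← Finset.mul_sum, Finset.sum_const, Finset.sum_const, nsmul_eq_mul,
    nsmul_eq_mul, mul_one, mul_one]
  have a1 := sum_inv (s + 1) (by linarith)
  have a2 := hann s hs
  have a3 : ((B.filter (fun u => u = 0)).card : ℝ) ≤ 1 := by
    have : (B.filter (fun u => u = 0)).card ≤ 1 := by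
      refine Finset.card_le_one.2 fun a ha b hb => ?_
      rw [(Finset.mem_filter.1 ha).2, (Finset.mem_filter.1 hb).2]
    exact_mod_cast this
  have a4 : 2 * |(j : ℝ)| * ∑ u ∈ B.filter (fun u => u ≠ 0), 1 / ‖(u : ℂ)‖ ≤
      2 * |(j : ℝ)| * (8 * (s + 1)) := mul_le_mul_of_nonneg_left a1 (by positivity)
  have a5 : C * s ≤ C * |(j : ℝ)| * s := by
    have : C * s * 1 ≤ C * s * |(j : ℝ)| := mul_le_mul_of_nonneg_left hj1 (by positivity)
    linarith
  have a6 : s ≤ |(j : ℝ)| * s := by nlinarith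
  nlinarith

open Classical in
/-- all residue classes -/
theorem all_classes : ∃ C : ℝ, 0 < C ∧ ∀ (α : G), α ≠ 0 → ∃ N : ℝ, 0 < N ∧ ∀ (s : ℝ) (j : ℤ),
    1 ≤ s → j ≠ 0 →
    ‖∑ z ∈ ball ((‖(α : ℂ)‖ * s) ^ 2), xi j z -
      N * (xi j α * ∑ z ∈ ball (s ^ 2), xi j z)‖ ≤ N * (C * |(j : ℝ)| * s) := by
  obtain ⟨C, hC, hcl⟩ := class_bound
  refine ⟨C, hC, fun α hα => ?_⟩
  let I : Ideal G := Ideal.span {α}
  have hrep : ∀ q : G ⧸ I, ∃ c : G, Ideal.Quotient.mk I c = q ∧ ‖(c : ℂ)‖ ≤ ‖(α : ℂ)‖ := by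
    intro q
    obtain ⟨z, rfl⟩ := Ideal.Quotient.mk_surjective q
    refine ⟨z % α, ?_, ?_⟩
    · rw [Ideal.Quotient.eq, Ideal.mem_span_singleton]
      have := EuclideanDomain.div_add_mod z α
      refine ⟨-(z / α), ?_⟩
      linear_combination this
    · have h1 := GaussianInt.norm_mod_lt z hα
      have h2 : nm (z % α) ≤ nm α := by
        unfold nm
        have h3 := GaussianInt.norm_nonneg (z % α)
        omega
      rw [norm_eq_sqrt, norm_eq_sqrt]
      exact Real.sqrt_le_sqrt (by exact_mod_cast h2)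
  choose c hc1 hc2 using hrep
  have hfin : Finite (G ⧸ I) := by
    have hinj : Function.Injective (fun q : G ⧸ I =>
        (⟨c q, (mem_ball_iff_norm (norm_nonneg _) _).2 (hc2 q)⟩ : {z // z ∈ ball (‖(α : ℂ)‖ ^ 2)})) := by
      intro p q hpq
      have := congrArg (fun x : {z // z ∈ ball (‖(α : ℂ)‖ ^ 2)} => (x : G)) hpq
      rw [← hc1 p, ← hc1 q]
      exact congrArg _ this
    exact Finite.of_injective _ hinj
  have := Fintype.ofFinite (G ⧸ I)
  refine ⟨Fintype.card (G ⧸ I), ?_, fun s j hs hj => ?_⟩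
  · have : 0 < Fintype.card (G ⧸ I) := Fintype.card_pos
    exact_mod_cast this
  have h1 : ∑ z ∈ ball ((‖(α : ℂ)‖ * s) ^ 2), xi j z =
      ∑ q : G ⧸ I, ∑ z ∈ (ball ((‖(α : ℂ)‖ * s) ^ 2)).filter (fun z => α ∣ z - c q), xi j z := by
    rw [← Finset.sum_fiberwise (ball ((‖(α : ℂ)‖ * s) ^ 2)) (fun z => Ideal.Quotient.mk I z)]
    refine Finset.sum_congr rfl fun q _ => ?_
    refine Finset.sum_congr ?_ fun _ _ => rfl
    ext z
    rw [Finset.mem_filter, Finset.mem_filter]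
    refine and_congr_right fun _ => ?_
    conv_lhs => rw [← hc1 q]
    rw [Ideal.Quotient.eq, Ideal.mem_span_singleton]
  have h2 : ((Fintype.card (G ⧸ I) : ℕ) : ℂ) * (xi j α * ∑ z ∈ ball (s ^ 2), xi j z) =
      ∑ _q : G ⧸ I, (xi j α * ∑ z ∈ ball (s ^ 2), xi j z) := by
    rw [Finset.sum_const, Finset.card_univ, nsmul_eq_mul]
  rw [h1]
  push_cast
  rw [h2, ← Finset.sum_sub_distrib]
  refine (norm_sum_le _ _).trans ?_
  refine (Finset.sum_le_sum fun q _ => hcl s j α (c q) hs hj hα (hc2 q)).trans ?_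
  rw [Finset.sum_const, Finset.card_univ, nsmul_eq_mul]

theorem sum_neg (X : ℝ) (j : ℤ) : ∑ z ∈ ball X, xi (-j) z = ∑ z ∈ ball X, xi j z := by
  by_cases hj : j = 0
  · rw [hj, neg_zero]
  refine Finset.sum_bij (fun z _ => star z) ?_ ?_ ?_ ?_
  · intro z hz
    rw [mem_ball, nm_star]
    exact mem_ball.1 hz
  · intro z _ w _ h
    exact star_injective h
  · intro z hz
    refine ⟨star z, ?_, star_star z⟩
    rw [mem_ball, nm_star]
    exact mem_ball.1 hz
  · intro z _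
    by_cases hz : z = 0
    · rw [hz, star_zero, xi_at_zero hj, xi_at_zero (neg_ne_zero.2 hj)]
    · rw [xi_star _ hz]

/-- the auxiliary multiplier -/
theorem exists_alpha (j : ℤ) (hj : j ≠ 0) : ∃ α : G, α ≠ 0 ∧ 1 ≤ ‖xi j α - xi (-j) α‖ := by
  have hj1 : 1 ≤ |j| := Int.one_le_abs hj
  refine ⟨⟨|j|, 1⟩, ?_, ?_⟩
  · intro h
    have := congrArg Zsqrtd.im h
    simp at this
  set α : G := ⟨|j|, 1⟩ with hα
  have hα0 : α ≠ 0 := by
    intro h
    have := congrArg Zsqrtd.im h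
    simp [hα] at this
  have hc : (α : ℂ) = ((|j| : ℤ) : ℂ) + I := by
    rw [toComplex_eq]
    simp [hα]
  have hre : (α : ℂ).re = |(j : ℝ)| := by rw [hc]; simp
  have him : (α : ℂ).im = 1 := by rw [hc]; simp
  set a : ℝ := |(j : ℝ)| with ha
  have ha1 : 1 ≤ a := by
    rw [ha]
    exact_mod_cast hj1
  set θ := Complex.arg (α : ℂ) with hθ
  have hpos := norm_pos hα0
  have hdir : dir α = Complex.exp (θ * I) := by
    unfold dir
    have := Complex.norm_mul_exp_arg_mul_I (α : ℂ)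
    rw [div_eq_iff (by exact_mod_cast hpos.ne'), mul_comm]
    exact this.symm
  have hθ0 : 0 ≤ θ := Complex.arg_nonneg_iff.2 (by rw [him]; norm_num)
  have hθ1 : θ < Real.pi / 2 := by
    have := (Complex.abs_arg_lt_pi_div_two_iff (z := (α : ℂ))).2 (Or.inl (by rw [hre]; linarith))
    exact (le_abs_self _).trans_lt this
  have hsin : Real.sin θ = 1 / ‖(α : ℂ)‖ := by
    rw [hθ, Complex.sin_arg, him]
  have htan : Real.tan θ = 1 / a := by
    rw [hθ, Complex.tan_arg, him, hre]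
  have hup : θ ≤ 1 / a := by
    rw [← htan]
    exact Real.le_tan hθ0 hθ1
  have hlow : 1 / ‖(α : ℂ)‖ ≤ θ := by
    rw [← hsin]
    exact Real.sin_le hθ0
  have hnsq : ‖(α : ℂ)‖ ^ 2 = a ^ 2 + 1 := by
    rw [← Complex.normSq_eq_norm_sq, Complex.normSq_apply, hre, him]
    ring
  have hnle : ‖(α : ℂ)‖ ≤ (3 / 2) * a := by
    have : ‖(α : ℂ)‖ ^ 2 ≤ ((3 / 2) * a) ^ 2 := by
      rw [hnsq]; nlinarith
    exact le_of_sq_le_sq this (by positivity)
  have hx1 : a * θ ≤ 1 := by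
    have : a * θ ≤ a * (1 / a) := mul_le_mul_of_nonneg_left hup (by linarith)
    rwa [mul_one_div_cancel (by linarith)] at this
  have hx2 : 2 / 3 ≤ a * θ := by
    have h1 : a * (1 / ‖(α : ℂ)‖) ≤ a * θ := mul_le_mul_of_nonneg_left hlow (by linarith)
    have h2 : 2 / 3 ≤ a * (1 / ‖(α : ℂ)‖) := by
      rw [mul_one_div, le_div_iff₀ hpos]
      linarith
    linarith
  have hs : 1 / 2 ≤ Real.sin (a * θ) := by
    rw [← Real.sin_pi_div_six]
    have hpi := Real.pi_lt_d2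
    have hpi' := Real.pi_gt_three
    apply Real.sin_le_sin_of_le_of_le_pi_div_two <;> linarith
  have hxi : ∀ k : ℤ, xi k α = Complex.exp ((k : ℂ) * (θ * I)) := by
    intro k
    unfold xi
    rw [hdir, ← Complex.exp_int_mul]
  have hdiff : xi j α - xi (-j) α = 2 * I * ((Real.sin ((j : ℝ) * θ) : ℝ) : ℂ) := by
    rw [hxi, hxi, Complex.ofReal_sin, Complex.sin]
    push_cast
    have e1 : (j : ℂ) * (θ * I) = (j : ℂ) * θ * I := by ring
    have e2 : (-(j : ℂ)) * (θ * I) = -((j : ℂ) * θ) * I := by ring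
    rw [e1, e2]
    have hI : I * I = -1 := Complex.I_mul_I
    linear_combination (-(Complex.exp (-((j : ℂ) * θ) * I) - Complex.exp ((j : ℂ) * θ * I))) * hI
  rw [hdiff, norm_mul, norm_mul, Complex.norm_I, Complex.norm_real, Real.norm_eq_abs]
  have habs : |Real.sin ((j : ℝ) * θ)| = |Real.sin (a * θ)| := by
    rcases abs_choice (j : ℝ) with h | h
    · rw [ha, h]
    · rw [ha, h, neg_mul, Real.sin_neg, abs_neg]
  rw [habs, abs_of_pos (by linarith)]
  simp only [Complex.norm_ofNat, mul_one]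
  linarith

end SmallJAux

open SmallJAux

/-- Let `W(t) = ∑_{z ∈ ball t} xi j z` and let `α` be a Gaussian integer with `|xi (2 j) α - 1| ≥ 1`,
e.g. `α = |j| + i`: its angle is `θ = arctan (1/|j|)` and `2 |j| θ ∈ [π/2, 2]`. With `A = nm α`,
`|W(A t) - A xi j α W(t)| ≤ C |j| A √t`: split `ball (A t)` into the `A` residue classes modulo `α`; the
class of `c` (with `|c| ≤ |α|`) is compared with the class of `0`, i.e. `α * ball t`, by the translation
`z ↦ z - c`: `|xi j z - xi j (z - c)| ≤ 2 |j| |c| / |z|` and the number of `z` with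
`√(A t) - |α| ≤ |z| ≤ √(A t) + |α|` is at most `C √(A t) |α|`, and `∑_{z ∈ ball s, z ≠ 0} 1/|z| ≤ C √s`.
The same holds with `star α` (same norm, `xi j (star α) = xi (-j) α`). Subtract:
`A |xi j α - xi (-j) α| |W(t)| ≤ C |j| A √t`. -/
theorem small_j : ∃ C : ℝ, 0 < C ∧ ∀ (t : ℝ) (j : ℤ), 1 ≤ t → j ≠ 0 →
    ‖∑ z ∈ ball t, xi j z‖ ≤ C * |(j : ℝ)| * Real.sqrt t := by
  obtain ⟨C, hC, hall⟩ := all_classes
  refine ⟨2 * C, by positivity, fun t j ht hj => ?_⟩
  obtain ⟨α, hα0, hα⟩ := exists_alpha j hj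
  obtain ⟨N, hN, hNs⟩ := hall α hα0
  set s := Real.sqrt t with hs
  have hs1 : 1 ≤ s := by
    rw [hs, Real.one_le_sqrt]
    exact ht
  have hst : s ^ 2 = t := Real.sq_sqrt (by linarith)
  have h1 := hNs s j hs1 hj
  have h2 := hNs s (-j) hs1 (neg_ne_zero.2 hj)
  rw [sum_neg, sum_neg, hst, Int.cast_neg, abs_neg] at h2
  rw [hst] at h1
  set W := ∑ z ∈ ball t, xi j z with hW
  set Z := ∑ z ∈ ball ((‖(α : ℂ)‖ * s) ^ 2), xi j z with hZ
  have h3 : ‖(N : ℂ) * ((xi j α - xi (-j) α) * W)‖ ≤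
      N * (C * |(j : ℝ)| * s) + N * (C * |(j : ℝ)| * s) := by
    have : (N : ℂ) * ((xi j α - xi (-j) α) * W) =
        (Z - N * (xi (-j) α * W)) - (Z - N * (xi j α * W)) := by ring
    rw [this]
    exact (norm_sub_le _ _).trans (add_le_add h2 h1)
  rw [norm_mul, norm_mul, Complex.norm_real, Real.norm_eq_abs, abs_of_pos hN] at h3
  have h4 : N * (‖xi j α - xi (-j) α‖ * ‖W‖) ≤ N * (2 * (C * |(j : ℝ)| * s)) := by linarith
  have h5 := le_of_mul_le_mul_left h4 hN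
  have h6 : 1 * ‖W‖ ≤ ‖xi j α - xi (-j) α‖ * ‖W‖ := mul_le_mul_of_nonneg_right hα (norm_nonneg _)
  linarith

end Pool.Agent.GaussMR
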