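import Pool.Agent.Lib_MP_f1a94e_mr.Basic

/-!
# Piece BALL0: trivial bound for the number of Gaussian integers in a disc
-/

set_option autoImplicit false

namespace Pool.Agent.GaussMR

open Classical in
/-- for `t < 1` the set is empty, for `t ≥ 1` it has at most `(2 √t + 1)^2 ≤ 9 t` elements -/
theorem card_ball_le (t : ℝ) (ht : 0 ≤ t) : (((ball t).filter (fun z => z ≠ 0)).card : ℝ) ≤ 9 * t := by
  rcases lt_or_ge t 1 with h1 | h1
  · have h : (ball t).filter (fun z => z ≠ 0) = ∅ := by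
      rw [Finset.filter_eq_empty_iff]
      intro z hz h0
      rw [mem_ball] at hz
      have h2 := nm_pos h0
      have h3 : (1 : ℝ) ≤ nm z := by exact_mod_cast h2
      linarith
    rw [h]
    simpa using by linarith
  · set s : ℕ := ⌊Real.sqrt t⌋₊ with hs
    have hs1 : (s : ℝ) ≤ Real.sqrt t := Nat.floor_le (Real.sqrt_nonneg t)
    have hbd : ∀ a : ℤ, ∀ b : ℤ, ((a ^ 2 + b ^ 2 : ℤ) : ℝ) ≤ t → -(s : ℤ) ≤ a ∧ a ≤ s := by
      intro a b hab
      have h2 : (a.natAbs : ℝ) ≤ Real.sqrt t := by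
        apply Real.le_sqrt_of_sq_le
        have e1 : (a.natAbs : ℝ) = |(a : ℝ)| := by
          rw [Nat.cast_natAbs, Int.cast_abs]
        rw [e1, sq_abs]
        push_cast at hab
        nlinarith [sq_nonneg (b : ℝ)]
      have h3 : a.natAbs ≤ s := Nat.le_floor h2
      omega
    have hsub : (ball t).filter (fun z => z ≠ 0) ⊆
        ((Finset.Icc (-(s : ℤ)) s) ×ˢ (Finset.Icc (-(s : ℤ)) s)).image
          (fun p : ℤ × ℤ => (⟨p.1, p.2⟩ : G)) := by
      intro z hz
      rw [Finset.mem_filter, mem_ball] at hz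
      have h2 : ((z.re ^ 2 + z.im ^ 2 : ℤ) : ℝ) ≤ t := by
        have := hz.1
        rw [← nm_eq]
        exact_mod_cast this
      have h3 : ((z.im ^ 2 + z.re ^ 2 : ℤ) : ℝ) ≤ t := by rwa [add_comm]
      rw [Finset.mem_image]
      refine ⟨(z.re, z.im), ?_, rfl⟩
      rw [Finset.mem_product, Finset.mem_Icc, Finset.mem_Icc]
      exact ⟨hbd _ _ h2, hbd _ _ h3⟩
    have hcard : ((ball t).filter (fun z => z ≠ 0)).card ≤ (2 * s + 1) * (2 * s + 1) := by
      refine (Finset.card_le_card hsub).trans (Finset.card_image_le.trans ?_)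
      rw [Finset.card_product, Int.card_Icc]
      have : ((s : ℤ) + 1 - -(s : ℤ)).toNat = 2 * s + 1 := by omega
      rw [this]
    have h4 : (((ball t).filter (fun z => z ≠ 0)).card : ℝ) ≤ (2 * s + 1) * (2 * s + 1) := by
      exact_mod_cast hcard
    have h5 : 1 ≤ Real.sqrt t := Real.one_le_sqrt.2 h1
    have h6 : Real.sqrt t * Real.sqrt t = t := Real.mul_self_sqrt ht
    have h7 : (2 * (s : ℝ) + 1) ≤ 3 * Real.sqrt t := by linarith
    have h8 : (0 : ℝ) ≤ 2 * (s : ℝ) + 1 := by positivity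
    nlinarith

end Pool.Agent.GaussMR
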