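import Mathlib

/-!
# MP_f1a94e_nt, strong theorem: definitions

Gaussian integers, directions, the set `V X` of odd primitive Gaussian integers of norm at most `X`,
sign functions, Fourier coefficients.
-/

set_option autoImplicit false

namespace Pool.Agent.GaussMR

open Complex

/-- Gaussian integers -/
abbrev G := GaussianInt

/-- the norm as a natural number -/
def nm (z : G) : ℕ := z.norm.natAbs

/-- determinant of two Gaussian integers, the imaginary part of `star z * w` -/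
def det (z w : G) : ℤ := z.re * w.im - z.im * w.re

/-- scalar product of two Gaussian integers, the real part of `star z * w` -/
def dot (z w : G) : ℤ := z.re * w.re + z.im * w.im

/-- primitive Gaussian integers: coprime coordinates -/
def Prim (z : G) : Prop := IsCoprime z.re z.im

/-- the direction `z / |z|` -/
noncomputable def dir (z : G) : ℂ := (z : ℂ) / ((‖(z : ℂ)‖ : ℝ) : ℂ)

/-- the angular character `(z / |z|) ^ k` -/
noncomputable def xi (k : ℤ) (z : G) : ℂ := dir z ^ k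

theorem nm_eq (z : G) : (nm z : ℤ) = z.re ^ 2 + z.im ^ 2 := by
  unfold nm
  rw [Int.natAbs_of_nonneg (GaussianInt.norm_nonneg z), Zsqrtd.norm_def]
  ring

theorem finite_ball (X : ℝ) : {z : G | (nm z : ℝ) ≤ X}.Finite := by
  have h : {z : G | (nm z : ℝ) ≤ X} ⊆
      (fun p : ℤ × ℤ => (⟨p.1, p.2⟩ : G)) ''
        ((Set.Icc (-(⌈|X|⌉₊ : ℤ)) ⌈|X|⌉₊) ×ˢ (Set.Icc (-(⌈|X|⌉₊ : ℤ)) ⌈|X|⌉₊)) := by
    intro z hz
    have hz' : (nm z : ℝ) ≤ X := hz
    have h1 : (nm z : ℝ) ≤ ⌈|X|⌉₊ := hz'.trans ((le_abs_self X).trans (Nat.le_ceil _))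
    have h2 : (nm z : ℤ) ≤ ⌈|X|⌉₊ := by exact_mod_cast h1
    rw [nm_eq] at h2
    set M : ℤ := (⌈|X|⌉₊ : ℤ) with hM
    refine ⟨(z.re, z.im), ?_, rfl⟩
    have a1 : -M ≤ z.re ∧ z.re ≤ M := by
      constructor <;> nlinarith [sq_nonneg z.im, sq_nonneg z.re, sq_nonneg (z.re + 1), sq_nonneg (z.re - 1)]
    have a2 : -M ≤ z.im ∧ z.im ≤ M := by
      constructor <;> nlinarith [sq_nonneg z.im, sq_nonneg z.re, sq_nonneg (z.im + 1), sq_nonneg (z.im - 1)]
    exact ⟨⟨a1.1, a1.2⟩, ⟨a2.1, a2.2⟩⟩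
  exact (((Set.finite_Icc _ _).prod (Set.finite_Icc _ _)).image _).subset h

/-- all Gaussian integers of norm at most `X` -/
noncomputable def ball (X : ℝ) : Finset G := (finite_ball X).toFinset

open Classical in
/-- the odd primitive Gaussian integers of norm at most `X` (all four associates) -/
noncomputable def V (X : ℝ) : Finset G := (ball X).filter (fun z => Odd (nm z) ∧ Prim z)

open Classical in
/-- the odd Gaussian integers of norm at most `t` -/
noncomputable def ob (t : ℝ) : Finset G := (ball t).filter (fun z => Odd (nm z))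

/-- a split prime: the norm is a rational prime `1 mod 4` -/
def Spl (w : G) : Prop := (nm w).Prime ∧ nm w % 4 = 1

/-- `exp (2 π i x)` -/
noncomputable def ee (x : ℝ) : ℂ := Complex.exp (2 * Real.pi * x * Complex.I)

/-- sign functions on the Gaussian integers of odd norm -/
structure PM (F : G → ℝ) : Prop where
  pm : ∀ z, Odd (nm z) → F z = 1 ∨ F z = -1
  mul : ∀ z w, Odd (nm z) → Odd (nm w) → F (z * w) = F z * F w
  conj : ∀ z, Odd (nm z) → F (star z) = F z
  neg_one : F (-1) = 1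

/-- unnormalised Fourier coefficient of `F` on `V X` -/
noncomputable def fc (F : G → ℝ) (X : ℝ) (k : ℤ) : ℂ := ∑ z ∈ V X, (F z : ℂ) * xi (-k) z

open Classical in
/-- adjacent pairs of odd primitive vectors of norm at most `X` with different signs -/
noncomputable def edges (F : G → ℝ) (X : ℝ) : Finset (G × G) :=
  (V X ×ˢ V X).filter (fun e => |det e.1 e.2| = 1 ∧ F e.1 ≠ F e.2)

open Classical in
/-- one Gaussian prime `a + b i`, `0 < b < a`, above each prime `p = 1 mod 4` with `P < p ≤ Q` -/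
noncomputable def PP (P Q : ℝ) : Finset G :=
  (ball Q).filter (fun w => P < (nm w : ℝ) ∧ (nm w).Prime ∧ 0 < w.im ∧ w.im < w.re)

/-- `∑ 1 / p` over the primes `p = 1 mod 4` with `P < p ≤ Q` -/
noncomputable def Ls (P Q : ℝ) : ℝ := ∑ w ∈ PP P Q, 1 / (nm w : ℝ)

/-- the number of primes of `PP P Q` dividing `z` -/
noncomputable def om (P Q : ℝ) (z : G) : ℝ := (Set.ncard {w : G | w ∈ PP P Q ∧ w ∣ z} : ℝ)

open Classical in
/-- the block of `PP P Q` with norms in `(exp (v ρ), exp ((v + 1) ρ)]` -/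
noncomputable def blk (P Q ρ : ℝ) (v : ℕ) : Finset G :=
  (PP P Q).filter (fun w => Real.exp (v * ρ) < (nm w : ℝ) ∧ (nm w : ℝ) ≤ Real.exp ((v + 1) * ρ))

/-- the prime polynomial of a block -/
noncomputable def U (F : G → ℝ) (P Q ρ : ℝ) (v : ℕ) (k : ℤ) : ℂ :=
  ∑ w ∈ blk P Q ρ v, (F w : ℂ) * xi (-k) w

/-- number of blocks -/
noncomputable def nv (Q ρ : ℝ) : ℕ := ⌊Real.log Q / ρ⌋₊ + 1

/-- the factorised main term of a stage -/
noncomputable def UZ (F : G → ℝ) (P Q ρ X : ℝ) (k : ℤ) : ℂ :=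
  ∑ v ∈ Finset.range (nv Q ρ), U F P Q ρ v k * fc F (X * Real.exp (-(v * ρ))) k

open Classical in
/-- canonical odd Gaussian primes of norm at most `y`: one of each class of associates -/
noncomputable def CP (y : ℝ) : Finset G :=
  (ball y).filter (fun w => Prime w ∧ Odd (nm w) ∧ 0 < w.re ∧ 0 ≤ w.im)

open Classical in
/-- odd primitive almost primes: `X^(12/25) < nm u ≤ X^(13/25)`, all prime factors of norm `≥ X^a` -/
noncomputable def AA (a X : ℝ) : Finset G :=
  (V (X ^ (13 / 25 : ℝ))).filter (fun u => X ^ (12 / 25 : ℝ) < (nm u : ℝ) ∧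
    ∀ p : G, Prime p → p ∣ u → X ^ a ≤ (nm p : ℝ))

/-- trigonometric polynomial on directions -/
noncomputable def Fb (S : Finset ℤ) (d : ℤ → ℂ) (z : G) : ℂ := ∑ k ∈ S, d k * xi k z

/-- frequencies up to `T` -/
noncomputable def fr (T : ℕ) : Finset ℤ := Finset.Icc (-(T : ℤ)) T

/-- the primitive part of a Gaussian integer -/
def pr (z : G) : G := ⟨z.re / Int.gcd z.re z.im, z.im / Int.gcd z.re z.im⟩

/-- natural numbers all of whose prime factors are `1 mod 4` -/
def N1 (n : ℕ) : Prop := n ≠ 0 ∧ ∀ p : ℕ, p.Prime → p ∣ n → p % 4 = 1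

/-- number of ways to write `m ^ 2 + 1 = d d'` with `d, d' ≤ X` -/
noncomputable def tx (X : ℝ) (m : ℕ) : ℕ :=
  Set.ncard {d : ℕ | d ∣ m ^ 2 + 1 ∧ (d : ℝ) ≤ X ∧ ((m ^ 2 + 1 : ℕ) : ℝ) ≤ X * d}

end Pool.Agent.GaussMR
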