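import Pool.Agent.Lib_MP_f1a94e_mr.Split

/-!
# Piece STAGEID: the identity behind a stage
-/

set_option autoImplicit false

namespace Pool.Agent.GaussMR

open Classical in
/-- terms `w z` with `star w ∣ z` (not primitive) -/
noncomputable def A2 (F : G → ℝ) (P Q ρ X : ℝ) (k : ℤ) : ℂ :=
  ∑ v ∈ Finset.range (nv Q ρ), ∑ w ∈ blk P Q ρ v, (F w : ℂ) * xi (-k) w *
    ∑ z ∈ (V (X * Real.exp (-(v * ρ)))).filter (fun z => star w ∣ z), (F z : ℂ) * xi (-k) z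

open Classical in
/-- multiplicity of `z` in the annulus -/
noncomputable def mA (P Q ρ X : ℝ) (z : G) : ℕ :=
  ∑ v ∈ Finset.range (nv Q ρ), ((blk P Q ρ v).filter (fun w => w ∣ z ∧
    (nm z : ℝ) ≤ X * Real.exp (-(v * ρ)) * nm w)).card

/-- terms `w z` primitive of norm larger than `X` -/
noncomputable def A3 (F : G → ℝ) (P Q ρ X : ℝ) (k : ℤ) : ℂ :=
  ∑ z ∈ V (X * Real.exp ρ) \ V X, (F z : ℂ) * (mA P Q ρ X z : ℂ) * xi (-k) z

theorem mem_blk {P Q ρ : ℝ} {v : ℕ} {w : G} : w ∈ blk P Q ρ v ↔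
    w ∈ PP P Q ∧ Real.exp (v * ρ) < (nm w : ℝ) ∧ (nm w : ℝ) ≤ Real.exp ((v + 1) * ρ) := by
  classical
  unfold blk
  rw [Finset.mem_filter]

theorem blk_unique {P Q ρ : ℝ} (hρ : 0 < ρ) {v v' : ℕ} {w : G} (h : w ∈ blk P Q ρ v)
    (h' : w ∈ blk P Q ρ v') : v = v' := by
  rw [mem_blk] at h h'
  have key : ∀ {a b : ℕ}, Real.exp (a * ρ) < (nm w : ℝ) → (nm w : ℝ) ≤ Real.exp ((b + 1) * ρ) →
      a ≤ b := by
    intro a b h1 h2
    have h3 : (a : ℝ) * ρ < (b + 1) * ρ := Real.exp_lt_exp.mp (h1.trans_le h2)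
    have h4 : (a : ℝ) < b + 1 := lt_of_mul_lt_mul_right h3 hρ.le
    exact_mod_cast Nat.lt_succ_iff.mp (by exact_mod_cast h4)
  exact le_antisymm (key h.2.1 h'.2.2) (key h'.2.1 h.2.2)

theorem blk_exists {P Q ρ : ℝ} (hP : 1 ≤ P) (hρ : 0 < ρ) {w : G} (h : w ∈ PP P Q) :
    ∃ v ∈ Finset.range (nv Q ρ), w ∈ blk P Q ρ v := by
  obtain ⟨h1, h2, -, -, -⟩ := mem_PP.mp h
  have hw1 : (1 : ℝ) < nm w := hP.trans_lt h1
  have hw0 : (0 : ℝ) < nm w := by linarith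
  have hlog : 0 < Real.log (nm w) := Real.log_pos hw1
  set c : ℕ := ⌈Real.log (nm w) / ρ⌉₊ with hc
  have hc0 : 0 < c := Nat.ceil_pos.mpr (by positivity)
  obtain ⟨v, hv⟩ : ∃ v, c = v + 1 := ⟨c - 1, by omega⟩
  have hle : Real.log (nm w) / ρ ≤ (v : ℝ) + 1 := by
    have := Nat.le_ceil (Real.log (nm w) / ρ)
    rw [← hc, hv] at this
    exact_mod_cast this
  have hlt : (v : ℝ) < Real.log (nm w) / ρ := by
    have : v < c := by omega
    exact Nat.lt_ceil.mp this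
  rw [div_le_iff₀ hρ] at hle
  rw [lt_div_iff₀ hρ] at hlt
  refine ⟨v, ?_, mem_blk.mpr ⟨h, ?_, ?_⟩⟩
  · rw [Finset.mem_range, nv, Nat.lt_succ_iff]
    refine Nat.le_floor ?_
    rw [le_div_iff₀ hρ]
    exact hlt.le.trans (Real.log_le_log hw0 h2)
  · rw [← Real.lt_log_iff_exp_lt hw0]
    exact hlt
  · rw [← Real.log_le_iff_le_exp hw0]
    exact hle

open Classical in
theorem mA_eq (P Q ρ X : ℝ) (hρ : 0 < ρ) (z : G) :
    mA P Q ρ X z = ((Finset.range (nv Q ρ)).biUnion fun v => (blk P Q ρ v).filter (fun w => w ∣ z ∧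
      (nm z : ℝ) ≤ X * Real.exp (-(v * ρ)) * nm w)).card := by
  rw [Finset.card_biUnion]
  · rfl
  · intro v _ v' _ hvv
    rw [Function.onFun, Finset.disjoint_left]
    intro w hw hw'
    exact hvv (blk_unique hρ (Finset.mem_filter.mp hw).1 (Finset.mem_filter.mp hw').1)

theorem om_finite (P Q : ℝ) (z : G) : {w : G | w ∈ PP P Q ∧ w ∣ z}.Finite :=
  (PP P Q).finite_toSet.subset fun _ hw => hw.1

/-- `mA ≤ om`: the blocks are disjoint subsets of `PP` -/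
theorem mA_le (P Q ρ X : ℝ) (hρ : 0 < ρ) (z : G) (hz : z ≠ 0) : (mA P Q ρ X z : ℝ) ≤ om P Q z := by
  classical
  rw [mA_eq P Q ρ X hρ z, om, Nat.cast_le, ← Set.ncard_coe_finset]
  refine Set.ncard_le_ncard ?_ (om_finite P Q z)
  intro w hw
  rw [Finset.mem_coe, Finset.mem_biUnion] at hw
  obtain ⟨v, _, hw⟩ := hw
  rw [Finset.mem_filter] at hw
  exact ⟨(mem_blk.mp hw.1).1, hw.2.1⟩

theorem mA_eq_om (P Q ρ X : ℝ) (hP : 1 ≤ P) (hρ : 0 < ρ) (hX : 0 ≤ X) (z : G)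
    (hz : (nm z : ℝ) ≤ X) : (mA P Q ρ X z : ℝ) = om P Q z := by
  classical
  rw [mA_eq P Q ρ X hρ z, om, Nat.cast_inj, ← Set.ncard_coe_finset]
  congr 1
  ext w
  rw [Finset.mem_coe, Finset.mem_biUnion, Set.mem_ofPred_eq]
  constructor
  · rintro ⟨v, _, hw⟩
    rw [Finset.mem_filter] at hw
    exact ⟨(mem_blk.mp hw.1).1, hw.2.1⟩
  · rintro ⟨hw, hd⟩
    obtain ⟨v, hv, hvw⟩ := blk_exists hP hρ hw
    refine ⟨v, hv, Finset.mem_filter.mpr ⟨hvw, hd, hz.trans ?_⟩⟩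
    have h1 : Real.exp (v * ρ) < nm w := (mem_blk.mp hvw).2.1
    calc X = X * Real.exp (-(v * ρ)) * Real.exp (v * ρ) := by
          rw [mul_assoc, ← Real.exp_add, neg_add_cancel, Real.exp_zero, mul_one]
      _ ≤ X * Real.exp (-(v * ρ)) * nm w := by gcongr

open Classical in
/-- the substitution `z' = w z` -/
theorem sub_sum (F : G → ℝ) (hF : PM F) {w : G} (hw : Spl w) (Y Y' : ℝ) (k : ℤ)
    (hYY : Y * nm w ≤ Y') :
    ∑ z ∈ (V Y).filter (fun z => ¬ star w ∣ z), ((F w : ℂ) * xi (-k) w) * ((F z : ℂ) * xi (-k) z) =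
      ∑ z ∈ (V Y').filter (fun z => w ∣ z ∧ (nm z : ℝ) ≤ Y * nm w), (F z : ℂ) * xi (-k) z := by
  have hw0 : w ≠ 0 := ne_zero_of_odd hw.odd
  have hnw : (0 : ℝ) < nm w := by exact_mod_cast nm_pos hw0
  refine Finset.sum_bij (fun z _ => w * z) ?_ ?_ ?_ ?_
  · intro z hz
    rw [Finset.mem_filter, mem_V] at hz
    obtain ⟨⟨h1, h2, h3⟩, h4⟩ := hz
    have h5 : (nm (w * z) : ℝ) ≤ Y * nm w := by
      rw [nm_mul]
      push_cast
      nlinarith
    rw [Finset.mem_filter, mem_V]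
    exact ⟨⟨h5.trans hYY, odd_nm_mul.mpr ⟨hw.odd, h2⟩, (prim_mul_iff hw h3).mpr h4⟩,
      dvd_mul_right _ _, h5⟩
  · intro z _ z' _ h
    exact mul_left_cancel₀ hw0 h
  · intro z' hz'
    rw [Finset.mem_filter, mem_V] at hz'
    obtain ⟨⟨h1, h2, h3⟩, ⟨z, rfl⟩, h5⟩ := hz'
    have hz2 : Prim z := (prim_of_mul h3).2
    refine ⟨z, ?_, rfl⟩
    rw [Finset.mem_filter, mem_V]
    refine ⟨⟨?_, (odd_nm_mul.mp h2).2, hz2⟩, (prim_mul_iff hw hz2).mp h3⟩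
    rw [nm_mul] at h5
    push_cast at h5
    have h6 : (nm w : ℝ) * nm z ≤ nm w * Y := by linarith
    exact le_of_mul_le_mul_left h6 hnw
  · intro z hz
    rw [Finset.mem_filter, mem_V] at hz
    rw [hF.mul w z hw.odd hz.1.2.1, xi_mul]
    push_cast
    ring

/-- Every `w ∈ PP P Q` (`P ≥ 1`) lies in exactly one block `v < nv Q ρ`. Expand
`UZ = ∑_v ∑_{w ∈ blk v} ∑_{z ∈ V (X e^(-vρ))} F w F z xi_{-k}(w z)` and split the `z`: `star w ∣ z`
(`A2`); else `w z` is odd primitive (`prim_mul_iff`) of norm `≤ X e^ρ`: norm `> X` (`A3`), or `w z ∈ V X`.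
For `w ∈ blk v` the map `z ↦ w z` is a bijection from `{z ∈ V (X e^(-vρ)) : ¬ star w ∣ z, nm (w z) ≤ X}` to
`{z' ∈ V X : w ∣ z'}` because `nm z' ≤ X` and `nm w > e^(vρ)`. -/
theorem stage_id (F : G → ℝ) (hF : PM F) (P Q ρ X : ℝ) (k : ℤ) (hP : 1 ≤ P) (hPQ : P ≤ Q)
    (hρ : 0 < ρ) (hX : 1 ≤ X) :
    UZ F P Q ρ X k = ∑ z ∈ V X, (F z : ℂ) * (om P Q z : ℂ) * xi (-k) z + A2 F P Q ρ X k +
      A3 F P Q ρ X k := by
  classical
  -- the double sum without the non primitive terms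
  have h1 : UZ F P Q ρ X k = A2 F P Q ρ X k + ∑ v ∈ Finset.range (nv Q ρ), ∑ w ∈ blk P Q ρ v,
      ∑ z ∈ (V (X * Real.exp ρ)).filter (fun z => w ∣ z ∧
        (nm z : ℝ) ≤ X * Real.exp (-(v * ρ)) * nm w), (F z : ℂ) * xi (-k) z := by
    unfold UZ A2
    rw [← Finset.sum_add_distrib]
    refine Finset.sum_congr rfl fun v _ => ?_
    unfold U
    rw [Finset.sum_mul, ← Finset.sum_add_distrib]
    refine Finset.sum_congr rfl fun w hw => ?_
    have hs : Spl w := PP_spl (mem_blk.mp hw).1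
    have hYY : X * Real.exp (-(v * ρ)) * nm w ≤ X * Real.exp ρ := by
      have h2 := (mem_blk.mp hw).2.2
      calc X * Real.exp (-(v * ρ)) * nm w ≤ X * Real.exp (-(v * ρ)) * Real.exp ((v + 1) * ρ) := by
            gcongr
        _ = X * Real.exp ρ := by
            rw [mul_assoc, ← Real.exp_add]
            congr 2
            ring
    rw [← sub_sum F hF hs _ _ k hYY, fc, ← Finset.sum_filter_add_sum_filter_not _
      (fun z => star w ∣ z), mul_add]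
    congr 1
    rw [Finset.mul_sum]
  have h2 : ∑ v ∈ Finset.range (nv Q ρ), ∑ w ∈ blk P Q ρ v,
      ∑ z ∈ (V (X * Real.exp ρ)).filter (fun z => w ∣ z ∧
        (nm z : ℝ) ≤ X * Real.exp (-(v * ρ)) * nm w), (F z : ℂ) * xi (-k) z =
      ∑ z ∈ V (X * Real.exp ρ), (F z : ℂ) * (mA P Q ρ X z : ℂ) * xi (-k) z := by
    have e1 : ∀ v : ℕ, ∑ w ∈ blk P Q ρ v,
        ∑ z ∈ (V (X * Real.exp ρ)).filter (fun z => w ∣ z ∧
          (nm z : ℝ) ≤ X * Real.exp (-(v * ρ)) * nm w), (F z : ℂ) * xi (-k) z =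
        ∑ z ∈ V (X * Real.exp ρ), (((blk P Q ρ v).filter (fun w => w ∣ z ∧
          (nm z : ℝ) ≤ X * Real.exp (-(v * ρ)) * nm w)).card : ℂ) * ((F z : ℂ) * xi (-k) z) := by
      intro v
      simp only [Finset.sum_filter]
      rw [Finset.sum_comm]
      refine Finset.sum_congr rfl fun z _ => ?_
      rw [← Finset.sum_filter, Finset.sum_const, nsmul_eq_mul]
    simp only [e1]
    rw [Finset.sum_comm]
    refine Finset.sum_congr rfl fun z _ => ?_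
    rw [← Finset.sum_mul, mA]
    push_cast
    ring
  have hsub : V X ⊆ V (X * Real.exp ρ) := by
    intro z hz
    rw [mem_V] at hz ⊢
    refine ⟨hz.1.trans ?_, hz.2⟩
    have : 1 ≤ Real.exp ρ := Real.one_le_exp hρ.le
    nlinarith
  have h3 : ∑ z ∈ V X, (F z : ℂ) * (om P Q z : ℂ) * xi (-k) z =
      ∑ z ∈ V X, (F z : ℂ) * (mA P Q ρ X z : ℂ) * xi (-k) z := by
    refine Finset.sum_congr rfl fun z hz => ?_
    have e2 := mA_eq_om P Q ρ X hP hρ (by linarith) z (mem_V.mp hz).1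
    rw [← e2]
    push_cast
    ring
  rw [h1, h2, ← Finset.sum_sdiff hsub, h3, A3]
  ring

end Pool.Agent.GaussMR
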