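import Pool.Agent.Lib_MP_f1a94e_mr.Ball

/-!
# Piece VASYMP: counting odd primitive Gaussian integers
-/

set_option autoImplicit false

namespace Pool.Agent.GaussMR

open Filter Topology ArithmeticFunction

theorem card_V_le (X : ℝ) (hX : 0 ≤ X) : ((V X).card : ℝ) ≤ 9 * X := by
  classical
  refine le_trans ?_ (card_ball_le X hX)
  have : V X ⊆ (ball X).filter (fun z => z ≠ 0) := by
    intro z hz
    rw [mem_V] at hz
    rw [Finset.mem_filter, mem_ball]
    exact ⟨hz.1, ne_zero_of_odd hz.2.1⟩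
  exact_mod_cast Finset.card_le_card this

theorem mem_ob {t : ℝ} {z : G} : z ∈ ob t ↔ (nm z : ℝ) ≤ t ∧ Odd (nm z) := by
  classical
  simp [ob, mem_ball]

/-- the greatest common divisor of the coordinates -/
def gc (z : G) : ℕ := Int.gcd z.re z.im

theorem gc_sq_le (z : G) (hz : z ≠ 0) : gc z ^ 2 ≤ nm z := by
  obtain ⟨a, ha⟩ := Int.gcd_dvd_left z.re z.im
  obtain ⟨b, hb⟩ := Int.gcd_dvd_right z.re z.im
  have h1 : (nm z : ℤ) = (gc z : ℤ) ^ 2 * (a ^ 2 + b ^ 2) := by
    rw [nm_eq]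
    have e1 : z.re = (gc z : ℤ) * a := ha
    have e2 : z.im = (gc z : ℤ) * b := hb
    rw [e1, e2]
    ring
  have h2 : 0 < (nm z : ℤ) := by exact_mod_cast nm_pos hz
  have h3 : 0 < a ^ 2 + b ^ 2 := by
    by_contra hcon
    push Not at hcon
    nlinarith [sq_nonneg (gc z : ℤ)]
  have h4 : (gc z : ℤ) ^ 2 ≤ nm z := by
    rw [h1]
    nlinarith [sq_nonneg (gc z : ℤ)]
  exact_mod_cast h4

theorem gc_pos (z : G) (hz : z ≠ 0) : 0 < gc z := by
  rw [gc, Int.gcd_pos_iff]
  by_contra hcon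
  push Not at hcon
  exact hz (by apply Zsqrtd.ext <;> simp [hcon.1, hcon.2])

theorem prim_iff_gc (z : G) : Prim z ↔ gc z = 1 := by
  rw [Prim, gc, Int.isCoprime_iff_gcd_eq_one]

/-- the number of odd Gaussian integers divisible by `d` -/
theorem card_ob_dvd (X : ℝ) (d : ℕ) (hd : 0 < d) :
    ((ob X).filter (fun z => d ∣ gc z)).card =
      if Odd d then (ob (X / (d : ℝ) ^ 2)).card else 0 := by
  split_ifs with hodd
  · symm
    apply Finset.card_bij (fun w _ => (⟨d * w.re, d * w.im⟩ : G))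
    · intro w hw
      rw [mem_ob] at hw
      have e1 : nm (⟨d * w.re, d * w.im⟩ : G) = d ^ 2 * nm w := by
        have : (nm (⟨d * w.re, d * w.im⟩ : G) : ℤ) = d ^ 2 * nm w := by
          rw [nm_eq, nm_eq]; ring
        exact_mod_cast this
      rw [Finset.mem_filter, mem_ob, e1]
      have hd0 : (0 : ℝ) < (d : ℝ) ^ 2 := by positivity
      have h1 := hw.1
      rw [le_div_iff₀ hd0] at h1
      refine ⟨⟨by push_cast; linarith, (hodd.pow).mul hw.2⟩, ?_⟩
      unfold gc
      rw [Int.dvd_gcd_iff]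
      simp
    · intro w _ w' _ h
      have a1 := congrArg Zsqrtd.re h
      have a2 := congrArg Zsqrtd.im h
      simp only at a1 a2
      have hd0 : (d : ℤ) ≠ 0 := by exact_mod_cast hd.ne'
      apply Zsqrtd.ext
      · exact mul_left_cancel₀ hd0 a1
      · exact mul_left_cancel₀ hd0 a2
    · intro z hz
      rw [Finset.mem_filter, mem_ob] at hz
      obtain ⟨⟨hz1, hz2⟩, hz3⟩ := hz
      have h1 : (d : ℤ) ∣ z.re := (Int.natCast_dvd_natCast.2 hz3).trans (Int.gcd_dvd_left _ _)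
      have h2 : (d : ℤ) ∣ z.im := (Int.natCast_dvd_natCast.2 hz3).trans (Int.gcd_dvd_right _ _)
      obtain ⟨a, ha⟩ := h1
      obtain ⟨b, hb⟩ := h2
      have e1 : nm z = d ^ 2 * nm (⟨a, b⟩ : G) := by
        have : (nm z : ℤ) = d ^ 2 * nm (⟨a, b⟩ : G) := by
          rw [nm_eq, nm_eq, ha, hb]; ring
        exact_mod_cast this
      refine ⟨⟨a, b⟩, ?_, ?_⟩
      · rw [mem_ob]
        have hd0 : (0 : ℝ) < (d : ℝ) ^ 2 := by positivity
        rw [le_div_iff₀ hd0]
        rw [e1] at hz1 hz2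
        push_cast at hz1
        exact ⟨by linarith, (Nat.odd_mul.1 hz2).2⟩
      · apply Zsqrtd.ext
        · simp [ha]
        · simp [hb]
  · rw [Finset.card_eq_zero, Finset.filter_eq_empty_iff]
    intro z hz hdz
    rw [mem_ob] at hz
    rw [Nat.not_odd_iff_even] at hodd
    have h1 : (2 : ℤ) ∣ z.re := (Int.natCast_dvd_natCast.2 ((even_iff_two_dvd.1 hodd).trans hdz)).trans
      (Int.gcd_dvd_left _ _)
    have h2 : (2 : ℤ) ∣ z.im := (Int.natCast_dvd_natCast.2 ((even_iff_two_dvd.1 hodd).trans hdz)).trans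
      (Int.gcd_dvd_right _ _)
    have h3 := odd_nm_iff.1 hz.2
    rw [Int.odd_iff] at h3
    omega

/-- Moebius inversion -/
theorem card_V_eq (X : ℝ) (D : ℕ) (hD : Real.sqrt X ≤ D + 1) (hX : 0 ≤ X) :
    ((V X).card : ℝ) =
      ∑ d ∈ Finset.range (D + 2), (if Odd d then (moebius d : ℝ) * (ob (X / (d : ℝ) ^ 2)).card
        else 0) := by
  classical
  have h1 : ((V X).card : ℝ) = ∑ z ∈ ob X, if gc z = 1 then (1 : ℝ) else 0 := by
    rw [Finset.sum_ite, Finset.sum_const_zero, add_zero, Finset.sum_const, nsmul_eq_mul, mul_one]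
    congr 2
    ext z
    rw [mem_V, Finset.mem_filter, mem_ob, prim_iff_gc, and_assoc]
  have h2 : ∀ z ∈ ob X, (if gc z = 1 then (1 : ℝ) else 0) =
      ∑ d ∈ Finset.range (D + 2), if (d ∣ gc z ∧ d ≠ 0) then (moebius d : ℝ) else 0 := by
    intro z hz
    rw [mem_ob] at hz
    have hz0 := ne_zero_of_odd hz.2
    have hg := gc_pos z hz0
    have hgD : gc z ≤ D + 1 := by
      have a1 : ((gc z ^ 2 : ℕ) : ℝ) ≤ X := le_trans (by exact_mod_cast gc_sq_le z hz0) hz.1
      push_cast at a1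
      have a2 : (gc z : ℝ) ≤ Real.sqrt X := Real.le_sqrt_of_sq_le a1
      have a3 : (gc z : ℝ) ≤ D + 1 := a2.trans hD
      exact_mod_cast a3
    have h3 : ∑ d ∈ Finset.range (D + 2), (if (d ∣ gc z ∧ d ≠ 0) then (moebius d : ℝ) else 0) =
        ∑ d ∈ (gc z).divisors, (moebius d : ℝ) := by
      rw [← Finset.sum_filter]
      apply Finset.sum_congr _ (fun _ _ => rfl)
      ext d
      rw [Finset.mem_filter, Finset.mem_range, Nat.mem_divisors]
      constructor
      · rintro ⟨_, b1, _⟩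
        exact ⟨b1, hg.ne'⟩
      · rintro ⟨b1, b2⟩
        refine ⟨?_, b1, ?_⟩
        · have := Nat.le_of_dvd hg b1
          omega
        · rintro rfl
          exact b2 (zero_dvd_iff.1 b1)
    rw [h3]
    have h4 : ((∑ d ∈ (gc z).divisors, moebius d : ℤ) : ℝ) = if gc z = 1 then (1 : ℝ) else 0 := by
      rw [← coe_mul_zeta_apply, moebius_mul_coe_zeta, one_apply]
      push_cast
      rfl
    rw [← h4]
    push_cast
    rfl
  rw [h1, Finset.sum_congr rfl h2, Finset.sum_comm]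
  apply Finset.sum_congr rfl
  intro d _
  rcases Nat.eq_zero_or_pos d with rfl | hd
  · simp
  have h5 := card_ob_dvd X d hd
  have h6 : ∑ z ∈ ob X, (if (d ∣ gc z ∧ d ≠ 0) then (moebius d : ℝ) else 0) =
      (moebius d : ℝ) * ((ob X).filter (fun z => d ∣ gc z)).card := by
    have : ∀ z ∈ ob X, (if (d ∣ gc z ∧ d ≠ 0) then (moebius d : ℝ) else 0) =
        if d ∣ gc z then (moebius d : ℝ) else 0 := by
      intro z _
      simp [hd.ne']
    rw [Finset.sum_congr rfl this, ← Finset.sum_filter, Finset.sum_const, nsmul_eq_mul, mul_comm]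
  rw [h6, h5]
  split_ifs <;> simp

/-- the coefficients `μ(d) / d ^ 2`, `d` odd -/
noncomputable def cf (d : ℕ) : ℝ := if Odd d then (moebius d : ℝ) / (d : ℝ) ^ 2 else 0

theorem abs_moebius_le (d : ℕ) : |(moebius d : ℝ)| ≤ 1 := by
  have h := abs_moebius_le_one (n := d)
  exact_mod_cast h

theorem abs_cf_le (d : ℕ) : |cf d| ≤ ((d : ℝ) ^ 2)⁻¹ := by
  unfold cf
  split_ifs with h
  · rw [abs_div, abs_of_nonneg (by positivity : (0 : ℝ) ≤ (d : ℝ) ^ 2), div_eq_mul_inv]
    have h1 := abs_moebius_le d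
    have h2 : 0 ≤ ((d : ℝ) ^ 2)⁻¹ := by positivity
    nlinarith
  · rw [abs_zero]; positivity

theorem summable_cf : Summable cf := by
  apply Summable.of_norm_bounded (g := fun d : ℕ => ((d : ℝ) ^ 2)⁻¹)
  · have := Real.summable_nat_pow_inv (p := 2)
    exact this.2 (by norm_num)
  · intro d
    exact abs_cf_le d

theorem cf_tail (n : ℕ) : |∑' d, cf d - ∑ d ∈ Finset.range (n + 1), cf d| ≤ 2 / (n + 1) := by
  have h1 : Tendsto (fun N => |∑ d ∈ Finset.range N, cf d - ∑ d ∈ Finset.range (n + 1), cf d|) atTop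
      (𝓝 |∑' d, cf d - ∑ d ∈ Finset.range (n + 1), cf d|) :=
    ((summable_cf.hasSum.tendsto_sum_nat).sub_const _).abs
  refine le_of_tendsto h1 ?_
  filter_upwards [eventually_ge_atTop (n + 1)] with N hN
  rw [← Finset.sum_range_add_sum_Ico _ hN, add_sub_cancel_left]
  refine (Finset.abs_sum_le_sum_abs _ _).trans ?_
  have h2 : ∑ d ∈ Finset.Ico (n + 1) N, |cf d| ≤ ∑ d ∈ Finset.Ioo n N, ((d : ℝ) ^ 2)⁻¹ := by
    have : Finset.Ico (n + 1) N = Finset.Ioo n N := by
      ext x; simp only [Finset.mem_Ico, Finset.mem_Ioo]; omega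
    rw [this]
    exact Finset.sum_le_sum fun d _ => abs_cf_le d
  exact h2.trans (sum_Ioo_inv_sq_le n N)

theorem cf_pos : 0 < ∑' d, cf d := by
  -- partial sums are at least `3/4`
  have key : ∀ n : ℕ, |∑ d ∈ Finset.Ico 3 (n + 3), cf d| ≤ 1 / 4 := by
    intro n
    have h : ∀ n : ℕ, ∑ d ∈ Finset.Ico 3 (2 * n + 3), |cf d| ≤ 1 / 4 - 1 / (4 * (n + 1)) := by
      intro n
      induction n with
      | zero => simp
      | succ n ih =>
        have e1 : 2 * (n + 1) + 3 = (2 * n + 3 + 1) + 1 := by ring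
        rw [e1, Finset.sum_Ico_succ_top (by omega), Finset.sum_Ico_succ_top (by omega)]
        have e2 : cf (2 * n + 3 + 1) = 0 := by
          unfold cf
          rw [if_neg]
          rw [Nat.not_odd_iff_even]
          exact ⟨n + 2, by ring⟩
        rw [e2, abs_zero, add_zero]
        have e3 := abs_cf_le (2 * n + 3)
        push_cast at e3 ⊢
        have e4 : ((2 * (n : ℝ) + 3) ^ 2)⁻¹ ≤
              1 / (4 * ((n : ℝ) + 1)) - 1 / (4 * ((n : ℝ) + 1 + 1)) := by
          have : 1 / (4 * ((n : ℝ) + 1)) - 1 / (4 * (n + 1 + 1)) = 1 / (4 * (n + 1) * (n + 1 + 1)) := by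
            field_simp
            ring
          rw [this, ← one_div]
          apply one_div_le_one_div_of_le (by positivity)
          nlinarith [(Nat.cast_nonneg n : (0 : ℝ) ≤ n)]
        linarith
    have h2 : ∑ d ∈ Finset.Ico 3 (n + 3), |cf d| ≤ ∑ d ∈ Finset.Ico 3 (2 * n + 3), |cf d| := by
      apply Finset.sum_le_sum_of_subset_of_nonneg
      · apply Finset.Ico_subset_Ico_right
        omega
      · intro d _ _
        exact abs_nonneg _
    have h3 : (0 : ℝ) < 1 / (4 * ((n : ℝ) + 1)) := by positivity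
    exact (Finset.abs_sum_le_sum_abs _ _).trans (h2.trans (by linarith [h n]))
  have h1 : Tendsto (fun n => ∑ d ∈ Finset.range (n + 3), cf d) atTop (𝓝 (∑' d, cf d)) :=
    summable_cf.hasSum.tendsto_sum_nat.comp (tendsto_add_atTop_nat 3)
  have h2 : (3 / 4 : ℝ) ≤ ∑' d, cf d := by
    refine ge_of_tendsto' h1 fun n => ?_
    rw [← Finset.sum_range_add_sum_Ico _ (by omega : 3 ≤ n + 3)]
    have e1 : ∑ d ∈ Finset.range 3, cf d = 1 := by
      rw [Finset.sum_range_succ, Finset.sum_range_succ, Finset.sum_range_one]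
      have a0 : cf 0 = 0 := by simp [cf]
      have a1 : cf 1 = 1 := by simp [cf]
      have a2 : cf 2 = 0 := by
        unfold cf
        rw [if_neg (by decide)]
      rw [a0, a1, a2]
      norm_num
    rw [e1]
    have := (abs_le.1 (key n)).1
    linarith
  linarith

theorem log_ge_one {X : ℝ} (hX : 0 ≤ X) : 1 ≤ Real.log (X + 3) := by
  rw [Real.le_log_iff_exp_le (by linarith)]
  have := Real.exp_one_lt_d9
  linarith

theorem V_asymp : ∃ κ C : ℝ, 0 < κ ∧ 0 < C ∧ ∀ X : ℝ, 0 ≤ X →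
    |((V X).card : ℝ) - κ * X| ≤ C * Real.sqrt X * Real.log (X + 3) := by
  obtain ⟨κ, C, hκ, hC, h⟩ := odd_asymp
  set σ : ℝ := ∑' d, cf d with hσ
  have hσ0 : 0 < σ := cf_pos
  refine ⟨κ * σ, 4 * C + 2 * κ, by positivity, by positivity, fun X hX => ?_⟩
  set D : ℕ := ⌊Real.sqrt X⌋₊ with hD
  have hs0 := Real.sqrt_nonneg X
  have hss := Real.mul_self_sqrt hX
  have hD1 : (D : ℝ) ≤ Real.sqrt X := Nat.floor_le hs0
  have hD2 : Real.sqrt X < D + 1 := Nat.lt_floor_add_one _
  have hlog := log_ge_one hX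
  rw [card_V_eq X D hD2.le hX]
  -- the main term
  have hterm : ∀ d ∈ Finset.range (D + 2), |(if Odd d then (moebius d : ℝ) *
      (ob (X / (d : ℝ) ^ 2)).card else 0) - κ * X * cf d| ≤ C * Real.sqrt X * ((d : ℝ))⁻¹ := by
    intro d _
    unfold cf
    split_ifs with hodd
    · have hd0 : (0 : ℝ) < d := by
        have : 0 < d := hodd.pos
        exact_mod_cast this
      have h1 := h (X / (d : ℝ) ^ 2) (by positivity)
      have h2 : Real.sqrt (X / (d : ℝ) ^ 2) = Real.sqrt X * (d : ℝ)⁻¹ := by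
        rw [Real.sqrt_div' _ (by positivity), Real.sqrt_sq hd0.le, div_eq_mul_inv]
      have h3 : (moebius d : ℝ) * ((ob (X / (d : ℝ) ^ 2)).card : ℝ) -
          κ * X * ((moebius d : ℝ) / (d : ℝ) ^ 2) =
          (moebius d : ℝ) * (((ob (X / (d : ℝ) ^ 2)).card : ℝ) - κ * (X / (d : ℝ) ^ 2)) := by
        ring
      rw [h3, abs_mul]
      have h4 := abs_moebius_le d
      rw [h2] at h1
      calc |(moebius d : ℝ)| * |((ob (X / (d : ℝ) ^ 2)).card : ℝ) - κ * (X / (d : ℝ) ^ 2)|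
          ≤ 1 * (C * (Real.sqrt X * (d : ℝ)⁻¹)) :=
            mul_le_mul h4 h1 (abs_nonneg _) (by norm_num)
        _ = C * Real.sqrt X * (d : ℝ)⁻¹ := by ring
    · rw [mul_zero, sub_zero, abs_zero]
      positivity
  have hsum1 : |∑ d ∈ Finset.range (D + 2), (if Odd d then (moebius d : ℝ) *
      (ob (X / (d : ℝ) ^ 2)).card else 0) - κ * X * ∑ d ∈ Finset.range (D + 2), cf d| ≤
      C * Real.sqrt X * ∑ d ∈ Finset.range (D + 2), ((d : ℝ))⁻¹ := by
    rw [Finset.mul_sum, Finset.mul_sum, ← Finset.sum_sub_distrib]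
    exact (Finset.abs_sum_le_sum_abs _ _).trans (Finset.sum_le_sum hterm)
  -- the harmonic sum
  have hharm : ∑ d ∈ Finset.range (D + 2), ((d : ℝ))⁻¹ ≤ 4 * Real.log (X + 3) := by
    have e1 : ∑ d ∈ Finset.range (D + 2), ((d : ℝ))⁻¹ = (harmonic (D + 1) : ℝ) := by
      rw [Finset.sum_range_succ', harmonic]
      push_cast
      simp
    rw [e1]
    have e2 := harmonic_le_one_add_log (D + 1)
    have e3 : Real.log ((D + 1 : ℕ) : ℝ) ≤ Real.log (X + 3) := by
      apply Real.log_le_log (by positivity)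
      push_cast
      have : Real.sqrt X ≤ X + 1 := by nlinarith [sq_nonneg (Real.sqrt X - 1)]
      linarith
    linarith
  -- the tail
  have htail := cf_tail (D + 1)
  push_cast at htail
  have hA : |κ * X * ∑ d ∈ Finset.range (D + 2), cf d - κ * σ * X| ≤ 2 * κ * Real.sqrt X := by
    have e1 : κ * X * ∑ d ∈ Finset.range (D + 2), cf d - κ * σ * X =
        -(κ * X * (σ - ∑ d ∈ Finset.range (D + 1 + 1), cf d)) := by ring
    rw [e1, abs_neg, abs_mul, abs_of_nonneg (by positivity : 0 ≤ κ * X)]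
    have e2 : X * (2 / ((D : ℝ) + 1 + 1)) ≤ 2 * Real.sqrt X := by
      rw [mul_div_assoc', div_le_iff₀ (by positivity)]
      nlinarith
    calc κ * X * |σ - ∑ d ∈ Finset.range (D + 1 + 1), cf d|
        ≤ κ * X * (2 / ((D : ℝ) + 1 + 1)) := mul_le_mul_of_nonneg_left htail (by positivity)
      _ = κ * (X * (2 / ((D : ℝ) + 1 + 1))) := by ring
      _ ≤ κ * (2 * Real.sqrt X) := mul_le_mul_of_nonneg_left e2 hκ.le
      _ = 2 * κ * Real.sqrt X := by ring
  have htri := abs_sub_le (∑ d ∈ Finset.range (D + 2), (if Odd d then (moebius d : ℝ) *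
      (ob (X / (d : ℝ) ^ 2)).card else 0)) (κ * X * ∑ d ∈ Finset.range (D + 2), cf d) (κ * σ * X)
  refine htri.trans ?_
  have hB : C * Real.sqrt X * ∑ d ∈ Finset.range (D + 2), ((d : ℝ))⁻¹ ≤
      C * Real.sqrt X * (4 * Real.log (X + 3)) :=
    mul_le_mul_of_nonneg_left hharm (by positivity)
  have hE : 2 * κ * Real.sqrt X ≤ 2 * κ * Real.sqrt X * Real.log (X + 3) := by
    have : 0 ≤ 2 * κ * Real.sqrt X := by positivity
    nlinarith
  calc _ ≤ C * Real.sqrt X * (4 * Real.log (X + 3)) + 2 * κ * Real.sqrt X * Real.log (X + 3) := by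
        linarith
    _ = (4 * C + 2 * κ) * Real.sqrt X * Real.log (X + 3) := by ring

/-- from `V_asymp` for large `X`, and `1 ∈ V X` for `X ≥ 1` -/
theorem card_V_ge : ∃ c : ℝ, 0 < c ∧ ∀ X : ℝ, 1 ≤ X → c * X ≤ ((V X).card : ℝ) := by
  obtain ⟨κ, C, hκ, hC, h⟩ := V_asymp
  set A : ℝ := 32 * C / κ with hA
  have hA0 : 0 < A := by positivity
  set X0 : ℝ := A ^ 4 + 1 with hX0
  have hX00 : 0 < X0 := by positivity
  refine ⟨min (κ / 2) (1 / X0), lt_min (by positivity) (by positivity), fun X hX => ?_⟩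
  have hX0' : 0 ≤ X := by linarith
  rcases le_total X X0 with h1 | h1
  · have h2 : (1 : ℝ) ≤ ((V X).card : ℝ) := by
      have : 0 < (V X).card := by
        rw [Finset.card_pos]
        refine ⟨1, ?_⟩
        rw [mem_V, nm_one]
        refine ⟨by simpa using hX, odd_one, ?_⟩
        rw [prim_iff_gc]
        simp [gc]
      exact_mod_cast this
    calc min (κ / 2) (1 / X0) * X ≤ 1 / X0 * X :=
          mul_le_mul_of_nonneg_right (min_le_right _ _) hX0'
      _ ≤ 1 := by rw [div_mul_eq_mul_div, one_mul, div_le_one hX00]; exact h1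
      _ ≤ _ := h2
  · -- large X
    set y : ℝ := X ^ (1 / 4 : ℝ) with hy
    have hy0 : 0 < y := by positivity
    have hy4 : y ^ 4 = X := by
      rw [hy, ← Real.rpow_natCast, ← Real.rpow_mul hX0']
      norm_num
    have hyA : A ≤ y := by
      by_contra hcon
      push Not at hcon
      have : y ^ 4 < A ^ 4 := pow_lt_pow_left₀ hcon hy0.le (by norm_num)
      linarith
    have hsq : Real.sqrt X = y ^ 2 := by
      rw [← hy4, show y ^ 4 = (y ^ 2) ^ 2 by ring, Real.sqrt_sq (by positivity)]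
    have hlog : Real.log (X + 3) ≤ 16 * y := by
      have h2 := Real.log_le_rpow_div (x := X + 3) (by linarith) (by norm_num : (0 : ℝ) < 1 / 4)
      have h3 : (X + 3) ^ (1 / 4 : ℝ) ≤ (256 * X) ^ (1 / 4 : ℝ) :=
        Real.rpow_le_rpow (by linarith) (by linarith) (by norm_num)
      have h4 : (256 * X) ^ (1 / 4 : ℝ) = 4 * y := by
        rw [Real.mul_rpow (by norm_num) hX0']
        have : (256 : ℝ) ^ (1 / 4 : ℝ) = 4 := by
          rw [show (256 : ℝ) = 4 ^ (4 : ℝ) by norm_num, ← Real.rpow_mul (by norm_num)]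
          norm_num
        rw [this]
      rw [h4] at h3
      have h5 : (X + 3) ^ (1 / 4 : ℝ) / (1 / 4) ≤ 4 * y / (1 / 4) :=
        div_le_div_of_nonneg_right h3 (by norm_num)
      have h6 : 4 * y / (1 / 4) = 16 * y := by ring
      linarith
    have h2 := (abs_le.1 (h X hX0')).1
    have h3 : C * Real.sqrt X * Real.log (X + 3) ≤ κ / 2 * X := by
      rw [hsq]
      have e1 : C * y ^ 2 * Real.log (X + 3) ≤ C * y ^ 2 * (16 * y) :=
        mul_le_mul_of_nonneg_left hlog (by positivity)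
      have e2 : 32 * C ≤ κ * y := by
        rw [hA, div_le_iff₀ hκ] at hyA
        linarith
      have e3 : C * y ^ 2 * (16 * y) = (32 * C) * (y ^ 3 / 2) := by ring
      have e4 : (32 * C) * (y ^ 3 / 2) ≤ (κ * y) * (y ^ 3 / 2) :=
        mul_le_mul_of_nonneg_right e2 (by positivity)
      have e5 : (κ * y) * (y ^ 3 / 2) = κ / 2 * y ^ 4 := by ring
      rw [hy4] at e5
      linarith
    have h4 : κ / 2 * X ≤ ((V X).card : ℝ) := by linarith
    calc min (κ / 2) (1 / X0) * X ≤ κ / 2 * X :=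
          mul_le_mul_of_nonneg_right (min_le_left _ _) hX0'
      _ ≤ _ := h4

end Pool.Agent.GaussMR
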