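import Pool.Agent.Lib_MP_f1a94e_mr.MertensB

/-!
# Piece CPSUM: canonical odd Gaussian primes
-/

set_option autoImplicit false

namespace Pool.Agent.GaussMR

namespace CPS

theorem nm_mul (z w : G) : nm (z * w) = nm z * nm w := by
  unfold nm
  rw [Zsqrtd.norm_mul, Int.natAbs_mul]

theorem mem_ball {z : G} {X : ℝ} : z ∈ ball X ↔ (nm z : ℝ) ≤ X := by
  unfold ball
  simp

theorem nm_one_of_unit {u : G} (h : IsUnit u) : nm u = 1 := Zsqrtd.norm_eq_one_iff.2 h

theorem mem_CP {y : ℝ} {w : G} : w ∈ CP y ↔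
    (nm w : ℝ) ≤ y ∧ Prime w ∧ Odd (nm w) ∧ 0 < w.re ∧ 0 ≤ w.im := by
  classical
  unfold CP
  rw [Finset.mem_filter, mem_ball]

/-- the units of the Gaussian integers -/
theorem unit_cases {u : G} (h : nm u = 1) :
    (u.re = 1 ∧ u.im = 0) ∨ (u.re = -1 ∧ u.im = 0) ∨ (u.re = 0 ∧ u.im = 1) ∨
      (u.re = 0 ∧ u.im = -1) := by
  have h1 : u.re ^ 2 + u.im ^ 2 = 1 := by
    rw [← nm_eq, h]; rfl
  have h2 : -1 ≤ u.re := by nlinarith [sq_nonneg u.im]
  have h3 : u.re ≤ 1 := by nlinarith [sq_nonneg u.im]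
  have h4 : -1 ≤ u.im := by nlinarith [sq_nonneg u.re]
  have h5 : u.im ≤ 1 := by nlinarith [sq_nonneg u.re]
  obtain ⟨a, b⟩ := u
  simp only at h1 h2 h3 h4 h5 ⊢
  interval_cases a <;> interval_cases b <;> simp_all

theorem prime_dvd_nat {w : G} (hw : Prime w) (n : ℕ) (hn : n ≠ 0) (h : w ∣ (n : G)) :
    ∃ p : ℕ, p.Prime ∧ w ∣ (p : G) := by
  induction n using Nat.recOnMul with
  | zero => exact absurd rfl hn
  | one => exact absurd (isUnit_of_dvd_one (by simpa using h)) hw.not_isUnit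
  | prime p hp => exact ⟨p, hp, h⟩
  | mul a b ha hb => 
    have ha0 : a ≠ 0 := left_ne_zero_of_mul hn
    have hb0 : b ≠ 0 := right_ne_zero_of_mul hn
    rw [Nat.cast_mul] at h
    rcases hw.dvd_or_dvd h with h | h
    · exact ha ha0 h
    · exact hb hb0 h

theorem self_dvd_nm (w : G) : w ∣ ((nm w : ℕ) : G) := by
  refine ⟨star w, ?_⟩
  have h1 : ((nm w : ℕ) : G) = ((w.norm : ℤ) : G) := by
    unfold nm
    rw [← Int.cast_natCast (R := G), Int.natAbs_of_nonneg (GaussianInt.norm_nonneg w)]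
  rw [h1, Zsqrtd.norm_eq_mul_conj]

theorem nm_natCast (n : ℕ) : nm (n : G) = n ^ 2 := by
  have h : ((nm (n : G) : ℕ) : ℤ) = ((n ^ 2 : ℕ) : ℤ) := by
    rw [nm_eq]
    simp
  exact_mod_cast h

/-- a Gaussian prime in the half open quadrant whose norm is not a prime is real -/
theorem real_of_not_prime {w : G} (hw : Prime w) (hr : 0 < w.re) (_hi : 0 ≤ w.im)
    (hn : ¬(nm w).Prime) : w.im = 0 := by
  have hw0 : nm w ≠ 0 := by
    intro h
    have : ((nm w : ℕ) : ℤ) = 0 := by rw [h]; rfl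
    rw [nm_eq] at this
    nlinarith [sq_nonneg w.im]
  obtain ⟨p, hp, u, hu⟩ := prime_dvd_nat hw _ hw0 (self_dvd_nm w)
  have h1 : nm w * nm u = p ^ 2 := by rw [← nm_mul, ← hu, nm_natCast]
  obtain ⟨i, hi2, hi⟩ := (Nat.dvd_prime_pow hp).1 (Dvd.intro _ h1)
  interval_cases i
  · exact absurd (Zsqrtd.norm_eq_one_iff.1 (by simpa [nm] using hi)) hw.not_isUnit
  · rw [pow_one] at hi
    exact absurd (hi ▸ hp) hn
  · rw [hi] at h1
    have hpp : 0 < p ^ 2 := pow_pos hp.pos 2
    have h2 : nm u = 1 := by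
      have : p ^ 2 * nm u = p ^ 2 * 1 := by rw [h1, mul_one]
      exact Nat.eq_of_mul_eq_mul_left hpp this
    have h3 := congrArg Zsqrtd.re hu
    have h4 := congrArg Zsqrtd.im hu
    simp only [Zsqrtd.re_natCast, Zsqrtd.im_natCast, Zsqrtd.re_mul, Zsqrtd.im_mul] at h3 h4
    rcases unit_cases h2 with ⟨e1, e2⟩ | ⟨e1, e2⟩ | ⟨e1, e2⟩ | ⟨e1, e2⟩ <;>
      rw [e1, e2] at h3 h4
    · linarith
    · linarith
    · linarith
    · linarith

end CPS

open CPS

/-- rotate by a power of `i` into the half open first quadrant -/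
theorem CP_exists {y : ℝ} {p : G} (hp : Prime p) (ho : Odd (nm p)) (hy : (nm p : ℝ) ≤ y) :
    ∃ w ∈ CP y, Associated w p := by
  have key : ∀ u v : G, u * v = 1 → 0 < (p * u).re → 0 ≤ (p * u).im → ∃ w ∈ CP y, Associated w p := by
    intro u v huv h1 h2
    have hun : IsUnit u := IsUnit.of_mul_eq_one v huv
    have hnu : nm (p * u) = nm p := by rw [nm_mul, nm_one_of_unit hun, mul_one]
    have hass : Associated (p * u) p := by
      refine ⟨hun.unit⁻¹, ?_⟩
      rw [mul_assoc, IsUnit.mul_val_inv, mul_one]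
    exact ⟨p * u, mem_CP.2 ⟨by rw [hnu]; exact hy, hass.symm.prime hp, by rw [hnu]; exact ho, h1, h2⟩,
      hass⟩
  have hne : p.re ≠ 0 ∨ p.im ≠ 0 := by
    by_contra h
    push Not at h
    apply hp.ne_zero
    exact Zsqrtd.ext h.1 h.2
  by_cases c1 : 0 < p.re
  · by_cases c2 : 0 ≤ p.im
    · exact key 1 1 (by simp) (by simpa using c1) (by simpa using c2)
    · push Not at c2
      refine key ⟨0, 1⟩ ⟨0, -1⟩ ?_ ?_ ?_
      · ext <;> simp
      · simp; omega
      · simp; omega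
  · push Not at c1
    by_cases c2 : 0 < p.im
    · refine key ⟨0, -1⟩ ⟨0, 1⟩ ?_ ?_ ?_
      · ext <;> simp
      · simp; omega
      · simp; omega
    · push Not at c2
      by_cases c3 : p.re = 0
      · refine key ⟨0, 1⟩ ⟨0, -1⟩ ?_ ?_ ?_
        · ext <;> simp
        · have := hne.resolve_left (by omega)
          simp; omega
        · simp; omega
      · refine key (-1) (-1) (by simp) ?_ ?_
        · simp; omega
        · simp; omega

theorem CP_assoc {y y' : ℝ} {w w' : G} (h : w ∈ CP y) (h' : w' ∈ CP y') (ha : Associated w w') :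
    w = w' := by
  rw [mem_CP] at h h'
  obtain ⟨_, _, _, h1, h2⟩ := h
  obtain ⟨_, _, _, h3, h4⟩ := h'
  obtain ⟨u, hu⟩ := ha
  have hn : nm (u : G) = 1 := nm_one_of_unit u.isUnit
  have e1 := congrArg Zsqrtd.re hu
  have e2 := congrArg Zsqrtd.im hu
  simp only [Zsqrtd.re_mul, Zsqrtd.im_mul] at e1 e2
  rcases unit_cases hn with ⟨a, b⟩ | ⟨a, b⟩ | ⟨a, b⟩ | ⟨a, b⟩ <;> rw [a, b] at e1 e2
  · apply Zsqrtd.ext <;> linarith
  · exfalso; linarith
  · exfalso; linarith
  · exfalso; linarith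

/-- the norm of an odd Gaussian prime is at least 5 -/
theorem CP_nm {y : ℝ} {w : G} (h : w ∈ CP y) : 5 ≤ nm w := by
  rw [mem_CP] at h
  obtain ⟨_, hp, ho, h1, h2⟩ := h
  by_contra hcon
  push Not at hcon
  have hne1 : nm w ≠ 1 := fun h => hp.not_isUnit (Zsqrtd.norm_eq_one_iff.1 h)
  have h3 : nm w = 3 := by
    obtain ⟨k, hk⟩ := ho
    omega
  have h4 := nm_eq w
  rw [h3] at h4
  push_cast at h4
  have h5 : w.re ≤ 1 := by nlinarith [sq_nonneg w.im]
  have h6 : w.im ≤ 1 := by nlinarith [sq_nonneg w.re]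
  have h7 : w.re ^ 2 ≤ 1 := by nlinarith
  have h8 : w.im ^ 2 ≤ 1 := by nlinarith
  linarith

open Classical in
/-- the canonical primes are: two of norm `p` for each prime `p = 1 mod 4`, and the primes `q = 3 mod 4`,
of norm `q ^ 2`. So the sum is at most `2 ∑_{y' < p ≤ y, p = 1 mod 4} 1 / p + ∑ 1 / q ^ 2`. -/
theorem CP_sum : ∃ C : ℝ, 0 < C ∧ ∀ y y' : ℝ, 2 ≤ y' → y' ≤ y →
    ∑ w ∈ (CP y).filter (fun w => y' < (nm w : ℝ)), 1 / (nm w : ℝ) ≤
      Real.log (Real.log y) - Real.log (Real.log y') + C := by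
  obtain ⟨C, hC⟩ := Ls_bounds
  refine ⟨2 * |C| + 2, by positivity, fun y y' hy' hyy => ?_⟩
  set A := (CP y).filter (fun w => y' < (nm w : ℝ)) with hA
  set A1 := A.filter (fun w => (nm w).Prime ∧ w.im < w.re)
  set A2 := A.filter (fun w => (nm w).Prime ∧ ¬ w.im < w.re)
  set A3 := A.filter (fun w => ¬ (nm w).Prime)
  have hsplit : A = A1 ∪ A2 ∪ A3 := by
    ext w
    simp only [A1, A2, A3, Finset.mem_union, Finset.mem_filter]
    tauto
  have h1 : ∑ w ∈ A1, 1 / (nm w : ℝ) ≤ Ls y' y := by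
    unfold Ls
    refine Finset.sum_le_sum_of_subset_of_nonneg ?_ fun w _ _ => by positivity
    intro w hw
    simp only [A1, hA, Finset.mem_filter, mem_CP] at hw
    obtain ⟨⟨⟨a1, a2, a3, a4, a5⟩, a6⟩, a7, a8⟩ := hw
    rw [mem_PP]
    refine ⟨a6, a1, a7, ?_, a8⟩
    rcases a5.lt_or_eq with h | h
    · exact h
    · exfalso
      have h4 := nm_eq w
      rw [← h] at h4
      have h5 : nm w = w.re.natAbs * w.re.natAbs := by
        zify
        rw [h4, abs_mul_abs_self]
        ring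
      rw [h5] at a7
      exact Nat.not_prime_mul (a := w.re.natAbs) (b := w.re.natAbs) (fun h => by rw [h] at a7; exact Nat.not_prime_one a7) (fun h => by rw [h] at a7; exact Nat.not_prime_one a7) a7
  have h2 : ∑ w ∈ A2, 1 / (nm w : ℝ) ≤ Ls y' y := by
    unfold Ls
    have hsw : ∀ w : G, nm (⟨w.im, w.re⟩ : G) = nm w := by
      intro w
      zify
      rw [nm_eq, nm_eq]
      ring
    calc ∑ w ∈ A2, 1 / (nm w : ℝ) = ∑ w ∈ A2.image (fun w : G => (⟨w.im, w.re⟩ : G)), 1 / (nm w : ℝ) := by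
          rw [Finset.sum_image]
          · refine Finset.sum_congr rfl fun w _ => ?_
            rw [hsw]
          · intro w _ w' _ h
            have e1 := congrArg Zsqrtd.re h
            have e2 := congrArg Zsqrtd.im h
            exact Zsqrtd.ext e2 e1
      _ ≤ ∑ w ∈ PP y' y, 1 / (nm w : ℝ) := by
          refine Finset.sum_le_sum_of_subset_of_nonneg ?_ fun w _ _ => by positivity
          intro w' hw'
          rw [Finset.mem_image] at hw'
          obtain ⟨w, hw, rfl⟩ := hw'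
          simp only [A2, hA, Finset.mem_filter, mem_CP] at hw
          obtain ⟨⟨⟨a1, a2, a3, a4, a5⟩, a6⟩, a7, a8⟩ := hw
          rw [mem_PP, hsw]
          refine ⟨a6, a1, a7, a4, ?_⟩
          show w.re < w.im
          push Not at a8
          rcases a8.lt_or_eq with h | h
          · exact h
          · exfalso
            have h4 := nm_eq w
            rw [h] at h4
            obtain ⟨k, hk⟩ := a3
            rw [hk] at h4
            push_cast at h4
            have : (2 : ℤ) * k + 1 = 2 * w.im ^ 2 := by linarith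
            omega
  have h3 : ∑ w ∈ A3, 1 / (nm w : ℝ) ≤ 2 := by
    have hreal : ∀ w ∈ A3, w.im = 0 ∧ 0 < w.re ∧ (nm w : ℝ) = (w.re.toNat : ℝ) ^ 2 := by
      intro w hw
      simp only [A3, hA, Finset.mem_filter, mem_CP] at hw
      obtain ⟨⟨⟨a1, a2, a3, a4, a5⟩, a6⟩, a7⟩ := hw
      have him := real_of_not_prime a2 a4 a5 a7
      refine ⟨him, a4, ?_⟩
      have h4 := nm_eq w
      rw [him] at h4
      have h5 : ((w.re.toNat : ℕ) : ℤ) = w.re := Int.toNat_of_nonneg a4.le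
      have h6 : (nm w : ℤ) = ((w.re.toNat : ℕ) : ℤ) ^ 2 := by rw [h4, h5]; ring
      exact_mod_cast h6
    set N := ∑ w ∈ A3, w.re.toNat with hN
    calc ∑ w ∈ A3, 1 / (nm w : ℝ) = ∑ n ∈ A3.image (fun w : G => w.re.toNat), 1 / (n : ℝ) ^ 2 := by
          rw [Finset.sum_image]
          · refine Finset.sum_congr rfl fun w hw => ?_
            rw [(hreal w hw).2.2]
          · intro w hw w' hw' h
            obtain ⟨b1, b2, _⟩ := hreal w hw
            obtain ⟨c1, c2, _⟩ := hreal w' hw'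
            have h' : w.re.toNat = w'.re.toNat := h
            apply Zsqrtd.ext
            · omega
            · rw [b1, c1]
      _ ≤ ∑ n ∈ Finset.Ioc 0 N, 1 / (n : ℝ) ^ 2 := by
          refine Finset.sum_le_sum_of_subset_of_nonneg ?_ fun w _ _ => by positivity
          intro n hn
          rw [Finset.mem_image] at hn
          obtain ⟨w, hw, rfl⟩ := hn
          rw [Finset.mem_Ioc]
          obtain ⟨b1, b2, _⟩ := hreal w hw
          refine ⟨by omega, ?_⟩
          rw [hN]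
          exact Finset.single_le_sum (f := fun w : G => w.re.toNat) (fun _ _ => Nat.zero_le _) hw
      _ ≤ 2 := by
          have h5 : Finset.Ioc 0 N = Finset.Ioo 0 (N + 1) := by
            ext n; simp only [Finset.mem_Ioc, Finset.mem_Ioo]; omega
          have h6 := sum_Ioo_inv_sq_le (α := ℝ) 0 (N + 1)
          have h7 : ∑ n ∈ Finset.Ioo 0 (N + 1), 1 / (n : ℝ) ^ 2 =
              ∑ n ∈ Finset.Ioo 0 (N + 1), ((n : ℝ) ^ 2)⁻¹ :=
            Finset.sum_congr rfl fun n _ => one_div _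
          rw [h5, h7]
          norm_num at h6 ⊢
          exact h6
  have h4 : ∑ w ∈ A, 1 / (nm w : ℝ) ≤ ∑ w ∈ A1, 1 / (nm w : ℝ) + ∑ w ∈ A2, 1 / (nm w : ℝ) +
      ∑ w ∈ A3, 1 / (nm w : ℝ) := by
    have hnn : ∀ s : Finset G, 0 ≤ ∑ w ∈ s, 1 / (nm w : ℝ) := fun s =>
      Finset.sum_nonneg fun w _ => by positivity
    have e1 := Finset.sum_union_inter (s₁ := A1 ∪ A2) (s₂ := A3) (f := fun w : G => 1 / (nm w : ℝ))
    have e2 := Finset.sum_union_inter (s₁ := A1) (s₂ := A2) (f := fun w : G => 1 / (nm w : ℝ))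
    rw [← hsplit] at e1
    have e3 := hnn ((A1 ∪ A2) ∩ A3)
    have e4 := hnn (A1 ∩ A2)
    linarith
  have h5 := hC y' y hy' hyy
  have h6 := (abs_le.1 h5).2
  have h7 : C ≤ |C| := le_abs_self C
  linarith

end Pool.Agent.GaussMR
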