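import Pool.Agent.Lib_MP_f1a94e_mr.MidJ
import Pool.Agent.Lib_MP_f1a94e_mr.SmallJ
import Pool.Agent.Lib_MP_f1a94e_mr.VAsymp

/-!
# Piece WSUM: sums of `xi j` over discs, odd elements, odd primitive elements
-/

set_option autoImplicit false

namespace Pool.Agent.GaussMR

theorem w_all : ∃ C : ℝ, 0 < C ∧ ∀ (t : ℝ) (j : ℤ), 1 ≤ t → j ≠ 0 → |(j : ℝ)| ≤ t ^ (11 / 5 : ℝ) →
    ‖∑ z ∈ ball t, xi j z‖ ≤ C * t ^ (1 - 1 / 16000 : ℝ) := by
  obtain ⟨C1, h1, H1⟩ := mid_j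
  obtain ⟨C2, h2, H2⟩ := small_j
  refine ⟨C1 + C2, by positivity, fun t j ht hj hjt => ?_⟩
  have ht0 : 0 < t := by linarith
  have hp : 0 ≤ t ^ (1 - 1 / 16000 : ℝ) := Real.rpow_nonneg ht0.le _
  rcases le_total (t ^ (3 / 20 : ℝ)) |(j : ℝ)| with h | h
  · refine (H1 t j ht h hjt).trans (mul_le_mul_of_nonneg_right (by linarith) hp)
  · refine (H2 t j ht hj).trans ?_
    have h3 : C2 * |(j : ℝ)| * Real.sqrt t ≤ C2 * t ^ (3 / 20 : ℝ) * t ^ (1 / 2 : ℝ) := by
      rw [Real.sqrt_eq_rpow]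
      exact mul_le_mul_of_nonneg_right (mul_le_mul_of_nonneg_left h h2.le) (by positivity)
    have h4 : C2 * t ^ (3 / 20 : ℝ) * t ^ (1 / 2 : ℝ) ≤ C2 * t ^ (1 - 1 / 16000 : ℝ) := by
      rw [mul_assoc, ← Real.rpow_add ht0]
      exact mul_le_mul_of_nonneg_left (Real.rpow_le_rpow_of_exponent_le ht (by norm_num)) h2.le
    refine (h3.trans h4).trans (mul_le_mul_of_nonneg_right (by linarith) hp)

namespace WSumAux

/-- the prime above two -/
def pi2 : G := ⟨1, 1⟩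

theorem nm_pi2 : nm pi2 = 2 := by
  have h : (nm pi2 : ℤ) = 2 := by
    rw [nm_eq, pi2]; norm_num
  exact_mod_cast h

theorem pi2_ne_zero : pi2 ≠ 0 := by
  intro h
  have := congrArg nm h
  rw [nm_pi2, nm_zero] at this
  exact absurd this (by norm_num)

theorem mul_pi2_injective : Function.Injective fun w : G => pi2 * w :=
  fun _ _ h => mul_left_cancel₀ pi2_ne_zero h

open Classical in
/-- the even elements of a disc -/
theorem even_ball (t : ℝ) : (ball t).filter (fun z => ¬ Odd (nm z)) =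
    (ball (t / 2)).image fun w => pi2 * w := by
  ext z
  simp only [Finset.mem_filter, Finset.mem_image, mem_ball]
  constructor
  · rintro ⟨h1, h2⟩
    rw [odd_nm_iff, Int.not_odd_iff_even] at h2
    obtain ⟨a, ha⟩ := h2
    have hz : z = pi2 * ⟨a, a - z.re⟩ := by
      apply Zsqrtd.ext
      · simp [pi2]
      · simp [pi2]; linarith
    refine ⟨⟨a, a - z.re⟩, ?_, hz.symm⟩
    have h3 : nm z = 2 * nm (⟨a, a - z.re⟩ : G) := by
      conv_lhs => rw [hz]
      rw [nm_mul, nm_pi2]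
    rw [h3] at h1
    push_cast at h1
    linarith
  · rintro ⟨w, h1, rfl⟩
    rw [nm_mul, nm_pi2]
    constructor
    · push_cast; linarith
    · rw [Nat.not_odd_iff_even]; exact even_two_mul _

theorem sum_ob (t : ℝ) (j : ℤ) :
    ∑ z ∈ ob t, xi j z = ∑ z ∈ ball t, xi j z - xi j pi2 * ∑ z ∈ ball (t / 2), xi j z := by
  classical
  have h := Finset.sum_filter_add_sum_filter_not (ball t) (fun z => Odd (nm z)) (fun z => xi j z)
  rw [even_ball, Finset.sum_image (fun a _ b _ hab => mul_pi2_injective hab)] at h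
  have h2 : ∑ x ∈ ball (t / 2), xi j (pi2 * x) = xi j pi2 * ∑ z ∈ ball (t / 2), xi j z := by
    rw [Finset.mul_sum]
    exact Finset.sum_congr rfl fun x _ => xi_mul j pi2 x
  rw [h2] at h
  rw [← h]
  unfold ob
  ring

theorem card_ob_le (t : ℝ) (ht : 0 ≤ t) : ((ob t).card : ℝ) ≤ 9 * t := by
  classical
  refine le_trans ?_ (card_ball_le t ht)
  exact_mod_cast Finset.card_le_card fun z hz => by
    rw [ob, Finset.mem_filter] at hz
    exact Finset.mem_filter.2 ⟨hz.1, ne_zero_of_odd hz.2⟩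

theorem norm_sum_ob_le (t : ℝ) (ht : 0 ≤ t) (j : ℤ) : ‖∑ z ∈ ob t, xi j z‖ ≤ 9 * t := by
  refine (norm_sum_le _ _).trans ?_
  have h : ∀ z ∈ ob t, ‖xi j z‖ ≤ 1 := by
    intro z hz
    rw [ob, Finset.mem_filter] at hz
    exact (norm_xi j (ne_zero_of_odd hz.2)).le
  refine (Finset.sum_le_sum h).trans ?_
  rw [Finset.sum_const, nsmul_eq_mul, mul_one]
  exact card_ob_le t ht

end WSumAux

open WSumAux

/-- the even elements of `ball t` are `(1 + i) z`, `z ∈ ball (t / 2)` -/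
theorem w_odd : ∃ C : ℝ, 0 < C ∧ ∀ (t : ℝ) (j : ℤ), 1 ≤ t → j ≠ 0 → |(j : ℝ)| ≤ t ^ (43 / 20 : ℝ) →
    ‖∑ z ∈ ob t, xi j z‖ ≤ C * t ^ (1 - 1 / 16000 : ℝ) := by
  obtain ⟨C, hC, H⟩ := w_all
  refine ⟨2 * C + 18, by positivity, fun t j ht hj hjt => ?_⟩
  have ht0 : 0 < t := by linarith
  have hp : 0 ≤ t ^ (1 - 1 / 16000 : ℝ) := Real.rpow_nonneg ht0.le _
  rcases le_total ((2 : ℝ) ^ (44 : ℝ)) t with h | h
  · have ht2 : 1 ≤ t / 2 := by
      have : (2 : ℝ) ≤ 2 ^ (44 : ℝ) := by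
        conv_lhs => rw [← Real.rpow_one 2]
        exact Real.rpow_le_rpow_of_exponent_le (by norm_num) (by norm_num)
      linarith
    have h3 : |(j : ℝ)| ≤ (t / 2) ^ (11 / 5 : ℝ) := by
      refine hjt.trans ?_
      rw [Real.div_rpow ht0.le (by norm_num), le_div_iff₀ (by positivity)]
      have h4 : (2 : ℝ) ^ (11 / 5 : ℝ) ≤ t ^ (1 / 20 : ℝ) := by
        have h5 := Real.rpow_le_rpow (by positivity) h (by norm_num : (0 : ℝ) ≤ 1 / 20)
        rw [← Real.rpow_mul (by norm_num)] at h5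
        refine le_trans (le_of_eq ?_) h5
        norm_num
      calc t ^ (43 / 20 : ℝ) * 2 ^ (11 / 5 : ℝ) ≤ t ^ (43 / 20 : ℝ) * t ^ (1 / 20 : ℝ) :=
            mul_le_mul_of_nonneg_left h4 (by positivity)
        _ = t ^ (11 / 5 : ℝ) := by
            rw [← Real.rpow_add ht0]; norm_num
    have h6 : |(j : ℝ)| ≤ t ^ (11 / 5 : ℝ) :=
      hjt.trans (Real.rpow_le_rpow_of_exponent_le ht (by norm_num))
    have a1 := H t j ht hj h6
    have a2 := H (t / 2) j ht2 hj h3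
    have a3 : (t / 2) ^ (1 - 1 / 16000 : ℝ) ≤ t ^ (1 - 1 / 16000 : ℝ) :=
      Real.rpow_le_rpow (by linarith) (by linarith) (by norm_num)
    rw [sum_ob]
    refine (norm_sub_le _ _).trans ?_
    rw [norm_mul, norm_xi j pi2_ne_zero, one_mul]
    have a4 := mul_le_mul_of_nonneg_left a3 hC.le
    nlinarith
  · refine (norm_sum_ob_le t ht0.le j).trans ?_
    have h1 : t ^ (1 / 16000 : ℝ) ≤ 2 := by
      have h5 := Real.rpow_le_rpow ht0.le h (by norm_num : (0 : ℝ) ≤ 1 / 16000)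
      rw [← Real.rpow_mul (by norm_num)] at h5
      refine h5.trans ?_
      conv_rhs => rw [← Real.rpow_one 2]
      exact Real.rpow_le_rpow_of_exponent_le (by norm_num) (by norm_num)
    have h2 : t = t ^ (1 - 1 / 16000 : ℝ) * t ^ (1 / 16000 : ℝ) := by
      rw [← Real.rpow_add ht0]; norm_num
    have h3 : t ≤ 2 * t ^ (1 - 1 / 16000 : ℝ) := by
      calc t = t ^ (1 - 1 / 16000 : ℝ) * t ^ (1 / 16000 : ℝ) := h2
        _ ≤ t ^ (1 - 1 / 16000 : ℝ) * 2 := mul_le_mul_of_nonneg_left h1 hp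
        _ = _ := by ring
    nlinarith

namespace WSumAux

/-- the gcd of the coordinates -/
def gc (z : G) : ℕ := Int.gcd z.re z.im

theorem natCast_dvd_iff (d : ℕ) (z : G) : (d : G) ∣ z ↔ d ∣ gc z := by
  have key : (d : G) ∣ z ↔ (d : ℤ) ∣ z.re ∧ (d : ℤ) ∣ z.im := by
    have := Zsqrtd.intCast_dvd (d := -1) (d : ℤ) z
    simpa using this
  rw [key, gc]
  constructor
  · intro h
    exact_mod_cast Int.dvd_coe_gcd h.1 h.2
  · intro h
    have h' : (d : ℤ) ∣ (Int.gcd z.re z.im : ℤ) := by exact_mod_cast h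
    exact ⟨h'.trans (Int.gcd_dvd_left _ _), h'.trans (Int.gcd_dvd_right _ _)⟩

theorem nm_natCast (d : ℕ) : nm (d : G) = d ^ 2 := by
  have h : (nm (d : G) : ℤ) = d ^ 2 := by
    rw [nm_eq]; simp
  exact_mod_cast h

theorem gc_pos {z : G} (h : z ≠ 0) : 0 < gc z := by
  rw [gc, Int.gcd_pos_iff]
  by_contra h'
  push Not at h'
  exact h (Zsqrtd.ext h'.1 h'.2)

theorem gc_sq_le {z : G} (h : z ≠ 0) : gc z ^ 2 ≤ nm z := by
  have h1 : ((gc z : ℕ) : G) ∣ z := (natCast_dvd_iff _ _).2 dvd_rfl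
  have h2 := nm_dvd h1
  rw [nm_natCast] at h2
  exact Nat.le_of_dvd (nm_pos h) h2

theorem prim_iff_gc {z : G} : Prim z ↔ gc z = 1 := by
  unfold Prim gc
  rw [Int.isCoprime_iff_gcd_eq_one]

open Classical in
/-- Moebius detects primitive elements -/
theorem moebius_prim {t : ℝ} {z : G} (hz : z ≠ 0) (h : (nm z : ℝ) ≤ t) :
    (∑ d ∈ (Finset.Icc 1 ⌊t⌋₊).filter (fun d => d ∣ gc z), (ArithmeticFunction.moebius d : ℤ)) =
      if Prim z then 1 else 0 := by
  have hg := gc_pos hz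
  have h1 : (Finset.Icc 1 ⌊t⌋₊).filter (fun d => d ∣ gc z) = (gc z).divisors := by
    ext d
    simp only [Finset.mem_filter, Finset.mem_Icc, Nat.mem_divisors]
    constructor
    · rintro ⟨⟨_, _⟩, h3⟩
      exact ⟨h3, hg.ne'⟩
    · rintro ⟨h3, _⟩
      refine ⟨⟨Nat.pos_of_dvd_of_pos h3 hg, ?_⟩, h3⟩
      apply Nat.le_floor
      have h4 : d ≤ gc z := Nat.le_of_dvd hg h3
      have h5 : gc z ≤ gc z ^ 2 := Nat.le_self_pow two_ne_zero _
      have h6 : d ≤ nm z := h4.trans (h5.trans (gc_sq_le hz))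
      exact le_trans (by exact_mod_cast h6) h
  rw [h1, ← ArithmeticFunction.coe_mul_zeta_apply, ArithmeticFunction.moebius_mul_coe_zeta,
    ArithmeticFunction.one_apply]
  exact if_congr prim_iff_gc.symm rfl rfl

open Classical in
/-- multiples of an odd number `d` -/
theorem sum_multiples (t : ℝ) (j : ℤ) {d : ℕ} (hd : Odd d) :
    ∑ z ∈ (ob t).filter (fun z => d ∣ gc z), xi j z = ∑ w ∈ ob (t / d ^ 2), xi j w := by
  have hd0 : 0 < d := hd.pos
  have hdG : (d : G) ≠ 0 := by exact_mod_cast hd0.ne'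
  have himg : (ob t).filter (fun z => d ∣ gc z) = (ob (t / d ^ 2)).image fun w => (d : G) * w := by
    ext z
    simp only [Finset.mem_filter, Finset.mem_image, ob, mem_ball]
    constructor
    · rintro ⟨⟨h1, h2⟩, h3⟩
      obtain ⟨w, rfl⟩ := (natCast_dvd_iff d z).2 h3
      refine ⟨w, ⟨?_, (odd_nm_mul.1 h2).2⟩, rfl⟩
      rw [le_div_iff₀ (by positivity)]
      rw [nm_mul, nm_natCast] at h1
      push_cast at h1
      linarith
    · rintro ⟨w, ⟨h1, h2⟩, rfl⟩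
      refine ⟨⟨?_, ?_⟩, (natCast_dvd_iff _ _).1 (dvd_mul_right _ _)⟩
      · rw [le_div_iff₀ (by positivity)] at h1
        rw [nm_mul, nm_natCast]
        push_cast
        linarith
      · rw [odd_nm_mul, nm_natCast]
        exact ⟨hd.pow, h2⟩
  rw [himg, Finset.sum_image (fun a _ b _ hab => mul_left_cancel₀ hdG hab)]
  exact Finset.sum_congr rfl fun w _ => xi_natCast_mul j hd0 w

open Classical in
/-- there are no odd multiples of even numbers -/
theorem sum_multiples_even (t : ℝ) (j : ℤ) {d : ℕ} (hd : ¬ Odd d) :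
    ∑ z ∈ (ob t).filter (fun z => d ∣ gc z), xi j z = 0 := by
  refine Finset.sum_eq_zero fun z hz => ?_
  exfalso
  simp only [Finset.mem_filter, ob, mem_ball] at hz
  obtain ⟨w, rfl⟩ := (natCast_dvd_iff d z).2 hz.2
  have := (odd_nm_mul.1 hz.1.2).1
  rw [nm_natCast] at this
  exact hd (Nat.odd_pow_iff two_ne_zero |>.1 this)

open Classical in
theorem sum_V_eq (t : ℝ) (j : ℤ) : ∑ z ∈ V t, xi j z =
    ∑ d ∈ Finset.Icc 1 ⌊t⌋₊, ((ArithmeticFunction.moebius d : ℤ) : ℂ) *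
      ∑ z ∈ (ob t).filter (fun z => d ∣ gc z), xi j z := by
  have h1 : V t = (ob t).filter Prim := by
    ext z
    simp only [mem_V, ob, Finset.mem_filter, mem_ball]
    tauto
  have h2 : ∀ z ∈ ob t, (if Prim z then xi j z else 0) = ∑ d ∈ Finset.Icc 1 ⌊t⌋₊,
      (if d ∣ gc z then ((ArithmeticFunction.moebius d : ℤ) : ℂ) * xi j z else 0) := by
    intro z hz
    simp only [ob, Finset.mem_filter, mem_ball] at hz
    have h3 := moebius_prim (ne_zero_of_odd hz.2) hz.1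
    rw [← Finset.sum_filter, ← Finset.sum_mul]
    have h4 : (∑ d ∈ (Finset.Icc 1 ⌊t⌋₊).filter (fun d => d ∣ gc z),
        ((ArithmeticFunction.moebius d : ℤ) : ℂ)) = if Prim z then 1 else 0 := by
      rw [← Int.cast_sum, h3]
      split_ifs <;> simp
    rw [h4]
    split_ifs <;> simp
  rw [h1, Finset.sum_filter, Finset.sum_congr rfl h2, Finset.sum_comm]
  refine Finset.sum_congr rfl fun d _ => ?_
  rw [← Finset.sum_filter, Finset.mul_sum]

end WSumAux

/-- `∑_{z ∈ V t} xi j z = ∑_{d odd} μ(d) ∑_{z ∈ ob (t / d²)} xi j z` (`xi j (d z) = xi j z`); use `w_odd`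
for `d ≤ t^(1/100)` and the trivial bound `9 t / d²` for larger `d` -/
theorem w_V : ∃ C : ℝ, 0 < C ∧ ∀ (t : ℝ) (j : ℤ), 1 ≤ t → j ≠ 0 → |(j : ℝ)| ≤ t ^ (21 / 10 : ℝ) →
    ‖∑ z ∈ V t, xi j z‖ ≤ C * t ^ (1 - 1 / 16000 : ℝ) := by
  classical
  obtain ⟨C, hC, H⟩ := w_odd
  have hsum : Summable fun n : ℕ => 1 / (n : ℝ) ^ (3 / 2 : ℝ) :=
    Real.summable_one_div_nat_rpow.2 (by norm_num)
  set S : ℝ := ∑' n : ℕ, 1 / (n : ℝ) ^ (3 / 2 : ℝ) with hS
  have hS0 : 0 ≤ S := tsum_nonneg fun n => by positivity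
  refine ⟨(C + 9) * (S + 1), by positivity, fun t j ht hj hjt => ?_⟩
  have ht0 : 0 < t := by linarith
  have hp : 0 ≤ t ^ (1 - 1 / 16000 : ℝ) := Real.rpow_nonneg ht0.le _
  rw [sum_V_eq]
  have key : ∀ d ∈ Finset.Icc 1 ⌊t⌋₊, ‖((ArithmeticFunction.moebius d : ℤ) : ℂ) *
      ∑ z ∈ (ob t).filter (fun z => d ∣ WSumAux.gc z), xi j z‖ ≤
      (C + 9) * t ^ (1 - 1 / 16000 : ℝ) * (1 / (d : ℝ) ^ (3 / 2 : ℝ)) := by
    intro d hd
    have hd1 : 1 ≤ d := (Finset.mem_Icc.1 hd).1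
    have hdr : (1 : ℝ) ≤ d := by exact_mod_cast hd1
    have hd0 : (0 : ℝ) < d := by linarith
    have hmu : ‖((ArithmeticFunction.moebius d : ℤ) : ℂ)‖ ≤ 1 := by
      rw [Complex.norm_intCast]
      exact_mod_cast ArithmeticFunction.abs_moebius_le_one
    rw [norm_mul]
    refine (mul_le_of_le_one_left (norm_nonneg _) hmu).trans ?_
    by_cases hodd : Odd d
    · rw [sum_multiples t j hodd]
      rcases le_total (d : ℝ) (t ^ (1 / 100 : ℝ)) with hdt | hdt
      · -- small `d`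
        have e1 : t ^ (49 / 50 : ℝ) ≤ t / d ^ 2 := by
          rw [le_div_iff₀ (by positivity)]
          have : (d : ℝ) ^ 2 ≤ t ^ (1 / 50 : ℝ) := by
            have h5 := pow_le_pow_left₀ hd0.le hdt 2
            rw [← Real.rpow_natCast (t ^ (1 / 100 : ℝ)) 2, ← Real.rpow_mul ht0.le] at h5
            refine h5.trans (le_of_eq ?_)
            norm_num
          calc t ^ (49 / 50 : ℝ) * (d : ℝ) ^ 2 ≤ t ^ (49 / 50 : ℝ) * t ^ (1 / 50 : ℝ) :=
                mul_le_mul_of_nonneg_left this (by positivity)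
            _ = t := by rw [← Real.rpow_add ht0]; norm_num
        have e2 : 1 ≤ t / (d : ℝ) ^ 2 := (Real.one_le_rpow ht (by norm_num)).trans e1
        have e3 : |(j : ℝ)| ≤ (t / (d : ℝ) ^ 2) ^ (43 / 20 : ℝ) := by
          refine hjt.trans ?_
          have h5 := Real.rpow_le_rpow (by positivity) e1 (by norm_num : (0 : ℝ) ≤ 43 / 20)
          rw [← Real.rpow_mul ht0.le] at h5
          exact (Real.rpow_le_rpow_of_exponent_le ht (by norm_num)).trans h5
        refine (H _ j e2 hj e3).trans ?_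
        have e4 : (t / (d : ℝ) ^ 2) ^ (1 - 1 / 16000 : ℝ) ≤
            t ^ (1 - 1 / 16000 : ℝ) * (1 / (d : ℝ) ^ (3 / 2 : ℝ)) := by
          rw [Real.div_rpow ht0.le (by positivity), div_eq_mul_one_div]
          refine mul_le_mul_of_nonneg_left ?_ hp
          refine one_div_le_one_div_of_le (by positivity) ?_
          rw [← Real.rpow_natCast (d : ℝ) 2, ← Real.rpow_mul hd0.le]
          exact Real.rpow_le_rpow_of_exponent_le hdr (by norm_num)
        calc C * (t / (d : ℝ) ^ 2) ^ (1 - 1 / 16000 : ℝ) ≤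
            C * (t ^ (1 - 1 / 16000 : ℝ) * (1 / (d : ℝ) ^ (3 / 2 : ℝ))) :=
              mul_le_mul_of_nonneg_left e4 hC.le
          _ ≤ (C + 9) * (t ^ (1 - 1 / 16000 : ℝ) * (1 / (d : ℝ) ^ (3 / 2 : ℝ))) :=
              mul_le_mul_of_nonneg_right (by linarith) (by positivity)
          _ = _ := by ring
      · -- large `d`
        refine (norm_sum_ob_le _ (by positivity) j).trans ?_
        have e1 : t / (d : ℝ) ^ 2 ≤ t ^ (1 - 1 / 16000 : ℝ) * (1 / (d : ℝ) ^ (3 / 2 : ℝ)) := by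
          rw [mul_one_div, div_le_div_iff₀ (by positivity) (by positivity)]
          have e2 : t ^ (1 / 16000 : ℝ) ≤ (d : ℝ) ^ (1 / 2 : ℝ) := by
            have h5 := Real.rpow_le_rpow (by positivity) hdt (by norm_num : (0 : ℝ) ≤ 1 / 2)
            rw [← Real.rpow_mul ht0.le] at h5
            exact (Real.rpow_le_rpow_of_exponent_le ht (by norm_num)).trans h5
          calc t * (d : ℝ) ^ (3 / 2 : ℝ) =
              t ^ (1 - 1 / 16000 : ℝ) * t ^ (1 / 16000 : ℝ) * (d : ℝ) ^ (3 / 2 : ℝ) := by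
                rw [← Real.rpow_add ht0]; norm_num
            _ ≤ t ^ (1 - 1 / 16000 : ℝ) * (d : ℝ) ^ (1 / 2 : ℝ) * (d : ℝ) ^ (3 / 2 : ℝ) :=
                mul_le_mul_of_nonneg_right (mul_le_mul_of_nonneg_left e2 hp) (by positivity)
            _ = t ^ (1 - 1 / 16000 : ℝ) * (d : ℝ) ^ 2 := by
                rw [mul_assoc, ← Real.rpow_add hd0]
                norm_num
        calc 9 * (t / (d : ℝ) ^ 2) ≤ 9 * (t ^ (1 - 1 / 16000 : ℝ) * (1 / (d : ℝ) ^ (3 / 2 : ℝ))) :=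
              mul_le_mul_of_nonneg_left e1 (by norm_num)
          _ ≤ (C + 9) * (t ^ (1 - 1 / 16000 : ℝ) * (1 / (d : ℝ) ^ (3 / 2 : ℝ))) :=
              mul_le_mul_of_nonneg_right (by linarith) (by positivity)
          _ = _ := by ring
    · rw [sum_multiples_even t j hodd, norm_zero]
      positivity
  refine (norm_sum_le _ _).trans ((Finset.sum_le_sum key).trans ?_)
  rw [← Finset.mul_sum]
  have h6 : ∑ d ∈ Finset.Icc 1 ⌊t⌋₊, (1 / (d : ℝ) ^ (3 / 2 : ℝ)) ≤ S :=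
    hsum.sum_le_tsum _ fun n _ => by positivity
  calc (C + 9) * t ^ (1 - 1 / 16000 : ℝ) * ∑ d ∈ Finset.Icc 1 ⌊t⌋₊, (1 / (d : ℝ) ^ (3 / 2 : ℝ)) ≤
      (C + 9) * t ^ (1 - 1 / 16000 : ℝ) * (S + 1) :=
        mul_le_mul_of_nonneg_left (by linarith) (by positivity)
    _ = (C + 9) * (S + 1) * t ^ (1 - 1 / 16000 : ℝ) := by ring

end Pool.Agent.GaussMR
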