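import Pool.Agent.Lib_MP_f1a94e_mr.Psum
import Pool.Agent.Lib_MP_f1a94e_mr.WSum

/-!
# Piece WEIGHT: the sifted weights in arithmetic progressions
-/

set_option autoImplicit false

namespace Pool.Agent.GaussMR

namespace Weight

theorem mem_ob {t : ℝ} {z : G} : z ∈ ob t ↔ (nm z : ℝ) ≤ t ∧ Odd (nm z) := by
  classical
  simp [ob, mem_ball]

open Classical in
theorem ob_sdiff (a b : ℝ) : ob a \ ob b = (ball a \ ball b).filter (fun z => Odd (nm z)) := by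
  ext z
  simp only [Finset.mem_sdiff, mem_ob, Finset.mem_filter, mem_ball]
  tauto

open Classical in
/-- substitute `u = d s` -/
theorem reindex {d : G} (hd : Odd (nm d)) (a b : ℝ) (f : G → ℝ) :
    ∑ u ∈ (ob a \ ob b).filter (fun u => d ∣ u), f u =
      ∑ s ∈ ob (a / nm d) \ ob (b / nm d), f (d * s) := by
  have hd0 : d ≠ 0 := ne_zero_of_odd hd
  have hn : (0 : ℝ) < nm d := by exact_mod_cast nm_pos hd0
  symm
  apply Finset.sum_bij (fun s _ => d * s)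
  · intro s hs
    rw [Finset.mem_sdiff, mem_ob, mem_ob] at hs
    obtain ⟨⟨h1, h2⟩, h3⟩ := hs
    rw [Finset.mem_filter, Finset.mem_sdiff, mem_ob, mem_ob, nm_mul]
    have h4 : ¬ ((nm s : ℝ) ≤ b / nm d) := fun h => h3 ⟨h, h2⟩
    rw [le_div_iff₀ hn] at h1 h4
    refine ⟨⟨⟨?_, hd.mul h2⟩, ?_⟩, dvd_mul_right d s⟩
    · push_cast
      linarith
    · rintro ⟨h5, -⟩
      apply h4
      push_cast at h5
      linarith
  · intro s _ t _ h
    exact mul_left_cancel₀ hd0 h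
  · intro u hu
    rw [Finset.mem_filter, Finset.mem_sdiff, mem_ob, mem_ob] at hu
    obtain ⟨⟨⟨h1, h2⟩, h3⟩, ⟨s, rfl⟩⟩ := hu
    refine ⟨s, ?_, rfl⟩
    rw [nm_mul] at h1 h2 h3
    have h4 : ¬ (((nm d * nm s : ℕ) : ℝ) ≤ b) := fun h => h3 ⟨h, h2⟩
    have hs : Odd (nm s) := (Nat.odd_mul.1 h2).2
    rw [Finset.mem_sdiff, mem_ob, mem_ob, le_div_iff₀ hn, le_div_iff₀ hn]
    push_cast at h1 h4
    refine ⟨⟨by linarith, hs⟩, ?_⟩
    rintro ⟨h5, -⟩
    apply h4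
    linarith
  · intro s _
    rfl

open Classical in
theorem sum_odd (t : ℝ) (g : G → ℂ) :
    ∑ z ∈ ball t, (if Odd (nm z) then g z else 0) = ∑ z ∈ ob t, g z := by
  rw [ob, Finset.sum_filter]

open Classical in
theorem sum_odd_sdiff (a b : ℝ) (g : G → ℂ) :
    ∑ z ∈ ball a \ ball b, (if Odd (nm z) then g z else 0) / (nm z : ℂ) =
      ∑ z ∈ ob a \ ob b, g z / (nm z : ℂ) := by
  rw [ob_sdiff, Finset.sum_filter]
  refine Finset.sum_congr rfl fun z _ => ?_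
  split_ifs <;> simp

/-- partial summation for odd elements -/
theorem partial_odd (δ : ℝ) (hδ : 0 < δ) (hδ1 : δ ≤ 1) (g : G → ℂ) (κ : ℂ) (E t1 t2 : ℝ)
    (h1 : 1 ≤ t1) (h2 : t1 ≤ t2) (hE : 0 ≤ E)
    (h : ∀ t : ℝ, t1 ≤ t → t ≤ t2 → ‖∑ z ∈ ob t, g z - κ * t‖ ≤ E * t ^ (1 - δ)) :
    ‖∑ z ∈ ob t2 \ ob t1, g z / (nm z : ℂ) - κ * (Real.log (t2 / t1) : ℂ)‖ ≤
      4 * E / δ * t1 ^ (-δ) := by
  classical
  rw [← sum_odd_sdiff]
  apply partial_sum δ hδ hδ1 _ κ E t1 t2 h1 h2 hE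
  intro t ht1 ht2
  rw [sum_odd]
  exact h t ht1 ht2

end Weight

open Classical in
/-- substitute `u = d s` with `s` odd, `X^(12/25) / nm d < nm s ≤ X^(13/25) / nm d`; use `partial_sum`
with `odd_asymp` (`κ_odd log (X^(1/25)) = κ log X`) and with `w_odd` for `j = 2 k`, `|2k| ≤ 2 X ≤
(X^(0.479))^(43/20)` -/
theorem weight : ∃ κ X0 : ℝ, 0 < κ ∧ ∀ X : ℝ, X0 ≤ X → ∀ d : G, Odd (nm d) →
    (nm d : ℝ) ≤ X ^ (1 / 1000 : ℝ) → ∀ k : ℤ, k ≠ 0 → |(k : ℝ)| ≤ X →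
    |∑ u ∈ (ob (X ^ (13 / 25 : ℝ)) \ ob (X ^ (12 / 25 : ℝ))).filter (fun u => d ∣ u),
      (1 / (nm u : ℝ)) * (1 - (xi (2 * k) u).re) - κ * Real.log X / nm d| ≤
      X ^ (-(1 / 40000 : ℝ)) := by
  obtain ⟨κ0, C, hκ0, hC, hodd⟩ := odd_asymp
  obtain ⟨C', hC', hw⟩ := w_odd
  -- eventual inequalities
  have hev1 : ∀ᶠ X : ℝ in Filter.atTop, 2 ≤ X ^ (1 / 50 : ℝ) :=
    (tendsto_rpow_atTop (by norm_num)).eventually_ge_atTop 2
  have hev2 : ∀ᶠ X : ℝ in Filter.atTop, 8 * C + 64000 * C' ≤ X ^ (1 / 400000 : ℝ) :=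
    (tendsto_rpow_atTop (by norm_num)).eventually_ge_atTop _
  obtain ⟨X0, hX0⟩ := Filter.eventually_atTop.1 (hev1.and hev2)
  refine ⟨κ0 / 25, max X0 1, by positivity, ?_⟩
  intro X hX d hd hdX k hk hkX
  have hX1 : 1 ≤ X := (le_max_right _ _).trans hX
  have hXpos : 0 < X := by linarith
  obtain ⟨he1, he2⟩ := hX0 X ((le_max_left _ _).trans hX)
  have hd0 : d ≠ 0 := ne_zero_of_odd hd
  have hn : (0 : ℝ) < nm d := by exact_mod_cast nm_pos hd0
  have hn1 : (1 : ℝ) ≤ nm d := by exact_mod_cast nm_pos hd0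
  set T1 : ℝ := X ^ (12 / 25 : ℝ) / nm d with hT1
  set T2 : ℝ := X ^ (13 / 25 : ℝ) / nm d with hT2
  have hT1low : X ^ (479 / 1000 : ℝ) ≤ T1 := by
    rw [hT1, le_div_iff₀ hn]
    calc X ^ (479 / 1000 : ℝ) * nm d ≤ X ^ (479 / 1000 : ℝ) * X ^ (1 / 1000 : ℝ) :=
          mul_le_mul_of_nonneg_left hdX (Real.rpow_nonneg hXpos.le _)
      _ = X ^ (12 / 25 : ℝ) := by rw [← Real.rpow_add hXpos]; norm_num
  have hT1one : 1 ≤ T1 := (Real.one_le_rpow hX1 (by norm_num)).trans hT1low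
  have hT1pos : 0 < T1 := by linarith
  have hT12 : T1 ≤ T2 := by
    rw [hT1, hT2]
    exact div_le_div_of_nonneg_right (Real.rpow_le_rpow_of_exponent_le hX1 (by norm_num)) hn.le
  have hlog : Real.log (T2 / T1) = 1 / 25 * Real.log X := by
    have h1 : T2 / T1 = X ^ (1 / 25 : ℝ) := by
      rw [hT1, hT2, div_div_div_cancel_right₀ hn.ne', ← Real.rpow_sub hXpos]
      norm_num
    rw [h1, Real.log_rpow hXpos]
  -- the two sums
  have hA := Weight.partial_odd (1 / 2) (by norm_num) (by norm_num) (fun _ => 1) (κ0 : ℂ) C T1 T2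
    hT1one hT12 hC.le (by
      intro t ht1 ht2
      have h1 := hodd t (by linarith)
      have h2 : ∑ z ∈ ob t, (1 : ℂ) - (κ0 : ℂ) * (t : ℂ) =
          ((((ob t).card : ℝ) - κ0 * t : ℝ) : ℂ) := by
        push_cast
        simp
      rw [h2, Complex.norm_real, Real.norm_eq_abs]
      refine h1.trans (le_of_eq ?_)
      rw [Real.sqrt_eq_rpow]
      norm_num)
  have hB := Weight.partial_odd (1 / 16000) (by norm_num) (by norm_num) (fun z => xi (2 * k) z) 0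
    C' T1 T2 hT1one hT12 hC'.le (by
      intro t ht1 ht2
      have h1 : |((2 * k : ℤ) : ℝ)| ≤ t ^ (43 / 20 : ℝ) := by
        have h2 : |((2 * k : ℤ) : ℝ)| = 2 * |(k : ℝ)| := by
          push_cast
          rw [abs_mul, abs_two]
        rw [h2]
        calc 2 * |(k : ℝ)| ≤ X ^ (1 / 50 : ℝ) * X :=
              mul_le_mul he1 hkX (abs_nonneg _) (Real.rpow_nonneg hXpos.le _)
          _ = X ^ (51 / 50 : ℝ) := by
              nth_rewrite 2 [← Real.rpow_one X]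
              rw [← Real.rpow_add hXpos]
              norm_num
          _ ≤ X ^ (479 / 1000 * (43 / 20) : ℝ) :=
              Real.rpow_le_rpow_of_exponent_le hX1 (by norm_num)
          _ = (X ^ (479 / 1000 : ℝ)) ^ (43 / 20 : ℝ) := by rw [Real.rpow_mul hXpos.le]
          _ ≤ t ^ (43 / 20 : ℝ) := by
              apply Real.rpow_le_rpow (Real.rpow_nonneg hXpos.le _) (hT1low.trans ht1)
              norm_num
      have h3 := hw t (2 * k) (hT1one.trans ht1) (by omega) h1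
      rw [zero_mul, sub_zero]
      exact h3)
  rw [Weight.reindex hd]
  -- bounds for the powers of T1
  have hp1 : T1 ^ (-(1 / 2) : ℝ) ≤ X ^ (-(11 / 400000) : ℝ) := by
    calc T1 ^ (-(1 / 2) : ℝ) ≤ (X ^ (479 / 1000 : ℝ)) ^ (-(1 / 2) : ℝ) :=
          Real.rpow_le_rpow_of_nonpos (Real.rpow_pos_of_pos hXpos _) hT1low (by norm_num)
      _ = X ^ (479 / 1000 * (-(1 / 2)) : ℝ) := by rw [Real.rpow_mul hXpos.le]
      _ ≤ X ^ (-(11 / 400000) : ℝ) := Real.rpow_le_rpow_of_exponent_le hX1 (by norm_num)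
  have hp2 : T1 ^ (-(1 / 16000) : ℝ) ≤ X ^ (-(11 / 400000) : ℝ) := by
    calc T1 ^ (-(1 / 16000) : ℝ) ≤ (X ^ (479 / 1000 : ℝ)) ^ (-(1 / 16000) : ℝ) :=
          Real.rpow_le_rpow_of_nonpos (Real.rpow_pos_of_pos hXpos _) hT1low (by norm_num)
      _ = X ^ (479 / 1000 * (-(1 / 16000)) : ℝ) := by rw [Real.rpow_mul hXpos.le]
      _ ≤ X ^ (-(11 / 400000) : ℝ) := Real.rpow_le_rpow_of_exponent_le hX1 (by norm_num)
  set SA : ℂ := ∑ z ∈ ob T2 \ ob T1, (1 : ℂ) / (nm z : ℂ) with hSA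
  set SB : ℂ := ∑ z ∈ ob T2 \ ob T1, xi (2 * k) z / (nm z : ℂ) with hSB
  have hsum : ∑ s ∈ ob T2 \ ob T1, (1 / (nm (d * s) : ℝ)) * (1 - (xi (2 * k) (d * s)).re) =
      (1 / (nm d : ℝ)) * (SA - xi (2 * k) d * SB).re := by
    rw [hSA, hSB, Finset.mul_sum, ← Finset.sum_sub_distrib, Complex.re_sum, Finset.mul_sum]
    refine Finset.sum_congr rfl fun s _ => ?_
    rw [nm_mul, xi_mul]
    have h1 : (1 : ℂ) / (nm s : ℂ) - xi (2 * k) d * (xi (2 * k) s / (nm s : ℂ)) =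
        ((1 / (nm s : ℝ) : ℝ) : ℂ) * (1 - xi (2 * k) d * xi (2 * k) s) := by
      push_cast
      ring
    rw [h1, Complex.re_ofReal_mul, Complex.sub_re, Complex.one_re]
    push_cast
    rw [← mul_assoc, one_div_mul_one_div]
  rw [hsum]
  have hnxi : ‖xi (2 * k) d‖ = 1 := norm_xi _ hd0
  have hfin : |(SA - xi (2 * k) d * SB).re - κ0 / 25 * Real.log X| ≤
      (8 * C + 64000 * C') * X ^ (-(11 / 400000) : ℝ) := by
    have h1 : (SA - xi (2 * k) d * SB).re - κ0 / 25 * Real.log X =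
        ((SA - (κ0 : ℂ) * (Real.log (T2 / T1) : ℂ)) - xi (2 * k) d *
          (SB - 0 * (Real.log (T2 / T1) : ℂ))).re := by
      rw [hlog]
      have h2 : (SA - (κ0 : ℂ) * ((1 / 25 * Real.log X : ℝ) : ℂ)) - xi (2 * k) d *
          (SB - 0 * ((1 / 25 * Real.log X : ℝ) : ℂ)) =
          (SA - xi (2 * k) d * SB) - ((κ0 / 25 * Real.log X : ℝ) : ℂ) := by
        push_cast
        ring
      rw [h2, Complex.sub_re (SA - xi (2 * k) d * SB), Complex.ofReal_re]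
    rw [h1]
    refine (Complex.abs_re_le_norm _).trans ((norm_sub_le _ _).trans ?_)
    rw [norm_mul, hnxi, one_mul]
    have h3 : 4 * C / (1 / 2) * T1 ^ (-(1 / 2) : ℝ) ≤ 8 * C * X ^ (-(11 / 400000) : ℝ) := by
      have : 4 * C / (1 / 2) = 8 * C := by ring
      rw [this]
      exact mul_le_mul_of_nonneg_left hp1 (by positivity)
    have h4 : 4 * C' / (1 / 16000) * T1 ^ (-(1 / 16000) : ℝ) ≤
        64000 * C' * X ^ (-(11 / 400000) : ℝ) := by
      have : 4 * C' / (1 / 16000) = 64000 * C' := by ring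
      rw [this]
      exact mul_le_mul_of_nonneg_left hp2 (by positivity)
    have h5 := hA.trans h3
    have h6 := hB.trans h4
    linarith
  have h7 : (1 / (nm d : ℝ)) * (SA - xi (2 * k) d * SB).re - κ0 / 25 * Real.log X / nm d =
      (1 / (nm d : ℝ)) * ((SA - xi (2 * k) d * SB).re - κ0 / 25 * Real.log X) := by
    ring
  rw [h7, abs_mul, abs_of_pos (by positivity : (0 : ℝ) < 1 / nm d)]
  have h8 : 1 / (nm d : ℝ) ≤ 1 := by
    rw [div_le_one hn]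
    exact hn1
  calc 1 / (nm d : ℝ) * |(SA - xi (2 * k) d * SB).re - κ0 / 25 * Real.log X|
      ≤ 1 * ((8 * C + 64000 * C') * X ^ (-(11 / 400000) : ℝ)) :=
        mul_le_mul h8 hfin (abs_nonneg _) zero_le_one
    _ ≤ X ^ (1 / 400000 : ℝ) * X ^ (-(11 / 400000) : ℝ) := by
        rw [one_mul]
        exact mul_le_mul_of_nonneg_right he2 (Real.rpow_nonneg hXpos.le _)
    _ = X ^ (-(1 / 40000 : ℝ)) := by
        rw [← Real.rpow_add hXpos]
        norm_num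

end Pool.Agent.GaussMR
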