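import Pool.Agent.Lib_MP_f1a94e_mr.BH
import Pool.Agent.Lib_MP_f1a94e_mr.CPsum
import Pool.Agent.Lib_MP_f1a94e_mr.Weight

/-!
# Piece SIEVEA: application of the Brun-Hooley sieve
-/

set_option autoImplicit false

namespace Pool.Agent.GaussMR

namespace SieveA

theorem mem_CP_sa {y : ℝ} {w : G} :
    w ∈ CP y ↔ (nm w : ℝ) ≤ y ∧ Prime w ∧ Odd (nm w) ∧ 0 < w.re ∧ 0 ≤ w.im := by
  classical
  simp [CP, mem_ball]

theorem nm_prod_sa (D : Finset G) : nm (∏ w ∈ D, w) = ∏ w ∈ D, nm w := by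
  classical
  induction D using Finset.induction_on with
  | empty => simp
  | insert p D hp ih => rw [Finset.prod_insert hp, Finset.prod_insert hp, nm_mul, ih]

theorem eq_of_dvd_prod {y y' : ℝ} {D : Finset G} (hD : D ⊆ CP y) {p : G} (hp : p ∈ CP y')
    (h : p ∣ ∏ w ∈ D, w) : p ∈ D := by
  obtain ⟨q, hq, hpq⟩ := (Prime.dvd_finsetProd_iff (mem_CP_sa.mp hp).2.1 (fun w => w)).mp h
  have ha : Associated p q :=
    ((mem_CP_sa.mp hp).2.1.dvd_prime_iff_associated (mem_CP_sa.mp (hD hq)).2.1).mp hpq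
  rw [CP_assoc hp (hD hq) ha]
  exact hq

theorem prod_inj_sa {y y' : ℝ} {D D' : Finset G} (hD : D ⊆ CP y) (hD' : D' ⊆ CP y')
    (h : ∏ w ∈ D, w = ∏ w ∈ D', w) : D = D' := by
  apply Finset.Subset.antisymm
  · intro p hp
    exact eq_of_dvd_prod hD' (hD hp) (h ▸ Finset.dvd_prod_of_mem (fun w => w) hp)
  · intro p hp
    exact eq_of_dvd_prod hD (hD' hp) (h ▸ Finset.dvd_prod_of_mem (fun w => w) hp)

theorem prod_dvd_of_sa {y : ℝ} {D : Finset G} (hD : D ⊆ CP y) {u : G} (h : ∀ w ∈ D, w ∣ u) :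
    ∏ w ∈ D, w ∣ u := by
  classical
  induction D using Finset.induction_on with
  | empty => simp
  | insert p D hp ih =>
    have hD' : D ⊆ CP y := fun w hw => hD (Finset.mem_insert_of_mem hw)
    have hpC : p ∈ CP y := hD (Finset.mem_insert_self _ _)
    obtain ⟨c, hc⟩ := ih hD' (fun w hw => h w (Finset.mem_insert_of_mem hw))
    have hpu : p ∣ (∏ w ∈ D, w) * c := hc ▸ h p (Finset.mem_insert_self _ _)
    rcases (mem_CP_sa.mp hpC).2.1.dvd_or_dvd hpu with h1 | h1
    · exact absurd (eq_of_dvd_prod hD' hpC h1) hp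
    · rw [Finset.prod_insert hp, hc, mul_comm p]
      exact mul_dvd_mul_left _ h1

theorem odd_prod_sa {y : ℝ} {D : Finset G} (hD : D ⊆ CP y) : Odd (nm (∏ w ∈ D, w)) := by
  rw [nm_prod_sa]
  refine Finset.prod_induction _ Odd (fun a b ha hb => ha.mul hb) odd_one ?_
  intro w hw
  exact (mem_CP_sa.mp (hD hw)).2.2.1

theorem sum_exp (b t : ℕ) : ∑ i ∈ Finset.range t, (2 * ((b : ℝ) + i) + 1) / 2 ^ i =
    (4 * b + 6) - (4 * b + 4 * t + 6) / 2 ^ t := by
  induction t with
  | zero => simp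
  | succ t ih =>
    rw [Finset.sum_range_succ, ih, pow_succ]
    push_cast
    field_simp
    ring

/-- the levels of the sieve -/
noncomputable def lev (y : ℝ) (i : ℕ) : ℝ := y ^ ((1 : ℝ) / 2 ^ i)

theorem lev_pos {y : ℝ} (hy : 1 ≤ y) (i : ℕ) : 0 < lev y i := Real.rpow_pos_of_pos (by linarith) _

theorem one_le_lev {y : ℝ} (hy : 1 ≤ y) (i : ℕ) : 1 ≤ lev y i :=
  Real.one_le_rpow hy (by positivity)

theorem lev_zero (y : ℝ) : lev y 0 = y := by simp [lev]

theorem lev_anti {y : ℝ} (hy : 1 ≤ y) {i j : ℕ} (h : i ≤ j) : lev y j ≤ lev y i := by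
  unfold lev
  refine Real.rpow_le_rpow_of_exponent_le hy ?_
  exact one_div_le_one_div_of_le (by positivity) (pow_le_pow_right₀ (by norm_num) h)

theorem lev_succ_sq {y : ℝ} (hy : 1 ≤ y) (i : ℕ) : lev y (i + 1) ^ 2 = lev y i := by
  unfold lev
  rw [← Real.rpow_natCast, ← Real.rpow_mul (by linarith)]
  congr 1
  rw [pow_succ]
  push_cast
  field_simp

theorem log_lev {y : ℝ} (hy : 1 ≤ y) (i : ℕ) : Real.log (lev y i) = Real.log y / 2 ^ i := by
  unfold lev
  rw [Real.log_rpow (by linarith)]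
  ring

open Classical in
/-- the classes of primes -/
noncomputable def PC (y : ℝ) (i : ℕ) : Finset G :=
  (CP y).filter (fun w => lev y (i + 1) < (nm w : ℝ) ∧ (nm w : ℝ) ≤ lev y i)

theorem mem_PC {y : ℝ} {i : ℕ} {w : G} :
    w ∈ PC y i ↔ w ∈ CP y ∧ lev y (i + 1) < (nm w : ℝ) ∧ (nm w : ℝ) ≤ lev y i := by
  classical
  simp [PC]

theorem PC_disjoint {y : ℝ} (hy : 1 ≤ y) {i j : ℕ} (h : i ≠ j) : Disjoint (PC y i) (PC y j) := by
  rw [Finset.disjoint_left]
  intro w h1 h2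
  rw [mem_PC] at h1 h2
  rcases lt_or_gt_of_ne h with h3 | h3
  · have := lev_anti hy (Nat.succ_le_of_lt h3)
    linarith [h1.2.1, h2.2.2]
  · have := lev_anti hy (Nat.succ_le_of_lt h3)
    linarith [h2.2.1, h1.2.2]

theorem PC_union {y : ℝ} {t : ℕ} (ht : lev y t < 5) :
    (Finset.range t).biUnion (PC y) = CP y := by
  classical
  ext w
  rw [Finset.mem_biUnion]
  constructor
  · rintro ⟨i, -, hi⟩
    exact (mem_PC.mp hi).1
  · intro hw
    have h5 : (5 : ℝ) ≤ nm w := by exact_mod_cast CP_nm hw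
    have hex : ∃ j, lev y j < (nm w : ℝ) := ⟨t, ht.trans_le h5⟩
    have hj := Nat.find_spec hex
    have hmin : ∀ j, j < Nat.find hex → ¬ lev y j < (nm w : ℝ) := fun j hj => Nat.find_min hex hj
    have hjt : Nat.find hex ≤ t := Nat.find_min' hex (ht.trans_le h5)
    have hj0 : Nat.find hex ≠ 0 := by
      intro h0
      rw [h0, lev_zero] at hj
      exact absurd (mem_CP_sa.mp hw).1 (not_le.mpr hj)
    obtain ⟨i, hi⟩ := Nat.exists_eq_succ_of_ne_zero hj0
    refine ⟨i, Finset.mem_range.mpr (by omega), mem_PC.mpr ⟨hw, ?_, ?_⟩⟩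
    · rw [hi] at hj
      exact hj
    · exact not_lt.mp (hmin i (by omega))

/-- the number of levels -/
theorem exists_t {y : ℝ} (hy : 1 ≤ y) : ∃ t : ℕ, lev y t < 5 ∧ (∀ i < t, 5 ≤ lev y i) ∧
    (t : ℝ) ≤ Real.log y := by
  classical
  have hl5 : 1 ≤ Real.log 5 := by
    rw [Real.le_log_iff_exp_le (by norm_num)]
    linarith [Real.exp_one_lt_d9]
  have hly : 0 ≤ Real.log y := Real.log_nonneg hy
  have hex : ∃ t : ℕ, lev y t < 5 := by
    obtain ⟨t, ht⟩ := pow_unbounded_of_one_lt (Real.log y) (by norm_num : (1 : ℝ) < 2)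
    refine ⟨t, ?_⟩
    rw [← Real.log_lt_log_iff (lev_pos hy t) (by norm_num), log_lev hy, div_lt_iff₀ (by positivity)]
    nlinarith [pow_pos (by norm_num : (0 : ℝ) < 2) t]
  refine ⟨Nat.find hex, Nat.find_spec hex, fun i hi => not_lt.mp (Nat.find_min hex hi), ?_⟩
  rcases Nat.eq_zero_or_pos (Nat.find hex) with h0 | h0
  · rw [h0]; simpa using hly
  · have h1 : 5 ≤ lev y (Nat.find hex - 1) := not_lt.mp (Nat.find_min hex (by omega))
    have h2 := Real.log_le_log (by norm_num) h1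
    rw [log_lev hy, le_div_iff₀ (by positivity)] at h2
    have h3 : Nat.find hex ≤ 2 ^ (Nat.find hex - 1) := by
      have := Nat.lt_two_pow_self (n := Nat.find hex - 1)
      omega
    have h3' : (Nat.find hex : ℝ) ≤ 2 ^ (Nat.find hex - 1) := by exact_mod_cast h3
    nlinarith [pow_pos (by norm_num : (0 : ℝ) < 2) (Nat.find hex - 1)]


theorem class_sum {C : ℝ} (hC : ∀ y y' : ℝ, 2 ≤ y' → y' ≤ y →
    ∑ w ∈ (CP y).filter (fun w => y' < (nm w : ℝ)), 1 / (nm w : ℝ) ≤
      Real.log (Real.log y) - Real.log (Real.log y') + C) {y : ℝ} (hy : 1 ≤ y) {i : ℕ}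
    (h5 : 5 ≤ lev y i) : ∑ w ∈ PC y i, 1 / (nm w : ℝ) ≤ Real.log 2 + C := by
  classical
  have hsq := lev_succ_sq hy i
  have hp := lev_pos hy (i + 1)
  have h2 : 2 ≤ lev y (i + 1) := by nlinarith
  have h1 := hC (lev y i) (lev y (i + 1)) h2 (lev_anti hy (Nat.le_succ i))
  have hlog : Real.log (lev y i) = 2 * Real.log (lev y (i + 1)) := by
    rw [← hsq, Real.log_pow]
    norm_num
  have hlp : 0 < Real.log (lev y (i + 1)) := Real.log_pos (by linarith)
  rw [hlog, Real.log_mul (by norm_num) hlp.ne'] at h1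
  refine le_trans ?_ (h1.trans (by linarith))
  refine Finset.sum_le_sum_of_subset_of_nonneg ?_ (fun w _ _ => by positivity)
  intro w hw
  rw [mem_PC] at hw
  refine Finset.mem_filter.mpr ⟨?_, hw.2.1⟩
  have := mem_CP_sa.mp hw.1
  exact mem_CP_sa.mpr ⟨hw.2.2, this.2⟩

theorem sum_sq_le_sa : ∃ C2 : ℝ, 0 ≤ C2 ∧ ∀ y : ℝ, ∑ w ∈ CP y, (1 / (nm w : ℝ)) ^ 2 ≤ C2 := by
  classical
  have hsum := EisensteinSeries.summable_one_div_norm_rpow (k := 4) (by norm_num)
  refine ⟨∑' x : Fin 2 → ℤ, ‖x‖ ^ (-4 : ℝ), tsum_nonneg fun x => by positivity, ?_⟩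
  intro y
  have hinj : Function.Injective (fun w : G => (![w.re, w.im] : Fin 2 → ℤ)) := by
    intro w w' h
    have h0 := congrFun h 0
    have h1 := congrFun h 1
    simp at h0 h1
    exact Zsqrtd.ext h0 h1
  calc ∑ w ∈ CP y, (1 / (nm w : ℝ)) ^ 2 ≤
      ∑ w ∈ CP y, ‖(![w.re, w.im] : Fin 2 → ℤ)‖ ^ (-4 : ℝ) := by
        refine Finset.sum_le_sum fun w hw => ?_
        have hw5 := CP_nm hw
        have hn : (0 : ℝ) < nm w := by exact_mod_cast (by omega : 0 < nm w)
        have hw0 : (0 : ℝ) < w.re := by exact_mod_cast (mem_CP_sa.mp hw).2.2.2.1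
        have hv : ‖(![w.re, w.im] : Fin 2 → ℤ)‖ ^ 2 ≤ (nm w : ℝ) := by
          have hle : ‖(![w.re, w.im] : Fin 2 → ℤ)‖ ≤ Real.sqrt (nm w) := by
            rw [pi_norm_le_iff_of_nonneg (Real.sqrt_nonneg _)]
            have hnm : ((nm w : ℕ) : ℝ) = (w.re : ℝ) ^ 2 + (w.im : ℝ) ^ 2 := by
              have h := nm_eq w
              exact_mod_cast h
            intro i
            fin_cases i
            · change ‖w.re‖ ≤ _
              rw [Int.norm_eq_abs]
              apply Real.abs_le_sqrt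
              rw [hnm]
              nlinarith [sq_nonneg (w.im : ℝ)]
            · change ‖w.im‖ ≤ _
              rw [Int.norm_eq_abs]
              apply Real.abs_le_sqrt
              rw [hnm]
              nlinarith [sq_nonneg (w.re : ℝ)]
          have h1 := pow_le_pow_left₀ (norm_nonneg _) hle 2
          rwa [Real.sq_sqrt hn.le] at h1
        have hv0 : 0 < ‖(![w.re, w.im] : Fin 2 → ℤ)‖ := by
          rw [norm_pos_iff]
          intro h
          have h0 := congrFun h 0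
          simp at h0
          have : (0 : ℝ) < 0 := by
            have h' := hw0
            rw [h0] at h'
            simp at h'
          exact lt_irrefl _ this
        have e1 : ‖(![w.re, w.im] : Fin 2 → ℤ)‖ ^ (-4 : ℝ) =
            (1 / ‖(![w.re, w.im] : Fin 2 → ℤ)‖ ^ 2) ^ 2 := by
          rw [Real.rpow_neg hv0.le]
          have : (4 : ℝ) = ((4 : ℕ) : ℝ) := by norm_num
          rw [this, Real.rpow_natCast]
          field_simp
        rw [e1]
        gcongr
    _ = ∑ x ∈ (CP y).image (fun w : G => (![w.re, w.im] : Fin 2 → ℤ)), ‖x‖ ^ (-4 : ℝ) := by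
        rw [Finset.sum_image fun a _ b _ h => hinj h]
    _ ≤ ∑' x : Fin 2 → ℤ, ‖x‖ ^ (-4 : ℝ) :=
        hsum.sum_le_tsum _ fun x _ => by positivity

theorem one_sub_ge_sa {x : ℝ} (h0 : 0 ≤ x) (h1 : x ≤ 1 / 2) :
    Real.exp (-(x + 2 * x ^ 2)) ≤ 1 - x := by
  have hpos : 0 < 1 - x := by linarith
  rw [← Real.le_log_iff_exp_le hpos]
  refine le_trans ?_ (Real.one_sub_inv_le_log_of_pos hpos)
  have : (1 - x)⁻¹ ≤ 1 + x + 2 * x ^ 2 := by
    rw [inv_le_iff_one_le_mul₀ hpos]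
    nlinarith [mul_nonneg h0 (mul_nonneg h0 (by linarith : 0 ≤ 1 / 2 - x))]
  linarith

theorem CP_prod_lower : ∃ c3 : ℝ, 0 < c3 ∧ ∀ y : ℝ, 2 ≤ y →
    c3 / Real.log y ≤ ∏ w ∈ CP y, (1 - 1 / (nm w : ℝ)) := by
  classical
  obtain ⟨C, hC0, hC⟩ := CP_sum
  obtain ⟨C2, hC20, hC2⟩ := sum_sq_le_sa
  refine ⟨Real.log 2 * Real.exp (-(C + 2 * C2)), by positivity, ?_⟩
  intro y hy
  have h1 := hC y 2 le_rfl hy
  have hf : (CP y).filter (fun w => (2 : ℝ) < (nm w : ℝ)) = CP y := by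
    rw [Finset.filter_eq_self]
    intro w hw
    have := CP_nm hw
    exact_mod_cast (by omega : 2 < nm w)
  rw [hf] at h1
  have hly : 0 < Real.log y := Real.log_pos (by linarith)
  have hl2 : 0 < Real.log 2 := Real.log_pos (by norm_num)
  calc Real.log 2 * Real.exp (-(C + 2 * C2)) / Real.log y =
      Real.exp (-(Real.log (Real.log y) - Real.log (Real.log 2) + C) + -(2 * C2)) := by
        have e1 : -(Real.log (Real.log y) - Real.log (Real.log 2) + C) + -(2 * C2) =
            Real.log (Real.log 2) + -(C + 2 * C2) - Real.log (Real.log y) := by ring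
        rw [e1, Real.exp_sub, Real.exp_add, Real.exp_log hl2, Real.exp_log hly]
    _ ≤ Real.exp (∑ w ∈ CP y, -(1 / (nm w : ℝ) + 2 * (1 / (nm w : ℝ)) ^ 2)) := by
        apply Real.exp_le_exp.mpr
        rw [Finset.sum_neg_distrib, Finset.sum_add_distrib, ← Finset.mul_sum]
        have := hC2 y
        linarith
    _ = ∏ w ∈ CP y, Real.exp (-(1 / (nm w : ℝ) + 2 * (1 / (nm w : ℝ)) ^ 2)) :=
        Real.exp_sum _ _
    _ ≤ ∏ w ∈ CP y, (1 - 1 / (nm w : ℝ)) := by
        refine Finset.prod_le_prod (fun w _ => (Real.exp_pos _).le) fun w hw => ?_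
        have h5 : (5 : ℝ) ≤ nm w := by exact_mod_cast CP_nm hw
        refine one_sub_ge_sa (by positivity) ?_
        rw [div_le_div_iff₀ (by linarith) (by norm_num)]
        linarith

theorem nm_prod_le {y : ℝ} (hy : 1 ≤ y) {b t : ℕ} {D : Finset G}
    (hD : D ⊆ (Finset.range t).biUnion (PC y))
    (hc : ∀ i < t, (D ∩ PC y i).card ≤ 2 * (b + i) + 1) :
    (nm (∏ w ∈ D, w) : ℝ) ≤ y ^ (4 * b + 6 : ℝ) := by
  classical
  have hDe : D = (Finset.range t).biUnion (fun i => D ∩ PC y i) := by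
    rw [← Finset.inter_biUnion, Finset.inter_eq_left.mpr hD]
  rw [nm_prod_sa]
  push_cast
  rw [hDe, Finset.prod_biUnion]
  · calc ∏ i ∈ Finset.range t, ∏ w ∈ D ∩ PC y i, (nm w : ℝ) ≤
        ∏ i ∈ Finset.range t, y ^ ((2 * ((b : ℝ) + i) + 1) / 2 ^ i) := by
          refine Finset.prod_le_prod (fun i _ => Finset.prod_nonneg fun w _ => Nat.cast_nonneg _)
            fun i hi => ?_
          calc ∏ w ∈ D ∩ PC y i, (nm w : ℝ) ≤ ∏ w ∈ D ∩ PC y i, lev y i := by
                refine Finset.prod_le_prod (fun w _ => Nat.cast_nonneg _) fun w hw => ?_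
                exact (mem_PC.mp (Finset.mem_inter.mp hw).2).2.2
            _ = lev y i ^ (D ∩ PC y i).card := by rw [Finset.prod_const]
            _ ≤ lev y i ^ (2 * (b + i) + 1) :=
                pow_le_pow_right₀ (one_le_lev hy i) (hc i (Finset.mem_range.mp hi))
            _ = y ^ ((2 * ((b : ℝ) + i) + 1) / 2 ^ i) := by
                unfold lev
                rw [← Real.rpow_natCast, ← Real.rpow_mul (by linarith)]
                congr 1
                push_cast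
                ring
      _ = y ^ (∑ i ∈ Finset.range t, (2 * ((b : ℝ) + i) + 1) / 2 ^ i) := by
          rw [Real.rpow_sum_of_pos (by linarith)]
      _ ≤ y ^ (4 * b + 6 : ℝ) := by
          refine Real.rpow_le_rpow_of_exponent_le hy ?_
          rw [sum_exp]
          have : 0 ≤ (4 * (b : ℝ) + 4 * t + 6) / 2 ^ t := by positivity
          linarith
  · intro i _ j _ hij
    exact Finset.disjoint_of_subset_left Finset.inter_subset_right
      (Finset.disjoint_of_subset_right Finset.inter_subset_right (PC_disjoint hy hij))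


theorem err_small_sa {r c : ℝ} (hc : 0 < c) (h : r = 3 / 200000) :
    ∀ᶠ X : ℝ in Filter.atTop, (Real.log X + 1) * 9 * X ^ (-r) ≤ c := by
  have hr : 0 < r := by rw [h]; norm_num
  have h1 : Filter.Tendsto (fun X : ℝ => Real.log X / X ^ r) Filter.atTop (nhds 0) :=
    (isLittleO_log_rpow_atTop hr).tendsto_div_nhds_zero
  have h2 : Filter.Tendsto (fun X : ℝ => X ^ (-r)) Filter.atTop (nhds 0) :=
    tendsto_rpow_neg_atTop hr
  have h3 : Filter.Tendsto (fun X : ℝ => Real.log X / X ^ r * 9 + X ^ (-r) * 9) Filter.atTop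
      (nhds (0 * 9 + 0 * 9)) := (h1.mul_const 9).add (h2.mul_const 9)
  rw [zero_mul, add_zero] at h3
  filter_upwards [h3.eventually_le_const hc, Filter.eventually_gt_atTop 0] with X hX hX0
  have e : Real.log X / X ^ r = Real.log X * X ^ (-r) := by
    rw [Real.rpow_neg hX0.le]
    rfl
  rw [e] at hX
  linarith


open Classical in
/-- `brun_hooley` with an arbitrary decidability instance -/
theorem bh_inst (G0 : ℝ) (hG0 : 0 ≤ G0) : ∃ b : ℕ, ∀ (Ω ι : Type) (_inst : DecidableEq ι)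
    (obj : Finset Ω) (w : Ω → ℝ)
    (t : ℕ) (P : ℕ → Finset ι) (S : Ω → Finset ι) (g : ι → ℝ) (X0 E : ℝ),
    (∀ u ∈ obj, 0 ≤ w u) → (∀ i j, i < t → j < t → i ≠ j → Disjoint (P i) (P j)) →
    (∀ u ∈ obj, S u ⊆ (Finset.range t).biUnion P) →
    (∀ p ∈ (Finset.range t).biUnion P, 0 ≤ g p ∧ g p ≤ 1 / 2) →
    (∀ i < t, ∑ p ∈ P i, g p ≤ G0) → 0 ≤ X0 → 0 ≤ E →
    (∀ D ⊆ (Finset.range t).biUnion P, (∀ i < t, (D ∩ P i).card ≤ 2 * (b + i) + 1) →
      |∑ u ∈ obj.filter (fun u => D ⊆ S u), w u - X0 * ∏ p ∈ D, g p| ≤ E) →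
    X0 / 2 * ∏ p ∈ (Finset.range t).biUnion P, (1 - g p) -
      (t + 1) * (((Finset.range t).biUnion P).powerset.filter
        (fun D => ∀ i < t, (D ∩ P i).card ≤ 2 * (b + i) + 1)).card * E ≤
      ∑ u ∈ obj.filter (fun u => S u = ∅), w u := by
  obtain ⟨b, hb⟩ := brun_hooley G0 hG0
  refine ⟨b, ?_⟩
  intro Ω ι inst
  obtain rfl : inst = fun a b => Classical.propDecidable (a = b) := Subsingleton.elim _ _
  exact hb Ω ι

end SieveA

open SieveA

open Classical in
/-- Apply `brun_hooley` to `obj = ob (X^(13/25)) \ ob (X^(12/25))`,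
`w u = (1 / nm u) (1 - Re xi (2k) u) ≥ 0`, the primes `CP y`, `y = X^a`, classes
`P i = {w ∈ CP y : y^(1/2^(i+1)) < nm w ≤ y^(1/2^i)}` (`i < t`, `t` minimal with `y^(1/2^t) < 5`,
class sums `≤ log 2 + C` by `CP_sum`), `S u = {w ∈ ∪ P i : w ∣ u}`, `g w = 1 / nm w`,
`X0 = κ log X`, `E = X^(-1/40000)` from `weight`. A set `D` in the family has
`nm (∏ D) ≤ y^(∑ (2(b+i)+1)/2^i) ≤ y^(4 b + 6)`; choose `a = 1 / (100000 (4 b + 6))`; `D ⊆ S u ↔ ∏ D ∣ u`;
`D ↦ ∏ D` is injective, so the family has at most `9 X^(1/100000)` members (`card_ball_le`).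
`∏ (1 - 1/nm w) ≥ c / log y` by `CP_sum`. -/
theorem sieve_all : ∃ a c X0 : ℝ, 0 < a ∧ a ≤ 1 ∧ 0 < c ∧ ∀ X : ℝ, X0 ≤ X → ∀ k : ℤ, k ≠ 0 →
    |(k : ℝ)| ≤ X → c ≤ ∑ u ∈ (ob (X ^ (13 / 25 : ℝ)) \ ob (X ^ (12 / 25 : ℝ))).filter
      (fun u => ∀ p : G, Prime p → p ∣ u → X ^ a ≤ (nm p : ℝ)),
      (1 / (nm u : ℝ)) * (1 - (xi (2 * k) u).re) := by
  obtain ⟨C, hC0, hC⟩ := CP_sum
  obtain ⟨c3, hc3, hprod⟩ := CP_prod_lower
  obtain ⟨κ, X1, hκ, hw⟩ := weight
  have hl2 : 0 < Real.log 2 := Real.log_pos (by norm_num)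
  obtain ⟨b, hb⟩ := bh_inst (Real.log 2 + C) (by positivity)
  obtain ⟨a, ha⟩ : ∃ a : ℝ, a = 1 / (100000 * (4 * b + 6)) := ⟨_, rfl⟩
  have ha0 : 0 < a := by rw [ha]; positivity
  have ha1 : a ≤ 1 := by
    rw [ha, div_le_one (by positivity)]
    have : (0 : ℝ) ≤ b := Nat.cast_nonneg b
    linarith
  have hab : a * (4 * b + 6) = 1 / 100000 := by
    rw [ha]
    have : (4 * (b : ℝ) + 6) ≠ 0 := by positivity
    field_simp
  have hc : 0 < κ * c3 / (4 * a) := by positivity
  obtain ⟨X2, hX2⟩ := Filter.eventually_atTop.mp ((err_small_sa hc rfl).and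
    (((tendsto_rpow_atTop ha0).eventually_ge_atTop 2)))
  refine ⟨a, κ * c3 / (4 * a), max (max X1 X2) 2, ha0, ha1, hc, ?_⟩
  intro X hX k hk hkX
  have hXX1 : X1 ≤ X := (le_max_left _ _).trans ((le_max_left _ _).trans hX)
  have hXX2 : X2 ≤ X := (le_max_right _ _).trans ((le_max_left _ _).trans hX)
  have hX2' : 2 ≤ X := (le_max_right _ _).trans hX
  obtain ⟨herr, hy2⟩ := hX2 X hXX2
  have hX0 : 0 < X := by linarith
  have hX1 : 1 ≤ X := by linarith
  obtain ⟨y, hy⟩ : ∃ y : ℝ, y = X ^ a := ⟨_, rfl⟩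
  rw [← hy] at hy2
  have hy1 : 1 ≤ y := by linarith
  have hlogy : Real.log y = a * Real.log X := by rw [hy, Real.log_rpow hX0]
  have hlogX : 0 < Real.log X := Real.log_pos (by linarith)
  have hlogy0 : 0 < Real.log y := by rw [hlogy]; positivity
  have hyX : y ^ (4 * b + 6 : ℝ) = X ^ (1 / 100000 : ℝ) := by
    rw [hy, ← Real.rpow_mul hX0.le, hab]
  obtain ⟨t, ht5, hti, htl⟩ := exists_t hy1
  have hun := PC_union ht5
  set obj := ob (X ^ (13 / 25 : ℝ)) \ ob (X ^ (12 / 25 : ℝ)) with hobj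
  have hodd : ∀ u ∈ obj, Odd (nm u) := by
    intro u hu
    have h1 := (Finset.mem_sdiff.mp hu).1
    unfold ob at h1
    exact (Finset.mem_filter.mp h1).2
  have hW : ∀ u ∈ obj, 0 ≤ (1 / (nm u : ℝ)) * (1 - (xi (2 * k) u).re) := by
    intro u hu
    have h1 : (xi (2 * k) u).re ≤ 1 := by
      rw [← norm_xi (2 * k) (ne_zero_of_odd (hodd u hu))]
      exact Complex.re_le_norm _
    exact mul_nonneg (by positivity) (by linarith)
  have hBH := hb G G inferInstance obj (fun u => (1 / (nm u : ℝ)) * (1 - (xi (2 * k) u).re)) t (PC y)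
    (fun u => (CP y).filter (fun w => w ∣ u)) (fun w => 1 / (nm w : ℝ)) (κ * Real.log X)
    (X ^ (-(1 / 40000 : ℝ))) hW (fun i j _ _ hij => PC_disjoint hy1 hij)
    (by
      intro u _
      rw [hun]
      exact Finset.filter_subset _ _)
    (by
      rw [hun]
      intro p hp
      have h5 : (5 : ℝ) ≤ nm p := by exact_mod_cast CP_nm hp
      refine ⟨by positivity, ?_⟩
      rw [div_le_div_iff₀ (by linarith) (by norm_num)]
      linarith)
    (fun i hi => class_sum hC hy1 (hti i hi)) (by positivity) (by positivity)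
    (by
      intro D hD hcard
      have hnm := nm_prod_le hy1 hD hcard
      rw [hyX] at hnm
      rw [hun] at hD
      have hfil : obj.filter (fun u => D ⊆ (CP y).filter (fun w => w ∣ u)) =
          obj.filter (fun u => (∏ w ∈ D, w) ∣ u) := by
        refine Finset.filter_congr fun u _ => ?_
        constructor
        · intro h
          exact prod_dvd_of_sa hD fun w hw => (Finset.mem_filter.mp (h hw)).2
        · intro h w hw
          exact Finset.mem_filter.mpr ⟨hD hw, (Finset.dvd_prod_of_mem (fun w => w) hw).trans h⟩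
      rw [hfil]
      have h1 := hw X hXX1 (∏ w ∈ D, w) (odd_prod_sa hD)
        (hnm.trans (Real.rpow_le_rpow_of_exponent_le hX1 (by norm_num))) k hk hkX
      have h2 : ∏ p ∈ D, 1 / (nm p : ℝ) = 1 / (nm (∏ w ∈ D, w) : ℝ) := by
        rw [nm_prod_sa]
        push_cast
        rw [Finset.prod_div_distrib, Finset.prod_const_one]
      rw [h2, mul_one_div]
      exact h1)
  rw [hun] at hBH
  -- the size of the family
  have hcardF : (((CP y).powerset.filter
      (fun D => ∀ i < t, (D ∩ PC y i).card ≤ 2 * (b + i) + 1)).card : ℝ) ≤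
      9 * X ^ (1 / 100000 : ℝ) := by
    refine le_trans ?_ (card_ball_le (X ^ (1 / 100000 : ℝ)) (by positivity))
    norm_cast
    refine Finset.card_le_card_of_injOn (fun D => ∏ w ∈ D, w) ?_ ?_
    · intro D hD
      have hD' := Finset.mem_filter.mp (Finset.mem_coe.mp hD)
      have hDC := Finset.mem_powerset.mp hD'.1
      have hnm := nm_prod_le hy1 (D := D) (by rw [hun]; exact hDC) hD'.2
      rw [hyX] at hnm
      refine Finset.mem_coe.mpr (Finset.mem_filter.mpr ⟨mem_ball.mpr hnm, ?_⟩)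
      exact ne_zero_of_odd (odd_prod_sa hDC)
    · intro D hD D' hD' h
      have h1 := Finset.mem_powerset.mp (Finset.mem_filter.mp (Finset.mem_coe.mp hD)).1
      have h2 := Finset.mem_powerset.mp (Finset.mem_filter.mp (Finset.mem_coe.mp hD')).1
      exact prod_inj_sa h1 h2 h
  -- the final inequality
  have hsub : ∑ u ∈ obj.filter (fun u => (CP y).filter (fun w => w ∣ u) = ∅),
      (1 / (nm u : ℝ)) * (1 - (xi (2 * k) u).re) ≤
      ∑ u ∈ obj.filter (fun u => ∀ p : G, Prime p → p ∣ u → X ^ a ≤ (nm p : ℝ)),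
      (1 / (nm u : ℝ)) * (1 - (xi (2 * k) u).re) := by
    refine Finset.sum_le_sum_of_subset_of_nonneg ?_ ?_
    · intro u hu
      obtain ⟨hu1, hu2⟩ := Finset.mem_filter.mp hu
      refine Finset.mem_filter.mpr ⟨hu1, fun p hp hpu => ?_⟩
      by_contra hlt
      rw [not_le, ← hy] at hlt
      have hpo : Odd (nm p) := by
        obtain ⟨c, hc⟩ := nm_dvd hpu
        have h1 := hodd u hu1
        rw [hc] at h1
        exact (Nat.odd_mul.mp h1).1
      obtain ⟨w, hwC, hwp⟩ := CP_exists hp hpo hlt.le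
      have : w ∈ (CP y).filter (fun w => w ∣ u) :=
        Finset.mem_filter.mpr ⟨hwC, hwp.dvd.trans hpu⟩
      rw [hu2] at this
      exact absurd this (Finset.notMem_empty _)
    · intro u hu _
      exact hW u (Finset.mem_filter.mp hu).1
  refine le_trans ?_ (hBH.trans hsub)
  have hmain : κ * c3 / (2 * a) ≤
      κ * Real.log X / 2 * ∏ p ∈ CP y, (1 - 1 / (nm p : ℝ)) := by
    have h1 := mul_le_mul_of_nonneg_left (hprod y hy2)
      (by positivity : 0 ≤ κ * Real.log X / 2)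
    refine le_trans (le_of_eq ?_) h1
    rw [hlogy]
    field_simp
  have hE : ((t : ℝ) + 1) * (((CP y).powerset.filter
      (fun D => ∀ i < t, (D ∩ PC y i).card ≤ 2 * (b + i) + 1)).card : ℝ) *
      X ^ (-(1 / 40000 : ℝ)) ≤ κ * c3 / (4 * a) := by
    have htX : (t : ℝ) + 1 ≤ Real.log X + 1 := by
      have : Real.log y ≤ Real.log X := by
        rw [hlogy]
        nlinarith
      linarith
    calc ((t : ℝ) + 1) * (((CP y).powerset.filter
      (fun D => ∀ i < t, (D ∩ PC y i).card ≤ 2 * (b + i) + 1)).card : ℝ) *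
      X ^ (-(1 / 40000 : ℝ)) ≤ (Real.log X + 1) * (9 * X ^ (1 / 100000 : ℝ)) *
        X ^ (-(1 / 40000 : ℝ)) := by
          refine mul_le_mul_of_nonneg_right ?_ (by positivity)
          exact mul_le_mul htX hcardF (Nat.cast_nonneg _) (by positivity)
      _ = (Real.log X + 1) * 9 * X ^ (-(3 / 200000 : ℝ)) := by
          have : X ^ (-(3 / 200000 : ℝ)) = X ^ (1 / 100000 : ℝ) * X ^ (-(1 / 40000 : ℝ)) := by
            rw [← Real.rpow_add hX0]
            norm_num
          rw [this]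
          ring
      _ ≤ κ * c3 / (4 * a) := herr
  have h4 : κ * c3 / (2 * a) = 2 * (κ * c3 / (4 * a)) := by
    field_simp
    ring
  linarith

end Pool.Agent.GaussMR
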