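import Pool.Agent.Lib_MP_f1a94e_mr.Basic

/-!
# Piece ARG: derivatives of the angle along a row
-/

set_option autoImplicit false

namespace Pool.Agent.GaussMR

open scoped ContDiff

/-- For `b > 0`: `arg (x + i b) = π / 2 - arctan (x / b)`, so
`xi j ⟨x, b⟩ = I ^ j * ee (-(j / (2 π)) * arctan (x / b))`. -/
theorem xi_row (j : ℤ) (b : ℕ) (hb : 0 < b) (x : ℤ) :
    xi j ⟨x, b⟩ = Complex.I ^ j * ee (-((j : ℝ) / (2 * Real.pi)) * Real.arctan ((x : ℝ) / b)) := by
  have hb0 : (0 : ℝ) < b := by exact_mod_cast hb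
  set t : ℝ := Real.arctan ((x : ℝ) / b) with ht
  set R : ℝ := Real.sqrt ((x : ℝ) ^ 2 + (b : ℝ) ^ 2) with hR
  have hR0 : 0 < R := Real.sqrt_pos.mpr (by positivity)
  have hR2 : R ^ 2 = (x : ℝ) ^ 2 + (b : ℝ) ^ 2 := Real.sq_sqrt (by positivity)
  have hsq : Real.sqrt (1 + ((x : ℝ) / b) ^ 2) = R / b := by
    rw [hR, show (1 : ℝ) + ((x : ℝ) / b) ^ 2 = ((x : ℝ) ^ 2 + (b : ℝ) ^ 2) / b ^ 2 by
      field_simp
      ring, Real.sqrt_div (by positivity), Real.sqrt_sq hb0.le]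
  have hcos : Real.cos t = b / R := by
    rw [ht, Real.cos_arctan, hsq]
    field_simp
  have hsin : Real.sin t = x / R := by
    rw [ht, Real.sin_arctan, hsq]
    field_simp
  have hdir : dir (⟨x, b⟩ : G) = Complex.I * Complex.exp (((-t : ℝ) : ℂ) * Complex.I) := by
    have hn : ‖((⟨x, b⟩ : G) : ℂ)‖ = R := by
      rw [norm_eq_sqrt, hR]
      congr 1
      have := nm_eq (⟨x, b⟩ : G)
      have h' : ((nm (⟨x, b⟩ : G) : ℤ) : ℝ) = ((x ^ 2 + (b : ℤ) ^ 2 : ℤ) : ℝ) := by rw [this]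
      push_cast at h'
      exact h'
    unfold dir
    rw [hn, toComplex_eq, Complex.exp_mul_I, ← Complex.ofReal_cos, ← Complex.ofReal_sin,
      Real.cos_neg, Real.sin_neg, hcos, hsin]
    have hRc : (R : ℂ) ≠ 0 := by exact_mod_cast hR0.ne'
    push_cast
    field_simp
    have hI : Complex.I ^ 2 = -1 := Complex.I_sq
    linear_combination (x : ℂ) * hI
  unfold xi
  rw [hdir, mul_zpow, ← Complex.exp_int_mul]
  congr 1
  unfold ee
  congr 1
  push_cast
  have hpi : (Real.pi : ℂ) ≠ 0 := by exact_mod_cast Real.pi_ne_zero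
  field_simp

set_option linter.unusedVariables false in
theorem contDiff_row (c b : ℝ) (hb : 0 < b) : ContDiff ℝ ∞ (fun x : ℝ => c * Real.arctan (x / b)) := by
  exact contDiff_const.mul (Real.contDiff_arctan.comp (contDiff_id.div_const b))

theorem row_ne_zero (b : ℝ) (hb : 0 < b) (x : ℝ) : (x : ℂ) + b * Complex.I ≠ 0 := by
  intro h
  have := congrArg Complex.im h
  simp at this
  exact hb.ne' this

theorem row_hasDeriv (q : ℕ) (b : ℝ) (hb : 0 < b) (x : ℝ) :
    HasDerivAt (fun x : ℝ => (((x : ℂ) + b * Complex.I) ^ (-(q : ℤ))).im)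
      (-(q : ℝ) * (((x : ℂ) + b * Complex.I) ^ (-((q + 1 : ℕ) : ℤ))).im) x := by
  have h1 : HasDerivAt (fun z : ℂ => (z + b * Complex.I) ^ (-(q : ℤ)))
      (((-(q : ℤ) : ℤ) : ℂ) * ((x : ℂ) + b * Complex.I) ^ (-(q : ℤ) - 1)) (x : ℂ) := by
    have h2 := hasDerivAt_zpow (-(q : ℤ)) ((x : ℂ) + b * Complex.I) (Or.inl (row_ne_zero b hb x))
    exact h2.comp_add_const (x : ℂ) (b * Complex.I)
  have h3 := h1.comp_ofReal
  have h4 := (Complex.imCLM.hasFDerivAt (x := ((x : ℂ) + b * Complex.I) ^ (-(q : ℤ)))).comp_hasDerivAt x h3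
  have e : Complex.imCLM (((-(q : ℤ) : ℤ) : ℂ) * ((x : ℂ) + b * Complex.I) ^ (-(q : ℤ) - 1)) =
      -(q : ℝ) * (((x : ℂ) + b * Complex.I) ^ (-((q + 1 : ℕ) : ℤ))).im := by
    have e1 : (((-(q : ℤ) : ℤ) : ℂ)) = ((-(q : ℝ) : ℝ) : ℂ) := by push_cast; rfl
    rw [Complex.imCLM_apply, e1, Complex.im_ofReal_mul]
    congr 3
    push_cast
    ring
  rw [← e]
  exact h4

/-- `arctan (x / b)' = b / (x² + b²) = - Im (1 / (x + i b))`, and
`(Im (x + i b)^(-q))' = - q Im (x + i b)^(-q-1)`. -/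
theorem iteratedDeriv_row (q : ℕ) (hq : 1 ≤ q) (c b : ℝ) (hb : 0 < b) (x : ℝ) :
    iteratedDeriv q (fun x : ℝ => c * Real.arctan (x / b)) x =
      c * ((-1) ^ q * (q - 1).factorial * (((x : ℂ) + b * Complex.I) ^ (-(q : ℤ))).im) := by
  have main : ∀ q : ℕ, 1 ≤ q → iteratedDeriv q (fun x : ℝ => c * Real.arctan (x / b)) =
      fun x : ℝ => c * ((-1) ^ q * (q - 1).factorial * (((x : ℂ) + b * Complex.I) ^ (-(q : ℤ))).im) := by
    intro q hq
    induction q, hq using Nat.le_induction with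
    | base =>
      rw [iteratedDeriv_one]
      funext y
      have h1 : HasDerivAt (fun x : ℝ => c * Real.arctan (x / b)) (c * (1 / (1 + (y / b) ^ 2) * (1 / b))) y := by
        have h2 : HasDerivAt (fun x : ℝ => x / b) (1 / b) y := (hasDerivAt_id y).div_const b
        exact (h2.arctan).const_mul c
      rw [h1.deriv]
      congr 1
      have h0 := row_ne_zero b hb y
      have him : (((y : ℂ) + b * Complex.I) ^ (-((1 : ℕ) : ℤ))).im = -b / (y ^ 2 + b ^ 2) := by
        rw [Nat.cast_one, zpow_neg_one, Complex.inv_im]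
        have hns : Complex.normSq ((y : ℂ) + b * Complex.I) = y ^ 2 + b ^ 2 := by
          rw [Complex.normSq_apply]
          simp
          ring
        rw [hns]
        simp
      rw [him]
      have : y ^ 2 + b ^ 2 ≠ 0 := by positivity
      simp
      field_simp
      ring
    | succ q hq ih =>
      rw [iteratedDeriv_succ, ih]
      funext y
      have h1 := ((row_hasDeriv q b hb y).const_mul ((-1) ^ q * ((q - 1).factorial : ℝ))).const_mul c
      rw [h1.deriv]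
      have hf : ((q + 1 - 1).factorial : ℝ) = q * ((q - 1).factorial : ℝ) := by
        obtain ⟨p, rfl⟩ : ∃ p, q = p + 1 := ⟨q - 1, by omega⟩
        simp [Nat.factorial_succ]
      rw [hf, pow_succ]
      ring
  rw [main q hq]

/-- the function `h(x) = Im (x + i b)^(-q)` has derivative at most `q / |x + i b|^(q+1)` -/
theorem row_lip (q : ℕ) (hq : 1 ≤ q) (b : ℝ) (hb : 0 < b) (x y : ℝ) :
    |(((x : ℂ) + b * Complex.I) ^ (-(q : ℤ))).im - (((y : ℂ) + b * Complex.I) ^ (-(q : ℤ))).im| ≤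
      q / b ^ (q + 1) * |x - y| := by
  have hbound : ∀ z ∈ (Set.univ : Set ℝ),
      ‖-(q : ℝ) * (((z : ℂ) + b * Complex.I) ^ (-((q + 1 : ℕ) : ℤ))).im‖ ≤ q / b ^ (q + 1) := by
    intro z _
    rw [norm_mul, norm_neg, Real.norm_natCast, div_eq_mul_inv]
    have h1 : |(((z : ℂ) + b * Complex.I) ^ (-((q + 1 : ℕ) : ℤ))).im| ≤ (b ^ (q + 1))⁻¹ := by
      refine (Complex.abs_im_le_norm _).trans ?_
      rw [zpow_neg, zpow_natCast, norm_inv, norm_pow]
      have h2 : b ≤ ‖(z : ℂ) + b * Complex.I‖ := by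
        have := Complex.abs_im_le_norm ((z : ℂ) + b * Complex.I)
        simp at this
        rwa [abs_of_pos hb] at this
      gcongr
    rw [Real.norm_eq_abs]
    gcongr
  have := Convex.norm_image_sub_le_of_norm_hasDerivWithin_le (f := fun x : ℝ => (((x : ℂ) + b * Complex.I) ^ (-(q : ℤ))).im)
    (f' := fun z => -(q : ℝ) * (((z : ℂ) + b * Complex.I) ^ (-((q + 1 : ℕ) : ℤ))).im)
    (fun z _ => (row_hasDeriv q b hb z).hasDerivWithinAt) hbound convex_univ (Set.mem_univ y) (Set.mem_univ x)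
  simpa [Real.norm_eq_abs] using this

end Pool.Agent.GaussMR
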