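import Pool.Agent.Lib_MP_f1a94e_mr.DT
import Pool.Agent.Lib_MP_f1a94e_mr.ArgDeriv

/-!
# Piece BLOCK: a short block of a row containing a good point
-/

set_option autoImplicit false

namespace Pool.Agent.GaussMR

theorem block_conj_ee (t : ℝ) : (starRingEnd ℂ) (ee t) = ee (-t) := by
  unfold ee
  rw [← Complex.exp_conj]
  congr 1
  simp only [map_mul, Complex.conj_ofReal, Complex.conj_I, map_ofNat]
  push_cast
  ring

theorem block_sign (s : Finset ℤ) (A : ℤ → ℝ) (c σ : ℝ) (hσ : σ = 1 ∨ σ = -1) :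
    ‖∑ x ∈ s, ee (-c * A x)‖ = ‖∑ x ∈ s, ee ((σ * |c|) * A x)‖ := by
  have h : σ * |c| = -c ∨ σ * |c| = c := by
    rcases hσ with rfl | rfl <;> rcases abs_choice c with h | h <;> rw [h] <;> simp
  rcases h with h | h
  · rw [h]
  · rw [h, ← Complex.norm_conj, map_sum]
    congr 1
    apply Finset.sum_congr rfl
    intro x _
    rw [block_conj_ee]
    congr 1
    ring

private theorem block_normsq {r : ℝ} {b : ℕ} {x0 x1 y : ℤ}
    (hx0 : (x0 : ℝ) ^ 2 + (b : ℝ) ^ 2 ≤ r ^ 2) (hx1 : (x1 : ℝ) ^ 2 + (b : ℝ) ^ 2 ≤ r ^ 2)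
    (g1 : (x0 : ℝ) ≤ y) (g2 : (y : ℝ) ≤ x1) : ‖(y : ℂ) + b * Complex.I‖ ^ 2 ≤ r ^ 2 := by
  have e : ‖(y : ℂ) + b * Complex.I‖ ^ 2 = (y : ℝ) ^ 2 + (b : ℝ) ^ 2 := by
    rw [← Complex.normSq_eq_norm_sq, Complex.normSq_apply]
    simp only [Complex.add_re, Complex.intCast_re, Complex.mul_re, Complex.natCast_re,
      Complex.I_re, Complex.natCast_im, Complex.I_im, Complex.add_im, Complex.intCast_im,
      Complex.mul_im]
    ring
  rw [e]
  rcases le_total 0 (y : ℝ) with g3 | g3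
  · have h := pow_le_pow_left₀ g3 g2 2
    linarith only [h, hx1]
  · have h := pow_le_pow_left₀ (neg_nonneg.2 g3) (neg_le_neg g1) 2
    rw [neg_sq, neg_sq] at h
    linarith only [h, hx0]

/-- Put `κ = r^(-1/1000)`, `L = r^(1 - 1/125)` (`= κ^8 r`), `h(x) = Im (x + i b)^(-q)`. At the good point
`|h(y)| ≥ κ / |y + i b|^q`. On the block `|h(x) - h(y)| ≤ L q / b^(q+1) ≤ |h(y)| / 2` by `row_lip`, since
`b ≥ κ r`, `|y + i b| ≤ r` (for `r` large; small `r` are absorbed in `C`). So `h` has constant sign and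
`κ / (2 r^q) ≤ |h| ≤ 1 / (κ r)^q` on the block. Apply `dt_all` to
`f(x) = ∓ (j / (2π)) arctan (x / b)` (sign chosen so that the `q`-th derivative is positive; conjugate the
sum if necessary) with `lam = (|j| / 2π) (q-1)! κ / (2 r^q)`, `Lam = (|j| / 2π) (q-1)! / (κ r)^q`:
`Lam / lam = 2 κ^(-q-1) ≤ L^(1/100)`, `lam ≥ L^(-7/4)` as `|j| ≥ r^(q - 17/10)`,
`Lam ≤ L^(-2^q/64)` as `|j| ≤ r^(q - 2^q/64 - 1/100)`. -/
theorem block : ∃ C : ℝ, 0 < C ∧ ∀ (q : ℕ), 2 ≤ q → q ≤ 5 → ∀ (r : ℝ) (j : ℤ) (b : ℕ) (x0 x1 y : ℤ),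
    1 ≤ r → r ^ ((q : ℝ) - 17 / 10) ≤ |(j : ℝ)| → |(j : ℝ)| ≤ r ^ ((q : ℝ) - 2 ^ q / 64 - 1 / 100) →
    r ^ (1 - 1 / 1000 : ℝ) ≤ b → x0 ≤ x1 → (x1 : ℝ) - x0 ≤ r ^ (1 - 1 / 125 : ℝ) →
    (x0 : ℝ) ^ 2 + (b : ℝ) ^ 2 ≤ r ^ 2 → (x1 : ℝ) ^ 2 + (b : ℝ) ^ 2 ≤ r ^ 2 →
    x0 ≤ y → y ≤ x1 →
    r ^ (-(1 / 1000 : ℝ)) ≤ |(((y : ℂ) + b * Complex.I) ^ (-(q : ℤ))).im| *
      ‖(y : ℂ) + b * Complex.I‖ ^ q →
    ‖∑ x ∈ Finset.Icc x0 x1, xi j ⟨x, b⟩‖ ≤ C * r ^ (1 - 1 / 125 - 1 / 500 : ℝ) := by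
  obtain ⟨C0, hC0, hdt⟩ := dt_all
  obtain ⟨R0, hR01, hRpow⟩ : ∃ R0 : ℝ, 1 ≤ R0 ∧ R0 ^ (1 / 1000 : ℝ) = 10 := by
    refine ⟨10 ^ (1000 : ℝ), Real.one_le_rpow (by norm_num) (by norm_num), ?_⟩
    rw [← Real.rpow_mul (by norm_num)]
    norm_num
  refine ⟨C0 + 2 * R0, by positivity, ?_⟩
  intro q hq hq' r j b x0 x1 y hr hj1 hj2 hb hx hL hx0 hx1 hy0 hy1 hgood
  have hr0 : 0 < r := by linarith
  have hbR : (0 : ℝ) < b := lt_of_lt_of_le (Real.rpow_pos_of_pos hr0 _) hb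
  have hb0 : 0 < b := by exact_mod_cast hbR
  have hxx : (x0 : ℝ) ≤ x1 := by exact_mod_cast hx
  have hone : ∀ e : ℝ, 0 ≤ e → 1 ≤ r ^ e := fun e he => Real.one_le_rpow hr he
  have hpos : ∀ e : ℝ, 0 < r ^ e := fun e => Real.rpow_pos_of_pos hr0 e
  by_cases hbig : R0 ≤ r
  · -- the main case
    have h10 : 10 ≤ r ^ (1 / 1000 : ℝ) := by
      rw [← hRpow]
      exact Real.rpow_le_rpow (by linarith) hbig (by norm_num)
    have hge : ∀ e : ℝ, 1 / 1000 ≤ e → 10 ≤ r ^ e := fun e he =>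
      h10.trans (Real.rpow_le_rpow_of_exponent_le hr he)
    have hge2 : ∀ e : ℝ, 1 / 500 ≤ e → 100 ≤ r ^ e := by
      intro e he
      have h1 : r ^ (1 / 500 : ℝ) = r ^ (1 / 1000 : ℝ) * r ^ (1 / 1000 : ℝ) := by
        rw [← Real.rpow_add hr0]
        norm_num
      have h2 : 100 ≤ r ^ (1 / 500 : ℝ) := by
        rw [h1]
        calc (100 : ℝ) = 10 * 10 := by norm_num
          _ ≤ r ^ (1 / 1000 : ℝ) * r ^ (1 / 1000 : ℝ) := mul_self_le_mul_self (by norm_num) h10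
      exact h2.trans (Real.rpow_le_rpow_of_exponent_le hr he)
    set h : ℝ → ℝ := fun x => (((x : ℂ) + b * Complex.I) ^ (-(q : ℤ))).im with hh
    set c : ℝ := (j : ℝ) / (2 * Real.pi) with hc
    have hqR : (q : ℝ) ≤ 5 := by exact_mod_cast hq'
    have hqR2 : (2 : ℝ) ≤ q := by exact_mod_cast hq
    have hyb : ‖(y : ℂ) + b * Complex.I‖ ≤ r := by
      have hsq : ‖(y : ℂ) + b * Complex.I‖ ^ 2 ≤ r ^ 2 := by
        have g1 : (x0 : ℝ) ≤ y := by exact_mod_cast hy0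
        have g2 : (y : ℝ) ≤ x1 := by exact_mod_cast hy1
        exact block_normsq hx0 hx1 g1 g2
      exact le_of_sq_le_sq hsq hr0.le
    have hnb : ∀ x : ℝ, (b : ℝ) ≤ ‖(x : ℂ) + b * Complex.I‖ := by
      intro x
      have := Complex.abs_im_le_norm ((x : ℂ) + b * Complex.I)
      simp at this
      exact this
    -- lower bound at the good point
    have hyc : ((y : ℝ) : ℂ) = (y : ℂ) := by push_cast; rfl
    have hhy : r ^ (-(1 / 1000 : ℝ)) * r ^ (-(q : ℝ)) ≤ |h y| := by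
      have h1 : 0 < ‖(y : ℂ) + b * Complex.I‖ := by
        have := hnb y
        rw [hyc] at this
        exact lt_of_lt_of_le hbR this
      have h2 : ‖(y : ℂ) + b * Complex.I‖ ^ q ≤ r ^ q := pow_le_pow_left₀ (norm_nonneg _) hyb q
      have h3 : r ^ (-(1 / 1000 : ℝ)) ≤ |h y| * r ^ q := by
        refine hgood.trans ?_
        rw [hh]
        simp only
        rw [hyc]
        exact mul_le_mul_of_nonneg_left h2 (abs_nonneg _)
      rw [Real.rpow_neg hr0.le (q : ℝ), Real.rpow_natCast, ← div_eq_mul_inv,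
        div_le_iff₀ (by positivity)]
      exact h3
    -- variation on the block
    have hvar : ∀ x : ℝ, (x0 : ℝ) ≤ x → x ≤ x1 → |h x - h y| ≤ |h y| / 2 := by
      intro x hxa hxb
      have g1 : (x0 : ℝ) ≤ y := by exact_mod_cast hy0
      have g2 : (y : ℝ) ≤ x1 := by exact_mod_cast hy1
      have h1 : |h x - h y| ≤ q / (b : ℝ) ^ (q + 1) * |x - y| := by
        have h0 := row_lip q (by omega) b hbR x y
        have hbc : (((b : ℕ) : ℝ) : ℂ) = ((b : ℕ) : ℂ) := by push_cast; rfl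
        rw [hbc] at h0
        exact h0
      have h2 : |x - (y : ℝ)| ≤ r ^ (1 - 1 / 125 : ℝ) := by
        rw [abs_le]
        constructor <;> linarith only [hxa, hxb, g1, g2, hL]
      have h3 : (r ^ (1 - 1 / 1000 : ℝ)) ^ (q + 1) ≤ (b : ℝ) ^ (q + 1) := by
        exact pow_le_pow_left₀ (hpos _).le hb (q + 1)
      have h4 : (r ^ (1 - 1 / 1000 : ℝ)) ^ (q + 1) = r ^ ((999 / 1000 : ℝ) * ((q : ℝ) + 1)) := by
        rw [← Real.rpow_natCast, ← Real.rpow_mul hr0.le]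
        push_cast
        norm_num
      have h5 : (q : ℝ) / (b : ℝ) ^ (q + 1) * |x - (y : ℝ)| ≤
          q / r ^ ((999 / 1000 : ℝ) * ((q : ℝ) + 1)) * r ^ (1 - 1 / 125 : ℝ) := by
        rw [← h4]
        exact mul_le_mul (div_le_div_of_nonneg_left (Nat.cast_nonneg q) (pow_pos (hpos _) _) h3) h2
          (abs_nonneg _) (div_nonneg (Nat.cast_nonneg q) (pow_pos (hpos _) _).le)
      have h6 : q / r ^ ((999 / 1000 : ℝ) * ((q : ℝ) + 1)) * r ^ (1 - 1 / 125 : ℝ) ≤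
          (r ^ (-(1 / 1000 : ℝ)) * r ^ (-(q : ℝ))) / 2 := by
        rw [div_mul_eq_mul_div, div_le_iff₀ (hpos _)]
        have e1 : (r ^ (-(1 / 1000 : ℝ)) * r ^ (-(q : ℝ))) / 2 * r ^ ((999 / 1000 : ℝ) * ((q : ℝ) + 1)) =
            r ^ ((6 - (q : ℝ)) / 1000) / 2 * r ^ (1 - 1 / 125 : ℝ) := by
          have : r ^ (-(1 / 1000 : ℝ)) * r ^ (-(q : ℝ)) * r ^ ((999 / 1000 : ℝ) * ((q : ℝ) + 1)) =
              r ^ ((6 - (q : ℝ)) / 1000) * r ^ (1 - 1 / 125 : ℝ) := by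
            rw [← Real.rpow_add hr0, ← Real.rpow_add hr0, ← Real.rpow_add hr0]
            congr 1
            ring
          linear_combination this / 2
        rw [e1]
        have e2 : 10 ≤ r ^ ((6 - (q : ℝ)) / 1000) := hge _ (by linarith only [hqR])
        have e3 := (hpos (1 - 1 / 125 : ℝ)).le
        exact mul_le_mul_of_nonneg_right (by linarith only [e2, hqR]) e3
      linarith only [h1, h5, h6, hhy]
    -- the sign
    obtain ⟨σ, hσ, hσ'⟩ : ∃ σ : ℝ, (σ = 1 ∨ σ = -1) ∧ σ * (-1) ^ q * h y = |h y| := by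
      rcases neg_one_pow_eq_or ℝ q with hq1 | hq1 <;> rcases abs_choice (h y) with hy2 | hy2
      · exact ⟨1, Or.inl rfl, by rw [hq1, hy2]; ring⟩
      · exact ⟨-1, Or.inr rfl, by rw [hq1, hy2]; ring⟩
      · exact ⟨-1, Or.inr rfl, by rw [hq1, hy2]; ring⟩
      · exact ⟨1, Or.inl rfl, by rw [hq1, hy2]; ring⟩
    have hw : |σ * (-1) ^ q| = 1 := by
      rw [abs_mul, abs_pow, abs_neg, abs_one, one_pow, mul_one]
      rcases hσ with rfl | rfl <;> simp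
    have hlow : ∀ x : ℝ, (x0 : ℝ) ≤ x → x ≤ x1 →
        (r ^ (-(1 / 1000 : ℝ)) * r ^ (-(q : ℝ))) / 2 ≤ σ * (-1) ^ q * h x := by
      intro x hxa hxb
      have h1 := hvar x hxa hxb
      have h2 : |σ * (-1) ^ q * (h x - h y)| ≤ |h y| / 2 := by
        rw [abs_mul, hw, one_mul]
        exact h1
      have h3 := (abs_le.mp h2).1
      have h4 : σ * (-1) ^ q * h x = |h y| + σ * (-1) ^ q * (h x - h y) := by
        rw [← hσ']
        ring
      rw [h4]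
      linarith only [h3, hhy]
    have hup : ∀ x : ℝ, σ * (-1) ^ q * h x ≤ r ^ (-(q : ℝ) + (q : ℝ) / 1000) := by
      intro x
      have h1 : σ * (-1) ^ q * h x ≤ |h x| := by
        refine (le_abs_self _).trans ?_
        rw [abs_mul, hw, one_mul]
      have h2 : |h x| ≤ ((b : ℝ) ^ q)⁻¹ := by
        rw [hh]
        refine (Complex.abs_im_le_norm _).trans ?_
        rw [zpow_neg, zpow_natCast, norm_inv, norm_pow]
        exact inv_anti₀ (pow_pos hbR q) (pow_le_pow_left₀ hbR.le (hnb x) q)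
      have h3 : ((b : ℝ) ^ q)⁻¹ ≤ ((r ^ (1 - 1 / 1000 : ℝ)) ^ q)⁻¹ := by
        exact inv_anti₀ (pow_pos (hpos _) q) (pow_le_pow_left₀ (hpos _).le hb q)
      have h4 : ((r ^ (1 - 1 / 1000 : ℝ)) ^ q)⁻¹ = r ^ (-(q : ℝ) + (q : ℝ) / 1000) := by
        rw [← Real.rpow_natCast, ← Real.rpow_mul hr0.le, ← Real.rpow_neg hr0.le]
        congr 1
        ring
      linarith only [h1, h2, h3, h4]
    -- rewrite the sum
    have hsum : ‖∑ x ∈ Finset.Icc x0 x1, xi j ⟨x, b⟩‖ =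
        ‖∑ x ∈ Finset.Icc x0 x1, ee ((fun t : ℝ => (σ * |c|) * Real.arctan (t / b)) x)‖ := by
      rw [Finset.sum_congr rfl (fun x _ => xi_row j b hb0 x), ← Finset.mul_sum, norm_mul, norm_zpow,
        Complex.norm_I, one_zpow, one_mul]
      exact block_sign (Finset.Icc x0 x1) (fun x : ℤ => Real.arctan ((x : ℝ) / b)) c σ hσ
    rw [hsum]
    set L : ℝ := r ^ (1 - 1 / 125 : ℝ) with hLdef
    have hLe : ∀ e : ℝ, L ^ e = r ^ ((124 / 125 : ℝ) * e) := by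
      intro e
      rw [hLdef, ← Real.rpow_mul hr0.le]
      norm_num
    have hL1 : 1 ≤ L := hone _ (by norm_num)
    have hpi1 : 3 < Real.pi := Real.pi_gt_three
    have hpi2 : Real.pi < 4 := Real.pi_lt_four
    have hcabs : |c| = |(j : ℝ)| / (2 * Real.pi) := by
      rw [hc, abs_div, abs_of_pos (show (0 : ℝ) < 2 * Real.pi by positivity)]
    have hfac1 : (1 : ℝ) ≤ ((q - 1).factorial : ℝ) := by
      exact_mod_cast Nat.factorial_pos _
    have hfac2 : ((q - 1).factorial : ℝ) ≤ 24 := by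
      have : (q - 1).factorial ≤ (4).factorial := Nat.factorial_le (by omega)
      calc ((q - 1).factorial : ℝ) ≤ ((4).factorial : ℝ) := by exact_mod_cast this
        _ = 24 := by norm_num [Nat.factorial]
    set K : ℝ := |c| * ((q - 1).factorial : ℝ) with hK
    have hK0 : 0 < K := by
      rw [hK, hcabs]
      have : 0 < |(j : ℝ)| := lt_of_lt_of_le (hpos _) hj1
      positivity
    have hKlow : r ^ ((q : ℝ) - 17 / 10) / 8 ≤ K := by
      rw [hK, hcabs]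
      exact (div_le_div₀ (abs_nonneg _) hj1 (mul_pos two_pos Real.pi_pos)
        (by linarith only [hpi2])).trans (le_mul_of_one_le_right
          (div_nonneg (abs_nonneg _) (mul_pos two_pos Real.pi_pos).le) hfac1)
    have hKup : K ≤ 4 * r ^ ((q : ℝ) - 2 ^ q / 64 - 1 / 100) := by
      rw [hK, hcabs]
      calc |(j : ℝ)| / (2 * Real.pi) * ((q - 1).factorial : ℝ)
          ≤ r ^ ((q : ℝ) - 2 ^ q / 64 - 1 / 100) / (2 * 3) * 24 :=
            mul_le_mul (div_le_div₀ (hpos _).le hj2 (by norm_num) (by linarith only [hpi1])) hfac2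
              (zero_le_one.trans hfac1) (div_nonneg (hpos _).le (by norm_num))
        _ = 4 * r ^ ((q : ℝ) - 2 ^ q / 64 - 1 / 100) := by ring
    have hres := hdt q hq hq' (fun t : ℝ => (σ * |c|) * Real.arctan (t / b))
      (contDiff_row (σ * |c|) b hbR) x0 x1 L (K * ((r ^ (-(1 / 1000 : ℝ)) * r ^ (-(q : ℝ))) / 2))
      (K * r ^ (-(q : ℝ) + (q : ℝ) / 1000)) hx hL1 hL ?_ ?_ ?_ ?_ ?_
    · refine hres.trans ?_
      rw [hLe]
      have h1 : r ^ ((124 / 125 : ℝ) * (1 - 1 / 400)) ≤ r ^ (1 - 1 / 125 - 1 / 500 : ℝ) :=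
        Real.rpow_le_rpow_of_exponent_le hr (by norm_num)
      have h2 := (hpos (1 - 1 / 125 - 1 / 500 : ℝ)).le
      have h3 : C0 ≤ C0 + 2 * R0 := by linarith only [hR01]
      exact (mul_le_mul_of_nonneg_left h1 hC0.le).trans (mul_le_mul_of_nonneg_right h3 h2)
    · -- `L ^ (-7/4) ≤ lam`
      rw [hLe]
      have h1 : r ^ ((q : ℝ) - 17 / 10) / 8 * ((r ^ (-(1 / 1000 : ℝ)) * r ^ (-(q : ℝ))) / 2) ≤
          K * ((r ^ (-(1 / 1000 : ℝ)) * r ^ (-(q : ℝ))) / 2) :=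
        mul_le_mul_of_nonneg_right hKlow
          (div_nonneg (mul_nonneg (hpos _).le (hpos _).le) zero_le_two)
      refine le_trans ?_ h1
      have h2 : r ^ ((q : ℝ) - 17 / 10) / 8 * ((r ^ (-(1 / 1000 : ℝ)) * r ^ (-(q : ℝ))) / 2) =
          r ^ ((124 / 125 : ℝ) * -(7 / 4)) * r ^ (35 / 1000 : ℝ) / 16 := by
        have : r ^ ((q : ℝ) - 17 / 10) * (r ^ (-(1 / 1000 : ℝ)) * r ^ (-(q : ℝ))) =
            r ^ ((124 / 125 : ℝ) * -(7 / 4)) * r ^ (35 / 1000 : ℝ) := by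
          rw [← Real.rpow_add hr0, ← Real.rpow_add hr0, ← Real.rpow_add hr0]
          congr 1
          ring
        linear_combination this / 16
      rw [h2]
      have h3 := hge2 (35 / 1000 : ℝ) (by norm_num)
      have h4 := hpos ((124 / 125 : ℝ) * -(7 / 4))
      rw [le_div_iff₀ (by norm_num)]
      exact mul_le_mul_of_nonneg_left (by linarith only [h3]) h4.le
    · -- `lam ≤ Lam`
      have h1 : (r ^ (-(1 / 1000 : ℝ)) * r ^ (-(q : ℝ))) / 2 ≤ r ^ (-(q : ℝ) + (q : ℝ) / 1000) := by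
        rw [← Real.rpow_add hr0]
        have h2 : r ^ (-(1 / 1000 : ℝ) + -(q : ℝ)) ≤ r ^ (-(q : ℝ) + (q : ℝ) / 1000) :=
          Real.rpow_le_rpow_of_exponent_le hr (by linarith only [hqR2])
        have h3 := hpos (-(1 / 1000 : ℝ) + -(q : ℝ))
        linarith only [h2, h3]
      exact mul_le_mul_of_nonneg_left h1 hK0.le
    · -- `Lam ≤ L ^ (-β)`
      rw [hLe]
      have h1 : K * r ^ (-(q : ℝ) + (q : ℝ) / 1000) ≤
          4 * r ^ ((q : ℝ) - 2 ^ q / 64 - 1 / 100) * r ^ (-(q : ℝ) + (q : ℝ) / 1000) :=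
        mul_le_mul_of_nonneg_right hKup (hpos _).le
      refine h1.trans ?_
      have hβ : (0 : ℝ) ≤ (2 : ℝ) ^ q / 64 := by positivity
      have h2 : r ^ ((124 / 125 : ℝ) * -((2 : ℝ) ^ q / 64)) =
          r ^ ((q : ℝ) - 2 ^ q / 64 - 1 / 100) * r ^ (-(q : ℝ) + (q : ℝ) / 1000) *
            r ^ ((10 - (q : ℝ)) / 1000 + (2 : ℝ) ^ q / 64 / 125) := by
        rw [← Real.rpow_add hr0, ← Real.rpow_add hr0]
        congr 1
        ring
      rw [h2]
      have h3 : 100 ≤ r ^ ((10 - (q : ℝ)) / 1000 + (2 : ℝ) ^ q / 64 / 125) := by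
        apply hge2
        have : (0 : ℝ) ≤ (2 : ℝ) ^ q / 64 / 125 := by positivity
        linarith only [this, hqR]
      have h4 := hpos ((q : ℝ) - 2 ^ q / 64 - 1 / 100)
      have h5 := hpos (-(q : ℝ) + (q : ℝ) / 1000)
      calc 4 * r ^ ((q : ℝ) - 2 ^ q / 64 - 1 / 100) * r ^ (-(q : ℝ) + (q : ℝ) / 1000) =
            r ^ ((q : ℝ) - 2 ^ q / 64 - 1 / 100) * r ^ (-(q : ℝ) + (q : ℝ) / 1000) * 4 := by ring
        _ ≤ _ := mul_le_mul_of_nonneg_left (by linarith only [h3]) (mul_nonneg h4.le h5.le)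
    · -- `Lam ≤ lam * L ^ (1/100)`
      rw [hLe, mul_assoc K]
      have h1 : r ^ (-(q : ℝ) + (q : ℝ) / 1000) ≤
          r ^ (-(1 / 1000 : ℝ)) * r ^ (-(q : ℝ)) / 2 * r ^ ((124 / 125 : ℝ) * (1 / 100)) := by
        have h2 : r ^ (-(1 / 1000 : ℝ)) * r ^ (-(q : ℝ)) / 2 * r ^ ((124 / 125 : ℝ) * (1 / 100)) =
            r ^ (-(q : ℝ) + (q : ℝ) / 1000) * r ^ ((892 / 100 - (q : ℝ)) / 1000) / 2 := by
          have : r ^ (-(1 / 1000 : ℝ)) * r ^ (-(q : ℝ)) * r ^ ((124 / 125 : ℝ) * (1 / 100)) =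
              r ^ (-(q : ℝ) + (q : ℝ) / 1000) * r ^ ((892 / 100 - (q : ℝ)) / 1000) := by
            rw [← Real.rpow_add hr0, ← Real.rpow_add hr0, ← Real.rpow_add hr0]
            congr 1
            ring
          linear_combination this / 2
        rw [h2]
        have h3 := hge2 ((892 / 100 - (q : ℝ)) / 1000) (by linarith only [hqR])
        have h4 := hpos (-(q : ℝ) + (q : ℝ) / 1000)
        rw [le_div_iff₀ (by norm_num)]
        exact mul_le_mul_of_nonneg_left (by linarith only [h3]) h4.le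
      exact mul_le_mul_of_nonneg_left h1 hK0.le
    · -- the derivative
      intro x hxm
      rw [iteratedDeriv_row q (by omega) (σ * |c|) b hbR x]
      have h1 := hlow x hxm.1 hxm.2
      have h2 := hup x
      have h3 : σ * |c| * ((-1) ^ q * ((q - 1).factorial : ℝ) *
          (((x : ℂ) + b * Complex.I) ^ (-(q : ℤ))).im) = K * (σ * (-1) ^ q * h x) := by
        rw [hK, hh]
        ring
      have h4 : (((b : ℕ) : ℝ) : ℂ) = ((b : ℕ) : ℂ) := by push_cast; rfl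
      rw [h4, h3]
      exact ⟨mul_le_mul_of_nonneg_left h1 hK0.le, mul_le_mul_of_nonneg_left h2 hK0.le⟩
  · -- small `r`
    push Not at hbig
    have hcard : ‖∑ x ∈ Finset.Icc x0 x1, xi j ⟨x, b⟩‖ ≤ (x1 : ℝ) - x0 + 1 := by
      refine (norm_sum_le _ _).trans ?_
      have hne : ∀ x : ℤ, (⟨x, b⟩ : G) ≠ 0 := by
        intro x h0
        have := congrArg Zsqrtd.im h0
        simp at this
        omega
      rw [Finset.sum_congr rfl (fun (x : ℤ) _ => norm_xi j (hne x))]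
      rw [Finset.sum_const, Int.card_Icc, nsmul_eq_mul, mul_one]
      have h1 : ((x1 + 1 - x0).toNat : ℤ) = x1 + 1 - x0 := Int.toNat_of_nonneg (by omega)
      have h' : (((x1 + 1 - x0).toNat : ℤ) : ℝ) = ((x1 + 1 - x0 : ℤ) : ℝ) := by rw [h1]
      push_cast at h'
      linarith only [h']
    have h1 : r ^ (1 - 1 / 125 : ℝ) ≤ r := by
      nth_rewrite 2 [← Real.rpow_one r]
      exact Real.rpow_le_rpow_of_exponent_le hr (by norm_num)
    have h2 := hone (1 - 1 / 125 - 1 / 500 : ℝ) (by norm_num)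
    have h3 : ‖∑ x ∈ Finset.Icc x0 x1, xi j ⟨x, b⟩‖ ≤ 2 * R0 := by
      linarith only [hcard, hL, h1, hbig, hR01]
    calc ‖∑ x ∈ Finset.Icc x0 x1, xi j ⟨x, b⟩‖ ≤ 2 * R0 := h3
      _ ≤ C0 + 2 * R0 := by linarith only [hC0]
      _ = (C0 + 2 * R0) * 1 := (mul_one _).symm
      _ ≤ (C0 + 2 * R0) * r ^ (1 - 1 / 125 - 1 / 500 : ℝ) :=
          mul_le_mul_of_nonneg_left h2 (by linarith only [hC0, hR01])

end Pool.Agent.GaussMR
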