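import Pool.Agent.Lib_MP_f1a94e_mr.Defs

/-!
# Piece FEJER: the Fejer kernel
-/

set_option autoImplicit false

namespace Pool.Agent.GaussMR

/-- the Fejer kernel -/
noncomputable def fej (M : ℕ) (u : ℂ) : ℝ := ‖∑ m ∈ Finset.range M, u ^ m‖ ^ 2 / M

theorem fej_nonneg (M : ℕ) (u : ℂ) : 0 ≤ fej M u := by unfold fej; positivity

/-- the number of pairs of exponents below `M` with difference `k` -/
theorem card_diff (M : ℕ) (k : ℤ) (hk : k ∈ fr M) :
    (((Finset.range M ×ˢ Finset.range M).filter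
      (fun q : ℕ × ℕ => (q.1 : ℤ) - (q.2 : ℤ) = k)).card : ℤ) = M - |k| := by
  have hk' : -(M : ℤ) ≤ k ∧ k ≤ M := by simpa [fr] using hk
  rcases le_total 0 k with h0 | h0
  · -- `q.2` ranges over `[0, M - k)`
    have h1 : ((Finset.range M ×ˢ Finset.range M).filter
        (fun q : ℕ × ℕ => (q.1 : ℤ) - (q.2 : ℤ) = k)) =
        (Finset.range (M - k.toNat)).image (fun j => (j + k.toNat, j)) := by
      ext ⟨a, b⟩
      simp only [Finset.mem_filter, Finset.mem_product, Finset.mem_range, Finset.mem_image,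
        Prod.mk.injEq]
      constructor
      · rintro ⟨⟨ha, hb⟩, hab⟩
        refine ⟨b, by omega, by omega, rfl⟩
      · rintro ⟨j, hj, hj1, hj2⟩
        subst hj2
        refine ⟨⟨by omega, by omega⟩, by omega⟩
    rw [h1, Finset.card_image_of_injective _ (fun a b h => (Prod.mk.inj h).2), Finset.card_range,
      abs_of_nonneg h0]
    omega
  · have h1 : ((Finset.range M ×ˢ Finset.range M).filter
        (fun q : ℕ × ℕ => (q.1 : ℤ) - (q.2 : ℤ) = k)) =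
        (Finset.range (M - (-k).toNat)).image (fun j => (j, j + (-k).toNat)) := by
      ext ⟨a, b⟩
      simp only [Finset.mem_filter, Finset.mem_product, Finset.mem_range, Finset.mem_image,
        Prod.mk.injEq]
      constructor
      · rintro ⟨⟨ha, hb⟩, hab⟩
        refine ⟨a, by omega, rfl, by omega⟩
      · rintro ⟨j, hj, hj1, hj2⟩
        subst hj1
        refine ⟨⟨by omega, by omega⟩, by omega⟩
    rw [h1, Finset.card_image_of_injective _ (fun a b h => (Prod.mk.inj h).1), Finset.card_range,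
      abs_of_nonpos h0]
    omega

/-- `(1 / M) |∑_{m < M} u ^ m| ^ 2 = ∑_{|k| ≤ M} (1 - |k| / M) u ^ k` for `|u| = 1` -/
theorem fej_eq (M : ℕ) (hM : 1 ≤ M) (u : ℂ) (hu : ‖u‖ = 1) :
    ((fej M u : ℝ) : ℂ) = ∑ k ∈ fr M, ((1 - |(k : ℝ)| / M : ℝ) : ℂ) * u ^ k := by
  have hu0 : u ≠ 0 := by
    intro h
    rw [h, norm_zero] at hu
    exact zero_ne_one hu
  have hM0 : (M : ℂ) ≠ 0 := by exact_mod_cast (by omega : M ≠ 0)
  have hconj : (starRingEnd ℂ) u = u⁻¹ := by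
    rw [Complex.inv_def, Complex.normSq_eq_norm_sq, hu]
    simp
  have h1 : ((‖∑ m ∈ Finset.range M, u ^ m‖ ^ 2 : ℝ) : ℂ) =
      ∑ q ∈ Finset.range M ×ˢ Finset.range M, u ^ ((q.1 : ℤ) - (q.2 : ℤ)) := by
    rw [← Complex.normSq_eq_norm_sq, ← Complex.mul_conj, map_sum, Finset.sum_mul_sum,
      Finset.sum_product]
    refine Finset.sum_congr rfl fun a _ => Finset.sum_congr rfl fun b _ => ?_
    rw [map_pow, hconj, zpow_sub₀ hu0, zpow_natCast, zpow_natCast, inv_pow, div_eq_mul_inv]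
  have h2 : ∑ q ∈ Finset.range M ×ˢ Finset.range M, u ^ ((q.1 : ℤ) - (q.2 : ℤ)) =
      ∑ k ∈ fr M, ∑ q ∈ (Finset.range M ×ˢ Finset.range M).filter
        (fun q : ℕ × ℕ => (q.1 : ℤ) - (q.2 : ℤ) = k), u ^ ((q.1 : ℤ) - (q.2 : ℤ)) := by
    refine (Finset.sum_fiberwise_of_maps_to ?_ _).symm
    intro q hq
    simp only [Finset.mem_product, Finset.mem_range] at hq
    simp only [fr, Finset.mem_Icc]
    omega
  unfold fej
  rw [Complex.ofReal_div, h1, h2, Finset.sum_div]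
  refine Finset.sum_congr rfl fun k hk => ?_
  have h3 : ∑ q ∈ (Finset.range M ×ˢ Finset.range M).filter
      (fun q : ℕ × ℕ => (q.1 : ℤ) - (q.2 : ℤ) = k), u ^ ((q.1 : ℤ) - (q.2 : ℤ)) =
      ∑ q ∈ (Finset.range M ×ˢ Finset.range M).filter
      (fun q : ℕ × ℕ => (q.1 : ℤ) - (q.2 : ℤ) = k), u ^ k := by
    refine Finset.sum_congr rfl fun q hq => ?_
    rw [(Finset.mem_filter.1 hq).2]
  have h4 := card_diff M k hk
  have h5 : (((Finset.range M ×ˢ Finset.range M).filter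
      (fun q : ℕ × ℕ => (q.1 : ℤ) - (q.2 : ℤ) = k)).card : ℂ) = ((M - |(k : ℝ)| : ℝ) : ℂ) := by
    have h6 : ((((Finset.range M ×ˢ Finset.range M).filter
      (fun q : ℕ × ℕ => (q.1 : ℤ) - (q.2 : ℤ) = k)).card : ℤ) : ℝ) = ((M - |k| : ℤ) : ℝ) := by
      rw [h4]
    push_cast at h6
    rw [← Complex.ofReal_natCast, h6]
  rw [h3, Finset.sum_const, nsmul_eq_mul, h5]
  push_cast
  field_simp

theorem fej_le (M : ℕ) (hM : 1 ≤ M) (u : ℂ) (hu : ‖u‖ = 1) : fej M u ≤ M := by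
  have hM0 : (0 : ℝ) < M := by exact_mod_cast hM
  unfold fej
  rw [div_le_iff₀ hM0, ← sq]
  have h1 : ‖∑ m ∈ Finset.range M, u ^ m‖ ≤ M := by
    refine (norm_sum_le _ _).trans ?_
    simp [hu]
  gcongr

/-- geometric series: `|∑ u ^ m| |u - 1| ≤ 2` -/
theorem fej_mul_le (M : ℕ) (hM : 1 ≤ M) (u : ℂ) (hu : ‖u‖ = 1) :
    fej M u * (M * ‖u - 1‖ ^ 2) ≤ 4 := by
  have hM0 : (0 : ℝ) < M := by exact_mod_cast hM
  have h1 : ‖∑ m ∈ Finset.range M, u ^ m‖ * ‖u - 1‖ ≤ 2 := by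
    rw [← norm_mul, geom_sum_mul]
    refine (norm_sub_le _ _).trans ?_
    rw [norm_pow, hu, one_pow, norm_one]
    norm_num
  have h2 : fej M u * (M * ‖u - 1‖ ^ 2) = (‖∑ m ∈ Finset.range M, u ^ m‖ * ‖u - 1‖) ^ 2 := by
    unfold fej
    field_simp
  rw [h2]
  have h3 : 0 ≤ ‖∑ m ∈ Finset.range M, u ^ m‖ * ‖u - 1‖ := by positivity
  nlinarith

end Pool.Agent.GaussMR
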