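import Pool.Agent.Lib_MP_f1a94e_mr.Defs
import Pool.Agent.Lib_MP_f1a94e_nt.Second

/-!
# Counting lemmas for the pieces SECOND and DROP
-/

set_option autoImplicit false

namespace Pool.Agent.GaussMR

open Finset ArithmeticFunction

/-- the number of divisors is at most `2 ^ Ω` -/
theorem tau_le_two_pow_sec (n : ℕ) (hn : n ≠ 0) : ParityQuad.tau n ≤ 2 ^ cardFactors n := by
  unfold ParityQuad.tau
  induction n using Nat.recOnMul with
  | zero => exact absurd rfl hn
  | one => simp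
  | prime p hp =>
    rw [cardFactors_apply_prime hp, Nat.Prime.divisors hp]
    exact Finset.card_le_two
  | mul a b ha hb =>
    have ha0 : a ≠ 0 := left_ne_zero_of_mul hn
    have hb0 : b ≠ 0 := right_ne_zero_of_mul hn
    rw [cardFactors_mul ha0 hb0, pow_add, Nat.divisors_mul]
    exact (Finset.card_mul_le).trans (Nat.mul_le_mul (ha ha0) (hb hb0))

/-- a prime divisor of `m ^ 2 + 1`, `m` even, is `1 mod 4` -/
theorem mod_four_sec {m p : ℕ} (hm : Even m) (hp : p.Prime) (h : p ∣ m ^ 2 + 1) : p % 4 = 1 := by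
  have : Fact p.Prime := ⟨hp⟩
  have hodd : p ≠ 2 := by
    rintro rfl
    obtain ⟨k, rfl⟩ := hm
    have h1 : (k + k) ^ 2 + 1 = 2 * (2 * k ^ 2) + 1 := by ring
    rw [h1] at h
    omega
  have h3 : p % 4 ≠ 3 := by
    have hsq : IsSquare (-1 : ZMod p) := by
      refine ⟨(m : ZMod p), ?_⟩
      have h1 : ((m ^ 2 + 1 : ℕ) : ZMod p) = 0 := (ZMod.natCast_eq_zero_iff _ _).mpr h
      push_cast at h1
      linear_combination -h1
    exact ZMod.exists_sq_eq_neg_one_iff.mp hsq
  have h2 := hp.eq_two_or_odd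
  omega

theorem N1_of_dvd_sq {m d : ℕ} (hm : Even m) (h : d ∣ m ^ 2 + 1) : N1 d := by
  refine ⟨?_, fun p hp hpd => mod_four_sec hm hp (hpd.trans h)⟩
  rintro rfl
  rw [zero_dvd_iff] at h
  omega

/-- the number of `m ≤ M` with `d ∣ m ^ 2 + 1` -/
theorem count_even_sec (M d : ℕ) (hd : d ≠ 0) :
    (((range (M + 1)).filter (fun m => Even m ∧ d ∣ m ^ 2 + 1)).card : ℝ) ≤
      2 ^ cardFactors d * (2 * M / d + 2) := by
  have h1 : (range (M + 1)).filter (fun m => Even m ∧ d ∣ m ^ 2 + 1) ⊆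
      insert 0 ((Icc 1 M).filter (fun m => d ∣ m ^ 2 + 1)) := by
    intro m hm
    rw [mem_filter, mem_range] at hm
    rw [mem_insert, mem_filter, mem_Icc]
    by_cases h0 : m = 0
    · exact Or.inl h0
    · exact Or.inr ⟨by omega, hm.2.2⟩
  have h2 : (((range (M + 1)).filter (fun m => Even m ∧ d ∣ m ^ 2 + 1)).card : ℝ) ≤
      (((Icc 1 M).filter (fun m => d ∣ m ^ 2 + 1)).card : ℝ) + 1 := by
    have := (Finset.card_le_card h1).trans (Finset.card_insert_le _ _)
    exact_mod_cast this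
  have h3 := ParityQuad.count_roots M d (Nat.pos_of_ne_zero hd)
  have h4 : (ParityQuad.tau d : ℝ) ≤ 2 ^ cardFactors d := by
    exact_mod_cast tau_le_two_pow_sec d hd
  have h5 : (1 : ℝ) ≤ 2 ^ cardFactors d := one_le_pow₀ (by norm_num)
  have h6 : (0 : ℝ) ≤ 2 * (M : ℝ) / d := by positivity
  calc (((range (M + 1)).filter (fun m => Even m ∧ d ∣ m ^ 2 + 1)).card : ℝ)
      ≤ (((Icc 1 M).filter (fun m => d ∣ m ^ 2 + 1)).card : ℝ) + 1 := h2
    _ ≤ ParityQuad.tau d * (2 * M / d + 1) + 1 := by linarith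
    _ ≤ 2 ^ cardFactors d * (2 * M / d + 1) + 2 ^ cardFactors d := by gcongr
    _ = 2 ^ cardFactors d * (2 * M / d + 2) := by ring

open Classical in
/-- interchange of summation -/
theorem swap_sum_sec (M N : ℕ) (p : ℕ → ℕ → Prop) (hp : ∀ m d, p m d → d ∣ m ^ 2 + 1 ∧ d ≤ N) :
    ∑ m ∈ (range (M + 1)).filter (fun m => Even m), (Set.ncard {d : ℕ | p m d} : ℝ) =
      ∑ d ∈ (Icc 1 N).filter N1,
        (((range (M + 1)).filter (fun m => Even m ∧ p m d)).card : ℝ) := by
  have h1 : ∀ m ∈ (range (M + 1)).filter (fun m => Even m), Set.ncard {d : ℕ | p m d} =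
      (((Icc 1 N).filter N1).filter (fun d => p m d)).card := by
    intro m hm
    rw [mem_filter] at hm
    rw [← Set.ncard_coe_finset]
    congr 1
    ext d
    rw [Set.mem_setOf_eq, Finset.mem_coe, mem_filter, mem_filter, mem_Icc]
    constructor
    · intro h
      obtain ⟨h2, h3⟩ := hp m d h
      have h4 := N1_of_dvd_sq hm.2 h2
      exact ⟨⟨⟨Nat.pos_of_ne_zero h4.1, h3⟩, h4⟩, h⟩
    · intro h
      exact h.2
  have h2 : ∑ m ∈ (range (M + 1)).filter (fun m => Even m), Set.ncard {d : ℕ | p m d} =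
      ∑ d ∈ (Icc 1 N).filter N1, ((range (M + 1)).filter (fun m => Even m ∧ p m d)).card := by
    rw [Finset.sum_congr rfl h1]
    have h3 := Finset.sum_card_bipartiteAbove_eq_sum_card_bipartiteBelow
      (s := (range (M + 1)).filter (fun m => Even m)) (t := (Icc 1 N).filter N1)
      (fun m d => p m d)
    unfold Finset.bipartiteAbove Finset.bipartiteBelow at h3
    rw [h3]
    refine Finset.sum_congr rfl fun d _ => ?_
    rw [Finset.filter_filter]
  exact_mod_cast h2

end Pool.Agent.GaussMR
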