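import Pool.Agent.Lib_MP_f1a94e_mr.HT
import Pool.Agent.Lib_MP_f1a94e_nt.Second
import Pool.Agent.Lib_MP_f1a94e_mr.SecCount

/-!
# Piece DROP: divisors of `m ^ 2 + 1` that are too small or have too many prime factors
-/

set_option autoImplicit false

namespace Pool.Agent.GaussMR

/-- partial summation against `1 / √n` -/
theorem psum_sqrt_sec (a : ℕ → ℝ) (C : ℝ) (hC0 : 0 ≤ C)
    (hC : ∀ N : ℕ, 1 ≤ N → ∑ n ∈ Finset.Icc 1 N, a n ≤ C * N) :
    ∀ N : ℕ, 1 ≤ N → ∑ n ∈ Finset.Icc 1 N, a n / Real.sqrt n ≤ 2 * C * Real.sqrt N := by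
  have key : ∀ N : ℕ, 1 ≤ N → ∑ n ∈ Finset.Icc 1 N, a n / Real.sqrt n ≤
      (∑ n ∈ Finset.Icc 1 N, a n) / Real.sqrt N + C * Real.sqrt N := by
    intro N hN
    induction N, hN using Nat.le_induction with
    | base =>
      simp only [Finset.Icc_self, Finset.sum_singleton, Nat.cast_one, Real.sqrt_one, div_one,
        mul_one]
      linarith
    | succ N hN ih =>
      rw [Finset.sum_Icc_succ_top (by omega), Finset.sum_Icc_succ_top (by omega)]
      have hC' := hC N hN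
      set S := ∑ n ∈ Finset.Icc 1 N, a n with hS
      have hx : 0 < Real.sqrt N := Real.sqrt_pos.mpr (by exact_mod_cast hN)
      have hy : 0 < Real.sqrt ((N + 1 : ℕ) : ℝ) := Real.sqrt_pos.mpr (by positivity)
      have hx2 : Real.sqrt N ^ 2 = N := Real.sq_sqrt (by positivity)
      have hy2 : Real.sqrt ((N + 1 : ℕ) : ℝ) ^ 2 = N + 1 := by
        rw [Real.sq_sqrt (by positivity)]
        push_cast
        ring
      set x := Real.sqrt N with hxd
      set y := Real.sqrt ((N + 1 : ℕ) : ℝ) with hyd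
      have hxy : x ≤ y := by
        have : x ^ 2 ≤ y ^ 2 := by rw [hx2, hy2]; linarith
        exact (pow_le_pow_iff_left₀ hx.le hy.le (by norm_num)).mp this
      have h1 : S * (1 / x - 1 / y) ≤ C * x ^ 2 * (1 / x - 1 / y) := by
        apply mul_le_mul_of_nonneg_right
        · rw [hx2]; exact hC'
        · rw [sub_nonneg]
          exact one_div_le_one_div_of_le hx hxy
      have h2 : C * x ^ 2 * (1 / x - 1 / y) + C * x ≤ C * y := by
        have h3 : C * y - (C * x ^ 2 * (1 / x - 1 / y) + C * x) = C * (y - x) ^ 2 / y := by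
          field_simp
          ring
        have h4 : 0 ≤ C * (y - x) ^ 2 / y := by positivity
        linarith
      have h5 : S * (1 / x - 1 / y) = S / x - S / y := by ring
      rw [add_div]
      linarith
  intro N hN
  refine (key N hN).trans ?_
  have h1 := hC N hN
  have hs : 0 < Real.sqrt N := Real.sqrt_pos.mpr (by exact_mod_cast hN)
  have h2 : (∑ n ∈ Finset.Icc 1 N, a n) / Real.sqrt N ≤ C * Real.sqrt N := by
    rw [div_le_iff₀ hs, mul_assoc, Real.mul_self_sqrt (by positivity)]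
    exact h1
  linarith

/-- For `d < X / K²`: `m² + 1 ≤ X d`, so `m ≤ √(X d)` and the number of `m` is at most
`τ(d) (2 √(X d) / d + 1) + 1 ≤ 4 · 2^(Ω d) √(X / d)`; sum over `N1` numbers `d` with `ht 2` and partial
summation: `∑_{d ≤ D} 2^(Ω d) / √d ≤ C √D`. -/
theorem drop1 : ∃ C : ℝ, 0 < C ∧ ∀ X K : ℝ, 1 ≤ X → 1 ≤ K →
    ∑ m ∈ (Finset.range (⌊X⌋₊ + 1)).filter (fun m => Even m),
      (Set.ncard {d : ℕ | d ∣ m ^ 2 + 1 ∧ K ^ 2 * (d : ℝ) < X ∧ ((m ^ 2 + 1 : ℕ) : ℝ) ≤ X * d} : ℝ) ≤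
      C * X / K := by
  classical
  obtain ⟨C, hC, hht⟩ := ht 2 (by norm_num) (by norm_num)
  refine ⟨8 * C, by positivity, fun X K hX hK => ?_⟩
  have hX0 : 0 < X := by linarith
  have hK0 : 0 < K := by linarith
  have hps := psum_sqrt_sec (fun n => if N1 n then (2 : ℝ) ^ ArithmeticFunction.cardFactors n else 0)
    C hC.le (by
      intro N hN
      have h := hht N hN
      rw [Finset.sum_filter] at h
      refine h.trans ?_
      norm_num)
  have hsw := swap_sum_sec ⌊X⌋₊ ⌊X⌋₊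
    (fun m d => d ∣ m ^ 2 + 1 ∧ K ^ 2 * (d : ℝ) < X ∧ ((m ^ 2 + 1 : ℕ) : ℝ) ≤ X * d) (by
      rintro m d ⟨h1, h2, h3⟩
      refine ⟨h1, Nat.le_floor ?_⟩
      have h4 : (d : ℝ) ≤ K ^ 2 * d := by
        have : (1 : ℝ) ≤ K ^ 2 := one_le_pow₀ hK
        nlinarith [(Nat.cast_nonneg d : (0 : ℝ) ≤ d)]
      linarith)
  rw [hsw]
  set D := ⌊X / K ^ 2⌋₊ with hD
  have hterm : ∀ d ∈ (Finset.Icc 1 ⌊X⌋₊).filter N1,
      (((Finset.range (⌊X⌋₊ + 1)).filter (fun m => Even m ∧ (d ∣ m ^ 2 + 1 ∧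
        K ^ 2 * (d : ℝ) < X ∧ ((m ^ 2 + 1 : ℕ) : ℝ) ≤ X * d))).card : ℝ) ≤
      if d ≤ D then 4 * Real.sqrt X * (2 ^ ArithmeticFunction.cardFactors d / Real.sqrt d) else 0 := by
    intro d hd
    rw [Finset.mem_filter, Finset.mem_Icc] at hd
    have hd0 : (0 : ℝ) < d := by exact_mod_cast hd.1.1
    split_ifs with hdD
    · have hsub : (Finset.range (⌊X⌋₊ + 1)).filter (fun m => Even m ∧ (d ∣ m ^ 2 + 1 ∧
        K ^ 2 * (d : ℝ) < X ∧ ((m ^ 2 + 1 : ℕ) : ℝ) ≤ X * d)) ⊆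
        (Finset.range (⌊Real.sqrt (X * d)⌋₊ + 1)).filter (fun m => Even m ∧ d ∣ m ^ 2 + 1) := by
        intro m hm
        rw [Finset.mem_filter] at hm ⊢
        obtain ⟨_, h1, h2, _, h4⟩ := hm
        refine ⟨?_, h1, h2⟩
        rw [Finset.mem_range, Nat.lt_succ_iff]
        apply Nat.le_floor
        apply Real.le_sqrt_of_sq_le
        push_cast at h4
        linarith
      have h1 := (Nat.cast_le (α := ℝ)).mpr (Finset.card_le_card hsub)
      refine h1.trans ((count_even_sec _ d (by omega)).trans ?_)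
      have hfl : (⌊Real.sqrt (X * d)⌋₊ : ℝ) ≤ Real.sqrt (X * d) := Nat.floor_le (Real.sqrt_nonneg _)
      have hsd : 0 < Real.sqrt d := Real.sqrt_pos.mpr hd0
      have hsd2 : Real.sqrt d * Real.sqrt d = d := Real.mul_self_sqrt hd0.le
      have hdX : (d : ℝ) ≤ X := by
        have h2 : (d : ℝ) ≤ X / K ^ 2 := (Nat.le_floor_iff (by positivity)).mp hdD
        refine h2.trans (div_le_self hX0.le (one_le_pow₀ hK))
      have hsX : Real.sqrt d ≤ Real.sqrt X := Real.sqrt_le_sqrt hdX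
      have h5 : 2 * (⌊Real.sqrt (X * d)⌋₊ : ℝ) / d + 2 ≤ 4 * Real.sqrt X / Real.sqrt d := by
        have h6 : 2 * (⌊Real.sqrt (X * d)⌋₊ : ℝ) / d ≤ 2 * Real.sqrt X / Real.sqrt d := by
          rw [div_le_div_iff₀ hd0 hsd]
          have h7 : Real.sqrt (X * d) = Real.sqrt X * Real.sqrt d := Real.sqrt_mul hX0.le _
          rw [h7] at hfl
          calc 2 * (⌊Real.sqrt (X * d)⌋₊ : ℝ) * Real.sqrt d
              ≤ 2 * (Real.sqrt X * Real.sqrt d) * Real.sqrt d := by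
                rw [h7]
                gcongr
            _ = 2 * Real.sqrt X * (Real.sqrt d * Real.sqrt d) := by ring
            _ = 2 * Real.sqrt X * d := by rw [hsd2]
        have h8 : 2 ≤ 2 * Real.sqrt X / Real.sqrt d := by
          rw [le_div_iff₀ hsd]
          linarith
        have h9 : 4 * Real.sqrt X / Real.sqrt d =
            2 * Real.sqrt X / Real.sqrt d + 2 * Real.sqrt X / Real.sqrt d := by ring
        rw [h9]
        linarith
      calc (2 : ℝ) ^ ArithmeticFunction.cardFactors d *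
            (2 * (⌊Real.sqrt (X * d)⌋₊ : ℝ) / d + 2)
          ≤ 2 ^ ArithmeticFunction.cardFactors d * (4 * Real.sqrt X / Real.sqrt d) := by gcongr
        _ = 4 * Real.sqrt X * (2 ^ ArithmeticFunction.cardFactors d / Real.sqrt d) := by ring
    · have : (Finset.range (⌊X⌋₊ + 1)).filter (fun m => Even m ∧ (d ∣ m ^ 2 + 1 ∧
        K ^ 2 * (d : ℝ) < X ∧ ((m ^ 2 + 1 : ℕ) : ℝ) ≤ X * d)) = ∅ := by
        rw [Finset.filter_eq_empty_iff]
        rintro m _ ⟨_, _, h2, _⟩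
        apply hdD
        apply Nat.le_floor
        rw [le_div_iff₀ (by positivity)]
        linarith
      rw [this]
      simp
  refine (Finset.sum_le_sum fun d hd => le_trans (le_of_eq (by congr)) (hterm d hd)).trans ?_
  rw [← Finset.sum_filter]
  by_cases hD1 : 1 ≤ D
  · have hsub : ∑ d ∈ ((Finset.Icc 1 ⌊X⌋₊).filter N1).filter (fun d => d ≤ D),
        4 * Real.sqrt X * ((2 : ℝ) ^ ArithmeticFunction.cardFactors d / Real.sqrt d) ≤
        ∑ d ∈ Finset.Icc 1 D, 4 * Real.sqrt X *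
          ((if N1 d then (2 : ℝ) ^ ArithmeticFunction.cardFactors d else 0) / Real.sqrt d) := by
      have h1 : ((Finset.Icc 1 ⌊X⌋₊).filter N1).filter (fun d => d ≤ D) ⊆ Finset.Icc 1 D := by
        intro d hd
        rw [Finset.mem_filter, Finset.mem_filter, Finset.mem_Icc] at hd
        rw [Finset.mem_Icc]
        exact ⟨hd.1.1.1, hd.2⟩
      calc ∑ d ∈ ((Finset.Icc 1 ⌊X⌋₊).filter N1).filter (fun d => d ≤ D),
            4 * Real.sqrt X * ((2 : ℝ) ^ ArithmeticFunction.cardFactors d / Real.sqrt d)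
          = ∑ d ∈ ((Finset.Icc 1 ⌊X⌋₊).filter N1).filter (fun d => d ≤ D), 4 * Real.sqrt X *
          ((if N1 d then (2 : ℝ) ^ ArithmeticFunction.cardFactors d else 0) / Real.sqrt d) := by
            refine Finset.sum_congr rfl fun d hd => ?_
            rw [Finset.mem_filter, Finset.mem_filter] at hd
            rw [if_pos hd.1.2]
        _ ≤ _ := by
            refine Finset.sum_le_sum_of_subset_of_nonneg h1 fun d _ _ => ?_
            split_ifs <;> positivity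
    refine hsub.trans ?_
    rw [← Finset.mul_sum]
    have h2 := hps D hD1
    have h3 : Real.sqrt D ≤ Real.sqrt X / K := by
      have h4 : (D : ℝ) ≤ X / K ^ 2 := Nat.floor_le (by positivity)
      calc Real.sqrt D ≤ Real.sqrt (X / K ^ 2) := Real.sqrt_le_sqrt h4
        _ = Real.sqrt X / K := by
          rw [Real.sqrt_div hX0.le, Real.sqrt_sq hK0.le]
    calc 4 * Real.sqrt X * ∑ d ∈ Finset.Icc 1 D,
          ((if N1 d then (2 : ℝ) ^ ArithmeticFunction.cardFactors d else 0) / Real.sqrt d)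
        ≤ 4 * Real.sqrt X * (2 * C * Real.sqrt D) := by gcongr
      _ ≤ 4 * Real.sqrt X * (2 * C * (Real.sqrt X / K)) := by gcongr
      _ = 8 * C * (Real.sqrt X * Real.sqrt X) / K := by ring
      _ = 8 * C * X / K := by rw [Real.mul_self_sqrt hX0.le]
  · have : ((Finset.Icc 1 ⌊X⌋₊).filter N1).filter (fun d => d ≤ D) = ∅ := by
      rw [Finset.filter_eq_empty_iff]
      intro d hd h
      rw [Finset.mem_filter, Finset.mem_Icc] at hd
      omega
    rw [this, Finset.sum_empty]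
    positivity

/-- `#{m ≤ X : d ∣ m² + 1} ≤ 2^(Ω d) (2 K² + 2)` for `X / K² ≤ d ≤ X`, and
`1 ≤ (1 + η)^(Ω d - W)`; then `ht (2 (1 + η))`. -/
theorem drop2 (η : ℝ) (hη : 0 < η) (hη1 : η ≤ 1) : ∃ C : ℝ, 0 < C ∧ ∀ X K W : ℝ, 1 ≤ X → 1 ≤ K →
    0 ≤ W →
    ∑ m ∈ (Finset.range (⌊X⌋₊ + 1)).filter (fun m => Even m),
      (Set.ncard {d : ℕ | d ∣ m ^ 2 + 1 ∧ X ≤ K ^ 2 * (d : ℝ) ∧ (d : ℝ) ≤ X ∧
        W < (ArithmeticFunction.cardFactors d : ℝ)} : ℝ) ≤
      C * K ^ 2 * (1 + η) ^ (-W) * X * (1 + Real.log X) ^ η := by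
  classical
  obtain ⟨C, hC, hht⟩ := ht (2 * (1 + η)) (by positivity) (by linarith)
  refine ⟨4 * C, by positivity, fun X K W hX hK hW => ?_⟩
  have hX0 : 0 < X := by linarith
  have hK0 : 0 < K := by linarith
  have hK2 : (1 : ℝ) ≤ K ^ 2 := one_le_pow₀ hK
  have hN1 : 1 ≤ ⌊X⌋₊ := (Nat.one_le_floor_iff X).mpr hX
  have hNX : (⌊X⌋₊ : ℝ) ≤ X := Nat.floor_le hX0.le
  have hsw := swap_sum_sec ⌊X⌋₊ ⌊X⌋₊
    (fun m d => d ∣ m ^ 2 + 1 ∧ X ≤ K ^ 2 * (d : ℝ) ∧ (d : ℝ) ≤ X ∧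
        W < (ArithmeticFunction.cardFactors d : ℝ)) (by
      rintro m d ⟨h1, h2, h3, h4⟩
      exact ⟨h1, Nat.le_floor h3⟩)
  rw [hsw]
  have hterm : ∀ d ∈ (Finset.Icc 1 ⌊X⌋₊).filter N1,
      (((Finset.range (⌊X⌋₊ + 1)).filter (fun m => Even m ∧ (d ∣ m ^ 2 + 1 ∧
        X ≤ K ^ 2 * (d : ℝ) ∧ (d : ℝ) ≤ X ∧
        W < (ArithmeticFunction.cardFactors d : ℝ)))).card : ℝ) ≤
      4 * K ^ 2 * (1 + η) ^ (-W) * (2 * (1 + η)) ^ ArithmeticFunction.cardFactors d := by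
    intro d hd
    rw [Finset.mem_filter, Finset.mem_Icc] at hd
    have hd0 : (0 : ℝ) < d := by exact_mod_cast hd.1.1
    by_cases hc : X ≤ K ^ 2 * (d : ℝ) ∧ W < (ArithmeticFunction.cardFactors d : ℝ)
    · have hsub : (Finset.range (⌊X⌋₊ + 1)).filter (fun m => Even m ∧ (d ∣ m ^ 2 + 1 ∧
        X ≤ K ^ 2 * (d : ℝ) ∧ (d : ℝ) ≤ X ∧
        W < (ArithmeticFunction.cardFactors d : ℝ))) ⊆
        (Finset.range (⌊X⌋₊ + 1)).filter (fun m => Even m ∧ d ∣ m ^ 2 + 1) := by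
        intro m hm
        rw [Finset.mem_filter] at hm ⊢
        exact ⟨hm.1, hm.2.1, hm.2.2.1⟩
      have h1 := (Nat.cast_le (α := ℝ)).mpr (Finset.card_le_card hsub)
      refine h1.trans ((count_even_sec _ d (by omega)).trans ?_)
      have h2 : 2 * (⌊X⌋₊ : ℝ) / d + 2 ≤ 4 * K ^ 2 := by
        have h3 : (⌊X⌋₊ : ℝ) / d ≤ K ^ 2 := by
          rw [div_le_iff₀ hd0]
          linarith [hc.1]
        have h4 : 2 * (⌊X⌋₊ : ℝ) / d = 2 * ((⌊X⌋₊ : ℝ) / d) := by ring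
        rw [h4]
        linarith
      have h5 : (1 : ℝ) ≤ (1 + η) ^ (-W) * (1 + η) ^ ArithmeticFunction.cardFactors d := by
        rw [← Real.rpow_natCast (1 + η), ← Real.rpow_add (by positivity)]
        apply Real.one_le_rpow (by linarith)
        linarith [hc.2]
      calc (2 : ℝ) ^ ArithmeticFunction.cardFactors d * (2 * (⌊X⌋₊ : ℝ) / d + 2)
          ≤ 2 ^ ArithmeticFunction.cardFactors d * (4 * K ^ 2) := by gcongr
        _ = 2 ^ ArithmeticFunction.cardFactors d * (4 * K ^ 2) * 1 := by ring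
        _ ≤ 2 ^ ArithmeticFunction.cardFactors d * (4 * K ^ 2) *
            ((1 + η) ^ (-W) * (1 + η) ^ ArithmeticFunction.cardFactors d) := by gcongr
        _ = 4 * K ^ 2 * (1 + η) ^ (-W) * (2 * (1 + η)) ^ ArithmeticFunction.cardFactors d := by
            rw [mul_pow]
            ring
    · have : (Finset.range (⌊X⌋₊ + 1)).filter (fun m => Even m ∧ (d ∣ m ^ 2 + 1 ∧
        X ≤ K ^ 2 * (d : ℝ) ∧ (d : ℝ) ≤ X ∧
        W < (ArithmeticFunction.cardFactors d : ℝ))) = ∅ := by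
        rw [Finset.filter_eq_empty_iff]
        rintro m _ ⟨_, _, h2, _, h4⟩
        exact hc ⟨h2, h4⟩
      rw [this]
      simp only [Finset.card_empty, Nat.cast_zero]
      positivity
  refine (Finset.sum_le_sum fun d hd => le_trans (le_of_eq (by congr)) (hterm d hd)).trans ?_
  rw [← Finset.mul_sum]
  have h1 := hht ⌊X⌋₊ hN1
  have h2 : (1 + Real.log (⌊X⌋₊ : ℝ)) ^ (2 * (1 + η) / 2 - 1) ≤ (1 + Real.log X) ^ η := by
    have h3 : 2 * (1 + η) / 2 - 1 = η := by ring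
    rw [h3]
    have h4 : 0 ≤ Real.log (⌊X⌋₊ : ℝ) := Real.log_nonneg (by exact_mod_cast hN1)
    have h5 : Real.log (⌊X⌋₊ : ℝ) ≤ Real.log X := Real.log_le_log (by exact_mod_cast hN1) hNX
    gcongr
  calc 4 * K ^ 2 * (1 + η) ^ (-W) * ∑ d ∈ (Finset.Icc 1 ⌊X⌋₊).filter N1,
        (2 * (1 + η)) ^ ArithmeticFunction.cardFactors d
      ≤ 4 * K ^ 2 * (1 + η) ^ (-W) * (C * (⌊X⌋₊ : ℝ) *
        (1 + Real.log (⌊X⌋₊ : ℝ)) ^ (2 * (1 + η) / 2 - 1)) := by gcongr
    _ ≤ 4 * K ^ 2 * (1 + η) ^ (-W) * (C * X * (1 + Real.log X) ^ η) := by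
        have : 0 ≤ (1 + Real.log (⌊X⌋₊ : ℝ)) ^ (2 * (1 + η) / 2 - 1) := by
          apply Real.rpow_nonneg
          have : 0 ≤ Real.log (⌊X⌋₊ : ℝ) := Real.log_nonneg (by exact_mod_cast hN1)
          linarith
        gcongr
    _ = 4 * C * K ^ 2 * (1 + η) ^ (-W) * X * (1 + Real.log X) ^ η := by ring

end Pool.Agent.GaussMR
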