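import Pool.Agent.Lib_MP_f1a94e_mr.Second
import Pool.Agent.Lib_MP_f1a94e_mr.Drop

/-!
# Piece STEPB: few `m` give few factorisations
-/

set_option autoImplicit false

namespace Pool.Agent.GaussMR

/-- divisors that are too small -/
def D1S (X K : ℝ) (m : ℕ) : Set ℕ :=
  {d : ℕ | d ∣ m ^ 2 + 1 ∧ K ^ 2 * (d : ℝ) < X ∧ ((m ^ 2 + 1 : ℕ) : ℝ) ≤ X * d}

/-- divisors with too many prime factors -/
def D2S (X K W : ℝ) (m : ℕ) : Set ℕ :=
  {d : ℕ | d ∣ m ^ 2 + 1 ∧ X ≤ K ^ 2 * (d : ℝ) ∧ (d : ℝ) ≤ X ∧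
        W < (ArithmeticFunction.cardFactors d : ℝ)}

theorem finite_divs_sec {m : ℕ} {S : Set ℕ} (h : ∀ d ∈ S, d ∣ m ^ 2 + 1) : S.Finite := by
  refine ((m ^ 2 + 1).divisors.finite_toSet).subset fun d hd => ?_
  rw [Finset.mem_coe, Nat.mem_divisors]
  exact ⟨h d hd, by omega⟩

theorem tx_le_sec (X K W : ℝ) (m : ℕ) :
    (tx X m : ℝ) ≤ (S2 X K W m).ncard + 2 * (D1S X K m).ncard + 2 * (D2S X K W m).ncard := by
  set n := m ^ 2 + 1 with hn
  have hn0 : 0 < n := by omega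
  have f1 : (D1S X K m).Finite := finite_divs_sec fun d hd => hd.1
  have f2 : (D2S X K W m).Finite := finite_divs_sec fun d hd => hd.1
  have f3 : (S2 X K W m).Finite := finite_divs_sec fun d hd => hd.1
  have hsub : {d : ℕ | d ∣ m ^ 2 + 1 ∧ (d : ℝ) ≤ X ∧ ((m ^ 2 + 1 : ℕ) : ℝ) ≤ X * d} ⊆
      S2 X K W m ∪ ((D1S X K m ∪ (fun d => n / d) '' D1S X K m) ∪
        (D2S X K W m ∪ (fun d => n / d) '' D2S X K W m)) := by
    rintro d ⟨h1, h2, h3⟩
    have hd0 : 0 < d := Nat.pos_of_dvd_of_pos h1 hn0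
    have hdR : (0 : ℝ) < d := by exact_mod_cast hd0
    have hmul : (n / d) * d = n := Nat.div_mul_cancel h1
    have hmulR : ((n / d : ℕ) : ℝ) * d = (n : ℕ) := by exact_mod_cast hmul
    have hd'X : ((n / d : ℕ) : ℝ) ≤ X := by
      have h4 : ((n / d : ℕ) : ℝ) * d ≤ X * d := by rw [hmulR]; exact h3
      exact le_of_mul_le_mul_right h4 hdR
    have hnX : ((n : ℕ) : ℝ) ≤ X * ((n / d : ℕ) : ℝ) := by
      rw [← hmulR, mul_comm]
      exact mul_le_mul_of_nonneg_right h2 (Nat.cast_nonneg _)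
    have hdd : n / (n / d) = d := Nat.div_div_self h1 (by omega)
    have hd' : n / d ∣ n := Nat.div_dvd_of_dvd h1
    by_cases c1 : K ^ 2 * (d : ℝ) < X
    · exact Or.inr (Or.inl (Or.inl ⟨h1, c1, h3⟩))
    by_cases c2 : K ^ 2 * ((n / d : ℕ) : ℝ) < X
    · exact Or.inr (Or.inl (Or.inr ⟨n / d, ⟨hd', c2, hnX⟩, hdd⟩))
    push Not at c1 c2
    by_cases c3 : W < (ArithmeticFunction.cardFactors d : ℝ)
    · exact Or.inr (Or.inr (Or.inl ⟨h1, c1, h2, c3⟩))
    by_cases c4 : W < (ArithmeticFunction.cardFactors (n / d) : ℝ)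
    · exact Or.inr (Or.inr (Or.inr ⟨n / d, ⟨hd', c2, hd'X, c4⟩, hdd⟩))
    push Not at c3 c4
    exact Or.inl ⟨h1, c1, h2, c2, hd'X, c3, c4⟩
  have h1 := Set.ncard_le_ncard hsub (f3.union ((f1.union (f1.image _)).union
    (f2.union (f2.image _))))
  have h2 := Set.ncard_union_le (S2 X K W m) ((D1S X K m ∪ (fun d => n / d) '' D1S X K m) ∪
        (D2S X K W m ∪ (fun d => n / d) '' D2S X K W m))
  have h3 := Set.ncard_union_le (D1S X K m ∪ (fun d => n / d) '' D1S X K m)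
        (D2S X K W m ∪ (fun d => n / d) '' D2S X K W m)
  have h4 := Set.ncard_union_le (D1S X K m) ((fun d => n / d) '' D1S X K m)
  have h5 := Set.ncard_union_le (D2S X K W m) ((fun d => n / d) '' D2S X K W m)
  have h6 := Set.ncard_image_le (f := fun d => n / d) f1
  have h7 := Set.ncard_image_le (f := fun d => n / d) f2
  have h8 : tx X m ≤ (S2 X K W m).ncard + 2 * (D1S X K m).ncard + 2 * (D2S X K W m).ncard := by
    unfold tx
    omega
  exact_mod_cast h8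

/-- Choose `ε > 0` with `(1 + ε) log 2 < A`, `W = (1 + ε) log log X`, `K = (log X)^κ` with small
`κ > 0`. `tx X m ≤ #S2 + (drop1 set) + (its mirror) + (drop2 set) + (its mirror)`, the mirror
`d ↦ (m² + 1) / d` being a bijection. Cauchy-Schwarz for the first part:
`√(#B ∑ #S2²) ≤ C X (log X)^(-(A - (1 + ε) log 2) / 2 + 2 κ + o(1))`. -/
theorem stepB (A : ℝ) (hA : Real.log 2 < A) : ∃ c C : ℝ, 0 < c ∧ 0 < C ∧ ∀ X : ℝ, 3 ≤ X →
    ∀ B : Finset ℕ, (∀ m ∈ B, Even m ∧ (m : ℝ) ≤ X) → (B.card : ℝ) ≤ X / Real.log X ^ A →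
    ∑ m ∈ B, (tx X m : ℝ) ≤ C * X / Real.log X ^ c := by
  have hl2 : 0 < Real.log 2 := Real.log_pos (by norm_num)
  -- parameters
  obtain ⟨ε, hε, hεA⟩ : ∃ ε : ℝ, 0 < ε ∧ (1 + ε) * Real.log 2 = (A + Real.log 2) / 2 := by
    refine ⟨(A - Real.log 2) / (2 * Real.log 2), by
      apply div_pos <;> linarith, ?_⟩
    field_simp
    ring
  set η : ℝ := ε / (1 + ε) with hηd
  have hη : 0 < η := by positivity
  have hη1 : η ≤ 1 := by
    rw [hηd, div_le_one (by positivity)]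
    linarith
  have hηε : (1 + ε) * η = ε := by
    rw [hηd]
    field_simp
  have hlogη : η + ε * η / 2 ≤ (1 + ε) * Real.log (1 + η) := by
    have h1 := Real.le_log_one_add_of_nonneg hη.le
    have h2 : η - η ^ 2 / 2 ≤ 2 * η / (η + 2) := by
      rw [le_div_iff₀ (by positivity)]
      nlinarith [pow_pos hη 3]
    have h3 : (1 + ε) * (η - η ^ 2 / 2) ≤ (1 + ε) * Real.log (1 + η) := by
      gcongr
      exact h2.trans h1
    have h4 : (1 + ε) * (η - η ^ 2 / 2) = ε - ε * η / 2 := by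
      calc (1 + ε) * (η - η ^ 2 / 2) = (1 + ε) * η - ((1 + ε) * η) * η / 2 := by ring
        _ = ε - ε * η / 2 := by rw [hηε]
    have h5 : η + ε * η = ε := by linarith
    linarith
  set γ : ℝ := (A - Real.log 2) / 2 with hγd
  have hγ : 0 < γ := by rw [hγd]; linarith
  set κ : ℝ := min (η * ε / 8) (γ / 10) with hκd
  have hκ : 0 < κ := by
    rw [hκd]
    exact lt_min (by positivity) (by positivity)
  have hκ1 : κ ≤ η * ε / 8 := min_le_left _ _
  have hκ2 : κ ≤ γ / 10 := min_le_right _ _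
  obtain ⟨C1, hC1, hd1⟩ := drop1
  obtain ⟨C2, hC2, hd2⟩ := drop2 η hη hη1
  obtain ⟨C3, hC3, hs2⟩ := second
  set C4 : ℝ := 1 + Real.log 2 + 1 / κ with hC4
  have hC4p : 0 < C4 := by positivity
  refine ⟨κ, Real.sqrt (C3 * C4) + 2 * C1 + 4 * C2, hκ, by positivity, fun X hX B hB hcard => ?_⟩
  have hX0 : 0 < X := by linarith
  have hX1 : 1 ≤ X := by linarith
  set L : ℝ := Real.log X with hLd
  have hL1 : 1 ≤ L := by
    rw [hLd, Real.le_log_iff_exp_le hX0]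
    have := Real.exp_one_lt_d9
    linarith
  have hL0 : 0 < L := by linarith
  set K : ℝ := L ^ κ with hKd
  have hK1 : 1 ≤ K := Real.one_le_rpow hL1 hκ.le
  have hK0 : 0 < K := by linarith
  set W : ℝ := (1 + ε) * Real.log L with hWd
  have hlL : 0 ≤ Real.log L := Real.log_nonneg hL1
  have hW : 0 ≤ W := by positivity
  set E := (Finset.range (⌊X⌋₊ + 1)).filter (fun m => Even m) with hE
  have hBE : B ⊆ E := by
    intro m hm
    obtain ⟨h1, h2⟩ := hB m hm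
    rw [hE, Finset.mem_filter, Finset.mem_range, Nat.lt_succ_iff]
    exact ⟨Nat.le_floor h2, h1⟩
  -- the three parts
  have p1 : ∑ m ∈ B, ((D1S X K m).ncard : ℝ) ≤ C1 * X / K := by
    refine (Finset.sum_le_sum_of_subset_of_nonneg hBE fun m _ _ => Nat.cast_nonneg _).trans ?_
    exact hd1 X K hX1 hK1
  have p2 : ∑ m ∈ B, ((D2S X K W m).ncard : ℝ) ≤
      C2 * K ^ 2 * (1 + η) ^ (-W) * X * (1 + L) ^ η := by
    refine (Finset.sum_le_sum_of_subset_of_nonneg hBE fun m _ _ => Nat.cast_nonneg _).trans ?_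
    exact hd2 X K W hX1 hK1 hW
  have p3 : (∑ m ∈ B, ((S2 X K W m).ncard : ℝ)) ^ 2 ≤
      (X / L ^ A) * (C3 * (2 : ℝ) ^ W * K ^ 2 * (1 + Real.log K) ^ 2 * X *
        (1 + Real.log (1 + L))) := by
    have h1 : (∑ m ∈ B, ((S2 X K W m).ncard : ℝ)) ^ 2 ≤
        B.card * ∑ m ∈ B, ((S2 X K W m).ncard : ℝ) ^ 2 := sq_sum_le_card_mul_sum_sq
    have h2 : ∑ m ∈ B, ((S2 X K W m).ncard : ℝ) ^ 2 ≤
        C3 * (2 : ℝ) ^ W * K ^ 2 * (1 + Real.log K) ^ 2 * X * (1 + Real.log (1 + L)) := by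
      refine (Finset.sum_le_sum_of_subset_of_nonneg hBE fun m _ _ => sq_nonneg _).trans ?_
      exact hs2 X K W hX1 hK1 hW
    refine h1.trans ?_
    have h3 : 0 ≤ ∑ m ∈ B, ((S2 X K W m).ncard : ℝ) ^ 2 := Finset.sum_nonneg fun m _ => sq_nonneg _
    have h4 : 0 ≤ X / L ^ A := by positivity
    exact mul_le_mul hcard h2 h3 h4
  -- powers of L
  have hK2 : K ^ 2 = L ^ (2 * κ) := by
    rw [hKd, ← Real.rpow_natCast, ← Real.rpow_mul hL0.le]
    congr 1
    push_cast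
    ring
  have e1 : C1 * X / K = C1 * (X / L ^ κ) := by rw [hKd]; ring
  have hηW : (1 + η) ^ (-W) = L ^ (-((1 + ε) * Real.log (1 + η))) := by
    rw [Real.rpow_def_of_pos (by positivity), Real.rpow_def_of_pos hL0, hWd]
    congr 1
    ring
  have h2W : (2 : ℝ) ^ W = L ^ ((1 + ε) * Real.log 2) := by
    rw [Real.rpow_def_of_pos (by positivity), Real.rpow_def_of_pos hL0, hWd]
    congr 1
    ring
  have h1L : (1 + L) ^ η ≤ 2 * L ^ η := by
    calc (1 + L) ^ η ≤ (2 * L) ^ η := by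
          apply Real.rpow_le_rpow (by positivity) (by linarith) hη.le
      _ = 2 ^ η * L ^ η := Real.mul_rpow (by norm_num) hL0.le
      _ ≤ 2 * L ^ η := by
          gcongr
          calc (2 : ℝ) ^ η ≤ 2 ^ (1 : ℝ) := Real.rpow_le_rpow_of_exponent_le (by norm_num) hη1
            _ = 2 := by norm_num
  have e2 : C2 * K ^ 2 * (1 + η) ^ (-W) * X * (1 + L) ^ η ≤ 2 * C2 * (X / L ^ κ) := by
    calc C2 * K ^ 2 * (1 + η) ^ (-W) * X * (1 + L) ^ η
        ≤ C2 * K ^ 2 * (1 + η) ^ (-W) * X * (2 * L ^ η) := by gcongr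
      _ = 2 * C2 * X * (L ^ (2 * κ) * L ^ (-((1 + ε) * Real.log (1 + η))) * L ^ η) := by
          rw [hK2, hηW]
          ring
      _ = 2 * C2 * X * L ^ (2 * κ + -((1 + ε) * Real.log (1 + η)) + η) := by
          rw [← Real.rpow_add hL0, ← Real.rpow_add hL0]
      _ ≤ 2 * C2 * X * L ^ (-κ) := by
          gcongr
          have : ε * η / 2 = η * ε / 2 := by ring
          linarith
      _ = 2 * C2 * (X / L ^ κ) := by
          rw [Real.rpow_neg hL0.le]
          ring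
  have hlogK : 1 + Real.log K ≤ K := by
    have := Real.log_le_sub_one_of_pos hK0
    linarith
  have hlogK0 : 0 ≤ 1 + Real.log K := by
    have : 0 ≤ Real.log K := Real.log_nonneg hK1
    linarith
  have hllog0 : 0 ≤ 1 + Real.log (1 + L) := by
    have : 0 ≤ Real.log (1 + L) := Real.log_nonneg (by linarith)
    linarith
  have hllog : 1 + Real.log (1 + L) ≤ C4 * K := by
    have h1 : Real.log (1 + L) ≤ Real.log 2 + Real.log L := by
      rw [← Real.log_mul (by norm_num) hL0.ne']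
      apply Real.log_le_log (by positivity)
      linarith
    have h2 : Real.log L ≤ L ^ κ / κ := Real.log_le_rpow_div hL0.le hκ
    have h3 : L ^ κ / κ = 1 / κ * K := by rw [hKd]; ring
    have h4 : 1 + Real.log 2 ≤ (1 + Real.log 2) * K := le_mul_of_one_le_right (by positivity) hK1
    rw [hC4]
    linarith
  have e3 : (∑ m ∈ B, ((S2 X K W m).ncard : ℝ)) ≤ Real.sqrt (C3 * C4) * (X / L ^ κ) := by
    have h0 : 0 ≤ ∑ m ∈ B, ((S2 X K W m).ncard : ℝ) := Finset.sum_nonneg fun m _ => Nat.cast_nonneg _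
    have h1 : (∑ m ∈ B, ((S2 X K W m).ncard : ℝ)) ^ 2 ≤ (Real.sqrt (C3 * C4) * (X / L ^ κ)) ^ 2 := by
      refine p3.trans ?_
      rw [mul_pow, Real.sq_sqrt (by positivity)]
      calc (X / L ^ A) * (C3 * (2 : ℝ) ^ W * K ^ 2 * (1 + Real.log K) ^ 2 * X *
            (1 + Real.log (1 + L)))
          ≤ (X / L ^ A) * (C3 * (2 : ℝ) ^ W * K ^ 2 * K ^ 2 * X * (C4 * K)) := by gcongr
        _ = C3 * C4 * X ^ 2 * ((2 : ℝ) ^ W * (K ^ 2 * K ^ 2 * K) / L ^ A) := by ring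
        _ = C3 * C4 * X ^ 2 * L ^ ((1 + ε) * Real.log 2 + (2 * κ + 2 * κ + κ) - A) := by
            rw [h2W, hK2, hKd, ← Real.rpow_add hL0, ← Real.rpow_add hL0, ← Real.rpow_add hL0,
              ← Real.rpow_sub hL0]
        _ ≤ C3 * C4 * X ^ 2 * L ^ (-(2 * κ)) := by
            gcongr
            rw [hεA]
            linarith
        _ = C3 * C4 * (X / L ^ κ) ^ 2 := by
            rw [Real.rpow_neg hL0.le, div_pow, ← hK2]
            ring
    exact (pow_le_pow_iff_left₀ h0 (by positivity) (by norm_num)).mp h1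
  calc ∑ m ∈ B, (tx X m : ℝ)
      ≤ ∑ m ∈ B, (((S2 X K W m).ncard : ℝ) + 2 * (D1S X K m).ncard + 2 * (D2S X K W m).ncard) :=
        Finset.sum_le_sum fun m _ => tx_le_sec X K W m
    _ = ∑ m ∈ B, ((S2 X K W m).ncard : ℝ) + 2 * ∑ m ∈ B, ((D1S X K m).ncard : ℝ) +
        2 * ∑ m ∈ B, ((D2S X K W m).ncard : ℝ) := by
        rw [Finset.sum_add_distrib, Finset.sum_add_distrib, Finset.mul_sum, Finset.mul_sum]
    _ ≤ Real.sqrt (C3 * C4) * (X / L ^ κ) + 2 * (C1 * (X / L ^ κ)) +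
        2 * (2 * C2 * (X / L ^ κ)) := by
        have q1 := p1
        rw [e1] at q1
        have q2 := p2.trans e2
        linarith
    _ = (Real.sqrt (C3 * C4) + 2 * C1 + 4 * C2) * X / L ^ κ := by ring

end Pool.Agent.GaussMR
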