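import Pool.Agent.Lib_MP_f1a94e_mr.Basic
import Pool.Agent.Lib_MP_f1a94e_nt.Mult

/-!
# Piece EDGECOUNT: edges and factorisations of `m ^ 2 + 1`
-/

set_option autoImplicit false

namespace Pool.Agent.GaussMR

open Finset

/-- at most four pairs with given scalar product, determinant `1` or `-1`, norm of the first -/
theorem edge_fiber (P : Finset (G × G)) (n ε : ℤ) (g : ℕ) (hε : ε = 1 ∨ ε = -1)
    (h : ∀ r ∈ P, det r.1 r.2 = ε ∧ dot r.1 r.2 = n ∧ nm r.1 = g) : P.card ≤ 4 := by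
  classical
  have hinj : Set.InjOn (fun r : G × G =>
      (((r.1.re, r.1.im) : ℤ × ℤ), ((ε * r.2.re, ε * r.2.im) : ℤ × ℤ))) (P : Set (G × G)) := by
    intro r _ s _ hrs
    simp only [Prod.mk.injEq] at hrs
    obtain ⟨⟨h1, h2⟩, h3, h4⟩ := hrs
    have hε0 : ε ≠ 0 := by rcases hε with h | h <;> rw [h] <;> norm_num
    have h5 := mul_left_cancel₀ hε0 h3
    have h6 := mul_left_cancel₀ hε0 h4
    exact Prod.ext (Zsqrtd.ext h1 h2) (Zsqrtd.ext h5 h6)
  rw [← card_image_of_injOn hinj]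
  apply ParityQuad.opp_fiber _ (ε * n) (g : ℤ)
  intro r hr
  obtain ⟨s, hs, rfl⟩ := mem_image.mp hr
  obtain ⟨h1, h2, h3⟩ := h s hs
  have hε2 : ε * ε = 1 := by rcases hε with h | h <;> rw [h] <;> norm_num
  simp only [ParityQuad.dt, ParityQuad.dp, ParityQuad.Nm]
  unfold det at h1
  unfold dot at h2
  refine ⟨?_, ?_, ?_⟩
  · linear_combination ε * h1 + hε2
  · linear_combination ε * h2
  · have h4 := nm_eq s.1
    rw [h3] at h4
    exact h4.symm

/-- value of `F` at `m + i` -/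
theorem F_dot_det (F : G → ℝ) (hF : PM F) (n ε : ℤ) (hε : |ε| = 1)
    (hodd : Odd (nm (⟨n, ε⟩ : G))) : F ⟨(n.natAbs : ℤ), 1⟩ = F ⟨n, ε⟩ := by
  have hstar : ∀ a b : ℤ, star (⟨a, b⟩ : G) = ⟨a, -b⟩ := by
    intro a b
    apply Zsqrtd.ext <;> simp
  have hneg : ∀ a b : ℤ, -(⟨a, b⟩ : G) = ⟨-a, -b⟩ := by
    intro a b
    apply Zsqrtd.ext <;> simp
  have hodd1 : Odd (nm (star (⟨n, ε⟩ : G))) := by rw [nm_star]; exact hodd
  rcases Int.natAbs_eq n with hn | hn
  · rcases (abs_eq (by norm_num : (0 : ℤ) ≤ 1)).mp hε with h | h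
    · rw [h, ← hn]
    · rw [h] at hodd ⊢
      have h1 := hF.conj ⟨n, -1⟩ hodd
      rw [hstar, neg_neg] at h1
      rw [← hn]
      exact h1
  · have hn' : (n.natAbs : ℤ) = -n := by omega
    rw [hn']
    rcases (abs_eq (by norm_num : (0 : ℤ) ≤ 1)).mp hε with h | h
    · rw [h] at hodd hodd1 ⊢
      have h1 := hF.conj ⟨n, 1⟩ hodd
      have h2 := hF.neg hodd1
      rw [hstar, hneg, neg_neg] at h2
      rw [h2, ← h1, hstar]
    · rw [h] at hodd ⊢
      have h2 := hF.neg hodd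
      rw [hneg, neg_neg] at h2
      exact h2

theorem tx_eq (X : ℝ) (m : ℕ) : tx X m = ((Nat.divisors (m ^ 2 + 1)).filter
    (fun d : ℕ => (d : ℝ) ≤ X ∧ ((m ^ 2 + 1 : ℕ) : ℝ) ≤ X * d)).card := by
  classical
  unfold tx
  rw [← Set.ncard_coe_finset]
  congr 1
  ext d
  simp [Nat.mem_divisors]

open Classical in
/-- the edges with a given `m` -/
theorem edge_m (F : G → ℝ) (X : ℝ) (m : ℕ) :
    ((edges F X).filter (fun e => (dot e.1 e.2).natAbs = m)).card ≤ 16 * tx X m := by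
  set E := (edges F X).filter (fun e => (dot e.1 e.2).natAbs = m) with hE
  set D := (Nat.divisors (m ^ 2 + 1)).filter
    (fun d : ℕ => (d : ℝ) ≤ X ∧ ((m ^ 2 + 1 : ℕ) : ℝ) ≤ X * d) with hD
  set f : G × G → Bool × ℤ × ℕ := fun e => (decide (0 ≤ dot e.1 e.2), det e.1 e.2, nm e.1) with hf
  have hmem : ∀ e ∈ E, ((nm e.1 : ℝ) ≤ X ∧ Odd (nm e.1) ∧ Prim e.1) ∧
      ((nm e.2 : ℝ) ≤ X ∧ Odd (nm e.2) ∧ Prim e.2) ∧ |det e.1 e.2| = 1 ∧
      (dot e.1 e.2).natAbs = m := by
    intro e he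
    rw [hE, mem_filter] at he
    unfold edges at he
    rw [mem_filter, mem_product, mem_V, mem_V] at he
    exact ⟨he.1.1.1, he.1.1.2, he.1.2.1, he.2⟩
  have himg : E.image f ⊆ (univ : Finset Bool) ×ˢ (({1, -1} : Finset ℤ) ×ˢ D) := by
    intro t ht
    obtain ⟨e, he, rfl⟩ := mem_image.mp ht
    obtain ⟨h1, h2, h3, h4⟩ := hmem e he
    have hprod : nm e.1 * nm e.2 = m ^ 2 + 1 := by
      have h5 := dot_sq_add_det_sq e.1 e.2
      have h6 : det e.1 e.2 ^ 2 = 1 := by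
        rw [← sq_abs, h3]; norm_num
      have h7 : dot e.1 e.2 ^ 2 = ((m ^ 2 : ℕ) : ℤ) := by
        rw [← h4]; push_cast; rw [sq_abs]
      rw [h6, h7] at h5
      exact_mod_cast h5.symm
    simp only [hf, mem_product, mem_univ, true_and, mem_insert, mem_singleton]
    refine ⟨(abs_eq (by norm_num : (0 : ℤ) ≤ 1)).mp h3, ?_⟩
    rw [hD, mem_filter, Nat.mem_divisors]
    refine ⟨⟨⟨nm e.2, hprod.symm⟩, by positivity⟩, h1.1, ?_⟩
    rw [← hprod]
    push_cast
    rw [mul_comm]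
    exact mul_le_mul_of_nonneg_right h2.1 (by positivity)
  have hfib : ∀ t ∈ E.image f, (E.filter (fun e => f e = t)).card ≤ 4 := by
    intro t ht
    have ht' := himg ht
    obtain ⟨s, ε, g⟩ := t
    simp only [mem_product, mem_univ, true_and, mem_insert, mem_singleton] at ht'
    apply edge_fiber _ (if s then (m : ℤ) else -(m : ℤ)) ε g ht'.1
    intro r hr
    rw [mem_filter] at hr
    obtain ⟨h1, h2, h3, h4⟩ := hmem r hr.1
    simp only [hf, Prod.mk.injEq] at hr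
    obtain ⟨_, hs, hε, hg⟩ := hr
    refine ⟨hε, ?_, hg⟩
    rw [← hs, ← h4]
    by_cases h0 : 0 ≤ dot r.1 r.2
    · simp only [h0, decide_true, if_true]
      exact (Int.natAbs_of_nonneg h0).symm
    · simp only [h0, decide_false, Bool.false_eq_true, if_false]
      omega
  have h1 := card_le_mul_card_image E 4 hfib
  have h2 := card_le_card himg
  have h3 : ((univ : Finset Bool) ×ˢ (({1, -1} : Finset ℤ) ×ˢ D)).card = 4 * D.card := by
    rw [card_product, card_product, card_univ, Fintype.card_bool, card_pair (by norm_num)]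
    ring
  rw [h3, hD, ← tx_eq] at h2
  calc E.card ≤ 4 * (E.image f).card := h1
    _ ≤ 4 * (4 * tx X m) := Nat.mul_le_mul_left _ h2
    _ = 16 * tx X m := by ring

/-- For an edge `(a, b)`: `star a * b = ⟨dot a b, ± 1⟩`; with `m = |dot a b|` and `d = nm a`,
`d ∣ m² + 1 = nm a nm b`, both factors at most `X` and odd, so `m` is even; and
`F ⟨m, 1⟩ = F (star a * b) = F a F b = -1` (use `F (star z) = F z`, `F (-z) = F z`). Given `(m, d)` there
are at most 16 edges: 4 choices for `w = star a * b ∈ {±m ± i}`, and given `w`: two edges `(a, b)`,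
`(a', b')` with `nm a = nm a'` and `star a * b = star a' * b' = w` satisfy `a' = unit * a`
(see also `ParityQuad.opp_fiber`, `opp_key`, `opp_inj` in Lib_MP_f1a94e_nt/Mult.lean). -/
theorem edge_count (F : G → ℝ) (hF : PM F) (X : ℝ) (B : Finset ℕ)
    (hB : ∀ m : ℕ, Even m → (m : ℝ) ≤ X → F ⟨(m : ℤ), 1⟩ = -1 → m ∈ B) :
    ((edges F X).card : ℝ) ≤ 16 * ∑ m ∈ B, (tx X m : ℝ) := by
  classical
  have hsub : edges F X ⊆ B.biUnion
      (fun m => (edges F X).filter (fun e => (dot e.1 e.2).natAbs = m)) := by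
    intro e he
    rw [mem_biUnion]
    refine ⟨(dot e.1 e.2).natAbs, ?_, mem_filter.mpr ⟨he, rfl⟩⟩
    unfold edges at he
    rw [mem_filter, mem_product, mem_V, mem_V] at he
    obtain ⟨⟨h1, h2⟩, h3, h4⟩ := he
    set m := (dot e.1 e.2).natAbs with hm
    have hprod : nm e.1 * nm e.2 = m ^ 2 + 1 := by
      have h5 := dot_sq_add_det_sq e.1 e.2
      have h6 : det e.1 e.2 ^ 2 = 1 := by
        rw [← sq_abs, h3]; norm_num
      have h7 : dot e.1 e.2 ^ 2 = ((m ^ 2 : ℕ) : ℤ) := by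
        rw [hm]; push_cast; rw [sq_abs]
      rw [h6, h7] at h5
      exact_mod_cast h5.symm
    have hodd : Odd (m ^ 2 + 1) := by rw [← hprod]; exact h1.2.1.mul h2.2.1
    have hX : 0 ≤ X := (by positivity : (0 : ℝ) ≤ nm e.1).trans h1.1
    apply hB
    · by_contra hne
      rw [Nat.not_even_iff_odd] at hne
      have : Even (m ^ 2 + 1) := (hne.pow).add_odd odd_one
      exact (Nat.not_even_iff_odd.mpr hodd) this
    · have h5 : ((m ^ 2 + 1 : ℕ) : ℝ) ≤ X * X := by
        rw [← hprod]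
        push_cast
        exact mul_le_mul h1.1 h2.1 (by positivity) hX
      push_cast at h5
      nlinarith [sq_nonneg ((m : ℝ) - X)]
    · have h5 : star e.1 * e.2 = ⟨dot e.1 e.2, det e.1 e.2⟩ := star_mul_eq _ _
      have hos : Odd (nm (star e.1)) := by rw [nm_star]; exact h1.2.1
      have h6 : Odd (nm (⟨dot e.1 e.2, det e.1 e.2⟩ : G)) := by
        rw [← h5]
        exact odd_nm_mul.mpr ⟨hos, h2.2.1⟩
      rw [F_dot_det F hF _ _ h3 h6, ← h5, hF.mul _ _ hos h2.2.1, hF.conj _ h1.2.1,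
        hF.mul_eq h1.2.1 h2.2.1, if_pos h4]
      norm_num
  calc ((edges F X).card : ℝ)
      ≤ ((B.biUnion (fun m => (edges F X).filter (fun e => (dot e.1 e.2).natAbs = m))).card : ℝ) := by
        exact_mod_cast card_le_card hsub
    _ ≤ ∑ m ∈ B, (((edges F X).filter (fun e => (dot e.1 e.2).natAbs = m)).card : ℝ) := by
        exact_mod_cast card_biUnion_le
    _ ≤ ∑ m ∈ B, 16 * (tx X m : ℝ) := by
        apply sum_le_sum
        intro m _
        exact_mod_cast edge_m F X m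
    _ = 16 * ∑ m ∈ B, (tx X m : ℝ) := by rw [mul_sum]

end Pool.Agent.GaussMR
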