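import Pool.Agent.Lib_MP_f1a94e_mr.Final

/-!
# The strong theorem for completely multiplicative functions
-/

set_option autoImplicit false

namespace Pool.Agent.GaussMR

open Filter

/-- the sign of the second coordinate -/
def tw (z : G) : ℝ := if Even z.im then 1 else -1

theorem tw_pm (z : G) : tw z = 1 ∨ tw z = -1 := by
  unfold tw
  split_ifs <;> simp

theorem tw_mul (z w : G) (hz : Odd (nm z)) (hw : Odd (nm w)) : tw (z * w) = tw z * tw w := by
  rw [odd_nm_iff] at hz hw
  have him : (z * w).im = z.re * w.im + z.im * w.re := by simp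
  unfold tw
  rw [him]
  rcases Int.even_or_odd z.im with h1 | h1 <;> rcases Int.even_or_odd w.im with h2 | h2
  · rw [if_pos h1, if_pos h2, if_pos ((h2.mul_left _).add (h1.mul_right _))]
    norm_num
  · have h3 : Odd z.re := by
      rcases Int.even_or_odd z.re with h | h
      · exact absurd hz (Int.not_odd_iff_even.2 (h.add h1))
      · exact h
    rw [if_pos h1, if_neg (Int.not_even_iff_odd.2 h2),
      if_neg (Int.not_even_iff_odd.2 ((h3.mul h2).add_even (h1.mul_right _)))]
    norm_num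
  · have h3 : Odd w.re := by
      rcases Int.even_or_odd w.re with h | h
      · exact absurd hw (Int.not_odd_iff_even.2 (h.add h2))
      · exact h
    rw [if_neg (Int.not_even_iff_odd.2 h1), if_pos h2,
      if_neg (Int.not_even_iff_odd.2 ((h2.mul_left _).add_odd (h1.mul h3)))]
    norm_num
  · have h3 : Even z.re := by
      rcases Int.even_or_odd z.re with h | h
      · exact h
      · exact absurd hz (Int.not_odd_iff_even.2 (h.add_odd h1))
    have h4 : Even w.re := by
      rcases Int.even_or_odd w.re with h | h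
      · exact h
      · exact absurd hw (Int.not_odd_iff_even.2 (h.add_odd h2))
    rw [if_neg (Int.not_even_iff_odd.2 h1), if_neg (Int.not_even_iff_odd.2 h2),
      if_pos ((h3.mul_right _).add (h4.mul_left _))]
    norm_num

theorem nm_line_main (m : ℕ) : nm (⟨(m : ℤ), 1⟩ : G) = m ^ 2 + 1 := by
  have h : (nm (⟨(m : ℤ), 1⟩ : G) : ℤ) = ((m ^ 2 + 1 : ℕ) : ℤ) := by
    rw [nm_eq]
    push_cast
    ring
  exact_mod_cast h

theorem general_real (g : ℕ → ℤ) (h1 : ∀ n, 0 < n → g n = 1 ∨ g n = -1)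
    (h2 : ∀ m n, 0 < m → 0 < n → g (m * n) = g m * g n) (A : ℝ) (hA : Real.log 2 < A) :
    ((∃ m : ℕ, Even m ∧ g (m ^ 2 + 1) = -1) → ∃ X0 : ℝ, ∀ X : ℝ, X0 ≤ X →
      X / Real.log X ^ A ≤
        (Set.ncard {m : ℕ | (m : ℝ) ≤ X ∧ Even m ∧ g (m ^ 2 + 1) = -1} : ℝ)) ∧
    (∃ X0 : ℝ, ∀ X : ℝ, X0 ≤ X → X / Real.log X ^ A ≤
        (Set.ncard {m : ℕ | (m : ℝ) ≤ X ∧ Even m ∧ g (m ^ 2 + 1) = 1} : ℝ)) := by
  have hg1 : g 1 = 1 := by
    have h := h2 1 1 one_pos one_pos
    rcases h1 1 one_pos with h3 | h3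
    · exact h3
    · rw [mul_one, h3] at h
      norm_num at h
  have hpm : ∀ z : G, Odd (nm z) → (g (nm z) : ℝ) = 1 ∨ (g (nm z) : ℝ) = -1 := by
    intro z hz
    rcases h1 (nm z) (nm_pos_of_odd hz) with h | h <;> rw [h] <;> norm_num
  have hmul : ∀ z w : G, Odd (nm z) → Odd (nm w) →
      (g (nm (z * w)) : ℝ) = (g (nm z) : ℝ) * (g (nm w) : ℝ) := by
    intro z w hz hw
    rw [nm_mul, h2 _ _ (nm_pos_of_odd hz) (nm_pos_of_odd hw)]
    push_cast
    rfl
  constructor
  · rintro ⟨m0, hm0, hgm0⟩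
    have hF : PM (fun z => (g (nm z) : ℝ)) := by
      refine ⟨hpm, hmul, ?_, ?_⟩
      · intro z _
        simp only [nm_star]
      · simp only [nm_neg, nm_one, hg1]
        norm_num
    obtain ⟨X0, hX0⟩ := main_real _ hF ⟨(m0 : ℤ), 1⟩
      (by rw [nm_line_main]; exact (hm0.pow_of_ne_zero two_ne_zero).add_one)
      (by unfold Prim; exact isCoprime_one_right)
      (by simp only [nm_line_main, hgm0]; norm_num) A hA
    refine ⟨X0, fun X hX => (hX0 X hX).trans (le_of_eq ?_)⟩
    congr 2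
    ext m
    simp only [Set.mem_setOf_eq, nm_line_main]
    have : ((g (m ^ 2 + 1) : ℝ) = -1) ↔ g (m ^ 2 + 1) = -1 := by
      constructor
      · intro h; exact_mod_cast h
      · intro h; rw [h]; norm_num
    rw [this]
  · have hF : PM (fun z => (g (nm z) : ℝ) * tw z) := by
      refine ⟨?_, ?_, ?_, ?_⟩
      · intro z hz
        rcases hpm z hz with h | h <;> rcases tw_pm z with h' | h' <;> simp only [h, h'] <;>
          norm_num
      · intro z w hz hw
        simp only [hmul z w hz hw, tw_mul z w hz hw]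
        ring
      · intro z _
        have : tw (star z) = tw z := by
          unfold tw
          simp
        simp only [nm_star, this]
      · have : tw (-1) = 1 := by
          unfold tw
          simp
        simp only [nm_neg, nm_one, hg1, this]
        norm_num
    have htw : ∀ m : ℤ, tw ⟨m, 1⟩ = -1 := by
      intro m
      unfold tw
      simp
    have hv : nm (⟨0, 1⟩ : G) = 1 := by
      have := nm_line_main 0
      simpa using this
    obtain ⟨X0, hX0⟩ := main_real _ hF ⟨0, 1⟩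
      (by rw [hv]; exact odd_one)
      (by unfold Prim; exact isCoprime_one_right)
      (by simp only [hv, hg1, htw]; norm_num) A hA
    refine ⟨X0, fun X hX => (hX0 X hX).trans (le_of_eq ?_)⟩
    congr 2
    ext m
    simp only [Set.mem_setOf_eq, nm_line_main, htw]
    have : ((g (m ^ 2 + 1) : ℝ) * -1 = -1) ↔ g (m ^ 2 + 1) = 1 := by
      constructor
      · intro h
        have : (g (m ^ 2 + 1) : ℝ) = 1 := by linarith
        exact_mod_cast this
      · intro h; rw [h]; norm_num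
    rw [this]

/-- version for natural numbers `x` -/
theorem general_nat (P : ℕ → Prop) (A : ℝ)
    (h : ∃ X0 : ℝ, ∀ X : ℝ, X0 ≤ X → X / Real.log X ^ A ≤
      (Set.ncard {m : ℕ | (m : ℝ) ≤ X ∧ Even m ∧ P (m ^ 2 + 1)} : ℝ)) :
    ∀ᶠ x : ℕ in atTop, (x : ℝ) / Real.log x ^ A ≤
      (Set.ncard {m : ℕ | m ≤ x ∧ Even m ∧ P (m ^ 2 + 1)} : ℝ) := by
  obtain ⟨X0, hX0⟩ := h
  filter_upwards [eventually_ge_atTop ⌈X0⌉₊] with x hx
  have hx' : X0 ≤ x := (Nat.le_ceil _).trans (by exact_mod_cast hx)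
  have h1 := hX0 x hx'
  simpa using h1

/-- version counting the values `m ^ 2 + 1 ≤ N` -/
theorem general_values (P : ℕ → Prop) (A : ℝ) (hA : Real.log 2 < A)
    (h : ∃ X0 : ℝ, ∀ X : ℝ, X0 ≤ X → X / Real.log X ^ A ≤
      (Set.ncard {m : ℕ | (m : ℝ) ≤ X ∧ Even m ∧ P (m ^ 2 + 1)} : ℝ)) :
    ∀ᶠ N : ℕ in atTop, Real.sqrt N / Real.log N ^ A ≤
      (Set.ncard {k : ℕ | k ≤ N ∧ (∃ m : ℕ, Even m ∧ k = m ^ 2 + 1) ∧ P k} : ℝ) := by
  obtain ⟨X0, hX0⟩ := h
  have hsq : Tendsto (fun N : ℕ => Real.sqrt ((N : ℝ) - 1)) atTop atTop := by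
    have h1 : Tendsto (fun N : ℕ => (N : ℝ) - 1) atTop atTop :=
      tendsto_atTop_add_const_right _ _ tendsto_natCast_atTop_atTop
    exact Real.tendsto_sqrt_atTop.comp h1
  filter_upwards [hsq.eventually_ge_atTop X0, eventually_ge_atTop 17] with N hN hN17
  set X : ℝ := Real.sqrt ((N : ℝ) - 1) with hXdef
  have hN17r : (17 : ℝ) ≤ N := by exact_mod_cast hN17
  have hXsq : X ^ 2 = N - 1 := Real.sq_sqrt (by linarith)
  have hX0' : 0 ≤ X := Real.sqrt_nonneg _
  have hX4 : 4 ≤ X := by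
    rw [hXdef]
    apply Real.le_sqrt_of_sq_le
    linarith
  have hmain := hX0 X hN
  refine le_trans ?_ (hmain.trans ?_)
  · have hlogX : 0 < Real.log X := Real.log_pos (by linarith)
    have hl2 : 2 * Real.log X ≤ Real.log N := by
      have h3 : X ^ 2 ≤ N := by rw [hXsq]; linarith
      have h4 := Real.log_le_log (by positivity) h3
      rw [Real.log_pow] at h4
      exact_mod_cast h4
    have hlogN : 0 < Real.log N := by linarith
    have h5 : (2 * Real.log X) ^ A ≤ Real.log N ^ A := by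
      apply Real.rpow_le_rpow (by positivity) hl2
      have := Real.log_pos (one_lt_two)
      linarith
    have h6 : (2 : ℝ) ^ A * Real.log X ^ A ≤ Real.log N ^ A := by
      rw [← Real.mul_rpow (by norm_num) hlogX.le]
      exact h5
    have h7 : (3 / 2 : ℝ) ≤ 2 ^ A := by
      have h8 : (2 : ℝ) ^ (0.6 : ℝ) ≤ 2 ^ A := by
        apply Real.rpow_le_rpow_of_exponent_le (by norm_num)
        have := Real.log_two_gt_d9
        linarith
      have h9 : (3 / 2 : ℝ) ≤ 2 ^ (0.6 : ℝ) := by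
        have h10 : ((2 : ℝ) ^ (0.6 : ℝ)) ^ 5 = 8 := by
          rw [← Real.rpow_natCast, ← Real.rpow_mul (by norm_num)]
          norm_num
        by_contra hc
        push Not at hc
        have h11 : ((2 : ℝ) ^ (0.6 : ℝ)) ^ 5 < (3 / 2) ^ 5 :=
          pow_lt_pow_left₀ hc (by positivity) (by norm_num)
        rw [h10] at h11
        norm_num at h11
      linarith
    have h12 : Real.sqrt N ≤ 3 / 2 * X := by
      rw [show (3 / 2 * X) = Real.sqrt ((3 / 2 * X) ^ 2) from
        (Real.sqrt_sq (by positivity)).symm]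
      apply Real.sqrt_le_sqrt
      nlinarith
    have hlA : 0 < Real.log X ^ A := Real.rpow_pos_of_pos hlogX _
    rw [div_le_div_iff₀ (Real.rpow_pos_of_pos hlogN _) hlA]
    calc Real.sqrt N * Real.log X ^ A ≤ (3 / 2 * X) * Real.log X ^ A :=
          mul_le_mul_of_nonneg_right h12 hlA.le
      _ = X * (3 / 2 * Real.log X ^ A) := by ring
      _ ≤ X * ((2 : ℝ) ^ A * Real.log X ^ A) := by gcongr
      _ ≤ X * Real.log N ^ A := by gcongr
  · norm_cast
    have hfin : {k : ℕ | k ≤ N ∧ (∃ m : ℕ, Even m ∧ k = m ^ 2 + 1) ∧ P k}.Finite :=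
      (Set.finite_Iic N).subset fun k hk => hk.1
    refine Set.ncard_le_ncard_of_injOn (fun m => m ^ 2 + 1) ?_ ?_ hfin
    · rintro m ⟨hm1, hm2, hm3⟩
      refine ⟨?_, ⟨m, hm2, rfl⟩, hm3⟩
      have h1 : (m : ℝ) ^ 2 ≤ X ^ 2 := pow_le_pow_left₀ (by positivity) hm1 2
      rw [hXsq] at h1
      have h2 : ((m ^ 2 + 1 : ℕ) : ℝ) ≤ N := by
        push_cast
        linarith
      exact_mod_cast h2
    · intro a _ b _ hab
      have : a ^ 2 = b ^ 2 := by simpa using hab
      exact (Nat.pow_left_injective (n := 2) (by norm_num)) this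

end Pool.Agent.GaussMR
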