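import Pool.Agent.Lib_MP_f1a94e_mr.Space
import Pool.Agent.Lib_MP_f1a94e_mr.Circ
import Pool.Agent.Lib_MP_f1a94e_mr.Fejer

/-!
# Piece LS: the large sieve on the circle
-/

set_option autoImplicit false

namespace Pool.Agent.GaussMR

/-- the smoothed sum in terms of the Fejer kernel -/
theorem ls_expand (X : ℝ) (M : ℕ) (hM : 1 ≤ M) (a : G → ℂ) :
    ((∑ k ∈ fr M, (1 - |(k : ℝ)| / M) * ‖∑ z ∈ V X, a z * xi (-k) z‖ ^ 2 : ℝ) : ℂ) =
      ∑ z ∈ V X, ∑ w ∈ V X, a z * (starRingEnd ℂ) (a w) * ((fej M (dir w / dir z) : ℝ) : ℂ) := by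
  have h1 : ∀ k : ℤ, ((‖∑ z ∈ V X, a z * xi (-k) z‖ ^ 2 : ℝ) : ℂ) =
      ∑ z ∈ V X, ∑ w ∈ V X, a z * (starRingEnd ℂ) (a w) * (dir w / dir z) ^ k := by
    intro k
    rw [← Complex.normSq_eq_norm_sq, ← Complex.mul_conj, map_sum, Finset.sum_mul_sum]
    refine Finset.sum_congr rfl fun z hz => Finset.sum_congr rfl fun w hw => ?_
    rw [map_mul, conj_xi _ (V_ne_zero hw), neg_neg, div_zpow]
    unfold xi
    rw [zpow_neg, div_eq_mul_inv]
    ring
  have h2 : ((∑ k ∈ fr M, (1 - |(k : ℝ)| / M) * ‖∑ z ∈ V X, a z * xi (-k) z‖ ^ 2 : ℝ) : ℂ) =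
      ∑ k ∈ fr M, ((1 - |(k : ℝ)| / M : ℝ) : ℂ) *
        ∑ z ∈ V X, ∑ w ∈ V X, a z * (starRingEnd ℂ) (a w) * (dir w / dir z) ^ k := by
    rw [Complex.ofReal_sum]
    refine Finset.sum_congr rfl fun k _ => ?_
    rw [Complex.ofReal_mul, h1 k]
  rw [h2]
  simp_rw [Finset.mul_sum]
  rw [Finset.sum_comm]
  refine Finset.sum_congr rfl fun z hz => ?_
  rw [Finset.sum_comm]
  refine Finset.sum_congr rfl fun w hw => ?_
  have hu : ‖dir w / dir z‖ = 1 := by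
    rw [norm_div, norm_dir (V_ne_zero hw), norm_dir (V_ne_zero hz), div_one]
  rw [fej_eq M hM _ hu, Finset.mul_sum]
  refine Finset.sum_congr rfl fun k _ => ?_
  ring

theorem fej_dir_le (M : ℕ) (hM : 1 ≤ M) (z w : G) (hz : z ≠ 0) (hw : w ≠ 0) :
    fej M (dir w / dir z) ≤ M ∧ fej M (dir w / dir z) * (M * ‖dir w - dir z‖ ^ 2) ≤ 4 := by
  have hu : ‖dir w / dir z‖ = 1 := by
    rw [norm_div, norm_dir hw, norm_dir hz, div_one]
  refine ⟨fej_le M hM _ hu, ?_⟩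
  have h1 := fej_mul_le M hM _ hu
  have h2 : dir w / dir z - 1 = (dir w - dir z) / dir z := by
    have := dir_ne_zero hz
    field_simp
  rw [h2, norm_div, norm_dir hz, div_one] at h1
  exact h1

/-- Large sieve. Proof: `M = 2 T + 2`; for `|k| ≤ T` the Fejer weight `1 - |k| / M` is at least `1/2`, so
the left side is at most `2 ∑_{|k| ≤ M} (1 - |k|/M) |∑ a_z xi_{-k}(z)|^2
= 2 ∑_{z,w} a_z conj(a_w) fej M (dir w / dir z) ≤ 2 ∑_z |a_z|^2 max_z ∑_w fej M (dir w / dir z)`, and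
`sum_kernel` with `δ = 1 / X` (from `spaced`). -/
theorem large_sieve : ∃ C : ℝ, 0 < C ∧ ∀ (X : ℝ) (T : ℕ) (a : G → ℂ), 1 ≤ X →
    ∑ k ∈ fr T, ‖∑ z ∈ V X, a z * xi (-k) z‖ ^ 2 ≤ C * (T + X) * ∑ z ∈ V X, ‖a z‖ ^ 2 := by
  refine ⟨2400, by norm_num, ?_⟩
  intro X T a hX
  set M : ℕ := 2 * T + 2 with hM
  have hM1 : 1 ≤ M := by omega
  have hMr : (M : ℝ) = 2 * T + 2 := by rw [hM]; push_cast; ring
  have hM0 : (0 : ℝ) < M := by rw [hMr]; positivity
  have hM1r : (1 : ℝ) ≤ M := by exact_mod_cast hM1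
  set B : ℝ := 400 * (M + X) with hB
  have hX0 : 0 < X := by linarith
  -- bound for the sums of the kernel
  have hker : ∀ z ∈ V X, ∑ w ∈ V X, fej M (dir w / dir z) ≤ B := by
    intro z hz
    have h1 := sum_kernel (V X) dir (1 / X) (by positivity) (fun w hw => norm_dir (V_ne_zero hw))
      (fun z' hz' w hw hne => spaced X z' w hz' hw hne) (dir z) (norm_dir (V_ne_zero hz)) M hM1r
      (fun w => fej M (dir w / dir z))
      (fun w hw => (fej_dir_le M hM1 z w (V_ne_zero hz) (V_ne_zero hw)).1)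
      (fun w hw => (fej_dir_le M hM1 z w (V_ne_zero hz) (V_ne_zero hw)).2)
    rw [one_div_one_div] at h1
    exact h1
  have hker' : ∀ w ∈ V X, ∑ z ∈ V X, fej M (dir w / dir z) ≤ B := by
    intro w hw
    have h1 := sum_kernel (V X) dir (1 / X) (by positivity) (fun z hz => norm_dir (V_ne_zero hz))
      (fun z' hz' w hw hne => spaced X z' w hz' hw hne) (dir w) (norm_dir (V_ne_zero hw)) M hM1r
      (fun z => fej M (dir w / dir z))
      (fun z hz => (fej_dir_le M hM1 z w (V_ne_zero hz) (V_ne_zero hw)).1)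
      (fun z hz => by
        rw [norm_sub_rev]
        exact (fej_dir_le M hM1 z w (V_ne_zero hz) (V_ne_zero hw)).2)
    rw [one_div_one_div] at h1
    exact h1
  -- smoothing
  have hsm : ∑ k ∈ fr T, ‖∑ z ∈ V X, a z * xi (-k) z‖ ^ 2 ≤
      2 * ∑ k ∈ fr M, (1 - |(k : ℝ)| / M) * ‖∑ z ∈ V X, a z * xi (-k) z‖ ^ 2 := by
    rw [Finset.mul_sum]
    have hsub : fr T ⊆ fr M := by
      intro k hk
      rw [mem_fr] at hk ⊢
      omega
    calc ∑ k ∈ fr T, ‖∑ z ∈ V X, a z * xi (-k) z‖ ^ 2 ≤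
          ∑ k ∈ fr T, 2 * ((1 - |(k : ℝ)| / M) * ‖∑ z ∈ V X, a z * xi (-k) z‖ ^ 2) := by
          refine Finset.sum_le_sum fun k hk => ?_
          rw [mem_fr] at hk
          have h1 : |(k : ℝ)| ≤ T := by
            rw [abs_le]
            constructor
            · exact_mod_cast hk.1
            · exact_mod_cast hk.2
          have h2 : |(k : ℝ)| / M ≤ 1 / 2 := by
            rw [div_le_iff₀ hM0, hMr]
            linarith
          have h3 : 0 ≤ ‖∑ z ∈ V X, a z * xi (-k) z‖ ^ 2 := by positivity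
          nlinarith
      _ ≤ ∑ k ∈ fr M, 2 * ((1 - |(k : ℝ)| / M) * ‖∑ z ∈ V X, a z * xi (-k) z‖ ^ 2) := by
          refine Finset.sum_le_sum_of_subset_of_nonneg hsub fun k hk _ => ?_
          rw [mem_fr] at hk
          have h1 : |(k : ℝ)| ≤ M := by
            rw [abs_le]
            constructor
            · exact_mod_cast hk.1
            · exact_mod_cast hk.2
          have h2 : |(k : ℝ)| / M ≤ 1 := by
            rw [div_le_one hM0]
            exact h1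
          have h3 : 0 ≤ 1 - |(k : ℝ)| / M := by linarith
          positivity
  -- the quadratic form
  have hq : ∑ k ∈ fr M, (1 - |(k : ℝ)| / M) * ‖∑ z ∈ V X, a z * xi (-k) z‖ ^ 2 ≤
      B * ∑ z ∈ V X, ‖a z‖ ^ 2 := by
    have h1 := congrArg Complex.re (ls_expand X M hM1 a)
    rw [Complex.ofReal_re] at h1
    rw [h1, Complex.re_sum]
    have h2 : ∀ z ∈ V X, (∑ w ∈ V X, a z * (starRingEnd ℂ) (a w) *
        ((fej M (dir w / dir z) : ℝ) : ℂ)).re ≤
        ∑ w ∈ V X, (‖a z‖ ^ 2 * fej M (dir w / dir z) / 2 +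
          ‖a w‖ ^ 2 * fej M (dir w / dir z) / 2) := by
      intro z _
      rw [Complex.re_sum]
      refine Finset.sum_le_sum fun w _ => ?_
      rw [mul_comm, Complex.re_ofReal_mul]
      have h3 : (a z * (starRingEnd ℂ) (a w)).re ≤ ‖a z‖ ^ 2 / 2 + ‖a w‖ ^ 2 / 2 := by
        refine (Complex.re_le_norm _).trans ?_
        rw [norm_mul, Complex.norm_conj]
        nlinarith [sq_nonneg (‖a z‖ - ‖a w‖)]
      have h4 := fej_nonneg M (dir w / dir z)
      nlinarith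
    refine (Finset.sum_le_sum h2).trans ?_
    simp_rw [Finset.sum_add_distrib]
    have h5 : ∑ z ∈ V X, ∑ w ∈ V X, ‖a z‖ ^ 2 * fej M (dir w / dir z) / 2 ≤
        B / 2 * ∑ z ∈ V X, ‖a z‖ ^ 2 := by
      rw [Finset.mul_sum]
      refine Finset.sum_le_sum fun z hz => ?_
      rw [← Finset.sum_div, ← Finset.mul_sum]
      have h6 := hker z hz
      have h7 : 0 ≤ ‖a z‖ ^ 2 := by positivity
      nlinarith
    have h6 : ∑ z ∈ V X, ∑ w ∈ V X, ‖a w‖ ^ 2 * fej M (dir w / dir z) / 2 ≤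
        B / 2 * ∑ z ∈ V X, ‖a z‖ ^ 2 := by
      rw [Finset.sum_comm, Finset.mul_sum]
      refine Finset.sum_le_sum fun w hw => ?_
      rw [← Finset.sum_div, ← Finset.mul_sum]
      have h6 := hker' w hw
      have h7 : 0 ≤ ‖a w‖ ^ 2 := by positivity
      nlinarith
    linarith
  have hS : 0 ≤ ∑ z ∈ V X, ‖a z‖ ^ 2 := Finset.sum_nonneg fun z _ => by positivity
  have hfin : 2 * B ≤ 2400 * (T + X) := by
    rw [hB, hMr]
    have : (0 : ℝ) ≤ T := Nat.cast_nonneg T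
    linarith
  calc ∑ k ∈ fr T, ‖∑ z ∈ V X, a z * xi (-k) z‖ ^ 2 ≤
        2 * ∑ k ∈ fr M, (1 - |(k : ℝ)| / M) * ‖∑ z ∈ V X, a z * xi (-k) z‖ ^ 2 := hsm
    _ ≤ 2 * (B * ∑ z ∈ V X, ‖a z‖ ^ 2) := by linarith
    _ = 2 * B * ∑ z ∈ V X, ‖a z‖ ^ 2 := by ring
    _ ≤ 2400 * (T + X) * ∑ z ∈ V X, ‖a z‖ ^ 2 := by gcongr

/-- Large sieve for a finite family: group the indices `i` by the primitive part of `g i`. -/
theorem large_sieve_fam : ∃ C : ℝ, 0 < C ∧ ∀ (ι : Type) (s : Finset ι) (g : ι → G) (c : ι → ℂ)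
    (Y : ℝ) (T : ℕ), 1 ≤ Y → (∀ i ∈ s, ‖c i‖ ≤ 1) →
    (∀ i ∈ s, Odd (nm (g i)) ∧ (nm (g i) : ℝ) ≤ Y) →
    ∑ k ∈ fr T, ‖∑ i ∈ s, c i * xi (-k) (g i)‖ ^ 2 ≤
      C * (T + Y) * (Set.ncard {p : ι × ι | p.1 ∈ s ∧ p.2 ∈ s ∧ pr (g p.1) = pr (g p.2)} : ℝ) := by
  classical
  obtain ⟨C, hC, hls⟩ := large_sieve
  refine ⟨C, hC, ?_⟩
  intro ι s g c Y T hY hc hg
  set a : G → ℂ := fun z => ∑ i ∈ s.filter (fun i => pr (g i) = z), c i with ha
  have hmaps : ∀ i ∈ s, pr (g i) ∈ V Y := fun i hi => pr_mem_V Y (g i) (hg i hi).1 (hg i hi).2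
  have h1 : ∀ k : ℤ, ∑ i ∈ s, c i * xi (-k) (g i) = ∑ z ∈ V Y, a z * xi (-k) z := by
    intro k
    rw [← Finset.sum_fiberwise_of_maps_to hmaps]
    refine Finset.sum_congr rfl fun z hz => ?_
    rw [ha, Finset.sum_mul]
    refine Finset.sum_congr rfl fun i hi => ?_
    obtain ⟨hi1, hi2⟩ := Finset.mem_filter.1 hi
    rw [← hi2, xi_pr _ _ (ne_zero_of_odd (hg i hi1).1)]
  have h2 := hls Y T a hY
  simp_rw [h1]
  refine h2.trans ?_
  have hT : (0 : ℝ) ≤ T := Nat.cast_nonneg T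
  refine mul_le_mul_of_nonneg_left ?_ (by positivity)
  -- count the pairs
  have h3 : {p : ι × ι | p.1 ∈ s ∧ p.2 ∈ s ∧ pr (g p.1) = pr (g p.2)} =
      (((s ×ˢ s).filter (fun p : ι × ι => pr (g p.1) = pr (g p.2)) : Finset (ι × ι)) :
        Set (ι × ι)) := by
    ext p
    simp [and_assoc]
  rw [h3, Set.ncard_coe_finset]
  have h4 : ((s ×ˢ s).filter (fun p : ι × ι => pr (g p.1) = pr (g p.2))).card =
      ∑ z ∈ V Y, (s.filter (fun i => pr (g i) = z)).card ^ 2 := by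
    rw [Finset.card_eq_sum_card_fiberwise (f := fun p : ι × ι => pr (g p.1)) (t := V Y)]
    · refine Finset.sum_congr rfl fun z hz => ?_
      rw [sq, ← Finset.card_product]
      congr 1
      ext p
      simp only [Finset.mem_filter, Finset.mem_product]
      constructor
      · rintro ⟨⟨⟨h1, h2⟩, h3⟩, h4⟩
        exact ⟨⟨h1, h4⟩, h2, h3 ▸ h4⟩
      · rintro ⟨⟨h1, h2⟩, h3, h4⟩
        exact ⟨⟨⟨h1, h3⟩, h2.trans h4.symm⟩, h2⟩
    · intro p hp
      have hp' := Finset.mem_coe.1 hp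
      simp only [Finset.mem_filter, Finset.mem_product] at hp'
      exact hmaps p.1 hp'.1.1
  rw [h4]
  push_cast
  refine Finset.sum_le_sum fun z hz => ?_
  have h5 : ‖a z‖ ≤ ((s.filter (fun i => pr (g i) = z)).card : ℝ) := by
    rw [ha]
    refine (norm_sum_le _ _).trans ?_
    calc ∑ i ∈ s.filter (fun i => pr (g i) = z), ‖c i‖ ≤
          ∑ i ∈ s.filter (fun i => pr (g i) = z), (1 : ℝ) :=
          Finset.sum_le_sum fun i hi => hc i (Finset.mem_filter.1 hi).1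
      _ = _ := by simp
  gcongr

end Pool.Agent.GaussMR
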