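import Pool.Agent.Lib_MP_f1a94e_mr.SieveA
import Pool.Agent.Lib_MP_f1a94e_mr.Ball0

/-!
# Piece SIEVE: almost primes on which `xi (2 k)` is not close to one
-/

set_option autoImplicit false

namespace Pool.Agent.GaussMR

open Finset in
/-- `∑ 1 / nm s` over `0 < nm s ≤ X` by dyadic summation -/
theorem sum_inv_nm_le (X : ℝ) (J : ℕ) (hJ : X ≤ 2 ^ J) :
    ∑ s ∈ (ball X).filter (fun z => z ≠ 0), 1 / (nm s : ℝ) ≤ 18 * ((J : ℝ) + 1) := by
  classical
  have h1 : ∀ s ∈ (ball X).filter (fun z => z ≠ 0), 1 / (nm s : ℝ) ≤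
      ∑ j ∈ range (J + 1), if (nm s : ℝ) ≤ 2 ^ j then 2 * (1 / 2 : ℝ) ^ j else 0 := by
    intro s hs
    rw [mem_filter, mem_ball] at hs
    have hpos : 0 < nm s := nm_pos hs.2
    have hpos' : (0 : ℝ) < nm s := by exact_mod_cast hpos
    set j0 := Nat.clog 2 (nm s) with hj0
    have h2 : nm s ≤ 2 ^ j0 := Nat.le_pow_clog (by norm_num) _
    have h3 : (2 : ℝ) ^ j0 < 2 * nm s := by
      rcases Nat.lt_or_ge 1 (nm s) with h | h
      · have h4 : 2 ^ (j0 - 1) < nm s := Nat.pow_pred_clog_lt_self (by norm_num) h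
        have h5 : 0 < j0 := Nat.clog_pos (by norm_num) h
        have h6 : 2 ^ j0 = 2 * 2 ^ (j0 - 1) := by
          rw [← pow_succ']
          congr 1
          omega
        have h7 : 2 ^ j0 < 2 * nm s := by rw [h6]; omega
        exact_mod_cast h7
      · have h4 : nm s = 1 := by omega
        have h5 : j0 = 0 := by rw [hj0, h4]; simp
        rw [h5, h4]; norm_num
    have h4 : j0 ∈ range (J + 1) := by
      rw [mem_range, Nat.lt_succ_iff]
      by_contra hlt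
      rw [not_le] at hlt
      have h5 : (2 : ℝ) ^ (J + 1) ≤ 2 ^ j0 := pow_le_pow_right₀ (by norm_num) hlt
      have h6 : (nm s : ℝ) ≤ 2 ^ J := hs.1.trans hJ
      rw [pow_succ] at h5
      linarith
    have h5 : 1 / (nm s : ℝ) ≤ 2 * (1 / 2 : ℝ) ^ j0 := by
      rw [one_div_pow, div_le_iff₀ hpos']
      have h6 : (0 : ℝ) < 2 ^ j0 := by positivity
      rw [mul_one_div, div_mul_eq_mul_div, le_div_iff₀ h6, one_mul]
      exact h3.le
    refine h5.trans ?_
    have h6 : (2 * (1 / 2 : ℝ) ^ j0) =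
        (fun j => if (nm s : ℝ) ≤ 2 ^ j then 2 * (1 / 2 : ℝ) ^ j else 0) j0 := by
      have : (nm s : ℝ) ≤ 2 ^ j0 := by exact_mod_cast h2
      simp only [this, if_true]
    rw [h6]
    refine single_le_sum (f := fun j => if (nm s : ℝ) ≤ 2 ^ j then 2 * (1 / 2 : ℝ) ^ j else 0)
      (fun j _ => ?_) h4
    split_ifs <;> positivity
  refine (sum_le_sum h1).trans ?_
  rw [sum_comm]
  have h2 : ∀ j ∈ range (J + 1), ∑ s ∈ (ball X).filter (fun z => z ≠ 0),
      (if (nm s : ℝ) ≤ 2 ^ j then 2 * (1 / 2 : ℝ) ^ j else 0) ≤ 18 := by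
    intro j _
    rw [← sum_filter, sum_const, nsmul_eq_mul]
    have h3 : ((ball X).filter (fun z => z ≠ 0)).filter (fun s => (nm s : ℝ) ≤ 2 ^ j) ⊆
        (ball ((2 : ℝ) ^ j)).filter (fun z => z ≠ 0) := by
      intro s hs
      rw [mem_filter, mem_filter] at hs
      rw [mem_filter, mem_ball]
      exact ⟨hs.2, hs.1.2⟩
    have h4 : ((((ball X).filter (fun z => z ≠ 0)).filter
        (fun s => (nm s : ℝ) ≤ 2 ^ j)).card : ℝ) ≤ 9 * 2 ^ j := by
      refine le_trans ?_ (card_ball_le ((2 : ℝ) ^ j) (by positivity))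
      exact_mod_cast card_le_card h3
    calc ((((ball X).filter (fun z => z ≠ 0)).filter
          (fun s => (nm s : ℝ) ≤ 2 ^ j)).card : ℝ) * (2 * (1 / 2 : ℝ) ^ j)
        ≤ (9 * 2 ^ j) * (2 * (1 / 2 : ℝ) ^ j) :=
          mul_le_mul_of_nonneg_right h4 (by positivity)
      _ = 18 * ((2 : ℝ) ^ j * (1 / 2) ^ j) := by ring
      _ = 18 := by rw [← mul_pow]; norm_num
  refine (sum_le_sum h2).trans ?_
  rw [sum_const, card_range, nsmul_eq_mul]
  push_cast
  linarith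

open Finset in
theorem sum_inv_sq_le_sieve (a b : ℕ) (ha : 1 ≤ a) :
    ∑ n ∈ Icc a b, (1 : ℝ) / (n : ℝ) ^ 2 ≤ 2 / (a : ℝ) := by
  have ha' : (0 : ℝ) < a := by exact_mod_cast ha
  have h : ∀ k : ℕ, ∑ n ∈ Ico a (a + k), (1 : ℝ) / (n : ℝ) ^ 2 ≤
      2 / (a : ℝ) - 2 / ((a : ℝ) + k) := by
    intro k
    induction k with
    | zero => simp
    | succ k ih =>
      rw [← add_assoc, sum_Ico_succ_top (by omega)]
      have h1 : (0 : ℝ) < (a : ℝ) + k := by positivity
      have h0 : (1 : ℝ) ≤ (a : ℝ) + k := by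
        have : (1 : ℝ) ≤ a := by exact_mod_cast ha
        have : (0 : ℝ) ≤ k := by positivity
        linarith
      have h2 : 1 / (((a + k : ℕ)) : ℝ) ^ 2 ≤ 2 / ((a : ℝ) + k) - 2 / ((a : ℝ) + (k + 1)) := by
        have h3 : (0 : ℝ) < (a : ℝ) + (k + 1) := by positivity
        have h4 : 2 / ((a : ℝ) + k) - 2 / ((a : ℝ) + (k + 1)) =
            2 / (((a : ℝ) + k) * ((a : ℝ) + (k + 1))) := by
          field_simp; ring
        rw [h4, div_le_div_iff₀ (by positivity) (by positivity)]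
        push_cast
        nlinarith
      push_cast at h2 ⊢
      linarith
  rcases Nat.lt_or_ge b a with hb | hb
  · have : Icc a b = ∅ := by
      ext x; simp only [mem_Icc, notMem_empty, iff_false]; omega
    rw [this, sum_empty]
    positivity
  · obtain ⟨k, rfl⟩ := Nat.exists_eq_add_of_le hb
    have h1 : Icc a (a + k) = Ico a (a + (k + 1)) := by
      ext x; simp only [mem_Icc, mem_Ico]; omega
    rw [h1]
    refine (h (k + 1)).trans ?_
    have : 0 ≤ 2 / ((a : ℝ) + ((k + 1 : ℕ) : ℝ)) := by positivity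
    linarith

theorem nm_natCast_sieve (n : ℕ) : nm (n : G) = n ^ 2 := by
  have h : (nm (n : G) : ℤ) = ((n ^ 2 : ℕ) : ℤ) := by
    rw [nm_eq]; simp
  exact_mod_cast h

/-- a rational factor of a non primitive almost prime is large -/
theorem nonprim_factor {B : ℝ} {u : G} (hu : u ≠ 0) (hp : ¬ Prim u)
    (hB : ∀ p : G, Prime p → p ∣ u → B ≤ (nm p : ℝ)) :
    ∃ n : ℕ, 2 ≤ n ∧ (n : G) ∣ u ∧ B ≤ (n : ℝ) ^ 2 := by
  rw [prim_iff] at hp
  push Not at hp
  obtain ⟨n, hn, hn1⟩ := hp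
  have hn0 : n ≠ 0 := by
    rintro rfl
    rw [Nat.cast_zero, zero_dvd_iff] at hn
    exact hu hn
  have hn2 : 2 ≤ n := by omega
  refine ⟨n, hn2, hn, ?_⟩
  have hnu : ¬ IsUnit (n : G) := by
    rw [← nm_eq_one_iff, nm_natCast_sieve]
    intro h
    have : n = 1 := by
      have := Nat.pow_eq_one.mp h
      omega
    omega
  have hn0' : (n : G) ≠ 0 := by exact_mod_cast hn0
  obtain ⟨p, hp, hpn⟩ := WfDvdMonoid.exists_irreducible_factor hnu hn0'
  have h1 := hB p hp.prime (hpn.trans hn)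
  have h2 : nm p ≤ nm (n : G) := Nat.le_of_dvd (nm_pos hn0') (nm_dvd hpn)
  rw [nm_natCast_sieve] at h2
  have h3 : (nm p : ℝ) ≤ ((n ^ 2 : ℕ) : ℝ) := by exact_mod_cast h2
  push_cast at h3
  exact h1.trans h3

open Finset in
/-- the contribution of the non primitive almost primes -/
theorem nonprim_sum (X : ℝ) (hX : 1 ≤ X) (a : ℝ) (S : Finset G)
    (hS : ∀ u ∈ S, u ≠ 0 ∧ ¬ Prim u ∧ (nm u : ℝ) ≤ X ∧
      ∀ p : G, Prime p → p ∣ u → X ^ a ≤ (nm p : ℝ)) (J : ℕ) (hJ : X ≤ 2 ^ J) :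
    ∑ u ∈ S, 1 / (nm u : ℝ) ≤ 36 * ((J : ℝ) + 1) * X ^ (-(a / 2)) := by
  classical
  have hX0 : 0 < X := by linarith
  set N0 : ℕ := max 1 ⌈X ^ (a / 2)⌉₊ with hN0
  have key : ∀ u ∈ S, ∃ t : ℕ × G, t.1 ∈ Icc N0 ⌊X⌋₊ ∧
      t.2 ∈ (ball X).filter (fun z => z ≠ 0) ∧ u = (t.1 : G) * t.2 := by
    intro u hu
    obtain ⟨hu0, hup, huX, hB⟩ := hS u hu
    obtain ⟨n, hn2, ⟨s, hs⟩, hnB⟩ := nonprim_factor hu0 hup hB
    have hs0 : s ≠ 0 := by
      rintro rfl
      rw [mul_zero] at hs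
      exact hu0 hs
    have hnm : nm u = n ^ 2 * nm s := by rw [hs, nm_mul, nm_natCast_sieve]
    have hspos : 1 ≤ nm s := nm_pos hs0
    have h1 : ((n ^ 2 * nm s : ℕ) : ℝ) ≤ X := by rw [← hnm]; exact huX
    push_cast at h1
    have hn2' : (2 : ℝ) ≤ n := by exact_mod_cast hn2
    have hs1 : (1 : ℝ) ≤ nm s := by exact_mod_cast hspos
    refine ⟨(n, s), ?_, ?_, hs⟩
    · rw [mem_Icc]
      constructor
      · rw [hN0]
        refine max_le (by omega) ?_
        rw [Nat.ceil_le]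
        have h2 : (X ^ (a / 2)) ^ 2 ≤ (n : ℝ) ^ 2 := by
          rw [← Real.rpow_natCast (X ^ (a / 2)) 2, ← Real.rpow_mul hX0.le]
          have : a / 2 * ((2 : ℕ) : ℝ) = a := by push_cast; ring
          rw [this]
          exact hnB
        exact le_of_sq_le_sq h2 (by positivity)
      · apply Nat.le_floor
        have : (n : ℝ) ≤ (n : ℝ) ^ 2 * nm s := by nlinarith
        linarith
    · rw [mem_filter, mem_ball]
      refine ⟨?_, hs0⟩
      have e1 : (1 : ℝ) ≤ (n : ℝ) ^ 2 := by nlinarith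
      have e2 : 1 * (nm s : ℝ) ≤ (n : ℝ) ^ 2 * nm s :=
        mul_le_mul_of_nonneg_right e1 (by linarith)
      linarith
  choose! g hg1 hg2 hg3 using key
  have hinj : Set.InjOn g (S : Set G) := by
    intro u hu v hv huv
    rw [hg3 u hu, hg3 v hv, huv]
  have h1 : ∑ u ∈ S, 1 / (nm u : ℝ) =
      ∑ t ∈ S.image g, (1 / (t.1 : ℝ) ^ 2) * (1 / (nm t.2 : ℝ)) := by
    rw [sum_image hinj]
    apply sum_congr rfl
    intro u hu
    have h2 : nm u = (g u).1 ^ 2 * nm (g u).2 := by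
      conv_lhs => rw [hg3 u hu]
      rw [nm_mul, nm_natCast_sieve]
    rw [h2]
    push_cast
    rw [one_div_mul_one_div]
  have h2 : S.image g ⊆ Icc N0 ⌊X⌋₊ ×ˢ (ball X).filter (fun z => z ≠ 0) := by
    intro t ht
    obtain ⟨u, hu, rfl⟩ := mem_image.mp ht
    rw [mem_product]
    exact ⟨hg1 u hu, hg2 u hu⟩
  have hN0pos : 1 ≤ N0 := le_max_left _ _
  have h3 : (2 : ℝ) / N0 ≤ 2 * X ^ (-(a / 2)) := by
    have h4 : X ^ (a / 2) ≤ N0 := by
      have h5 : ⌈X ^ (a / 2)⌉₊ ≤ N0 := le_max_right _ _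
      exact (Nat.le_ceil _).trans (by exact_mod_cast h5)
    have h6 : 0 < X ^ (a / 2) := Real.rpow_pos_of_pos hX0 _
    rw [Real.rpow_neg hX0.le, ← div_eq_mul_inv]
    exact div_le_div_of_nonneg_left (by norm_num) h6 h4
  rw [h1]
  calc ∑ t ∈ S.image g, (1 / (t.1 : ℝ) ^ 2) * (1 / (nm t.2 : ℝ))
      ≤ ∑ t ∈ Icc N0 ⌊X⌋₊ ×ˢ (ball X).filter (fun z => z ≠ 0),
          (1 / (t.1 : ℝ) ^ 2) * (1 / (nm t.2 : ℝ)) :=
        sum_le_sum_of_subset_of_nonneg h2 fun t _ _ => by positivity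
    _ = (∑ n ∈ Icc N0 ⌊X⌋₊, 1 / (n : ℝ) ^ 2) *
          ∑ s ∈ (ball X).filter (fun z => z ≠ 0), 1 / (nm s : ℝ) := by
        rw [sum_product, sum_mul_sum]
    _ ≤ (2 * X ^ (-(a / 2))) * (18 * ((J : ℝ) + 1)) := by
        apply mul_le_mul ((sum_inv_sq_le_sieve _ _ hN0pos).trans h3) (sum_inv_nm_le X J hJ)
        · exact sum_nonneg fun s _ => by positivity
        · have := Real.rpow_pos_of_pos hX0 (-(a / 2))
          positivity
    _ = 36 * ((J : ℝ) + 1) * X ^ (-(a / 2)) := by ring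

open Finset in
/-- From `sieve_all` remove the `u` which are not primitive: such a `u` is divisible by a rational prime
`p`, and all prime factors of `u` have norm `≥ X^a`, so `p ≥ X^(a/2)`; the contribution of the multiples of
`p` is at most `(2 / p²) ∑_{0 < nm s ≤ X} 1 / nm s ≤ C log X / p²` (dyadic, `card_ball_le`), and
`∑_{p ≥ X^(a/2)} 1/p² ≤ 2 X^(-a/2)`. -/
theorem sieve : ∃ a c X0 : ℝ, 0 < a ∧ a ≤ 1 ∧ 0 < c ∧ ∀ X : ℝ, X0 ≤ X → ∀ k : ℤ, k ≠ 0 →
    |(k : ℝ)| ≤ X → c ≤ ∑ u ∈ AA a X, (1 / (nm u : ℝ)) * (1 - (xi (2 * k) u).re) := by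
  classical
  obtain ⟨a, c, X0, ha, ha1, hc, h⟩ := sieve_all
  -- the error term is small
  have hlim : Filter.Tendsto (fun X : ℝ => 72 * (2 * Real.log X + 2) * X ^ (-(a / 2)))
      Filter.atTop (nhds 0) := by
    have ha2 : 0 < a / 2 := by linarith
    have h1 : Filter.Tendsto (fun X : ℝ => Real.log X / X ^ (a / 2)) Filter.atTop (nhds 0) :=
      (isLittleO_log_rpow_atTop ha2).tendsto_div_nhds_zero
    have h2 : Filter.Tendsto (fun X : ℝ => X ^ (-(a / 2))) Filter.atTop (nhds 0) :=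
      tendsto_rpow_neg_atTop ha2
    have h3 : Filter.Tendsto (fun X : ℝ => 144 * (Real.log X / X ^ (a / 2)) + 144 * X ^ (-(a / 2)))
        Filter.atTop (nhds (144 * 0 + 144 * 0)) := (h1.const_mul 144).add (h2.const_mul 144)
    rw [mul_zero, add_zero] at h3
    refine h3.congr' ?_
    filter_upwards [Filter.eventually_gt_atTop (0 : ℝ)] with X hX
    rw [Real.rpow_neg hX.le]
    have := Real.rpow_pos_of_pos hX (a / 2)
    field_simp
    ring
  obtain ⟨X1, hX1⟩ := Filter.eventually_atTop.mp (hlim.eventually (gt_mem_nhds (half_pos hc)))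
  refine ⟨a, c / 2, max X0 (max X1 1), ha, ha1, half_pos hc, ?_⟩
  intro X hX k hk hkX
  have hXX0 : X0 ≤ X := (le_max_left _ _).trans hX
  have hXX1 : X1 ≤ X := (le_max_left _ _).trans ((le_max_right _ _).trans hX)
  have hX11 : 1 ≤ X := (le_max_right _ _).trans ((le_max_right _ _).trans hX)
  have hX0 : 0 < X := by linarith
  have h1 := h X hXX0 k hk hkX
  set S := (ob (X ^ (13 / 25 : ℝ)) \ ob (X ^ (12 / 25 : ℝ))).filter
      (fun u => ∀ p : G, Prime p → p ∣ u → X ^ a ≤ (nm p : ℝ)) with hS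
  have hmemS : ∀ u ∈ S, (nm u : ℝ) ≤ X ^ (13 / 25 : ℝ) ∧ Odd (nm u) ∧
      X ^ (12 / 25 : ℝ) < (nm u : ℝ) ∧ ∀ p : G, Prime p → p ∣ u → X ^ a ≤ (nm p : ℝ) := by
    intro u hu
    rw [hS, mem_filter, mem_sdiff] at hu
    obtain ⟨⟨hu1, hu2⟩, hu3⟩ := hu
    unfold ob at hu1 hu2
    rw [mem_filter, mem_ball] at hu1 hu2
    refine ⟨hu1.1, hu1.2, ?_, hu3⟩
    by_contra hlt
    exact hu2 ⟨not_lt.mp hlt, hu1.2⟩
  -- split S into primitive and non primitive elements
  have hsplit := sum_filter_add_sum_filter_not S (fun u => Prim u)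
    (fun u => (1 / (nm u : ℝ)) * (1 - (xi (2 * k) u).re))
  have hprim : ∑ u ∈ S.filter (fun u => Prim u), (1 / (nm u : ℝ)) * (1 - (xi (2 * k) u).re) ≤
      ∑ u ∈ AA a X, (1 / (nm u : ℝ)) * (1 - (xi (2 * k) u).re) := by
    apply sum_le_sum_of_subset_of_nonneg
    · intro u hu
      rw [mem_filter] at hu
      obtain ⟨huS, hup⟩ := hu
      obtain ⟨e1, e2, e3, e4⟩ := hmemS u huS
      unfold AA
      rw [mem_filter, mem_V]
      exact ⟨⟨e1, e2, hup⟩, e3, e4⟩
    · intro u hu _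
      have hu0 : u ≠ 0 := by
        unfold AA at hu
        rw [mem_filter] at hu
        exact V_ne_zero hu.1
      have h2 : (xi (2 * k) u).re ≤ 1 := by
        have := Complex.re_le_norm (xi (2 * k) u)
        rw [norm_xi _ hu0] at this
        exact this
      have h3 : 0 ≤ 1 - (xi (2 * k) u).re := by linarith
      positivity
  have hnon : ∑ u ∈ S.filter (fun u => ¬ Prim u), (1 / (nm u : ℝ)) * (1 - (xi (2 * k) u).re) ≤
      c / 2 := by
    set J : ℕ := ⌈2 * Real.log X⌉₊ with hJ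
    have hlog : 0 ≤ Real.log X := Real.log_nonneg hX11
    have hJX : X ≤ 2 ^ J := by
      have e1 : 2 * Real.log X ≤ J := Nat.le_ceil _
      have e2 : Real.log X ≤ J * Real.log 2 := by
        have e3 : (1 / 2 : ℝ) ≤ Real.log 2 := by
          have := Real.log_two_gt_d9
          linarith
        have e4 : (J : ℝ) * (1 / 2) ≤ J * Real.log 2 :=
          mul_le_mul_of_nonneg_left e3 (by positivity)
        linarith
      calc X = Real.exp (Real.log X) := (Real.exp_log hX0).symm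
        _ ≤ Real.exp (J * Real.log 2) := Real.exp_le_exp.mpr e2
        _ = 2 ^ J := by
          rw [mul_comm, Real.exp_mul, Real.exp_log (by norm_num), Real.rpow_natCast]
    have hJ1 : (J : ℝ) + 1 ≤ 2 * Real.log X + 2 := by
      have := Nat.ceil_lt_add_one (a := 2 * Real.log X) (by linarith)
      rw [← hJ] at this
      linarith
    have h2 : ∑ u ∈ S.filter (fun u => ¬ Prim u), 1 / (nm u : ℝ) ≤
        36 * ((J : ℝ) + 1) * X ^ (-(a / 2)) := by
      apply nonprim_sum X hX11 a _ _ J hJX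
      intro u hu
      rw [mem_filter] at hu
      obtain ⟨e1, e2, e3, e4⟩ := hmemS u hu.1
      refine ⟨ne_zero_of_odd e2, hu.2, e1.trans ?_, e4⟩
      calc X ^ (13 / 25 : ℝ) ≤ X ^ (1 : ℝ) :=
            Real.rpow_le_rpow_of_exponent_le hX11 (by norm_num)
        _ = X := Real.rpow_one X
    have h3 : ∑ u ∈ S.filter (fun u => ¬ Prim u), (1 / (nm u : ℝ)) * (1 - (xi (2 * k) u).re) ≤
        ∑ u ∈ S.filter (fun u => ¬ Prim u), 2 * (1 / (nm u : ℝ)) := by
      apply sum_le_sum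
      intro u hu
      rw [mem_filter] at hu
      obtain ⟨e1, e2, e3, e4⟩ := hmemS u hu.1
      have hu0 := ne_zero_of_odd e2
      have h4 : -1 ≤ (xi (2 * k) u).re := by
        have := Complex.abs_re_le_norm (xi (2 * k) u)
        rw [norm_xi _ hu0] at this
        exact (abs_le.mp this).1
      have h5 : 1 - (xi (2 * k) u).re ≤ 2 := by linarith
      rw [mul_comm]
      exact mul_le_mul_of_nonneg_right h5 (by positivity)
    rw [← mul_sum] at h3
    have h6 : 0 ≤ X ^ (-(a / 2)) := (Real.rpow_pos_of_pos hX0 _).le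
    have h7 : 2 * (36 * ((J : ℝ) + 1) * X ^ (-(a / 2))) ≤
        72 * (2 * Real.log X + 2) * X ^ (-(a / 2)) := by
      have : 72 * ((J : ℝ) + 1) * X ^ (-(a / 2)) ≤ 72 * (2 * Real.log X + 2) * X ^ (-(a / 2)) :=
        mul_le_mul_of_nonneg_right (by linarith) h6
      linarith
    have h8 := hX1 X hXX1
    linarith
  linarith

end Pool.Agent.GaussMR
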