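import Pool.Agent.Lib_MP_f1a94e_mr.ConjUpper
import Pool.Agent.Lib_MP_f1a94e_mr.Sieve
import Pool.Agent.Lib_MP_f1a94e_mr.LS
import Pool.Agent.Lib_MP_f1a94e_mr.WSum

/-!
# Piece CONJTRICK: few frequencies carry almost all the mass only if the frequency 0 does
-/

set_option autoImplicit false

namespace Pool.Agent.GaussMR

open Filter

/-- difference of the trigonometric polynomial at `u z` and at `star u z` -/
theorem ct_Fb (S : Finset ℤ) (d : ℤ → ℂ) (u z : G) :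
    Fb S d (u * z) - Fb S d (star u * z) =
      Fb S (fun k => d k * (xi k u - xi k (star u))) z := by
  unfold Fb
  rw [← Finset.sum_sub_distrib]
  refine Finset.sum_congr rfl fun k _ => ?_
  rw [xi_mul, xi_mul]
  ring

theorem ct_AA {a X : ℝ} {u : G} (hu : u ∈ AA a X) : u ∈ V (X ^ (13 / 25 : ℝ)) := by
  classical
  unfold AA at hu
  exact (Finset.mem_filter.1 hu).1

theorem ct_xi (k : ℤ) {u : G} (hu : u ≠ 0) :
    ‖xi k u - xi k (star u)‖ ^ 2 = 2 * (1 - (xi (2 * k) u).re) := by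
  have h1 := norm_xi k hu
  rw [xi_star k hu, ← conj_xi k hu]
  have h2 : xi (2 * k) u = xi k u * xi k u := by
    rw [two_mul, xi_add k k hu]
  rw [h2]
  have h3 : (xi k u).re * (xi k u).re + (xi k u).im * (xi k u).im = 1 := by
    rw [← Complex.normSq_apply, Complex.normSq_eq_norm_sq, h1, one_pow]
  rw [← Complex.normSq_eq_norm_sq, Complex.normSq_apply]
  simp only [Complex.sub_re, Complex.sub_im, Complex.conj_re, Complex.conj_im, Complex.mul_re]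
  linear_combination (2 : ℝ) * h3

/-- `N = #V X`, `d k = fc F X k / N`; `∑_{k ∈ S} |d k|² ≤ C` by `large_sieve`. `B = C X^(1-1/16000)` in
`approx` (`w_V`, `|j - k| ≤ 2 X ≤ X^(21/10)`): `∑ ‖F - Fb‖² ≤ N (ε + X^(-δ'))`. For `u ∈ AA a X` (`a` from
`sieve`): `Fb S d (u z) - Fb S d (star u z) = ∑ d_k (xi k u - xi (-k) u) xi k z`, and `almost_orth` on
`V (X / nm u)`, `X / nm u ≥ X^(12/25)` (`w_V`, `2 X ≤ (X^(12/25))^(21/10)`), gives
`∑_{z ∈ V (X / nm u)} ‖…‖² ≥ #V(X / nm u) ∑ |d_k|² (2 - 2 Re xi (2k) u) - #S B_u 4 ∑ |d_k|²` with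
`B_u ≤ C (X / nm u) X^(-12/(25·16000))`, and `#V(X / nm u) ≥ c X / nm u`. Sum over `u ∈ AA a X`, use
`sieve` for every `k ≠ 0` in `S`, `conj_upper` and `AA_sum`:
`c' X ∑_{k ∈ S, k ≠ 0} |d_k|² ≤ C N (ε + X^(-δ')) + C #S X^(1-a) log X + C #S X^(1-δ'')`. -/
theorem conj_trick : ∃ δ C X0 : ℝ, 0 < δ ∧ 0 < C ∧ ∀ X : ℝ, X0 ≤ X → ∀ (F : G → ℝ), PM F →
    ∀ (T : ℕ), (T : ℝ) ≤ X → ∀ S ⊆ fr T, (S.card : ℝ) ≤ X ^ δ → ∀ ε : ℝ, 0 ≤ ε →
    (1 - ε) * ((V X).card : ℝ) ^ 2 ≤ ∑ k ∈ S, ‖fc F X k‖ ^ 2 →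
    ∑ k ∈ S.erase 0, ‖fc F X k‖ ^ 2 ≤ C * (ε + X ^ (-δ)) * ((V X).card : ℝ) ^ 2 := by
  obtain ⟨a, cs, Xs, ha, ha1, hcs, hsieve⟩ := sieve
  obtain ⟨Cu, hCu, hup⟩ := conj_upper a ha
  obtain ⟨CL, hCL, hLS⟩ := large_sieve
  obtain ⟨cV, hcV, hVge⟩ := card_V_ge
  obtain ⟨Cw, hCw, hw⟩ := w_V
  obtain ⟨CA, hCA, hAA⟩ := AA_sum
  set η : ℝ := 1 / 16000 with hη
  clear_value η
  set δ : ℝ := min a η / 8 with hδ
  clear_value δ
  have hδ0 : 0 < δ := by
    rw [hδ]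
    have : 0 < min a η := lt_min ha (by rw [hη]; norm_num)
    linarith
  have hδa : 8 * δ ≤ a := by
    rw [hδ]
    have := min_le_left a η
    linarith
  have hδη : 8 * δ ≤ η := by
    rw [hδ]
    have := min_le_right a η
    linarith
  set D0 : ℝ := 2 * CL / cV with hD0
  clear_value D0
  have hD00 : 0 < D0 := by rw [hD0]; positivity
  -- the logarithm
  have hlog : ∀ᶠ X : ℝ in atTop, Real.log X ≤ X ^ δ := by
    have h1 := (isLittleO_log_rpow_atTop hδ0).bound (by norm_num : (0 : ℝ) < 1)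
    filter_upwards [h1, eventually_ge_atTop (1 : ℝ)] with X hX hX1
    rw [one_mul, Real.norm_eq_abs, Real.norm_eq_abs, abs_of_nonneg (Real.log_nonneg hX1),
      abs_of_nonneg (Real.rpow_nonneg (by linarith) _)] at hX
    exact hX
  obtain ⟨X1, hX1⟩ := Filter.eventually_atTop.1 hlog
  refine ⟨δ, (9 * Cu + Cu * Cw * D0 + Cu * D0 + 4 * Cw * D0 * CA) / (2 * cV * cs),
    max (max Xs X1) (2 ^ (125 : ℕ)), hδ0, by positivity, ?_⟩
  intro X hX F hF T hT S hS hSX ε hε hmass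
  have hXs : Xs ≤ X := (le_max_left _ _).trans ((le_max_left _ _).trans hX)
  have hlogX : Real.log X ≤ X ^ δ := hX1 X ((le_max_right _ _).trans ((le_max_left _ _).trans hX))
  have hX125 : (2 : ℝ) ^ (125 : ℕ) ≤ X := (le_max_right _ _).trans hX
  have hX2 : (2 : ℝ) ≤ X := le_trans (by norm_num) hX125
  have hX0 : 0 < X := by linarith
  have hX1' : 1 ≤ X := by linarith
  have hlog0 : 0 ≤ Real.log X := Real.log_nonneg hX1'
  set N : ℝ := ((V X).card : ℝ) with hN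
  have hN1 : cV * X ≤ N := hVge X hX1'
  have hN9 : N ≤ 9 * X := card_V_le X hX0.le
  have hN0 : 0 < N := lt_of_lt_of_le (by positivity) hN1
  set d : ℤ → ℂ := fun k => fc F X k / ((V X).card : ℂ) with hd
  have hdk : ∀ k, ‖d k‖ ^ 2 = ‖fc F X k‖ ^ 2 / N ^ 2 := by
    intro k
    simp only [hd]
    rw [norm_div, div_pow, Complex.norm_natCast]
  set D : ℝ := ∑ k ∈ S, ‖d k‖ ^ 2 with hD
  have hD_eq : D = (∑ k ∈ S, ‖fc F X k‖ ^ 2) / N ^ 2 := by
    rw [hD, Finset.sum_div]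
    exact Finset.sum_congr rfl fun k _ => hdk k
  have hDn : 0 ≤ D := Finset.sum_nonneg fun k _ => by positivity
  -- mass is at most `D0`
  have hDle : D ≤ D0 := by
    have h1 := hLS X T (fun z => (F z : ℂ)) hX1'
    have h2 : ∑ z ∈ V X, ‖((F z : ℝ) : ℂ)‖ ^ 2 = N := by
      rw [Finset.sum_congr rfl fun z hz => by rw [hF.norm (mem_V.1 hz).2.1, one_pow],
        Finset.sum_const, nsmul_eq_mul, mul_one]
    have h3 : ∑ k ∈ S, ‖fc F X k‖ ^ 2 ≤ ∑ k ∈ fr T, ‖∑ z ∈ V X, (F z : ℂ) * xi (-k) z‖ ^ 2 :=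
      Finset.sum_le_sum_of_subset_of_nonneg hS fun k _ _ => by positivity
    rw [h2] at h1
    have h4 : ∑ k ∈ S, ‖fc F X k‖ ^ 2 ≤ 2 * CL * X * N := by
      refine h3.trans (h1.trans ?_)
      refine mul_le_mul_of_nonneg_right ?_ hN0.le
      nlinarith
    rw [hD_eq, div_le_iff₀ (by positivity), hD0]
    refine h4.trans ?_
    rw [div_mul_eq_mul_div, le_div_iff₀ hcV]
    have : 2 * CL * X * N * cV = 2 * CL * N * (cV * X) := by ring
    rw [this]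
    calc 2 * CL * N * (cV * X) ≤ 2 * CL * N * N := mul_le_mul_of_nonneg_left hN1 (by positivity)
      _ = 2 * CL * N ^ 2 := by ring
  have hεD : 1 - D ≤ ε := by
    have h1 : (1 - ε) ≤ D := by
      rw [hD_eq, le_div_iff₀ (by positivity)]
      exact hmass
    linarith
  -- powers of `X`
  have hE1 : X ^ δ * X ^ (1 - η) ≤ X * X ^ (-δ) := by
    rw [← Real.rpow_add hX0]
    nth_rewrite 2 [← Real.rpow_one X]
    rw [← Real.rpow_add hX0]
    exact Real.rpow_le_rpow_of_exponent_le hX1' (by linarith)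
  have hE2 : X ^ δ * X ^ (1 - a) * Real.log X ≤ X * X ^ (-δ) := by
    calc X ^ δ * X ^ (1 - a) * Real.log X ≤ X ^ δ * X ^ (1 - a) * X ^ δ :=
          mul_le_mul_of_nonneg_left hlogX (by positivity)
      _ = X ^ (δ + (1 - a) + δ) := by rw [Real.rpow_add hX0, Real.rpow_add hX0]
      _ ≤ X ^ (1 + -δ) := Real.rpow_le_rpow_of_exponent_le hX1' (by linarith)
      _ = X * X ^ (-δ) := by rw [Real.rpow_add hX0, Real.rpow_one]
  have hE3 : X ^ δ * X ^ (-(12 / 25 * η)) * Real.log X ≤ X ^ (-δ) := by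
    calc X ^ δ * X ^ (-(12 / 25 * η)) * Real.log X ≤ X ^ δ * X ^ (-(12 / 25 * η)) * X ^ δ :=
          mul_le_mul_of_nonneg_left hlogX (by positivity)
      _ = X ^ (δ + (-(12 / 25 * η)) + δ) := by rw [Real.rpow_add hX0, Real.rpow_add hX0]
      _ ≤ X ^ (-δ) := Real.rpow_le_rpow_of_exponent_le hX1' (by linarith)
  -- frequencies
  have hdiff : ∀ j ∈ S, ∀ k ∈ S, |((j - k : ℤ) : ℝ)| ≤ 2 * X := by
    intro j hj k hk
    have h1 := mem_fr.1 (hS hj)
    have h2 := mem_fr.1 (hS hk)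
    have h3 : |j - k| ≤ 2 * (T : ℤ) := abs_le.2 ⟨by omega, by omega⟩
    have h4 : ((|j - k| : ℤ) : ℝ) ≤ ((2 * (T : ℤ) : ℤ) : ℝ) := by exact_mod_cast h3
    rw [Int.cast_abs] at h4
    push_cast at h4 ⊢
    linarith
  have h2X : 2 * X ≤ X ^ (1 + 1 / 125 : ℝ) := by
    rw [Real.rpow_add hX0, Real.rpow_one, mul_comm]
    refine mul_le_mul_of_nonneg_left ?_ hX0.le
    calc (2 : ℝ) = ((2 : ℝ) ^ (125 : ℕ)) ^ (1 / 125 : ℝ) := by
          rw [← Real.rpow_natCast, ← Real.rpow_mul (by norm_num)]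
          norm_num
      _ ≤ X ^ (1 / 125 : ℝ) := Real.rpow_le_rpow (by positivity) hX125 (by norm_num)
  -- the approximation
  have happ : ∑ z ∈ V X, ‖(F z : ℂ) - Fb S d z‖ ^ 2 ≤ X * (9 * ε + Cw * D0 * X ^ (-δ)) := by
    have h1 := approx F hF S X (Cw * X ^ (1 - η)) hX1' (by positivity) fun j hj k hk hjk =>
      hw X (j - k) hX1' (sub_ne_zero.2 hjk) ((hdiff j hj k hk).trans (h2X.trans
        (Real.rpow_le_rpow_of_exponent_le hX1' (by norm_num))))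
    refine h1.trans ?_
    have h2 : N * (1 - D) ≤ 9 * X * ε := by
      calc N * (1 - D) ≤ N * ε := mul_le_mul_of_nonneg_left hεD hN0.le
        _ ≤ 9 * X * ε := mul_le_mul_of_nonneg_right hN9 hε
    have h3 : (S.card : ℝ) * (Cw * X ^ (1 - η)) * D ≤ Cw * D0 * (X * X ^ (-δ)) := by
      calc (S.card : ℝ) * (Cw * X ^ (1 - η)) * D
          ≤ X ^ δ * (Cw * X ^ (1 - η)) * D0 :=
            mul_le_mul (mul_le_mul_of_nonneg_right hSX (by positivity)) hDle hDn (by positivity)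
        _ = Cw * D0 * (X ^ δ * X ^ (1 - η)) := by ring
        _ ≤ Cw * D0 * (X * X ^ (-δ)) := mul_le_mul_of_nonneg_left hE1 (by positivity)
    have h4 : X * (9 * ε + Cw * D0 * X ^ (-δ)) = 9 * X * ε + Cw * D0 * (X * X ^ (-δ)) := by ring
    rw [h4]
    exact add_le_add h2 h3
  -- the upper bound
  have hupper : ∑ u ∈ AA a X, ∑ z ∈ V (X / nm u), ‖Fb S d (u * z) - Fb S d (star u * z)‖ ^ 2 ≤
      X * (Cu * (9 * ε + Cw * D0 * X ^ (-δ)) + Cu * D0 * X ^ (-δ)) := by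
    refine (hup X hX2 F hF S d).trans ?_
    have h1 : Cu * ∑ z ∈ V X, ‖(F z : ℂ) - Fb S d z‖ ^ 2 ≤
        Cu * (X * (9 * ε + Cw * D0 * X ^ (-δ))) := mul_le_mul_of_nonneg_left happ hCu.le
    have h2 : Cu * S.card * (∑ k ∈ S, ‖d k‖ ^ 2) * X ^ (1 - a) * Real.log X ≤
        Cu * D0 * (X * X ^ (-δ)) := by
      calc Cu * S.card * (∑ k ∈ S, ‖d k‖ ^ 2) * X ^ (1 - a) * Real.log X
          = Cu * ((S.card : ℝ) * D) * (X ^ (1 - a) * Real.log X) := by rw [← hD]; ring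
        _ ≤ Cu * (X ^ δ * D0) * (X ^ (1 - a) * Real.log X) := by
            refine mul_le_mul_of_nonneg_right ?_ (by positivity)
            refine mul_le_mul_of_nonneg_left ?_ hCu.le
            exact mul_le_mul hSX hDle hDn (by positivity)
        _ = Cu * D0 * (X ^ δ * X ^ (1 - a) * Real.log X) := by ring
        _ ≤ Cu * D0 * (X * X ^ (-δ)) := mul_le_mul_of_nonneg_left hE2 (by positivity)
    calc _ ≤ Cu * (X * (9 * ε + Cw * D0 * X ^ (-δ))) + Cu * D0 * (X * X ^ (-δ)) := add_le_add h1 h2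
      _ = _ := by ring
  -- the lower bound for one `u`
  have hone : ∀ u ∈ AA a X, X * ((1 / (nm u : ℝ)) *
      (2 * cV * ∑ k ∈ S, ‖d k‖ ^ 2 * (1 - (xi (2 * k) u).re) -
        4 * Cw * D0 * (X ^ δ * X ^ (-(12 / 25 * η))))) ≤
      ∑ z ∈ V (X / nm u), ‖Fb S d (u * z) - Fb S d (star u * z)‖ ^ 2 := by
    intro u hu
    have hu' : u ∈ V (X ^ (13 / 25 : ℝ)) := ct_AA hu
    have hu0 : u ≠ 0 := V_ne_zero hu'
    have hnm : (nm u : ℝ) ≤ X ^ (13 / 25 : ℝ) := (mem_V.1 hu').1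
    have hnm0 : (0 : ℝ) < nm u := by exact_mod_cast nm_pos hu0
    set Y : ℝ := X / nm u with hY
    have hY0 : 0 < Y := by positivity
    have hYX : X ^ (12 / 25 : ℝ) ≤ Y := by
      rw [hY, le_div_iff₀ hnm0]
      calc X ^ (12 / 25 : ℝ) * nm u ≤ X ^ (12 / 25 : ℝ) * X ^ (13 / 25 : ℝ) :=
            mul_le_mul_of_nonneg_left hnm (by positivity)
        _ = X := by
            rw [← Real.rpow_add hX0]
            norm_num
    have hY1 : 1 ≤ Y := (Real.one_le_rpow hX1' (by norm_num)).trans hYX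
    set d' : ℤ → ℂ := fun k => d k * (xi k u - xi k (star u)) with hd'
    have hd'k : ∀ k, ‖d' k‖ ^ 2 = ‖d k‖ ^ 2 * (2 * (1 - (xi (2 * k) u).re)) := by
      intro k
      simp only [hd']
      rw [norm_mul, mul_pow, ct_xi k hu0]
    have hre : ∀ k : ℤ, 0 ≤ 1 - (xi (2 * k) u).re ∧ 1 - (xi (2 * k) u).re ≤ 2 := by
      intro k
      have h1 := Complex.abs_re_le_norm (xi (2 * k) u)
      rw [norm_xi _ hu0] at h1
      have h2 := abs_le.1 h1
      constructor <;> linarith [h2.1, h2.2]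
    have hD'4 : ∑ k ∈ S, ‖d' k‖ ^ 2 ≤ 4 * D := by
      rw [hD, Finset.mul_sum]
      refine Finset.sum_le_sum fun k _ => ?_
      rw [hd'k]
      have h1 : 0 ≤ ‖d k‖ ^ 2 := by positivity
      have h2 := (hre k).2
      nlinarith
    have hD'0 : 0 ≤ ∑ k ∈ S, ‖d' k‖ ^ 2 := Finset.sum_nonneg fun k _ => by positivity
    have horth := almost_orth S d' Y (Cw * Y ^ (1 - η)) (by positivity) fun j hj k hk hjk =>
      hw Y (j - k) hY1 (sub_ne_zero.2 hjk) ((hdiff j hj k hk).trans (h2X.trans (by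
        calc X ^ (1 + 1 / 125 : ℝ) = (X ^ (12 / 25 : ℝ)) ^ (21 / 10 : ℝ) := by
              rw [← Real.rpow_mul hX0.le]
              norm_num
          _ ≤ Y ^ (21 / 10 : ℝ) := Real.rpow_le_rpow (by positivity) hYX (by norm_num))))
    have hlow := (abs_le.1 horth).1
    have hYη : Y ^ (1 - η) ≤ Y * X ^ (-(12 / 25 * η)) := by
      have h1 : Y ^ (1 - η) = Y * Y ^ (-η) := by
        rw [sub_eq_add_neg, Real.rpow_add hY0, Real.rpow_one]
      rw [h1]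
      refine mul_le_mul_of_nonneg_left ?_ hY0.le
      calc Y ^ (-η) ≤ (X ^ (12 / 25 : ℝ)) ^ (-η) :=
            Real.rpow_le_rpow_of_nonpos (by positivity) hYX (by rw [hη]; norm_num)
        _ = X ^ (-(12 / 25 * η)) := by
            rw [← Real.rpow_mul hX0.le]
            congr 1
            ring
    have herr : (S.card : ℝ) * (Cw * Y ^ (1 - η)) * ∑ k ∈ S, ‖d' k‖ ^ 2 ≤
        Y * (4 * Cw * D0 * (X ^ δ * X ^ (-(12 / 25 * η)))) := by
      calc (S.card : ℝ) * (Cw * Y ^ (1 - η)) * ∑ k ∈ S, ‖d' k‖ ^ 2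
          ≤ X ^ δ * (Cw * (Y * X ^ (-(12 / 25 * η)))) * (4 * D0) := by
            refine mul_le_mul (mul_le_mul hSX (mul_le_mul_of_nonneg_left hYη hCw.le)
              (by positivity) (by positivity)) (hD'4.trans (by linarith)) hD'0 (by positivity)
        _ = Y * (4 * Cw * D0 * (X ^ δ * X ^ (-(12 / 25 * η)))) := by ring
    have hmain : Y * (2 * cV * ∑ k ∈ S, ‖d k‖ ^ 2 * (1 - (xi (2 * k) u).re)) ≤
        ((V Y).card : ℝ) * ∑ k ∈ S, ‖d' k‖ ^ 2 := by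
      have h1 : ∑ k ∈ S, ‖d' k‖ ^ 2 = 2 * ∑ k ∈ S, ‖d k‖ ^ 2 * (1 - (xi (2 * k) u).re) := by
        rw [Finset.mul_sum]
        refine Finset.sum_congr rfl fun k _ => ?_
        rw [hd'k]
        ring
      have h2 : 0 ≤ ∑ k ∈ S, ‖d k‖ ^ 2 * (1 - (xi (2 * k) u).re) :=
        Finset.sum_nonneg fun k _ => mul_nonneg (by positivity) (hre k).1
      rw [h1]
      calc Y * (2 * cV * ∑ k ∈ S, ‖d k‖ ^ 2 * (1 - (xi (2 * k) u).re))
          = (cV * Y) * (2 * ∑ k ∈ S, ‖d k‖ ^ 2 * (1 - (xi (2 * k) u).re)) := by ring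
        _ ≤ ((V Y).card : ℝ) * (2 * ∑ k ∈ S, ‖d k‖ ^ 2 * (1 - (xi (2 * k) u).re)) :=
            mul_le_mul_of_nonneg_right (hVge Y hY1) (by positivity)
    have hFb : ∑ z ∈ V Y, ‖Fb S d (u * z) - Fb S d (star u * z)‖ ^ 2 =
        ∑ z ∈ V Y, ‖Fb S d' z‖ ^ 2 :=
      Finset.sum_congr rfl fun z _ => by rw [ct_Fb]
    rw [hFb]
    have hY' : X * (1 / (nm u : ℝ)) = Y := by
      rw [hY]
      ring
    rw [← mul_assoc, hY', mul_sub]
    linarith
  -- sum over `u`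
  have hsum := Finset.sum_le_sum hone
  rw [← Finset.mul_sum] at hsum
  have hlow : 2 * cV * (cs * ∑ k ∈ S.erase 0, ‖d k‖ ^ 2) - 4 * Cw * D0 * CA * X ^ (-δ) ≤
      ∑ u ∈ AA a X, ((1 / (nm u : ℝ)) *
      (2 * cV * ∑ k ∈ S, ‖d k‖ ^ 2 * (1 - (xi (2 * k) u).re) -
        4 * Cw * D0 * (X ^ δ * X ^ (-(12 / 25 * η))))) := by
    have e1 : ∑ u ∈ AA a X, ((1 / (nm u : ℝ)) *
        (2 * cV * ∑ k ∈ S, ‖d k‖ ^ 2 * (1 - (xi (2 * k) u).re) -
          4 * Cw * D0 * (X ^ δ * X ^ (-(12 / 25 * η))))) =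
        2 * cV * ∑ k ∈ S, ‖d k‖ ^ 2 *
          (∑ u ∈ AA a X, (1 / (nm u : ℝ)) * (1 - (xi (2 * k) u).re)) -
        4 * Cw * D0 * (X ^ δ * X ^ (-(12 / 25 * η))) * ∑ u ∈ AA a X, 1 / (nm u : ℝ) := by
      have e2 : ∀ u ∈ AA a X, (1 / (nm u : ℝ)) *
          (2 * cV * ∑ k ∈ S, ‖d k‖ ^ 2 * (1 - (xi (2 * k) u).re) -
            4 * Cw * D0 * (X ^ δ * X ^ (-(12 / 25 * η)))) =
          ∑ k ∈ S, 2 * cV * (‖d k‖ ^ 2 * ((1 / (nm u : ℝ)) * (1 - (xi (2 * k) u).re))) -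
          4 * Cw * D0 * (X ^ δ * X ^ (-(12 / 25 * η))) * (1 / (nm u : ℝ)) := by
        intro u _
        rw [mul_sub, Finset.mul_sum, Finset.mul_sum]
        congr 1
        · exact Finset.sum_congr rfl fun k _ => by ring
        · ring
      rw [Finset.sum_congr rfl e2, Finset.sum_sub_distrib, ← Finset.mul_sum, Finset.sum_comm]
      congr 1
      rw [Finset.mul_sum]
      refine Finset.sum_congr rfl fun k _ => ?_
      rw [Finset.mul_sum, Finset.mul_sum]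
    rw [e1]
    have h1 : cs * ∑ k ∈ S.erase 0, ‖d k‖ ^ 2 ≤ ∑ k ∈ S, ‖d k‖ ^ 2 *
        (∑ u ∈ AA a X, (1 / (nm u : ℝ)) * (1 - (xi (2 * k) u).re)) := by
      have hnn : ∀ k : ℤ, 0 ≤ ∑ u ∈ AA a X, (1 / (nm u : ℝ)) * (1 - (xi (2 * k) u).re) := by
        intro k
        refine Finset.sum_nonneg fun u hu => mul_nonneg (by positivity) ?_
        have hu' : u ∈ V (X ^ (13 / 25 : ℝ)) := ct_AA hu
        have h1 := Complex.abs_re_le_norm (xi (2 * k) u)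
        rw [norm_xi _ (V_ne_zero hu')] at h1
        linarith [(abs_le.1 h1).2]
      calc cs * ∑ k ∈ S.erase 0, ‖d k‖ ^ 2 = ∑ k ∈ S.erase 0, ‖d k‖ ^ 2 * cs := by
            rw [Finset.mul_sum]
            exact Finset.sum_congr rfl fun k _ => mul_comm _ _
        _ ≤ ∑ k ∈ S.erase 0, ‖d k‖ ^ 2 *
            (∑ u ∈ AA a X, (1 / (nm u : ℝ)) * (1 - (xi (2 * k) u).re)) := by
            refine Finset.sum_le_sum fun k hk => ?_
            rw [Finset.mem_erase] at hk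
            refine mul_le_mul_of_nonneg_left ?_ (by positivity)
            refine hsieve X hXs k hk.1 ?_
            have h2 := mem_fr.1 (hS hk.2)
            have h3 : |k| ≤ (T : ℤ) := abs_le.2 h2
            have h4 : ((|k| : ℤ) : ℝ) ≤ ((T : ℤ) : ℝ) := by exact_mod_cast h3
            rw [Int.cast_abs] at h4
            push_cast at h4
            linarith
        _ ≤ _ := Finset.sum_le_sum_of_subset_of_nonneg (Finset.erase_subset _ _)
            fun k _ _ => mul_nonneg (by positivity) (hnn k)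
    have h2 : 4 * Cw * D0 * (X ^ δ * X ^ (-(12 / 25 * η))) * ∑ u ∈ AA a X, 1 / (nm u : ℝ) ≤
        4 * Cw * D0 * CA * X ^ (-δ) := by
      calc 4 * Cw * D0 * (X ^ δ * X ^ (-(12 / 25 * η))) * ∑ u ∈ AA a X, 1 / (nm u : ℝ)
          ≤ 4 * Cw * D0 * (X ^ δ * X ^ (-(12 / 25 * η))) * (CA * Real.log X) :=
            mul_le_mul_of_nonneg_left (hAA a X hX2) (by positivity)
        _ = 4 * Cw * D0 * CA * (X ^ δ * X ^ (-(12 / 25 * η)) * Real.log X) := by ring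
        _ ≤ _ := mul_le_mul_of_nonneg_left hE3 (by positivity)
    have h3 : 2 * cV * (cs * ∑ k ∈ S.erase 0, ‖d k‖ ^ 2) ≤ 2 * cV * ∑ k ∈ S, ‖d k‖ ^ 2 *
        (∑ u ∈ AA a X, (1 / (nm u : ℝ)) * (1 - (xi (2 * k) u).re)) :=
      mul_le_mul_of_nonneg_left h1 (by positivity)
    linarith
  have hcomb : 2 * cV * (cs * ∑ k ∈ S.erase 0, ‖d k‖ ^ 2) - 4 * Cw * D0 * CA * X ^ (-δ) ≤
      Cu * (9 * ε + Cw * D0 * X ^ (-δ)) + Cu * D0 * X ^ (-δ) := by
    refine hlow.trans ?_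
    exact le_of_mul_le_mul_left (hsum.trans hupper) hX0
  have hXδ : 0 < X ^ (-δ) := by positivity
  have hfin : ∑ k ∈ S.erase 0, ‖d k‖ ^ 2 ≤
      (9 * Cu + Cu * Cw * D0 + Cu * D0 + 4 * Cw * D0 * CA) / (2 * cV * cs) * (ε + X ^ (-δ)) := by
    rw [div_mul_eq_mul_div, le_div_iff₀ (by positivity)]
    have h1 : 0 ≤ (Cu * Cw * D0 + Cu * D0 + 4 * Cw * D0 * CA) * ε := by positivity
    have h2 : 0 ≤ 9 * Cu * X ^ (-δ) := by positivity
    nlinarith
  have hconv : ∑ k ∈ S.erase 0, ‖fc F X k‖ ^ 2 = (∑ k ∈ S.erase 0, ‖d k‖ ^ 2) * N ^ 2 := by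
    rw [Finset.sum_mul]
    refine Finset.sum_congr rfl fun k _ => ?_
    rw [hdk, div_mul_cancel₀ _ (by positivity)]
  rw [hconv]
  exact mul_le_mul_of_nonneg_right hfin (by positivity)

end Pool.Agent.GaussMR
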