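import Pool.Agent.Lib_MP_f1a94e_mr.Split

/-!
# Piece PERM: products of split primes
-/

set_option autoImplicit false

namespace Pool.Agent.GaussMR

/-- products of elements of `PP` are odd and primitive (no prime `p` divides, since `w * star w ∣ ∏`
would force `star w` to be associated to some `x i`) -/
theorem prim_prod {l : ℕ} {P Q : ℝ} (x : Fin l → G) (hx : ∀ i, x i ∈ PP P Q) :
    Prim (∏ i, x i) ∧ Odd (nm (∏ i, x i)) := by
  induction l with
  | zero =>
    simp only [Finset.univ_eq_empty, Finset.prod_empty]
    exact ⟨prim_one, by rw [nm_one]; exact odd_one⟩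
  | succ l ih =>
    rw [Fin.prod_univ_succ]
    obtain ⟨h1, h2⟩ := ih (fun i => x i.succ) (fun i => hx i.succ)
    have h0 : Spl (x 0) := PP_spl (hx 0)
    refine ⟨?_, odd_nm_mul.2 ⟨h0.odd, h2⟩⟩
    rw [prim_mul_iff h0 h1]
    intro hd
    have hp : Prime (star (x 0)) := h0.conj.prime
    obtain ⟨i, -, hi⟩ := (hp.dvd_finsetProd_iff _).1 hd
    obtain ⟨c, hc⟩ := hi
    apply PP_not_dvd_star (hx 0) (hx i.succ)
    refine ⟨star c, ?_⟩
    rw [hc]
    rw [star_mul', star_star]

/-- two functions on `Fin l` with the same multiset of values differ by a permutation -/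
theorem exists_perm_of_map_eq {α : Type*} {l : ℕ} (x y : Fin l → α)
    (h : Multiset.map y Finset.univ.val = Multiset.map x Finset.univ.val) :
    ∃ σ : Equiv.Perm (Fin l), y = x ∘ σ := by
  classical
  have hc : ∀ c : α, Nonempty ({a // y a = c} ≃ {b // x b = c}) := by
    intro c
    apply Fintype.card_eq.1
    have h1 := congrArg (Multiset.count c) h
    rw [Multiset.count_map, Multiset.count_map] at h1
    rw [Fintype.card_subtype, Fintype.card_subtype]
    have e1 : (Finset.univ.filter (fun a : Fin l => y a = c)).card =
        (Multiset.filter (fun a => c = y a) Finset.univ.val).card := by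
      rw [← Finset.filter_val, Finset.card_def]
      congr 2
      ext a
      simp [eq_comm]
    have e2 : (Finset.univ.filter (fun a : Fin l => x a = c)).card =
        (Multiset.filter (fun a => c = x a) Finset.univ.val).card := by
      rw [← Finset.filter_val, Finset.card_def]
      congr 2
      ext a
      simp [eq_comm]
    rw [e1, e2]
    exact h1
  refine ⟨Equiv.ofFiberEquiv (f := y) (g := x) (fun c => (hc c).some), ?_⟩
  funext i
  exact (Equiv.ofFiberEquiv_map (f := y) (g := x) (fun c => (hc c).some) i).symm

/-- unique factorisation: equal products of elements of `PP` come from permutations -/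
theorem prod_fiber {l : ℕ} {P Q : ℝ} (x : Fin l → G) (hx : ∀ i, x i ∈ PP P Q) :
    Set.ncard {y : Fin l → G | (∀ i, y i ∈ PP P Q) ∧ ∏ i, y i = ∏ i, x i} ≤ l.factorial := by
  have hsub : {y : Fin l → G | (∀ i, y i ∈ PP P Q) ∧ ∏ i, y i = ∏ i, x i} ⊆
      Set.range (fun σ : Equiv.Perm (Fin l) => x ∘ σ) := by
    rintro y ⟨hy, hprod⟩
    have hrel : Multiset.Rel Associated (Multiset.map y Finset.univ.val)
        (Multiset.map x Finset.univ.val) := by
      apply prime_factors_unique
      · intro a ha
        obtain ⟨i, -, rfl⟩ := Multiset.mem_map.1 ha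
        exact (PP_spl (hy i)).prime
      · intro a ha
        obtain ⟨i, -, rfl⟩ := Multiset.mem_map.1 ha
        exact (PP_spl (hx i)).prime
      · have e : (Multiset.map y Finset.univ.val).prod = (Multiset.map x Finset.univ.val).prod :=
          hprod
        rw [e]
        exact Associated.refl _
    have heq : Multiset.map y Finset.univ.val = Multiset.map x Finset.univ.val := by
      rw [← Multiset.rel_eq]
      refine hrel.mono ?_
      intro a ha b hb hab
      obtain ⟨i, -, rfl⟩ := Multiset.mem_map.1 ha
      obtain ⟨j, -, rfl⟩ := Multiset.mem_map.1 hb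
      exact PP_dvd (hy i) (hx j) hab.dvd
    obtain ⟨σ, hσ⟩ := exists_perm_of_map_eq x y heq
    exact ⟨σ, hσ.symm⟩
  refine (Set.ncard_le_ncard hsub (Set.finite_range _)).trans ?_
  rw [← Set.image_univ]
  refine (Set.ncard_image_le (Set.finite_univ)).trans ?_
  rw [Set.ncard_univ, Nat.card_eq_fintype_card, Fintype.card_perm, Fintype.card_fin]

end Pool.Agent.GaussMR
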