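import Pool.Agent.Lib_MP_f1a94e_mr.LS
import Pool.Agent.Lib_MP_f1a94e_mr.Perm

/-!
# Piece FEW: few frequencies at which a second stage prime polynomial is large
-/

set_option autoImplicit false

namespace Pool.Agent.GaussMR

namespace FewAux

open Filter Topology

lemma xi_one (k : ℤ) : xi k 1 = 1 := by
  have h := xi_natCast_mul k (n := 1) one_pos 1
  have h1 : dir 1 = 1 := by
    have := dir_natCast (n := 1) one_pos
    simpa using this
  unfold xi
  rw [h1, one_zpow]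

lemma xi_prod {ι : Type*} (s : Finset ι) (k : ℤ) (x : ι → G) :
    xi k (∏ i ∈ s, x i) = ∏ i ∈ s, xi k (x i) := by
  classical
  induction s using Finset.induction_on with
  | empty => simp [xi_one]
  | insert a s ha ih => rw [Finset.prod_insert ha, Finset.prod_insert ha, xi_mul, ih]

lemma nm_prod {ι : Type*} (s : Finset ι) (x : ι → G) : nm (∏ i ∈ s, x i) = ∏ i ∈ s, nm (x i) := by
  classical
  induction s using Finset.induction_on with
  | empty => simp
  | insert a s ha ih => rw [Finset.prod_insert ha, Finset.prod_insert ha, nm_mul, ih]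

lemma U_pow (F : G → ℝ) (P Q ρ : ℝ) (v : ℕ) (k : ℤ) (l : ℕ) :
    U F P Q ρ v k ^ l = ∑ x ∈ Fintype.piFinset (fun _ : Fin l => blk P Q ρ v),
      (∏ i, (F (x i) : ℂ)) * xi (-k) (∏ i, x i) := by
  have h1 : U F P Q ρ v k ^ l = ∏ _i : Fin l, U F P Q ρ v k := by
    rw [Finset.prod_const, Finset.card_univ, Fintype.card_fin]
  rw [h1]
  unfold U
  rw [Finset.prod_univ_sum]
  refine Finset.sum_congr rfl fun x _ => ?_
  rw [Finset.prod_mul_distrib, xi_prod]

lemma mem_blk_few {P Q ρ : ℝ} {v : ℕ} {w : G} : w ∈ blk P Q ρ v ↔ w ∈ PP P Q ∧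
    Real.exp (v * ρ) < (nm w : ℝ) ∧ (nm w : ℝ) ≤ Real.exp ((v + 1) * ρ) := by
  classical
  simp [blk]

/-- number of coincidences -/
lemma pairs_le_few (P Q ρ : ℝ) (v l : ℕ) :
    (Set.ncard {p : (Fin l → G) × (Fin l → G) |
      p.1 ∈ Fintype.piFinset (fun _ : Fin l => blk P Q ρ v) ∧
      p.2 ∈ Fintype.piFinset (fun _ : Fin l => blk P Q ρ v) ∧
      pr (∏ i, p.1 i) = pr (∏ i, p.2 i)} : ℝ) ≤
      Real.exp ((v + 1) * ρ) ^ l * l.factorial := by
  classical
  set s := Fintype.piFinset (fun _ : Fin l => blk P Q ρ v) with hs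
  have hsP : ∀ x ∈ s, ∀ i, x i ∈ PP P Q := by
    intro x hx i
    rw [hs, Fintype.mem_piFinset] at hx
    exact (mem_blk_few.1 (hx i)).1
  set D := (s ×ˢ s).filter (fun p => ∏ i, p.1 i = ∏ i, p.2 i) with hD
  have h1 : {p : (Fin l → G) × (Fin l → G) | p.1 ∈ s ∧ p.2 ∈ s ∧
      pr (∏ i, p.1 i) = pr (∏ i, p.2 i)} ⊆ (D : Set _) := by
    rintro p ⟨p1, p2, p3⟩
    rw [pr_eq_self _ (prim_prod p.1 (hsP _ p1)).1, pr_eq_self _ (prim_prod p.2 (hsP _ p2)).1] at p3
    rw [hD, Finset.coe_filter]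
    exact ⟨Finset.mem_product.2 ⟨p1, p2⟩, p3⟩
  have h2 : Set.ncard {p : (Fin l → G) × (Fin l → G) | p.1 ∈ s ∧ p.2 ∈ s ∧
      pr (∏ i, p.1 i) = pr (∏ i, p.2 i)} ≤ D.card := by
    rw [← Set.ncard_coe_finset]
    exact Set.ncard_le_ncard h1 (Finset.finite_toSet D)
  have h3 : D.card = ∑ x ∈ s, (D.filter (fun p => p.1 = x)).card := by
    apply Finset.card_eq_sum_card_fiberwise
    intro p hp
    exact (Finset.mem_product.1 (Finset.mem_filter.1 hp).1).1
  have h4 : ∀ x ∈ s, (D.filter (fun p => p.1 = x)).card ≤ l.factorial := by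
    intro x hx
    refine le_trans ?_ (prod_fiber x (hsP x hx))
    rw [← Set.ncard_coe_finset]
    refine Set.ncard_le_ncard_of_injOn (fun p => p.2) ?_ ?_ ?_
    · intro p hp
      obtain ⟨hp1, hp2⟩ := Finset.mem_filter.1 (Finset.mem_coe.1 hp)
      obtain ⟨hp3, hp4⟩ := Finset.mem_filter.1 hp1
      refine ⟨hsP _ (Finset.mem_product.1 hp3).2, ?_⟩
      rw [← hp4, hp2]
    · intro p hp q hq hpq
      have hp2 := (Finset.mem_filter.1 (Finset.mem_coe.1 hp)).2
      have hq2 := (Finset.mem_filter.1 (Finset.mem_coe.1 hq)).2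
      exact Prod.ext (hp2.trans hq2.symm) hpq
    · refine (Finset.finite_toSet (Fintype.piFinset (fun _ : Fin l => PP P Q))).subset ?_
      rintro y ⟨hy, _⟩
      rw [Finset.mem_coe, Fintype.mem_piFinset]
      exact hy
  have h5 : D.card ≤ s.card * l.factorial := by
    rw [h3]
    calc ∑ x ∈ s, (D.filter (fun p => p.1 = x)).card ≤ ∑ _x ∈ s, l.factorial :=
          Finset.sum_le_sum h4
      _ = s.card * l.factorial := by rw [Finset.sum_const, smul_eq_mul]
  have h6 : (s.card : ℝ) ≤ Real.exp ((v + 1) * ρ) ^ l := by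
    rw [hs, Fintype.card_piFinset]
    push_cast
    rw [Finset.prod_const, Finset.card_univ, Fintype.card_fin]
    gcongr
    exact card_blk_le P Q ρ v
  calc (Set.ncard {p : (Fin l → G) × (Fin l → G) | p.1 ∈ s ∧ p.2 ∈ s ∧
      pr (∏ i, p.1 i) = pr (∏ i, p.2 i)} : ℝ) ≤ (s.card * l.factorial : ℕ) := by
        exact_mod_cast h2.trans h5
    _ = (s.card : ℝ) * l.factorial := by push_cast; ring
    _ ≤ _ := by gcongr

/-- the estimate for one block -/
lemma one_block {C : ℝ} (hC0 : 0 < C) (hC : ∀ (ι : Type) (s : Finset ι) (g : ι → G) (c : ι → ℂ)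
    (Y : ℝ) (T : ℕ), 1 ≤ Y → (∀ i ∈ s, ‖c i‖ ≤ 1) →
    (∀ i ∈ s, Odd (nm (g i)) ∧ (nm (g i) : ℝ) ≤ Y) →
    ∑ k ∈ fr T, ‖∑ i ∈ s, c i * xi (-k) (g i)‖ ^ 2 ≤
      C * (T + Y) * (Set.ncard {p : ι × ι | p.1 ∈ s ∧ p.2 ∈ s ∧ pr (g p.1) = pr (g p.2)} : ℝ))
    {F : G → ℝ} (hF : PM F) {P Q ρ X α : ℝ} {T v l : ℕ} (hρ : 0 < ρ) (hX : 1 ≤ X)
    (hT : (T : ℝ) ≤ X) (h1 : l * (v * ρ) ≤ Real.log X) (h2 : Real.log X ≤ (l + 1) * (v * ρ))
    (h3 : v * ρ ≤ Real.log Q) (hQ : 0 < Q) (hα : 0 < α) (hα' : α ≤ 1 / 4) :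
    (((fr T).filter (fun k => Real.exp ((1 - α) * (v * ρ)) < ‖U F P Q ρ v k‖)).card : ℝ) ≤
      2 * C * Real.exp (2 * ρ * l) * l.factorial * X ^ (2 * α) * Q := by
  classical
  set s := Fintype.piFinset (fun _ : Fin l => blk P Q ρ v) with hs
  set A := (fr T).filter (fun k => Real.exp ((1 - α) * (v * ρ)) < ‖U F P Q ρ v k‖) with hA
  set Y := X * Real.exp (ρ * l) with hY
  have hX0 : 0 < X := by linarith
  have hY1 : 1 ≤ Y := by
    have : 1 ≤ Real.exp (ρ * l) := Real.one_le_exp (by positivity)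
    nlinarith
  have hsB : ∀ x ∈ s, ∀ i, x i ∈ blk P Q ρ v := by
    intro x hx i
    rw [hs, Fintype.mem_piFinset] at hx
    exact hx i
  have hodd : ∀ x ∈ s, ∀ i, Odd (nm (x i)) := fun x hx i =>
    (PP_spl (mem_blk_few.1 (hsB x hx i)).1).odd
  have hexpY : Real.exp ((v + 1) * ρ) ^ l ≤ Y := by
    rw [← Real.exp_nat_mul, hY]
    have : X * Real.exp (ρ * l) = Real.exp (Real.log X + ρ * l) := by
      rw [Real.exp_add, Real.exp_log hX0]
    rw [this]
    apply Real.exp_le_exp.2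
    nlinarith
  have hLS := hC (Fin l → G) s (fun x => ∏ i, x i) (fun x => ∏ i, (F (x i) : ℂ)) Y T hY1
    (by
      intro x hx
      rw [norm_prod]
      have : ∀ i ∈ Finset.univ, ‖(F (x i) : ℂ)‖ = 1 := fun i _ => hF.norm (hodd x hx i)
      rw [Finset.prod_congr rfl this, Finset.prod_const_one])
    (by
      intro x hx
      refine ⟨(prim_prod x (fun i => (mem_blk_few.1 (hsB x hx i)).1)).2, ?_⟩
      rw [nm_prod]
      push_cast
      calc ∏ i : Fin l, (nm (x i) : ℝ) ≤ ∏ _i : Fin l, Real.exp ((v + 1) * ρ) := by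
            apply Finset.prod_le_prod
            · intro i _
              positivity
            · intro i _
              exact (mem_blk_few.1 (hsB x hx i)).2.2
        _ = Real.exp ((v + 1) * ρ) ^ l := by
            rw [Finset.prod_const, Finset.card_univ, Fintype.card_fin]
        _ ≤ Y := hexpY)
  have hLS2 := hLS.trans (mul_le_mul_of_nonneg_left (pairs_le_few P Q ρ v l) (by positivity))
  have hlow : (A.card : ℝ) * Real.exp ((1 - α) * (v * ρ)) ^ (2 * l) ≤
      ∑ k ∈ fr T, ‖∑ x ∈ s, (∏ i, (F (x i) : ℂ)) * xi (-k) (∏ i, x i)‖ ^ 2 := by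
    calc (A.card : ℝ) * Real.exp ((1 - α) * (v * ρ)) ^ (2 * l) =
        ∑ _k ∈ A, Real.exp ((1 - α) * (v * ρ)) ^ (2 * l) := by
          rw [Finset.sum_const, nsmul_eq_mul]
      _ ≤ ∑ k ∈ A, ‖∑ x ∈ s, (∏ i, (F (x i) : ℂ)) * xi (-k) (∏ i, x i)‖ ^ 2 := by
          apply Finset.sum_le_sum
          intro k hk
          rw [← U_pow F P Q ρ v k l, norm_pow, ← pow_mul, Nat.mul_comm l 2]
          have := (Finset.mem_filter.1 hk).2
          gcongr
      _ ≤ _ := by
          apply Finset.sum_le_sum_of_subset_of_nonneg (Finset.filter_subset _ _)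
          intro k _ _
          positivity
  have hTY : (T : ℝ) + Y ≤ 2 * Y := by
    have : X ≤ Y := by
      have : 1 ≤ Real.exp (ρ * l) := Real.one_le_exp (by positivity)
      nlinarith
    linarith
  have hmain : (A.card : ℝ) * Real.exp ((1 - α) * (v * ρ)) ^ (2 * l) ≤
      C * (2 * Y) * (Real.exp ((v + 1) * ρ) ^ l * l.factorial) := by
    refine (hlow.trans hLS2).trans ?_
    gcongr
  have hE0 : 0 < Real.exp ((1 - α) * (v * ρ)) ^ (2 * l) := by positivity
  rw [← le_div_iff₀ hE0] at hmain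
  refine hmain.trans ?_
  rw [div_le_iff₀ hE0]
  have e1 : Y * Real.exp ((v + 1) * ρ) ^ l ≤ Real.exp (2 * ρ * l) * X ^ (2 * α) * Q *
      Real.exp ((1 - α) * (v * ρ)) ^ (2 * l) := by
    have a1 : Y * Real.exp ((v + 1) * ρ) ^ l =
        Real.exp (Real.log X + ρ * l + l * ((v + 1) * ρ)) := by
      rw [hY, ← Real.exp_nat_mul, Real.exp_add, Real.exp_add, Real.exp_log hX0]
    have a2 : Real.exp (2 * ρ * l) * X ^ (2 * α) * Q * Real.exp ((1 - α) * (v * ρ)) ^ (2 * l) =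
        Real.exp (2 * ρ * l + Real.log X * (2 * α) + Real.log Q +
          2 * l * ((1 - α) * (v * ρ))) := by
      rw [← Real.exp_nat_mul, Real.rpow_def_of_pos hX0, Real.exp_add, Real.exp_add, Real.exp_add,
        Real.exp_log hQ]
      push_cast
      ring
    rw [a1, a2]
    apply Real.exp_le_exp.2
    have b1 : 0 ≤ Real.log X - l * (v * ρ) := by linarith
    have b2 : Real.log X - l * (v * ρ) ≤ Real.log Q := by linarith
    have b3 : (1 - 2 * α) * (Real.log X - l * (v * ρ)) ≤ Real.log Q := by nlinarith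
    nlinarith
  calc C * (2 * Y) * (Real.exp ((v + 1) * ρ) ^ l * l.factorial) =
      2 * C * l.factorial * (Y * Real.exp ((v + 1) * ρ) ^ l) := by ring
    _ ≤ 2 * C * l.factorial * (Real.exp (2 * ρ * l) * X ^ (2 * α) * Q *
        Real.exp ((1 - α) * (v * ρ)) ^ (2 * l)) := by gcongr
    _ = _ := by ring

/-- the conditions on `X` -/
lemma large_X (C C2 M ρ δ : ℝ) (hC : 0 < C) (hC2 : 1 ≤ C2) (hM : 1 ≤ M) (hρ : 0 < ρ)
    (hδ : 0 < δ) : ∀ᶠ X : ℝ in atTop, 1 ≤ X ∧ 1 ≤ Real.log X ∧ 2 ≤ Real.log (Real.log X) ∧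
      Real.log (Real.log X) + 2 ≤ (1 / C2 + δ / 2) * (C2 * Real.log (Real.log X) - 1) ∧
      2 * C * (C2 * M * Real.log (Real.log X) / ρ + 1) * Real.log X ^ (C2 * M) ≤ X ^ (δ / 2) := by
  have tL := Real.tendsto_log_atTop
  have tE := tL.comp tL
  have h4 := tE.eventually_ge_atTop ((2 + 1 / C2 + δ / 2) * 2 / (δ * C2))
  have hK : 0 < 2 * C * (C2 * M / ρ + 1) := by positivity
  have h5 := (isLittleO_log_rpow_rpow_atTop (C2 * M + 1) (half_pos hδ)).def
    (one_div_pos.2 hK)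
  filter_upwards [eventually_ge_atTop 1, tL.eventually_ge_atTop 1, tE.eventually_ge_atTop 2, h4,
    h5] with X h1 h2 h3 h4 h5
  simp only [Function.comp] at h3 h4
  refine ⟨h1, h2, h3, ?_, ?_⟩
  · have hC0 : 0 < C2 := by linarith
    rw [div_le_iff₀ (by positivity)] at h4
    have : (1 / C2 + δ / 2) * (C2 * Real.log (Real.log X) - 1) =
        Real.log (Real.log X) + (Real.log (Real.log X) * (δ * C2)) / 2 - 1 / C2 - δ / 2 := by
      field_simp
      ring
    rw [this]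
    linarith
  · have hL0 : 0 < Real.log X := by linarith
    have e1 : Real.log (Real.log X) ≤ Real.log X := by
      have := Real.log_le_sub_one_of_pos hL0
      linarith
    rw [Real.norm_of_nonneg (by positivity), Real.norm_of_nonneg (by positivity),
      Real.rpow_add hL0, Real.rpow_one, one_div, inv_mul_eq_div, le_div_iff₀ hK] at h5
    have hC0 : 0 < C2 := by linarith
    have hM0 : 0 < M := by linarith
    calc 2 * C * (C2 * M * Real.log (Real.log X) / ρ + 1) * Real.log X ^ (C2 * M) ≤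
        2 * C * (C2 * M * Real.log X / ρ + Real.log X) * Real.log X ^ (C2 * M) := by gcongr
      _ = Real.log X ^ (C2 * M) * Real.log X * (2 * C * (C2 * M / ρ + 1)) := by ring
      _ ≤ _ := h5

end FewAux

open FewAux

/-- For a nonempty block `v` let `l = ⌊log X / (v ρ)⌋`. `(U_v)^l` is a sum over the family
`x ∈ blk^l`, `g = ∏ x` odd, primitive, of norm `≤ e^((v+1) ρ l) ≤ X e^(ρ l)`, so by `large_sieve_fam`
and `prod_fiber` its mean square is at most `C (T + X e^(ρl)) l! #blk^l ≤ 2 C X e^(ρl) l! e^((v+1)ρl)`;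
therefore `#{k : ‖U_v k‖ > e^((1-α) v ρ)} ≤ 2 C X e^(2ρl) l! e^(-(1-2α) v ρ l)
≤ 2 C e^(2ρl) l! X^(2α) Q`, because `e^(vρl) ≥ X e^(-vρ) ≥ X / Q`. Here
`l ≤ log X / (C2 log log X - ρ)`, `l! ≤ l^l ≤ exp (l log log X)`, which is `X^(1/C2 + o(1))`, and
`Q = (log X)^(C2 M)`, `e^(2ρl)`, and the number of blocks are `X^(o(1))`. -/
theorem few (α C2 M ρ δ : ℝ) (hα : 0 < α) (hα' : α ≤ 1 / 4) (hC2 : 1 ≤ C2) (hM : 1 ≤ M)
    (hρ : 0 < ρ) (hρ' : ρ ≤ 1) (hδ : 0 < δ) : ∃ X0 : ℝ, ∀ X : ℝ, X0 ≤ X → ∀ (F : G → ℝ), PM F →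
    ∀ T : ℕ, (T : ℝ) ≤ X →
    (Set.ncard {k : ℤ | k ∈ fr T ∧ ∃ v : ℕ, Real.exp ((1 - α) * (v * ρ)) <
      ‖U F (Real.log X ^ C2) (Real.log X ^ (C2 * M)) ρ v k‖} : ℝ) ≤ X ^ (2 * α + 1 / C2 + δ) := by
  classical
  obtain ⟨C, hC0, hC⟩ := large_sieve_fam
  obtain ⟨X0, hX0⟩ := Filter.eventually_atTop.1 (large_X C C2 M ρ δ hC0 hC2 hM hρ hδ)
  refine ⟨X0, fun X hX F hF T hT => ?_⟩
  obtain ⟨x1, x2, x3, x4, x5⟩ := hX0 X hX
  set L := Real.log X with hL
  set E := Real.log L with hE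
  set P := L ^ C2 with hP
  set Q := L ^ (C2 * M) with hQ
  have hXpos : 0 < X := by linarith
  have hLpos : 0 < L := by linarith
  have hC2pos : 0 < C2 := by linarith
  have hMpos : 0 < M := by linarith
  have hQpos : 0 < Q := Real.rpow_pos_of_pos hLpos _
  have hPpos : 0 < P := Real.rpow_pos_of_pos hLpos _
  have hlogQ : Real.log Q = C2 * M * E := by rw [hQ, Real.log_rpow hLpos]
  have hlogP : Real.log P = C2 * E := by rw [hP, Real.log_rpow hLpos]
  set Nv := ⌊C2 * M * E / ρ⌋₊ + 1 with hNv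
  -- the range of v
  have hv : ∀ (v : ℕ) (k : ℤ), Real.exp ((1 - α) * (v * ρ)) < ‖U F P Q ρ v k‖ →
      v * ρ ≤ C2 * M * E ∧ C2 * E - 1 ≤ v * ρ := by
    intro v k hvk
    have hne : (blk P Q ρ v).Nonempty := by
      by_contra h
      rw [Finset.not_nonempty_iff_eq_empty] at h
      have : U F P Q ρ v k = 0 := by
        unfold U
        rw [h, Finset.sum_empty]
      rw [this, norm_zero] at hvk
      exact absurd hvk (not_lt.2 (Real.exp_pos _).le)
    obtain ⟨w, hw⟩ := hne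
    obtain ⟨w1, w2, w3⟩ := mem_blk_few.1 hw
    obtain ⟨w4, w5, _⟩ := mem_PP.1 w1
    constructor
    · have := w2.trans_le w5
      rw [← Real.lt_log_iff_exp_lt hQpos, hlogQ] at this
      exact this.le
    · have := w4.trans_le w3
      rw [← Real.log_lt_iff_lt_exp hPpos, hlogP] at this
      nlinarith
  have hsub : {k : ℤ | k ∈ fr T ∧ ∃ v : ℕ, Real.exp ((1 - α) * (v * ρ)) < ‖U F P Q ρ v k‖} ⊆
      (((Finset.range Nv).biUnion (fun v => (fr T).filter
        (fun k => Real.exp ((1 - α) * (v * ρ)) < ‖U F P Q ρ v k‖)) : Finset ℤ) : Set ℤ) := by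
    rintro k ⟨hk, v, hvk⟩
    rw [Finset.mem_coe, Finset.mem_biUnion]
    refine ⟨v, ?_, Finset.mem_filter.2 ⟨hk, hvk⟩⟩
    rw [Finset.mem_range, hNv, Nat.lt_succ_iff]
    apply Nat.le_floor
    rw [le_div_iff₀ hρ]
    exact (hv v k hvk).1
  have hcard : ∀ v ∈ Finset.range Nv, (((fr T).filter
      (fun k => Real.exp ((1 - α) * (v * ρ)) < ‖U F P Q ρ v k‖)).card : ℝ) ≤
      2 * C * X ^ (1 / C2 + δ / 2) * X ^ (2 * α) * Q := by
    intro v _
    rcases Finset.eq_empty_or_nonempty ((fr T).filter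
      (fun k => Real.exp ((1 - α) * (v * ρ)) < ‖U F P Q ρ v k‖)) with he | ⟨k, hk⟩
    · rw [he, Finset.card_empty, Nat.cast_zero]
      positivity
    · obtain ⟨v1, v2⟩ := hv v k (Finset.mem_filter.1 hk).2
      have hv1 : 1 ≤ v * ρ := by nlinarith
      have hv0 : 0 < v * ρ := by linarith
      set l := ⌊L / (v * ρ)⌋₊ with hl
      have l1 : (l : ℝ) ≤ L / (v * ρ) := Nat.floor_le (by positivity)
      have l2 : L / (v * ρ) < l + 1 := Nat.lt_floor_add_one _
      have l3 : l * (v * ρ) ≤ L := by rwa [le_div_iff₀ hv0] at l1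
      have l4 : L ≤ (l + 1) * (v * ρ) := by
        rw [div_lt_iff₀ hv0] at l2
        exact l2.le
      have l5 : (l : ℝ) ≤ L := by
        calc (l : ℝ) ≤ L / (v * ρ) := l1
          _ ≤ L / 1 := by gcongr
          _ = L := div_one L
      have hfac : Real.exp (2 * ρ * l) * l.factorial ≤ X ^ (1 / C2 + δ / 2) := by
        have f1 : (l.factorial : ℝ) ≤ Real.exp (l * E) := by
          have g1 : (l.factorial : ℝ) ≤ (l : ℝ) ^ l := by exact_mod_cast Nat.factorial_le_pow l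
          have g2 : (l : ℝ) ^ l ≤ L ^ l := by gcongr
          have g3 : L ^ l = Real.exp (l * E) := by
            rw [Real.exp_nat_mul, hE, Real.exp_log hLpos]
          linarith
        have f2 : Real.exp (2 * ρ * l) ≤ Real.exp (2 * l) := by
          apply Real.exp_le_exp.2
          have : (0 : ℝ) ≤ l := Nat.cast_nonneg l
          nlinarith
        have f3 : l * (E + 2) ≤ (1 / C2 + δ / 2) * L := by
          have g0 : (0 : ℝ) ≤ l := Nat.cast_nonneg l
          have g1 : (0:ℝ) ≤ 1 / C2 + δ / 2 := by positivity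
          calc l * (E + 2) ≤ l * ((1 / C2 + δ / 2) * (C2 * E - 1)) := by gcongr
            _ = (1 / C2 + δ / 2) * (l * (C2 * E - 1)) := by ring
            _ ≤ (1 / C2 + δ / 2) * (l * (v * ρ)) := by gcongr
            _ ≤ (1 / C2 + δ / 2) * L := by gcongr
        calc Real.exp (2 * ρ * l) * l.factorial ≤ Real.exp (2 * l) * Real.exp (l * E) := by
              gcongr
          _ = Real.exp (l * (E + 2)) := by
              rw [← Real.exp_add]
              congr 1
              ring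
          _ ≤ Real.exp (L * (1 / C2 + δ / 2)) := by
              apply Real.exp_le_exp.2
              linarith
          _ = X ^ (1 / C2 + δ / 2) := by rw [Real.rpow_def_of_pos hXpos]
      have hb := one_block hC0 hC hF (P := P) (Q := Q) (ρ := ρ) (X := X) (α := α) (T := T)
        (v := v) (l := l) hρ x1 hT l3 l4 (by rw [hlogQ]; exact v1) hQpos hα hα'
      refine hb.trans ?_
      calc 2 * C * Real.exp (2 * ρ * l) * l.factorial * X ^ (2 * α) * Q =
          2 * C * (Real.exp (2 * ρ * l) * l.factorial) * X ^ (2 * α) * Q := by ring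
        _ ≤ _ := by gcongr
  have hfin := Set.ncard_le_ncard hsub (Finset.finite_toSet _)
  rw [Set.ncard_coe_finset] at hfin
  have hNvle : (Nv : ℝ) ≤ C2 * M * E / ρ + 1 := by
    rw [hNv]
    push_cast
    have : (⌊C2 * M * E / ρ⌋₊ : ℝ) ≤ C2 * M * E / ρ := Nat.floor_le (by positivity)
    linarith
  calc (Set.ncard {k : ℤ | k ∈ fr T ∧ ∃ v : ℕ, Real.exp ((1 - α) * (v * ρ)) <
      ‖U F P Q ρ v k‖} : ℝ) ≤ (((Finset.range Nv).biUnion (fun v => (fr T).filter
        (fun k => Real.exp ((1 - α) * (v * ρ)) < ‖U F P Q ρ v k‖))).card : ℝ) := by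
        exact_mod_cast hfin
    _ ≤ ((∑ v ∈ Finset.range Nv, ((fr T).filter
        (fun k => Real.exp ((1 - α) * (v * ρ)) < ‖U F P Q ρ v k‖)).card : ℕ) : ℝ) := by
        exact_mod_cast Finset.card_biUnion_le
    _ = ∑ v ∈ Finset.range Nv, (((fr T).filter
        (fun k => Real.exp ((1 - α) * (v * ρ)) < ‖U F P Q ρ v k‖)).card : ℝ) := by push_cast; rfl
    _ ≤ ∑ _v ∈ Finset.range Nv, 2 * C * X ^ (1 / C2 + δ / 2) * X ^ (2 * α) * Q :=
        Finset.sum_le_sum hcard
    _ = Nv * (2 * C * X ^ (1 / C2 + δ / 2) * X ^ (2 * α) * Q) := by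
        rw [Finset.sum_const, Finset.card_range, nsmul_eq_mul]
    _ ≤ (C2 * M * E / ρ + 1) * (2 * C * X ^ (1 / C2 + δ / 2) * X ^ (2 * α) * Q) := by gcongr
    _ = X ^ (2 * α) * X ^ (1 / C2 + δ / 2) * (2 * C * (C2 * M * E / ρ + 1) * Q) := by ring
    _ ≤ X ^ (2 * α) * X ^ (1 / C2 + δ / 2) * X ^ (δ / 2) := by gcongr
    _ = X ^ (2 * α + 1 / C2 + δ) := by
        rw [← Real.rpow_add hXpos, ← Real.rpow_add hXpos]
        congr 1
        ring

end Pool.Agent.GaussMR
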