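import Pool.Agent.Lib_MP_f1a94e_mr.Equid

/-!
# Piece LAST: the coefficient at frequency zero
-/

set_option autoImplicit false

namespace Pool.Agent.GaussMR

theorem last_nm_natCast (n : ℕ) : nm (n : G) = n ^ 2 := by
  have h : (nm (n : G) : ℤ) = ((n ^ 2 : ℕ) : ℤ) := by
    rw [nm_eq]; simp
  exact_mod_cast h

/-- an odd primitive Gaussian prime is split -/
theorem spl_of_prime {p : G} (hp : Prime p) (ho : Odd (nm p)) (hpr : Prim p) : Spl p := by
  -- `p` divides a rational prime
  have h1 : p ∣ ((nm p : ℕ) : G) := by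
    refine ⟨star p, ?_⟩
    have h := nm_eq p
    apply Zsqrtd.ext
    · simp
      rw [h]; ring
    · simp
      ring
  have hne1 : nm p ≠ 1 := fun h => hp.not_isUnit (nm_eq_one_iff.mp h)
  have hq : ∃ q : ℕ, q.Prime ∧ p ∣ ((q : ℕ) : G) := by
    have key : ∀ n : ℕ, n ≠ 0 → p ∣ ((n : ℕ) : G) → ∃ q : ℕ, q.Prime ∧ p ∣ ((q : ℕ) : G) := by
      intro n
      induction n using Nat.recOnMul with
      | zero => intro h; exact absurd rfl h
      | one =>
        intro _ h
        rw [Nat.cast_one] at h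
        exact absurd (isUnit_of_dvd_one h) hp.not_isUnit
      | prime q hq => intro _ h; exact ⟨q, hq, h⟩
      | mul a b iha ihb =>
        intro hab h
        rw [Nat.cast_mul] at h
        have ha : a ≠ 0 := by rintro rfl; simp at hab
        have hb : b ≠ 0 := by rintro rfl; simp at hab
        rcases hp.dvd_or_dvd h with h | h
        · exact iha ha h
        · exact ihb hb h
    exact key _ (nm_pos_of_odd ho).ne' h1
  obtain ⟨q, hq, t, ht⟩ := hq
  have h2 : q ^ 2 = nm p * nm t := by rw [← nm_mul, ← ht, last_nm_natCast]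
  have h3 : nm p ∣ q ^ 2 := ⟨nm t, h2⟩
  rcases (Nat.dvd_prime_pow hq).mp h3 with ⟨k, hk, hk2⟩
  have hk' : k = 0 ∨ k = 1 ∨ k = 2 := by omega
  rcases hk' with rfl | rfl | rfl
  · rw [pow_zero] at hk2
    exact absurd hk2 hne1
  · rw [pow_one] at hk2
    refine ⟨by rw [hk2]; exact hq, ?_⟩
    -- odd sum of two squares
    have h4 := nm_eq p
    have h5 : nm p % 4 = 1 ∨ nm p % 4 = 3 := by
      have := Nat.odd_iff.mp ho
      omega
    rcases h5 with h5 | h5
    · exact h5
    · exfalso
      have h6 : ((nm p : ℕ) : ℤ) % 4 = 3 := by omega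
      rw [h4] at h6
      have a1 : p.re % 4 = 0 ∨ p.re % 4 = 1 ∨ p.re % 4 = 2 ∨ p.re % 4 = 3 := by omega
      have a2 : p.im % 4 = 0 ∨ p.im % 4 = 1 ∨ p.im % 4 = 2 ∨ p.im % 4 = 3 := by omega
      rcases a1 with a1 | a1 | a1 | a1 <;> rcases a2 with a2 | a2 | a2 | a2 <;>
        simp [pow_two, Int.add_emod, Int.mul_emod, a1, a2] at h6
  · exfalso
    have h4 : nm t = 1 := by
      have h5 : nm p * nm t = nm p * 1 := by rw [← h2, hk2, mul_one]
      exact Nat.eq_of_mul_eq_mul_left (nm_pos_of_odd ho) h5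
    have h5 : IsUnit t := nm_eq_one_iff.mp h4
    have h6 : ((q : ℕ) : G) ∣ p := by
      rw [ht]
      exact (h5.mul_right_dvd.mpr dvd_rfl : p * t ∣ p)
    exact hq.one_lt.ne' (prim_iff.mp hpr q h6)

/-- the value of `F` on units -/
theorem F_unit (F : G → ℝ) (hF : PM F) (hi : F ⟨0, 1⟩ = 1) {z : G} (hz : nm z = 1) : F z = 1 := by
  have h1 := nm_eq z
  rw [hz] at h1
  have ho : Odd (nm (⟨0, 1⟩ : G)) := by
    have h2 : (nm (⟨0, 1⟩ : G) : ℤ) = 1 := by rw [nm_eq]; norm_num
    have h3 : nm (⟨0, 1⟩ : G) = 1 := by exact_mod_cast h2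
    rw [h3]; exact odd_one
  have hre : -1 ≤ z.re ∧ z.re ≤ 1 := by
    push_cast at h1
    constructor <;> nlinarith [sq_nonneg z.im, sq_nonneg z.re]
  have him : -1 ≤ z.im ∧ z.im ≤ 1 := by
    push_cast at h1
    constructor <;> nlinarith [sq_nonneg z.im, sq_nonneg z.re]
  obtain ⟨a, b⟩ := z
  simp only at h1 hre him
  have ha : a = -1 ∨ a = 0 ∨ a = 1 := by omega
  have hb : b = -1 ∨ b = 0 ∨ b = 1 := by omega
  have e1 : (⟨1, 0⟩ : G) = 1 := by apply Zsqrtd.ext <;> simp
  have e2 : (⟨-1, 0⟩ : G) = -1 := by apply Zsqrtd.ext <;> simp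
  have e3 : (⟨0, -1⟩ : G) = -⟨0, 1⟩ := by apply Zsqrtd.ext <;> simp
  rcases ha with rfl | rfl | rfl <;> rcases hb with rfl | rfl | rfl
  · norm_num at h1
  · rw [e2]; exact hF.neg_one
  · norm_num at h1
  · rw [e3, hF.neg ho]; exact hi
  · norm_num at h1
  · exact hi
  · norm_num at h1
  · rw [e1]; exact hF.one
  · norm_num at h1

/-- if `F` is `1` at `i` and at all split primes, it is `1` on odd primitive numbers -/
theorem F_eq_one (F : G → ℝ) (hF : PM F) (hi : F ⟨0, 1⟩ = 1) (hs : ∀ w, Spl w → F w = 1) :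
    ∀ (n : ℕ) (v : G), nm v = n → Odd (nm v) → Prim v → F v = 1 := by
  intro n
  induction n using Nat.strong_induction_on with
  | _ n ih =>
    intro v hn ho hp
    by_cases h1 : nm v = 1
    · exact F_unit F hF hi h1
    · have hu : ¬ IsUnit v := fun h => h1 (nm_eq_one_iff.mpr h)
      obtain ⟨p, hpi, t, ht⟩ := WfDvdMonoid.exists_irreducible_factor hu (ne_zero_of_odd ho)
      rw [ht] at ho hp
      have ho' := odd_nm_mul.mp ho
      have hp' := prim_of_mul hp
      have hsp := spl_of_prime hpi.prime ho'.1 hp'.1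
      rw [ht, hF.mul _ _ ho'.1 ho'.2, hs p hsp, one_mul]
      apply ih (nm t) _ t rfl ho'.2 hp'.2
      rw [← hn, ht, nm_mul]
      have h2 : 1 < nm p := hsp.1.one_lt
      have h3 : 0 < nm t := nm_pos_of_odd ho'.2
      nlinarith

open Finset in
/-- the two level sets of `F` on `V X` -/
theorem level_sets (F : G → ℝ) (hF : PM F) (w : G) (hw : Spl w) (hFw : F w = -1) (X : ℝ)
    (hX : 0 ≤ X) (s : ℝ) (hs : s = 1 ∨ s = -1) (A : Finset G)
    (hA : ∀ z ∈ A, z ∈ V (X / nm w) ∧ ¬ (star w ∣ z)) :
    open Classical in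
    (A.card : ℝ) / 2 ≤ (((V X).filter (fun z => F z = s)).card : ℝ) := by
  classical
  have hp1 : (1 : ℝ) ≤ nm w := by exact_mod_cast hw.1.one_lt.le
  have hp0 : (0 : ℝ) < nm w := by linarith
  have hwo : Odd (nm w) := hw.odd
  have hw0 : w ≠ 0 := ne_zero_of_odd hwo
  have hmemA : ∀ z ∈ A, z ∈ V X ∧ w * z ∈ V X ∧ F (w * z) = -F z := by
    intro z hz
    obtain ⟨h1, h2⟩ := hA z hz
    rw [mem_V] at h1
    have hz1 : (nm z : ℝ) ≤ X := h1.1.trans (div_le_self hX hp1)
    refine ⟨mem_V.mpr ⟨hz1, h1.2.1, h1.2.2⟩, mem_V.mpr ⟨?_, ?_, ?_⟩, ?_⟩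
    · rw [nm_mul]
      push_cast
      rw [mul_comm]
      exact (le_div_iff₀ hp0).mp h1.1
    · exact odd_nm_mul.mpr ⟨hwo, h1.2.1⟩
    · exact (prim_mul_iff hw h1.2.2).mpr h2
    · rw [hF.mul _ _ hwo h1.2.1, hFw]; ring
  have h1 : (A.filter (fun z => F z = s)).card ≤ ((V X).filter (fun z => F z = s)).card := by
    apply card_le_card
    intro z hz
    rw [mem_filter] at hz ⊢
    exact ⟨(hmemA z hz.1).1, hz.2⟩
  have h2 : (A.filter (fun z => ¬ F z = s)).card ≤ ((V X).filter (fun z => F z = s)).card := by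
    apply card_le_card_of_injOn (fun z => w * z)
    · intro z hz
      rw [mem_coe, mem_filter] at hz
      rw [mem_coe, mem_filter]
      obtain ⟨e1, e2, e3⟩ := hmemA z hz.1
      refine ⟨e2, ?_⟩
      simp only
      rw [e3]
      have ho := (mem_V.mp e1).2.1
      rcases hF.pm z ho with h | h
      · rcases hs with h' | h'
        · exact absurd (h.trans h'.symm) hz.2
        · rw [h, h']
      · rcases hs with h' | h'
        · rw [h, h', neg_neg]
        · exact absurd (h.trans h'.symm) hz.2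
    · intro a _ b _ hab
      exact mul_left_cancel₀ hw0 hab
  have h3 := card_filter_add_card_filter_not (s := A) (fun z => F z = s)
  have h4 : A.card ≤ 2 * ((V X).filter (fun z => F z = s)).card := by omega
  have h5 : (A.card : ℝ) ≤ 2 * (((V X).filter (fun z => F z = s)).card : ℝ) := by exact_mod_cast h4
  linarith

open Finset in
/-- `v` odd and primitive with `F v = -1`. Factor `v` into a unit and split primes (`v` is primitive, so no
inert prime divides it): either `F i = -1`, and then `z ↦ i z` on `V X` shows `fc F X 0 = 0`, or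
`F w = -1` for a split prime `w` (`F (-1) = 1`). In that case for every `z ∈ V (X / nm w)` with `star w ∤ z`
one of `F z`, `F (w z)` is `1` and the other `-1`, both `z` and `w z` being in `V X`; by `equid` there are
`≥ c X` such `z` (they correspond to the multiples of `w` in `V X`), so each sign occurs at least
`c X / 2` times. -/
theorem zero_coeff (F : G → ℝ) (hF : PM F) (v : G) (hv : Odd (nm v)) (hp : Prim v) (hFv : F v = -1) :
    ∃ c X0 : ℝ, 0 < c ∧ ∀ X : ℝ, X0 ≤ X → ‖fc F X 0‖ ≤ (1 - c) * ((V X).card : ℝ) := by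
  classical
  have hio : nm (⟨0, 1⟩ : G) = 1 := by
    have h2 : (nm (⟨0, 1⟩ : G) : ℤ) = 1 := by rw [nm_eq]; norm_num
    exact_mod_cast h2
  have hiodd : Odd (nm (⟨0, 1⟩ : G)) := by rw [hio]; exact odd_one
  have hfc : ∀ X : ℝ, fc F X 0 = ((∑ z ∈ V X, F z : ℝ) : ℂ) := by
    intro X
    unfold fc
    push_cast
    apply sum_congr rfl
    intro z _
    simp
  have hnorm : ∀ X : ℝ, ‖fc F X 0‖ = |∑ z ∈ V X, F z| := by
    intro X
    rw [hfc, Complex.norm_real, Real.norm_eq_abs]
  rcases hF.pm _ hiodd with hi | hi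
  · -- F i = 1: there is a split prime with F w = -1
    have hex : ∃ w, Spl w ∧ F w = -1 := by
      by_contra hne
      push Not at hne
      have hs : ∀ w, Spl w → F w = 1 := by
        intro w hw
        rcases hF.pm w hw.odd with h | h
        · exact h
        · exact absurd h (hne w hw)
      have := F_eq_one F hF hi hs (nm v) v rfl hv hp
      rw [this] at hFv
      norm_num at hFv
    obtain ⟨w, hw, hFw⟩ := hex
    obtain ⟨κ, C, hκ, hC, hV, hVw, -⟩ := equid
    have hp1 : (1 : ℝ) ≤ nm w := by exact_mod_cast hw.1.one_lt.le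
    have hp0 : (0 : ℝ) < nm w := by linarith
    set p : ℝ := (nm w : ℝ) with hpdef
    -- the error term is small
    have hlim : Filter.Tendsto (fun Y : ℝ => Real.log (Y + 3) / Real.sqrt Y) Filter.atTop (nhds 0) := by
      have h1 : Filter.Tendsto (fun x : ℝ => Real.log x / x ^ (1 / 2 : ℝ)) Filter.atTop (nhds 0) :=
        (isLittleO_log_rpow_atTop (by norm_num)).tendsto_div_nhds_zero
      have h2 := h1.comp (Filter.tendsto_atTop_add_const_right Filter.atTop (3 : ℝ) Filter.tendsto_id)
      have h3 : Filter.Tendsto (fun Y : ℝ => 2 * (Real.log (Y + 3) / (Y + 3) ^ (1 / 2 : ℝ)))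
          Filter.atTop (nhds (2 * 0)) := h2.const_mul 2
      rw [mul_zero] at h3
      refine squeeze_zero' ?_ ?_ h3
      · filter_upwards [Filter.eventually_ge_atTop (0 : ℝ)] with Y hY
        have : 0 ≤ Real.log (Y + 3) := Real.log_nonneg (by linarith)
        positivity
      · filter_upwards [Filter.eventually_ge_atTop (1 : ℝ)] with Y hY
        rw [← Real.sqrt_eq_rpow]
        have hl : 0 ≤ Real.log (Y + 3) := Real.log_nonneg (by linarith)
        have h4 : Real.sqrt (Y + 3) ≤ 2 * Real.sqrt Y := by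
          rw [show (2 : ℝ) * Real.sqrt Y = Real.sqrt (4 * Y) by
            rw [Real.sqrt_mul (by norm_num), show (4 : ℝ) = 2 ^ 2 by norm_num,
              Real.sqrt_sq (by norm_num)]]
          exact Real.sqrt_le_sqrt (by linarith)
        have h5 : 0 < Real.sqrt Y := Real.sqrt_pos.mpr (by linarith)
        have h6 : 0 < Real.sqrt (Y + 3) := Real.sqrt_pos.mpr (by linarith)
        rw [mul_div_assoc', div_le_div_iff₀ h5 h6]
        nlinarith [mul_le_mul_of_nonneg_left h4 hl]
    have hsm : ∀ᶠ Y : ℝ in Filter.atTop, Real.log (Y + 3) / Real.sqrt Y < κ / (8 * C) :=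
      hlim.eventually (gt_mem_nhds (by positivity))
    obtain ⟨Y0, hY0⟩ := Filter.eventually_atTop.mp hsm
    refine ⟨κ / (36 * p), p * max Y0 1, by positivity, ?_⟩
    intro X hX
    set Y : ℝ := X / p with hY
    have hYY : max Y0 1 ≤ Y := by rw [hY, le_div_iff₀ hp0, mul_comm]; exact hX
    have hY0' : Y0 ≤ Y := (le_max_left _ _).trans hYY
    have hY1 : 1 ≤ Y := (le_max_right _ _).trans hYY
    have hYp : 0 < Y := by linarith
    have hXY : X = p * Y := by rw [hY]; field_simp
    have hX0 : 0 < X := by rw [hXY]; positivity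
    set A := (V Y).filter (fun z => ¬ (star w ∣ z)) with hA
    have hcardA : (κ / 4) * Y ≤ (A.card : ℝ) := by
      have h1 := card_filter_add_card_filter_not (s := V Y) (fun z => star w ∣ z)
      have h2 := (abs_le.mp (hV Y hYp.le)).1
      have h3 := (abs_le.mp (hVw Y hYp.le (star w) hw.conj)).2
      have h4 : Set.ncard {z : G | z ∈ V Y ∧ star w ∣ z} =
          ((V Y).filter (fun z => star w ∣ z)).card := by
        rw [← Set.ncard_coe_finset]
        congr 1
        ext z
        simp
      rw [h4, nm_star] at h3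
      have h5 : (((V Y).filter (fun z => star w ∣ z)).card : ℝ) + (A.card : ℝ) =
          ((V Y).card : ℝ) := by exact_mod_cast h1
      have h6 := hY0 Y hY0'
      have h7 : 0 < Real.sqrt Y := Real.sqrt_pos.mpr hYp
      rw [div_lt_iff₀ h7] at h6
      have h8 : C * Real.sqrt Y * Real.log (Y + 3) ≤ κ / 8 * Y := by
        have h9 : C * Real.sqrt Y * Real.log (Y + 3) ≤
            C * Real.sqrt Y * (κ / (8 * C) * Real.sqrt Y) :=
          mul_le_mul_of_nonneg_left h6.le (by positivity)
        have h10 : C * Real.sqrt Y * (κ / (8 * C) * Real.sqrt Y) = κ / 8 * Y := by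
          have h11 : Real.sqrt Y * Real.sqrt Y = Y := Real.mul_self_sqrt hYp.le
          calc C * Real.sqrt Y * (κ / (8 * C) * Real.sqrt Y)
              = κ / 8 * (Real.sqrt Y * Real.sqrt Y) := by field_simp
            _ = κ / 8 * Y := by rw [h11]
        linarith
      have h9 : κ * Y / ((nm w : ℝ) + 1) ≤ κ * Y / 2 :=
        div_le_div_of_nonneg_left (by positivity) (by norm_num) (by linarith)
      linarith
    have hlev : ∀ s : ℝ, (s = 1 ∨ s = -1) →
        (A.card : ℝ) / 2 ≤ (((V X).filter (fun z => F z = s)).card : ℝ) := by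
      intro s hs
      have := level_sets F hF w hw hFw X hX0.le s hs A (by
        intro z hz
        rw [hA, mem_filter] at hz
        exact hz)
      exact this
    have hN1 := hlev 1 (Or.inl rfl)
    have hN2 := hlev (-1) (Or.inr rfl)
    set N1 := (((V X).filter (fun z => F z = 1)).card : ℝ) with hN1d
    set N2 := (((V X).filter (fun z => F z = -1)).card : ℝ) with hN2d
    have hsum : ∑ z ∈ V X, F z = N1 - N2 := by
      have h1 := sum_filter_add_sum_filter_not (V X) (fun z => F z = 1) F
      have h2 : ∑ z ∈ (V X).filter (fun z => F z = 1), F z = N1 := by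
        rw [sum_congr rfl (fun z hz => (mem_filter.mp hz).2), sum_const, nsmul_eq_mul, mul_one]
      have h3 : (V X).filter (fun z => ¬ F z = 1) = (V X).filter (fun z => F z = -1) := by
        apply filter_congr
        intro z hz
        rcases hF.pm z (mem_V.mp hz).2.1 with h | h
        · rw [h]; norm_num
        · rw [h]; norm_num
      have h4 : ∑ z ∈ (V X).filter (fun z => F z = -1), F z = -N2 := by
        rw [sum_congr rfl (fun z hz => (mem_filter.mp hz).2), sum_const, nsmul_eq_mul]
        ring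
      rw [h3, h2, h4] at h1
      linarith
    have htot : N1 + N2 = ((V X).card : ℝ) := by
      have h1 := card_filter_add_card_filter_not (s := V X) (fun z => F z = 1)
      have h3 : (V X).filter (fun z => ¬ F z = 1) = (V X).filter (fun z => F z = -1) := by
        apply filter_congr
        intro z hz
        rcases hF.pm z (mem_V.mp hz).2.1 with h | h
        · rw [h]; norm_num
        · rw [h]; norm_num
      rw [h3] at h1
      rw [hN1d, hN2d, ← Nat.cast_add, h1]
    have hVX := card_V_le X hX0.le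
    rw [hnorm, hsum, abs_le]
    have h10 : κ / (36 * p) * ((V X).card : ℝ) ≤ (κ / 4) * Y := by
      calc κ / (36 * p) * ((V X).card : ℝ) ≤ κ / (36 * p) * (9 * X) :=
            mul_le_mul_of_nonneg_left hVX (by positivity)
        _ = (κ / 4) * Y := by rw [hXY]; field_simp; norm_num
    constructor <;> linarith
  · -- F i = -1: the coefficient vanishes
    refine ⟨1, 0, one_pos, ?_⟩
    intro X _
    rw [hnorm]
    have hbij : ∑ z ∈ V X, F z = ∑ z ∈ V X, F (⟨0, 1⟩ * z) := by
      symm
      apply sum_bij' (fun z _ => (⟨0, 1⟩ : G) * z) (fun z _ => (⟨0, -1⟩ : G) * z)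
      · intro z hz
        rw [mem_V] at hz ⊢
        rw [nm_mul, hio, one_mul]
        refine ⟨hz.1, hz.2.1, ?_⟩
        have h1 := hz.2.2
        unfold Prim at h1 ⊢
        have e1 : ((⟨0, 1⟩ : G) * z).re = -z.im := by simp
        have e2 : ((⟨0, 1⟩ : G) * z).im = z.re := by simp
        rw [e1, e2]
        exact h1.symm.neg_left
      · intro z hz
        have hio' : nm (⟨0, -1⟩ : G) = 1 := by
          have h2 : (nm (⟨0, -1⟩ : G) : ℤ) = 1 := by rw [nm_eq]; norm_num
          exact_mod_cast h2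
        rw [mem_V] at hz ⊢
        rw [nm_mul, hio', one_mul]
        refine ⟨hz.1, hz.2.1, ?_⟩
        have h1 := hz.2.2
        unfold Prim at h1 ⊢
        have e1 : ((⟨0, -1⟩ : G) * z).re = z.im := by simp
        have e2 : ((⟨0, -1⟩ : G) * z).im = -z.re := by simp
        rw [e1, e2]
        exact h1.symm.neg_right
      · intro z _
        apply Zsqrtd.ext <;> simp
      · intro z _
        apply Zsqrtd.ext <;> simp
      · intro z _
        rfl
    have hneg : ∑ z ∈ V X, F (⟨0, 1⟩ * z) = -∑ z ∈ V X, F z := by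
      rw [← sum_neg_distrib]
      apply sum_congr rfl
      intro z hz
      rw [hF.mul _ _ hiodd (mem_V.mp hz).2.1, hi]
      ring
    have h0 : ∑ z ∈ V X, F z = 0 := by linarith
    rw [h0, abs_zero]
    simp

end Pool.Agent.GaussMR
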