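import Pool.Agent.Lib_MP_f1a94e_mr.Equid

/-!
# Piece TK: Turan-Kubilius inequality
-/

set_option autoImplicit false

namespace Pool.Agent.GaussMR

open Classical in
/-- indicator of divisibility -/
noncomputable def tk_dvi (w z : G) : ℝ := if w ∣ z then 1 else 0

theorem tk_om_eq_sum (P Q : ℝ) (z : G) : om P Q z = ∑ w ∈ PP P Q, tk_dvi w z := by
  classical
  unfold om tk_dvi
  have h : {w : G | w ∈ PP P Q ∧ w ∣ z} = (((PP P Q).filter fun w => w ∣ z : Finset G) : Set G) := by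
    ext w
    simp
  rw [h, Set.ncard_coe_finset, Finset.card_filter]
  push_cast
  rfl

theorem tk_ncard_eq_sum (X : ℝ) (w : G) :
    (Set.ncard {z : G | z ∈ V X ∧ w ∣ z} : ℝ) = ∑ z ∈ V X, tk_dvi w z := by
  classical
  unfold tk_dvi
  have h : {z : G | z ∈ V X ∧ w ∣ z} = (((V X).filter fun z => w ∣ z : Finset G) : Set G) := by
    ext w
    simp
  rw [h, Set.ncard_coe_finset, Finset.card_filter]
  push_cast
  rfl

theorem tk_ncard_eq_sum₂ (X : ℝ) (w w' : G) :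
    (Set.ncard {z : G | z ∈ V X ∧ w ∣ z ∧ w' ∣ z} : ℝ) = ∑ z ∈ V X, tk_dvi w z * tk_dvi w' z := by
  classical
  unfold tk_dvi
  have h : {z : G | z ∈ V X ∧ w ∣ z ∧ w' ∣ z} =
      (((V X).filter fun z => w ∣ z ∧ w' ∣ z : Finset G) : Set G) := by
    ext w
    simp
  rw [h, Set.ncard_coe_finset, Finset.card_filter]
  push_cast
  refine Finset.sum_congr rfl fun z _ => ?_
  by_cases h1 : w ∣ z <;> by_cases h2 : w' ∣ z <;> simp [h1, h2]

theorem tk_dvi_sq (w z : G) : tk_dvi w z * tk_dvi w z = tk_dvi w z := by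
  unfold tk_dvi
  split_ifs <;> simp

theorem tk_error (Q X : ℝ) (hQ : 2 ≤ Q) (hX : Q ^ 20 ≤ X) :
    Q ^ 2 * (Real.sqrt X * Real.log (X + 3)) ≤ 8 * X := by
  have hX1 : 1 ≤ X := le_trans (one_le_pow₀ (by linarith)) hX
  obtain ⟨s, hs⟩ : ∃ s : ℝ, s = Real.sqrt (Real.sqrt X) := ⟨_, rfl⟩
  have hs0 : 0 ≤ s := by rw [hs]; exact Real.sqrt_nonneg _
  have hs2 : s ^ 2 = Real.sqrt X := by rw [hs, Real.sq_sqrt (Real.sqrt_nonneg _)]
  have hs4 : s ^ 4 = X := by
    calc s ^ 4 = (s ^ 2) ^ 2 := by ring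
      _ = X := by rw [hs2, Real.sq_sqrt (by linarith)]
  have hs1 : 1 ≤ s := by
    by_contra h
    push Not at h
    have : s ^ 4 < 1 := pow_lt_one₀ hs0 h (by norm_num)
    linarith
  have hQs : Q ^ 2 ≤ s := by
    refine le_of_pow_le_pow_left₀ (n := 4) (by norm_num) hs0 ?_
    rw [hs4]
    calc (Q ^ 2) ^ 4 = Q ^ 8 := by ring
      _ ≤ Q ^ 20 := pow_le_pow_right₀ (by linarith) (by norm_num)
      _ ≤ X := hX
  have hlog : Real.log (X + 3) ≤ 8 * s := by
    have h1 : X + 3 ≤ (2 * s) ^ 4 := by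
      rw [mul_pow, hs4]; norm_num; linarith
    calc Real.log (X + 3) ≤ Real.log ((2 * s) ^ 4) := Real.log_le_log (by linarith) h1
      _ = 4 * Real.log (2 * s) := by rw [Real.log_pow]; norm_num
      _ ≤ 4 * (2 * s - 1) := by
          have := Real.log_le_sub_one_of_pos (show 0 < 2 * s by linarith)
          linarith
      _ ≤ 8 * s := by linarith
  have hlog0 : 0 ≤ Real.log (X + 3) := Real.log_nonneg (by linarith)
  rw [← hs2]
  calc Q ^ 2 * (s ^ 2 * Real.log (X + 3)) ≤ s * (s ^ 2 * (8 * s)) := by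
        gcongr
    _ = 8 * s ^ 4 := by ring
    _ = 8 * X := by rw [hs4]

/-- expand the square and insert `equid`; the errors are `O(Q^2 √X log X) = O(X)` as `Q^20 ≤ X`;
`∑ 1/p - ∑ 1/(p+1) ≤ 1`. -/
theorem TK : ∃ C : ℝ, 0 < C ∧ ∀ P Q X : ℝ, 2 ≤ P → P ≤ Q → Q ^ 20 ≤ X →
    ∑ z ∈ V X, (om P Q z - Ls P Q) ^ 2 ≤ C * X * (Ls P Q + 1) := by
  classical
  obtain ⟨κ, C, hκ, hC, h0, h1, h2⟩ := equid
  refine ⟨κ + 40 * C, by positivity, fun P Q X hP hPQ hX => ?_⟩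
  have hQ2 : 2 ≤ Q := hP.trans hPQ
  have hX1 : 1 ≤ X := le_trans (one_le_pow₀ (by linarith)) hX
  have hX0 : 0 ≤ X := by linarith
  obtain ⟨E, hE⟩ : ∃ E : ℝ, E = C * Real.sqrt X * Real.log (X + 3) := ⟨_, rfl⟩
  have hE0 : 0 ≤ E := by
    rw [hE]
    have : 0 ≤ Real.log (X + 3) := Real.log_nonneg (by linarith)
    positivity
  obtain ⟨L', hL'⟩ : ∃ L' : ℝ, L' = ∑ w ∈ PP P Q, 1 / ((nm w : ℝ) + 1) := ⟨_, rfl⟩
  obtain ⟨L, hL⟩ : ∃ L : ℝ, L = Ls P Q := ⟨_, rfl⟩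
  have hLdef : L = ∑ w ∈ PP P Q, 1 / (nm w : ℝ) := by rw [hL]; rfl
  obtain ⟨N, hN⟩ : ∃ N : ℝ, N = ((PP P Q).card : ℝ) := ⟨_, rfl⟩
  have hN0 : 0 ≤ N := by rw [hN]; positivity
  have hNQ : N ≤ Q := by rw [hN]; exact card_PP_le P Q (by linarith)
  have hnm : ∀ w ∈ PP P Q, (2 : ℝ) ≤ nm w := by
    intro w hw
    have := (mem_PP.mp hw).1
    linarith
  have hL'0 : 0 ≤ L' := by
    rw [hL']
    exact Finset.sum_nonneg fun w hw => by have := hnm w hw; positivity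
  have hL'L : L' ≤ L := by
    rw [hL', hLdef]
    refine Finset.sum_le_sum fun w hw => ?_
    have := hnm w hw
    exact one_div_le_one_div_of_le (by linarith) (by linarith)
  have hLN : L ≤ N := by
    rw [hLdef, hN, Finset.card_eq_sum_ones]
    push_cast
    refine Finset.sum_le_sum fun w hw => ?_
    have := hnm w hw
    rw [div_le_one (by linarith)]
    linarith
  have hLL : L - L' ≤ 1 := by
    have hn1 : ∀ w ∈ PP P Q, 2 ≤ nm w := fun w hw => by exact_mod_cast hnm w hw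
    have hinj : Set.InjOn (fun w : G => nm w - 1) (PP P Q : Set G) := by
      intro a ha b hb hab
      have h3 := hn1 a ha
      have h4 := hn1 b hb
      simp only at hab
      exact PP_inj (Finset.mem_coe.mp ha) (Finset.mem_coe.mp hb) (by omega)
    have hsub : (PP P Q).image (fun w : G => nm w - 1) ⊆ Finset.range ⌊Q⌋₊ := by
      intro n hn
      obtain ⟨w, hw, rfl⟩ := Finset.mem_image.mp hn
      have h3 := hn1 w hw
      have h4 : nm w ≤ ⌊Q⌋₊ := Nat.le_floor (mem_PP.mp hw).2.1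
      rw [Finset.mem_range]
      omega
    have hterm : ∀ n : ℕ, 0 ≤ (fun i : ℕ => 1 / ((i : ℝ) + 1)) n -
        (fun i : ℕ => 1 / ((i : ℝ) + 1)) (n + 1) := by
      intro n
      simp only
      push_cast
      have : 1 / ((n : ℝ) + 1 + 1) ≤ 1 / ((n : ℝ) + 1) :=
        one_div_le_one_div_of_le (by positivity) (by linarith)
      linarith
    calc L - L' = ∑ w ∈ PP P Q, (1 / (nm w : ℝ) - 1 / ((nm w : ℝ) + 1)) := by
          rw [hLdef, hL', Finset.sum_sub_distrib]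
      _ = ∑ w ∈ PP P Q, ((fun i : ℕ => 1 / ((i : ℝ) + 1)) (nm w - 1) -
            (fun i : ℕ => 1 / ((i : ℝ) + 1)) (nm w - 1 + 1)) := by
          refine Finset.sum_congr rfl fun w hw => ?_
          have h3 := hn1 w hw
          have h4 : ((nm w - 1 : ℕ) : ℝ) = (nm w : ℝ) - 1 := by
            rw [Nat.cast_sub (by omega)]; simp
          simp only
          push_cast
          rw [h4]
          ring_nf
      _ = ∑ n ∈ (PP P Q).image (fun w : G => nm w - 1),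
            ((fun i : ℕ => 1 / ((i : ℝ) + 1)) n - (fun i : ℕ => 1 / ((i : ℝ) + 1)) (n + 1)) := by
          rw [Finset.sum_image hinj]
      _ ≤ ∑ n ∈ Finset.range ⌊Q⌋₊,
            ((fun i : ℕ => 1 / ((i : ℝ) + 1)) n - (fun i : ℕ => 1 / ((i : ℝ) + 1)) (n + 1)) :=
          Finset.sum_le_sum_of_subset_of_nonneg hsub fun n _ _ => hterm n
      _ = 1 / (((0 : ℕ) : ℝ) + 1) - 1 / ((⌊Q⌋₊ : ℝ) + 1) := by
          rw [Finset.sum_range_sub']
      _ ≤ 1 := by
          have : 0 ≤ 1 / ((⌊Q⌋₊ : ℝ) + 1) := by positivity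
          norm_num
          positivity
  -- the counts
  have hA1 : ∀ w ∈ PP P Q, |(∑ z ∈ V X, tk_dvi w z) - κ * X / (nm w + 1)| ≤ E := by
    intro w hw
    have := h1 X hX0 w (PP_spl hw)
    rwa [tk_ncard_eq_sum, ← hE] at this
  have hA2 : ∀ w ∈ PP P Q, ∀ w' ∈ PP P Q, ∑ z ∈ V X, tk_dvi w z * tk_dvi w' z ≤
      κ * X * (1 / ((nm w : ℝ) + 1) * (1 / ((nm w' : ℝ) + 1))) + E +
        (if w = w' then κ * X * (1 / ((nm w : ℝ) + 1)) else 0) := by
    intro w hw w' hw'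
    by_cases hww : w = w'
    · subst hww
      have h3 := (abs_le.mp (hA1 w hw)).2
      simp only [tk_dvi_sq, if_true]
      have h4 := hnm w hw
      have h5 : 0 ≤ κ * X * (1 / ((nm w : ℝ) + 1) * (1 / ((nm w : ℝ) + 1))) := by positivity
      have h6 : κ * X / ((nm w : ℝ) + 1) = κ * X * (1 / ((nm w : ℝ) + 1)) := by ring
      linarith
    · have hne : nm w ≠ nm w' := fun h => hww (PP_inj hw hw' h)
      have := h2 X hX0 w w' (PP_spl hw) (PP_spl hw') hne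
      rw [tk_ncard_eq_sum₂, ← hE] at this
      have h3 := (abs_le.mp this).2
      rw [if_neg hww]
      have h6 : κ * X / (((nm w : ℝ) + 1) * ((nm w' : ℝ) + 1)) =
          κ * X * (1 / ((nm w : ℝ) + 1) * (1 / ((nm w' : ℝ) + 1))) := by
        rw [one_div_mul_one_div, mul_one_div]
      linarith
  -- expansion
  have hexp : ∑ z ∈ V X, (om P Q z - L) ^ 2 =
      (∑ w ∈ PP P Q, ∑ w' ∈ PP P Q, ∑ z ∈ V X, tk_dvi w z * tk_dvi w' z) -
        2 * L * (∑ w ∈ PP P Q, ∑ z ∈ V X, tk_dvi w z) + L ^ 2 * ((V X).card : ℝ) := by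
    have e1 : ∀ z, (om P Q z - L) ^ 2 = (∑ w ∈ PP P Q, ∑ w' ∈ PP P Q, tk_dvi w z * tk_dvi w' z) -
        2 * L * (∑ w ∈ PP P Q, tk_dvi w z) + L ^ 2 := by
      intro z
      rw [tk_om_eq_sum, ← Finset.sum_mul_sum]
      ring
    simp only [e1]
    rw [Finset.sum_add_distrib, Finset.sum_sub_distrib, Finset.sum_const, nsmul_eq_mul,
      ← Finset.mul_sum, Finset.sum_comm (s := V X) (t := PP P Q)]
    congr 1
    · congr 1
      · refine Finset.sum_congr rfl fun w _ => ?_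
        rw [Finset.sum_comm]
      · rw [Finset.sum_comm]
    · ring
  have hS2 : (∑ w ∈ PP P Q, ∑ w' ∈ PP P Q, ∑ z ∈ V X, tk_dvi w z * tk_dvi w' z) ≤
      κ * X * L' ^ 2 + N ^ 2 * E + κ * X * L' := by
    calc (∑ w ∈ PP P Q, ∑ w' ∈ PP P Q, ∑ z ∈ V X, tk_dvi w z * tk_dvi w' z)
        ≤ ∑ w ∈ PP P Q, ∑ w' ∈ PP P Q,
          (κ * X * (1 / ((nm w : ℝ) + 1) * (1 / ((nm w' : ℝ) + 1))) + E +
            (if w = w' then κ * X * (1 / ((nm w : ℝ) + 1)) else 0)) :=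
          Finset.sum_le_sum fun w hw => Finset.sum_le_sum fun w' hw' => hA2 w hw w' hw'
      _ = κ * X * L' ^ 2 + N ^ 2 * E + κ * X * L' := by
          simp only [Finset.sum_add_distrib, Finset.sum_const, nsmul_eq_mul, Finset.sum_ite_eq]
          have e3 : (∑ x ∈ PP P Q, if x ∈ PP P Q then κ * X * (1 / ((nm x : ℝ) + 1)) else 0) =
              κ * X * L' := by
            rw [hL', Finset.mul_sum]
            exact Finset.sum_congr rfl fun x hx => by rw [if_pos hx]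
          have e4 : (∑ x ∈ PP P Q, ∑ x' ∈ PP P Q,
              κ * X * (1 / ((nm x : ℝ) + 1) * (1 / ((nm x' : ℝ) + 1)))) = κ * X * L' ^ 2 := by
            rw [hL', sq, Finset.sum_mul_sum, Finset.mul_sum]
            exact Finset.sum_congr rfl fun x _ => by rw [Finset.mul_sum]
          rw [e3, e4, ← hN]
          ring
  have hS1 : κ * X * L' - N * E ≤ ∑ w ∈ PP P Q, ∑ z ∈ V X, tk_dvi w z := by
    have : ∑ w ∈ PP P Q, (κ * X * (1 / ((nm w : ℝ) + 1)) - E) ≤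
        ∑ w ∈ PP P Q, ∑ z ∈ V X, tk_dvi w z := by
      refine Finset.sum_le_sum fun w hw => ?_
      have h3 := (abs_le.mp (hA1 w hw)).1
      have h6 : κ * X / ((nm w : ℝ) + 1) = κ * X * (1 / ((nm w : ℝ) + 1)) := by ring
      linarith
    refine le_trans (le_of_eq ?_) this
    rw [Finset.sum_sub_distrib, ← Finset.mul_sum, Finset.sum_const, nsmul_eq_mul, ← hL', ← hN]
  have hS0 : ((V X).card : ℝ) ≤ κ * X + E := by
    have := (abs_le.mp (h0 X hX0)).2
    rw [← hE] at this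
    linarith
  have hQE : Q ^ 2 * E ≤ 8 * C * X := by
    have h3 := mul_le_mul_of_nonneg_left (tk_error Q X hQ2 hX) hC.le
    rw [hE]
    linarith only [h3]
  rw [← hL, hexp]
  have hL0 : 0 ≤ L := hL'0.trans hL'L
  have hstep : (∑ w ∈ PP P Q, ∑ w' ∈ PP P Q, ∑ z ∈ V X, tk_dvi w z * tk_dvi w' z) -
        2 * L * (∑ w ∈ PP P Q, ∑ z ∈ V X, tk_dvi w z) + L ^ 2 * ((V X).card : ℝ) ≤
      (κ * X * L' ^ 2 + N ^ 2 * E + κ * X * L') - 2 * L * (κ * X * L' - N * E) +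
        L ^ 2 * (κ * X + E) := by
    have t1 : 2 * L * (κ * X * L' - N * E) ≤ 2 * L * (∑ w ∈ PP P Q, ∑ z ∈ V X, tk_dvi w z) :=
      mul_le_mul_of_nonneg_left hS1 (by positivity)
    have t2 : L ^ 2 * ((V X).card : ℝ) ≤ L ^ 2 * (κ * X + E) :=
      mul_le_mul_of_nonneg_left hS0 (by positivity)
    linarith
  refine hstep.trans ?_
  have hring : (κ * X * L' ^ 2 + N ^ 2 * E + κ * X * L') - 2 * L * (κ * X * L' - N * E) +
        L ^ 2 * (κ * X + E) = κ * X * (L' + (L - L') ^ 2) + (N + L) ^ 2 * E := by ring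
  rw [hring]
  have h7 : κ * X * (L' + (L - L') ^ 2) ≤ κ * X * (L + 1) := by
    refine mul_le_mul_of_nonneg_left ?_ (by positivity)
    have : (L - L') ^ 2 ≤ 1 := pow_le_one₀ (sub_nonneg.2 hL'L) hLL
    linarith only [this, hL'L]
  have h8 : (N + L) ^ 2 * E ≤ 4 * (Q ^ 2 * E) := by
    have h3 : (N + L) ^ 2 ≤ (2 * Q) ^ 2 :=
      pow_le_pow_left₀ (add_nonneg hN0 hL0) (by linarith only [hNQ, hLN]) 2
    have h4 := mul_le_mul_of_nonneg_right h3 hE0
    linarith only [h4]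
  have h9 : 0 ≤ C * X := mul_nonneg hC.le hX0
  have h10 := mul_nonneg h9 hL0
  linarith only [h7, h8, hQE, h9, h10]

end Pool.Agent.GaussMR
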