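import Pool.Agent.Lib_MP_f1a94e_mr.Basic

/-!
# Piece ORTH: almost orthogonality
-/

set_option autoImplicit false

namespace Pool.Agent.GaussMR

open Complex in
private theorem norm_sq_Fb (S : Finset ℤ) (d : ℤ → ℂ) (z : G) (hz : z ≠ 0) :
    ((‖Fb S d z‖ ^ 2 : ℝ) : ℂ) =
      ∑ j ∈ S, ∑ k ∈ S, d j * (starRingEnd ℂ) (d k) * xi (j - k) z := by
  have h1 : ((‖Fb S d z‖ ^ 2 : ℝ) : ℂ) = Fb S d z * (starRingEnd ℂ) (Fb S d z) := by
    rw [Complex.mul_conj, Complex.normSq_eq_norm_sq]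
  rw [h1]
  unfold Fb
  rw [map_sum, Finset.sum_mul_sum]
  refine Finset.sum_congr rfl (fun j _ => Finset.sum_congr rfl (fun k _ => ?_))
  rw [map_mul, conj_xi k hz, sub_eq_add_neg, xi_add j (-k) hz]
  ring

open Complex in
private theorem sum_norm_sq_Fb (S : Finset ℤ) (d : ℤ → ℂ) (Y : ℝ) :
    ((∑ z ∈ V Y, ‖Fb S d z‖ ^ 2 : ℝ) : ℂ) =
      ∑ j ∈ S, ∑ k ∈ S, d j * (starRingEnd ℂ) (d k) * ∑ z ∈ V Y, xi (j - k) z := by
  push_cast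
  have h1 : ∀ z ∈ V Y, ((‖Fb S d z‖ : ℂ)) ^ 2 =
      ∑ j ∈ S, ∑ k ∈ S, d j * (starRingEnd ℂ) (d k) * xi (j - k) z := by
    intro z hz
    rw [← norm_sq_Fb S d z (V_ne_zero hz)]
    push_cast
    rfl
  rw [Finset.sum_congr rfl h1, Finset.sum_comm]
  refine Finset.sum_congr rfl (fun j _ => ?_)
  rw [Finset.sum_comm]
  refine Finset.sum_congr rfl (fun k _ => ?_)
  rw [Finset.mul_sum]

/-- expand the square; the diagonal gives the main term, and `∑_{j ≠ k} |d j| |d k| ≤ #S ∑ |d k|²` -/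
theorem almost_orth (S : Finset ℤ) (d : ℤ → ℂ) (Y B : ℝ) (hB0 : 0 ≤ B)
    (hB : ∀ j ∈ S, ∀ k ∈ S, j ≠ k → ‖∑ z ∈ V Y, xi (j - k) z‖ ≤ B) :
    |∑ z ∈ V Y, ‖Fb S d z‖ ^ 2 - (V Y).card * ∑ k ∈ S, ‖d k‖ ^ 2| ≤
      S.card * B * ∑ k ∈ S, ‖d k‖ ^ 2 := by
  classical
  have hdiag : (((V Y).card * ∑ k ∈ S, ‖d k‖ ^ 2 : ℝ) : ℂ) =
      ∑ j ∈ S, ∑ k ∈ S, if j = k then ((V Y).card : ℂ) * ((‖d j‖ ^ 2 : ℝ) : ℂ) else 0 := by
    push_cast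
    rw [Finset.mul_sum]
    refine Finset.sum_congr rfl (fun j hj => ?_)
    rw [Finset.sum_ite_eq, if_pos hj]
  have key : ((∑ z ∈ V Y, ‖Fb S d z‖ ^ 2 - (V Y).card * ∑ k ∈ S, ‖d k‖ ^ 2 : ℝ) : ℂ) =
      ∑ j ∈ S, ∑ k ∈ S, if j = k then 0 else
        d j * (starRingEnd ℂ) (d k) * ∑ z ∈ V Y, xi (j - k) z := by
    rw [Complex.ofReal_sub, sum_norm_sq_Fb, hdiag, ← Finset.sum_sub_distrib]
    refine Finset.sum_congr rfl (fun j _ => ?_)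
    rw [← Finset.sum_sub_distrib]
    refine Finset.sum_congr rfl (fun k _ => ?_)
    by_cases h : j = k
    · subst h
      rw [if_pos rfl, if_pos rfl]
      simp only [sub_self, xi_zero, Finset.sum_const, nsmul_eq_mul, mul_one]
      rw [Complex.mul_conj, Complex.normSq_eq_norm_sq]
      ring
    · rw [if_neg h, if_neg h, sub_zero]
  have h1 : |∑ z ∈ V Y, ‖Fb S d z‖ ^ 2 - (V Y).card * ∑ k ∈ S, ‖d k‖ ^ 2| =
      ‖((∑ z ∈ V Y, ‖Fb S d z‖ ^ 2 - (V Y).card * ∑ k ∈ S, ‖d k‖ ^ 2 : ℝ) : ℂ)‖ := by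
    rw [Complex.norm_real, Real.norm_eq_abs]
  rw [h1, key]
  have h2 : ‖∑ j ∈ S, ∑ k ∈ S, (if j = k then 0 else
        d j * (starRingEnd ℂ) (d k) * ∑ z ∈ V Y, xi (j - k) z)‖ ≤
      ∑ j ∈ S, ∑ k ∈ S, ‖d j‖ * ‖d k‖ * B := by
    refine (norm_sum_le _ _).trans (Finset.sum_le_sum (fun j hj => ?_))
    refine (norm_sum_le _ _).trans (Finset.sum_le_sum (fun k hk => ?_))
    by_cases h : j = k
    · rw [if_pos h, norm_zero]
      positivity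
    · rw [if_neg h, norm_mul, norm_mul, RCLike.norm_conj]
      exact mul_le_mul_of_nonneg_left (hB j hj k hk h) (by positivity)
  refine h2.trans ?_
  have h3 : ∑ j ∈ S, ∑ k ∈ S, ‖d j‖ * ‖d k‖ * B = (∑ k ∈ S, ‖d k‖) ^ 2 * B := by
    rw [sq, Finset.sum_mul_sum, Finset.sum_mul]
    refine Finset.sum_congr rfl (fun j _ => ?_)
    rw [Finset.sum_mul]
  rw [h3]
  have h4 : (∑ k ∈ S, ‖d k‖) ^ 2 ≤ S.card * ∑ k ∈ S, ‖d k‖ ^ 2 := sq_sum_le_card_mul_sum_sq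
  calc (∑ k ∈ S, ‖d k‖) ^ 2 * B ≤ (S.card * ∑ k ∈ S, ‖d k‖ ^ 2) * B :=
        mul_le_mul_of_nonneg_right h4 hB0
    _ = S.card * B * ∑ k ∈ S, ‖d k‖ ^ 2 := by ring

/-- with `d k = fc F X k / #V X`:
`∑ ‖F z - Fb S d z‖² = #V - 2 #V ∑ |d k|² + ∑ ‖Fb S d z‖²` and `almost_orth` -/
theorem approx (F : G → ℝ) (hF : PM F) (S : Finset ℤ) (X B : ℝ) (hX : 1 ≤ X) (hB0 : 0 ≤ B)
    (hB : ∀ j ∈ S, ∀ k ∈ S, j ≠ k → ‖∑ z ∈ V X, xi (j - k) z‖ ≤ B) :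
    ∑ z ∈ V X, ‖(F z : ℂ) - Fb S (fun k => fc F X k / ((V X).card : ℂ)) z‖ ^ 2 ≤
      (V X).card * (1 - ∑ k ∈ S, ‖fc F X k / ((V X).card : ℂ)‖ ^ 2) +
      S.card * B * ∑ k ∈ S, ‖fc F X k / ((V X).card : ℂ)‖ ^ 2 := by
  classical
  set d : ℤ → ℂ := fun k => fc F X k / ((V X).card : ℂ) with hd
  have h1mem : (1 : G) ∈ V X := by
    rw [mem_V]
    refine ⟨?_, ?_, prim_one⟩
    · rw [nm_one]; simpa using hX
    · rw [nm_one]; exact odd_one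
  have hcard : ((V X).card : ℂ) ≠ 0 := by
    have : 0 < (V X).card := Finset.card_pos.2 ⟨1, h1mem⟩
    exact_mod_cast this.ne'
  have hfc : ∀ k, fc F X k = d k * ((V X).card : ℂ) := by
    intro k
    rw [hd]
    field_simp
  -- the cross term
  have hcross : ∑ z ∈ V X, (F z : ℂ) * (starRingEnd ℂ) (Fb S d z) =
      (((V X).card * ∑ k ∈ S, ‖d k‖ ^ 2 : ℝ) : ℂ) := by
    have e1 : ∀ z ∈ V X, (F z : ℂ) * (starRingEnd ℂ) (Fb S d z) =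
        ∑ k ∈ S, (starRingEnd ℂ) (d k) * ((F z : ℂ) * xi (-k) z) := by
      intro z hz
      unfold Fb
      rw [map_sum, Finset.mul_sum]
      refine Finset.sum_congr rfl (fun k _ => ?_)
      rw [map_mul, conj_xi k (V_ne_zero hz)]
      ring
    rw [Finset.sum_congr rfl e1, Finset.sum_comm]
    push_cast
    rw [Finset.mul_sum]
    refine Finset.sum_congr rfl (fun k _ => ?_)
    rw [← Finset.mul_sum]
    have e2 : ∑ z ∈ V X, (F z : ℂ) * xi (-k) z = fc F X k := rfl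
    rw [e2, hfc k]
    have e3 : ((‖d k‖ : ℂ)) ^ 2 = d k * (starRingEnd ℂ) (d k) := by
      rw [Complex.mul_conj, Complex.normSq_eq_norm_sq]
      push_cast
      rfl
    rw [e3]
    ring
  have hexp : ∀ z ∈ V X, ‖(F z : ℂ) - Fb S d z‖ ^ 2 =
      1 - 2 * ((F z : ℂ) * (starRingEnd ℂ) (Fb S d z)).re + ‖Fb S d z‖ ^ 2 := by
    intro z hz
    have hn : ‖(F z : ℂ)‖ = 1 := hF.norm (mem_V.1 hz).2.1
    rw [← Complex.normSq_eq_norm_sq, Complex.normSq_sub, Complex.normSq_eq_norm_sq,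
      Complex.normSq_eq_norm_sq, hn]
    ring
  rw [Finset.sum_congr rfl hexp, Finset.sum_add_distrib, Finset.sum_sub_distrib, ← Finset.mul_sum,
    ← Complex.re_sum, hcross, Complex.ofReal_re]
  simp only [Finset.sum_const, nsmul_eq_mul, mul_one]
  have h5 := (abs_le.1 (almost_orth S d X B hB0 hB)).2
  linarith

end Pool.Agent.GaussMR
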