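import Pool.Agent.Lib_MP_f1a94e_mr.DivCount
import Pool.Agent.Lib_MP_f1a94e_mr.Orth
import Pool.Agent.Lib_MP_f1a94e_mr.VAsymp

/-!
# Piece CONJUPPER: the conjugation trick, upper bound
-/

set_option autoImplicit false

namespace Pool.Agent.GaussMR

theorem mem_AA {a X : ℝ} {u : G} : u ∈ AA a X ↔ u ∈ V (X ^ (13 / 25 : ℝ)) ∧
    X ^ (12 / 25 : ℝ) < (nm u : ℝ) ∧ ∀ p : G, Prime p → p ∣ u → X ^ a ≤ (nm p : ℝ) := by
  classical
  simp [AA]

theorem mul_star_eq_nm (z : G) : z * star z = ((nm z : ℕ) : G) := by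
  have h := nm_eq z
  apply Zsqrtd.ext
  · simp
    have h2 : ((nm z : ℕ) : ℤ) = z.re ^ 2 + z.im ^ 2 := h
    rw [h2]; ring
  · simp; ring

theorem prime_of_nm_prime {g : G} (h : (nm g).Prime) : Prime g := by
  rw [← irreducible_iff_prime]
  refine ⟨fun hu => h.one_lt.ne' (nm_eq_one_iff.2 hu), fun b c hbc => ?_⟩
  have h1 : nm b * nm c = nm g := by rw [hbc, nm_mul]
  rcases (Nat.prime_mul_iff.1 (h1 ▸ h)) with ⟨_, h3⟩ | ⟨_, h3⟩
  · exact Or.inr (nm_eq_one_iff.1 h3)
  · exact Or.inl (nm_eq_one_iff.1 h3)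

theorem star_dvd_star_iff {u v : G} : star u ∣ star v ↔ u ∣ v := by
  constructor
  · rintro ⟨c, hc⟩
    refine ⟨star c, ?_⟩
    have := congrArg star hc
    rwa [star_star, star_mul', star_star] at this
  · rintro ⟨c, rfl⟩
    exact ⟨star c, star_mul' _ _⟩

theorem prime_star {p : G} (h : Prime p) : Prime (star p) := by
  refine ⟨fun h0 => h.ne_zero ?_, fun h0 => h.not_isUnit ?_, fun b c hbc => ?_⟩
  · have := congrArg star h0
    simpa using this
  · rw [← nm_eq_one_iff] at h0 ⊢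
    rwa [nm_star] at h0
  · have h1 : p ∣ star b * star c := by
      rw [← star_dvd_star_iff, star_mul', star_star, star_star]
      exact hbc
    rcases h.dvd_or_dvd h1 with h2 | h2
    · left
      rw [← star_dvd_star_iff, star_star]
      exact h2
    · right
      rw [← star_dvd_star_iff, star_star]
      exact h2

theorem AA_star {a X : ℝ} {u : G} (h : u ∈ AA a X) : star u ∈ AA a X := by
  rw [mem_AA] at h ⊢
  refine ⟨mem_V_star.2 h.1, by rw [nm_star]; exact h.2.1, fun p hp hpu => ?_⟩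
  have h1 : star p ∣ u := by
    rw [← star_dvd_star_iff, star_star]
    exact hpu
  have := h.2.2 (star p) (prime_star hp) h1
  rwa [nm_star] at this

/-- if `u`, `z` are primitive and `u z` is not, then some prime `g` of prime norm divides `z` while
its conjugate divides `u` -/
theorem exists_of_not_prim {u z : G} (hu : Prim u) (hz : Prim z)
    (h : ¬ Prim (u * z)) : ∃ g : G, (nm g).Prime ∧ g ∣ z ∧ star g ∣ u := by
  rw [prim_iff] at h
  push Not at h
  obtain ⟨n, hn, hn1⟩ := h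
  obtain ⟨q, hq, hqn⟩ := Nat.exists_prime_and_dvd hn1
  have hquz : ((q : ℕ) : G) ∣ u * z := dvd_trans (by exact_mod_cast (Nat.cast_dvd_cast hqn)) hn
  have hq0 : ((q : ℕ) : G) ≠ 0 := by exact_mod_cast hq.ne_zero
  set g : G := EuclideanDomain.gcd z (q : G) with hg
  obtain ⟨z', hz'⟩ : g ∣ z := EuclideanDomain.gcd_dvd_left _ _
  obtain ⟨k, hk⟩ : g ∣ (q : G) := EuclideanDomain.gcd_dvd_right _ _
  have hg0 : g ≠ 0 := by
    intro hh
    rw [hh, zero_mul] at hk
    exact hq0 hk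
  have hcop : IsCoprime k z' := by
    have h1 : g = z * EuclideanDomain.gcdA z q + q * EuclideanDomain.gcdB z q :=
      EuclideanDomain.gcd_eq_gcd_ab z q
    refine ⟨EuclideanDomain.gcdB z q, EuclideanDomain.gcdA z q, ?_⟩
    have h2 : g * (EuclideanDomain.gcdB z q * k + EuclideanDomain.gcdA z q * z') = g * 1 := by
      calc g * (EuclideanDomain.gcdB z q * k + EuclideanDomain.gcdA z q * z')
          = (g * z') * EuclideanDomain.gcdA z q + (g * k) * EuclideanDomain.gcdB z q := by ring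
        _ = z * EuclideanDomain.gcdA z q + q * EuclideanDomain.gcdB z q := by rw [← hz', ← hk]
        _ = g * 1 := by rw [mul_one]; exact h1.symm
    exact mul_left_cancel₀ hg0 h2
  have hku : k ∣ u := by
    apply hcop.dvd_of_dvd_mul_right
    have h1 : g * k ∣ g * (u * z') := by
      rw [← hk]
      have : g * (u * z') = u * z := by rw [hz']; ring
      rw [this]
      exact hquz
    exact (mul_dvd_mul_iff_left hg0).1 h1
  have hnq : nm ((q : ℕ) : G) = q ^ 2 := by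
    have : (nm ((q : ℕ) : G) : ℤ) = (q : ℤ) ^ 2 := by
      rw [nm_eq]
      simp
    exact_mod_cast this
  have hnn : nm g * nm k = q ^ 2 := by rw [← nm_mul, ← hk, hnq]
  have hgu : nm g ≠ 1 := by
    intro h1
    have hgunit := nm_eq_one_iff.1 h1
    have h2 : (q : G) ∣ u := by
      rw [hk]
      exact (IsUnit.mul_left_dvd hgunit).2 hku
    exact hq.one_lt.ne' (prim_iff.1 hu q h2)
  have hkuu : nm k ≠ 1 := by
    intro h1
    have hkunit := nm_eq_one_iff.1 h1
    have h2 : (q : G) ∣ z := by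
      rw [hk]
      exact (IsUnit.mul_right_dvd hkunit).2 ⟨z', hz'⟩
    exact hq.one_lt.ne' (prim_iff.1 hz q h2)
  have hgq : nm g = q := by
    have h1 : nm g ∣ q ^ 2 := ⟨_, hnn.symm⟩
    rcases (Nat.dvd_prime_pow hq).1 h1 with ⟨i, hi, hgi⟩
    interval_cases i
    · exact absurd (by simpa using hgi) hgu
    · simpa using hgi
    · exfalso
      apply hkuu
      rw [hgi] at hnn
      have : 0 < q ^ 2 := pow_pos hq.pos 2
      exact Nat.eq_of_mul_eq_mul_left this (by rw [hnn, mul_one])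
  have hks : k = star g := by
    apply mul_left_cancel₀ hg0
    rw [← hk, mul_star_eq_nm, hgq]
  exact ⟨g, hgq ▸ hq, ⟨z', hz'⟩, hks ▸ hku⟩

/-- number of nonzero elements of a disc divisible by an element of norm `q` -/
theorem card_dvd_le (q : ℕ) (hq : q.Prime) (Y : ℝ) (hY : 0 ≤ Y) :
    (Set.ncard {z : G | z ∈ V Y ∧ ∃ g : G, nm g = q ∧ g ∣ z} : ℝ) ≤ 18 * (Y / q) := by
  classical
  have hq0 : (0 : ℝ) < q := by exact_mod_cast hq.pos
  by_cases hex : ∃ p : G, nm p = q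
  · obtain ⟨p, hp⟩ := hex
    have hp0 : p ≠ 0 := by
      rintro rfl
      rw [nm_zero] at hp
      exact hq.ne_zero hp.symm
    set D : Finset G := (ball (Y / q)).filter (fun z => z ≠ 0) with hD
    have hDc : (D.card : ℝ) ≤ 9 * (Y / q) := by
      have := card_ball_le (Y / q) (by positivity)
      simpa [hD] using this
    have hsub : {z : G | z ∈ V Y ∧ ∃ g : G, nm g = q ∧ g ∣ z} ⊆
        ((D.image (fun z => p * z) ∪ D.image (fun z => star p * z) : Finset G) : Set G) := by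
      rintro z ⟨hzV, g, hg, hgz⟩
      have hgp : Prime g := prime_of_nm_prime (hg ▸ hq)
      have h1 : g ∣ p * star p := by
        rw [mul_star_eq_nm, hp, ← hg, ← mul_star_eq_nm]
        exact dvd_mul_right _ _
      have key : ∀ r : G, nm r = q → g ∣ r → r ∣ z := by
        rintro r hr ⟨c, hc⟩
        have h2 : nm g * nm c = q := by rw [← nm_mul, ← hc, hr]
        have h3 : nm c = 1 := by
          rw [hg] at h2
          exact Nat.eq_of_mul_eq_mul_left hq.pos (by rw [h2, mul_one])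
        have h4 : IsUnit c := nm_eq_one_iff.1 h3
        rw [hc]
        exact (IsUnit.mul_right_dvd h4).2 hgz
      have key2 : ∀ r : G, nm r = q → r ∣ z → z ∈ D.image (fun z => r * z) := by
        rintro r hr ⟨c, hc⟩
        rw [Finset.mem_image]
        refine ⟨c, ?_, hc.symm⟩
        rw [hD, Finset.mem_filter, mem_ball]
        have hz0 := V_ne_zero hzV
        refine ⟨?_, ?_⟩
        · rw [le_div_iff₀ hq0]
          have h5 : (nm z : ℝ) ≤ Y := (mem_V.1 hzV).1
          rw [hc, nm_mul, hr] at h5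
          push_cast at h5
          linarith
        · rintro rfl
          apply hz0
          rw [hc, mul_zero]
      rcases hgp.dvd_or_dvd h1 with h2 | h2
      · have := key2 p hp (key p hp h2)
        exact Finset.mem_coe.2 (Finset.mem_union_left _ this)
      · have hps : nm (star p) = q := by rw [nm_star, hp]
        have := key2 (star p) hps (key (star p) hps h2)
        exact Finset.mem_coe.2 (Finset.mem_union_right _ this)
    have h6 := Set.ncard_le_ncard hsub (Finset.finite_toSet _)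
    rw [Set.ncard_coe_finset] at h6
    have h7 : (D.image (fun z => p * z) ∪ D.image (fun z => star p * z)).card ≤ D.card + D.card :=
      (Finset.card_union_le _ _).trans (Nat.add_le_add Finset.card_image_le Finset.card_image_le)
    have h8 : (Set.ncard {z : G | z ∈ V Y ∧ ∃ g : G, nm g = q ∧ g ∣ z} : ℝ) ≤ D.card + D.card := by
      exact_mod_cast h6.trans h7
    linarith
  · have h1 : {z : G | z ∈ V Y ∧ ∃ g : G, nm g = q ∧ g ∣ z} = ∅ := by
      ext z
      simp only [Set.mem_ofPred_eq, Set.mem_empty_iff_false, iff_false, not_and]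
      rintro _ ⟨g, hg, _⟩
      exact hex ⟨g, hg⟩
    rw [h1, Set.ncard_empty]
    push_cast
    positivity

/-- a number `m ≤ X` has at most `1 / a` prime factors `≥ X ^ a` -/
theorem card_big_primes (a X : ℝ) (ha : 0 < a) (hX : 2 ≤ X) (m : ℕ) (hm : 0 < m) (hmX : (m : ℝ) ≤ X) :
    ((m.primeFactors.filter (fun q : ℕ => X ^ a ≤ (q : ℝ))).card : ℝ) ≤ 1 / a := by
  set Q := m.primeFactors.filter (fun q : ℕ => X ^ a ≤ (q : ℝ)) with hQ
  have h1 : (X ^ a) ^ Q.card ≤ ∏ q ∈ Q, (q : ℝ) := by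
    rw [← Finset.prod_const]
    refine Finset.prod_le_prod (fun i _ => by positivity) fun q hq => ?_
    rw [hQ, Finset.mem_filter] at hq
    exact hq.2
  have h2 : ∏ q ∈ Q, q ∣ m := by
    refine (Finset.prod_dvd_prod_of_subset _ _ _ (Finset.filter_subset _ _)).trans ?_
    exact Nat.prod_primeFactors_dvd m
  have h3 : ∏ q ∈ Q, (q : ℝ) ≤ X := by
    have : ∏ q ∈ Q, q ≤ m := Nat.le_of_dvd hm h2
    have h4 : ((∏ q ∈ Q, q : ℕ) : ℝ) ≤ m := by exact_mod_cast this
    push_cast at h4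
    exact h4.trans hmX
  have h4 : X ^ (a * Q.card) ≤ X ^ (1 : ℝ) := by
    rw [Real.rpow_mul (by linarith), Real.rpow_natCast, Real.rpow_one]
    exact h1.trans h3
  have h5 : a * Q.card ≤ 1 := (Real.rpow_le_rpow_left_iff (by linarith)).1 h4
  rw [le_div_iff₀ ha]
  linarith

theorem norm_Fb_sq_le (S : Finset ℤ) (d : ℤ → ℂ) {z : G} (hz : z ≠ 0) :
    ‖Fb S d z‖ ^ 2 ≤ S.card * ∑ k ∈ S, ‖d k‖ ^ 2 := by
  have h1 : ‖Fb S d z‖ ≤ ∑ k ∈ S, ‖d k‖ := by
    unfold Fb
    refine (norm_sum_le _ _).trans (Finset.sum_le_sum fun k _ => ?_)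
    rw [norm_mul, norm_xi k hz, mul_one]
  calc ‖Fb S d z‖ ^ 2 ≤ (∑ k ∈ S, ‖d k‖) ^ 2 := pow_le_pow_left₀ (norm_nonneg _) h1 2
    _ ≤ S.card * ∑ k ∈ S, ‖d k‖ ^ 2 := sq_sum_le_card_mul_sum_sq

theorem norm_sub_sq_le' (x y : ℂ) : ‖x - y‖ ^ 2 ≤ 2 * ‖x‖ ^ 2 + 2 * ‖y‖ ^ 2 := by
  have h1 := norm_sub_le x y
  have h2 : ‖x - y‖ ^ 2 ≤ (‖x‖ + ‖y‖) ^ 2 := pow_le_pow_left₀ (norm_nonneg _) h1 2
  nlinarith [sq_nonneg (‖x‖ - ‖y‖)]

/-- the number of bad `z` for a given `u` -/
theorem card_bad_le (a X : ℝ) (ha : 0 < a) (hX : 2 ≤ X) (u : G) (hu : u ∈ AA a X) :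
    (Set.ncard {z : G | z ∈ V (X / nm u) ∧ ¬ (Prim (u * z) ∧ Prim (star u * z))} : ℝ) ≤
      18 / a * (X ^ (1 - a) * (1 / (nm u : ℝ))) := by
  classical
  rw [mem_AA] at hu
  obtain ⟨huV, _, hup⟩ := hu
  have hu0 : u ≠ 0 := V_ne_zero huV
  have hXpos : (0 : ℝ) < X := by linarith
  have hnu : (0 : ℝ) < nm u := by exact_mod_cast nm_pos hu0
  have hnuX : (nm u : ℝ) ≤ X := by
    refine ((mem_V.1 huV).1).trans ?_
    calc X ^ (13 / 25 : ℝ) ≤ X ^ (1 : ℝ) :=
          Real.rpow_le_rpow_of_exponent_le (by linarith) (by norm_num)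
      _ = X := Real.rpow_one X
  set Q := (nm u).primeFactors.filter (fun q : ℕ => X ^ a ≤ (q : ℝ)) with hQ
  have hQc := card_big_primes a X ha hX (nm u) (nm_pos hu0) hnuX
  rw [← hQ] at hQc
  have hY : 0 ≤ X / nm u := by positivity
  -- the bad set is contained in a union
  let A : ℕ → Finset G := fun q => (V (X / nm u)).filter (fun z => ∃ g : G, nm g = q ∧ g ∣ z)
  have hsub : {z : G | z ∈ V (X / nm u) ∧ ¬ (Prim (u * z) ∧ Prim (star u * z))} ⊆
      ((Q.biUnion A : Finset G) : Set G) := by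
    rintro z ⟨hzV, hbad⟩
    have hz0 : z ≠ 0 := V_ne_zero hzV
    have huP : Prim u := (mem_V.1 huV).2.2
    have hzP : Prim z := (mem_V.1 hzV).2.2
    have key : ∃ g : G, (nm g).Prime ∧ g ∣ z ∧ (star g ∣ u ∨ g ∣ u) := by
      rcases not_and_or.1 hbad with h1 | h1
      · obtain ⟨g, hg1, hg2, hg3⟩ := exists_of_not_prim huP hzP h1
        exact ⟨g, hg1, hg2, Or.inl hg3⟩
      · obtain ⟨g, hg1, hg2, hg3⟩ := exists_of_not_prim (prim_star.2 huP) hzP h1
        exact ⟨g, hg1, hg2, Or.inr (star_dvd_star_iff.1 hg3)⟩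
    obtain ⟨g, hg1, hg2, hg3⟩ := key
    have hgQ : nm g ∈ Q := by
      rw [hQ, Finset.mem_filter, Nat.mem_primeFactors]
      refine ⟨⟨hg1, ?_, (nm_pos hu0).ne'⟩, ?_⟩
      · rcases hg3 with h | h
        · have := nm_dvd h
          rwa [nm_star] at this
        · exact nm_dvd h
      · rcases hg3 with h | h
        · have := hup (star g) (prime_star (prime_of_nm_prime hg1)) h
          rwa [nm_star] at this
        · exact hup g (prime_of_nm_prime hg1) h
    rw [Finset.mem_coe, Finset.mem_biUnion]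
    exact ⟨nm g, hgQ, Finset.mem_filter.2 ⟨hzV, g, rfl, hg2⟩⟩
  have h6 := Set.ncard_le_ncard hsub (Finset.finite_toSet _)
  rw [Set.ncard_coe_finset] at h6
  have h7 : ((Q.biUnion A).card : ℝ) ≤ ∑ q ∈ Q, ((A q).card : ℝ) := by
    have := Finset.card_biUnion_le (s := Q) (t := A)
    exact_mod_cast this
  have h8 : ∀ q ∈ Q, ((A q).card : ℝ) ≤ 18 * (X ^ (1 - a) * (1 / (nm u : ℝ))) := by
    intro q hq
    rw [hQ, Finset.mem_filter, Nat.mem_primeFactors] at hq
    have h9 := card_dvd_le q hq.1.1 (X / nm u) hY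
    have h10 : {z : G | z ∈ V (X / nm u) ∧ ∃ g : G, nm g = q ∧ g ∣ z} = ((A q : Finset G) : Set G) := by
      ext z
      simp [A]
    rw [h10, Set.ncard_coe_finset] at h9
    refine h9.trans (mul_le_mul_of_nonneg_left ?_ (by norm_num))
    have hXa : 0 < X ^ a := by positivity
    have h11 : X / nm u / q ≤ X / nm u / X ^ a := div_le_div_of_nonneg_left hY hXa hq.2
    refine h11.trans (le_of_eq ?_)
    rw [Real.rpow_sub hXpos, Real.rpow_one]
    field_simp
  have h12 : ∑ q ∈ Q, ((A q).card : ℝ) ≤ Q.card * (18 * (X ^ (1 - a) * (1 / (nm u : ℝ)))) := by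
    rw [← nsmul_eq_mul]
    exact Finset.sum_le_card_nsmul _ _ _ h8
  have h13 : 0 ≤ 18 * (X ^ (1 - a) * (1 / (nm u : ℝ))) := by positivity
  calc (Set.ncard {z : G | z ∈ V (X / nm u) ∧ ¬ (Prim (u * z) ∧ Prim (star u * z))} : ℝ)
      ≤ (Q.biUnion A).card := by exact_mod_cast h6
    _ ≤ Q.card * (18 * (X ^ (1 - a) * (1 / (nm u : ℝ)))) := h7.trans h12
    _ ≤ 1 / a * (18 * (X ^ (1 - a) * (1 / (nm u : ℝ)))) := mul_le_mul_of_nonneg_right hQc h13
    _ = 18 / a * (X ^ (1 - a) * (1 / (nm u : ℝ))) := by ring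

/-- the sum over the good pairs -/
theorem good_sum_le (a X C1 : ℝ) (φ : G → G) (hφ : ∀ u ∈ AA a X, φ u ∈ AA a X)
    (hinj : Function.Injective φ)
    (hC : ∀ z : G, z ≠ 0 → (nm z : ℝ) ≤ X → (Set.ncard {u : G | u ∈ AA a X ∧ u ∣ z} : ℝ) ≤ C1)
    (hnφ : ∀ u, nm (φ u) = nm u) (h : G → ℝ) (hh : ∀ z, 0 ≤ h z)
    (good : G → Finset G) (hgood : ∀ u ∈ AA a X, ∀ z ∈ good u, z ∈ V (X / nm u) ∧ Prim (φ u * z)) :
    ∑ u ∈ AA a X, ∑ z ∈ good u, h (φ u * z) ≤ C1 * ∑ z ∈ V X, h z := by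
  classical
  have h1 : ∀ u ∈ AA a X, ∑ z ∈ good u, h (φ u * z) ≤
      ∑ w ∈ V X, if φ u ∣ w then h w else 0 := by
    intro u hu
    have hφ0 : φ u ≠ 0 := V_ne_zero ((mem_AA.1 (hφ u hu)).1)
    have hodd : Odd (nm (φ u)) := (mem_V.1 ((mem_AA.1 (hφ u hu)).1)).2.1
    have hnu : (0 : ℝ) < nm u := by
      rw [← hnφ]
      exact_mod_cast nm_pos hφ0
    rw [← Finset.sum_filter]
    have h2 : ∑ z ∈ good u, h (φ u * z) = ∑ w ∈ (good u).image (fun z => φ u * z), h w := by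
      rw [Finset.sum_image]
      intro x _ y _ hxy
      exact mul_left_cancel₀ hφ0 hxy
    rw [h2]
    refine Finset.sum_le_sum_of_subset_of_nonneg ?_ (fun i _ _ => hh i)
    intro w hw
    rw [Finset.mem_image] at hw
    obtain ⟨z, hz, rfl⟩ := hw
    obtain ⟨hzV, hzP⟩ := hgood u hu z hz
    rw [mem_V] at hzV
    rw [Finset.mem_filter, mem_V]
    refine ⟨⟨?_, odd_nm_mul.2 ⟨hodd, hzV.2.1⟩, hzP⟩, dvd_mul_right _ _⟩
    rw [nm_mul, hnφ]
    push_cast
    have := (le_div_iff₀ hnu).1 hzV.1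
    linarith
  calc ∑ u ∈ AA a X, ∑ z ∈ good u, h (φ u * z)
      ≤ ∑ u ∈ AA a X, ∑ w ∈ V X, (if φ u ∣ w then h w else 0) := Finset.sum_le_sum h1
    _ = ∑ w ∈ V X, ∑ u ∈ AA a X, (if φ u ∣ w then h w else 0) := Finset.sum_comm
    _ ≤ ∑ w ∈ V X, C1 * h w := by
        refine Finset.sum_le_sum fun w hw => ?_
        rw [← Finset.sum_filter, Finset.sum_const, nsmul_eq_mul]
        refine mul_le_mul_of_nonneg_right ?_ (hh w)
        have h3 := hC w (V_ne_zero hw) (mem_V.1 hw).1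
        refine le_trans ?_ h3
        have h4 : (((AA a X).filter (fun u => φ u ∣ w)).image φ : Finset G).card =
            ((AA a X).filter (fun u => φ u ∣ w)).card :=
          Finset.card_image_of_injective _ hinj
        rw [← h4, ← Set.ncard_coe_finset]
        have h5 : Set.Finite {u : G | u ∈ AA a X ∧ u ∣ w} :=
          (AA a X).finite_toSet.subset (fun u hu => hu.1)
        have h6 := Set.ncard_le_ncard (s := (((AA a X).filter (fun u => φ u ∣ w)).image φ : Finset G))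
          (t := {u : G | u ∈ AA a X ∧ u ∣ w}) (by
            intro v hv
            rw [Finset.mem_coe, Finset.mem_image] at hv
            obtain ⟨u, hu, rfl⟩ := hv
            rw [Finset.mem_filter] at hu
            exact ⟨hφ u hu.1, hu.2⟩) h5
        exact_mod_cast h6
    _ = C1 * ∑ z ∈ V X, h z := by rw [Finset.mul_sum]

/-- For `u ∈ AA a X` and `z ∈ V (X / nm u)` such that `u z` and `star u z` are both primitive (hence in
`V X`): `F (u z) = F u F z = F (star u) F z = F (star u z)`, so with `H = F - Fb S d`,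
`‖Fb (u z) - Fb (star u z)‖² = ‖H (u z) - H (star u z)‖² ≤ 2 ‖H (u z)‖² + 2 ‖H (star u z)‖²`, and each
element of `V X` is `u z` for at most `C` pairs (`div_count`), the same for `star u z` (`star u ∈ AA a X`).
For the other `z`: a prime factor of norm `≥ X^a` of `u` or `star u` divides `z` (if `q ∣ u z` for a prime
number `q`, then, `u` and `z` being primitive, `q = w star w` up to a unit with `w ∣ u`, `star w ∣ z`), and
`u` has at most `1/a` prime factors, so there are at most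
`C (X / nm u) X^(-a)` of them (`card_ball_le`), and there `‖Fb‖² ≤ #S ∑ |d k|²` (Cauchy-Schwarz). Use
`AA_sum`. -/
theorem conj_upper (a : ℝ) (ha : 0 < a) : ∃ C : ℝ, 0 < C ∧ ∀ (X : ℝ), 2 ≤ X → ∀ (F : G → ℝ), PM F →
    ∀ (S : Finset ℤ) (d : ℤ → ℂ),
    ∑ u ∈ AA a X, ∑ z ∈ V (X / nm u), ‖Fb S d (u * z) - Fb S d (star u * z)‖ ^ 2 ≤
      C * ∑ z ∈ V X, ‖(F z : ℂ) - Fb S d z‖ ^ 2 +
      C * S.card * (∑ k ∈ S, ‖d k‖ ^ 2) * X ^ (1 - a) * Real.log X := by
  classical
  obtain ⟨C1, hC1, hdiv⟩ := div_count a ha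
  obtain ⟨C2, hC2, hAA⟩ := AA_sum
  refine ⟨4 * C1 + 72 / a * C2, by positivity, fun X hX F hF S d => ?_⟩
  set D : ℝ := ∑ k ∈ S, ‖d k‖ ^ 2 with hD
  have hD0 : 0 ≤ D := Finset.sum_nonneg fun _ _ => by positivity
  have hlog : 0 ≤ Real.log X := Real.log_nonneg (by linarith)
  have hXa : 0 < X ^ (1 - a) := Real.rpow_pos_of_pos (by linarith) _
  set good : G → Finset G := fun u =>
    (V (X / nm u)).filter (fun z => Prim (u * z) ∧ Prim (star u * z)) with hgooddef
  set bad : G → Finset G := fun u =>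
    (V (X / nm u)).filter (fun z => ¬ (Prim (u * z) ∧ Prim (star u * z))) with hbaddef
  set h : G → ℝ := fun z => ‖(F z : ℂ) - Fb S d z‖ ^ 2 with hh
  have hh0 : ∀ z, 0 ≤ h z := fun z => by positivity
  set HS : ℝ := ∑ z ∈ V X, h z with hHS
  have hHS0 : 0 ≤ HS := Finset.sum_nonneg fun _ _ => hh0 _
  -- split
  have hsplit : ∀ u, ∑ z ∈ V (X / nm u), ‖Fb S d (u * z) - Fb S d (star u * z)‖ ^ 2 =
      ∑ z ∈ good u, ‖Fb S d (u * z) - Fb S d (star u * z)‖ ^ 2 +
      ∑ z ∈ bad u, ‖Fb S d (u * z) - Fb S d (star u * z)‖ ^ 2 := by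
    intro u
    exact (Finset.sum_filter_add_sum_filter_not _ _ _).symm
  have hgood : ∀ u ∈ AA a X, ∑ z ∈ good u, ‖Fb S d (u * z) - Fb S d (star u * z)‖ ^ 2 ≤
      2 * ∑ z ∈ good u, h (u * z) + 2 * ∑ z ∈ good u, h (star u * z) := by
    intro u hu
    rw [Finset.mul_sum, Finset.mul_sum, ← Finset.sum_add_distrib]
    refine Finset.sum_le_sum fun z hz => ?_
    rw [hgooddef, Finset.mem_filter] at hz
    have huodd : Odd (nm u) := (mem_V.1 (mem_AA.1 hu).1).2.1
    have hzodd : Odd (nm z) := (mem_V.1 hz.1).2.1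
    have e1 : F (u * z) = F (star u * z) := by
      rw [hF.mul u z huodd hzodd, hF.mul (star u) z (by rw [nm_star]; exact huodd) hzodd,
        hF.conj u huodd]
    have e2 : Fb S d (u * z) - Fb S d (star u * z) =
        ((F (star u * z) : ℂ) - Fb S d (star u * z)) - ((F (u * z) : ℂ) - Fb S d (u * z)) := by
      rw [e1]
      ring
    rw [e2]
    have := norm_sub_sq_le' ((F (star u * z) : ℂ) - Fb S d (star u * z))
      ((F (u * z) : ℂ) - Fb S d (u * z))
    simp only [hh]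
    linarith
  have hbad : ∀ u ∈ AA a X, ∑ z ∈ bad u, ‖Fb S d (u * z) - Fb S d (star u * z)‖ ^ 2 ≤
      (18 / a * (X ^ (1 - a) * (1 / (nm u : ℝ)))) * (4 * (S.card * D)) := by
    intro u hu
    have hu0 : u ≠ 0 := V_ne_zero (mem_AA.1 hu).1
    have hcard := card_bad_le a X ha hX u hu
    have h10 : {z : G | z ∈ V (X / nm u) ∧ ¬ (Prim (u * z) ∧ Prim (star u * z))} =
        ((bad u : Finset G) : Set G) := by
      ext z
      simp [hbaddef]
    rw [h10, Set.ncard_coe_finset] at hcard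
    have h1 : ∀ z ∈ bad u, ‖Fb S d (u * z) - Fb S d (star u * z)‖ ^ 2 ≤ 4 * (S.card * D) := by
      intro z hz
      rw [hbaddef, Finset.mem_filter] at hz
      have hz0 : z ≠ 0 := V_ne_zero hz.1
      have a1 := norm_sub_sq_le' (Fb S d (u * z)) (Fb S d (star u * z))
      have a2 := norm_Fb_sq_le S d (mul_ne_zero hu0 hz0)
      have a3 := norm_Fb_sq_le S d (mul_ne_zero (star_ne_zero' hu0) hz0)
      linarith
    have h2 := Finset.sum_le_card_nsmul _ _ _ h1
    rw [nsmul_eq_mul] at h2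
    have h3 : 0 ≤ 4 * (S.card * D) := by positivity
    exact h2.trans (mul_le_mul_of_nonneg_right hcard h3)
  have g1 := good_sum_le a X C1 (fun u => u) (fun u hu => hu) (fun _ _ h => h)
    (fun z hz0 hzX => hdiv X hX z hz0 hzX) (fun _ => rfl) h hh0 good (by
      intro u hu z hz
      rw [hgooddef, Finset.mem_filter] at hz
      exact ⟨hz.1, hz.2.1⟩)
  have g2 := good_sum_le a X C1 (fun u => star u) (fun u hu => AA_star hu) star_injective
    (fun z hz0 hzX => hdiv X hX z hz0 hzX) (fun u => nm_star u) h hh0 good (by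
      intro u hu z hz
      rw [hgooddef, Finset.mem_filter] at hz
      exact ⟨hz.1, hz.2.2⟩)
  have t1 : ∑ u ∈ AA a X, ∑ z ∈ good u, ‖Fb S d (u * z) - Fb S d (star u * z)‖ ^ 2 ≤
      4 * C1 * HS := by
    calc ∑ u ∈ AA a X, ∑ z ∈ good u, ‖Fb S d (u * z) - Fb S d (star u * z)‖ ^ 2
        ≤ ∑ u ∈ AA a X, (2 * ∑ z ∈ good u, h (u * z) + 2 * ∑ z ∈ good u, h (star u * z)) :=
          Finset.sum_le_sum hgood
      _ = 2 * ∑ u ∈ AA a X, ∑ z ∈ good u, h (u * z) +
          2 * ∑ u ∈ AA a X, ∑ z ∈ good u, h (star u * z) := by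
          rw [Finset.sum_add_distrib, Finset.mul_sum, Finset.mul_sum]
      _ ≤ 2 * (C1 * HS) + 2 * (C1 * HS) := by
          have b1 : ∑ u ∈ AA a X, ∑ z ∈ good u, h (u * z) ≤ C1 * HS := g1
          have b2 : ∑ u ∈ AA a X, ∑ z ∈ good u, h (star u * z) ≤ C1 * HS := g2
          linarith
      _ = 4 * C1 * HS := by ring
  have t2 : ∑ u ∈ AA a X, ∑ z ∈ bad u, ‖Fb S d (u * z) - Fb S d (star u * z)‖ ^ 2 ≤
      72 / a * C2 * S.card * D * X ^ (1 - a) * Real.log X := by
    calc ∑ u ∈ AA a X, ∑ z ∈ bad u, ‖Fb S d (u * z) - Fb S d (star u * z)‖ ^ 2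
        ≤ ∑ u ∈ AA a X, (18 / a * (X ^ (1 - a) * (1 / (nm u : ℝ)))) * (4 * (S.card * D)) :=
          Finset.sum_le_sum hbad
      _ = ∑ u ∈ AA a X, (72 / a * S.card * D * X ^ (1 - a)) * (1 / (nm u : ℝ)) :=
          Finset.sum_congr rfl fun u _ => by ring
      _ = (72 / a * S.card * D * X ^ (1 - a)) * ∑ u ∈ AA a X, (1 / (nm u : ℝ)) :=
          (Finset.mul_sum _ _ _).symm
      _ ≤ (72 / a * S.card * D * X ^ (1 - a)) * (C2 * Real.log X) :=
          mul_le_mul_of_nonneg_left (hAA a X hX) (by positivity)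
      _ = 72 / a * C2 * S.card * D * X ^ (1 - a) * Real.log X := by ring
  have hsum : ∑ u ∈ AA a X, ∑ z ∈ V (X / nm u), ‖Fb S d (u * z) - Fb S d (star u * z)‖ ^ 2 =
      ∑ u ∈ AA a X, ∑ z ∈ good u, ‖Fb S d (u * z) - Fb S d (star u * z)‖ ^ 2 +
      ∑ u ∈ AA a X, ∑ z ∈ bad u, ‖Fb S d (u * z) - Fb S d (star u * z)‖ ^ 2 := by
    rw [Finset.sum_congr rfl fun u _ => hsplit u]
    exact Finset.sum_add_distrib
  calc ∑ u ∈ AA a X, ∑ z ∈ V (X / nm u), ‖Fb S d (u * z) - Fb S d (star u * z)‖ ^ 2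
      = ∑ u ∈ AA a X, ∑ z ∈ good u, ‖Fb S d (u * z) - Fb S d (star u * z)‖ ^ 2 +
        ∑ u ∈ AA a X, ∑ z ∈ bad u, ‖Fb S d (u * z) - Fb S d (star u * z)‖ ^ 2 :=
        hsum
    _ ≤ 4 * C1 * HS + 72 / a * C2 * S.card * D * X ^ (1 - a) * Real.log X := add_le_add t1 t2
    _ ≤ (4 * C1 + 72 / a * C2) * HS +
        (4 * C1 + 72 / a * C2) * S.card * D * X ^ (1 - a) * Real.log X := by
        have p1 : 0 ≤ 72 / a * C2 * HS := by positivity
        have p2 : 0 ≤ 4 * C1 * S.card * D * X ^ (1 - a) * Real.log X := by positivity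
        nlinarith

end Pool.Agent.GaussMR
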