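import Pool.Agent.Lib_MP_f1a94e_mr.Basic

/-!
# Piece BADPTS: few bad points in a row
-/

set_option autoImplicit false

namespace Pool.Agent.GaussMR

private theorem card_near (ζ R : ℝ) (hR : 0 ≤ R) :
    (((Finset.Icc ⌈ζ - R⌉ ⌊ζ + R⌋).card : ℕ) : ℝ) ≤ 2 * R + 1 := by
  rw [Int.card_Icc]
  have h1 : ((⌊ζ + R⌋ : ℤ) : ℝ) ≤ ζ + R := Int.floor_le _
  have h2 : ζ - R ≤ ((⌈ζ - R⌉ : ℤ) : ℝ) := Int.le_ceil _
  rcases le_total 0 (⌊ζ + R⌋ + 1 - ⌈ζ - R⌉) with h | h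
  · have h3 : (((⌊ζ + R⌋ + 1 - ⌈ζ - R⌉).toNat : ℤ) : ℝ) = ((⌊ζ + R⌋ + 1 - ⌈ζ - R⌉ : ℤ) : ℝ) := by
      rw [Int.toNat_of_nonneg h]
    have h4 : (((⌊ζ + R⌋ + 1 - ⌈ζ - R⌉).toNat : ℕ) : ℝ) =
        (((⌊ζ + R⌋ + 1 - ⌈ζ - R⌉).toNat : ℤ) : ℝ) := by push_cast; rfl
    rw [h4, h3]
    push_cast
    linarith
  · rw [Int.toNat_of_nonpos h]
    push_cast
    linarith

private theorem cover (m : ℕ) (hm4 : m ≤ 4) (ζ : Fin m → ℝ) (r : ℝ) (hr : 1 ≤ r)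
    (b : ℕ) (hb : r ^ (1 - 1 / 2000 : ℝ) ≤ b) (S : Set ℤ)
    (hS : ∀ x ∈ S, (b : ℝ) * ∏ i, |(x : ℝ) - ζ i| < r ^ (-(1 / 1000 : ℝ)) * r ^ (m + 1)) :
    (S.ncard : ℝ) ≤ 12 * r ^ (1 - 1 / 8000 : ℝ) := by
  classical
  have hr0 : 0 < r := by linarith
  set R : ℝ := r ^ (1 - 1 / 8000 : ℝ) with hR
  have hR1 : 1 ≤ R := Real.one_le_rpow hr (by norm_num)
  have hR0 : 0 ≤ R := by linarith
  have hclose : ∀ x ∈ S, ∃ i, |(x : ℝ) - ζ i| < R := by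
    intro x hx
    by_contra hcon
    push Not at hcon
    have h1 := hS x hx
    have h2 : R ^ m ≤ ∏ i, |(x : ℝ) - ζ i| := by
      calc R ^ m = ∏ _i : Fin m, R := by simp
        _ ≤ ∏ i, |(x : ℝ) - ζ i| := Finset.prod_le_prod (fun _ _ => hR0) (fun i _ => hcon i)
    have h3 : r ^ ((m : ℝ) - 1 / 2000) ≤ R ^ m := by
      rw [hR, ← Real.rpow_natCast, ← Real.rpow_mul hr0.le]
      apply Real.rpow_le_rpow_of_exponent_le hr
      have : (m : ℝ) ≤ 4 := by exact_mod_cast hm4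
      nlinarith
    have h4 : r ^ (-(1 / 1000 : ℝ)) * r ^ (m + 1) =
        r ^ (1 - 1 / 2000 : ℝ) * r ^ ((m : ℝ) - 1 / 2000) := by
      rw [← Real.rpow_natCast, ← Real.rpow_add hr0, ← Real.rpow_add hr0]
      congr 1
      push_cast
      ring
    rw [h4] at h1
    have h5 : r ^ (1 - 1 / 2000 : ℝ) * r ^ ((m : ℝ) - 1 / 2000) ≤ (b : ℝ) * ∏ i, |(x : ℝ) - ζ i| :=
      mul_le_mul hb (h3.trans h2) (by positivity) (by positivity)
    linarith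
  set U : Finset ℤ := Finset.univ.biUnion (fun i : Fin m => Finset.Icc ⌈ζ i - R⌉ ⌊ζ i + R⌋) with hU
  have hsub : S ⊆ (U : Set ℤ) := by
    intro x hx
    obtain ⟨i, hi⟩ := hclose x hx
    rw [abs_lt] at hi
    rw [hU, Finset.coe_biUnion]
    refine Set.mem_iUnion₂.2 ⟨i, Finset.mem_coe.2 (Finset.mem_univ i), ?_⟩
    rw [Finset.coe_Icc]
    constructor
    · exact Int.ceil_le.2 (by linarith [hi.1])
    · exact Int.le_floor.2 (by linarith [hi.2])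
  have h1 : S.ncard ≤ U.card := by
    have := Set.ncard_le_ncard hsub (Finset.finite_toSet U)
    rwa [Set.ncard_coe_finset] at this
  have h2 : U.card ≤ ∑ i : Fin m, (Finset.Icc ⌈ζ i - R⌉ ⌊ζ i + R⌋).card := Finset.card_biUnion_le
  calc (S.ncard : ℝ) ≤ ((∑ i : Fin m, (Finset.Icc ⌈ζ i - R⌉ ⌊ζ i + R⌋).card : ℕ) : ℝ) := by
        exact_mod_cast h1.trans h2
    _ = ∑ i : Fin m, (((Finset.Icc ⌈ζ i - R⌉ ⌊ζ i + R⌋).card : ℕ) : ℝ) := by push_cast; rfl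
    _ ≤ ∑ _i : Fin m, (2 * R + 1) := Finset.sum_le_sum (fun i _ => card_near (ζ i) R hR0)
    _ = m * (2 * R + 1) := by
        rw [Finset.sum_const, Finset.card_univ, Fintype.card_fin, nsmul_eq_mul]
    _ ≤ 4 * (3 * R) := by
        have hm' : (m : ℝ) ≤ 4 := by exact_mod_cast hm4
        apply mul_le_mul hm' (by linarith) (by positivity) (by norm_num)
    _ = 12 * R := by ring

private theorem im_bound (q : ℕ) (r : ℝ) (hr : 1 ≤ r) (b : ℕ) (hb : 1 ≤ b) (x : ℤ)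
    (h1 : (x : ℝ) ^ 2 + (b : ℝ) ^ 2 ≤ r ^ 2)
    (h2 : |(((x : ℂ) + b * Complex.I) ^ (-(q : ℤ))).im| * ‖(x : ℂ) + b * Complex.I‖ ^ q <
        r ^ (-(1 / 1000 : ℝ))) :
    |(((x : ℂ) + b * Complex.I) ^ q).im| < r ^ (-(1 / 1000 : ℝ)) * r ^ q := by
  have hr0 : 0 < r := by linarith
  set w : ℂ := (x : ℂ) + b * Complex.I with hw
  have hwre : w.re = x := by rw [hw]; simp
  have hwim : w.im = b := by rw [hw]; simp
  have hnsq : ‖w‖ ^ 2 = (x : ℝ) ^ 2 + (b : ℝ) ^ 2 := by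
    rw [← Complex.normSq_eq_norm_sq, Complex.normSq_apply, hwre, hwim]; ring
  have hb' : (1 : ℝ) ≤ b := by exact_mod_cast hb
  have hwpos : 0 < ‖w‖ := by
    rcases (norm_nonneg w).lt_or_eq with h | h
    · exact h
    · rw [← h] at hnsq
      nlinarith [sq_nonneg (x : ℝ)]
  have hwle : ‖w‖ ≤ r := by
    apply le_of_sq_le_sq _ hr0.le
    rw [hnsq]; exact h1
  have hz : ‖w ^ q‖ = ‖w‖ ^ q := norm_pow _ _
  have e1 : |(w ^ (-(q : ℤ))).im| * ‖w‖ ^ q = |(w ^ q).im| / ‖w‖ ^ q := by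
    rw [zpow_neg, zpow_natCast, Complex.inv_im, abs_div, abs_neg, Complex.normSq_eq_norm_sq, hz,
      abs_of_nonneg (by positivity : (0 : ℝ) ≤ (‖w‖ ^ q) ^ 2)]
    field_simp
  rw [e1, div_lt_iff₀ (by positivity)] at h2
  refine h2.trans_le ?_
  exact mul_le_mul_of_nonneg_left (pow_le_pow_left₀ (norm_nonneg _) hwle q) (by positivity)

/-- `|Im (x + i b)^(-q)| |x + i b|^q = |Im (x + i b)^q| / |x + i b|^q`. The polynomial
`p(x) = Im (x + i b)^q` has degree `q - 1` and leading coefficient `q b`; if `x² + b² ≤ r²` is bad then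
`|p x| < κ r^q` with `κ = r^(-1/1000)`, and as `b ≥ κ^(1/2) r` one of the `q - 1` complex roots `ζ` of `p`
satisfies `|x - ζ| < κ^(1/(2(q-1))) r ≤ κ^(1/8) r`. So at most `4 (2 κ^(1/8) r + 1)` integers `x`. -/
theorem bad_card : ∃ C : ℝ, 0 < C ∧ ∀ (q : ℕ), 2 ≤ q → q ≤ 5 → ∀ (r : ℝ) (b : ℕ), 1 ≤ r →
    r ^ (1 - 1 / 2000 : ℝ) ≤ b →
    (Set.ncard {x : ℤ | (x : ℝ) ^ 2 + (b : ℝ) ^ 2 ≤ r ^ 2 ∧
      |(((x : ℂ) + b * Complex.I) ^ (-(q : ℤ))).im| * ‖(x : ℂ) + b * Complex.I‖ ^ q <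
        r ^ (-(1 / 1000 : ℝ))} : ℝ) ≤ C * r ^ (1 - 1 / 8000 : ℝ) := by
  refine ⟨12, by norm_num, ?_⟩
  intro q hq2 hq5 r b hr hb
  have hb1 : 1 ≤ b := by
    have h1 : (1 : ℝ) ≤ r ^ (1 - 1 / 2000 : ℝ) := Real.one_le_rpow hr (by norm_num)
    exact_mod_cast h1.trans hb
  have hb0 : (0 : ℝ) ≤ b := by positivity
  obtain rfl | rfl | rfl | rfl : q = 2 ∨ q = 3 ∨ q = 4 ∨ q = 5 := by omega
  · -- q = 2
    refine cover 1 (by norm_num) ![0] r hr b hb _ ?_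
    rintro x ⟨h1, h2⟩
    have h3 := im_bound 2 r hr b hb1 x h1 h2
    refine lt_of_le_of_lt ?_ h3
    have e : ((((x : ℂ) + b * Complex.I) ^ 2).im : ℝ) = b * (2 * (x : ℝ)) := by
      simp [pow_succ, Complex.mul_re, Complex.mul_im]; ring
    rw [e, abs_mul, abs_of_nonneg hb0, abs_mul]
    simp only [Fin.prod_univ_one, Matrix.cons_val_zero, sub_zero]
    refine mul_le_mul_of_nonneg_left ?_ hb0
    rw [abs_of_nonneg (by norm_num : (0 : ℝ) ≤ 2)]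
    nlinarith [abs_nonneg (x : ℝ)]
  · -- q = 3
    set s : ℝ := Real.sqrt 3 with hs
    have hs2 : s ^ 2 = 3 := Real.sq_sqrt (by norm_num)
    have hs0 : s ≠ 0 := by rw [hs]; positivity
    refine cover 2 (by norm_num) ![(b : ℝ) / s, -((b : ℝ) / s)] r hr b hb _ ?_
    rintro x ⟨h1, h2⟩
    have h3 := im_bound 3 r hr b hb1 x h1 h2
    refine lt_of_le_of_lt ?_ h3
    have e : ((((x : ℂ) + b * Complex.I) ^ 3).im : ℝ) =
        b * (3 * (((x : ℝ) - b / s) * ((x : ℝ) - -(b / s)))) := by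
      have e1 : ((((x : ℂ) + b * Complex.I) ^ 3).im : ℝ) = b * (3 * (x : ℝ) ^ 2 - (b : ℝ) ^ 2) := by
        simp [pow_succ, Complex.mul_re, Complex.mul_im]; ring
      have e2 : 3 * (((x : ℝ) - b / s) * ((x : ℝ) - -(b / s))) =
          3 * (x : ℝ) ^ 2 - 3 * ((b : ℝ) ^ 2 / s ^ 2) := by field_simp; ring
      rw [e1, e2, hs2]
      ring
    rw [e, abs_mul, abs_of_nonneg hb0, abs_mul, abs_mul]
    simp only [Fin.prod_univ_two, Matrix.cons_val_zero, Matrix.cons_val_one]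
    refine mul_le_mul_of_nonneg_left ?_ hb0
    rw [abs_of_nonneg (by norm_num : (0 : ℝ) ≤ 3)]
    nlinarith [mul_nonneg (abs_nonneg ((x : ℝ) - b / s)) (abs_nonneg ((x : ℝ) - -(b / s)))]
  · -- q = 4
    refine cover 3 (by norm_num) ![0, (b : ℝ), -(b : ℝ)] r hr b hb _ ?_
    rintro x ⟨h1, h2⟩
    have h3 := im_bound 4 r hr b hb1 x h1 h2
    refine lt_of_le_of_lt ?_ h3
    have e : ((((x : ℂ) + b * Complex.I) ^ 4).im : ℝ) =
        b * (4 * (((x : ℝ) - 0) * ((x : ℝ) - b) * ((x : ℝ) - -b))) := by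
      simp [pow_succ, Complex.mul_re, Complex.mul_im]; ring
    rw [e, abs_mul, abs_of_nonneg hb0, abs_mul, abs_mul, abs_mul]
    rw [Fin.prod_univ_three]
    simp only [Matrix.cons_val_zero, Matrix.cons_val_one, Matrix.cons_val_two, Matrix.head_cons,
      Matrix.tail_cons]
    refine mul_le_mul_of_nonneg_left ?_ hb0
    rw [abs_of_nonneg (by norm_num : (0 : ℝ) ≤ 4)]
    nlinarith [mul_nonneg (mul_nonneg (abs_nonneg ((x : ℝ) - 0)) (abs_nonneg ((x : ℝ) - b)))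
      (abs_nonneg ((x : ℝ) - -b))]
  · -- q = 5
    set t : ℝ := 2 / Real.sqrt 5 with ht
    have ht2 : t ^ 2 = 4 / 5 := by
      rw [ht, div_pow, Real.sq_sqrt (by norm_num)]; norm_num
    have ht0 : 0 ≤ t := by rw [ht]; positivity
    have ht1 : t < 1 := by nlinarith
    set u : ℝ := Real.sqrt (1 + t) with hu
    set v : ℝ := Real.sqrt (1 - t) with hv
    have hu2 : u ^ 2 = 1 + t := Real.sq_sqrt (by linarith)
    have hv2 : v ^ 2 = 1 - t := Real.sq_sqrt (by linarith)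
    refine cover 4 (by norm_num) ![b * u, -(b * u), b * v, -(b * v)] r hr b hb _ ?_
    rintro x ⟨h1, h2⟩
    have h3 := im_bound 5 r hr b hb1 x h1 h2
    refine lt_of_le_of_lt ?_ h3
    have e : ((((x : ℂ) + b * Complex.I) ^ 5).im : ℝ) =
        b * (5 * (((x : ℝ) - b * u) * ((x : ℝ) - -(b * u)) * ((x : ℝ) - b * v) *
          ((x : ℝ) - -(b * v)))) := by
      have e1 : ((((x : ℂ) + b * Complex.I) ^ 5).im : ℝ) =
          b * (5 * (x : ℝ) ^ 4 - 10 * (x : ℝ) ^ 2 * (b : ℝ) ^ 2 + (b : ℝ) ^ 4) := by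
        simp [pow_succ, Complex.mul_re, Complex.mul_im]; ring
      have e2 : ((x : ℝ) - b * u) * ((x : ℝ) - -(b * u)) * ((x : ℝ) - b * v) *
          ((x : ℝ) - -(b * v)) = ((x : ℝ) ^ 2 - b ^ 2 * u ^ 2) * ((x : ℝ) ^ 2 - b ^ 2 * v ^ 2) := by
        ring
      rw [e1, e2, hu2, hv2]
      have e3 : 5 * (((x : ℝ) ^ 2 - b ^ 2 * (1 + t)) * ((x : ℝ) ^ 2 - b ^ 2 * (1 - t))) =
          5 * (x : ℝ) ^ 4 - 10 * (x : ℝ) ^ 2 * (b : ℝ) ^ 2 + 5 * (b : ℝ) ^ 4 * (1 - t ^ 2) := by ring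
      rw [e3, ht2]
      ring
    rw [e, abs_mul, abs_of_nonneg hb0, abs_mul, abs_mul, abs_mul, abs_mul]
    rw [Fin.prod_univ_four]
    simp only [Matrix.cons_val_zero, Matrix.cons_val_one, Matrix.cons_val_two, Matrix.cons_val_three,
      Matrix.head_cons, Matrix.tail_cons]
    refine mul_le_mul_of_nonneg_left ?_ hb0
    rw [abs_of_nonneg (by norm_num : (0 : ℝ) ≤ 5)]
    nlinarith [mul_nonneg (mul_nonneg (mul_nonneg (abs_nonneg ((x : ℝ) - b * u))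
      (abs_nonneg ((x : ℝ) - -(b * u)))) (abs_nonneg ((x : ℝ) - b * v)))
      (abs_nonneg ((x : ℝ) - -(b * v)))]

end Pool.Agent.GaussMR
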