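import Pool.Agent.Lib_MP_f1a94e_mr.ArgDeriv
import Pool.Agent.Lib_MP_f1a94e_mr.Bad
import Pool.Agent.Lib_MP_f1a94e_mr.Ball

/-!
# Piece MIDJ: the sum of `xi j` over a disc, `t^(3/20) ≤ |j| ≤ t^(11/5)`, from the statement of `block`
-/

set_option autoImplicit false

namespace Pool.Agent.GaussMR

/-- the statement of `block` (Block.lean) -/
def BlockS : Prop := ∃ C : ℝ, 0 < C ∧ ∀ (q : ℕ), 2 ≤ q → q ≤ 5 → ∀ (r : ℝ) (j : ℤ) (b : ℕ) (x0 x1 y : ℤ),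
    1 ≤ r → r ^ ((q : ℝ) - 17 / 10) ≤ |(j : ℝ)| → |(j : ℝ)| ≤ r ^ ((q : ℝ) - 2 ^ q / 64 - 1 / 100) →
    r ^ (1 - 1 / 1000 : ℝ) ≤ b → x0 ≤ x1 → (x1 : ℝ) - x0 ≤ r ^ (1 - 1 / 125 : ℝ) →
    (x0 : ℝ) ^ 2 + (b : ℝ) ^ 2 ≤ r ^ 2 → (x1 : ℝ) ^ 2 + (b : ℝ) ^ 2 ≤ r ^ 2 →
    x0 ≤ y → y ≤ x1 →
    r ^ (-(1 / 1000 : ℝ)) ≤ |(((y : ℂ) + b * Complex.I) ^ (-(q : ℤ))).im| *
      ‖(y : ℂ) + b * Complex.I‖ ^ q →
    ‖∑ x ∈ Finset.Icc x0 x1, xi j ⟨x, b⟩‖ ≤ C * r ^ (1 - 1 / 125 - 1 / 500 : ℝ)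

/-- the statement of `row_bound` (MidJ.lean) -/
def RowS : Prop := ∃ C : ℝ, 0 < C ∧ ∀ (q : ℕ), 2 ≤ q → q ≤ 5 → ∀ (r : ℝ) (j : ℤ) (b : ℕ) (s : ℕ),
    1 ≤ r → r ^ ((q : ℝ) - 17 / 10) ≤ |(j : ℝ)| → |(j : ℝ)| ≤ r ^ ((q : ℝ) - 2 ^ q / 64 - 1 / 100) →
    r ^ (1 - 1 / 2000 : ℝ) ≤ b → (s : ℝ) ^ 2 + (b : ℝ) ^ 2 ≤ r ^ 2 →
    ‖∑ x ∈ Finset.Icc (-(s : ℤ)) s, xi j ⟨x, b⟩‖ ≤ C * r ^ (1 - 1 / 8000 : ℝ)

/-- the statement of `mid_j` (MidJ.lean) -/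
def MidS : Prop := ∃ C : ℝ, 0 < C ∧ ∀ (t : ℝ) (j : ℤ), 1 ≤ t → t ^ (3 / 20 : ℝ) ≤ |(j : ℝ)| →
    |(j : ℝ)| ≤ t ^ (11 / 5 : ℝ) → ‖∑ z ∈ ball t, xi j z‖ ≤ C * t ^ (1 - 1 / 16000 : ℝ)

theorem norm_xi_le_one (k : ℤ) (z : G) : ‖xi k z‖ ≤ 1 := by
  by_cases h : z = 0
  · subst h
    unfold xi dir
    have h0 : (((0 : G) : G) : ℂ) = 0 := by simp
    rw [h0, zero_div]
    rcases eq_or_ne k 0 with hk | hk
    · subst hk; simp
    · rw [zero_zpow k hk]; simp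
  · exact (norm_xi k h).le

theorem blocks_bound (φ : ℤ → ℂ) (hφ : ∀ x, ‖φ x‖ ≤ 1) (bad : ℤ → Prop) [DecidablePred bad]
    (m : ℕ) (A : ℝ) (hA : 0 ≤ A) (u0 v0 : ℤ)
    (h : ∀ x0 x1 y : ℤ, u0 ≤ x0 → x1 ≤ v0 → x0 ≤ y → y ≤ x1 → x1 - x0 ≤ m → ¬ bad y →
      ‖∑ x ∈ Finset.Icc x0 x1, φ x‖ ≤ A) :
    ∀ (n : ℕ) (u : ℤ), u0 ≤ u → v0 - u < n * (m + 1) →
      ‖∑ x ∈ Finset.Icc u v0, φ x‖ ≤ n * A + ∑ x ∈ Finset.Icc u v0, (if bad x then (1 : ℝ) else 0) := by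
  have hbad0 : ∀ s : Finset ℤ, 0 ≤ ∑ x ∈ s, (if bad x then (1 : ℝ) else 0) := fun s =>
    Finset.sum_nonneg (fun x _ => by split_ifs <;> norm_num)
  intro n
  induction n with
  | zero =>
    intro u hu hlt
    have he : Finset.Icc u v0 = ∅ := Finset.Icc_eq_empty (by push_cast at hlt; omega)
    rw [he]; simp
  | succ n ih =>
    intro u hu hlt
    by_cases huv : v0 < u
    · have he : Finset.Icc u v0 = ∅ := Finset.Icc_eq_empty (by omega)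
      rw [he]; simp; positivity
    push Not at huv
    set w : ℤ := min v0 (u + m) with hw
    have hw1 : w ≤ v0 := min_le_left _ _
    have hw2 : w ≤ u + m := min_le_right _ _
    have hw3 : u ≤ w := le_min huv (by omega)
    have hsplit : Finset.Icc u v0 = Finset.Icc u w ∪ Finset.Icc (w + 1) v0 := by
      ext x; simp only [Finset.mem_Icc, Finset.mem_union]; omega
    have hd : Disjoint (Finset.Icc u w) (Finset.Icc (w + 1) v0) := by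
      rw [Finset.disjoint_left]; intro x; simp only [Finset.mem_Icc]; omega
    have hnn : (0 : ℤ) ≤ n * (m + 1) := by positivity
    have hlt' : v0 - (w + 1) < n * (m + 1) := by
      rcases min_choice v0 (u + (m : ℤ)) with hc | hc
      · rw [← hw] at hc; omega
      · rw [← hw] at hc
        have : v0 - u < n * (m + 1) + (m + 1) := by
          have e : ((n + 1 : ℕ) : ℤ) * (m + 1) = n * (m + 1) + (m + 1) := by push_cast; ring
          rw [e] at hlt; exact hlt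
        omega
    have ih' := ih (w + 1) (by omega) hlt'
    rw [hsplit, Finset.sum_union hd, Finset.sum_union hd]
    have hfirst : ‖∑ x ∈ Finset.Icc u w, φ x‖ ≤
        A + ∑ x ∈ Finset.Icc u w, (if bad x then (1 : ℝ) else 0) := by
      by_cases hg : ∃ y ∈ Finset.Icc u w, ¬ bad y
      · obtain ⟨y, hy, hyb⟩ := hg
        rw [Finset.mem_Icc] at hy
        have := h u w y hu hw1 hy.1 hy.2 (by omega) hyb
        have := hbad0 (Finset.Icc u w)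
        linarith
      · push Not at hg
        have h1 : ∑ x ∈ Finset.Icc u w, (if bad x then (1 : ℝ) else 0) =
            ∑ x ∈ Finset.Icc u w, (1 : ℝ) :=
          Finset.sum_congr rfl (fun x hx => by rw [if_pos (hg x hx)])
        rw [h1]
        have h2 : ‖∑ x ∈ Finset.Icc u w, φ x‖ ≤ ∑ x ∈ Finset.Icc u w, (1 : ℝ) :=
          (norm_sum_le _ _).trans (Finset.sum_le_sum (fun x _ => hφ x))
        linarith
    have := norm_add_le (∑ x ∈ Finset.Icc u w, φ x) (∑ x ∈ Finset.Icc (w + 1) v0, φ x)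
    push_cast
    linarith

theorem row_bound_of (hB : BlockS) : RowS := by
  classical
  obtain ⟨C1, hC1, hblock⟩ := hB
  obtain ⟨C2, hC2, hbad⟩ := bad_card
  refine ⟨3 * C1 + C2, by positivity, ?_⟩
  intro q hq2 hq5 r j b s hr hj1 hj2 hb hs
  have hr0 : 0 < r := by linarith
  set L : ℝ := r ^ (1 - 1 / 125 : ℝ) with hL
  have hL1 : 1 ≤ L := Real.one_le_rpow hr (by norm_num)
  set m : ℕ := ⌊L⌋₊ with hm
  have hmL : (m : ℝ) ≤ L := Nat.floor_le (by linarith)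
  have hLm : L < m + 1 := Nat.lt_floor_add_one L
  set bad : ℤ → Prop := fun x => |(((x : ℂ) + b * Complex.I) ^ (-(q : ℤ))).im| *
      ‖(x : ℂ) + b * Complex.I‖ ^ q < r ^ (-(1 / 1000 : ℝ)) with hbaddef
  set A : ℝ := C1 * r ^ (1 - 1 / 125 - 1 / 500 : ℝ) with hAdef
  have hA : 0 ≤ A := by positivity
  have hsr : (s : ℝ) ≤ r := by
    have h1 : (s : ℝ) ^ 2 ≤ r ^ 2 := by nlinarith [sq_nonneg (b : ℝ)]
    exact abs_le_of_sq_le_sq' h1 hr0.le |>.2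
  have hsq : ∀ x : ℤ, -(s : ℤ) ≤ x → x ≤ s → (x : ℝ) ^ 2 + (b : ℝ) ^ 2 ≤ r ^ 2 := by
    intro x hx1 hx2
    have h1 : (x : ℝ) ≤ s := by exact_mod_cast hx2
    have h2 : -(s : ℝ) ≤ x := by exact_mod_cast hx1
    have h3 : (x : ℝ) ^ 2 ≤ (s : ℝ) ^ 2 := by nlinarith
    linarith
  have hb' : r ^ (1 - 1 / 1000 : ℝ) ≤ b :=
    (Real.rpow_le_rpow_of_exponent_le hr (by norm_num)).trans hb
  have hgood : ∀ x0 x1 y : ℤ, -(s : ℤ) ≤ x0 → x1 ≤ s → x0 ≤ y → y ≤ x1 → x1 - x0 ≤ m → ¬ bad y →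
      ‖∑ x ∈ Finset.Icc x0 x1, xi j ⟨x, b⟩‖ ≤ A := by
    intro x0 x1 y h1 h2 h3 h4 h5 h6
    refine hblock q hq2 hq5 r j b x0 x1 y hr hj1 hj2 hb' (by omega) ?_ (hsq _ h1 (by omega))
      (hsq _ (by omega) h2) h3 h4 (not_lt.1 h6)
    have h7 : ((x1 - x0 : ℤ) : ℝ) ≤ (m : ℝ) := by exact_mod_cast h5
    push_cast at h7
    linarith
  set n : ℕ := 2 * s / (m + 1) + 1 with hn
  have hn1 : 2 * s < n * (m + 1) := by
    have := Nat.lt_mul_div_succ (2 * s) (Nat.succ_pos m)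
    rw [hn, Nat.mul_comm (2 * s / (m + 1) + 1) (m + 1)]
    exact this
  have key := blocks_bound (fun x => xi j ⟨x, b⟩) (fun x => norm_xi_le_one j _) bad m A hA
    (-(s : ℤ)) s hgood n (-(s : ℤ)) le_rfl (by
      have : ((2 * s : ℕ) : ℤ) < ((n * (m + 1) : ℕ) : ℤ) := by exact_mod_cast hn1
      push_cast at this ⊢
      linarith)
  have hnle : (n : ℝ) ≤ 3 * r ^ (1 / 125 : ℝ) := by
    have h1 : ((2 * s / (m + 1) : ℕ) : ℝ) ≤ ((2 * s : ℕ) : ℝ) / ((m + 1 : ℕ) : ℝ) := Nat.cast_div_le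
    have h2 : ((2 * s : ℕ) : ℝ) / ((m + 1 : ℕ) : ℝ) ≤ 2 * r / L := by
      push_cast
      apply div_le_div₀ <;> first | positivity | linarith
    have h3 : 2 * r / L = 2 * r ^ (1 / 125 : ℝ) := by
      rw [hL, mul_div_assoc]
      congr 1
      rw [div_eq_iff (by positivity), ← Real.rpow_add hr0]
      norm_num
    have h4 : (1 : ℝ) ≤ r ^ (1 / 125 : ℝ) := Real.one_le_rpow hr (by norm_num)
    rw [hn]
    push_cast at h1 ⊢
    push_cast at h2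
    linarith
  have hnA : n * A ≤ 3 * C1 * r ^ (1 - 1 / 8000 : ℝ) := by
    calc (n : ℝ) * A ≤ (3 * r ^ (1 / 125 : ℝ)) * A := mul_le_mul_of_nonneg_right hnle hA
      _ = 3 * C1 * r ^ (1 - 1 / 500 : ℝ) := by
        rw [hAdef]
        have : r ^ (1 / 125 : ℝ) * r ^ (1 - 1 / 125 - 1 / 500 : ℝ) = r ^ (1 - 1 / 500 : ℝ) := by
          rw [← Real.rpow_add hr0]; norm_num
        rw [← this]; ring
      _ ≤ _ := by
        apply mul_le_mul_of_nonneg_left _ (by positivity)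
        exact Real.rpow_le_rpow_of_exponent_le hr (by norm_num)
  have hbadsum : ∑ x ∈ Finset.Icc (-(s : ℤ)) s, (if bad x then (1 : ℝ) else 0) ≤
      C2 * r ^ (1 - 1 / 8000 : ℝ) := by
    refine le_trans ?_ (hbad q hq2 hq5 r b hr hb)
    rw [← Finset.sum_filter, Finset.sum_const, nsmul_eq_mul, mul_one]
    have hfin : {x : ℤ | (x : ℝ) ^ 2 + (b : ℝ) ^ 2 ≤ r ^ 2 ∧
      |(((x : ℂ) + b * Complex.I) ^ (-(q : ℤ))).im| * ‖(x : ℂ) + b * Complex.I‖ ^ q <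
        r ^ (-(1 / 1000 : ℝ))}.Finite := by
      apply (Set.finite_Icc (-(⌈r⌉₊ : ℤ)) ⌈r⌉₊).subset
      rintro x ⟨hx, -⟩
      have h1 : (x : ℝ) ^ 2 ≤ r ^ 2 := by nlinarith [sq_nonneg (b : ℝ)]
      have h2 := abs_le_of_sq_le_sq' h1 hr0.le
      have h3 : r ≤ (⌈r⌉₊ : ℝ) := Nat.le_ceil r
      constructor
      · have : (-(⌈r⌉₊ : ℝ)) ≤ x := by linarith [h2.1]
        exact_mod_cast this
      · have : (x : ℝ) ≤ (⌈r⌉₊ : ℝ) := by linarith [h2.2]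
        exact_mod_cast this
    rw [← Set.ncard_coe_finset]
    refine Nat.cast_le.2 (Set.ncard_le_ncard ?_ hfin)
    intro x hx
    simp only [Finset.coe_filter, Finset.mem_Icc, Set.mem_setOf_eq] at hx
    exact ⟨hsq x hx.1.1 hx.1.2, hx.2⟩
  calc ‖∑ x ∈ Finset.Icc (-(s : ℤ)) s, xi j ⟨x, b⟩‖ ≤ _ := key
    _ ≤ _ := by rw [add_mul]; linarith

/-- the row of a disc -/
theorem row_eq (t : ℝ) (b : ℤ) (hb : (b : ℝ) ^ 2 ≤ t) :
    (ball t).filter (fun z => z.im = b) =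
      (Finset.Icc (-(⌊Real.sqrt (t - (b : ℝ) ^ 2)⌋₊ : ℤ)) ⌊Real.sqrt (t - (b : ℝ) ^ 2)⌋₊).map
        ⟨fun x => (⟨x, b⟩ : G), fun x y h => by simpa using congrArg Zsqrtd.re h⟩ := by
  classical
  ext z
  rw [Finset.mem_filter, mem_ball, Finset.mem_map]
  have hnm : (nm z : ℝ) = (z.re : ℝ) ^ 2 + (z.im : ℝ) ^ 2 := by
    have := nm_eq z
    have h : ((nm z : ℤ) : ℝ) = ((z.re ^ 2 + z.im ^ 2 : ℤ) : ℝ) := by rw [this]
    push_cast at h; exact h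
  have hs0 : 0 ≤ t - (b : ℝ) ^ 2 := by linarith
  set s := ⌊Real.sqrt (t - (b : ℝ) ^ 2)⌋₊ with hs
  have hkey : ∀ x : ℤ, (-(s : ℤ) ≤ x ∧ x ≤ s) ↔ (x : ℝ) ^ 2 ≤ t - (b : ℝ) ^ 2 := by
    intro x
    rw [← abs_le]
    have h1 : |x| = (x.natAbs : ℤ) := Int.abs_eq_natAbs x
    rw [h1, Nat.cast_le, hs, Nat.le_floor_iff (Real.sqrt_nonneg _), Nat.cast_natAbs, Int.cast_abs,
      Real.le_sqrt (abs_nonneg _) hs0, sq_abs]
  constructor
  · rintro ⟨h1, h2⟩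
    refine ⟨z.re, ?_, ?_⟩
    · rw [Finset.mem_Icc, hkey, ← h2]
      rw [hnm] at h1
      linarith
    · simp only [Function.Embedding.coeFn_mk]
      rw [← h2]
  · rintro ⟨x, hx, rfl⟩
    rw [Finset.mem_Icc, hkey] at hx
    simp only [Function.Embedding.coeFn_mk] at hnm ⊢
    refine ⟨?_, trivial⟩
    rw [hnm]; linarith

theorem sum_ball_rows (t : ℝ) (ht : 0 ≤ t) (f : G → ℂ) :
    ∑ z ∈ ball t, f z = ∑ b ∈ Finset.Icc (-(⌊Real.sqrt t⌋₊ : ℤ)) ⌊Real.sqrt t⌋₊,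
      ∑ x ∈ Finset.Icc (-(⌊Real.sqrt (t - (b : ℝ) ^ 2)⌋₊ : ℤ)) ⌊Real.sqrt (t - (b : ℝ) ^ 2)⌋₊,
        f ⟨x, b⟩ := by
  classical
  have hmaps : ∀ z ∈ ball t, z.im ∈ Finset.Icc (-(⌊Real.sqrt t⌋₊ : ℤ)) ⌊Real.sqrt t⌋₊ := by
    intro z hz
    rw [mem_ball] at hz
    have hnm : (nm z : ℝ) = (z.re : ℝ) ^ 2 + (z.im : ℝ) ^ 2 := by
      have := nm_eq z
      have h : ((nm z : ℤ) : ℝ) = ((z.re ^ 2 + z.im ^ 2 : ℤ) : ℝ) := by rw [this]
      push_cast at h; exact h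
    rw [Finset.mem_Icc, ← abs_le, Int.abs_eq_natAbs, Nat.cast_le,
      Nat.le_floor_iff (Real.sqrt_nonneg _), Nat.cast_natAbs, Int.cast_abs,
      Real.le_sqrt (abs_nonneg _) ht, sq_abs]
    nlinarith [sq_nonneg (z.re : ℝ)]
  rw [← Finset.sum_fiberwise_of_maps_to hmaps]
  apply Finset.sum_congr rfl
  intro b hb
  have hb2 : (b : ℝ) ^ 2 ≤ t := by
    rw [Finset.mem_Icc, ← abs_le, Int.abs_eq_natAbs, Nat.cast_le,
      Nat.le_floor_iff (Real.sqrt_nonneg _), Nat.cast_natAbs, Int.cast_abs,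
      Real.le_sqrt (abs_nonneg _) ht, sq_abs] at hb
    exact hb
  rw [row_eq t b hb2, Finset.sum_map]
  rfl

/-- `r = √t`. Choose `q ∈ {2,3,4,5}` with `r^(q - 17/10) ≤ |j| ≤ r^(q - 2^q/64 - 1/100)` (the ranges of
exponents `[0.3, 1.9275]`, `[1.3, 2.865]`, `[2.3, 3.74]`, `[3.3, 4.49]` cover `[0.3, 4.4]`). Rows
`0 < b < r^(1-1/2000)` trivially; other rows `b ≤ r` are cut into at most `2 r / L + 2` blocks of length
`≤ L = r^(1-1/125)`: blocks containing a good point by `block`, blocks consisting of bad points by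
`bad_card`. Rows `b < 0` by conjugation (`xi_star`), the row `b = 0` trivially. -/
theorem mid_j_of (hR : RowS) : MidS := by
  classical
  obtain ⟨C, hC, hrow⟩ := hR
  refine ⟨3 * C + 9, by positivity, ?_⟩
  intro t j ht hj1 hj2
  have ht0 : 0 < t := by linarith
  set r : ℝ := Real.sqrt t with hr
  have hr1 : 1 ≤ r := by rw [hr]; exact Real.one_le_sqrt.2 ht
  have hr0 : 0 < r := by linarith
  have hrt : r ^ 2 = t := Real.sq_sqrt ht0.le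
  have htr : ∀ a : ℝ, t ^ a = r ^ (2 * a) := by
    intro a
    rw [← hrt, ← Real.rpow_natCast r 2, ← Real.rpow_mul hr0.le]
    norm_num
  rw [htr] at hj1 hj2
  -- choice of q
  obtain ⟨q, hq2, hq5, hqa, hqb⟩ : ∃ q : ℕ, 2 ≤ q ∧ q ≤ 5 ∧ r ^ ((q : ℝ) - 17 / 10) ≤ |(j : ℝ)| ∧
      |(j : ℝ)| ≤ r ^ ((q : ℝ) - 2 ^ q / 64 - 1 / 100) := by
    by_cases h2 : |(j : ℝ)| ≤ r ^ (((2 : ℕ) : ℝ) - 2 ^ 2 / 64 - 1 / 100)
    · exact ⟨2, le_rfl, by norm_num,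
        (Real.rpow_le_rpow_of_exponent_le hr1 (by norm_num)).trans hj1, h2⟩
    push Not at h2
    by_cases h3 : |(j : ℝ)| ≤ r ^ (((3 : ℕ) : ℝ) - 2 ^ 3 / 64 - 1 / 100)
    · exact ⟨3, by norm_num, by norm_num,
        (Real.rpow_le_rpow_of_exponent_le hr1 (by norm_num)).trans h2.le, h3⟩
    push Not at h3
    by_cases h4 : |(j : ℝ)| ≤ r ^ (((4 : ℕ) : ℝ) - 2 ^ 4 / 64 - 1 / 100)
    · exact ⟨4, by norm_num, by norm_num,
        (Real.rpow_le_rpow_of_exponent_le hr1 (by norm_num)).trans h3.le, h4⟩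
    push Not at h4
    exact ⟨5, by norm_num, le_rfl,
        (Real.rpow_le_rpow_of_exponent_le hr1 (by norm_num)).trans h4.le,
        hj2.trans (Real.rpow_le_rpow_of_exponent_le hr1 (by norm_num))⟩
  set y : ℝ := r ^ (1 - 1 / 2000 : ℝ) with hy
  have hy1 : 1 ≤ y := Real.one_le_rpow hr1 (by norm_num)
  set B : ℝ := C * r ^ (1 - 1 / 8000 : ℝ) with hB
  have hB0 : 0 ≤ B := by positivity
  rw [sum_ball_rows t ht0.le]
  -- bound of one row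
  have hone : ∀ b ∈ Finset.Icc (-(⌊r⌋₊ : ℤ)) ⌊r⌋₊,
      ‖∑ x ∈ Finset.Icc (-(⌊Real.sqrt (t - (b : ℝ) ^ 2)⌋₊ : ℤ)) ⌊Real.sqrt (t - (b : ℝ) ^ 2)⌋₊,
        xi j ⟨x, b⟩‖ ≤ B + (if (b.natAbs : ℝ) < y then 3 * r else 0) := by
    intro b hb
    have hb2 : (b : ℝ) ^ 2 ≤ t := by
      rw [Finset.mem_Icc, ← abs_le, Int.abs_eq_natAbs, Nat.cast_le,
        Nat.le_floor_iff hr0.le, Nat.cast_natAbs, Int.cast_abs, hr,
        Real.le_sqrt (abs_nonneg _) ht0.le, sq_abs] at hb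
      exact hb
    have hs0 : 0 ≤ t - (b : ℝ) ^ 2 := by linarith
    set s := ⌊Real.sqrt (t - (b : ℝ) ^ 2)⌋₊ with hs
    have hs1 : (s : ℝ) ≤ Real.sqrt (t - (b : ℝ) ^ 2) := Nat.floor_le (Real.sqrt_nonneg _)
    have hs2 : (s : ℝ) ^ 2 ≤ t - (b : ℝ) ^ 2 := by
      rw [← Real.sq_sqrt hs0]
      exact pow_le_pow_left₀ (by positivity) hs1 2
    have hsr : (s : ℝ) ≤ r := by
      rw [hr]
      exact hs1.trans (Real.sqrt_le_sqrt (by nlinarith [sq_nonneg (b : ℝ)]))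
    by_cases hby : (b.natAbs : ℝ) < y
    · rw [if_pos hby]
      have h1 : ‖∑ x ∈ Finset.Icc (-(s : ℤ)) s, xi j ⟨x, b⟩‖ ≤
          ∑ x ∈ Finset.Icc (-(s : ℤ)) s, (1 : ℝ) :=
        (norm_sum_le _ _).trans (Finset.sum_le_sum (fun x _ => norm_xi_le_one j _))
      have h2 : ∑ x ∈ Finset.Icc (-(s : ℤ)) s, (1 : ℝ) = 2 * s + 1 := by
        rw [Finset.sum_const, Int.card_Icc, nsmul_eq_mul, mul_one]
        have : ((s : ℤ) + 1 - -(s : ℤ)).toNat = 2 * s + 1 := by omega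
        rw [this]; push_cast; ring
      rw [h2] at h1
      linarith
    · rw [if_neg hby, add_zero]
      push Not at hby
      have hab : ((b.natAbs : ℕ) : ℝ) ^ 2 = (b : ℝ) ^ 2 := by
        rw [Nat.cast_natAbs, Int.cast_abs, sq_abs]
      have h1 := hrow q hq2 hq5 r j b.natAbs s hr1 hqa hqb hby (by rw [hab, hrt]; linarith)
      rcases Int.natAbs_eq b with hbb | hbb
      · rw [← hbb] at h1
        exact h1
      · have hbne : b ≠ 0 := by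
          rintro rfl
          simp at hby
          linarith
        have h2 : ∑ x ∈ Finset.Icc (-(s : ℤ)) s, xi j ⟨x, b⟩ =
            (starRingEnd ℂ) (∑ x ∈ Finset.Icc (-(s : ℤ)) s, xi j ⟨x, (b.natAbs : ℤ)⟩) := by
          rw [map_sum]
          apply Finset.sum_congr rfl
          intro x _
          have hz : (⟨x, (b.natAbs : ℤ)⟩ : G) ≠ 0 := by
            intro h
            have := congrArg Zsqrtd.im h
            simp at this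
            exact hbne this
          rw [conj_xi j hz, ← xi_star j hz]
          congr 1
          apply Zsqrtd.ext
          · simp
          · simp only [Zsqrtd.im_star]
            exact hbb
        rw [h2, RCLike.norm_conj]
        exact h1
  have hR : ((⌊r⌋₊ : ℕ) : ℝ) ≤ r := Nat.floor_le hr0.le
  have hcount : ∑ b ∈ Finset.Icc (-(⌊r⌋₊ : ℤ)) ⌊r⌋₊, (if (b.natAbs : ℝ) < y then 3 * r else 0) ≤
      (3 * y) * (3 * r) := by
    rw [← Finset.sum_filter, Finset.sum_const, nsmul_eq_mul]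
    apply mul_le_mul_of_nonneg_right _ (by positivity)
    have hsub : (Finset.Icc (-(⌊r⌋₊ : ℤ)) ⌊r⌋₊).filter (fun b => (b.natAbs : ℝ) < y) ⊆
        Finset.Icc (-(⌊y⌋₊ : ℤ)) ⌊y⌋₊ := by
      intro b hb
      rw [Finset.mem_filter] at hb
      rw [Finset.mem_Icc, ← abs_le, Int.abs_eq_natAbs, Nat.cast_le,
        Nat.le_floor_iff (by linarith)]
      exact hb.2.le
    have h1 := Finset.card_le_card hsub
    rw [Int.card_Icc] at h1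
    have h2 : ((⌊y⌋₊ : ℤ) + 1 - -(⌊y⌋₊ : ℤ)).toNat = 2 * ⌊y⌋₊ + 1 := by omega
    rw [h2] at h1
    have h3 : ((⌊y⌋₊ : ℕ) : ℝ) ≤ y := Nat.floor_le (by linarith)
    have h4 : ((((Finset.Icc (-(⌊r⌋₊ : ℤ)) ⌊r⌋₊).filter (fun b => (b.natAbs : ℝ) < y)).card : ℕ) : ℝ)
        ≤ ((2 * ⌊y⌋₊ + 1 : ℕ) : ℝ) := by exact_mod_cast h1
    push_cast at h4
    linarith
  have hBsum : ∑ b ∈ Finset.Icc (-(⌊r⌋₊ : ℤ)) ⌊r⌋₊, B ≤ (3 * r) * B := by
    rw [Finset.sum_const, Int.card_Icc, nsmul_eq_mul]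
    apply mul_le_mul_of_nonneg_right _ hB0
    have : ((⌊r⌋₊ : ℤ) + 1 - -(⌊r⌋₊ : ℤ)).toNat = 2 * ⌊r⌋₊ + 1 := by omega
    rw [this]; push_cast; linarith
  have htot : ‖∑ b ∈ Finset.Icc (-(⌊r⌋₊ : ℤ)) ⌊r⌋₊,
      ∑ x ∈ Finset.Icc (-(⌊Real.sqrt (t - (b : ℝ) ^ 2)⌋₊ : ℤ)) ⌊Real.sqrt (t - (b : ℝ) ^ 2)⌋₊,
        xi j ⟨x, b⟩‖ ≤ (3 * r) * B + (3 * y) * (3 * r) := by
    refine (norm_sum_le _ _).trans ((Finset.sum_le_sum hone).trans ?_)
    rw [Finset.sum_add_distrib]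
    linarith
  refine htot.trans ?_
  rw [htr]
  have e1 : r * r ^ (1 - 1 / 8000 : ℝ) = r ^ (2 * (1 - 1 / 16000) : ℝ) := by
    nth_rewrite 1 [← Real.rpow_one r]
    rw [← Real.rpow_add hr0]; norm_num
  have e2 : y * r ≤ r ^ (2 * (1 - 1 / 16000) : ℝ) := by
    rw [hy]
    nth_rewrite 2 [← Real.rpow_one r]
    rw [← Real.rpow_add hr0]
    exact Real.rpow_le_rpow_of_exponent_le hr1 (by norm_num)
  calc (3 * r) * B + (3 * y) * (3 * r) = 3 * C * (r * r ^ (1 - 1 / 8000 : ℝ)) + 9 * (y * r) := by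
        rw [hB]; ring
    _ ≤ 3 * C * r ^ (2 * (1 - 1 / 16000) : ℝ) + 9 * r ^ (2 * (1 - 1 / 16000) : ℝ) := by
        rw [e1]; linarith
    _ = _ := by ring

end Pool.Agent.GaussMR
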