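import Pool.Agent.Lib_MP_f1a94e_mr.Ball
import Pool.Agent.Lib_MP_f1a94e_mr.Split

/-!
# Piece ANNULUS: second moment of `om` on an annulus
-/

set_option autoImplicit false

namespace Pool.Agent.GaussMR

open Classical in
theorem om_eq_card (P Q : ℝ) (z : G) : om P Q z = (((PP P Q).filter (fun w => w ∣ z)).card : ℝ) := by
  rw [om, ← Set.ncard_coe_finset]
  congr 2
  ext w
  simp

open Classical in
/-- multiples of `u` in the annulus -/
theorem count_annulus {κ C : ℝ} (hκ : 0 < κ) (hC : 0 < C)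
    (hb : ∀ t : ℝ, 0 ≤ t → |((ball t).card : ℝ) - κ * t| ≤ C * (Real.sqrt t + 1))
    {X ρ m : ℝ} {u : G} (hX : 1 ≤ X) (hρ : 0 < ρ) (hρ1 : ρ ≤ 1) (hm : (nm u : ℝ) = m)
    (hm1 : 1 ≤ m) (hmX : m ≤ X ^ (1 / 2 : ℝ)) (hXρ : X ^ (-(1 / 4 : ℝ)) ≤ ρ) :
    (((V (X * Real.exp ρ) \ V X).filter (fun z => u ∣ z)).card : ℝ) ≤
      (2 * κ + 6 * C) * ρ * (X / m) := by
  have hX0 : 0 < X := by linarith
  have hm0 : 0 < m := by linarith
  set t : ℝ := X / m with ht
  have ht1 : X ^ (1 / 2 : ℝ) ≤ t := by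
    rw [ht, le_div_iff₀ hm0]
    calc X ^ (1 / 2 : ℝ) * m ≤ X ^ (1 / 2 : ℝ) * X ^ (1 / 2 : ℝ) := by gcongr
      _ = X := by
          rw [← Real.rpow_add hX0]
          norm_num
  have ht0 : 1 ≤ t := (Real.one_le_rpow hX (by norm_num)).trans ht1
  have hexp1 : 1 ≤ Real.exp ρ := Real.one_le_exp hρ.le
  have hexp : Real.exp ρ ≤ 3 := by
    have := Real.exp_one_lt_d9
    exact (Real.exp_le_exp.mpr hρ1).trans (by linarith)
  have hexp2 : Real.exp ρ - 1 ≤ 2 * ρ := by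
    have := Real.abs_exp_sub_one_le (x := ρ) (by rw [abs_of_pos hρ]; exact hρ1)
    rw [abs_of_pos hρ] at this
    exact (le_abs_self _).trans this
  have hsub : (V (X * Real.exp ρ) \ V X).filter (fun z => u ∣ z) ⊆
      (ball (t * Real.exp ρ) \ ball t).image (fun z => u * z) := by
    intro z hz
    rw [Finset.mem_filter, Finset.mem_sdiff] at hz
    obtain ⟨⟨h1, h2⟩, ⟨z', rfl⟩⟩ := hz
    rw [mem_V] at h1 h2
    have h3 : ¬ (nm (u * z') : ℝ) ≤ X := fun h => h2 ⟨h, h1.2⟩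
    have h4 := h1.1
    rw [nm_mul] at h3 h4
    push_cast at h3 h4
    rw [hm] at h3 h4
    refine Finset.mem_image.mpr ⟨z', ?_, rfl⟩
    rw [Finset.mem_sdiff, mem_ball, mem_ball]
    constructor
    · rw [ht, div_mul_eq_mul_div, le_div_iff₀ hm0]
      linarith
    · rw [ht, le_div_iff₀ hm0]
      intro h5
      exact h3 (by linarith)
  have hbs : ball t ⊆ ball (t * Real.exp ρ) := by
    intro z hz
    rw [mem_ball] at hz ⊢
    exact hz.trans (by nlinarith)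
  have h1 : (((V (X * Real.exp ρ) \ V X).filter (fun z => u ∣ z)).card : ℝ) ≤
      ((ball (t * Real.exp ρ)).card : ℝ) - (ball t).card := by
    have e1 := (Finset.card_le_card hsub).trans Finset.card_image_le
    have e2 := Finset.card_sdiff_add_card_eq_card hbs
    have e3 : ((ball (t * Real.exp ρ) \ ball t).card : ℝ) + (ball t).card =
        (ball (t * Real.exp ρ)).card := by exact_mod_cast e2
    have e4 : (((V (X * Real.exp ρ) \ V X).filter (fun z => u ∣ z)).card : ℝ) ≤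
      ((ball (t * Real.exp ρ) \ ball t).card : ℝ) := by exact_mod_cast e1
    linarith
  have h2 := (abs_le.mp (hb (t * Real.exp ρ) (by positivity))).2
  have h3 := (abs_le.mp (hb t (by linarith))).1
  -- the error term
  have hst : Real.sqrt t ≤ ρ * t := by
    rw [Real.sqrt_le_iff]
    refine ⟨by positivity, ?_⟩
    have e1 : (1 : ℝ) ≤ ρ ^ 2 * t := by
      have e2 : X ^ (-(1 / 2 : ℝ)) ≤ ρ ^ 2 := by
        calc X ^ (-(1 / 2 : ℝ)) = (X ^ (-(1 / 4 : ℝ))) ^ 2 := by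
              rw [← Real.rpow_natCast, ← Real.rpow_mul hX0.le]
              norm_num
          _ ≤ ρ ^ 2 := pow_le_pow_left₀ (by positivity) hXρ 2
      calc (1 : ℝ) = X ^ (-(1 / 2 : ℝ)) * X ^ (1 / 2 : ℝ) := by
            rw [← Real.rpow_add hX0]
            norm_num
        _ ≤ ρ ^ 2 * t := by gcongr
    nlinarith
  have hs1 : 1 ≤ Real.sqrt t := by
    rw [Real.one_le_sqrt]
    exact ht0
  have hs3 : Real.sqrt (t * Real.exp ρ) ≤ 3 * Real.sqrt t := by
    rw [Real.sqrt_le_iff]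
    refine ⟨by positivity, ?_⟩
    rw [mul_pow, Real.sq_sqrt (by linarith)]
    nlinarith
  have h4 : κ * (t * Real.exp ρ) - κ * t ≤ 2 * κ * ρ * t := by
    have : κ * (t * Real.exp ρ) - κ * t = κ * t * (Real.exp ρ - 1) := by ring
    rw [this]
    calc κ * t * (Real.exp ρ - 1) ≤ κ * t * (2 * ρ) := by gcongr
      _ = 2 * κ * ρ * t := by ring
  have h5 : C * (Real.sqrt (t * Real.exp ρ) + 1) + C * (Real.sqrt t + 1) ≤ 6 * C * ρ * t := by
    have e1 : Real.sqrt (t * Real.exp ρ) + 1 + (Real.sqrt t + 1) ≤ 6 * Real.sqrt t := by linarith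
    calc C * (Real.sqrt (t * Real.exp ρ) + 1) + C * (Real.sqrt t + 1) =
          C * (Real.sqrt (t * Real.exp ρ) + 1 + (Real.sqrt t + 1)) := by ring
      _ ≤ C * (6 * (ρ * t)) := by
          refine mul_le_mul_of_nonneg_left (e1.trans ?_) hC.le
          linarith
      _ = 6 * C * ρ * t := by ring
  have h6 : (2 * κ + 6 * C) * ρ * t = 2 * κ * ρ * t + 6 * C * ρ * t := by ring
  rw [h6]
  linarith

/-- `∑ om^2 = ∑_{w, w'} #{z : X < nm z ≤ X e^ρ, w ∣ z, w' ∣ z}`; drop the primitivity: for `w ≠ w'`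
the count is at most `#ball(X e^ρ / (p p')) - #ball(X / (p p'))`, which by `ball_asymp` is
`≤ κ (e^ρ - 1) X / (p p') + C (√(3 X / (p p')) + 1) ≤ C' ρ X / (p p')` because `ρ ≥ X^(-1/4)` and
`p p' ≤ Q^2 ≤ X^(1/10)`. -/
theorem annulus : ∃ C : ℝ, 0 < C ∧ ∀ P Q X ρ : ℝ, 2 ≤ P → P ≤ Q → Q ^ 20 ≤ X → 0 < ρ → ρ ≤ 1 →
    X ^ (-(1 / 4 : ℝ)) ≤ ρ →
    ∑ z ∈ V (X * Real.exp ρ) \ V X, (om P Q z) ^ 2 ≤ C * ρ * X * (Ls P Q + 1) ^ 2 := by
  classical
  obtain ⟨κ, C, hκ, hC, hb⟩ := ball_asymp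
  refine ⟨2 * κ + 6 * C, by positivity, ?_⟩
  intro P Q X ρ hP hPQ hQX hρ hρ1 hXρ
  set K := 2 * κ + 6 * C with hK
  have hK0 : 0 < K := by positivity
  have hQ2 : 2 ≤ Q := hP.trans hPQ
  have hX1 : 1 ≤ X := (one_le_pow₀ (by linarith : (1 : ℝ) ≤ Q)).trans hQX
  have hX0 : 0 < X := by linarith
  have hQ4 : Q ^ 2 ≤ X ^ (1 / 2 : ℝ) := by
    rw [← Real.sqrt_eq_rpow]
    refine Real.le_sqrt_of_sq_le ?_
    calc (Q ^ 2) ^ 2 = Q ^ 4 := by ring
      _ ≤ Q ^ 20 := pow_le_pow_right₀ (by linarith) (by norm_num)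
      _ ≤ X := hQX
  set Z := V (X * Real.exp ρ) \ V X with hZ
  have hp : ∀ w ∈ PP P Q, (1 : ℝ) ≤ nm w ∧ (nm w : ℝ) ≤ Q := by
    intro w hw
    obtain ⟨h1, h2, -⟩ := mem_PP.mp hw
    exact ⟨by linarith, h2⟩
  have h1 : ∀ z, (om P Q z) ^ 2 = ∑ w ∈ PP P Q, ∑ w' ∈ PP P Q,
      (if w ∣ z ∧ w' ∣ z then (1 : ℝ) else 0) := by
    intro z
    rw [om_eq_card, Finset.card_filter, sq]
    push_cast
    rw [Finset.sum_mul_sum]
    refine Finset.sum_congr rfl fun w _ => Finset.sum_congr rfl fun w' _ => ?_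
    by_cases h1 : w ∣ z <;> by_cases h2 : w' ∣ z <;> simp [h1, h2]
  have h2 : ∑ z ∈ Z, (om P Q z) ^ 2 = ∑ w ∈ PP P Q, ∑ w' ∈ PP P Q,
      ((Z.filter (fun z => w ∣ z ∧ w' ∣ z)).card : ℝ) := by
    simp only [h1]
    rw [Finset.sum_comm]
    refine Finset.sum_congr rfl fun w _ => ?_
    rw [Finset.sum_comm]
    refine Finset.sum_congr rfl fun w' _ => ?_
    rw [Finset.card_filter]
    push_cast
    rfl
  have h3 : ∀ w ∈ PP P Q, ∀ w' ∈ PP P Q, ((Z.filter (fun z => w ∣ z ∧ w' ∣ z)).card : ℝ) ≤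
      K * ρ * X * ((if w = w' then 1 / (nm w : ℝ) else 0) + 1 / (nm w : ℝ) * (1 / (nm w' : ℝ))) := by
    intro w hw w' hw'
    obtain ⟨a1, a2⟩ := hp w hw
    obtain ⟨b1, b2⟩ := hp w' hw'
    by_cases hww : w = w'
    · subst hww
      have e1 : (Z.filter (fun z => w ∣ z ∧ w ∣ z)) = Z.filter (fun z => w ∣ z) := by
        simp only [and_self]
      rw [e1, if_pos rfl]
      have e2 := count_annulus hκ hC hb (u := w) hX1 hρ hρ1 rfl a1
        (a2.trans ((le_self_pow₀ (by linarith) two_ne_zero).trans hQ4)) hXρ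
      refine e2.trans ?_
      have e3 : (0 : ℝ) ≤ 1 / (nm w : ℝ) * (1 / (nm w : ℝ)) := by positivity
      calc K * ρ * (X / nm w) = K * ρ * X * (1 / (nm w : ℝ)) := by ring
        _ ≤ _ := by
            refine mul_le_mul_of_nonneg_left ?_ (by positivity)
            linarith
    · have hn : nm w ≠ nm w' := fun h => hww (PP_inj hw hw' h)
      have hcop : IsCoprime w w' := (PP_spl hw).coprime (PP_spl hw') hn
      have e1 : Z.filter (fun z => w ∣ z ∧ w' ∣ z) ⊆ Z.filter (fun z => w * w' ∣ z) := by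
        intro z hz
        rw [Finset.mem_filter] at hz ⊢
        exact ⟨hz.1, hcop.mul_dvd hz.2.1 hz.2.2⟩
      have e2 : ((Z.filter (fun z => w ∣ z ∧ w' ∣ z)).card : ℝ) ≤
          ((Z.filter (fun z => w * w' ∣ z)).card : ℝ) := by
        exact_mod_cast Finset.card_le_card e1
      have e3 := count_annulus hκ hC hb (u := w * w') (m := nm w * nm w') hX1 hρ hρ1
        (by rw [nm_mul]; push_cast; rfl) (by nlinarith)
        (le_trans (by nlinarith) hQ4) hXρ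
      rw [if_neg hww, zero_add]
      refine (e2.trans e3).trans (le_of_eq ?_)
      ring
  rw [h2]
  refine (Finset.sum_le_sum fun w hw => Finset.sum_le_sum fun w' hw' => h3 w hw w' hw').trans ?_
  have h4 : ∑ w ∈ PP P Q, ∑ w' ∈ PP P Q,
      K * ρ * X * ((if w = w' then 1 / (nm w : ℝ) else 0) + 1 / (nm w : ℝ) * (1 / (nm w' : ℝ))) =
      K * ρ * X * (Ls P Q + Ls P Q * Ls P Q) := by
    simp only [← Finset.mul_sum]
    congr 1
    rw [Finset.sum_congr rfl fun w _ => Finset.sum_add_distrib, Finset.sum_add_distrib]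
    congr 1
    · unfold Ls
      refine Finset.sum_congr rfl fun w hw => ?_
      rw [Finset.sum_ite_eq, if_pos hw]
    · unfold Ls
      rw [Finset.sum_mul_sum]
  rw [h4]
  have hL : 0 ≤ Ls P Q := Finset.sum_nonneg fun w _ => by positivity
  refine mul_le_mul_of_nonneg_left ?_ (by positivity)
  nlinarith

end Pool.Agent.GaussMR
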