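import Pool.Agent.Lib_MP_f1a94e_mr.LS
import Pool.Agent.Lib_MP_f1a94e_mr.VAsymp
import Pool.Agent.Lib_MP_f1a94e_mr.Split

/-!
# Piece DIVLS: large sieve for multiples of a split prime
-/

set_option autoImplicit false

namespace Pool.Agent.GaussMR

open Classical in
/-- substitution `z = star w * z''` -/
theorem div_sub (F : G → ℝ) (hF : PM F) (w : G) (hw : Spl w) (Y : ℝ) (k : ℤ) :
    ∑ z ∈ (V Y).filter (fun z => star w ∣ z), (F z : ℂ) * xi (-k) z =
      ((F (star w) : ℂ) * xi (-k) (star w)) *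
        ∑ z ∈ V (Y / nm w), (if Prim (star w * z) then (F z : ℂ) else 0) * xi (-k) z := by
  have hw0 : (0 : ℝ) < nm w := by
    exact_mod_cast nm_pos_of_odd hw.odd
  have hso : Odd (nm (star w)) := hw.conj.odd
  have hs0 : star w ≠ 0 := ne_zero_of_odd hso
  rw [Finset.mul_sum]
  have hfil : ∑ z ∈ V (Y / nm w), (F (star w) : ℂ) * xi (-k) (star w) *
        ((if Prim (star w * z) then (F z : ℂ) else 0) * xi (-k) z) =
      ∑ z ∈ (V (Y / nm w)).filter (fun z => Prim (star w * z)),
        (F (star w * z) : ℂ) * xi (-k) (star w * z) := by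
    rw [Finset.sum_filter]
    apply Finset.sum_congr rfl
    intro z hz
    split_ifs with h
    · rw [hF.mul _ _ hso (mem_V.1 hz).2.1, xi_mul]
      push_cast
      ring
    · simp
  rw [hfil]
  symm
  apply Finset.sum_bij (fun z _ => star w * z)
  · intro z hz
    rw [Finset.mem_filter] at hz ⊢
    obtain ⟨hz1, hz2⟩ := hz
    rw [mem_V] at hz1 ⊢
    refine ⟨⟨?_, odd_nm_mul.2 ⟨hso, hz1.2.1⟩, hz2⟩, dvd_mul_right _ _⟩
    rw [nm_mul, nm_star]
    push_cast
    have := (le_div_iff₀ hw0).1 hz1.1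
    linarith
  · intro a _ b _ hab
    exact mul_left_cancel₀ hs0 hab
  · intro z hz
    rw [Finset.mem_filter] at hz
    obtain ⟨hz1, c, hc⟩ := hz
    subst hc
    rw [mem_V] at hz1
    refine ⟨c, ?_, rfl⟩
    rw [Finset.mem_filter, mem_V]
    refine ⟨⟨?_, (odd_nm_mul.1 hz1.2.1).2, (prim_of_mul hz1.2.2).2⟩, hz1.2.2⟩
    rw [le_div_iff₀ hw0]
    have := hz1.1
    rw [nm_mul, nm_star] at this
    push_cast at this
    linarith
  · intro z _
    rfl

open Classical in
/-- substitute `z = star w * z''` with `z'' ∈ V (Y / nm w)`; apply `large_sieve` with coefficients of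
absolute value at most one supported on `V (Y / nm w)`. If `Y < nm w` the sum is empty. -/
theorem div_large_sieve : ∃ C : ℝ, 0 < C ∧ ∀ (F : G → ℝ), PM F → ∀ (w : G), Spl w →
    ∀ (Y : ℝ) (T : ℕ), 0 ≤ Y →
    ∑ k ∈ fr T, ‖∑ z ∈ (V Y).filter (fun z => star w ∣ z), (F z : ℂ) * xi (-k) z‖ ^ 2 ≤
      C * (T + Y / nm w) * (Y / nm w) := by
  obtain ⟨C, hC, hls⟩ := large_sieve
  refine ⟨C * 9, by positivity, ?_⟩
  intro F hF w hw Y T hY
  have hw0 : (0 : ℝ) < nm w := by
    exact_mod_cast nm_pos_of_odd hw.odd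
  have hso : Odd (nm (star w)) := hw.conj.odd
  have hs0 : star w ≠ 0 := ne_zero_of_odd hso
  have hX0 : 0 ≤ Y / nm w := by positivity
  have key : ∀ k : ℤ,
      ‖∑ z ∈ (V Y).filter (fun z => star w ∣ z), (F z : ℂ) * xi (-k) z‖ =
      ‖∑ z ∈ V (Y / nm w), (if Prim (star w * z) then (F z : ℂ) else 0) * xi (-k) z‖ := by
    intro k
    rw [div_sub F hF w hw Y k, norm_mul, norm_mul, hF.norm hso, norm_xi _ hs0, one_mul, one_mul]
  simp only [key]
  rcases lt_or_ge (Y / nm w) 1 with h1 | h1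
  · have hemp : V (Y / nm w) = ∅ := by
      rw [Finset.eq_empty_iff_forall_notMem]
      intro z hz
      have h2 := (mem_V.1 hz).1
      have h3 : (1 : ℝ) ≤ nm z := by exact_mod_cast nm_pos_of_odd (mem_V.1 hz).2.1
      linarith
    rw [hemp]
    simp only [Finset.sum_empty, norm_zero]
    rw [zero_pow two_ne_zero, Finset.sum_const_zero]
    positivity
  · refine (hls (Y / nm w) T _ h1).trans ?_
    have hcard := card_V_le (Y / nm w) hX0
    have hsum : ∑ z ∈ V (Y / nm w), ‖(if Prim (star w * z) then (F z : ℂ) else 0)‖ ^ 2 ≤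
        9 * (Y / nm w) := by
      refine le_trans ?_ hcard
      rw [Finset.card_eq_sum_ones]
      push_cast
      apply Finset.sum_le_sum
      intro z hz
      split_ifs
      · rw [hF.norm (mem_V.1 hz).2.1]
        norm_num
      · rw [norm_zero]
        norm_num
    calc C * (T + Y / nm w) *
          ∑ z ∈ V (Y / nm w), ‖(if Prim (star w * z) then (F z : ℂ) else 0)‖ ^ 2
        ≤ C * (T + Y / nm w) * (9 * (Y / nm w)) := by
          apply mul_le_mul_of_nonneg_left hsum
          positivity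
      _ = C * 9 * (T + Y / nm w) * (Y / nm w) := by ring

end Pool.Agent.GaussMR
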