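import Pool.Agent.Lib_MP_f1a94e_mr.TK
import Pool.Agent.Lib_MP_f1a94e_mr.Annulus
import Pool.Agent.Lib_MP_f1a94e_mr.DivLS
import Pool.Agent.Lib_MP_f1a94e_mr.StageId

/-!
# Piece STAGE: factorisation of the Fourier coefficients (one stage of Matomaki-Radziwill)
-/

set_option autoImplicit false

namespace Pool.Agent.GaussMR

/-- Minkowski inequality in `ℓ²`. -/
theorem minkowski_sq {ι κ : Type*} (I : Finset ι) (K : Finset κ) (c : ι → κ → ℂ) (s : ι → ℝ)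
    (hs : ∀ i ∈ I, 0 < s i) (h : ∀ i ∈ I, ∑ k ∈ K, ‖c i k‖ ^ 2 ≤ s i ^ 2) :
    ∑ k ∈ K, ‖∑ i ∈ I, c i k‖ ^ 2 ≤ (∑ i ∈ I, s i) ^ 2 := by
  have h1 : ∀ k ∈ K, ‖∑ i ∈ I, c i k‖ ^ 2 ≤ (∑ i ∈ I, s i) * ∑ i ∈ I, ‖c i k‖ ^ 2 / s i := by
    intro k _
    have h2 : ‖∑ i ∈ I, c i k‖ ≤ ∑ i ∈ I, ‖c i k‖ := norm_sum_le _ _
    refine (pow_le_pow_left₀ (norm_nonneg _) h2 2).trans ?_
    refine Finset.sum_sq_le_sum_mul_sum_of_sq_le_mul I (fun i hi => (hs i hi).le)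
      (fun i hi => div_nonneg (sq_nonneg _) (hs i hi).le) fun i hi => le_of_eq ?_
    have := (hs i hi).ne'
    field_simp
  refine (Finset.sum_le_sum h1).trans ?_
  rw [← Finset.mul_sum, Finset.sum_comm, sq]
  refine mul_le_mul_of_nonneg_left ?_ (Finset.sum_nonneg fun i hi => (hs i hi).le)
  refine Finset.sum_le_sum fun i hi => ?_
  rw [← Finset.sum_div, div_le_iff₀ (hs i hi), ← sq]
  exact h i hi

theorem sum_PP_inv_sq {P Q : ℝ} (hP : 1 ≤ P) : ∑ w ∈ PP P Q, 1 / (nm w : ℝ) ^ 2 ≤ 1 := by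
  classical
  have hinj : Set.InjOn nm (PP P Q : Set G) := fun w hw w' hw' h => PP_inj hw hw' h
  have h1 : ∑ w ∈ PP P Q, 1 / (nm w : ℝ) ^ 2 = ∑ n ∈ (PP P Q).image nm, 1 / (n : ℝ) ^ 2 := by
    rw [Finset.sum_image hinj]
  rw [h1]
  have h2 : (PP P Q).image nm ⊆ Finset.Ioc 1 (⌊Q⌋₊ + 1) := by
    intro n hn
    obtain ⟨w, hw, rfl⟩ := Finset.mem_image.mp hn
    obtain ⟨e1, e2, -, -, -⟩ := mem_PP.mp hw
    rw [Finset.mem_Ioc]
    refine ⟨by exact_mod_cast hP.trans_lt e1, ?_⟩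
    have e3 : nm w ≤ ⌊Q⌋₊ := Nat.le_floor e2
    omega
  refine (Finset.sum_le_sum_of_subset_of_nonneg h2 fun _ _ _ => by positivity).trans ?_
  have h3 := sum_Ioc_inv_sq_le_sub (α := ℝ) (k := 1) (n := ⌊Q⌋₊ + 1) one_ne_zero (by omega)
  have h4 : (0 : ℝ) ≤ ((⌊Q⌋₊ + 1 : ℕ) : ℝ)⁻¹ := by positivity
  simp only [one_div]
  simp only [Nat.cast_one, inv_one] at h3
  linarith

/-- sums over the blocks -/
theorem sum_blk_le {P Q ρ : ℝ} (hρ : 0 < ρ) (h : G → ℝ) (hh : ∀ w ∈ PP P Q, 0 ≤ h w) :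
    ∑ v ∈ Finset.range (nv Q ρ), ∑ w ∈ blk P Q ρ v, h w ≤ ∑ w ∈ PP P Q, h w := by
  classical
  rw [← Finset.sum_biUnion]
  · refine Finset.sum_le_sum_of_subset_of_nonneg ?_ fun w hw _ => hh w hw
    intro w hw
    obtain ⟨v, -, hv⟩ := Finset.mem_biUnion.mp hw
    exact (mem_blk.mp hv).1
  · intro v _ v' _ hvv
    rw [Function.onFun, Finset.disjoint_left]
    intro w hw hw'
    exact hvv (blk_unique hρ hw hw')

open Classical in
theorem A2_bound {C : ℝ} (hC : 0 < C) (hdls : ∀ (F : G → ℝ), PM F → ∀ (w : G), Spl w →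
    ∀ (Y : ℝ) (T : ℕ), 0 ≤ Y →
    ∑ k ∈ fr T, ‖∑ z ∈ (V Y).filter (fun z => star w ∣ z), (F z : ℂ) * xi (-k) z‖ ^ 2 ≤
      C * (T + Y / nm w) * (Y / nm w)) (F : G → ℝ) (hF : PM F) (P Q ρ X : ℝ) (T : ℕ)
    (hP : 2 ≤ P) (hρ : 0 < ρ) (hρ1 : ρ ≤ 1) (hX : 1 ≤ X) :
    ∑ k ∈ fr T, ‖A2 F P Q ρ X k‖ ^ 2 ≤
      (Real.sqrt C * (Real.sqrt (3 * T * X) * Ls P Q + 3 * X)) ^ 2 := by
  have hX0 : 0 < X := by linarith
  set s : G → ℝ := fun w => Real.sqrt C * (Real.sqrt (3 * T * X) * (1 / nm w) +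
    3 * X * (1 / (nm w : ℝ) ^ 2)) with hs
  have hpos : ∀ w ∈ PP P Q, (0 : ℝ) < nm w := by
    intro w hw
    have := (mem_PP.mp hw).1
    linarith
  have hs0 : ∀ w ∈ PP P Q, 0 < s w := by
    intro w hw
    have h1 := hpos w hw
    have h2 : 0 < Real.sqrt C := Real.sqrt_pos.mpr hC
    rw [hs]
    positivity
  have hexp : Real.exp ρ ≤ 3 := by
    have := Real.exp_one_lt_d9
    exact (Real.exp_le_exp.mpr hρ1).trans (by linarith)
  have h1 : ∀ k, A2 F P Q ρ X k = ∑ i ∈ (Finset.range (nv Q ρ)).sigma (fun v => blk P Q ρ v),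
      (F i.2 : ℂ) * xi (-k) i.2 * ∑ z ∈ (V (X * Real.exp (-(i.1 * ρ)))).filter
        (fun z => star i.2 ∣ z), (F z : ℂ) * xi (-k) z := by
    intro k
    unfold A2
    rw [Finset.sum_sigma']
  simp only [h1]
  refine (minkowski_sq _ _ _ (fun i : (_ : ℕ) × G => s i.2) ?_ ?_).trans ?_
  · intro i hi
    exact hs0 _ (mem_blk.mp (Finset.mem_sigma.mp hi).2).1
  · rintro ⟨v, w⟩ hi
    have hw := (Finset.mem_sigma.mp hi).2
    simp only at hw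
    obtain ⟨hwP, -, hw2⟩ := mem_blk.mp hw
    have hp := hpos w hwP
    have hsp := PP_spl hwP
    set Y : ℝ := X * Real.exp (-(v * ρ)) with hY
    have hY0 : 0 ≤ Y := by positivity
    have e1 : ∑ k ∈ fr T, ‖(F w : ℂ) * xi (-k) w * ∑ z ∈ (V Y).filter
        (fun z => star w ∣ z), (F z : ℂ) * xi (-k) z‖ ^ 2 =
        ∑ k ∈ fr T, ‖∑ z ∈ (V Y).filter (fun z => star w ∣ z), (F z : ℂ) * xi (-k) z‖ ^ 2 := by
      refine Finset.sum_congr rfl fun k _ => ?_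
      rw [norm_mul, norm_mul, hF.norm hsp.odd, norm_xi _ (ne_zero_of_odd hsp.odd), one_mul, one_mul]
    simp only
    rw [e1]
    refine (hdls F hF w hsp Y T hY0).trans ?_
    have e2 : Y / nm w ≤ 3 * X * (1 / (nm w : ℝ) ^ 2) := by
      have e3 : Y * nm w ≤ 3 * X := by
        calc Y * nm w ≤ Y * Real.exp ((v + 1) * ρ) := by gcongr
          _ = X * Real.exp ρ := by
              rw [hY, mul_assoc, ← Real.exp_add]
              congr 2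
              ring
          _ ≤ X * 3 := by gcongr
          _ = 3 * X := by ring
      rw [div_le_iff₀ hp]
      calc Y = Y * nm w * (1 / nm w) := by field_simp
        _ ≤ 3 * X * (1 / nm w) := by gcongr
        _ = 3 * X * (1 / (nm w : ℝ) ^ 2) * nm w := by field_simp
    have e4 : 0 ≤ Y / nm w := by positivity
    rw [hs]
    simp only
    rw [mul_pow, Real.sq_sqrt hC.le, mul_assoc]
    refine mul_le_mul_of_nonneg_left ?_ hC.le
    have e5 : Real.sqrt (3 * T * X) ^ 2 = 3 * T * X := Real.sq_sqrt (by positivity)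
    calc (T + Y / nm w) * (Y / nm w) ≤ (T + 3 * X * (1 / (nm w : ℝ) ^ 2)) *
          (3 * X * (1 / (nm w : ℝ) ^ 2)) := by gcongr
      _ = Real.sqrt (3 * T * X) ^ 2 * (1 / nm w) ^ 2 + (3 * X * (1 / (nm w : ℝ) ^ 2)) ^ 2 := by
          rw [e5]
          field_simp
      _ ≤ (Real.sqrt (3 * T * X) * (1 / nm w) + 3 * X * (1 / (nm w : ℝ) ^ 2)) ^ 2 := by
          have e6 : 0 ≤ Real.sqrt (3 * T * X) * (1 / nm w) * (3 * X * (1 / (nm w : ℝ) ^ 2)) := by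
            positivity
          nlinarith
  · have e1 : ∑ i ∈ (Finset.range (nv Q ρ)).sigma (fun v => blk P Q ρ v), s i.2 ≤
        ∑ w ∈ PP P Q, s w := by
      rw [Finset.sum_sigma]
      exact sum_blk_le hρ s fun w hw => (hs0 w hw).le
    have e2 : ∑ w ∈ PP P Q, s w ≤ Real.sqrt C * (Real.sqrt (3 * T * X) * Ls P Q + 3 * X) := by
      rw [hs, ← Finset.mul_sum, Finset.sum_add_distrib, ← Finset.mul_sum, ← Finset.mul_sum]
      have e3 := sum_PP_inv_sq (P := P) (Q := Q) (by linarith)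
      unfold Ls
      refine mul_le_mul_of_nonneg_left (add_le_add_right ?_ _) (Real.sqrt_nonneg _)
      nlinarith
    refine pow_le_pow_left₀ (Finset.sum_nonneg fun i hi => ?_) (e1.trans e2) 2
    exact (hs0 _ (mem_blk.mp (Finset.mem_sigma.mp hi).2).1).le

/-- By `stage_id`, `Ls * fc k - UZ k = A₁ - A2 - A3` with `A₁ = ∑_{z ∈ V X} F z (Ls - om z) xi_{-k}(z)`.
`A₁`: `large_sieve` and `TK`, `≤ C (T + X) X (Ls + 1)`. `A2`: Minkowski in `ℓ²(k)` over the pairs `(v, w)` and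
`div_large_sieve` (each contributes at most `√(C (T + 3X/p²) 3X/p²) ≤ √(3C) (√(T X) / p + √3 X / p²)`,
as `X e^(-vρ) / p ≤ X e^ρ / p²`), and `∑ 1/p² ≤ 1`: `≤ C (T X Ls² + X²)`. `A3`: `large_sieve` on
`V (X e^ρ)`, `mA_le`, `annulus`: `≤ C X · ρ X (Ls + 1)²`. Finally `Ls ≥ 1`. -/
theorem stage : ∃ C : ℝ, 0 < C ∧ ∀ (F : G → ℝ), PM F → ∀ (P Q ρ X : ℝ) (T : ℕ),
    2 ≤ P → P ≤ Q → Q ^ 20 ≤ X → 0 < ρ → ρ ≤ 1 → X ^ (-(1 / 4 : ℝ)) ≤ ρ → (T : ℝ) ≤ X →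
    1 ≤ Ls P Q →
    ∑ k ∈ fr T, ‖(Ls P Q : ℂ) * fc F X k - UZ F P Q ρ X k‖ ^ 2 ≤
      C * X ^ 2 * Ls P Q ^ 2 * (1 / Ls P Q + T / X + ρ) := by
  classical
  obtain ⟨C1, hC1, hls⟩ := large_sieve
  obtain ⟨C2, hC2, htk⟩ := TK
  obtain ⟨C3, hC3, hann⟩ := annulus
  obtain ⟨C4, hC4, hdls⟩ := div_large_sieve
  refine ⟨3 * (4 * C1 * C2 + 18 * C4 + 16 * C1 * C3), by positivity, ?_⟩
  intro F hF P Q ρ X T hP hPQ hQX hρ hρ1 hXρ hTX hLs
  have hQ2 : 2 ≤ Q := hP.trans hPQ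
  have hX1 : 1 ≤ X := (one_le_pow₀ (by linarith : (1 : ℝ) ≤ Q)).trans hQX
  have hX0 : 0 < X := by linarith
  have hLs0 : 0 < Ls P Q := by linarith
  set L := Ls P Q with hL
  -- the three parts
  have hdec : ∀ k, (L : ℂ) * fc F X k - UZ F P Q ρ X k =
      ∑ z ∈ V X, ((F z : ℂ) * ((L - om P Q z : ℝ) : ℂ)) * xi (-k) z - A2 F P Q ρ X k -
        A3 F P Q ρ X k := by
    intro k
    rw [stage_id F hF P Q ρ X k (by linarith) hPQ hρ hX1]
    have e1 : ∑ z ∈ V X, ((F z : ℂ) * ((L - om P Q z : ℝ) : ℂ)) * xi (-k) z =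
        (L : ℂ) * fc F X k - ∑ z ∈ V X, (F z : ℂ) * (om P Q z : ℂ) * xi (-k) z := by
      rw [fc, Finset.mul_sum, ← Finset.sum_sub_distrib]
      refine Finset.sum_congr rfl fun z _ => ?_
      push_cast
      ring
    rw [e1]
    ring
  have h3 : ∀ a b c : ℂ, ‖a - b - c‖ ^ 2 ≤ 3 * (‖a‖ ^ 2 + ‖b‖ ^ 2 + ‖c‖ ^ 2) := by
    intro a b c
    have e1 : ‖a - b - c‖ ≤ ‖a‖ + ‖b‖ + ‖c‖ :=
      (norm_sub_le _ _).trans (add_le_add_left (norm_sub_le _ _) _)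
    have e2 := pow_le_pow_left₀ (norm_nonneg _) e1 2
    nlinarith [sq_nonneg (‖a‖ - ‖b‖), sq_nonneg (‖b‖ - ‖c‖), sq_nonneg (‖a‖ - ‖c‖)]
  -- first part
  have hA1 : ∑ k ∈ fr T, ‖∑ z ∈ V X, ((F z : ℂ) * ((L - om P Q z : ℝ) : ℂ)) * xi (-k) z‖ ^ 2 ≤
      4 * C1 * C2 * X ^ 2 * L := by
    refine (hls X T (fun z => (F z : ℂ) * ((L - om P Q z : ℝ) : ℂ)) hX1).trans ?_
    have e1 : ∑ z ∈ V X, ‖(F z : ℂ) * ((L - om P Q z : ℝ) : ℂ)‖ ^ 2 =
        ∑ z ∈ V X, (om P Q z - L) ^ 2 := by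
      refine Finset.sum_congr rfl fun z hz => ?_
      rw [norm_mul, hF.norm (mem_V.mp hz).2.1, one_mul, Complex.norm_real, Real.norm_eq_abs,
        sq_abs]
      ring
    rw [e1]
    have e2 := htk P Q X hP hPQ hQX
    have e3 : C2 * X * (L + 1) ≤ C2 * X * (2 * L) := by
      gcongr
      linarith
    calc C1 * (T + X) * ∑ z ∈ V X, (om P Q z - L) ^ 2 ≤ C1 * (X + X) * (C2 * X * (2 * L)) := by
          have e4 : 0 ≤ ∑ z ∈ V X, (om P Q z - L) ^ 2 := Finset.sum_nonneg fun _ _ => sq_nonneg _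
          gcongr
          exact e2.trans e3
      _ = 4 * C1 * C2 * X ^ 2 * L := by ring
  -- third part
  have hA3 : ∑ k ∈ fr T, ‖A3 F P Q ρ X k‖ ^ 2 ≤ 16 * C1 * C3 * X ^ 2 * L ^ 2 * ρ := by
    have hexp : Real.exp ρ ≤ 3 := by
      have := Real.exp_one_lt_d9
      exact (Real.exp_le_exp.mpr hρ1).trans (by linarith)
    have hexp1 : 1 ≤ Real.exp ρ := Real.one_le_exp hρ.le
    have hXe : 1 ≤ X * Real.exp ρ := by nlinarith
    set a : G → ℂ := fun z => if z ∈ V X then 0 else (F z : ℂ) * (mA P Q ρ X z : ℂ) with ha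
    have hsub : V X ⊆ V (X * Real.exp ρ) := by
      intro z hz
      rw [mem_V] at hz ⊢
      exact ⟨hz.1.trans (by nlinarith), hz.2⟩
    have e1 : ∀ k, A3 F P Q ρ X k = ∑ z ∈ V (X * Real.exp ρ), a z * xi (-k) z := by
      intro k
      rw [← Finset.sum_sdiff hsub, A3]
      have e2 : ∑ z ∈ V X, a z * xi (-k) z = 0 := by
        refine Finset.sum_eq_zero fun z hz => ?_
        rw [ha]
        simp [hz]
      rw [e2, add_zero]
      refine Finset.sum_congr rfl fun z hz => ?_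
      have e3 : z ∉ V X := (Finset.mem_sdiff.mp hz).2
      rw [ha]
      simp [e3]
    have e2 : ∑ z ∈ V (X * Real.exp ρ), ‖a z‖ ^ 2 ≤ C3 * ρ * X * (2 * L) ^ 2 := by
      rw [← Finset.sum_sdiff hsub]
      have e3 : ∑ z ∈ V X, ‖a z‖ ^ 2 = 0 := by
        refine Finset.sum_eq_zero fun z hz => ?_
        rw [ha]
        simp [hz]
      rw [e3, add_zero]
      calc ∑ z ∈ V (X * Real.exp ρ) \ V X, ‖a z‖ ^ 2
          ≤ ∑ z ∈ V (X * Real.exp ρ) \ V X, (om P Q z) ^ 2 := by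
            refine Finset.sum_le_sum fun z hz => ?_
            have e4 : z ∉ V X := (Finset.mem_sdiff.mp hz).2
            have e5 := (Finset.mem_sdiff.mp hz).1
            have e6 : ‖a z‖ = mA P Q ρ X z := by
              rw [ha]
              simp only [e4, if_false]
              rw [norm_mul, hF.norm (mem_V.mp e5).2.1, one_mul, Complex.norm_natCast]
            rw [e6]
            exact pow_le_pow_left₀ (Nat.cast_nonneg _) (mA_le P Q ρ X hρ z (V_ne_zero e5)) 2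
        _ ≤ C3 * ρ * X * (L + 1) ^ 2 := hann P Q X ρ hP hPQ hQX hρ hρ1 hXρ
        _ ≤ C3 * ρ * X * (2 * L) ^ 2 := by
            gcongr
            linarith
    simp only [e1]
    refine (hls (X * Real.exp ρ) T a hXe).trans ?_
    calc C1 * (T + X * Real.exp ρ) * ∑ z ∈ V (X * Real.exp ρ), ‖a z‖ ^ 2
        ≤ C1 * (X + X * 3) * (C3 * ρ * X * (2 * L) ^ 2) := by
          have e4 : 0 ≤ ∑ z ∈ V (X * Real.exp ρ), ‖a z‖ ^ 2 :=
            Finset.sum_nonneg fun _ _ => sq_nonneg _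
          gcongr
      _ = 16 * C1 * C3 * X ^ 2 * L ^ 2 * ρ := by ring
  -- second part
  have hA2 : ∑ k ∈ fr T, ‖A2 F P Q ρ X k‖ ^ 2 ≤ C4 * (6 * T * X * L ^ 2 + 18 * X ^ 2) := by
    refine (A2_bound hC4 hdls F hF P Q ρ X T hP hρ hρ1 hX1).trans ?_
    rw [mul_pow, Real.sq_sqrt hC4.le]
    refine mul_le_mul_of_nonneg_left ?_ hC4.le
    have e1 : Real.sqrt (3 * T * X) ^ 2 = 3 * T * X := Real.sq_sqrt (by positivity)
    nlinarith [sq_nonneg (Real.sqrt (3 * T * X) * L - 3 * X)]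
  calc ∑ k ∈ fr T, ‖(L : ℂ) * fc F X k - UZ F P Q ρ X k‖ ^ 2
      ≤ ∑ k ∈ fr T, 3 * (‖∑ z ∈ V X, ((F z : ℂ) * ((L - om P Q z : ℝ) : ℂ)) * xi (-k) z‖ ^ 2 +
          ‖A2 F P Q ρ X k‖ ^ 2 + ‖A3 F P Q ρ X k‖ ^ 2) := by
        refine Finset.sum_le_sum fun k _ => ?_
        rw [hdec]
        exact h3 _ _ _
    _ = 3 * (∑ k ∈ fr T, ‖∑ z ∈ V X, ((F z : ℂ) * ((L - om P Q z : ℝ) : ℂ)) * xi (-k) z‖ ^ 2 +
          ∑ k ∈ fr T, ‖A2 F P Q ρ X k‖ ^ 2 + ∑ k ∈ fr T, ‖A3 F P Q ρ X k‖ ^ 2) := by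
        rw [← Finset.mul_sum, Finset.sum_add_distrib, Finset.sum_add_distrib]
    _ ≤ 3 * (4 * C1 * C2 * X ^ 2 * L + C4 * (6 * T * X * L ^ 2 + 18 * X ^ 2) +
          16 * C1 * C3 * X ^ 2 * L ^ 2 * ρ) := by gcongr
    _ ≤ 3 * (4 * C1 * C2 + 18 * C4 + 16 * C1 * C3) * X ^ 2 * L ^ 2 * (1 / L + T / X + ρ) := by
        have e1 : X ^ 2 * L ^ 2 * (1 / L) = X ^ 2 * L := by field_simp
        have e2 : X ^ 2 * L ^ 2 * (T / X) = T * X * L ^ 2 := by field_simp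
        have e3 : X ^ 2 ≤ X ^ 2 * L := by nlinarith [sq_nonneg X]
        have e4 : 3 * (4 * C1 * C2 + 18 * C4 + 16 * C1 * C3) * X ^ 2 * L ^ 2 *
            (1 / L + T / X + ρ) = 3 * (4 * C1 * C2 + 18 * C4 + 16 * C1 * C3) *
              (X ^ 2 * L + T * X * L ^ 2 + X ^ 2 * L ^ 2 * ρ) := by
          rw [← e1, ← e2]
          ring
        rw [e4]
        have p1 : 0 ≤ C1 * C2 * (T * X * L ^ 2) := by positivity
        have p2 : 0 ≤ C1 * C2 * (X ^ 2 * L ^ 2 * ρ) := by positivity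
        have p3 : 0 ≤ C4 * (T * X * L ^ 2) := by positivity
        have p4 : 0 ≤ C4 * (X ^ 2 * L ^ 2 * ρ) := by positivity
        have p5 : 0 ≤ C1 * C3 * (T * X * L ^ 2) := by positivity
        have p6 : 0 ≤ C1 * C3 * (X ^ 2 * L) := by positivity
        have p7 : C4 * X ^ 2 ≤ C4 * (X ^ 2 * L) := mul_le_mul_of_nonneg_left e3 hC4.le
        nlinarith

end Pool.Agent.GaussMR
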