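import Mathlib

/-!
# Asymptotic facts for the final choice of parameters
-/

set_option autoImplicit false

namespace Pool.Agent.GaussMR

open Filter Asymptotics Topology

theorem tendsto_loglog_pow (a s : ℝ) (n : ℕ) (hs : 0 < s) :
    Tendsto (fun Y : ℝ => (a * Real.log Y + 1) ^ n * Y ^ (-s)) atTop (𝓝 0) := by
  have hn : 0 < s / (n + 1) := by positivity
  have h1 : (fun Y : ℝ => a * Real.log Y + 1) =o[atTop] fun Y : ℝ => Y ^ (s / (n + 1)) := by
    refine IsLittleO.add ?_ ?_
    · exact (isLittleO_log_rpow_atTop hn).const_mul_left a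
    · have : Tendsto (fun Y : ℝ => Y ^ (s / (n + 1))) atTop atTop := tendsto_rpow_atTop hn
      rw [isLittleO_const_left]
      right
      exact tendsto_norm_atTop_atTop.comp this
  have h2 : (fun Y : ℝ => (a * Real.log Y + 1) ^ n * Y ^ (-s)) =O[atTop]
      fun Y : ℝ => Y ^ (-(s / (n + 1))) := by
    have h3 : (fun Y : ℝ => (a * Real.log Y + 1) ^ n) =O[atTop]
        fun Y : ℝ => (Y ^ (s / (n + 1))) ^ n := h1.isBigO.pow n
    refine (h3.mul (isBigO_refl (fun Y : ℝ => Y ^ (-s)) atTop)).trans ?_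
    refine IsBigO.of_bound 1 ?_
    filter_upwards [eventually_gt_atTop 0] with Y hY
    rw [one_mul, ← Real.rpow_natCast, ← Real.rpow_mul hY.le, ← Real.rpow_add hY]
    apply le_of_eq
    congr 2
    field_simp
    ring
  exact h2.trans_tendsto (tendsto_rpow_neg_atTop hn)

/-- `(log X)^c` is eventually at most `X` -/
theorem eventually_log_rpow_le (c : ℝ) : ∀ᶠ X : ℝ in atTop, Real.log X ^ c ≤ X := by
  have h := (isLittleO_log_rpow_rpow_atTop c (s := 1) one_pos).bound (c := 1) one_pos
  filter_upwards [h, eventually_gt_atTop 1] with X hX h1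
  rw [Real.rpow_one, one_mul, Real.norm_eq_abs, Real.norm_eq_abs] at hX
  rw [abs_of_pos (by linarith : (0 : ℝ) < X)] at hX
  exact (le_abs_self _).trans hX

end Pool.Agent.GaussMR
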