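import Pool.Agent.Lib_MP_f1a94e_mr.BHa
import Pool.Agent.Lib_MP_f1a94e_ap.Core

/-!
# Piece BH: the Brun-Hooley lower bound sieve (abstract form)
-/

set_option autoImplicit false

namespace Pool.Agent.GaussMR

open Classical in
theorem bh_image_sum {ι : Type} (U : Finset ι) (f : ι → ℕ) (hf : Set.InjOn f (U : Set ι))
    (F : Finset ℕ → ℝ) :
    ∑ A ∈ (U.image f).powerset, F A = ∑ D ∈ U.powerset, F (D.image f) := by
  have h1 : (U.image f).powerset = U.powerset.image (fun D => D.image f) := by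
    ext A
    simp only [Finset.mem_powerset, Finset.mem_image, Finset.subset_image_iff]
  rw [h1, Finset.sum_image]
  intro A hA B hB hAB
  have hA' := Finset.mem_powerset.1 (Finset.mem_coe.1 hA)
  have hB' := Finset.mem_powerset.1 (Finset.mem_coe.1 hB)
  ext x
  constructor
  · intro hx
    have : f x ∈ B.image f := by
      have h2 : f x ∈ A.image f := Finset.mem_image_of_mem f hx
      have h3 : A.image f = B.image f := hAB
      rwa [h3] at h2
    obtain ⟨y, hy, hxy⟩ := Finset.mem_image.1 this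
    have := hf (Finset.mem_coe.2 (hB' hy)) (Finset.mem_coe.2 (hA' hx)) hxy
    exact this ▸ hy
  · intro hx
    have : f x ∈ A.image f := by
      have h2 : f x ∈ B.image f := Finset.mem_image_of_mem f hx
      have h3 : A.image f = B.image f := hAB
      rwa [← h3] at h2
    obtain ⟨y, hy, hxy⟩ := Finset.mem_image.1 this
    have := hf (Finset.mem_coe.2 (hA' hy)) (Finset.mem_coe.2 (hB' hx)) hxy
    exact this ▸ hy

open Classical in
/-- the weights for an arbitrary index type -/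
theorem bh_core {ι : Type} (t : ℕ) (P : ℕ → Finset ι) (b : ℕ)
    (hd : ∀ i j, i < t → j < t → i ≠ j → Disjoint (P i) (P j)) (g : ι → ℝ)
    (hg : ∀ p ∈ (Finset.range t).biUnion P, 0 ≤ g p ∧ g p ≤ 1 / 2)
    (hs : ∑ j ∈ Finset.range t, (∑ p ∈ P j, g p) ^ (2 * (b + j) + 1) /
      ((2 * (b + j) + 1).factorial : ℝ) * Real.exp (2 * ∑ p ∈ P j, g p) ≤ 1 / 2) :
    ∃ lam : Finset ι → ℝ, (∀ A, |lam A| ≤ 1) ∧
      (∀ A ⊆ (Finset.range t).biUnion P, lam A ≠ 0 → ∀ j < t,
        (A ∩ P j).card ≤ 2 * (b + j) + 1) ∧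
      (∀ S ⊆ (Finset.range t).biUnion P, ∑ A ∈ S.powerset, lam A ≤ if S = ∅ then 1 else 0) ∧
      1 / 2 * ∏ p ∈ (Finset.range t).biUnion P, (1 - g p) ≤
          ∑ A ∈ ((Finset.range t).biUnion P).powerset, lam A * ∏ p ∈ A, g p := by
  set U := (Finset.range t).biUnion P with hU
  have hPU : ∀ j < t, P j ⊆ U := fun j hj x hx =>
    Finset.mem_biUnion.2 ⟨j, Finset.mem_range.2 hj, hx⟩
  let f : ι → ℕ := fun x => if h : x ∈ U then (U.equivFin ⟨x, h⟩ : ℕ) else 0
  have hf : Set.InjOn f (U : Set ι) := by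
    intro x hx y hy hxy
    have hx' : x ∈ U := hx
    have hy' : y ∈ U := hy
    simp only [f, dif_pos hx', dif_pos hy'] at hxy
    have := U.equivFin.injective (Fin.ext hxy)
    exact congrArg Subtype.val this
  let g' : ℕ → ℝ := fun q => if h : q < U.card then g (U.equivFin.symm ⟨q, h⟩) else 0
  have hg' : ∀ x ∈ U, g' (f x) = g x := by
    intro x hx
    have h1 : f x = (U.equivFin ⟨x, hx⟩ : ℕ) := by simp only [f, dif_pos hx]
    have h2 : f x < U.card := by rw [h1]; exact (U.equivFin ⟨x, hx⟩).2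
    simp only [g', dif_pos h2]
    have h3 : (⟨f x, h2⟩ : Fin U.card) = U.equivFin ⟨x, hx⟩ := Fin.ext h1
    rw [h3, Equiv.symm_apply_apply]
  let B : ℕ → Finset ℕ := fun j => (P j).image f
  have hBU : (Finset.range t).biUnion B = U.image f := by
    rw [hU, Finset.biUnion_image]
  have hdB : ∀ i < t, ∀ j < t, i ≠ j → Disjoint (B i) (B j) := by
    intro i hi j hj hij
    rw [Finset.disjoint_left]
    intro q hq1 hq2
    obtain ⟨x, hx, hxq⟩ := Finset.mem_image.1 hq1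
    obtain ⟨y, hy, hyq⟩ := Finset.mem_image.1 hq2
    have := hf (Finset.mem_coe.2 (hPU i hi hx)) (Finset.mem_coe.2 (hPU j hj hy))
      (hxq.trans hyq.symm)
    rw [this] at hx
    exact Finset.disjoint_left.1 (hd i j hi hj hij) hx hy
  obtain ⟨lam, h1, h2, h3, h4⟩ := Pool.Agent.OmAP.core t B (fun j => 2 * (b + j))
    (fun j => even_two_mul _) hdB
  have hprod : ∀ D ⊆ U, ∏ q ∈ D.image f, g' q = ∏ p ∈ D, g p := by
    intro D hD
    rw [Finset.prod_image (fun x hx y hy hxy => hf (Finset.mem_coe.2 (hD hx))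
      (Finset.mem_coe.2 (hD hy)) hxy)]
    exact Finset.prod_congr rfl fun x hx => hg' x (hD hx)
  have hsumB : ∀ j < t, ∑ q ∈ B j, g' q = ∑ p ∈ P j, g p := by
    intro j hj
    rw [Finset.sum_image (fun x hx y hy hxy => hf (Finset.mem_coe.2 (hPU j hj hx))
      (Finset.mem_coe.2 (hPU j hj hy)) hxy)]
    exact Finset.sum_congr rfl fun x hx => hg' x (hPU j hj hx)
  refine ⟨fun A => lam (A.image f), fun A => h1 _, ?_, ?_, ?_⟩
  · intro A hA hne j hj
    have h5 := h2 _ hne j hj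
    have h6 : (A ∩ P j).image f ⊆ A.image f ∩ B j := by
      intro q hq
      obtain ⟨x, hx, hxq⟩ := Finset.mem_image.1 hq
      have hx' := Finset.mem_inter.1 hx
      exact Finset.mem_inter.2 ⟨Finset.mem_image.2 ⟨x, hx'.1, hxq⟩,
        Finset.mem_image.2 ⟨x, hx'.2, hxq⟩⟩
    have h7 : ((A ∩ P j).image f).card = (A ∩ P j).card :=
      Finset.card_image_of_injOn fun x hx y hy hxy =>
        hf (Finset.mem_coe.2 (hA (Finset.mem_inter.1 (Finset.mem_coe.1 hx)).1))
          (Finset.mem_coe.2 (hA (Finset.mem_inter.1 (Finset.mem_coe.1 hy)).1)) hxy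
    have h8 := Finset.card_le_card h6
    omega
  · intro S hS
    have h5 := h3 (S.image f) (by
      rw [hBU]
      exact Finset.image_subset_image hS)
    rw [bh_image_sum S f (hf.mono (by exact_mod_cast hS))] at h5
    refine h5.trans (le_of_eq ?_)
    by_cases hSe : S = ∅
    · rw [if_pos hSe, if_pos (by rw [hSe, Finset.image_empty])]
    · rw [if_neg hSe, if_neg (by rwa [Finset.image_eq_empty])]
  · have h5 := h4 g' (by
      rw [hBU]
      intro q hq
      obtain ⟨x, hx, rfl⟩ := Finset.mem_image.1 hq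
      rw [hg' x hx]
      exact hg x hx) (by
      refine le_trans (le_of_eq ?_) hs
      refine Finset.sum_congr rfl fun j hj => ?_
      rw [hsumB j (Finset.mem_range.1 hj)])
    rw [hBU, bh_image_sum U f hf] at h5
    refine le_trans (le_of_eq ?_) (h5.trans (le_of_eq ?_))
    · congr 1
      rw [Finset.prod_image (fun x hx y hy hxy => hf hx hy hxy)]
      exact Finset.prod_congr rfl fun x hx => by rw [hg' x hx]
    · exact Finset.sum_congr rfl fun D hD => by rw [hprod D (Finset.mem_powerset.1 hD)]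

theorem bh_choice (G0 : ℝ) (hG0 : 0 ≤ G0) : ∃ b : ℕ, ∀ t : ℕ,
    ∑ j ∈ Finset.range t, G0 ^ (2 * (b + j) + 1) / ((2 * (b + j) + 1).factorial : ℝ) *
      Real.exp (2 * G0) ≤ 1 / 2 := by
  have hsum : Summable fun n : ℕ => G0 ^ n / (n.factorial : ℝ) :=
    Real.summable_pow_div_factorial G0
  have htail := tendsto_sum_nat_add fun n : ℕ => G0 ^ n / (n.factorial : ℝ)
  have hpos : (0 : ℝ) < Real.exp (-(2 * G0)) / 2 := by positivity
  obtain ⟨N, hN⟩ := (htail.eventually (gt_mem_nhds hpos)).exists_forall_of_atTop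
  refine ⟨N, fun t => ?_⟩
  have hN' := hN N le_rfl
  have hsN : Summable fun n : ℕ => G0 ^ (n + N) / ((n + N).factorial : ℝ) :=
    (summable_nat_add_iff N).2 hsum
  have hinj : Set.InjOn (fun j : ℕ => N + 2 * j + 1) (Finset.range t : Set ℕ) := by
    intro x _ y _ hxy
    simp only at hxy
    omega
  have h1 : ∑ j ∈ Finset.range t, G0 ^ (2 * (N + j) + 1) / ((2 * (N + j) + 1).factorial : ℝ) ≤
      ∑' n : ℕ, G0 ^ (n + N) / ((n + N).factorial : ℝ) := by
    calc ∑ j ∈ Finset.range t, G0 ^ (2 * (N + j) + 1) / ((2 * (N + j) + 1).factorial : ℝ) =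
        ∑ n ∈ (Finset.range t).image (fun j : ℕ => N + 2 * j + 1),
          G0 ^ (n + N) / ((n + N).factorial : ℝ) := by
          rw [Finset.sum_image hinj]
          refine Finset.sum_congr rfl fun j _ => ?_
          have : N + 2 * j + 1 + N = 2 * (N + j) + 1 := by ring
          rw [this]
      _ ≤ _ := hsN.sum_le_tsum _ fun n _ => by positivity
  rw [← Finset.sum_mul]
  have h2 : ∑ j ∈ Finset.range t, G0 ^ (2 * (N + j) + 1) / ((2 * (N + j) + 1).factorial : ℝ) ≤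
      Real.exp (-(2 * G0)) / 2 := h1.trans hN'.le
  calc (∑ j ∈ Finset.range t, G0 ^ (2 * (N + j) + 1) / ((2 * (N + j) + 1).factorial : ℝ)) *
      Real.exp (2 * G0) ≤ Real.exp (-(2 * G0)) / 2 * Real.exp (2 * G0) := by gcongr
    _ = 1 / 2 := by
      rw [div_mul_eq_mul_div, ← Real.exp_add, neg_add_cancel, Real.exp_zero]

open Classical in
/-- Sieving primes in classes `P 0, …, P (t-1)`, with class sums `∑ g ≤ G0`; `2 (b + i)` is the truncation
level in class `i`. For an object `u` with `S_i = S u ∩ P i` put `x_i = 1` if `S_i = ∅`, else `0`,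
`y_i = ∑_{D ⊆ S_i, |D| ≤ 2(b+i)} (-1)^|D|`, `e_i = #{D ⊆ S_i : |D| = 2(b+i)+1}`. Bonferroni:
`0 ≤ x_i ≤ y_i ≤ x_i + e_i`, hence `∏ x_i ≥ ∏ y_i - ∑_l e_l ∏_{i ≠ l} y_i`. Multiply by `w u`, sum over
`u` and insert `∑_{u : D ⊆ S u} w u = X0 ∏_{p ∈ D} g p + r(D)`, `|r(D)| ≤ E`: the main term is
`X0 (∏ Y_i - ∑_l E_l ∏_{i ≠ l} Y_i)` with `Y_i = ∑_{D ⊆ P i, |D| ≤ 2(b+i)} (-1)^|D| ∏_D g
≥ V_i = ∏_{P i} (1 - g)` and `E_l = ∑_{|D| = 2(b+l)+1} ∏_D g ≤ G0^(2(b+l)+1) / (2(b+l)+1)!`, and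
`V_i ≥ 4^(-G0)`. Choose `b` with `∑_l 4^G0 G0^(2(b+l)+1) / (2(b+l)+1)! ≤ 1/2`. -/
theorem brun_hooley (G0 : ℝ) (hG0 : 0 ≤ G0) : ∃ b : ℕ, ∀ (Ω ι : Type) (obj : Finset Ω) (w : Ω → ℝ)
    (t : ℕ) (P : ℕ → Finset ι) (S : Ω → Finset ι) (g : ι → ℝ) (X0 E : ℝ),
    (∀ u ∈ obj, 0 ≤ w u) → (∀ i j, i < t → j < t → i ≠ j → Disjoint (P i) (P j)) →
    (∀ u ∈ obj, S u ⊆ (Finset.range t).biUnion P) →
    (∀ p ∈ (Finset.range t).biUnion P, 0 ≤ g p ∧ g p ≤ 1 / 2) →
    (∀ i < t, ∑ p ∈ P i, g p ≤ G0) → 0 ≤ X0 → 0 ≤ E →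
    (∀ D ⊆ (Finset.range t).biUnion P, (∀ i < t, (D ∩ P i).card ≤ 2 * (b + i) + 1) →
      |∑ u ∈ obj.filter (fun u => D ⊆ S u), w u - X0 * ∏ p ∈ D, g p| ≤ E) →
    X0 / 2 * ∏ p ∈ (Finset.range t).biUnion P, (1 - g p) -
      (t + 1) * (((Finset.range t).biUnion P).powerset.filter
        (fun D => ∀ i < t, (D ∩ P i).card ≤ 2 * (b + i) + 1)).card * E ≤
      ∑ u ∈ obj.filter (fun u => S u = ∅), w u := by
  obtain ⟨b, hb⟩ := bh_choice G0 hG0
  refine ⟨b, ?_⟩
  intro Ω ι obj w t P S g X0 E hw hd hS hg hG hX0 hE hr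
  set U := (Finset.range t).biUnion P with hU
  have hPU : ∀ j < t, P j ⊆ U := fun j hj x hx =>
    Finset.mem_biUnion.2 ⟨j, Finset.mem_range.2 hj, hx⟩
  have hgs : ∀ j < t, 0 ≤ ∑ p ∈ P j, g p := fun j hj =>
    Finset.sum_nonneg fun p hp => (hg p (hPU j hj hp)).1
  obtain ⟨lam, h1, h2, h3, h4⟩ := bh_core t P b hd g hg (by
    refine le_trans (Finset.sum_le_sum fun j hj => ?_) (hb t)
    have hj' := Finset.mem_range.1 hj
    have h0 := hgs j hj'
    have h5 := hG j hj'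
    gcongr)
  rw [← hU] at h2 h3 h4
  have step1 : ∑ u ∈ obj, w u * ∑ A ∈ (S u).powerset, lam A ≤
      ∑ u ∈ obj.filter (fun u => S u = ∅), w u := by
    rw [Finset.sum_filter]
    refine Finset.sum_le_sum fun u hu => ?_
    have h5 := mul_le_mul_of_nonneg_left (h3 (S u) (hS u hu)) (hw u hu)
    refine h5.trans (le_of_eq ?_)
    split_ifs <;> simp
  have step2 : ∑ u ∈ obj, w u * ∑ A ∈ (S u).powerset, lam A =
      ∑ A ∈ U.powerset, lam A * ∑ u ∈ obj.filter (fun u => A ⊆ S u), w u := by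
    have e1 : ∀ u ∈ obj, w u * ∑ A ∈ (S u).powerset, lam A =
        ∑ A ∈ U.powerset, if A ⊆ S u then lam A * w u else 0 := by
      intro u hu
      rw [Finset.mul_sum, ← Finset.sum_filter]
      have : U.powerset.filter (fun A => A ⊆ S u) = (S u).powerset := by
        ext A
        simp only [Finset.mem_filter, Finset.mem_powerset]
        exact ⟨fun h => h.2, fun h => ⟨h.trans (hS u hu), h⟩⟩
      rw [this]
      exact Finset.sum_congr rfl fun A _ => mul_comm _ _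
    rw [Finset.sum_congr rfl e1, Finset.sum_comm]
    refine Finset.sum_congr rfl fun A _ => ?_
    rw [Finset.mul_sum, Finset.sum_filter]
  have step3 : ∀ A ∈ U.powerset, lam A * (X0 * ∏ p ∈ A, g p) -
      (if ∀ i < t, (A ∩ P i).card ≤ 2 * (b + i) + 1 then E else 0) ≤
      lam A * ∑ u ∈ obj.filter (fun u => A ⊆ S u), w u := by
    intro A hA
    have hA' := Finset.mem_powerset.1 hA
    by_cases hl : lam A = 0
    · rw [hl, zero_mul, zero_mul, zero_sub, neg_nonpos]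
      split_ifs
      · exact hE
      · exact le_rfl
    · have hc := h2 A hA' hl
      rw [if_pos hc]
      have h5 := hr A hA' hc
      have h6 : |lam A * (∑ u ∈ obj.filter (fun u => A ⊆ S u), w u - X0 * ∏ p ∈ A, g p)| ≤
          1 * E := by
        rw [abs_mul]
        exact mul_le_mul (h1 A) h5 (abs_nonneg _) zero_le_one
      have h7 := (abs_le.1 h6).1
      rw [mul_sub] at h7
      linarith
  have step4 := Finset.sum_le_sum step3
  rw [Finset.sum_sub_distrib, ← Finset.sum_filter, Finset.sum_const, nsmul_eq_mul] at step4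
  have step5 : X0 / 2 * ∏ p ∈ U, (1 - g p) ≤ ∑ A ∈ U.powerset, lam A * (X0 * ∏ p ∈ A, g p) := by
    have h5 := mul_le_mul_of_nonneg_left h4 hX0
    rw [Finset.mul_sum] at h5
    calc X0 / 2 * ∏ p ∈ U, (1 - g p) = X0 * (1 / 2 * ∏ p ∈ U, (1 - g p)) := by ring
      _ ≤ _ := h5
      _ = _ := Finset.sum_congr rfl fun A _ => by ring
  set N : ℝ := ((U.powerset.filter
    (fun D => ∀ i < t, (D ∩ P i).card ≤ 2 * (b + i) + 1)).card : ℝ) with hN
  have hN0 : 0 ≤ N := Nat.cast_nonneg _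
  have h8 : N * E ≤ (t + 1) * N * E := by
    have : (0 : ℝ) ≤ (t : ℝ) * (N * E) := by positivity
    linarith
  linarith

end Pool.Agent.GaussMR
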