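import Mathlib

/-!
# Piece BHA: Bonferroni inequalities
-/

set_option autoImplicit false

namespace Pool.Agent.GaussMR

/-! ### auxiliary lemmas -/

theorem bha_alt_succ (b s : ℕ) :
    ∑ k ∈ Finset.range (b + 1), (-1 : ℝ) ^ k * ((s + 1).choose k : ℝ) =
      (-1) ^ b * (s.choose b : ℝ) := by
  induction b with
  | zero => simp
  | succ b ih =>
    rw [Finset.sum_range_succ, ih, Nat.choose_succ_succ s b]
    push_cast
    ring

theorem bha_alt_zero (b : ℕ) :
    ∑ k ∈ Finset.range (b + 1), (-1 : ℝ) ^ k * ((0 : ℕ).choose k : ℝ) = 1 := by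
  rw [Finset.sum_eq_single 0]
  · simp
  · intro k _ hk
    rw [Nat.choose_eq_zero_of_lt (Nat.pos_of_ne_zero hk)]
    simp
  · simp

open Classical in
theorem bha_split {ι : Type*} (S : Finset ι) (n : ℕ) (f : Finset ι → ℝ) :
    ∑ D ∈ S.powerset.filter (fun D => D.card ≤ n), f D =
      ∑ k ∈ Finset.range (n + 1), ∑ D ∈ S.powersetCard k, f D := by
  rw [← Finset.sum_fiberwise_of_maps_to (s := S.powerset.filter (fun D => D.card ≤ n))
    (t := Finset.range (n + 1)) (g := fun D => D.card)]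
  · refine Finset.sum_congr rfl fun k hk => Finset.sum_congr ?_ fun _ _ => rfl
    ext D
    simp only [Finset.mem_filter, Finset.mem_powerset, Finset.mem_powersetCard]
    have := Finset.mem_range.1 hk
    constructor
    · rintro ⟨⟨h1, _⟩, h2⟩
      exact ⟨h1, h2⟩
    · rintro ⟨h1, h2⟩
      exact ⟨⟨h1, by omega⟩, h2⟩
  · intro D hD
    simp only [Finset.mem_filter, Finset.mem_powerset] at hD
    exact Finset.mem_range.2 (by omega)

open Classical in
theorem bha_card_eq {ι : Type*} (S : Finset ι) (n : ℕ) :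
    S.powerset.filter (fun D => D.card = n) = S.powersetCard n := by
  ext D
  simp only [Finset.mem_filter, Finset.mem_powerset, Finset.mem_powersetCard]

open Classical in
theorem bha_alt {ι : Type*} (S : Finset ι) (n : ℕ) :
    ∑ D ∈ S.powerset.filter (fun D => D.card ≤ n), (-1 : ℝ) ^ D.card =
      ∑ k ∈ Finset.range (n + 1), (-1 : ℝ) ^ k * (S.card.choose k : ℝ) := by
  rw [bha_split]
  refine Finset.sum_congr rfl fun k _ => ?_
  rw [Finset.sum_congr rfl (g := fun _ => (-1 : ℝ) ^ k)]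
  · rw [Finset.sum_const, Finset.card_powersetCard, nsmul_eq_mul, mul_comm]
  · intro D hD
    rw [(Finset.mem_powersetCard.1 hD).2]

theorem bha_insert {ι : Type*} [DecidableEq ι] (P : Finset ι) (a : ι) (ha : a ∉ P) (g : ι → ℝ)
    (k : ℕ) :
    ∑ A ∈ (insert a P).powersetCard (k + 1), ∏ p ∈ A, g p =
      ∑ A ∈ P.powersetCard (k + 1), ∏ p ∈ A, g p +
        g a * ∑ A ∈ P.powersetCard k, ∏ p ∈ A, g p := by
  rw [Finset.powersetCard_succ_insert ha, Finset.sum_union]
  · congr 1
    rw [Finset.sum_image, Finset.mul_sum]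
    · apply Finset.sum_congr rfl
      intro A hA
      have hA' : a ∉ A := fun h => ha ((Finset.mem_powersetCard.1 hA).1 h)
      rw [Finset.prod_insert hA']
    · intro A hA B hB hAB
      have hA' : a ∉ A := fun h => ha ((Finset.mem_powersetCard.1 (Finset.mem_coe.1 hA)).1 h)
      have hB' : a ∉ B := fun h => ha ((Finset.mem_powersetCard.1 (Finset.mem_coe.1 hB)).1 h)
      calc A = (insert a A).erase a := (Finset.erase_insert hA').symm
        _ = (insert a B).erase a := by rw [hAB]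
        _ = B := Finset.erase_insert hB'
  · rw [Finset.disjoint_left]
    intro A hA hA2
    obtain ⟨B, -, rfl⟩ := Finset.mem_image.1 hA2
    exact ha ((Finset.mem_powersetCard.1 hA).1 (Finset.mem_insert_self _ _))

theorem bha_empty {ι : Type*} (g : ι → ℝ) (k : ℕ) :
    ∑ A ∈ (∅ : Finset ι).powersetCard (k + 1), ∏ p ∈ A, g p = 0 := by
  have : (∅ : Finset ι).powersetCard (k + 1) = ∅ :=
    Finset.powersetCard_eq_empty.2 (by simp)
  rw [this, Finset.sum_empty]

theorem bha_pow_step (G x : ℝ) (hG : 0 ≤ G) (hx : 0 ≤ x) (k : ℕ) :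
    G ^ (k + 1) + ((k : ℝ) + 1) * x * G ^ k ≤ (G + x) ^ (k + 1) := by
  induction k with
  | zero => simp
  | succ k ih =>
    have h1 : (G + x) * (G ^ (k + 1) + ((k : ℝ) + 1) * x * G ^ k) ≤ (G + x) * (G + x) ^ (k + 1) :=
      mul_le_mul_of_nonneg_left ih (by linarith)
    have h2 : (G + x) ^ (k + 1 + 1) = (G + x) * (G + x) ^ (k + 1) := by ring
    rw [h2]
    refine le_trans ?_ h1
    push_cast
    have h3 : 0 ≤ ((k : ℝ) + 1) * x * x * G ^ k := by positivity
    have h4 : (G + x) * (G ^ (k + 1) + ((k : ℝ) + 1) * x * G ^ k) =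
      G ^ (k + 1 + 1) + ((k : ℝ) + 1 + 1) * x * G ^ (k + 1) + ((k : ℝ) + 1) * x * x * G ^ k := by
      ring
    rw [h4]
    linarith

theorem bha_esymm {ι : Type*} (P : Finset ι) (g : ι → ℝ) (hg : ∀ p ∈ P, 0 ≤ g p) (k : ℕ) :
    ∑ A ∈ P.powersetCard k, ∏ p ∈ A, g p ≤ (∑ p ∈ P, g p) ^ k / (k.factorial : ℝ) := by
  classical
  induction P using Finset.induction_on generalizing k with
  | empty =>
    cases k with
    | zero => simp
    | succ k => rw [bha_empty]; simp
  | insert a P ha ih =>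
    have hg' : ∀ p ∈ P, 0 ≤ g p := fun p hp => hg p (Finset.mem_insert_of_mem hp)
    have hga : 0 ≤ g a := hg a (Finset.mem_insert_self _ _)
    cases k with
    | zero => simp
    | succ k =>
      rw [bha_insert P a ha g k, Finset.sum_insert ha]
      have h1 := ih hg' (k + 1)
      have h2 := mul_le_mul_of_nonneg_left (ih hg' k) hga
      have hG : 0 ≤ ∑ p ∈ P, g p := Finset.sum_nonneg hg'
      have h3 := bha_pow_step _ _ hG hga k
      have hf : (0 : ℝ) < (k.factorial : ℝ) := by exact_mod_cast k.factorial_pos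
      have hf1 : ((k + 1).factorial : ℝ) = ((k : ℝ) + 1) * (k.factorial : ℝ) := by
        rw [Nat.factorial_succ]; push_cast; ring
      have hk1 : (0 : ℝ) < (k : ℝ) + 1 := by positivity
      rw [add_comm (g a)]
      refine (add_le_add h1 h2).trans ?_
      rw [hf1]
      have h4 : (∑ p ∈ P, g p) ^ (k + 1) / (((k : ℝ) + 1) * (k.factorial : ℝ)) +
          g a * ((∑ p ∈ P, g p) ^ k / (k.factorial : ℝ)) =
          ((∑ p ∈ P, g p) ^ (k + 1) + ((k : ℝ) + 1) * g a * (∑ p ∈ P, g p) ^ k) /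
            (((k : ℝ) + 1) * (k.factorial : ℝ)) := by
        field_simp
      rw [h4]
      exact div_le_div_of_nonneg_right h3 (by positivity)

theorem bha_bonf {ι : Type*} (g : ι → ℝ) (P : Finset ι) (hP : ∀ p ∈ P, 0 ≤ g p ∧ g p ≤ 1)
    (b : ℕ) :
    0 ≤ (-1 : ℝ) ^ b * (∑ k ∈ Finset.range (b + 1), (-1 : ℝ) ^ k *
      ∑ A ∈ P.powersetCard k, ∏ p ∈ A, g p - ∏ p ∈ P, (1 - g p)) := by
  classical
  induction P using Finset.induction_on generalizing b with
  | empty =>
    have : ∑ k ∈ Finset.range (b + 1), (-1 : ℝ) ^ k *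
        ∑ A ∈ (∅ : Finset ι).powersetCard k, ∏ p ∈ A, g p = 1 := by
      rw [Finset.sum_range_succ']
      simp only [bha_empty, mul_zero, Finset.sum_const_zero, pow_zero, zero_add]
      simp
    rw [this]
    simp
  | insert a P ha ih =>
    have hP' : ∀ p ∈ P, 0 ≤ g p ∧ g p ≤ 1 := fun p hp => hP p (Finset.mem_insert_of_mem hp)
    have hga := hP a (Finset.mem_insert_self _ _)
    have hpi0 : 0 ≤ ∏ p ∈ P, (1 - g p) :=
      Finset.prod_nonneg fun p hp => by linarith [(hP' p hp).2]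
    have hpi1 : ∏ p ∈ P, (1 - g p) ≤ 1 :=
      Finset.prod_le_one (fun p hp => by linarith [(hP' p hp).2])
        fun p hp => by linarith [(hP' p hp).1]
    rw [Finset.prod_insert ha]
    cases b with
    | zero =>
      simp only [zero_add, Finset.range_one, Finset.sum_singleton, pow_zero, one_mul]
      simp only [Finset.powersetCard_zero, Finset.sum_singleton, Finset.prod_empty]
      nlinarith
    | succ b =>
      have h1 := ih hP' (b + 1)
      have h2 := mul_nonneg hga.1 (ih hP' b)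
      have e0 : ∀ Q : Finset ι, ∑ A ∈ Q.powersetCard 0, ∏ p ∈ A, g p = 1 := by
        intro Q
        simp
      have e1 : ∑ k ∈ Finset.range (b + 1 + 1), (-1 : ℝ) ^ k *
          ∑ A ∈ (insert a P).powersetCard k, ∏ p ∈ A, g p =
          ∑ k ∈ Finset.range (b + 1 + 1), (-1 : ℝ) ^ k * ∑ A ∈ P.powersetCard k, ∏ p ∈ A, g p -
          g a * ∑ k ∈ Finset.range (b + 1), (-1 : ℝ) ^ k *
            ∑ A ∈ P.powersetCard k, ∏ p ∈ A, g p := by
        rw [Finset.sum_range_succ', Finset.sum_range_succ' (fun k => (-1 : ℝ) ^ k *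
          ∑ A ∈ P.powersetCard k, ∏ p ∈ A, g p) (b + 1), e0, e0, Finset.mul_sum]
        have : ∀ k ∈ Finset.range (b + 1), (-1 : ℝ) ^ (k + 1) *
            ∑ A ∈ (insert a P).powersetCard (k + 1), ∏ p ∈ A, g p =
            (-1 : ℝ) ^ (k + 1) * ∑ A ∈ P.powersetCard (k + 1), ∏ p ∈ A, g p -
            g a * ((-1 : ℝ) ^ k * ∑ A ∈ P.powersetCard k, ∏ p ∈ A, g p) := by
          intro k _
          rw [bha_insert P a ha g k]
          ring
        rw [Finset.sum_congr rfl this, Finset.sum_sub_distrib]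
        ring
      rw [e1]
      have e2 : (-1 : ℝ) ^ (b + 1) = -(-1) ^ b := by ring
      rw [e2] at h1 ⊢
      nlinarith

/-! ### the statements -/

open Classical in
/-- `∑_{j ≤ m'} (-1)^j C(n, j) = (-1)^m' C(n - 1, m')` for `n ≥ 1` -/
theorem bonf_lower {ι : Type*} (S : Finset ι) (m : ℕ) :
    (if S = ∅ then (1 : ℝ) else 0) ≤
      ∑ D ∈ S.powerset.filter (fun D => D.card ≤ 2 * m), (-1 : ℝ) ^ D.card := by
  rw [bha_alt]
  rcases Finset.eq_empty_or_nonempty S with h | h
  · rw [if_pos h, h, Finset.card_empty, bha_alt_zero]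
  · rw [if_neg h.ne_empty]
    obtain ⟨s, hs⟩ := Nat.exists_eq_succ_of_ne_zero h.card_pos.ne'
    rw [hs, Nat.succ_eq_add_one, bha_alt_succ, (even_two_mul m).neg_one_pow]
    positivity

open Classical in
theorem bonf_upper {ι : Type*} (S : Finset ι) (m : ℕ) :
    ∑ D ∈ S.powerset.filter (fun D => D.card ≤ 2 * m), (-1 : ℝ) ^ D.card ≤
      (if S = ∅ then (1 : ℝ) else 0) +
        ((S.powerset.filter (fun D => D.card = 2 * m + 1)).card : ℝ) := by
  rw [bha_alt, bha_card_eq, Finset.card_powersetCard]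
  rcases Finset.eq_empty_or_nonempty S with h | h
  · rw [if_pos h, h, Finset.card_empty, bha_alt_zero]
    simp
  · rw [if_neg h.ne_empty]
    obtain ⟨s, hs⟩ := Nat.exists_eq_succ_of_ne_zero h.card_pos.ne'
    rw [hs, Nat.succ_eq_add_one, bha_alt_succ, (even_two_mul m).neg_one_pow,
      Nat.choose_succ_succ]
    push_cast
    have : (0 : ℝ) ≤ (s.choose (2 * m + 1) : ℝ) := by positivity
    linarith

open Classical in
/-- the same with weights: `∏ (1 - g) ≤ ∑_{|D| ≤ 2m} (-1)^|D| ∏_D g` for `0 ≤ g ≤ 1` (e.g. induction on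
`S`, proving at the same time the reverse inequality for odd truncation) -/
theorem bonf_weight {ι : Type*} (S : Finset ι) (g : ι → ℝ) (h0 : ∀ p ∈ S, 0 ≤ g p)
    (h1 : ∀ p ∈ S, g p ≤ 1) (m : ℕ) :
    ∏ p ∈ S, (1 - g p) ≤
      ∑ D ∈ S.powerset.filter (fun D => D.card ≤ 2 * m), (-1 : ℝ) ^ D.card * ∏ p ∈ D, g p := by
  have h := bha_bonf g S (fun p hp => ⟨h0 p hp, h1 p hp⟩) (2 * m)
  rw [(even_two_mul m).neg_one_pow, one_mul] at h
  rw [bha_split]
  have e : ∑ k ∈ Finset.range (2 * m + 1), ∑ D ∈ S.powersetCard k, (-1 : ℝ) ^ D.card *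
      ∏ p ∈ D, g p = ∑ k ∈ Finset.range (2 * m + 1), (-1 : ℝ) ^ k *
        ∑ A ∈ S.powersetCard k, ∏ p ∈ A, g p := by
    refine Finset.sum_congr rfl fun k _ => ?_
    rw [Finset.mul_sum]
    refine Finset.sum_congr rfl fun D hD => ?_
    rw [(Finset.mem_powersetCard.1 hD).2]
  rw [e]
  linarith

open Classical in
/-- elementary symmetric sums: `e_n(g) ≤ (∑ g)^n / n!` -/
theorem esymm_le {ι : Type*} (S : Finset ι) (g : ι → ℝ) (h0 : ∀ p ∈ S, 0 ≤ g p) (n : ℕ) :
    ∑ D ∈ S.powerset.filter (fun D => D.card = n), ∏ p ∈ D, g p ≤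
      (∑ p ∈ S, g p) ^ n / n.factorial := by
  rw [bha_card_eq]
  exact bha_esymm S g h0 n

/-- `∏ x_i ≥ ∏ y_i - ∑_l e_l ∏_{i ≠ l} y_i` if `0 ≤ x_i ≤ y_i ≤ x_i + e_i` -/
theorem prod_lower (t : ℕ) (x y e : ℕ → ℝ) (h0 : ∀ i < t, 0 ≤ x i) (h1 : ∀ i < t, x i ≤ y i)
    (h2 : ∀ i < t, y i ≤ x i + e i) :
    ∏ i ∈ Finset.range t, y i - ∑ l ∈ Finset.range t, e l * ∏ i ∈ (Finset.range t).erase l, y i ≤
      ∏ i ∈ Finset.range t, x i := by
  have main : ∀ s : Finset ℕ, (∀ i ∈ s, 0 ≤ x i) → (∀ i ∈ s, x i ≤ y i) →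
      ∏ i ∈ s, y i - ∑ l ∈ s, (y l - x l) * ∏ i ∈ s.erase l, y i ≤ ∏ i ∈ s, x i := by
    intro s hx hxy
    induction s using Finset.induction_on with
    | empty => simp
    | insert i t hi ih =>
      have hx' : ∀ j ∈ t, 0 ≤ x j := fun j hj => hx j (Finset.mem_insert_of_mem hj)
      have hxy' : ∀ j ∈ t, x j ≤ y j := fun j hj => hxy j (Finset.mem_insert_of_mem hj)
      have ih' := ih hx' hxy'
      have hxi := hx i (Finset.mem_insert_self i t)
      have hxyi := hxy i (Finset.mem_insert_self i t)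
      rw [Finset.prod_insert hi, Finset.prod_insert hi, Finset.sum_insert hi,
        Finset.erase_insert hi]
      have hsum : ∑ l ∈ t, (y l - x l) * ∏ j ∈ (insert i t).erase l, y j =
          y i * ∑ l ∈ t, (y l - x l) * ∏ j ∈ t.erase l, y j := by
        rw [Finset.mul_sum]
        refine Finset.sum_congr rfl fun l hl => ?_
        have hne : l ≠ i := fun h => hi (h ▸ hl)
        rw [Finset.erase_insert_of_ne hne.symm,
          Finset.prod_insert (fun h => hi (Finset.mem_of_mem_erase h))]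
        ring
      rw [hsum]
      have hD : 0 ≤ ∑ l ∈ t, (y l - x l) * ∏ j ∈ t.erase l, y j := by
        refine Finset.sum_nonneg fun l hl => mul_nonneg (sub_nonneg.2 (hxy' l hl)) ?_
        exact Finset.prod_nonneg fun j hj =>
          (hx' j (Finset.mem_of_mem_erase hj)).trans (hxy' j (Finset.mem_of_mem_erase hj))
      nlinarith [mul_le_mul_of_nonneg_left ih' hxi, mul_nonneg (sub_nonneg.2 hxyi) hD]
  have h := main (Finset.range t) (fun i hi => h0 i (Finset.mem_range.1 hi))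
    (fun i hi => h1 i (Finset.mem_range.1 hi))
  refine le_trans ?_ h
  have : ∑ l ∈ Finset.range t, (y l - x l) * ∏ i ∈ (Finset.range t).erase l, y i ≤
      ∑ l ∈ Finset.range t, e l * ∏ i ∈ (Finset.range t).erase l, y i := by
    refine Finset.sum_le_sum fun l hl => ?_
    have hl' := Finset.mem_range.1 hl
    refine mul_le_mul_of_nonneg_right (by linarith [h2 l hl']) ?_
    refine Finset.prod_nonneg fun j hj => ?_
    have hj' := Finset.mem_range.1 (Finset.mem_of_mem_erase hj)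
    exact (h0 j hj').trans (h1 j hj')
  linarith

end Pool.Agent.GaussMR
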