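import Pool.Agent.Lib_MP_f1a94e_mr.ConsecA

/-!
# Piece CONSEC: sign changes between consecutive vectors give edges
-/

set_option autoImplicit false

namespace Pool.Agent.GaussMR

theorem nm_line (z y : G) (t : ℤ) :
    (nm (z + ((t : ℤ) : G) * y) : ℤ) = nm z + 2 * t * dot z y + t ^ 2 * nm y := by
  have := nm_lin 1 t z y
  simpa using this

/-- convexity: `z + y` lies between `z` and `z + m y` for `m ≥ 1` -/
theorem nm_conv {X : ℝ} (z y : G) (m : ℤ) (hm : 1 ≤ m) (h0 : (nm z : ℝ) ≤ X)
    (h1 : (nm (z + ((m : ℤ) : G) * y) : ℝ) ≤ X) : (nm (z + y) : ℝ) ≤ X := by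
  have e1 := nm_line z y m
  have e2 := nm_line z y 1
  simp only [Int.cast_one, one_mul, mul_one, one_pow] at e2
  have hy : (0 : ℤ) ≤ nm y := by positivity
  have h3 : m * (nm (z + y) : ℤ) ≤ (m - 1) * nm z + nm (z + ((m : ℤ) : G) * y) := by
    rw [e1, e2]
    have : 0 ≤ m * (m - 1) * (nm y : ℤ) := by
      apply mul_nonneg _ hy
      apply mul_nonneg <;> linarith
    nlinarith
  have h4 : (m : ℝ) * (nm (z + y) : ℝ) ≤ (m - 1) * nm z + nm (z + ((m : ℤ) : G) * y) := by
    exact_mod_cast h3
  have hm' : (1 : ℝ) ≤ m := by exact_mod_cast hm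
  have h5 : (m : ℝ) * (nm (z + y) : ℝ) ≤ m * X := by
    have : ((m : ℝ) - 1) * nm z ≤ (m - 1) * X := mul_le_mul_of_nonneg_left h0 (by linarith)
    linarith
  exact le_of_mul_le_mul_left h5 (by linarith)

/-- convexity: `z - j y` lies between `z` and `z - κ y` -/
theorem nm_conv' {X : ℝ} (z y : G) (j κ : ℤ) (h0j : 0 ≤ j) (hjκ : j ≤ κ) (hκ : 0 < κ)
    (h0 : (nm z : ℝ) ≤ X) (h1 : (nm (z + ((-κ : ℤ) : G) * y) : ℝ) ≤ X) :
    (nm (z + ((-j : ℤ) : G) * y) : ℝ) ≤ X := by
  have e1 := nm_line z y (-κ)
  have e2 := nm_line z y (-j)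
  have hy : (0 : ℤ) ≤ nm y := by positivity
  have h3 : κ * (nm (z + ((-j : ℤ) : G) * y) : ℤ) ≤
      (κ - j) * nm z + j * nm (z + ((-κ : ℤ) : G) * y) := by
    rw [e1, e2]
    have : 0 ≤ j * κ * (κ - j) * (nm y : ℤ) := by
      apply mul_nonneg _ hy
      apply mul_nonneg
      · positivity
      · linarith
    nlinarith
  have h4 : (κ : ℝ) * (nm (z + ((-j : ℤ) : G) * y) : ℝ) ≤
      (κ - j) * nm z + j * nm (z + ((-κ : ℤ) : G) * y) := by
    exact_mod_cast h3
  have hκ' : (0 : ℝ) < κ := by exact_mod_cast hκ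
  have hj' : (0 : ℝ) ≤ j := by exact_mod_cast h0j
  have hjκ' : (j : ℝ) ≤ κ := by exact_mod_cast hjκ
  have h5 : (κ : ℝ) * (nm (z + ((-j : ℤ) : G) * y) : ℝ) ≤ κ * X := by
    have a1 : ((κ : ℝ) - j) * nm z ≤ (κ - j) * X := mul_le_mul_of_nonneg_left h0 (by linarith)
    have a2 : (j : ℝ) * nm (z + ((-κ : ℤ) : G) * y) ≤ j * X := mul_le_mul_of_nonneg_left h1 hj'
    linarith
  exact le_of_mul_le_mul_left h5 hκ'

/-- the relation between consecutive pairs and edges -/
def RE (X : ℝ) (p e : G × G) : Prop :=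
  (det p.1 p.2 = 1 ∧ e = p) ∨
  (∃ y : G, ∃ j : ℤ, 0 ≤ j ∧ j < det p.1 p.2 ∧ p.1 + p.2 = ((det p.1 p.2 : ℤ) : G) * y ∧
    det p.1 y = 1 ∧ e.1 = p.1 + ((-j : ℤ) : G) * y ∧ e.2 = p.1 + ((-(j + 1) : ℤ) : G) * y ∧
    X < (nm (p.1 + y) : ℝ) ∧ X < (nm (p.2 + y) : ℝ))

theorem det_line (z y : G) (s t : ℤ) :
    det (z + ((s : ℤ) : G) * y) (z + ((t : ℤ) : G) * y) = (t - s) * det z y := by
  simp [det]; ring

theorem RE_unique {X : ℝ} {p p' e : G × G} (hp : p.1 ∈ V X ∧ p.2 ∈ V X)
    (hp' : p'.1 ∈ V X ∧ p'.2 ∈ V X) (h : RE X p e) (h' : RE X p' e) : p = p' := by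
  rcases h with ⟨h1, h2⟩ | ⟨y, j, hj0, hj1, hs, hy, he1, he2, hX1, hX2⟩
  · rcases h' with ⟨h1', h2'⟩ | ⟨y', j', hj0', hj1', hs', hy', he1', he2', hX1', hX2'⟩
    · rw [← h2, h2']
    · exfalso
      have e1 : det e.1 e.2 = 1 := by rw [h2]; exact h1
      rw [he1', he2', det_line, hy'] at e1
      linarith
  · rcases h' with ⟨h1', h2'⟩ | ⟨y', j', hj0', hj1', hs', hy', he1', he2', hX1', hX2'⟩
    · exfalso
      have e1 : det e.1 e.2 = 1 := by rw [h2']; exact h1'
      rw [he1, he2, det_line, hy] at e1
      linarith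
    · obtain ⟨z, w⟩ := p
      obtain ⟨z', w'⟩ := p'
      simp only at hp hp' hj1 hs hy he1 he2 hX1 hX2 hj1' hs' hy' he1' he2' hX1' hX2'
      have ey : y = e.1 - e.2 := by
        rw [he1, he2]
        push_cast
        ring
      have ey' : y' = e.1 - e.2 := by
        rw [he1', he2']
        push_cast
        ring
      have hyy : y' = y := by rw [ey, ey']
      subst hyy
      -- z' = z + (j' - j) y
      have hz' : z' = z + ((j' - j : ℤ) : G) * y' := by
        have : z + ((-j : ℤ) : G) * y' = z' + ((-j' : ℤ) : G) * y' := by rw [← he1, ← he1']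
        push_cast at this ⊢
        linear_combination -this
      have hz'' : z = z' + ((j - j' : ℤ) : G) * y' := by
        rw [hz']; push_cast; ring
      have hjj : j = j' := by
        by_contra hne
        rcases lt_or_gt_of_ne hne with hlt | hlt
        · have := nm_conv (X := X) z y' (j' - j) (by omega) (mem_V.1 hp.1).1
            (by rw [← hz']; exact (mem_V.1 hp'.1).1)
          linarith
        · have := nm_conv (X := X) z' y' (j - j') (by omega) (mem_V.1 hp'.1).1
            (by rw [← hz'']; exact (mem_V.1 hp.1).1)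
          linarith
      subst hjj
      have hzz : z' = z := by
        rw [hz']; simp
      subst hzz
      set κ := det z' w with hκ
      set κ' := det z' w' with hκ'
      have hw' : w' = w + ((κ' - κ : ℤ) : G) * y' := by
        push_cast
        linear_combination hs' - hs
      have hw'' : w = w' + ((κ - κ' : ℤ) : G) * y' := by
        push_cast
        linear_combination hs - hs'
      have hkk : κ = κ' := by
        by_contra hne
        rcases lt_or_gt_of_ne hne with hlt | hlt
        · have := nm_conv (X := X) w y' (κ' - κ) (by omega) (mem_V.1 hp.2).1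
            (by rw [← hw']; exact (mem_V.1 hp'.2).1)
          linarith
        · have := nm_conv (X := X) w' y' (κ - κ') (by omega) (mem_V.1 hp'.2).1
            (by rw [← hw'']; exact (mem_V.1 hp.2).1)
          linarith
      have : w' = w := by
        rw [hw', hkk]; simp
      rw [this]

open Classical in
/-- The number of sign changes is at most the number of edges. Injective map: a consecutive pair `(z, w)`
with `F z ≠ F w` and `det z w = 1` is itself an edge. If `κ = det z w ≥ 2` take `y` from
`consec_structure` and the path `v_j = z - j y`, `0 ≤ j ≤ κ`, `v_κ = -w`: all `v_j` are in `V X` (norm by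
convexity, odd as `y` has two odd coordinates, primitive as `det v_j y = 1`), `F (-w) = F w`, so
`F v_j ≠ F v_(j+1)` for some `j`, and `(v_j, v_(j+1))` is an edge of determinant `-1`. The edge
`(a, b)` determines `y = a - b`, then `z` is the last point of the form `a + t y`, `t ≥ 0`, of norm `≤ X`
(convexity and `X < nm (z + y)`), and `-w` the last point `b - t y` (`X < nm (w + y)`). -/
theorem consec_card (F : G → ℝ) (hF : PM F) (X : ℝ) :
    ((V X ×ˢ V X).filter (fun p => Consec X p.1 p.2 ∧ F p.1 ≠ F p.2)).card ≤ (edges F X).card := by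
  apply Finset.card_le_card_of_forall_subsingleton (RE X)
  · rintro ⟨z, w⟩ hzw
    rw [Finset.mem_filter] at hzw
    obtain ⟨-, hc, hne⟩ := hzw
    simp only at hc hne
    have hc' := hc
    obtain ⟨hz, hw, hdet, hno⟩ := hc'
    obtain ⟨hzX, hzo, hzp⟩ := mem_V.1 hz
    obtain ⟨hwX, hwo, hwp⟩ := mem_V.1 hw
    by_cases h1 : det z w = 1
    · refine ⟨(z, w), ?_, Or.inl ⟨h1, rfl⟩⟩
      unfold edges
      rw [Finset.mem_filter, Finset.mem_product]
      exact ⟨⟨hz, hw⟩, by simp only [h1, abs_one], hne⟩
    · have h2 : 2 ≤ det z w := by omega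
      obtain ⟨y, hyo, hzy, hyw, hs, hX1, hX2⟩ := consec_structure X z w hc h2
      set κ := det z w with hκ
      have hend : z + ((-κ : ℤ) : G) * y = -w := by
        push_cast
        linear_combination hs
      have hyeven : Even (y.re + y.im) := by
        rw [odd_nm_iff, Int.not_odd_iff_even] at hyo
        exact hyo
      have hV : ∀ j : ℤ, 0 ≤ j → j ≤ κ → z + ((-j : ℤ) : G) * y ∈ V X := by
        intro j hj0 hj1
        refine mem_V.2 ⟨?_, ?_, ?_⟩
        · apply nm_conv' z y j κ hj0 hj1 (by linarith) hzX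
          rw [hend, nm_neg]; exact hwX
        · rw [odd_nm_iff]
          have : (z + ((-j : ℤ) : G) * y).re + (z + ((-j : ℤ) : G) * y).im =
              (z.re + z.im) - j * (y.re + y.im) := by
            simp; ring
          rw [this]
          exact (odd_nm_iff.1 hzo).sub_even (hyeven.mul_left _)
        · apply prim_of_det_eq_one (y := y)
          have : det (z + ((-j : ℤ) : G) * y) y = det z y := by
            simp [det]; ring
          rw [this, hzy]
      have hFend : F (z + ((-κ : ℤ) : G) * y) = F w := by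
        rw [hend, hF.neg hwo]
      -- find j
      have hex : ∃ j : ℕ, (j : ℤ) < κ ∧
          F (z + ((-(j : ℤ) : ℤ) : G) * y) ≠ F (z + ((-((j : ℤ) + 1) : ℤ) : G) * y) := by
        by_contra hall
        push Not at hall
        have hind : ∀ j : ℕ, (j : ℤ) ≤ κ → F (z + ((-(j : ℤ) : ℤ) : G) * y) = F z := by
          intro j
          induction j with
          | zero => intro _; simp
          | succ n ih =>
            intro hn
            have h3 := hall n (by push_cast at hn; linarith)
            have h4 := ih (by push_cast at hn; linarith)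
            rw [h4] at h3
            rw [h3]
            push_cast
            ring_nf
        have h5 := hind κ.toNat (by rw [Int.toNat_of_nonneg (by linarith)])
        rw [Int.toNat_of_nonneg (by linarith)] at h5
        rw [hFend] at h5
        exact hne h5.symm
      obtain ⟨j, hjκ, hj⟩ := hex
      refine ⟨(z + ((-(j : ℤ) : ℤ) : G) * y, z + ((-((j : ℤ) + 1) : ℤ) : G) * y), ?_, ?_⟩
      · unfold edges
        rw [Finset.mem_filter, Finset.mem_product]
        refine ⟨⟨hV j (by positivity) hjκ.le, hV (j + 1) (by positivity) (by omega)⟩, ?_, hj⟩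
        simp only
        rw [det_line, hzy]
        simp
      · exact Or.inr ⟨y, j, by positivity, hjκ, hs, hzy, rfl, rfl, hX1, hX2⟩
  · rintro e _ p hp p' hp'
    simp only [Finset.mem_filter, Finset.mem_product, Set.mem_ofPred_eq] at hp hp'
    exact RE_unique hp.1.1 hp'.1.1 hp.2 hp'.2

end Pool.Agent.GaussMR
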