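import Pool.Agent.Lib_MP_f1a94e_mr.Farey

/-!
# Piece CONSECA: structure of consecutive pairs
-/

set_option autoImplicit false

namespace Pool.Agent.GaussMR

/-- `z, w` consecutive in the angular order of `V X`, with angle less than `π` -/
def Consec (X : ℝ) (z w : G) : Prop :=
  z ∈ V X ∧ w ∈ V X ∧ 0 < det z w ∧ ∀ u ∈ V X, ¬(0 < det z u ∧ 0 < det u w)

theorem not_odd_coords {y : G} (h : ¬Odd (nm y)) (hp : Prim y) : Odd y.re ∧ Odd y.im := by
  rw [odd_nm_iff, Int.not_odd_iff_even] at h
  rcases Int.even_or_odd y.re with h1 | h1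
  · exfalso
    have h2 : Even y.im := by
      have := (Int.even_add.1 h).1 h1
      exact this
    obtain ⟨a, b, hab⟩ := hp
    have h3 : Even (a * y.re + b * y.im) := (h1.mul_left a).add (h2.mul_left b)
    rw [hab] at h3
    exact absurd h3 (by decide)
  · refine ⟨h1, ?_⟩
    rcases Int.even_or_odd y.im with h2 | h2
    · exfalso
      exact (Int.not_even_iff_odd.2 h1) ((Int.even_add.1 h).2 h2)
    · exact h2

theorem det_even_of_not_odd {y u : G} (hy : ¬Odd (nm y)) (hu : ¬Odd (nm u)) (py : Prim y)
    (pu : Prim u) : Even (det y u) := by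
  obtain ⟨a, b⟩ := not_odd_coords hy py
  obtain ⟨c, d⟩ := not_odd_coords hu pu
  unfold det
  exact (a.mul d).sub_odd (b.mul c)

theorem det_add_left (a b c : G) : det (a + b) c = det a c + det b c := by
  simp [det]; ring

theorem det_add_right (a b c : G) : det a (b + c) = det a b + det a c := by
  simp [det]; ring

theorem odd_nm_add {z y : G} (hz : Odd (nm z)) (hy : ¬Odd (nm y)) : Odd (nm (z + y)) := by
  rw [odd_nm_iff] at hz hy ⊢
  rw [Int.not_odd_iff_even] at hy
  have : (z + y).re + (z + y).im = (z.re + z.im) + (y.re + y.im) := by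
    simp; ring
  rw [this]
  exact hz.add_even hy

/-- Structure of consecutive pairs of determinant at least two: there is exactly one primitive vector
`y` of norm at most `X` between them, it is of even norm, `det z y = det y w = 1`, `z + w = κ y` with
`κ = det z w`, and `z + y`, `w + y` have norm larger than `X`. -/
theorem consec_structure (X : ℝ) (z w : G) (h : Consec X z w) (h2 : 2 ≤ det z w) :
    ∃ y : G, ¬Odd (nm y) ∧ det z y = 1 ∧ det y w = 1 ∧ z + w = ((det z w : ℤ) : G) * y ∧
      X < (nm (z + y) : ℝ) ∧ X < (nm (w + y) : ℝ) := by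
  obtain ⟨hz, hw, hdet, hno⟩ := h
  obtain ⟨hzX, hzo, hzp⟩ := mem_V.1 hz
  obtain ⟨hwX, hwo, hwp⟩ := mem_V.1 hw
  obtain ⟨y, hyp, hzy, hyw, hyw', hynm⟩ := farey_adj z w hzp hwp h2
  have hyX : (nm y : ℝ) ≤ X := by
    have h1 : (nm y : ℝ) ≤ ((max (nm z) (nm w) : ℕ) : ℝ) := by exact_mod_cast hynm
    rcases le_total (nm z) (nm w) with h3 | h3
    · rw [max_eq_right h3] at h1; exact h1.trans hwX
    · rw [max_eq_left h3] at h1; exact h1.trans hzX
  have hyo : ¬Odd (nm y) := by
    intro ho
    exact hno y (mem_V.2 ⟨hyX, ho, hyp⟩) ⟨by rw [hzy]; norm_num, hyw⟩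
  have hyw1 : det y w = 1 := by
    by_contra hne
    have h3 : 2 ≤ det y w := by omega
    obtain ⟨u, hup, hyu, huw, _, hunm⟩ := farey_adj y w hyp hwp h3
    have huX : (nm u : ℝ) ≤ X := by
      have h1 : (nm u : ℝ) ≤ ((max (nm y) (nm w) : ℕ) : ℝ) := by exact_mod_cast hunm
      rcases le_total (nm y) (nm w) with h3 | h3
      · rw [max_eq_right h3] at h1; exact h1.trans hwX
      · rw [max_eq_left h3] at h1; exact h1.trans hyX
    have huo : ¬Odd (nm u) := by
      intro ho
      refine hno u (mem_V.2 ⟨huX, ho, hup⟩) ⟨?_, huw⟩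
      -- det z u > 0 : y (det z ...) Cramer
      -- det y w * u = det u w * y + det y u * w
      have h5 := congrArg (fun t => det z t) (cramer y w u)
      have h6 : det z (((det y w : ℤ) : G) * u) = det y w * det z u := by
        simp [det]; ring
      have h7 : det z (((det u w : ℤ) : G) * y + ((det y u : ℤ) : G) * w) =
          det u w * det z y + det y u * det z w := by
        simp [det]; ring
      rw [h6, h7, hzy, hyu] at h5
      have h8 : 0 < det y w * det z u := by rw [h5]; nlinarith
      exact (mul_pos_iff_of_pos_left (by linarith)).1 h8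
    have h9 := det_even_of_not_odd hyo huo hyp hup
    rw [hyu] at h9
    exact absurd h9 (by decide)
  have hsum : z + w = ((det z w : ℤ) : G) * y := by
    have h5 := cramer z w y
    rw [hzy, hyw1] at h5
    rw [h5]; simp
  refine ⟨y, hyo, hzy, hyw1, hsum, ?_, ?_⟩
  · by_contra hle
    push Not at hle
    refine hno (z + y) (mem_V.2 ⟨hle, odd_nm_add hzo hyo, ?_⟩) ⟨?_, ?_⟩
    · apply prim_of_det_eq_one (y := y)
      rw [det_add_left, det_self, hzy, add_zero]
    · rw [det_add_right, det_self, hzy]; norm_num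
    · rw [det_add_left, hyw1]; linarith
  · by_contra hle
    push Not at hle
    refine hno (w + y) (mem_V.2 ⟨hle, odd_nm_add hwo hyo, ?_⟩) ⟨?_, ?_⟩
    · apply prim_of_det_eq_one' (y := y)
      rw [det_add_right, det_self, hyw1, add_zero]
    · rw [det_add_right, hzy]; linarith
    · rw [det_add_left, det_self, hyw1]; norm_num

end Pool.Agent.GaussMR
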