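import Pool.Agent.Lib_MP_f1a94e_mr.Defs

/-!
# Piece VDC: the Weyl - van der Corput inequality
-/

set_option autoImplicit false

namespace Pool.Agent.GaussMR

theorem vdc_norm_ee (x : ℝ) : ‖ee x‖ = 1 := by
  unfold ee
  rw [show 2 * (Real.pi : ℂ) * x * Complex.I = ((2 * Real.pi * x : ℝ) : ℂ) * Complex.I by push_cast; ring]
  exact Complex.norm_exp_ofReal_mul_I _

theorem vdc_ee_mul_conj (x y : ℝ) : ee x * (starRingEnd ℂ) (ee y) = ee (x - y) := by
  unfold ee
  rw [← Complex.exp_conj, ← Complex.exp_add]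
  congr 1
  simp only [map_mul, Complex.conj_ofReal, Complex.conj_I, map_ofNat]
  push_cast
  ring

theorem vdc_sum_shift (f : ℤ → ℂ) (p q c d h : ℤ) (hc : p + h ≤ c) (hd : d ≤ q + h)
    (hf : ∀ n, ¬ (c ≤ n ∧ n ≤ d) → f n = 0) :
    ∑ m ∈ Finset.Icc p q, f (m + h) = ∑ n ∈ Finset.Icc c d, f n := by
  have e : ∑ m ∈ Finset.Icc p q, f (m + h) = ∑ n ∈ (Finset.Icc p q).image (fun m => m + h), f n := by
    rw [Finset.sum_image]
    intro x _ y _ hxy
    exact add_right_cancel hxy
  rw [e]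
  symm
  apply Finset.sum_subset
  · intro n hn
    rw [Finset.mem_Icc] at hn
    rw [Finset.mem_image]
    exact ⟨n - h, Finset.mem_Icc.mpr ⟨by omega, by omega⟩, by ring⟩
  · intro n _ hn
    apply hf
    rwa [Finset.mem_Icc] at hn

/-- With `N = b - a + 1`: `H S = ∑_{m} ∑_{h < H} x_(m + h)` (`x` extended by zero), Cauchy-Schwarz over
the `N + H - 1 ≤ 2 N` values of `m`, and collect the pairs with difference `h`:
`|S|² ≤ ((N + H - 1) / H²) (H N + 2 ∑_{h=1}^{H-1} (H - h) |S_h|) ≤ 2 N² / H + 4 N M`. -/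
theorem vdC (φ : ℤ → ℝ) (a b : ℤ) (hab : a ≤ b) (H : ℕ) (hH : 1 ≤ H) (hH' : (H : ℤ) ≤ b - a + 1)
    (M : ℝ) (hM0 : 0 ≤ M)
    (hM : ∀ h : ℕ, 1 ≤ h → h < H → ‖∑ n ∈ Finset.Icc a (b - h), ee (φ (n + h) - φ n)‖ ≤ M) :
    ‖∑ n ∈ Finset.Icc a b, ee (φ n)‖ ^ 2 ≤
      2 * ((b : ℝ) - a + 1) ^ 2 / H + 4 * ((b : ℝ) - a + 1) * M := by
  set x : ℤ → ℂ := fun n => if a ≤ n ∧ n ≤ b then ee (φ n) else 0 with hx
  set I : Finset ℤ := Finset.Icc (a - (H : ℤ) + 1) b with hI
  set S : ℂ := ∑ n ∈ Finset.Icc a b, ee (φ n) with hS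
  set N : ℝ := (b : ℝ) - a + 1 with hN
  have hab' : (a : ℝ) ≤ b := by exact_mod_cast hab
  have hH0 : (0 : ℝ) < H := by exact_mod_cast hH
  have hN1 : 1 ≤ N := by linarith
  have hHN : (H : ℝ) ≤ N := by
    have : ((H : ℤ) : ℝ) ≤ ((b - a + 1 : ℤ) : ℝ) := by exact_mod_cast hH'
    push_cast at this
    linarith
  have hxS : ∑ n ∈ Finset.Icc a b, x n = S := by
    rw [hS]
    apply Finset.sum_congr rfl
    intro n hn
    rw [Finset.mem_Icc] at hn
    rw [hx]
    simp only [hn, and_self, if_true]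
  have h1 : ∀ h ∈ Finset.range H, ∑ m ∈ I, x (m + h) = S := by
    intro h hh
    rw [Finset.mem_range] at hh
    rw [hI, vdc_sum_shift x (a - (H : ℤ) + 1) b a b h (by omega) (by omega), hxS]
    intro n hn
    rw [hx]
    simp only [hn, if_false]
  set c : ℕ → ℕ → ℂ := fun h h' => ∑ m ∈ I, x (m + h) * (starRingEnd ℂ) (x (m + h')) with hc
  have hcardI : (I.card : ℝ) ≤ 2 * N := by
    rw [hI, Int.card_Icc]
    have h2 : ((b + 1 - (a - (H : ℤ) + 1)).toNat : ℤ) = b + 1 - (a - (H : ℤ) + 1) :=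
      Int.toNat_of_nonneg (by omega)
    have h3 : (((b + 1 - (a - (H : ℤ) + 1)).toNat : ℤ) : ℝ) = ((b + 1 - (a - (H : ℤ) + 1) : ℤ) : ℝ) := by
      rw [h2]
    push_cast at h3
    have h4 : (((b + 1 - (a - (H : ℤ) + 1)).toNat : ℕ) : ℝ) = b + 1 - (a - H + 1) := by
      exact_mod_cast h3
    rw [h4]
    linarith
  have hclt : ∀ h h' : ℕ, h' < h → h < H → ‖c h h'‖ ≤ M := by
    intro h h' hlt hh
    obtain ⟨k, rfl⟩ : ∃ k, h = h' + k := ⟨h - h', by omega⟩
    have hk1 : 1 ≤ k := by omega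
    have e : c (h' + k) h' = ∑ n ∈ Finset.Icc a (b - k), ee (φ (n + k) - φ n) := by
      rw [hc]
      simp only
      have e1 : ∀ m : ℤ, x (m + ((h' + k : ℕ) : ℤ)) * (starRingEnd ℂ) (x (m + h')) =
          (fun n : ℤ => x (n + k) * (starRingEnd ℂ) (x n)) (m + h') := by
        intro m
        simp only
        rw [show m + ((h' + k : ℕ) : ℤ) = m + h' + k by push_cast; ring]
      rw [Finset.sum_congr rfl (fun m _ => e1 m), hI,
        vdc_sum_shift (fun n : ℤ => x (n + k) * (starRingEnd ℂ) (x n)) (a - (H : ℤ) + 1) b a (b - k) h'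
          (by omega) (by omega)]
      · apply Finset.sum_congr rfl
        intro n hn
        rw [Finset.mem_Icc] at hn
        have t1 : x (n + k) = ee (φ (n + k)) := by
          rw [hx]
          simp only
          rw [if_pos ⟨by omega, by omega⟩]
        have t2 : x n = ee (φ n) := by
          rw [hx]
          simp only
          rw [if_pos ⟨by omega, by omega⟩]
        rw [t1, t2, vdc_ee_mul_conj]
      · intro n hn
        by_cases hna : a ≤ n
        · have : x (n + k) = 0 := by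
            rw [hx]
            simp only
            rw [if_neg]
            rintro ⟨_, h6⟩
            exact hn ⟨hna, by omega⟩
          rw [this, zero_mul]
        · have : x n = 0 := by
            rw [hx]
            simp only
            rw [if_neg]
            rintro ⟨h6, _⟩
            exact hna h6
          rw [this, map_zero, mul_zero]
    rw [e]
    exact hM k hk1 (by omega)
  have hcsymm : ∀ h h' : ℕ, ‖c h h'‖ = ‖c h' h‖ := by
    intro h h'
    have : c h h' = (starRingEnd ℂ) (c h' h) := by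
      rw [hc]
      simp only [map_sum, map_mul, Complex.conj_conj]
      apply Finset.sum_congr rfl
      intro m _
      rw [mul_comm]
    rw [this, Complex.norm_conj]
  have hceq : ∀ h : ℕ, h < H → ‖c h h‖ ≤ N := by
    intro h hh
    have e : c h h = ∑ n ∈ Finset.Icc a b, x n * (starRingEnd ℂ) (x n) := by
      rw [hc]
      simp only
      rw [hI, vdc_sum_shift (fun n : ℤ => x n * (starRingEnd ℂ) (x n)) (a - (H : ℤ) + 1) b a b h
          (by omega) (by omega)]
      intro n hn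
      have : x n = 0 := by
        rw [hx]
        simp only [hn, if_false]
      rw [this, zero_mul]
    rw [e]
    refine (norm_sum_le _ _).trans ?_
    have : ∀ n ∈ Finset.Icc a b, ‖x n * (starRingEnd ℂ) (x n)‖ ≤ 1 := by
      intro n hn
      rw [Finset.mem_Icc] at hn
      have t2 : x n = ee (φ n) := by
        rw [hx]
        simp only
        rw [if_pos hn]
      rw [t2, norm_mul, Complex.norm_conj, vdc_norm_ee, one_mul]
    refine (Finset.sum_le_sum this).trans ?_
    rw [Finset.sum_const, Int.card_Icc, nsmul_eq_mul, mul_one]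
    have h2 : ((b + 1 - a).toNat : ℤ) = b + 1 - a := Int.toNat_of_nonneg (by omega)
    have h3 : (((b + 1 - a).toNat : ℤ) : ℝ) = ((b + 1 - a : ℤ) : ℝ) := by rw [h2]
    push_cast at h3
    linarith
  have key : ((∑ m ∈ I, ‖∑ h ∈ Finset.range H, x (m + h)‖ ^ 2 : ℝ) : ℂ) =
      ∑ h ∈ Finset.range H, ∑ h' ∈ Finset.range H, c h h' := by
    push_cast
    have e1 : ∀ m : ℤ, ((‖∑ h ∈ Finset.range H, x (m + h)‖ : ℂ)) ^ 2 =
        ∑ h ∈ Finset.range H, ∑ h' ∈ Finset.range H, x (m + h) * (starRingEnd ℂ) (x (m + h')) := by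
      intro m
      rw [← Complex.mul_conj', map_sum, Finset.sum_mul_sum]
    rw [Finset.sum_congr rfl (fun m _ => e1 m), Finset.sum_comm]
    apply Finset.sum_congr rfl
    intro h _
    rw [Finset.sum_comm]
  have hsum : ∑ m ∈ I, ‖∑ h ∈ Finset.range H, x (m + h)‖ ^ 2 ≤ H * N + H ^ 2 * M := by
    have e1 : ∑ m ∈ I, ‖∑ h ∈ Finset.range H, x (m + h)‖ ^ 2 =
        ‖∑ h ∈ Finset.range H, ∑ h' ∈ Finset.range H, c h h'‖ := by
      rw [← key, Complex.norm_real, Real.norm_eq_abs, abs_of_nonneg]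
      exact Finset.sum_nonneg fun m _ => sq_nonneg _
    rw [e1]
    have e2 : ∀ h ∈ Finset.range H, ∀ h' ∈ Finset.range H, ‖c h h'‖ ≤ (if h = h' then N else 0) + M := by
      intro h hh h' hh'
      rw [Finset.mem_range] at hh hh'
      rcases lt_trichotomy h h' with hlt | rfl | hlt
      · rw [hcsymm, if_neg (by omega), zero_add]
        exact hclt h' h hlt hh'
      · rw [if_pos rfl]
        linarith [hceq h hh]
      · rw [if_neg (by omega), zero_add]
        exact hclt h h' hlt hh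
    calc ‖∑ h ∈ Finset.range H, ∑ h' ∈ Finset.range H, c h h'‖
        ≤ ∑ h ∈ Finset.range H, ∑ h' ∈ Finset.range H, ((if h = h' then N else 0) + M) := by
          refine (norm_sum_le _ _).trans (Finset.sum_le_sum fun h hh => ?_)
          exact (norm_sum_le _ _).trans (Finset.sum_le_sum fun h' hh' => e2 h hh h' hh')
      _ = H * N + H ^ 2 * M := by
          have : ∀ h ∈ Finset.range H, ∑ h' ∈ Finset.range H, ((if h = h' then N else 0) + M) =
              N + H * M := by
            intro h hh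
            rw [Finset.sum_add_distrib, Finset.sum_ite_eq, if_pos hh, Finset.sum_const,
              Finset.card_range, nsmul_eq_mul]
          rw [Finset.sum_congr rfl this, Finset.sum_const, Finset.card_range, nsmul_eq_mul]
          ring
  have hHS : (H : ℂ) * S = ∑ m ∈ I, ∑ h ∈ Finset.range H, x (m + h) := by
    rw [Finset.sum_comm, Finset.sum_congr rfl h1, Finset.sum_const, Finset.card_range, nsmul_eq_mul]
  have hCS : (H : ℝ) ^ 2 * ‖S‖ ^ 2 ≤ 2 * N * (H * N + H ^ 2 * M) := by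
    calc (H : ℝ) ^ 2 * ‖S‖ ^ 2 = ‖(H : ℂ) * S‖ ^ 2 := by
          rw [norm_mul, Complex.norm_natCast]
          ring
      _ = ‖∑ m ∈ I, ∑ h ∈ Finset.range H, x (m + h)‖ ^ 2 := by rw [hHS]
      _ ≤ (∑ m ∈ I, ‖∑ h ∈ Finset.range H, x (m + h)‖) ^ 2 := by
          gcongr
          exact norm_sum_le _ _
      _ ≤ I.card * ∑ m ∈ I, ‖∑ h ∈ Finset.range H, x (m + h)‖ ^ 2 := sq_sum_le_card_mul_sum_sq
      _ ≤ 2 * N * (H * N + H ^ 2 * M) := by gcongr
  have hfin : ‖S‖ ^ 2 ≤ 2 * N ^ 2 / H + 2 * N * M := by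
    have h5 : 2 * N ^ 2 / H + 2 * N * M = (2 * N * (H * N + H ^ 2 * M)) / H ^ 2 := by
      field_simp
    rw [h5, le_div_iff₀ (by positivity)]
    linarith
  have : 0 ≤ N * M := by positivity
  linarith

end Pool.Agent.GaussMR
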