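import Pool.Agent.Lib_MP_f1a94e_mr.DTTwo
import Pool.Agent.Lib_MP_f1a94e_mr.VdC

/-!
# Piece DT: higher derivative tests by Weyl differencing
-/

set_option autoImplicit false

namespace Pool.Agent.GaussMR

open scoped ContDiff

theorem dt_contDiff_shift (f : ℝ → ℝ) (hf : ContDiff ℝ ∞ f) (h : ℝ) :
    ContDiff ℝ ∞ (fun x => f (x + h)) :=
  hf.comp (contDiff_id.add contDiff_const)

/-- the derivative of the difference as a value of the next derivative -/
theorem dt_iter_diff (f : ℝ → ℝ) (hf : ContDiff ℝ ∞ f) (q : ℕ) (h : ℝ) (hh : 0 < h) (x : ℝ) :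
    ∃ y ∈ Set.Icc x (x + h), iteratedDeriv q (fun t => f (t + h) - f t) x =
      h * iteratedDeriv (q + 1) f y := by
  have e1 : iteratedDeriv q (fun t => f (t + h) - f t) x =
      iteratedDeriv q f (x + h) - iteratedDeriv q f x := by
    have hs : (fun t => f (t + h) - f t) = (fun t => f (t + h)) - f := rfl
    rw [hs, iteratedDeriv_sub]
    · congr 1
      have := congrFun (iteratedDeriv_comp_add_const q f h) x
      simpa using this
    · exact (dt_contDiff_shift f hf h).contDiffAt.of_le (by exact_mod_cast le_top)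
    · exact hf.contDiffAt.of_le (by exact_mod_cast le_top)
  have hd : ContDiff ℝ ∞ (iteratedDeriv q f) := by
    rw [iteratedDeriv_eq_iterate]
    exact hf.iterate_deriv q
  have hd' : Differentiable ℝ (iteratedDeriv q f) := hd.differentiable (by simp)
  obtain ⟨c, hc, hc'⟩ := exists_hasDerivAt_eq_slope (iteratedDeriv q f) (deriv (iteratedDeriv q f))
    (show x < x + h by linarith)
    (fun x _ => (hd' x).continuousAt.continuousWithinAt) (fun x _ => (hd' x).hasDerivAt)
  refine ⟨c, ⟨hc.1.le, hc.2.le⟩, ?_⟩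
  rw [e1, iteratedDeriv_succ, hc']
  have : x + h - x = h := by ring
  rw [this]
  field_simp

set_option linter.unusedVariables false in
/-- Weyl differencing with `H = ⌊L^β⌋` (`vdC`; if `b - a + 1 < H` use the trivial bound): for `1 ≤ h < H`
the function `g x = f (x + h) - f x` has `iteratedDeriv q g x = h * iteratedDeriv (q+1) f ξ`
(mean value theorem for `iteratedDeriv q f`), in `[h lam, h Lam]`, and `h Lam ≤ L^β L^(-2β) = L^(-β)`.
So `|S|² ≤ 2 N² / H + 4 N C L^(1-η)`, `N ≤ 2 L`. -/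
theorem dt_step (q : ℕ) (β η C : ℝ) (hβ : 0 < β) (hβ' : β ≤ 1 / 4) (hη : 0 < η) (hη' : η ≤ β)
    (hC : 0 < C) (h : DTest q β η C) : ∃ C' : ℝ, 0 < C' ∧ DTest (q + 1) (2 * β) (η / 2) C' := by
  refine ⟨Real.sqrt (16 + 8 * C) + 1, by positivity, ?_⟩
  intro f hf a b L lam Lam hab hL hbL h1 h2 h3 h4 h5
  have hL0 : 0 < L := by linarith
  have hlam : 0 < lam := lt_of_lt_of_le (Real.rpow_pos_of_pos hL0 _) h1
  have hLam : 0 < Lam := lt_of_lt_of_le hlam h2
  set P : ℝ := L ^ (1 - η / 2) with hP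
  have hP0 : 0 < P := Real.rpow_pos_of_pos hL0 _
  have hLβ : 1 ≤ L ^ β := Real.one_le_rpow hL hβ.le
  set H : ℕ := ⌊L ^ β⌋₊ with hH
  have hH1 : 1 ≤ H := Nat.le_floor (by simpa using hLβ)
  have hHle : (H : ℝ) ≤ L ^ β := Nat.floor_le (by positivity)
  have hHge : L ^ β / 2 ≤ H := by
    have hlt : L ^ β < (H : ℝ) + 1 := Nat.lt_floor_add_one _
    have : (1 : ℝ) ≤ H := by exact_mod_cast hH1
    linarith
  have hba : (0 : ℝ) ≤ (b : ℝ) - a := by
    have : (a : ℝ) ≤ b := by exact_mod_cast hab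
    linarith
  have hsq : P ^ 2 = L ^ (2 - η) := by
    rw [hP, ← Real.rpow_natCast, ← Real.rpow_mul hL0.le]
    norm_num
    ring_nf
  by_cases hcase : (H : ℤ) ≤ b - a + 1
  · -- the main case
    have hM : ∀ k : ℕ, 1 ≤ k → k < H →
        ‖∑ n ∈ Finset.Icc a (b - k), ee (f ((n + k : ℤ)) - f n)‖ ≤ C * L ^ (1 - η) := by
      intro k hk1 hkH
      have hk0 : (0 : ℝ) < k := by exact_mod_cast hk1
      have hkβ : (k : ℝ) ≤ L ^ β := le_trans (by exact_mod_cast hkH.le) hHle
      have hg : ContDiff ℝ ∞ (fun t => f (t + k) - f t) := (dt_contDiff_shift f hf k).sub hf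
      have := h (fun t => f (t + k) - f t) hg a (b - k) L (k * lam) (k * Lam) (by omega) hL
        (by push_cast; linarith) ?_ (by gcongr) ?_ ?_ ?_
      · convert this using 4
        push_cast
        rfl
      · refine h1.trans ?_
        have : (1 : ℝ) ≤ k := by exact_mod_cast hk1
        nlinarith
      · calc (k : ℝ) * Lam ≤ L ^ β * L ^ (-(2 * β)) := by gcongr
          _ = L ^ (-β) := by
            rw [← Real.rpow_add hL0]
            ring_nf
      · calc (k : ℝ) * Lam ≤ k * (lam * L ^ (1 / 100 : ℝ)) := by gcongr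
          _ = k * lam * L ^ (1 / 100 : ℝ) := by ring
      · intro x hx
        obtain ⟨y, hy, hy'⟩ := dt_iter_diff f hf q k hk0 x
        rw [hy']
        have hmem : y ∈ Set.Icc (a : ℝ) b := by
          refine ⟨hx.1.trans hy.1, hy.2.trans ?_⟩
          have := hx.2
          push_cast at this
          linarith
        obtain ⟨g1, g2⟩ := h5 y hmem
        exact ⟨by gcongr, by gcongr⟩
    have hv := vdC (fun n : ℤ => f n) a b hab H hH1 hcase (C * L ^ (1 - η)) (by positivity) hM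
    have hN : (b : ℝ) - a + 1 ≤ 2 * L := by linarith
    have hN0 : (0 : ℝ) ≤ (b : ℝ) - a + 1 := by linarith
    have hH0 : (0 : ℝ) < H := by exact_mod_cast hH1
    have t1 : 2 * ((b : ℝ) - a + 1) ^ 2 / H ≤ 16 * P ^ 2 := by
      rw [div_le_iff₀ hH0]
      have s1 : L ^ 2 ≤ P ^ 2 * L ^ β := by
        rw [hsq, ← Real.rpow_add hL0, ← Real.rpow_natCast]
        apply Real.rpow_le_rpow_of_exponent_le hL
        push_cast
        linarith
      calc 2 * ((b : ℝ) - a + 1) ^ 2 ≤ 2 * (2 * L) ^ 2 := by gcongr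
        _ = 8 * L ^ 2 := by ring
        _ ≤ 8 * (P ^ 2 * L ^ β) := by gcongr
        _ = 16 * P ^ 2 * (L ^ β / 2) := by ring
        _ ≤ 16 * P ^ 2 * H := by gcongr
    have t2 : 4 * ((b : ℝ) - a + 1) * (C * L ^ (1 - η)) ≤ 8 * C * P ^ 2 := by
      have s2 : L * L ^ (1 - η) = P ^ 2 := by
        rw [hsq]
        nth_rewrite 1 [← Real.rpow_one L]
        rw [← Real.rpow_add hL0]
        ring_nf
      calc 4 * ((b : ℝ) - a + 1) * (C * L ^ (1 - η)) ≤ 4 * (2 * L) * (C * L ^ (1 - η)) := by gcongr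
        _ = 8 * C * (L * L ^ (1 - η)) := by ring
        _ = 8 * C * P ^ 2 := by rw [s2]
    have t3 : ‖∑ n ∈ Finset.Icc a b, ee (f n)‖ ^ 2 ≤ (16 + 8 * C) * P ^ 2 := by
      refine hv.trans ?_
      linarith
    have t4 : ‖∑ n ∈ Finset.Icc a b, ee (f n)‖ ≤ Real.sqrt ((16 + 8 * C) * P ^ 2) :=
      Real.le_sqrt_of_sq_le t3
    rw [Real.sqrt_mul (by positivity), Real.sqrt_sq hP0.le] at t4
    linarith
  · -- the trivial bound
    have hcard : ‖∑ n ∈ Finset.Icc a b, ee (f n)‖ ≤ (b : ℝ) - a + 1 := by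
      refine (norm_sum_le _ _).trans ?_
      rw [Finset.sum_congr rfl (fun (n : ℤ) _ => vdc_norm_ee (f n))]
      rw [Finset.sum_const, Int.card_Icc, nsmul_eq_mul, mul_one]
      have : ((b + 1 - a).toNat : ℤ) = b + 1 - a := Int.toNat_of_nonneg (by omega)
      have h' : (((b + 1 - a).toNat : ℤ) : ℝ) = ((b + 1 - a : ℤ) : ℝ) := by rw [this]
      push_cast at h'
      linarith
    have hlt : (b : ℝ) - a + 1 ≤ H := by
      have : b - a + 1 ≤ (H : ℤ) := by omega
      exact_mod_cast this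
    have hβP : L ^ β ≤ P := by
      apply Real.rpow_le_rpow_of_exponent_le hL
      linarith
    have hsqrt : 0 ≤ Real.sqrt (16 + 8 * C) := Real.sqrt_nonneg _
    calc ‖∑ n ∈ Finset.Icc a b, ee (f n)‖ ≤ P := by linarith
      _ = 1 * P := (one_mul _).symm
      _ ≤ (Real.sqrt (16 + 8 * C) + 1) * P := by
        gcongr
        linarith

theorem DTest.mono {q : ℕ} {β η C : ℝ} (h : DTest q β η C) (η' C' : ℝ) (hη : η' ≤ η) (hC : C ≤ C')
    (hC0 : 0 ≤ C) : DTest q β η' C' := by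
  intro f hf a b L lam Lam hab hL hbL h1 h2 h3 h4 h5
  refine (h f hf a b L lam Lam hab hL hbL h1 h2 h3 h4 h5).trans ?_
  have : L ^ (1 - η) ≤ L ^ (1 - η') := Real.rpow_le_rpow_of_exponent_le hL (by linarith)
  have h0 : 0 ≤ L ^ (1 - η) := by positivity
  have h0' : 0 ≤ C' := hC0.trans hC
  gcongr

/-- `β_q = 2^q / 64` for `q = 2, 3, 4, 5` and a common `η = 1/400` -/
theorem dt_all : ∃ C : ℝ, 0 < C ∧ ∀ q : ℕ, 2 ≤ q → q ≤ 5 → DTest q ((2 : ℝ) ^ q / 64) (1 / 400) C := by
  obtain ⟨C3, h30, h3⟩ := dt_step 2 (1 / 16) (1 / 50) 100 (by norm_num) (by norm_num) (by norm_num)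
    (by norm_num) (by norm_num) dt_two
  obtain ⟨C4, h40, h4⟩ := dt_step 3 (2 * (1 / 16)) (1 / 50 / 2) C3 (by norm_num) (by norm_num)
    (by norm_num) (by norm_num) h30 h3
  obtain ⟨C5, h50, h5⟩ := dt_step 4 (2 * (2 * (1 / 16))) (1 / 50 / 2 / 2) C4 (by norm_num)
    (by norm_num) (by norm_num) (by norm_num) h40 h4
  refine ⟨100 + C3 + C4 + C5, by positivity, ?_⟩
  intro q hq hq'
  interval_cases q
  · rw [show (2 : ℝ) ^ 2 / 64 = 1 / 16 by norm_num]
    exact dt_two.mono _ _ (by norm_num) (by linarith) (by norm_num)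
  · rw [show (2 : ℝ) ^ 3 / 64 = 2 * (1 / 16) by norm_num]
    exact h3.mono _ _ (by norm_num) (by linarith) h30.le
  · rw [show (2 : ℝ) ^ 4 / 64 = 2 * (2 * (1 / 16)) by norm_num]
    exact h4.mono _ _ (by norm_num) (by linarith) h40.le
  · rw [show (2 : ℝ) ^ 5 / 64 = 2 * (2 * (2 * (1 / 16))) by norm_num]
    exact h5.mono _ _ (by norm_num) (by linarith) h50.le

end Pool.Agent.GaussMR
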