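import Pool.Agent.Lib_MP_f1a94e_mr.SecondDeriv

/-!
# Piece DTTWO: derivative tests (weak form), definition and `q = 2`
-/

set_option autoImplicit false

namespace Pool.Agent.GaussMR

open scoped ContDiff

/-- the `q`-th derivative test with parameters `β, η, C` -/
def DTest (q : ℕ) (β η C : ℝ) : Prop :=
  ∀ (f : ℝ → ℝ), ContDiff ℝ ∞ f → ∀ (a b : ℤ) (L lam Lam : ℝ), a ≤ b → 1 ≤ L → (b : ℝ) - a ≤ L →
    L ^ (-(7 / 4 : ℝ)) ≤ lam → lam ≤ Lam → Lam ≤ L ^ (-β) → Lam ≤ lam * L ^ (1 / 100 : ℝ) →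
    (∀ x ∈ Set.Icc (a : ℝ) b, lam ≤ iteratedDeriv q f x ∧ iteratedDeriv q f x ≤ Lam) →
    ‖∑ n ∈ Finset.Icc a b, ee (f n)‖ ≤ C * L ^ (1 - η)

/-- second difference as a second derivative -/
theorem dt_second_diff (f : ℝ → ℝ) (hf : ContDiff ℝ ∞ f) (n : ℝ) :
    ∃ x ∈ Set.Icc n (n + 2), f (n + 2) - 2 * f (n + 1) + f n = iteratedDeriv 2 f x := by
  have hd : Differentiable ℝ f := hf.differentiable (by simp)
  have hd1 : ContDiff ℝ ∞ (deriv f) := by
    have := hf.iterate_deriv 1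
    simpa using this
  have hd2 : Differentiable ℝ (deriv f) := hd1.differentiable (by simp)
  have hg : ∀ x, HasDerivAt (fun y => f (y + 1) - f y) (deriv f (x + 1) - deriv f x) x := by
    intro x
    have h1 : HasDerivAt (fun y => f (y + 1)) (deriv f (x + 1)) x := by
      have := (hd (x + 1)).hasDerivAt.comp_add_const x 1
      simpa using this
    exact h1.sub (hd x).hasDerivAt
  obtain ⟨c, hc, hc'⟩ := exists_hasDerivAt_eq_slope (fun y => f (y + 1) - f y)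
    (fun x => deriv f (x + 1) - deriv f x) (show n < n + 1 by linarith)
    (fun x _ => (hg x).continuousAt.continuousWithinAt) (fun x _ => hg x)
  obtain ⟨d, hd', hd''⟩ := exists_hasDerivAt_eq_slope (deriv f) (deriv (deriv f))
    (show c < c + 1 by linarith)
    (fun x _ => (hd2 x).continuousAt.continuousWithinAt) (fun x _ => (hd2 x).hasDerivAt)
  refine ⟨d, ⟨?_, ?_⟩, ?_⟩
  · linarith [hc.1, hd'.1]
  · linarith [hc.2, hd'.2]
  · have e1 : iteratedDeriv 2 f d = deriv (deriv f) d := by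
      rw [iteratedDeriv_succ, iteratedDeriv_one]
    rw [e1, hd'']
    have e2 : (f (n + 1 + 1) - f (n + 1) - (f (n + 1) - f n)) / (n + 1 - n) =
      f (n + 2) - 2 * f (n + 1) + f n := by
      rw [show n + 1 - n = 1 by ring, show n + 1 + 1 = n + 2 by ring]
      ring
    rw [← e2, ← hc']
    simp

/-- from `second_deriv`: `L Lam lam^(-1/2) ≤ L lam^(1/2) L^(1/100) ≤ L^(1 - 1/32 + 1/100)`,
`lam^(-1/2) ≤ L^(7/8)`, `L Lam ≤ L^(15/16)` -/
theorem dt_two : DTest 2 (1 / 16) (1 / 50) 100 := by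
  intro f hf a b L lam Lam hab hL hbL h1 h2 h3 h4 h5
  have hL0 : 0 < L := by linarith
  have hlam : 0 < lam := lt_of_lt_of_le (Real.rpow_pos_of_pos hL0 _) h1
  have hLam : 0 < Lam := lt_of_lt_of_le hlam h2
  have hLam1 : Lam ≤ 1 := h3.trans (Real.rpow_le_one_of_one_le_of_nonpos hL (by norm_num))
  have hsd : ∀ n : ℤ, a ≤ n → n + 1 < b → lam ≤ f ((n : ℤ) + 2 : ℤ) - 2 * f ((n + 1 : ℤ)) + f n ∧
      f ((n : ℤ) + 2 : ℤ) - 2 * f ((n + 1 : ℤ)) + f n ≤ Lam := by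
    intro n hn hn'
    obtain ⟨x, hx, hx'⟩ := dt_second_diff f hf n
    have hn1 : (a : ℝ) ≤ n := by exact_mod_cast hn
    have hn2 : (n : ℝ) + 2 ≤ b := by
      have : n + 2 ≤ b := by omega
      exact_mod_cast this
    push_cast
    rw [hx']
    exact h5 x ⟨hn1.trans hx.1, hx.2.trans hn2⟩
  have hmain := second_deriv (fun n : ℤ => f n) a b hab lam Lam hlam h2 hLam1
    (fun n hn hn' => (hsd n hn hn').1) (fun n hn hn' => (hsd n hn hn').2)
  refine hmain.trans ?_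
  have hs : 0 < Real.sqrt lam := Real.sqrt_pos.mpr hlam
  have hba : (0 : ℝ) ≤ (b : ℝ) - a := by
    have : (a : ℝ) ≤ b := by exact_mod_cast hab
    linarith
  have e1 : ((b : ℝ) - a) * Lam ≤ L * L ^ (-(1 / 16) : ℝ) := by gcongr
  have e1' : L * L ^ (-(1 / 16) : ℝ) = L ^ (15 / 16 : ℝ) := by
    nth_rewrite 1 [← Real.rpow_one L]
    rw [← Real.rpow_add hL0]
    norm_num
  have e2 : 1 / Real.sqrt lam ≤ L ^ (7 / 8 : ℝ) := by
    rw [one_div, inv_le_comm₀ hs (Real.rpow_pos_of_pos hL0 _), ← Real.rpow_neg hL0.le]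
    apply Real.le_sqrt_of_sq_le
    rw [← Real.rpow_natCast, ← Real.rpow_mul hL0.le]
    convert h1 using 2
    norm_num
  have e3 : ((b : ℝ) - a) * Lam * (1 / Real.sqrt lam) ≤ L ^ (49 / 50 : ℝ) := by
    have s1 : Real.sqrt lam ≤ L ^ (-(1 / 32) : ℝ) := by
      apply Real.sqrt_le_iff.mpr
      refine ⟨(Real.rpow_pos_of_pos hL0 _).le, ?_⟩
      rw [← Real.rpow_natCast, ← Real.rpow_mul hL0.le]
      refine (h2.trans h3).trans (le_of_eq ?_)
      norm_num
    have s2 : Lam * (1 / Real.sqrt lam) ≤ Real.sqrt lam * L ^ (1 / 100 : ℝ) := by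
      rw [mul_one_div, div_le_iff₀ hs]
      calc Lam ≤ lam * L ^ (1 / 100 : ℝ) := h4
        _ = Real.sqrt lam * L ^ (1 / 100 : ℝ) * Real.sqrt lam := by
          rw [mul_right_comm, Real.mul_self_sqrt hlam.le]
    calc ((b : ℝ) - a) * Lam * (1 / Real.sqrt lam) = ((b : ℝ) - a) * (Lam * (1 / Real.sqrt lam)) := by
          ring
      _ ≤ L * (L ^ (-(1 / 32) : ℝ) * L ^ (1 / 100 : ℝ)) := by
          apply mul_le_mul hbL (s2.trans _) (by positivity) hL0.le
          gcongr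
      _ = L ^ (1 + (-(1 / 32)) + 1 / 100 : ℝ) := by
          rw [Real.rpow_add hL0, Real.rpow_add hL0, Real.rpow_one]
          ring
      _ ≤ L ^ (49 / 50 : ℝ) := by
          apply Real.rpow_le_rpow_of_exponent_le hL
          norm_num
  have g1 : L ^ (15 / 16 : ℝ) ≤ L ^ (49 / 50 : ℝ) := by
    apply Real.rpow_le_rpow_of_exponent_le hL
    norm_num
  have g2 : L ^ (7 / 8 : ℝ) ≤ L ^ (49 / 50 : ℝ) := by
    apply Real.rpow_le_rpow_of_exponent_le hL
    norm_num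
  have g3 : (1 : ℝ) ≤ L ^ (49 / 50 : ℝ) := Real.one_le_rpow hL (by norm_num)
  have e4 : L ^ (1 - 1 / 50 : ℝ) = L ^ (49 / 50 : ℝ) := by norm_num
  rw [e4]
  have e5 : 20 * (((b : ℝ) - a) * Lam + 1) * (1 / Real.sqrt lam + 1) =
      20 * (((b : ℝ) - a) * Lam * (1 / Real.sqrt lam) + ((b : ℝ) - a) * Lam +
        1 / Real.sqrt lam + 1) := by ring
  rw [e5]
  rw [e1'] at e1
  nlinarith [e1, e2, e3, g1, g2, g3]

end Pool.Agent.GaussMR
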