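import Pool.Agent.Lib_MP_f1a94e_mr.Ball

/-!
# Piece DIVCOUNT: divisors that are almost primes
-/

set_option autoImplicit false

namespace Pool.Agent.GaussMR

/-- divisors of `z` all of whose prime factors have norm at least `B` -/
def bigDiv (B : ℝ) (z : G) : Set G := {u : G | u ∣ z ∧ ∀ p : G, Prime p → p ∣ u → B ≤ (nm p : ℝ)}

theorem bigDiv_finite (B : ℝ) {z : G} (hz : z ≠ 0) : (bigDiv B z).Finite := by
  refine (finite_ball (nm z : ℝ)).subset ?_
  rintro u ⟨hu, -⟩
  have : nm u ≤ nm z := Nat.le_of_dvd (nm_pos hz) (nm_dvd hu)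
  show (nm u : ℝ) ≤ nm z
  exact_mod_cast this

theorem ncard_units : Set.ncard {u : G | IsUnit u} ≤ 4 := by
  classical
  have h : {u : G | IsUnit u} ⊆
      (({⟨1, 0⟩, ⟨-1, 0⟩, ⟨0, 1⟩, ⟨0, -1⟩} : Finset G) : Set G) := by
    intro u hu
    have h1 : nm u = 1 := nm_eq_one_iff.2 hu
    have h2 : (nm u : ℤ) = 1 := by exact_mod_cast h1
    rw [nm_eq] at h2
    have a1 : u.re ^ 2 ≤ 1 := by nlinarith [sq_nonneg u.im]
    have a2 : u.im ^ 2 ≤ 1 := by nlinarith [sq_nonneg u.re]
    have b1 : -1 ≤ u.re ∧ u.re ≤ 1 := abs_le.1 ((sq_le_one_iff_abs_le_one _).1 a1)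
    have b2 : -1 ≤ u.im ∧ u.im ≤ 1 := abs_le.1 ((sq_le_one_iff_abs_le_one _).1 a2)
    obtain ⟨x, y⟩ := u
    simp only at b1 b2 h2
    obtain ⟨c1, c2⟩ := b1
    obtain ⟨d1, d2⟩ := b2
    simp only [Finset.coe_insert, Finset.coe_singleton, Set.mem_insert_iff, Set.mem_singleton_iff,
      Zsqrtd.ext_iff]
    interval_cases x <;> interval_cases y <;> simp_all
  refine (Set.ncard_le_ncard h (Finset.finite_toSet _)).trans ?_
  rw [Set.ncard_coe_finset]
  exact Finset.card_le_four

theorem ncard_bigDiv {B : ℝ} (hB : 1 < B) (k : ℕ) : ∀ z : G, z ≠ 0 → (nm z : ℝ) < B ^ (k + 1) →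
    (bigDiv B z).ncard ≤ 4 * 2 ^ k := by
  induction k with
  | zero =>
    intro z hz hzB
    rw [zero_add, pow_one] at hzB
    have hsub : bigDiv B z ⊆ {u : G | IsUnit u} := by
      rintro u ⟨hu, hp⟩
      by_contra hun
      have hu0 : u ≠ 0 := fun h => hz (by rw [h] at hu; exact zero_dvd_iff.1 hu)
      obtain ⟨p, hpirr, hpu⟩ := WfDvdMonoid.exists_irreducible_factor hun hu0
      have hpp : Prime p := hpirr.prime
      have h1 := hp p hpp hpu
      have h2 : nm p ≤ nm z := Nat.le_of_dvd (nm_pos hz) (nm_dvd (hpu.trans hu))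
      have h3 : (nm p : ℝ) ≤ nm z := by exact_mod_cast h2
      linarith
    have hfin : {u : G | IsUnit u}.Finite := by
      refine (finite_ball 1).subset ?_
      intro u hu
      show (nm u : ℝ) ≤ 1
      have : nm u = 1 := nm_eq_one_iff.2 hu
      rw [this]
      norm_num
    calc (bigDiv B z).ncard ≤ Set.ncard {u : G | IsUnit u} := Set.ncard_le_ncard hsub hfin
      _ ≤ 4 := ncard_units
      _ = 4 * 2 ^ 0 := by norm_num
  | succ k ih =>
    intro z hz hzB
    by_cases hex : ∃ p : G, Prime p ∧ p ∣ z ∧ B ≤ (nm p : ℝ)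
    · obtain ⟨p, hp, ⟨w, rfl⟩, hpB⟩ := hex
      have hw : w ≠ 0 := right_ne_zero_of_mul hz
      have hp0 : p ≠ 0 := left_ne_zero_of_mul hz
      have hwB : (nm w : ℝ) < B ^ (k + 1) := by
        rw [nm_mul, Nat.cast_mul] at hzB
        have h1 : B * (nm w : ℝ) ≤ nm p * nm w := mul_le_mul_of_nonneg_right hpB (by positivity)
        have h2 : B * (nm w : ℝ) < B * B ^ (k + 1) := by
          calc B * (nm w : ℝ) ≤ nm p * nm w := h1
            _ < B ^ (k + 1 + 1) := hzB
            _ = B * B ^ (k + 1) := by ring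
        exact lt_of_mul_lt_mul_left h2 (by linarith)
      have hsub : bigDiv B (p * w) ⊆ bigDiv B w ∪ (fun u => p * u) '' bigDiv B w := by
        rintro u ⟨hu, hq⟩
        by_cases hpu : p ∣ u
        · obtain ⟨v, rfl⟩ := hpu
          right
          refine ⟨v, ⟨(mul_dvd_mul_iff_left hp0).1 hu, fun q hqp hqv => ?_⟩, rfl⟩
          exact hq q hqp (hqv.mul_left p)
        · left
          refine ⟨?_, hq⟩
          have hcop : IsCoprime u p := (hp.irreducible.coprime_iff_not_dvd.2 hpu).symm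
          exact hcop.dvd_of_dvd_mul_left hu
      have hfin := bigDiv_finite B hw
      calc (bigDiv B (p * w)).ncard
          ≤ (bigDiv B w ∪ (fun u => p * u) '' bigDiv B w).ncard :=
            Set.ncard_le_ncard hsub (hfin.union (hfin.image _))
        _ ≤ (bigDiv B w).ncard + ((fun u => p * u) '' bigDiv B w).ncard := Set.ncard_union_le _ _
        _ ≤ (bigDiv B w).ncard + (bigDiv B w).ncard :=
            Nat.add_le_add_left (Set.ncard_image_le hfin) _
        _ ≤ 4 * 2 ^ k + 4 * 2 ^ k := Nat.add_le_add (ih w hw hwB) (ih w hw hwB)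
        _ = 4 * 2 ^ (k + 1) := by ring
    · push Not at hex
      have hsub : bigDiv B z ⊆ {u : G | IsUnit u} := by
        rintro u ⟨hu, hp⟩
        by_contra hun
        have hu0 : u ≠ 0 := fun h => hz (by rw [h] at hu; exact zero_dvd_iff.1 hu)
        obtain ⟨p, hpirr, hpu⟩ := WfDvdMonoid.exists_irreducible_factor hun hu0
        have hpp : Prime p := hpirr.prime
        have h1 := hp p hpp hpu
        have h2 := hex p hpp (hpu.trans hu)
        linarith
      have hfin : {u : G | IsUnit u}.Finite := by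
        refine (finite_ball 1).subset ?_
        intro u hu
        show (nm u : ℝ) ≤ 1
        have : nm u = 1 := nm_eq_one_iff.2 hu
        rw [this]
        norm_num
      calc (bigDiv B z).ncard ≤ Set.ncard {u : G | IsUnit u} := Set.ncard_le_ncard hsub hfin
        _ ≤ 4 := ncard_units
        _ ≤ 4 * 2 ^ (k + 1) := Nat.le_mul_of_pos_right _ (by positivity)

/-- an element of norm `≤ X` has at most `1 / a` prime factors (with multiplicity) of norm `≥ X^a`, and a
divisor composed of such primes is a sub-product up to one of the four units -/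
theorem div_count (a : ℝ) (ha : 0 < a) : ∃ C : ℝ, 0 < C ∧ ∀ (X : ℝ), 2 ≤ X → ∀ z : G, z ≠ 0 →
    (nm z : ℝ) ≤ X → (Set.ncard {u : G | u ∈ AA a X ∧ u ∣ z} : ℝ) ≤ C := by
  classical
  set k : ℕ := ⌈1 / a⌉₊ with hk
  refine ⟨4 * 2 ^ k, by positivity, fun X hX z hz hzX => ?_⟩
  have hX1 : 1 < X := by linarith
  have hB : 1 < X ^ a := Real.one_lt_rpow hX1 ha
  have hlt : X < (X ^ a) ^ (k + 1) := by
    rw [← Real.rpow_natCast, ← Real.rpow_mul (by linarith)]
    have h1 : 1 / a ≤ k := Nat.le_ceil _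
    have h2 : 1 ≤ a * k := by
      rw [div_le_iff₀ ha] at h1
      linarith
    have h3 : (1 : ℝ) < a * ((k + 1 : ℕ) : ℝ) := by
      push_cast
      nlinarith
    calc X = X ^ (1 : ℝ) := (Real.rpow_one X).symm
      _ < _ := Real.rpow_lt_rpow_of_exponent_lt hX1 h3
  have hcount := ncard_bigDiv hB k z hz (hzX.trans_lt hlt)
  have hsub : {u : G | u ∈ AA a X ∧ u ∣ z} ⊆ bigDiv (X ^ a) z := by
    rintro u ⟨hu, huz⟩
    refine ⟨huz, ?_⟩
    simp only [AA, Finset.mem_filter] at hu
    exact hu.2.2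
  have h1 := (Set.ncard_le_ncard hsub (bigDiv_finite _ hz)).trans hcount
  exact_mod_cast h1

theorem tele_Ico (n M : ℕ) (hn : 1 ≤ n) (h : n ≤ M + 1) :
    ∑ m ∈ Finset.Ico n (M + 1), (1 / (m : ℝ) - 1 / ((m : ℝ) + 1)) =
      1 / (n : ℝ) - 1 / ((M : ℝ) + 1) := by
  induction M with
  | zero =>
    have : n = 1 := by omega
    subst this
    simp
  | succ M ih =>
    rcases Nat.lt_or_ge n (M + 2) with h1 | h1
    · rw [Finset.sum_Ico_succ_top (by omega), ih (by omega)]
      push_cast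
      ring
    · have : n = M + 1 + 1 := by omega
      subst this
      simp

/-- `∑_{u ∈ AA a X} 1 / nm u ≤ ∑_{0 < nm z ≤ X} 1 / nm z ≤ C log X` (dyadic, `card_ball_le`) -/
theorem AA_sum : ∃ C : ℝ, 0 < C ∧ ∀ (a X : ℝ), 2 ≤ X →
    ∑ u ∈ AA a X, 1 / (nm u : ℝ) ≤ C * Real.log X := by
  classical
  refine ⟨36, by norm_num, fun a X hX => ?_⟩
  have hX0 : 0 < X := by linarith
  set X' : ℝ := X ^ (13 / 25 : ℝ) with hX'
  have hX'1 : 1 ≤ X' := Real.one_le_rpow (by linarith) (by norm_num)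
  have hX'X : X' ≤ X := by
    calc X' ≤ X ^ (1 : ℝ) := Real.rpow_le_rpow_of_exponent_le (by linarith) (by norm_num)
      _ = X := Real.rpow_one X
  set M : ℕ := ⌊X'⌋₊ with hM
  have hM1 : 1 ≤ M := by
    rw [hM, Nat.one_le_floor_iff]
    exact hX'1
  have hMX : (M : ℝ) ≤ X' := Nat.floor_le (by linarith)
  have hXM : X' < M + 1 := Nat.lt_floor_add_one X'
  set S : Finset G := (ball X').filter (fun z => z ≠ 0) with hS
  have hsub : AA a X ⊆ S := by
    intro u hu
    simp only [AA, Finset.mem_filter, mem_V] at hu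
    rw [hS, Finset.mem_filter, mem_ball]
    exact ⟨hu.1.1, ne_zero_of_odd hu.1.2.1⟩
  have hSn : ∀ z ∈ S, 1 ≤ nm z ∧ nm z ≤ M := by
    intro z hz
    rw [hS, Finset.mem_filter, mem_ball] at hz
    exact ⟨nm_pos hz.2, Nat.le_floor hz.1⟩
  have hcard : (S.card : ℝ) ≤ 9 * X' := card_ball_le X' (by linarith)
  have e1 : ∑ z ∈ S, 1 / (nm z : ℝ) = ∑ z ∈ S,
      (∑ m ∈ Finset.Ico 1 (M + 1), (if nm z ≤ m then (1 / (m : ℝ) - 1 / ((m : ℝ) + 1)) else 0) +
        1 / ((M : ℝ) + 1)) := by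
    refine Finset.sum_congr rfl fun z hz => ?_
    obtain ⟨h1, h2⟩ := hSn z hz
    have h3 : ∑ m ∈ Finset.Ico 1 (M + 1),
        (if nm z ≤ m then (1 / (m : ℝ) - 1 / ((m : ℝ) + 1)) else 0) =
        ∑ m ∈ Finset.Ico (nm z) (M + 1), (1 / (m : ℝ) - 1 / ((m : ℝ) + 1)) := by
      rw [← Finset.sum_filter]
      apply Finset.sum_congr _ fun _ _ => rfl
      ext m
      simp only [Finset.mem_filter, Finset.mem_Ico]
      omega
    rw [h3, tele_Ico _ _ h1 (by omega)]
    ring
  have e2 : ∑ z ∈ S, ∑ m ∈ Finset.Ico 1 (M + 1),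
      (if nm z ≤ m then (1 / (m : ℝ) - 1 / ((m : ℝ) + 1)) else 0) ≤
      ∑ m ∈ Finset.Ico 1 (M + 1), 9 * (1 / (m : ℝ)) := by
    rw [Finset.sum_comm]
    refine Finset.sum_le_sum fun m hm => ?_
    have hm1 : 1 ≤ m := (Finset.mem_Ico.1 hm).1
    have hmpos : (0 : ℝ) < m := by exact_mod_cast hm1
    rw [← Finset.sum_filter, Finset.sum_const, nsmul_eq_mul]
    have h4 : ((S.filter (fun z => nm z ≤ m)).card : ℝ) ≤ 9 * m := by
      refine le_trans ?_ (card_ball_le (m : ℝ) hmpos.le)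
      have : S.filter (fun z => nm z ≤ m) ⊆ (ball (m : ℝ)).filter (fun z => z ≠ 0) := by
        intro z hz
        rw [Finset.mem_filter, hS, Finset.mem_filter] at hz
        rw [Finset.mem_filter, mem_ball]
        exact ⟨by exact_mod_cast hz.2, hz.1.2⟩
      exact_mod_cast Finset.card_le_card this
    have h5 : 1 / (m : ℝ) - 1 / ((m : ℝ) + 1) = 1 / (m * (m + 1)) := by
      field_simp
      ring
    rw [h5]
    calc ((S.filter (fun z => nm z ≤ m)).card : ℝ) * (1 / (m * (m + 1)))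
        ≤ 9 * m * (1 / (m * (m + 1))) := mul_le_mul_of_nonneg_right h4 (by positivity)
      _ = 9 * (1 / ((m : ℝ) + 1)) := by field_simp
      _ ≤ 9 * (1 / (m : ℝ)) := by
          apply mul_le_mul_of_nonneg_left _ (by norm_num)
          exact one_div_le_one_div_of_le hmpos (by linarith)
  have e3 : ∑ m ∈ Finset.Ico 1 (M + 1), 9 * (1 / (m : ℝ)) ≤ 9 * (1 + Real.log M) := by
    rw [← Finset.mul_sum]
    apply mul_le_mul_of_nonneg_left _ (by norm_num)
    have h6 := harmonic_le_one_add_log M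
    rw [harmonic_eq_sum_Icc] at h6
    push_cast at h6
    refine le_trans (le_of_eq ?_) h6
    apply Finset.sum_congr
    · ext x
      simp only [Finset.mem_Ico, Finset.mem_Icc]
      omega
    · intro x _
      rw [one_div]
  have hlogM : Real.log M ≤ Real.log X :=
    Real.log_le_log (by exact_mod_cast hM1) (hMX.trans hX'X)
  have hlog2 : 0.6931 ≤ Real.log X := by
    have := Real.log_le_log (by norm_num) hX
    linarith [Real.log_two_gt_d9]
  calc ∑ u ∈ AA a X, 1 / (nm u : ℝ) ≤ ∑ z ∈ S, 1 / (nm z : ℝ) :=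
        Finset.sum_le_sum_of_subset_of_nonneg hsub fun _ _ _ => by positivity
    _ ≤ 9 * (1 + Real.log M) + S.card * (1 / ((M : ℝ) + 1)) := by
        rw [e1, Finset.sum_add_distrib, Finset.sum_const, nsmul_eq_mul]
        exact add_le_add (e2.trans e3) le_rfl
    _ ≤ 9 * (1 + Real.log X) + 9 := by
        refine add_le_add (by linarith) ?_
        rw [mul_one_div, div_le_iff₀ (by positivity)]
        linarith
    _ ≤ 36 * Real.log X := by linarith

end Pool.Agent.GaussMR
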