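import Pool.Agent.Lib_MP_f1a94e_mr.HT

/-!
# Piece DIVPAIRS: pairs of close divisors
-/

set_option autoImplicit false

namespace Pool.Agent.GaussMR

/-- number of pairs of divisors of `n` within a factor `J` of each other -/
noncomputable def dpr (J : ℝ) (n : ℕ) : ℕ :=
  Set.ncard {p : ℕ × ℕ | p.1 ∣ n ∧ p.2 ∣ n ∧ (p.1 : ℝ) ≤ J * p.2 ∧ (p.2 : ℝ) ≤ J * p.1}

namespace DivPairs

theorem card_divisors_le (N : ℕ) (hN : N ≠ 0) :
    N.divisors.card ≤ 2 ^ ArithmeticFunction.cardFactors N := by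
  induction N using Nat.recOnMul with
  | zero => exact absurd rfl hN
  | one => simp
  | prime p hp => 
    rw [ArithmeticFunction.cardFactors_apply_prime hp, Nat.Prime.divisors hp]
    exact Finset.card_le_two
  | mul a b ha hb => 
    have ha0 : a ≠ 0 := left_ne_zero_of_mul hN
    have hb0 : b ≠ 0 := right_ne_zero_of_mul hN
    rw [ArithmeticFunction.cardFactors_mul ha0 hb0, pow_add, Nat.divisors_mul]
    exact (Finset.card_mul_le).trans (Nat.mul_le_mul (ha ha0) (hb hb0))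

theorem N1_of_dvd {a b : ℕ} (h : a ∣ b) (hb : N1 b) : N1 a :=
  ⟨fun h0 => hb.1 (by rw [h0] at h; exact Nat.eq_zero_of_zero_dvd h),
    fun p hp hpa => hb.2 p hp (hpa.trans h)⟩

open Classical in
/-- the pairs of divisors as a finset -/
noncomputable def DD (J : ℝ) (n : ℕ) : Finset (ℕ × ℕ) :=
  (n.divisors ×ˢ n.divisors).filter (fun p => (p.1 : ℝ) ≤ J * p.2 ∧ (p.2 : ℝ) ≤ J * p.1)

theorem dpr_eq (J : ℝ) (n : ℕ) (hn : n ≠ 0) : dpr J n = (DD J n).card := by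
  classical
  unfold dpr
  rw [← Set.ncard_coe_finset]
  congr 1
  ext p
  simp [DD, hn, and_assoc]

open Classical in
/-- pairs of coprime parts -/
noncomputable def PR (J : ℝ) (N : ℕ) : Finset (ℕ × ℕ) :=
  (Finset.Icc 1 N ×ˢ Finset.Icc 1 N).filter
    (fun p => N1 p.1 ∧ N1 p.2 ∧ (p.1 : ℝ) ≤ J * p.2 ∧ (p.2 : ℝ) ≤ J * p.1)

open Classical in
theorem count (J : ℝ) (N : ℕ) :
    ∑ n ∈ (Finset.Icc 1 N).filter N1, dpr J n ≤
      ∑ p ∈ PR J N, ∑ ψ ∈ (Finset.Icc 1 (N / (p.1 * p.2))).filter N1, ψ.divisors.card := by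
  have h1 : ∑ n ∈ (Finset.Icc 1 N).filter N1, dpr J n =
      (((Finset.Icc 1 N).filter N1).sigma (fun n => DD J n)).card := by
    rw [Finset.card_sigma]
    refine Finset.sum_congr rfl fun n hn => ?_
    simp only [Finset.mem_filter, Finset.mem_Icc] at hn
    exact dpr_eq J n (by omega)
  have h2 : ∑ p ∈ PR J N, ∑ ψ ∈ (Finset.Icc 1 (N / (p.1 * p.2))).filter N1, ψ.divisors.card =
      ((PR J N).sigma (fun p => ((Finset.Icc 1 (N / (p.1 * p.2))).filter N1).sigma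
        (fun ψ => ψ.divisors))).card := by
    rw [Finset.card_sigma]
    refine Finset.sum_congr rfl fun p _ => ?_
    rw [Finset.card_sigma]
  rw [h1, h2]
  refine Finset.card_le_card_of_injOn
    (fun q : (Σ _ : ℕ, ℕ × ℕ) =>
      (⟨(q.2.1 / Nat.gcd q.2.1 q.2.2, q.2.2 / Nat.gcd q.2.1 q.2.2),
        ⟨q.1 / ((q.2.1 / Nat.gcd q.2.1 q.2.2) * (q.2.2 / Nat.gcd q.2.1 q.2.2)),
          Nat.gcd q.2.1 q.2.2⟩⟩ : (Σ _ : ℕ × ℕ, Σ _ : ℕ, ℕ))) ?_ ?_
  · rintro ⟨n, e, e'⟩ hq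
    simp only [Finset.coe_sigma, Set.mem_sigma_iff, Finset.mem_coe, Finset.mem_filter,
      Finset.mem_Icc, DD, Finset.mem_product, Nat.mem_divisors] at hq
    obtain ⟨⟨⟨hn1, hnN⟩, hnN1⟩, ⟨⟨⟨he, hn0⟩, ⟨he', _⟩⟩, hJ1, hJ2⟩⟩ := hq
    have he0 : 0 < e := Nat.pos_of_dvd_of_pos he (by omega)
    have he0' : 0 < e' := Nat.pos_of_dvd_of_pos he' (by omega)
    obtain ⟨g, hg⟩ : ∃ g, g = Nat.gcd e e' := ⟨_, rfl⟩
    have hg0 : 0 < g := by rw [hg]; exact Nat.gcd_pos_of_pos_left _ he0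
    obtain ⟨a, ha⟩ : g ∣ e := hg ▸ Nat.gcd_dvd_left e e'
    obtain ⟨b, hb⟩ : g ∣ e' := hg ▸ Nat.gcd_dvd_right e e'
    have hcop : Nat.Coprime a b := by
      have := Nat.coprime_div_gcd_div_gcd (m := e) (n := e') (by rw [← hg]; exact hg0)
      rw [← hg, ha, hb, Nat.mul_div_cancel_left _ hg0, Nat.mul_div_cancel_left _ hg0] at this
      exact this
    have ha0 : 0 < a := by
      rcases Nat.eq_zero_or_pos a with h | h
      · rw [h] at ha; omega
      · exact h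
    have hb0 : 0 < b := by
      rcases Nat.eq_zero_or_pos b with h | h
      · rw [h] at hb; omega
      · exact h
    have hda : e / g = a := by rw [ha, Nat.mul_div_cancel_left _ hg0]
    have hdb : e' / g = b := by rw [hb, Nat.mul_div_cancel_left _ hg0]
    have hlcm : g * (a * b) ∣ n := by
      have h3 : Nat.lcm e e' ∣ n := Nat.lcm_dvd he he'
      have h4 : Nat.lcm e e' = g * (a * b) := by
        rw [Nat.lcm, ← hg, ha, hb]
        rw [show g * a * (g * b) = g * (g * (a * b)) by ring, Nat.mul_div_cancel_left _ hg0]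
      rwa [h4] at h3
    obtain ⟨φ, hφ⟩ := hlcm
    have hn' : n = (a * b) * (g * φ) := by rw [hφ]; ring
    have hab0 : 0 < a * b := Nat.mul_pos ha0 hb0
    have hdn : n / (a * b) = g * φ := by rw [hn', Nat.mul_div_cancel_left _ hab0]
    have hgφ : 0 < g * φ := by
      rcases Nat.eq_zero_or_pos (g * φ) with h | h
      · rw [h] at hn'; omega
      · exact h
    simp only [Finset.coe_sigma, Set.mem_sigma_iff, Finset.mem_coe, Finset.mem_filter,
      Finset.mem_Icc, PR, Finset.mem_product, Nat.mem_divisors, ← hg, hda, hdb, hdn]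
    have hgR : (0 : ℝ) < g := by exact_mod_cast hg0
    have haN : a ≤ N := (Nat.le_of_dvd (by omega) ((Dvd.intro_left g ha.symm).trans he)).trans hnN
    have hbN : b ≤ N := (Nat.le_of_dvd (by omega) ((Dvd.intro_left g hb.symm).trans he')).trans hnN
    refine ⟨⟨⟨⟨ha0, haN⟩, ⟨hb0, hbN⟩⟩, N1_of_dvd ((Dvd.intro_left g ha.symm).trans he) hnN1,
      N1_of_dvd ((Dvd.intro_left g hb.symm).trans he') hnN1, ?_, ?_⟩, ⟨⟨hgφ, ?_⟩, ?_⟩, ?_, hgφ.ne'⟩
    · rw [ha, hb] at hJ1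
      push_cast at hJ1
      have : (g : ℝ) * a ≤ g * (J * b) := by linarith
      exact le_of_mul_le_mul_left this hgR
    · rw [ha, hb] at hJ2
      push_cast at hJ2
      have : (g : ℝ) * b ≤ g * (J * a) := by linarith
      exact le_of_mul_le_mul_left this hgR
    · rw [Nat.le_div_iff_mul_le hab0, mul_comm, ← hn']; exact hnN
    · exact N1_of_dvd (Dvd.intro_left (a * b) hn'.symm) hnN1
    · exact Dvd.intro φ rfl
  · rintro ⟨n, e, e'⟩ hq ⟨m, f, f'⟩ hr h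
    simp only [Finset.coe_sigma, Set.mem_sigma_iff, Finset.mem_coe, Finset.mem_filter,
      Finset.mem_Icc, DD, Finset.mem_product, Nat.mem_divisors] at hq hr
    obtain ⟨⟨⟨hn1, hnN⟩, hnN1⟩, ⟨⟨⟨he, hn0⟩, ⟨he', _⟩⟩, hJ1, hJ2⟩⟩ := hq
    obtain ⟨⟨⟨hm1, hmN⟩, hmN1⟩, ⟨⟨⟨hf, hm0⟩, ⟨hf', _⟩⟩, hJ3, hJ4⟩⟩ := hr
    simp only [Sigma.mk.injEq, heq_eq_eq, Prod.mk.injEq] at h
    obtain ⟨⟨h1, h2⟩, h3, h4⟩ := h
    have e1 : e = f := by
      have a1 := Nat.div_mul_cancel (Nat.gcd_dvd_left e e')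
      have a2 := Nat.div_mul_cancel (Nat.gcd_dvd_left f f')
      rw [← a1, ← a2, h1, h4]
    have e2 : e' = f' := by
      have a1 := Nat.div_mul_cancel (Nat.gcd_dvd_right e e')
      have a2 := Nat.div_mul_cancel (Nat.gcd_dvd_right f f')
      rw [← a1, ← a2, h2, h4]
    subst e1
    subst e2
    have key : ∀ k : ℕ, k ≠ 0 → e ∣ k → e' ∣ k →
        (e / Nat.gcd e e') * (e' / Nat.gcd e e') ∣ k := by
      intro k hk h5 h6
      have h7 : Nat.lcm e e' ∣ k := Nat.lcm_dvd h5 h6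
      refine dvd_trans ?_ h7
      have he0 : 0 < e := Nat.pos_of_dvd_of_pos h5 (by omega)
      have hg0 : 0 < Nat.gcd e e' := Nat.gcd_pos_of_pos_left _ he0
      obtain ⟨g, hg⟩ : ∃ g, g = Nat.gcd e e' := ⟨_, rfl⟩
      rw [← hg] at hg0 ⊢
      obtain ⟨a, ha⟩ : g ∣ e := hg ▸ Nat.gcd_dvd_left e e'
      obtain ⟨b, hb⟩ : g ∣ e' := hg ▸ Nat.gcd_dvd_right e e'
      rw [Nat.lcm, ← hg]
      rw [ha, hb, Nat.mul_div_cancel_left _ hg0, Nat.mul_div_cancel_left _ hg0]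
      rw [show g * a * (g * b) = g * (g * (a * b)) by ring, Nat.mul_div_cancel_left _ hg0]
      exact Dvd.intro_left g rfl
    have k1 := Nat.div_mul_cancel (key n hn0 he he')
    have k2 := Nat.div_mul_cancel (key m hm0 hf hf')
    have : n = m := by rw [← k1, ← k2, h3]
    subst this
    rfl

open Classical in
/-- the numbers of `N1` in a dyadic block -/
noncomputable def Bk (i : ℕ) : Finset ℕ := (Finset.Ico (2 ^ i) (2 ^ (i + 1))).filter N1

/-- the harmonic sum over a block -/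
noncomputable def bk (i : ℕ) : ℝ := ∑ n ∈ Bk i, 1 / (n : ℝ)

theorem bk_nonneg (i : ℕ) : 0 ≤ bk i := Finset.sum_nonneg fun n _ => by positivity

theorem bk_le : ∃ C : ℝ, 0 < C ∧ ∀ i : ℕ, bk i ^ 2 ≤ C / (i + 1) := by
  classical
  obtain ⟨C, hC, h⟩ := ht 1 one_pos (by norm_num)
  refine ⟨8 * C ^ 2, by positivity, fun i => ?_⟩
  have h1 := h (2 ^ (i + 1)) Nat.one_le_two_pow
  simp only [one_pow, Finset.sum_const, nsmul_eq_mul, mul_one] at h1
  have h2 : ((Bk i).card : ℝ) ≤ C * (2 ^ (i + 1) : ℕ) * (1 + Real.log (2 ^ (i + 1) : ℕ)) ^ ((1 : ℝ) / 2 - 1) := by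
    refine le_trans ?_ h1
    have : Bk i ⊆ (Finset.Icc 1 (2 ^ (i + 1))).filter N1 := by
      intro n hn
      simp only [Bk, Finset.mem_filter, Finset.mem_Ico] at hn
      simp only [Finset.mem_filter, Finset.mem_Icc]
      exact ⟨⟨le_trans Nat.one_le_two_pow hn.1.1, hn.1.2.le⟩, hn.2⟩
    exact_mod_cast Finset.card_le_card this
  have h3 : bk i ≤ (Bk i).card * (1 / 2 ^ i : ℝ) := by
    unfold bk
    rw [← nsmul_eq_mul]
    refine Finset.sum_le_card_nsmul _ _ _ fun n hn => ?_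
    simp only [Bk, Finset.mem_filter, Finset.mem_Ico] at hn
    have : (2 ^ i : ℝ) ≤ n := by exact_mod_cast hn.1.1
    exact one_div_le_one_div_of_le (by positivity) this
  set y : ℝ := (1 + Real.log (2 ^ (i + 1) : ℕ)) ^ ((1 : ℝ) / 2 - 1) with hy
  have hlog : Real.log (2 ^ (i + 1) : ℕ) = (i + 1) * Real.log 2 := by
    push_cast
    rw [Real.log_pow]
    push_cast
    ring
  have hl2 : (1 : ℝ) / 2 < Real.log 2 := by
    have := Real.log_two_gt_d9
    linarith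
  have hb0 : (0 : ℝ) < 1 + Real.log (2 ^ (i + 1) : ℕ) := by
    rw [hlog]
    have : (0 : ℝ) ≤ i := Nat.cast_nonneg i
    positivity
  have hysq : y ^ 2 = (1 + Real.log (2 ^ (i + 1) : ℕ))⁻¹ := by
    rw [hy, ← Real.rpow_natCast, ← Real.rpow_mul hb0.le]
    norm_num
    rw [Real.rpow_neg_one]
  have hy0 : 0 ≤ y := Real.rpow_nonneg hb0.le _
  have h4 : bk i ≤ 2 * C * y := by
    refine h3.trans ?_
    calc ((Bk i).card : ℝ) * (1 / 2 ^ i : ℝ) ≤ (C * (2 ^ (i + 1) : ℕ) * y) * (1 / 2 ^ i) :=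
          mul_le_mul_of_nonneg_right h2 (by positivity)
      _ = 2 * C * y := by
          push_cast
          rw [pow_succ]
          field_simp
  have h5 : bk i ^ 2 ≤ (2 * C * y) ^ 2 := pow_le_pow_left₀ (bk_nonneg i) h4 2
  refine h5.trans ?_
  rw [mul_pow, mul_pow, hysq, hlog]
  have hi : (0 : ℝ) ≤ i := Nat.cast_nonneg i
  rw [inv_eq_one_div, mul_one_div]
  rw [div_le_div_iff₀ (by positivity) (by positivity)]
  have : (i + 1 : ℝ) ≤ 2 * (1 + (i + 1) * Real.log 2) := by nlinarith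
  nlinarith [sq_nonneg C, mul_le_mul_of_nonneg_left this (sq_nonneg C)]

open Classical in
theorem pr_sum (J : ℝ) (hJ : 1 ≤ J) (N : ℕ) :
    ∑ p ∈ PR J N, 1 / ((p.1 : ℝ) * p.2) ≤
      ∑ i ∈ Finset.range (Nat.log 2 N + 1), ∑ k ∈ (Finset.range (Nat.log 2 N + 1)).filter
        (fun k => k ≤ i + (⌊Real.logb 2 J⌋₊ + 1) ∧ i ≤ k + (⌊Real.logb 2 J⌋₊ + 1)), bk i * bk k := by
  set I := Nat.log 2 N + 1
  set K := ⌊Real.logb 2 J⌋₊ + 1 with hK
  have hJ0 : (0 : ℝ) < J := by linarith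
  have hcmp : ∀ a b : ℕ, a ≠ 0 → b ≠ 0 → (a : ℝ) ≤ J * b → Nat.log 2 a ≤ Nat.log 2 b + K := by
    intro a b ha hb hab
    by_contra hcon
    push Not at hcon
    have h1 : 2 ^ Nat.log 2 a ≤ a := Nat.pow_log_le_self 2 ha
    have h2 : b < 2 ^ (Nat.log 2 b + 1) := Nat.lt_pow_succ_log_self (by norm_num) b
    have h3 : (2 : ℝ) ^ (Nat.log 2 b + 1 + K) ≤ a := by
      have : 2 ^ (Nat.log 2 b + 1 + K) ≤ 2 ^ Nat.log 2 a :=
        Nat.pow_le_pow_right (by norm_num) (by omega)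
      exact_mod_cast this.trans h1
    have h4 : (b : ℝ) < 2 ^ (Nat.log 2 b + 1) := by exact_mod_cast h2
    have h5 : J < 2 ^ K := by
      have h6 : Real.logb 2 J < K := by
        rw [hK]
        push_cast
        exact Nat.lt_floor_add_one _
      rw [Real.logb_lt_iff_lt_rpow (by norm_num) hJ0] at h6
      rwa [Real.rpow_natCast] at h6
    have hb0 : (0 : ℝ) < b := by exact_mod_cast Nat.pos_of_ne_zero hb
    have : (a : ℝ) < 2 ^ (Nat.log 2 b + 1) * 2 ^ K := by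
      calc (a : ℝ) ≤ J * b := hab
        _ < 2 ^ K * 2 ^ (Nat.log 2 b + 1) := by
            apply mul_lt_mul'' h5 h4 hJ0.le hb0.le
        _ = _ := by ring
    rw [← pow_add] at this
    linarith
  -- group by logs
  have hmaps : ∀ p ∈ PR J N, (Nat.log 2 p.1, Nat.log 2 p.2) ∈
      (Finset.range I ×ˢ Finset.range I).filter (fun q => q.2 ≤ q.1 + K ∧ q.1 ≤ q.2 + K) := by
    intro p hp
    simp only [PR, Finset.mem_filter, Finset.mem_product, Finset.mem_Icc] at hp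
    obtain ⟨⟨⟨h1, h2⟩, ⟨h3, h4⟩⟩, _, _, h5, h6⟩ := hp
    simp only [Finset.mem_filter, Finset.mem_product, Finset.mem_range, I]
    exact ⟨⟨Nat.lt_succ_of_le (Nat.log_mono_right h2), Nat.lt_succ_of_le (Nat.log_mono_right h4)⟩,
      hcmp _ _ (by omega) (by omega) h6, hcmp _ _ (by omega) (by omega) h5⟩
  rw [← Finset.sum_fiberwise_of_maps_to hmaps]
  have hR : ∑ i ∈ Finset.range I, ∑ k ∈ (Finset.range I).filter
        (fun k => k ≤ i + K ∧ i ≤ k + K), bk i * bk k =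
      ∑ q ∈ (Finset.range I ×ˢ Finset.range I).filter (fun q => q.2 ≤ q.1 + K ∧ q.1 ≤ q.2 + K),
        bk q.1 * bk q.2 := by
    rw [Finset.sum_filter, Finset.sum_product]
    refine Finset.sum_congr rfl fun i _ => ?_
    rw [Finset.sum_filter]
  rw [hR]
  refine Finset.sum_le_sum fun q _ => ?_
  unfold bk
  rw [Finset.sum_mul_sum, ← Finset.sum_product']
  calc ∑ p ∈ (PR J N).filter (fun p => (Nat.log 2 p.1, Nat.log 2 p.2) = q), 1 / ((p.1 : ℝ) * p.2)
      ≤ ∑ p ∈ Bk q.1 ×ˢ Bk q.2, 1 / ((p.1 : ℝ) * p.2) := by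
        refine Finset.sum_le_sum_of_subset_of_nonneg ?_ fun p _ _ => by positivity
        intro p hp
        simp only [PR, Finset.mem_filter, Finset.mem_product, Finset.mem_Icc] at hp
        obtain ⟨⟨⟨⟨h1, h2⟩, ⟨h3, h4⟩⟩, h5, h6, _, _⟩, h7⟩ := hp
        simp only [Bk, Finset.mem_product, Finset.mem_filter, Finset.mem_Ico]
        rw [← h7]
        exact ⟨⟨⟨Nat.pow_log_le_self 2 (by omega), Nat.lt_pow_succ_log_self (by norm_num) _⟩, h5⟩,
          ⟨⟨Nat.pow_log_le_self 2 (by omega), Nat.lt_pow_succ_log_self (by norm_num) _⟩, h6⟩⟩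
    _ = ∑ p ∈ Bk q.1 ×ˢ Bk q.2, 1 / (p.1 : ℝ) * (1 / (p.2 : ℝ)) := by
        refine Finset.sum_congr rfl fun p _ => ?_
        rw [one_div_mul_one_div]

open Classical in
theorem band_sum (C : ℝ) (hC : 0 < C) (hb : ∀ i : ℕ, bk i ^ 2 ≤ C / (i + 1)) (I K : ℕ) :
    ∑ i ∈ Finset.range I, ∑ k ∈ (Finset.range I).filter
        (fun k => k ≤ i + K ∧ i ≤ k + K), bk i * bk k ≤
      (2 * K + 1) * C * (1 + Real.log I) := by
  have hcard : ∀ i : ℕ, (((Finset.range I).filter (fun k => k ≤ i + K ∧ i ≤ k + K)).card : ℝ) ≤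
      2 * K + 1 := by
    intro i
    have h1 : ((Finset.range I).filter (fun k => k ≤ i + K ∧ i ≤ k + K)) ⊆
        Finset.Icc (i - K) (i + K) := by
      intro k hk
      simp only [Finset.mem_filter, Finset.mem_range] at hk
      simp only [Finset.mem_Icc]
      omega
    have h2 := Finset.card_le_card h1
    rw [Nat.card_Icc] at h2
    have h3 : i + K + 1 - (i - K) ≤ 2 * K + 1 := by omega
    exact_mod_cast h2.trans h3
  have hS : ∑ i ∈ Finset.range I, bk i ^ 2 ≤ C * (1 + Real.log I) := by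
    calc ∑ i ∈ Finset.range I, bk i ^ 2 ≤ ∑ i ∈ Finset.range I, C * ((i : ℝ) + 1)⁻¹ := by
          refine Finset.sum_le_sum fun i _ => ?_
          rw [← div_eq_mul_inv]
          exact hb i
      _ = C * (harmonic I : ℝ) := by
          rw [← Finset.mul_sum, harmonic]
          push_cast
          rfl
      _ ≤ C * (1 + Real.log I) := mul_le_mul_of_nonneg_left (harmonic_le_one_add_log I) hC.le
  have h1 : ∑ i ∈ Finset.range I, ∑ k ∈ (Finset.range I).filter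
        (fun k => k ≤ i + K ∧ i ≤ k + K), bk i * bk k ≤
      ∑ i ∈ Finset.range I, ∑ k ∈ (Finset.range I).filter
        (fun k => k ≤ i + K ∧ i ≤ k + K), (bk i ^ 2 / 2 + bk k ^ 2 / 2) := by
    refine Finset.sum_le_sum fun i _ => Finset.sum_le_sum fun k _ => ?_
    nlinarith [sq_nonneg (bk i - bk k)]
  have h2 : ∑ i ∈ Finset.range I, ∑ k ∈ (Finset.range I).filter
        (fun k => k ≤ i + K ∧ i ≤ k + K), bk i ^ 2 / 2 ≤
      (2 * K + 1) * (C * (1 + Real.log I)) / 2 := by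
    calc ∑ i ∈ Finset.range I, ∑ k ∈ (Finset.range I).filter (fun k => k ≤ i + K ∧ i ≤ k + K),
          bk i ^ 2 / 2 ≤ ∑ i ∈ Finset.range I, (2 * K + 1) * (bk i ^ 2 / 2) := by
          refine Finset.sum_le_sum fun i _ => ?_
          rw [Finset.sum_const, nsmul_eq_mul]
          exact mul_le_mul_of_nonneg_right (hcard i) (by positivity)
      _ = (2 * K + 1) * (∑ i ∈ Finset.range I, bk i ^ 2) / 2 := by
          rw [← Finset.mul_sum, ← Finset.sum_div]; ring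
      _ ≤ _ := by gcongr
  have h3 : ∑ i ∈ Finset.range I, ∑ k ∈ (Finset.range I).filter
        (fun k => k ≤ i + K ∧ i ≤ k + K), bk k ^ 2 / 2 =
      ∑ i ∈ Finset.range I, ∑ k ∈ (Finset.range I).filter
        (fun k => k ≤ i + K ∧ i ≤ k + K), bk i ^ 2 / 2 := by
    simp only [Finset.sum_filter]
    rw [Finset.sum_comm]
    refine Finset.sum_congr rfl fun i _ => Finset.sum_congr rfl fun k _ => ?_
    by_cases h : i ≤ k + K ∧ k ≤ i + K
    · rw [if_pos h, if_pos h.symm]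
    · rw [if_neg h, if_neg (fun h' => h h'.symm)]
  have h4 : ∑ i ∈ Finset.range I, ∑ k ∈ (Finset.range I).filter
        (fun k => k ≤ i + K ∧ i ≤ k + K), (bk i ^ 2 / 2 + bk k ^ 2 / 2) =
      ∑ i ∈ Finset.range I, ∑ k ∈ (Finset.range I).filter
        (fun k => k ≤ i + K ∧ i ≤ k + K), bk i ^ 2 / 2 +
      ∑ i ∈ Finset.range I, ∑ k ∈ (Finset.range I).filter
        (fun k => k ≤ i + K ∧ i ≤ k + K), bk k ^ 2 / 2 := by
    simp only [Finset.sum_add_distrib]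
  rw [h4, h3] at h1
  linarith

end DivPairs

open DivPairs

open Classical in
/-- A pair `(e, e')` of divisors of `n`, `g = gcd(e, e')`, `e = g ε`, `e' = g η`, gives
`n = g ε η φ`, with `ε ≤ J η`, `η ≤ J ε`. So the sum is at most
`∑_{ε, η} ∑_{ψ ≤ N / (ε η)} τ(ψ)` (`ψ = g φ`), and `τ ≤ 2 ^ Ω`, `ht 2` gives `∑_{ψ ≤ x} τ(ψ) ≤ C x`.
It remains `∑_{ε ≤ N} (1/ε) ∑_{η ∈ [ε/J, J ε]} 1/η` over `N1` numbers, `ε η ≤ N`. For `ε ≤ J²` use the
trivial bound `∑ 1/η ≤ C (1 + log J)`, total `C (1 + log J)²`; for `ε > J²` dyadic blocks and `ht 1`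
give `∑_η ≤ C (1 + log J) (1 + log ε)^(-1/2)`, and
`∑_{ε ≤ N} 1 / (ε (1 + log ε)^(1/2)) ≤ C (1 + log (1 + log N))` again by dyadic blocks and `ht 1`. -/
theorem divPairs : ∃ C : ℝ, 0 < C ∧ ∀ (N : ℕ) (J : ℝ), 1 ≤ N → 1 ≤ J →
    ∑ n ∈ (Finset.Icc 1 N).filter N1, (dpr J n : ℝ) ≤
      C * N * (1 + Real.log J) ^ 2 * (1 + Real.log (1 + Real.log N)) := by
  obtain ⟨C1, hC1, h1⟩ := bk_le
  obtain ⟨C2, hC2, h2⟩ := ht 2 (by norm_num) (by norm_num)
  refine ⟨C2 * (5 * C1 * 3), by positivity, fun N J hN hJ => ?_⟩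
  have hJ0 : (0 : ℝ) < J := by linarith
  have hN0 : (0 : ℝ) < N := by exact_mod_cast hN
  have hτ : ∀ M : ℕ, ((∑ ψ ∈ (Finset.Icc 1 M).filter N1, ψ.divisors.card : ℕ) : ℝ) ≤ C2 * M := by
    intro M
    rcases Nat.eq_zero_or_pos M with hM | hM
    · subst hM
      simp
    · have := h2 M hM
      rw [show (2 : ℝ) / 2 - 1 = 0 by norm_num, Real.rpow_zero, mul_one] at this
      refine le_trans ?_ this
      push_cast
      refine Finset.sum_le_sum fun ψ hψ => ?_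
      simp only [Finset.mem_filter, Finset.mem_Icc] at hψ
      exact_mod_cast card_divisors_le ψ (by omega)
  have h3 : ∑ n ∈ (Finset.Icc 1 N).filter N1, (dpr J n : ℝ) ≤
      ∑ p ∈ PR J N, C2 * N * (1 / ((p.1 : ℝ) * p.2)) := by
    calc ∑ n ∈ (Finset.Icc 1 N).filter N1, (dpr J n : ℝ)
        = ((∑ n ∈ (Finset.Icc 1 N).filter N1, dpr J n : ℕ) : ℝ) := by push_cast; rfl
      _ ≤ ((∑ p ∈ PR J N, ∑ ψ ∈ (Finset.Icc 1 (N / (p.1 * p.2))).filter N1, ψ.divisors.card : ℕ) : ℝ) := by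
          exact_mod_cast count J N
      _ ≤ ∑ p ∈ PR J N, C2 * N * (1 / ((p.1 : ℝ) * p.2)) := by
          rw [Nat.cast_sum]
          refine Finset.sum_le_sum fun p _ => (hτ _).trans ?_
          rw [mul_assoc]
          refine mul_le_mul_of_nonneg_left ?_ hC2.le
          calc ((N / (p.1 * p.2) : ℕ) : ℝ) ≤ (N : ℝ) / ((p.1 * p.2 : ℕ) : ℝ) := Nat.cast_div_le
            _ = N * (1 / ((p.1 : ℝ) * p.2)) := by push_cast; ring
  refine h3.trans ?_
  rw [← Finset.mul_sum]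
  have h4 := (pr_sum J hJ N).trans (band_sum C1 hC1 h1 (Nat.log 2 N + 1) (⌊Real.logb 2 J⌋₊ + 1))
  have hl2 : (1 : ℝ) / 2 < Real.log 2 := by
    have := Real.log_two_gt_d9
    linarith
  have hlJ : 0 ≤ Real.log J := Real.log_nonneg hJ
  have hK : ((⌊Real.logb 2 J⌋₊ + 1 : ℕ) : ℝ) ≤ 2 * Real.log J + 1 := by
    push_cast
    have h5 : (⌊Real.logb 2 J⌋₊ : ℝ) ≤ Real.logb 2 J :=
      Nat.floor_le (Real.logb_nonneg (by norm_num) hJ)
    have h6 : Real.logb 2 J ≤ 2 * Real.log J := by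
      rw [Real.logb, div_le_iff₀ (by linarith)]
      nlinarith
    linarith
  have hLN : 0 ≤ Real.log N := Real.log_nonneg (by exact_mod_cast hN)
  have hI : Real.log ((Nat.log 2 N + 1 : ℕ) : ℝ) ≤ 1 + Real.log (1 + Real.log N) := by
    have h5 : ((Nat.log 2 N : ℕ) : ℝ) ≤ 2 * Real.log N := by
      have h6 : (2 : ℝ) ^ Nat.log 2 N ≤ N := by exact_mod_cast Nat.pow_log_le_self 2 (by omega)
      have h7 := Real.log_le_log (by positivity) h6
      rw [Real.log_pow] at h7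
      have : (0 : ℝ) ≤ (Nat.log 2 N : ℝ) := Nat.cast_nonneg _
      nlinarith
    have h8 : ((Nat.log 2 N + 1 : ℕ) : ℝ) ≤ 2 * (1 + Real.log N) := by
      push_cast
      linarith
    calc Real.log ((Nat.log 2 N + 1 : ℕ) : ℝ) ≤ Real.log (2 * (1 + Real.log N)) :=
          Real.log_le_log (by positivity) h8
      _ = Real.log 2 + Real.log (1 + Real.log N) := Real.log_mul (by norm_num) (by positivity)
      _ ≤ _ := by
          have := Real.log_two_lt_d9
          linarith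
  have hLL : 0 ≤ Real.log (1 + Real.log N) := Real.log_nonneg (by linarith)
  calc C2 * N * ∑ p ∈ PR J N, 1 / ((p.1 : ℝ) * p.2)
      ≤ C2 * N * ((2 * ((⌊Real.logb 2 J⌋₊ + 1 : ℕ) : ℝ) + 1) * C1 *
          (1 + Real.log ((Nat.log 2 N + 1 : ℕ) : ℝ))) :=
        mul_le_mul_of_nonneg_left h4 (by positivity)
    _ ≤ C2 * N * ((5 * (1 + Real.log J) ^ 2) * C1 * (3 * (1 + Real.log (1 + Real.log N)))) := by
        have h9 : (0 : ℝ) ≤ 1 + Real.log ((Nat.log 2 N + 1 : ℕ) : ℝ) := by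
          have : 0 ≤ Real.log ((Nat.log 2 N + 1 : ℕ) : ℝ) := Real.log_natCast_nonneg _
          linarith
        have h10 : 2 * ((⌊Real.logb 2 J⌋₊ + 1 : ℕ) : ℝ) + 1 ≤ 5 * (1 + Real.log J) ^ 2 := by
          nlinarith
        have h11 : 1 + Real.log ((Nat.log 2 N + 1 : ℕ) : ℝ) ≤
            3 * (1 + Real.log (1 + Real.log N)) := by linarith
        gcongr
    _ = _ := by ring

end Pool.Agent.GaussMR
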