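import Pool.Agent.Lib_MP_f1a94e_mr.VAsymp
import Pool.Agent.Lib_MP_f1a94e_mr.Split

/-!
# Piece EQUID: equidistribution of `V X` modulo split primes
-/

set_option autoImplicit false

namespace Pool.Agent.GaussMR

open Classical in
theorem ncard_V_eq (X : ℝ) (R : G → Prop) :
    Set.ncard {z : G | z ∈ V X ∧ R z} = ((V X).filter R).card := by
  rw [← Set.ncard_coe_finset, Finset.coe_filter]

open Classical in
/-- the multiples of a split prime -/
theorem card_mul_split (X : ℝ) (w : G) (hw : Spl w) (R : G → Prop) (hR : ∀ z, R (w * z) ↔ R z) :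
    ((V X).filter (fun z => w ∣ z ∧ R z)).card +
      ((V (X / nm w)).filter (fun z => star w ∣ z ∧ R z)).card =
      ((V (X / nm w)).filter R).card := by
  have hpos : (0 : ℝ) < nm w := by exact_mod_cast hw.1.pos
  have hw0 : w ≠ 0 := hw.prime.ne_zero
  have himg : (V X).filter (fun z => w ∣ z ∧ R z) =
      (((V (X / nm w)).filter R).filter (fun z => ¬ star w ∣ z)).image (fun z => w * z) := by
    ext z
    rw [Finset.mem_filter, Finset.mem_image]
    constructor
    · rintro ⟨hz, ⟨z', rfl⟩, hRz⟩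
      obtain ⟨h1, h2, h3⟩ := mem_V.mp hz
      have h4 := prim_of_mul h3
      have h5 := (odd_nm_mul.mp h2).2
      refine ⟨z', ?_, rfl⟩
      rw [Finset.mem_filter, Finset.mem_filter]
      refine ⟨⟨mem_V.mpr ⟨?_, h5, h4.2⟩, (hR z').mp hRz⟩, (prim_mul_iff hw h4.2).mp h3⟩
      rw [le_div_iff₀ hpos]
      rw [nm_mul] at h1
      push_cast at h1
      linarith
    · rintro ⟨z', hz', rfl⟩
      rw [Finset.mem_filter, Finset.mem_filter] at hz'
      obtain ⟨⟨hz1, hRz⟩, hns⟩ := hz'
      obtain ⟨h1, h2, h3⟩ := mem_V.mp hz1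
      refine ⟨mem_V.mpr ⟨?_, odd_nm_mul.mpr ⟨hw.odd, h2⟩, (prim_mul_iff hw h3).mpr hns⟩,
        dvd_mul_right _ _, (hR z').mpr hRz⟩
      rw [le_div_iff₀ hpos] at h1
      rw [nm_mul]
      push_cast
      linarith
  have hcard : ((V X).filter (fun z => w ∣ z ∧ R z)).card =
      (((V (X / nm w)).filter R).filter (fun z => ¬ star w ∣ z)).card := by
    rw [himg, Finset.card_image_of_injective]
    exact mul_right_injective₀ hw0
  have hsplit := Finset.card_filter_add_card_filter_not (s := (V (X / nm w)).filter R)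
    (fun z => star w ∣ z)
  have hsame : (V (X / nm w)).filter (fun z => star w ∣ z ∧ R z) =
      ((V (X / nm w)).filter R).filter (fun z => star w ∣ z) := by
    rw [Finset.filter_filter]
    apply Finset.filter_congr
    intro z _
    exact and_comm
  rw [hcard, hsame]
  omega

theorem V_empty (X : ℝ) (hX : X < 1) : V X = ∅ := by
  apply Finset.eq_empty_of_forall_notMem
  intro z hz
  obtain ⟨h1, h2, _⟩ := mem_V.mp hz
  have h3 : 1 ≤ nm z := nm_pos_of_odd h2
  have h4 : (1 : ℝ) ≤ nm z := by exact_mod_cast h3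
  linarith

theorem one_le_log3 (X : ℝ) (hX : 0 ≤ X) : 1 ≤ Real.log (X + 3) := by
  rw [Real.le_log_iff_exp_le (by linarith)]
  have := Real.exp_one_lt_d9
  linarith

theorem spl_five {w : G} (h : Spl w) : 5 ≤ nm w := by
  have h1 := h.1.two_le
  have h2 := h.2
  omega

open Classical in
/-- the recursion -/
theorem rec_equid (p : ℕ) (R : G → Prop) (μ C : ℝ) (hμ0 : 0 ≤ μ) (hμ : μ ≤ C)
    (hM : ∀ X : ℝ, 0 ≤ X → |(((V X).filter R).card : ℝ) - μ * X| ≤
      C * Real.sqrt X * Real.log (X + 3))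
    (hR : ∀ w, Spl w → nm w = p → ∀ z, R (w * z) ↔ R z) (n : ℕ) :
    ∀ X : ℝ, 0 ≤ X → X < 2 ^ n → ∀ w, Spl w → nm w = p →
      |(((V X).filter (fun z => w ∣ z ∧ R z)).card : ℝ) - μ * X / (p + 1)| ≤
        C * Real.sqrt X * Real.log (X + 3) := by
  have hC : 0 ≤ C := hμ0.trans hμ
  induction n with
  | zero =>
    intro X hX hX1 w _ _
    rw [pow_zero] at hX1
    rw [V_empty X hX1, Finset.filter_empty, Finset.card_empty, Nat.cast_zero, zero_sub, abs_neg]
    have h1 : 0 ≤ μ * X / ((p : ℝ) + 1) := by positivity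
    rw [abs_of_nonneg h1]
    have h2 : μ * X / ((p : ℝ) + 1) ≤ μ * X := by
      apply div_le_self (by positivity)
      have : (0 : ℝ) ≤ p := Nat.cast_nonneg p
      linarith
    have h3 : X ≤ Real.sqrt X := by
      apply Real.le_sqrt_of_sq_le
      nlinarith
    have h4 := one_le_log3 X hX
    calc μ * X / ((p : ℝ) + 1) ≤ μ * X := h2
      _ ≤ C * Real.sqrt X := mul_le_mul hμ h3 hX hC
      _ = C * Real.sqrt X * 1 := (mul_one _).symm
      _ ≤ C * Real.sqrt X * Real.log (X + 3) :=
          mul_le_mul_of_nonneg_left h4 (by positivity)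
  | succ n ih =>
    intro X hX hX1 w hw hwp
    have hp5 : 5 ≤ p := hwp ▸ spl_five hw
    have hp5' : (5 : ℝ) ≤ p := by exact_mod_cast hp5
    have hp0 : (0 : ℝ) < p := by linarith
    have hXp0 : 0 ≤ X / p := div_nonneg hX hp0.le
    have hXp1 : X / p < 2 ^ n := by
      rw [div_lt_iff₀ hp0]
      rw [pow_succ] at hX1
      have h2n : (0 : ℝ) < 2 ^ n := by positivity
      nlinarith
    have h1 := ih (X / p) hXp0 hXp1 (star w) hw.conj (by rw [nm_star]; exact hwp)
    have h2 := hM (X / p) hXp0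
    have h3 := card_mul_split X w hw R (hR w hw hwp)
    rw [hwp] at h3
    have h3' : (((V X).filter (fun z => w ∣ z ∧ R z)).card : ℝ) =
        (((V (X / p)).filter R).card : ℝ) -
          (((V (X / p)).filter (fun z => star w ∣ z ∧ R z)).card : ℝ) := by
      rw [← h3]
      push_cast
      ring
    have hp1 : (p : ℝ) + 1 ≠ 0 := by positivity
    have h4 : (((V X).filter (fun z => w ∣ z ∧ R z)).card : ℝ) - μ * X / (p + 1) =
        ((((V (X / p)).filter R).card : ℝ) - μ * (X / p)) -
          ((((V (X / p)).filter (fun z => star w ∣ z ∧ R z)).card : ℝ) -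
            μ * (X / p) / (p + 1)) := by
      rw [h3']
      field_simp
      ring
    rw [h4]
    refine (abs_sub _ _).trans ?_
    have hsq : Real.sqrt (X / p) ≤ Real.sqrt X / 2 := by
      rw [Real.sqrt_le_left (by positivity), div_pow, Real.sq_sqrt hX]
      rw [div_le_div_iff₀ hp0 (by norm_num)]
      nlinarith
    have hlog : Real.log (X / p + 3) ≤ Real.log (X + 3) := by
      apply Real.log_le_log (by positivity)
      have : X / p ≤ X := div_le_self hX (by linarith)
      linarith
    have hlog0 : 0 ≤ Real.log (X / p + 3) := (zero_le_one.trans (one_le_log3 _ hXp0))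
    have hkey : C * Real.sqrt (X / p) * Real.log (X / p + 3) ≤
        C * Real.sqrt X * Real.log (X + 3) / 2 := by
      calc C * Real.sqrt (X / p) * Real.log (X / p + 3)
          ≤ C * (Real.sqrt X / 2) * Real.log (X + 3) := by
            apply mul_le_mul (mul_le_mul_of_nonneg_left hsq hC) hlog hlog0 (by positivity)
        _ = _ := by ring
    linarith

theorem equid : ∃ κ C : ℝ, 0 < κ ∧ 0 < C ∧
    (∀ X : ℝ, 0 ≤ X → |((V X).card : ℝ) - κ * X| ≤ C * Real.sqrt X * Real.log (X + 3)) ∧
    (∀ X : ℝ, 0 ≤ X → ∀ w : G, Spl w →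
      |(Set.ncard {z : G | z ∈ V X ∧ w ∣ z} : ℝ) - κ * X / (nm w + 1)| ≤
        C * Real.sqrt X * Real.log (X + 3)) ∧
    (∀ X : ℝ, 0 ≤ X → ∀ w w' : G, Spl w → Spl w' → nm w ≠ nm w' →
      |(Set.ncard {z : G | z ∈ V X ∧ w ∣ z ∧ w' ∣ z} : ℝ) - κ * X / ((nm w + 1) * (nm w' + 1))| ≤
        C * Real.sqrt X * Real.log (X + 3)) := by
  classical
  obtain ⟨κ, C0, hκ, hC0, hV⟩ := V_asymp
  set C := max C0 κ with hC
  have hCpos : 0 < C := lt_of_lt_of_le hC0 (le_max_left _ _)
  have hV' : ∀ X : ℝ, 0 ≤ X → |((V X).card : ℝ) - κ * X| ≤ C * Real.sqrt X * Real.log (X + 3) := by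
    intro X hX
    refine (hV X hX).trans ?_
    have h1 := one_le_log3 X hX
    apply mul_le_mul_of_nonneg_right _ (by linarith)
    exact mul_le_mul_of_nonneg_right (le_max_left _ _) (Real.sqrt_nonneg _)
  have hexists : ∀ X : ℝ, 0 ≤ X → ∃ n : ℕ, X < 2 ^ n := fun X _ =>
    pow_unbounded_of_one_lt X (by norm_num)
  have hone : ∀ X : ℝ, 0 ≤ X → ∀ w : G, Spl w →
      |(((V X).filter (fun z => w ∣ z)).card : ℝ) - κ * X / (nm w + 1)| ≤
        C * Real.sqrt X * Real.log (X + 3) := by
    intro X hX w hw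
    obtain ⟨n, hn⟩ := hexists X hX
    have h1 := rec_equid (nm w) (fun _ => True) κ C hκ.le (le_max_right _ _)
      (by
        intro Y hY
        rw [Finset.filter_true]
        exact hV' Y hY)
      (fun _ _ _ _ => Iff.rfl) n X hX hn w hw rfl
    simpa using h1
  refine ⟨κ, C, hκ, hCpos, hV', ?_, ?_⟩
  · intro X hX w hw
    rw [ncard_V_eq X (fun z => w ∣ z)]
    exact hone X hX w hw
  · intro X hX w w' hw hw' hne
    rw [ncard_V_eq X (fun z => w ∣ z ∧ w' ∣ z)]
    obtain ⟨n, hn⟩ := hexists X hX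
    have hpos' : (0 : ℝ) < (nm w' : ℝ) + 1 := by positivity
    have h1 := rec_equid (nm w) (fun z => w' ∣ z) (κ / (nm w' + 1)) C (by positivity)
      (by
        refine le_trans ?_ (le_max_right C0 κ)
        apply div_le_self hκ.le
        have : (0 : ℝ) ≤ nm w' := Nat.cast_nonneg _
        linarith)
      (by
        intro Y hY
        have h2 := hone Y hY w' hw'
        have h3 : κ / ((nm w' : ℝ) + 1) * Y = κ * Y / (nm w' + 1) := by ring
        rw [h3]
        exact h2)
      (by
        intro v hv hvn z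
        constructor
        · intro h
          have hcop : IsCoprime w' v := (hv.coprime hw' (by rw [hvn]; exact hne)).symm
          exact hcop.dvd_of_dvd_mul_left h
        · intro h
          exact h.mul_left _)
      n X hX hn w hw rfl
    have h4 : κ / ((nm w' : ℝ) + 1) * X / ((nm w : ℝ) + 1) =
        κ * X / ((nm w + 1) * (nm w' + 1)) := by
      have : (0 : ℝ) < (nm w : ℝ) + 1 := by positivity
      field_simp
    rw [h4] at h1
    have h5 : ∀ (i1 i2 : DecidablePred (fun z : G => w ∣ z ∧ w' ∣ z)),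
        (@Finset.filter _ (fun z => w ∣ z ∧ w' ∣ z) i1 (V X)).card =
        (@Finset.filter _ (fun z => w ∣ z ∧ w' ∣ z) i2 (V X)).card := by
      intro i1 i2
      have : i1 = i2 := Subsingleton.elim _ _
      rw [this]
    rw [h5]
    exact h1

end Pool.Agent.GaussMR
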