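import Pool.Agent.Lib_MP_f1a94e_mr.Basic

/-!
# Piece FAREY: a primitive vector between two primitive vectors of determinant at least two
-/

set_option autoImplicit false

namespace Pool.Agent.GaussMR

theorem prim_of_det_eq_one {u y : G} (h : det u y = 1) : Prim u := by
  unfold Prim
  unfold det at h
  exact ⟨y.im, -y.re, by linarith⟩

theorem prim_of_det_eq_one' {u y : G} (h : det y u = 1) : Prim u := by
  unfold Prim
  unfold det at h
  exact ⟨-y.im, y.re, by linarith⟩

/-- Cramer: `D u = det u w z + det z u w` -/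
theorem cramer (z w u : G) :
    ((det z w : ℤ) : G) * u = ((det u w : ℤ) : G) * z + ((det z u : ℤ) : G) * w := by
  apply Zsqrtd.ext
  · simp [det]; ring
  · simp [det]; ring

theorem two_dot_le (z w : G) : 2 * dot z w ≤ (nm z : ℤ) + nm w := by
  rw [nm_eq, nm_eq]
  unfold dot
  nlinarith [sq_nonneg (z.re - w.re), sq_nonneg (z.im - w.im)]

theorem nm_lin (a b : ℤ) (z w : G) :
    (nm (((a : ℤ) : G) * z + ((b : ℤ) : G) * w) : ℤ) =
      a ^ 2 * nm z + 2 * a * b * dot z w + b ^ 2 * nm w := by
  rw [nm_eq, nm_eq, nm_eq]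
  unfold dot
  simp
  ring

/-- stronger form: the vector `u` is adjacent to `z` -/
theorem farey_adj (z w : G) (hz : Prim z) (hw : Prim w) (h : 2 ≤ det z w) :
    ∃ u : G, Prim u ∧ det z u = 1 ∧ 0 < det u w ∧ det u w < det z w ∧
      nm u ≤ max (nm z) (nm w) := by
  obtain ⟨a, b, hab⟩ := hz
  set D := det z w with hD
  have hDpos : 0 < D := by linarith
  set y : G := ⟨-b, a⟩ with hy
  have hzy : det z y = 1 := by
    unfold det
    simp only [hy]
    linarith
  set c := det w y with hc
  have hw1 : w = ((c : ℤ) : G) * z + ((D : ℤ) : G) * y := by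
    have h1 := cramer z y w
    rw [hzy] at h1
    simpa using h1
  -- c not divisible by D
  have hcD : c % D ≠ 0 := by
    intro h0
    have hdvd : D ∣ c := Int.dvd_of_emod_eq_zero h0
    obtain ⟨e, he⟩ := hdvd
    have h2 : IsCoprime w.re w.im := hw
    have hre : w.re = c * z.re + D * y.re := by
      rw [hw1]; simp
    have him : w.im = c * z.im + D * y.im := by
      rw [hw1]; simp
    rw [hre, him, he] at h2
    have h3 : D ∣ 1 := by
      obtain ⟨s, t, hst⟩ := h2
      exact ⟨s * (e * z.re + y.re) + t * (e * z.im + y.im), by linear_combination -hst⟩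
    have := Int.le_of_dvd one_pos h3
    linarith
  have hmod0 := Int.emod_nonneg c hDpos.ne'
  have hmod1 := Int.emod_lt_of_pos c hDpos
  have hmodpos : 0 < c % D := lt_of_le_of_ne hmod0 (Ne.symm hcD)
  set t := c / D + 1 with ht
  set u : G := y + ((t : ℤ) : G) * z with hu
  have hzu : det z u = 1 := by
    have : det z u = det z y := by
      rw [hu]; simp [det]; ring
    rw [this, hzy]
  have huw : det u w = D - c % D := by
    have h1 : det u w = det y w + t * det z w := by
      rw [hu]; simp [det]; ring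
    have h2 : det y w = -c := by rw [hc]; exact det_comm w y
    rw [h1, h2, ← hD, ht]
    have := Int.emod_add_mul_ediv c D
    linarith
  refine ⟨u, prim_of_det_eq_one' hzu, hzu, by linarith, by linarith, ?_⟩
  -- norm
  set r := det u w with hr
  have hr0 : 0 < r := by linarith
  have hr1 : r + 1 ≤ D := by omega
  have h1 := cramer z w u
  rw [← hD, ← hr, hzu] at h1
  have h2 : (nm (((D : ℤ) : G) * u) : ℤ) = D ^ 2 * nm u := by
    have := nm_lin D 0 u 0
    simpa using this
  have h3 := nm_lin r 1 z w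
  rw [← h1, h2] at h3
  have h4 := two_dot_le z w
  set M : ℤ := max (nm z : ℤ) (nm w : ℤ) with hM
  have hz1 : (nm z : ℤ) ≤ M := le_max_left _ _
  have hw2 : (nm w : ℤ) ≤ M := le_max_right _ _
  have hM0 : 0 ≤ M := le_trans (by positivity) hz1
  have h5 : D ^ 2 * (nm u : ℤ) ≤ (r + 1) ^ 2 * M := by
    rw [h3]
    have e1 : r ^ 2 * (nm z : ℤ) ≤ r ^ 2 * M := mul_le_mul_of_nonneg_left hz1 (by positivity)
    have e2 : 2 * r * 1 * dot z w ≤ r * (2 * M) := by
      have : 2 * dot z w ≤ 2 * M := by linarith
      nlinarith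
    nlinarith
  have h6 : (r + 1) ^ 2 * M ≤ D ^ 2 * M := by
    apply mul_le_mul_of_nonneg_right _ hM0
    apply pow_le_pow_left₀ (by linarith) hr1
  have h7 : (nm u : ℤ) ≤ M := by
    have : D ^ 2 * (nm u : ℤ) ≤ D ^ 2 * M := h5.trans h6
    exact le_of_mul_le_mul_left this (by positivity)
  rw [hM] at h7
  exact_mod_cast h7

/-- Let `D = det z w ≥ 2`. The lattice `ℤ z + ℤ w` has index `D`, so there is a Gaussian integer
`u₀ = (α z + β w) / D` with integers `0 ≤ α, β < D`, not both zero; as `z` and `w` are primitive both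
`α, β > 0` (e.g. if `β = 0` then `D ∣ α` because `z` is primitive). Replacing `u₀` by `z + w - u₀` we may
assume `α + β ≤ D`; so `u₀` lies in the triangle `0, z, w` and `|u₀| ≤ max (|z|, |w|)`. Take
`u = pr u₀` (divide by the content).
(Concretely: as `z` is primitive choose `y` with `det z y = 1`, then `w = c z + D y` with
`c` coprime to `D`, so `c` is not divisible by `D`; `u₀ = y + t z` with suitable `t`.) -/
theorem farey (z w : G) (hz : Prim z) (hw : Prim w) (h : 2 ≤ det z w) :
    ∃ u : G, Prim u ∧ 0 < det z u ∧ 0 < det u w ∧ det z u < det z w ∧ det u w < det z w ∧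
      nm u ≤ max (nm z) (nm w) := by
  obtain ⟨u, h1, h2, h3, h4, h5⟩ := farey_adj z w hz hw h
  exact ⟨u, h1, by rw [h2]; norm_num, h3, by rw [h2]; linarith, h4, h5⟩

end Pool.Agent.GaussMR
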