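import Pool.Agent.Lib_MP_f1a94e_mr.Pairs
import Pool.Agent.Lib_MP_f1a94e_mr.Fejer
import Pool.Agent.Lib_MP_f1a94e_mr.VAsymp
import Pool.Agent.Lib_MP_f1a94e_mr.LS

/-!
# Piece MASS: few sign changes imply Fourier mass at low frequencies
-/

set_option autoImplicit false

namespace Pool.Agent.GaussMR

/-- real version of the expansion -/
theorem mass_expand (X : ℝ) (M : ℕ) (hM : 1 ≤ M) (a : G → ℝ) :
    ∑ k ∈ fr M, (1 - |(k : ℝ)| / M) * ‖∑ z ∈ V X, (a z : ℂ) * xi (-k) z‖ ^ 2 =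
      ∑ z ∈ V X, ∑ w ∈ V X, a z * a w * fej M (dir w / dir z) := by
  have h := ls_expand X M hM (fun z => (a z : ℂ))
  simp only [Complex.conj_ofReal] at h
  have h2 : ∑ z ∈ V X, ∑ w ∈ V X, (a z : ℂ) * (a w : ℂ) * ((fej M (dir w / dir z) : ℝ) : ℂ) =
      ((∑ z ∈ V X, ∑ w ∈ V X, a z * a w * fej M (dir w / dir z) : ℝ) : ℂ) := by
    push_cast
    rfl
  rw [h2] at h
  exact Complex.ofReal_injective h

open Classical in
/-- `∑_{k ∈ fr T} ‖fc k‖² ≥ ∑_{k ∈ fr T} (1 - |k|/T) ‖fc k‖² = ∑_{z,w} F z F w fej T (dir w / dir z)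
= ∑_{z,w} fej - 2 ∑_{F z ≠ F w} fej` and `∑_{z,w} fej ≥ N²` (the same identity for `F = 1`, keep `k = 0`),
`N = #V X ≥ c₀ X`. Pairs at distance `> η`: `≤ N · 200 X / (T η)` (`sum_kernel_far`, `δ = 1/X ≤ η`,
`fej_mul_le`); pairs at distance `≤ η`: `≤ T · C (1 + η X)² #edges` (`fej_le`, `pairs_le`). Take
`η = C₁ / (ε T)` with `C₁` a large absolute constant; `η ≤ 1` as `c ε T ≥ 1`, and `η X ≥ 1`. -/
theorem mass : ∃ c : ℝ, 0 < c ∧ ∀ (F : G → ℝ), PM F → ∀ (X : ℝ) (T : ℕ) (ε : ℝ), 1 ≤ X → 0 < ε →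
    ε ≤ 1 → 1 ≤ c * ε * T → (T : ℝ) ≤ X → ((edges F X).card : ℝ) ≤ c * ε ^ 3 * T →
    (1 - ε) * ((V X).card : ℝ) ^ 2 ≤ ∑ k ∈ fr T, ‖fc F X k‖ ^ 2 := by
  obtain ⟨C, hC, hpairs⟩ := pairs_le
  obtain ⟨c0, hc0, hV⟩ := card_V_ge
  set C1 : ℝ := max 1 (800 / c0) with hC1
  have hC1one : 1 ≤ C1 := le_max_left _ _
  have hC1pos : 0 < C1 := by linarith
  have hC1c : 800 / c0 ≤ C1 := le_max_right _ _
  set c : ℝ := min (1 / C1) (c0 ^ 2 / (16 * C * C1 ^ 2)) with hc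
  have hcpos : 0 < c := lt_min (by positivity) (by positivity)
  refine ⟨c, hcpos, ?_⟩
  intro F hF X T ε hX hε hε1 hcT hTX hedge
  have hc1 : c ≤ 1 / C1 := min_le_left _ _
  have hc2 : c ≤ c0 ^ 2 / (16 * C * C1 ^ 2) := min_le_right _ _
  have hX0 : 0 < X := by linarith
  have hT0 : (0 : ℝ) < T := by
    by_contra h
    push Not at h
    have h1 : (T : ℝ) = 0 := le_antisymm h (Nat.cast_nonneg T)
    rw [h1, mul_zero] at hcT
    linarith
  have hT1 : 1 ≤ T := by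
    have : (0 : ℕ) < T := by exact_mod_cast hT0
    omega
  have hT1r : (1 : ℝ) ≤ T := by exact_mod_cast hT1
  set N : ℝ := ((V X).card : ℝ) with hN
  have hNX : c0 * X ≤ N := hV X hX
  have hN0 : 0 < N := lt_of_lt_of_le (by positivity) hNX
  -- the threshold
  set η : ℝ := C1 / (ε * T) with hη
  have hεT : 0 < ε * T := by positivity
  have hη0 : 0 < η := by positivity
  have hη1 : η ≤ 1 := by
    rw [hη, div_le_one hεT]
    have h1 : c * (ε * T) ≤ 1 / C1 * (ε * T) := by gcongr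
    have h2 : 1 ≤ 1 / C1 * (ε * T) := by linarith
    rw [one_div, ← div_eq_inv_mul, le_div_iff₀ hC1pos] at h2
    linarith
  have hηX : C1 * X ≤ η * X * (ε * T) := by
    have : η * X * (ε * T) = C1 * X := by
      rw [hη]
      field_simp
    rw [this]
  have hηX1 : 1 ≤ η * X := by
    have h1 : η * X = C1 * X / (ε * T) := by rw [hη]; ring
    rw [h1, le_div_iff₀ hεT]
    have h2 : ε * T ≤ 1 * X := mul_le_mul hε1 hTX hT0.le (by norm_num)
    nlinarith
  have hδη : 1 / X ≤ η := by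
    rw [div_le_iff₀ hX0]
    exact hηX1
  -- kernel sums over pairs with different signs
  set D := (V X ×ˢ V X).filter (fun p => F p.1 ≠ F p.2) with hD
  have hexp : ∑ k ∈ fr T, (1 - |(k : ℝ)| / T) * ‖fc F X k‖ ^ 2 =
      ∑ z ∈ V X, ∑ w ∈ V X, fej T (dir w / dir z) - 2 * ∑ p ∈ D, fej T (dir p.2 / dir p.1) := by
    have h1 := mass_expand X T hT1 F
    unfold fc
    rw [h1, hD, Finset.sum_filter, Finset.mul_sum, Finset.sum_product, ← Finset.sum_sub_distrib]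
    refine Finset.sum_congr rfl fun z hz => ?_
    rw [← Finset.sum_sub_distrib]
    refine Finset.sum_congr rfl fun w hw => ?_
    rw [hF.mul_eq (mem_V.1 hz).2.1 (mem_V.1 hw).2.1]
    by_cases h : F z = F w
    · simp [h]
    · simp only [ne_eq, h, not_false_eq_true, if_true]
      ring
  have hone : N ^ 2 ≤ ∑ z ∈ V X, ∑ w ∈ V X, fej T (dir w / dir z) := by
    have h1 := mass_expand X T hT1 (fun _ => 1)
    simp only [one_mul] at h1
    rw [← h1]
    have h0 : (0 : ℤ) ∈ fr T := by rw [mem_fr]; omega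
    refine le_trans ?_ (Finset.single_le_sum (f := fun k : ℤ =>
      (1 - |(k : ℝ)| / T) * ‖∑ z ∈ V X, ((1 : ℝ) : ℂ) * xi (-k) z‖ ^ 2) ?_ h0)
    · simp [hN]
    · intro k hk
      rw [mem_fr] at hk
      have h2 : |(k : ℝ)| ≤ T := by
        rw [abs_le]
        constructor
        · exact_mod_cast hk.1
        · exact_mod_cast hk.2
      have h3 : |(k : ℝ)| / T ≤ 1 := by
        rw [div_le_one hT0]
        exact h2
      have h4 : 0 ≤ 1 - |(k : ℝ)| / T := by linarith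
      positivity
  have hlow : ∑ k ∈ fr T, (1 - |(k : ℝ)| / T) * ‖fc F X k‖ ^ 2 ≤ ∑ k ∈ fr T, ‖fc F X k‖ ^ 2 := by
    refine Finset.sum_le_sum fun k _ => ?_
    have h1 : 0 ≤ |(k : ℝ)| / T := by positivity
    have h2 : 0 ≤ ‖fc F X k‖ ^ 2 := by positivity
    nlinarith
  -- near and far
  set Dn := D.filter (fun p => ‖dir p.1 - dir p.2‖ ≤ η) with hDn
  set Df := D.filter (fun p => ¬ ‖dir p.1 - dir p.2‖ ≤ η) with hDf
  have hsplit : ∑ p ∈ D, fej T (dir p.2 / dir p.1) =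
      ∑ p ∈ Dn, fej T (dir p.2 / dir p.1) + ∑ p ∈ Df, fej T (dir p.2 / dir p.1) :=
    (Finset.sum_filter_add_sum_filter_not D _ _).symm
  have hnear : ∑ p ∈ Dn, fej T (dir p.2 / dir p.1) ≤ ε / 4 * N ^ 2 := by
    have h1 : ∑ p ∈ Dn, fej T (dir p.2 / dir p.1) ≤ Dn.card * (T : ℝ) := by
      rw [← nsmul_eq_mul]
      refine Finset.sum_le_card_nsmul _ _ _ fun p hp => ?_
      have hpV := Finset.mem_product.1 (Finset.mem_filter.1 (Finset.mem_filter.1 hp).1).1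
      exact (fej_dir_le T hT1 p.1 p.2 (V_ne_zero hpV.1) (V_ne_zero hpV.2)).1
    have h2 : (Dn.card : ℝ) ≤ C * (1 + η * X) ^ 2 * (edges F X).card := by
      have h3 : Dn = (V X ×ˢ V X).filter (fun p => F p.1 ≠ F p.2 ∧ ‖dir p.1 - dir p.2‖ ≤ η) := by
        rw [hDn, hD, Finset.filter_filter]
      rw [h3]
      exact hpairs F hF X η hX hη0.le hη1
    have h3 : (1 + η * X) ^ 2 ≤ 4 * (η * X) ^ 2 := by nlinarith
    have h4 : (0 : ℝ) ≤ (edges F X).card := Nat.cast_nonneg _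
    have h5 : (η * X) ^ 2 * (ε * T) ^ 2 = C1 ^ 2 * X ^ 2 := by
      have : η * X * (ε * T) = C1 * X := by
        rw [hη]
        field_simp
      rw [← mul_pow, this, mul_pow]
    have h6 : c * (16 * C * C1 ^ 2) ≤ c0 ^ 2 := by
      rwa [le_div_iff₀ (by positivity)] at hc2
    have h7 : (c0 * X) ^ 2 ≤ N ^ 2 := by gcongr
    calc ∑ p ∈ Dn, fej T (dir p.2 / dir p.1) ≤ Dn.card * (T : ℝ) := h1
      _ ≤ (C * (1 + η * X) ^ 2 * (edges F X).card) * T := by gcongr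
      _ ≤ (C * (4 * (η * X) ^ 2) * (c * ε ^ 3 * T)) * T := by gcongr
      _ = ε * (4 * C * c) * ((η * X) ^ 2 * (ε * T) ^ 2) := by ring
      _ = ε / 4 * (c * (16 * C * C1 ^ 2)) * X ^ 2 := by rw [h5]; ring
      _ ≤ ε / 4 * c0 ^ 2 * X ^ 2 := by gcongr
      _ = ε / 4 * (c0 * X) ^ 2 := by ring
      _ ≤ ε / 4 * N ^ 2 := by gcongr
  have hfar : ∑ p ∈ Df, fej T (dir p.2 / dir p.1) ≤ ε / 4 * N ^ 2 := by
    have h1 : ∑ p ∈ Df, fej T (dir p.2 / dir p.1) ≤
        ∑ z ∈ V X, ∑ w ∈ (V X).filter (fun w => ¬ ‖dir z - dir w‖ ≤ η), fej T (dir w / dir z) := by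
      have h2 : Df ⊆ (V X ×ˢ V X).filter (fun p => ¬ ‖dir p.1 - dir p.2‖ ≤ η) := by
        intro p hp
        have h3 := Finset.mem_filter.1 hp
        exact Finset.mem_filter.2 ⟨(Finset.mem_filter.1 h3.1).1, h3.2⟩
      refine (Finset.sum_le_sum_of_subset_of_nonneg h2 fun p _ _ => fej_nonneg _ _).trans ?_
      rw [Finset.sum_filter, Finset.sum_product]
      refine Finset.sum_le_sum fun z _ => ?_
      rw [Finset.sum_filter]
    refine h1.trans ?_
    have h2 : ∀ z ∈ V X, ∑ w ∈ (V X).filter (fun w => ¬ ‖dir z - dir w‖ ≤ η),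
        fej T (dir w / dir z) ≤ 200 / (T * η * (1 / X)) := by
      intro z hz
      refine sum_kernel_far _ dir (1 / X) (by positivity)
        (fun w hw => norm_dir (V_ne_zero (Finset.mem_filter.1 hw).1))
        (fun v hv w hw hne => spaced X v w (Finset.mem_filter.1 hv).1 (Finset.mem_filter.1 hw).1
          hne) (dir z) (norm_dir (V_ne_zero hz)) T hT1r _
        (fun w hw => (fej_dir_le T hT1 z w (V_ne_zero hz)
          (V_ne_zero (Finset.mem_filter.1 hw).1)).2) η hδη (fun w hw => ?_)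
      rw [norm_sub_rev]
      exact not_le.1 (Finset.mem_filter.1 hw).2
    calc ∑ z ∈ V X, ∑ w ∈ (V X).filter (fun w => ¬ ‖dir z - dir w‖ ≤ η),
          fej T (dir w / dir z) ≤ ∑ z ∈ V X, 200 / (T * η * (1 / X)) := Finset.sum_le_sum h2
      _ = N * (200 / (T * η * (1 / X))) := by rw [Finset.sum_const, nsmul_eq_mul]
      _ = N * (200 * ε * X / C1) := by
          rw [hη]
          field_simp
      _ ≤ N * (ε / 4 * N) := by
          refine mul_le_mul_of_nonneg_left ?_ hN0.le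
          rw [div_le_iff₀ hC1pos]
          have h3 : 800 ≤ C1 * c0 := by
            rwa [div_le_iff₀ hc0] at hC1c
          have h4 : 800 * X ≤ C1 * N := by
            calc 800 * X ≤ (C1 * c0) * X := by gcongr
              _ = C1 * (c0 * X) := by ring
              _ ≤ C1 * N := by gcongr
          nlinarith
      _ = ε / 4 * N ^ 2 := by ring
  have hfin : (1 - ε) * N ^ 2 ≤ ∑ k ∈ fr T, (1 - |(k : ℝ)| / T) * ‖fc F X k‖ ^ 2 := by
    rw [hexp, hsplit]
    linarith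
  exact hfin.trans hlow

end Pool.Agent.GaussMR
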