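import Pool.Agent.Lib_MP_f1a94e_mr.Perm

/-!
# Piece PAIRSB: sum of the norms of the gcd of two products
-/

set_option autoImplicit false

namespace Pool.Agent.GaussMR

/-- splitting a sum over functions at one coordinate -/
theorem pb_sum_insert {m : ℕ} (W : Finset G) (j : Fin (m + 1)) (f : (Fin (m + 1) → G) → ℝ) :
    ∑ y ∈ Fintype.piFinset (fun _ : Fin (m + 1) => W), f y =
      ∑ a ∈ W, ∑ y ∈ Fintype.piFinset (fun _ : Fin m => W), f (Fin.insertNth j a y) := by
  rw [← Finset.sum_product']
  symm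
  refine Finset.sum_bij' (fun p _ => (Fin.insertNth j p.1 p.2 : Fin (m + 1) → G))
    (fun y _ => (y j, fun i => y (j.succAbove i))) ?_ ?_ ?_ ?_ ?_
  · rintro ⟨a, y⟩ hp
    rw [Finset.mem_product] at hp
    rw [Fintype.mem_piFinset]
    intro i
    have h2 := Fintype.mem_piFinset.1 hp.2
    refine Fin.succAboveCases j ?_ (fun i => ?_) i
    · rw [Fin.insertNth_apply_same]
      exact hp.1
    · rw [Fin.insertNth_apply_succAbove]
      exact h2 i
  · intro y hy
    rw [Fintype.mem_piFinset] at hy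
    rw [Finset.mem_product]
    refine ⟨hy j, ?_⟩
    rw [Fintype.mem_piFinset]
    intro i
    exact hy _
  · rintro ⟨a, y⟩ _
    refine Prod.ext ?_ ?_
    · show (Fin.insertNth j a y : Fin (m + 1) → G) j = a
      simp
    · funext i
      show (Fin.insertNth j a y : Fin (m + 1) → G) (j.succAbove i) = y i
      simp
  · intro y _
    exact Fin.insertNth_self_removeNth j y
  · rintro ⟨a, y⟩ _
    rfl

theorem pb_prod_insert {m : ℕ} (j : Fin (m + 1)) (a : G) (y : Fin m → G) :
    ∏ i, (Fin.insertNth j a y : Fin (m + 1) → G) i = a * ∏ i, y i := by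
  rw [Fin.prod_univ_succAbove _ j]
  simp

/-- number of elements -/
theorem pb_card {P Q Y : ℝ} {W : Finset G} (hW : W ⊆ PP P Q) (hY : 1 ≤ Y)
    (h : ∀ w ∈ W, (nm w : ℝ) ≤ 3 * Y) : (W.card : ℝ) ≤ 3 * Y := by
  have h1 : W.card ≤ ⌊3 * Y⌋₊ := by
    have h2 : (W.image nm).card = W.card := by
      apply Finset.card_image_of_injOn
      intro a ha b hb hab
      exact PP_inj (hW ha) (hW hb) hab
    rw [← h2]
    have h3 : W.image nm ⊆ Finset.Icc 1 ⌊3 * Y⌋₊ := by
      intro n hn
      obtain ⟨w, hw, rfl⟩ := Finset.mem_image.1 hn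
      rw [Finset.mem_Icc]
      refine ⟨?_, Nat.le_floor (h w hw)⟩
      exact (mem_PP.1 (hW hw)).2.2.1.one_lt.le
    have h4 := Finset.card_le_card h3
    rwa [Nat.card_Icc, Nat.add_sub_cancel] at h4
  calc (W.card : ℝ) ≤ (⌊3 * Y⌋₊ : ℝ) := by exact_mod_cast h1
    _ ≤ 3 * Y := Nat.floor_le (by linarith)

theorem pb_nm_le {d e : G} (he : e ≠ 0) (h : d ∣ e) : nm d ≤ nm e :=
  Nat.le_of_dvd (nm_pos he) (nm_dvd h)

theorem pb_gcd_ne {a b : G} (ha : a ≠ 0) : EuclideanDomain.gcd a b ≠ 0 := by
  intro h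
  exact ha (EuclideanDomain.gcd_eq_zero_iff.1 h).1

theorem pb_gcd_coprime {w a b : G} (hw : Prime w) (ha : a ≠ 0) (hb : ¬(w ∣ b)) :
    nm (EuclideanDomain.gcd (w * a) b) ≤ nm (EuclideanDomain.gcd a b) := by
  apply pb_nm_le (pb_gcd_ne ha)
  apply EuclideanDomain.dvd_gcd
  · have h1 : EuclideanDomain.gcd (w * a) b ∣ w * a := EuclideanDomain.gcd_dvd_left _ _
    have h2 : ¬(w ∣ EuclideanDomain.gcd (w * a) b) := fun h =>
      hb (h.trans (EuclideanDomain.gcd_dvd_right _ _))
    have h3 : IsCoprime w (EuclideanDomain.gcd (w * a) b) :=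
      (hw.irreducible.coprime_iff_not_dvd).2 h2
    exact h3.symm.dvd_of_dvd_mul_left h1
  · exact EuclideanDomain.gcd_dvd_right _ _

theorem pb_gcd_mul {w a b : G} (hw : w ≠ 0) (ha : a ≠ 0) :
    nm (EuclideanDomain.gcd (w * a) (w * b)) ≤ nm w * nm (EuclideanDomain.gcd a b) := by
  rw [← nm_mul]
  apply pb_nm_le (mul_ne_zero hw (pb_gcd_ne ha))
  have h1 : w * EuclideanDomain.gcd a b =
      w * a * EuclideanDomain.gcdA a b + w * b * EuclideanDomain.gcdB a b := by
    rw [EuclideanDomain.gcd_eq_gcd_ab a b]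
    ring
  rw [h1]
  exact dvd_add ((EuclideanDomain.gcd_dvd_left _ _).mul_right _)
    ((EuclideanDomain.gcd_dvd_right _ _).mul_right _)

/-- the sum with different numbers of factors -/
theorem pb_main (l : ℕ) : ∀ m : ℕ, ∃ C : ℝ, 0 < C ∧ ∀ (P Q Y : ℝ) (W : Finset G), W ⊆ PP P Q →
    1 ≤ Y → (∀ w ∈ W, (nm w : ℝ) ≤ 3 * Y) →
    ∑ x ∈ Fintype.piFinset (fun _ : Fin l => W), ∑ y ∈ Fintype.piFinset (fun _ : Fin m => W),
      (nm (EuclideanDomain.gcd (∏ i, x i) (∏ i, y i)) : ℝ) ≤ C * Y ^ (l + m) := by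
  induction l with
  | zero =>
    intro m
    refine ⟨3 ^ m, by positivity, ?_⟩
    intro P Q Y W hW hY h
    have hc := pb_card hW hY h
    have h1 : ∀ x ∈ Fintype.piFinset (fun _ : Fin 0 => W),
        ∑ y ∈ Fintype.piFinset (fun _ : Fin m => W),
          (nm (EuclideanDomain.gcd (∏ i, x i) (∏ i, y i)) : ℝ) = (W.card : ℝ) ^ m := by
      intro x _
      have h2 : ∀ y ∈ Fintype.piFinset (fun _ : Fin m => W),
          (nm (EuclideanDomain.gcd (∏ i, x i) (∏ i, y i)) : ℝ) = 1 := by
        intro y _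
        have h3 : ∏ i, x i = 1 := by simp
        rw [h3]
        have h4 : IsUnit (EuclideanDomain.gcd (1 : G) (∏ i, y i)) :=
          isUnit_of_dvd_one (EuclideanDomain.gcd_dvd_left _ _)
        rw [nm_eq_one_iff.2 h4]
        simp
      rw [Finset.sum_congr rfl h2]
      simp
    rw [Finset.sum_congr rfl h1]
    have h5 : (Fintype.piFinset (fun _ : Fin 0 => W)).card = 1 := by simp
    rw [Finset.sum_const, h5, one_smul, Nat.zero_add, ← mul_pow]
    exact pow_le_pow_left₀ (by positivity) hc m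
  | succ l ih =>
    intro m
    rcases Nat.eq_zero_or_pos m with hm | hm
    · subst hm
      refine ⟨3 ^ (l + 1), by positivity, ?_⟩
      intro P Q Y W hW hY h
      have hc := pb_card hW hY h
      have h1 : ∀ x ∈ Fintype.piFinset (fun _ : Fin (l + 1) => W),
          ∑ y ∈ Fintype.piFinset (fun _ : Fin 0 => W),
            (nm (EuclideanDomain.gcd (∏ i, x i) (∏ i, y i)) : ℝ) = 1 := by
        intro x _
        have h2 : ∀ y ∈ Fintype.piFinset (fun _ : Fin 0 => W),
            (nm (EuclideanDomain.gcd (∏ i, x i) (∏ i, y i)) : ℝ) = 1 := by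
          intro y _
          have h3 : ∏ i, y i = 1 := by simp
          rw [h3]
          have h4 : IsUnit (EuclideanDomain.gcd (∏ i, x i) (1 : G)) :=
            isUnit_of_dvd_one (EuclideanDomain.gcd_dvd_right _ _)
          rw [nm_eq_one_iff.2 h4]
          simp
        rw [Finset.sum_congr rfl h2]
        simp
      rw [Finset.sum_congr rfl h1]
      have h5 : ((Fintype.piFinset (fun _ : Fin (l + 1) => W)).card : ℝ) =
          (W.card : ℝ) ^ (l + 1) := by
        simp
      rw [Finset.sum_const, nsmul_eq_mul, mul_one, h5, Nat.add_zero, ← mul_pow]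
      exact pow_le_pow_left₀ (by positivity) hc _
    · obtain ⟨m, rfl⟩ : ∃ m', m = m' + 1 := ⟨m - 1, by omega⟩
      obtain ⟨C1, hC1, H1⟩ := ih (m + 1)
      obtain ⟨C2, hC2, H2⟩ := ih m
      refine ⟨3 * C1 + (m + 1) * 9 * C2, by positivity, ?_⟩
      intro P Q Y W hW hY h
      have hc := pb_card hW hY h
      have I1 := H1 P Q Y W hW hY h
      have I2 := H2 P Q Y W hW hY h
      have hne : ∀ w ∈ W, w ≠ 0 := fun w hw => (PP_spl (hW hw)).prime.ne_zero
      have hprod : ∀ {n : ℕ} (x : Fin n → G), x ∈ Fintype.piFinset (fun _ : Fin n => W) →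
          ∏ i, x i ≠ 0 := by
        intro n x hx
        rw [Finset.prod_ne_zero_iff]
        intro i _
        exact hne _ (Fintype.mem_piFinset.1 hx i)
      -- pointwise bound
      have key : ∀ w ∈ W, ∀ x ∈ Fintype.piFinset (fun _ : Fin l => W),
          ∑ y ∈ Fintype.piFinset (fun _ : Fin (m + 1) => W),
            (nm (EuclideanDomain.gcd (w * ∏ i, x i) (∏ i, y i)) : ℝ) ≤
          ∑ y ∈ Fintype.piFinset (fun _ : Fin (m + 1) => W),
            (nm (EuclideanDomain.gcd (∏ i, x i) (∏ i, y i)) : ℝ) +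
          (m + 1) * (3 * Y) * ∑ y ∈ Fintype.piFinset (fun _ : Fin m => W),
            (nm (EuclideanDomain.gcd (∏ i, x i) (∏ i, y i)) : ℝ) := by
        intro w hw x hx
        have hwp : Prime w := (PP_spl (hW hw)).prime
        have hx0 := hprod x hx
        have step : ∀ y ∈ Fintype.piFinset (fun _ : Fin (m + 1) => W),
            (nm (EuclideanDomain.gcd (w * ∏ i, x i) (∏ i, y i)) : ℝ) ≤
            (nm (EuclideanDomain.gcd (∏ i, x i) (∏ i, y i)) : ℝ) +
            ∑ j : Fin (m + 1), if y j = w then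
              (nm (EuclideanDomain.gcd (w * ∏ i, x i) (∏ i, y i)) : ℝ) else 0 := by
          intro y hy
          by_cases hd : w ∣ ∏ i, y i
          · obtain ⟨j, _, hj⟩ := (hwp.dvd_finsetProd_iff _).1 hd
            have hj' : y j = w := (PP_dvd (hW hw) (hW (Fintype.mem_piFinset.1 hy j)) hj).symm
            have h3 : (nm (EuclideanDomain.gcd (w * ∏ i, x i) (∏ i, y i)) : ℝ) ≤
                ∑ j : Fin (m + 1), if y j = w then
                (nm (EuclideanDomain.gcd (w * ∏ i, x i) (∏ i, y i)) : ℝ) else 0 := by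
              have h4 := Finset.single_le_sum (f := fun j : Fin (m + 1) => if y j = w then
                (nm (EuclideanDomain.gcd (w * ∏ i, x i) (∏ i, y i)) : ℝ) else 0)
                (s := Finset.univ) (fun i _ => by positivity) (Finset.mem_univ j)
              simp only [hj', if_true] at h4
              exact h4
            have h5 : (0 : ℝ) ≤ (nm (EuclideanDomain.gcd (∏ i, x i) (∏ i, y i)) : ℝ) := by
              positivity
            linarith
          · have h3 : (nm (EuclideanDomain.gcd (w * ∏ i, x i) (∏ i, y i)) : ℝ) ≤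
                (nm (EuclideanDomain.gcd (∏ i, x i) (∏ i, y i)) : ℝ) := by
              exact_mod_cast pb_gcd_coprime hwp hx0 hd
            have h4 : (0 : ℝ) ≤ ∑ j : Fin (m + 1), if y j = w then
                (nm (EuclideanDomain.gcd (w * ∏ i, x i) (∏ i, y i)) : ℝ) else 0 :=
              Finset.sum_nonneg (fun i _ => by positivity)
            linarith
        refine (Finset.sum_le_sum step).trans ?_
        rw [Finset.sum_add_distrib]
        have h6 : ∑ y ∈ Fintype.piFinset (fun _ : Fin (m + 1) => W), ∑ j : Fin (m + 1),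
            (if y j = w then
              (nm (EuclideanDomain.gcd (w * ∏ i, x i) (∏ i, y i)) : ℝ) else 0) ≤
            (m + 1) * (3 * Y) * ∑ y ∈ Fintype.piFinset (fun _ : Fin m => W),
            (nm (EuclideanDomain.gcd (∏ i, x i) (∏ i, y i)) : ℝ) := by
          rw [Finset.sum_comm]
          have h7 : ∀ j ∈ (Finset.univ : Finset (Fin (m + 1))),
              ∑ y ∈ Fintype.piFinset (fun _ : Fin (m + 1) => W),
              (if y j = w then
              (nm (EuclideanDomain.gcd (w * ∏ i, x i) (∏ i, y i)) : ℝ) else 0) ≤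
              (3 * Y) * ∑ y ∈ Fintype.piFinset (fun _ : Fin m => W),
                (nm (EuclideanDomain.gcd (∏ i, x i) (∏ i, y i)) : ℝ) := by
            intro j _
            rw [pb_sum_insert W j]
            have h8 : ∀ a ∈ W, ∑ y ∈ Fintype.piFinset (fun _ : Fin m => W),
                (if (Fin.insertNth j a y : Fin (m + 1) → G) j = w then
                (nm (EuclideanDomain.gcd (w * ∏ i, x i)
                  (∏ i, (Fin.insertNth j a y : Fin (m + 1) → G) i)) : ℝ) else 0) =
                if a = w then ∑ y ∈ Fintype.piFinset (fun _ : Fin m => W),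
                  (nm (EuclideanDomain.gcd (w * ∏ i, x i) (w * ∏ i, y i)) : ℝ) else 0 := by
              intro a _
              by_cases ha : a = w
              · subst ha
                simp only [Fin.insertNth_apply_same, if_true, pb_prod_insert]
              · simp [ha]
            rw [Finset.sum_congr rfl h8, Finset.sum_ite_eq' W w, if_pos hw, Finset.mul_sum]
            apply Finset.sum_le_sum
            intro y _
            have h9 := pb_gcd_mul (w := w) (a := ∏ i, x i) (b := ∏ i, y i) (hne w hw) hx0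
            have h10 : (nm (EuclideanDomain.gcd (w * ∏ i, x i) (w * ∏ i, y i)) : ℝ) ≤
                (nm w : ℝ) * (nm (EuclideanDomain.gcd (∏ i, x i) (∏ i, y i)) : ℝ) := by
              exact_mod_cast h9
            refine h10.trans ?_
            exact mul_le_mul_of_nonneg_right (h w hw) (by positivity)
          refine (Finset.sum_le_sum h7).trans ?_
          rw [Finset.sum_const]
          simp only [Finset.card_univ, Fintype.card_fin, nsmul_eq_mul]
          push_cast
          apply le_of_eq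
          ring
        linarith
      -- sum over the first coordinate
      rw [pb_sum_insert W (0 : Fin (l + 1))]
      simp only [pb_prod_insert]
      have h11 : ∑ w ∈ W, ∑ x ∈ Fintype.piFinset (fun _ : Fin l => W),
          ∑ y ∈ Fintype.piFinset (fun _ : Fin (m + 1) => W),
            (nm (EuclideanDomain.gcd (w * ∏ i, x i) (∏ i, y i)) : ℝ) ≤
          ∑ _w ∈ W, (C1 * Y ^ (l + (m + 1)) + (m + 1) * (3 * Y) * (C2 * Y ^ (l + m))) := by
        apply Finset.sum_le_sum
        intro w hw
        refine (Finset.sum_le_sum (key w hw)).trans ?_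
        rw [Finset.sum_add_distrib, ← Finset.mul_sum]
        have h12 : (0 : ℝ) ≤ (m + 1) * (3 * Y) := by positivity
        exact add_le_add I1 (mul_le_mul_of_nonneg_left I2 h12)
      refine h11.trans ?_
      rw [Finset.sum_const, nsmul_eq_mul]
      have h13 : (0 : ℝ) ≤ C1 * Y ^ (l + (m + 1)) + (m + 1) * (3 * Y) * (C2 * Y ^ (l + m)) := by
        positivity
      refine (mul_le_mul_of_nonneg_right hc h13).trans ?_
      apply le_of_eq
      have e1 : Y ^ (l + 1 + (m + 1)) = Y ^ (l + m) * Y ^ 2 := by rw [← pow_add]; ring_nf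
      have e2 : Y ^ (l + (m + 1)) = Y ^ (l + m) * Y := by rw [← pow_succ]; ring_nf
      rw [e1, e2]
      ring

/-- `gcd(∏ x, ∏ y)` is (up to a unit) a product of common primes: there are a subset `I` of `Fin l` and an
injection `σ : I → Fin l` with `x_i = y_(σ i)` for `i ∈ I` and `nm gcd = ∏_{i ∈ I} nm (x_i) ≤ (3 Y)^|I|`.
For given `(I, σ)` the number of `(x, y)` is at most `#W^(2 l - |I|) ≤ (3 Y)^(2 l - |I|)` (distinct elements
of `PP` have distinct norms, so `#W ≤ 3 Y`). Sum over the boundedly many `(I, σ)`. -/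
theorem pairsB (l : ℕ) : ∃ C : ℝ, 0 < C ∧ ∀ (P Q Y : ℝ) (W : Finset G), W ⊆ PP P Q → 1 ≤ Y →
    (∀ w ∈ W, (nm w : ℝ) ≤ 3 * Y) →
    ∑ x ∈ Fintype.piFinset (fun _ : Fin l => W), ∑ y ∈ Fintype.piFinset (fun _ : Fin l => W),
      (nm (EuclideanDomain.gcd (∏ i, x i) (∏ i, y i)) : ℝ) ≤ C * Y ^ (2 * l) := by
  obtain ⟨C, hC, H⟩ := pb_main l l
  refine ⟨C, hC, ?_⟩
  intro P Q Y W hW hY h
  have := H P Q Y W hW hY h
  rwa [← two_mul] at this

end Pool.Agent.GaussMR
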