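import Pool.Agent.Lib_MP_f1a94e_mr.PairsA
import Pool.Agent.Lib_MP_f1a94e_mr.PairsB

/-!
# Piece PAIRSU: second moment of the number of representations of a direction
-/

set_option autoImplicit false

namespace Pool.Agent.GaussMR

theorem pu_nm_prod {l : ℕ} (x : Fin l → G) : nm (∏ i, x i) = ∏ i, nm (x i) := by
  induction l with
  | zero => simp
  | succ l ih =>
    rw [Fin.prod_univ_succ, Fin.prod_univ_succ, nm_mul, ih]

theorem pu_pow_le {l : ℕ} {W : Finset G} {Y : ℝ} (hY : 1 ≤ Y) (h : ∀ w ∈ W, Y < (nm w : ℝ))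
    (x : Fin l → G) (hx : ∀ i, x i ∈ W) : Y ^ l ≤ (nm (∏ i, x i) : ℝ) := by
  rw [pu_nm_prod]
  push_cast
  have h1 : Y ^ l = ∏ _i : Fin l, Y := by simp
  rw [h1]
  exact Finset.prod_le_prod (fun i _ => by linarith) (fun i _ => (h _ (hx i)).le)

/-- sum `pairsA` over `x, y ∈ W^l`, `√(nm ∏x nm ∏y) ≥ Y^l`, and use `pairsB` -/
theorem pairsU (l : ℕ) : ∃ C : ℝ, 0 < C ∧ ∀ (P Q Y X : ℝ) (W : Finset G), W ⊆ PP P Q → 1 ≤ Y →
    0 ≤ X → (∀ w ∈ W, Y < (nm w : ℝ) ∧ (nm w : ℝ) ≤ 3 * Y) →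
    (Set.ncard {q : ((Fin l → G) × G) × ((Fin l → G) × G) |
      (∀ i, q.1.1 i ∈ W) ∧ q.1.2 ∈ V X ∧ (∀ i, q.2.1 i ∈ W) ∧ q.2.2 ∈ V X ∧
      pr ((∏ i, q.1.1 i) * q.1.2) = pr ((∏ i, q.2.1 i) * q.2.2)} : ℝ) ≤ C * Y ^ l * X := by
  classical
  obtain ⟨C1, hC1, H1⟩ := pairsA l
  obtain ⟨C2, hC2, H2⟩ := pairsB l
  refine ⟨C1 * C2, by positivity, ?_⟩
  intro P Q Y X W hW hY hX h
  have I2 := H2 P Q Y W hW hY (fun w hw => (h w hw).2)
  set WW := Fintype.piFinset (fun _ : Fin l => W) with hWW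
  have hset : {q : ((Fin l → G) × G) × ((Fin l → G) × G) |
      (∀ i, q.1.1 i ∈ W) ∧ q.1.2 ∈ V X ∧ (∀ i, q.2.1 i ∈ W) ∧ q.2.2 ∈ V X ∧
      pr ((∏ i, q.1.1 i) * q.1.2) = pr ((∏ i, q.2.1 i) * q.2.2)} =
      ((((WW ×ˢ V X) ×ˢ (WW ×ˢ V X)).filter
        (fun q => pr ((∏ i, q.1.1 i) * q.1.2) = pr ((∏ i, q.2.1 i) * q.2.2)) :
        Finset (((Fin l → G) × G) × ((Fin l → G) × G))) :
        Set (((Fin l → G) × G) × ((Fin l → G) × G))) := by
    ext q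
    simp only [Set.mem_ofPred_eq, Finset.coe_filter, Finset.mem_product, hWW,
      Fintype.mem_piFinset]
    tauto
  rw [hset, Set.ncard_coe_finset]
  have hin : ∀ x ∈ WW, ∀ y ∈ WW, (((V X ×ˢ V X).filter
      (fun p => pr ((∏ i, x i) * p.1) = pr ((∏ i, y i) * p.2))).card : ℝ) ≤
      C1 * X / Y ^ l * (nm (EuclideanDomain.gcd (∏ i, x i) (∏ i, y i)) : ℝ) := by
    intro x hx y hy
    rw [hWW, Fintype.mem_piFinset] at hx hy
    have h1 := H1 P Q X x y (fun i => hW (hx i)) (fun i => hW (hy i)) hX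
    have hs : {p : G × G | p.1 ∈ V X ∧ p.2 ∈ V X ∧
        pr ((∏ i, x i) * p.1) = pr ((∏ i, y i) * p.2)} =
        (((V X ×ˢ V X).filter
        (fun p => pr ((∏ i, x i) * p.1) = pr ((∏ i, y i) * p.2)) : Finset (G × G)) :
          Set (G × G)) := by
      ext p
      simp only [Set.mem_ofPred_eq, Finset.coe_filter, Finset.mem_product]
      tauto
    rw [hs, Set.ncard_coe_finset] at h1
    refine h1.trans ?_
    have hYl : (0 : ℝ) < Y ^ l := by positivity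
    have h2 : Y ^ l ≤ Real.sqrt (nm (∏ i, x i) * nm (∏ i, y i) : ℝ) := by
      apply Real.le_sqrt_of_sq_le
      rw [sq]
      exact mul_le_mul (pu_pow_le hY (fun w hw => (h w hw).1) x hx)
        (pu_pow_le hY (fun w hw => (h w hw).1) y hy) hYl.le (by positivity)
    have h3 : C1 * X / Y ^ l * (nm (EuclideanDomain.gcd (∏ i, x i) (∏ i, y i)) : ℝ) =
        C1 * X * (nm (EuclideanDomain.gcd (∏ i, x i) (∏ i, y i)) : ℝ) / Y ^ l := by ring
    rw [h3]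
    exact div_le_div_of_nonneg_left (by positivity) hYl h2
  have hcard : ((((WW ×ˢ V X) ×ˢ (WW ×ˢ V X)).filter
        (fun q => pr ((∏ i, q.1.1 i) * q.1.2) = pr ((∏ i, q.2.1 i) * q.2.2))).card : ℝ) =
      ∑ x ∈ WW, ∑ y ∈ WW, (((V X ×ˢ V X).filter
      (fun p => pr ((∏ i, x i) * p.1) = pr ((∏ i, y i) * p.2))).card : ℝ) := by
    simp only [Finset.card_filter, Finset.sum_product]
    push_cast
    apply Finset.sum_congr rfl
    intro x _
    rw [Finset.sum_comm]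
  rw [hcard]
  calc ∑ x ∈ WW, ∑ y ∈ WW, (((V X ×ˢ V X).filter
      (fun p => pr ((∏ i, x i) * p.1) = pr ((∏ i, y i) * p.2))).card : ℝ)
      ≤ ∑ x ∈ WW, ∑ y ∈ WW,
        C1 * X / Y ^ l * (nm (EuclideanDomain.gcd (∏ i, x i) (∏ i, y i)) : ℝ) :=
        Finset.sum_le_sum (fun x hx => Finset.sum_le_sum (fun y hy => hin x hx y hy))
    _ = C1 * X / Y ^ l * ∑ x ∈ WW, ∑ y ∈ WW,
        (nm (EuclideanDomain.gcd (∏ i, x i) (∏ i, y i)) : ℝ) := by
        rw [Finset.mul_sum]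
        apply Finset.sum_congr rfl
        intro x _
        rw [Finset.mul_sum]
    _ ≤ C1 * X / Y ^ l * (C2 * Y ^ (2 * l)) :=
        mul_le_mul_of_nonneg_left I2 (by positivity)
    _ = C1 * C2 * Y ^ l * X := by
        have hYl : (Y ^ l : ℝ) ≠ 0 := by positivity
        have e : Y ^ (2 * l) = Y ^ l * Y ^ l := by rw [two_mul, pow_add]
        rw [e]
        field_simp

end Pool.Agent.GaussMR
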