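import Pool.Agent.Lib_MP_f1a94e_mr.LS
import Pool.Agent.Lib_MP_f1a94e_mr.VAsymp
import Pool.Agent.Lib_MP_f1a94e_mr.PairsU

/-!
# Piece SMALL2: second stage, amplification by powers of a first stage prime polynomial
-/

set_option autoImplicit false

namespace Pool.Agent.GaussMR

theorem s2_mem_PP {P Q : ℝ} {w : G} (h : w ∈ PP P Q) :
    (nm w : ℝ) ≤ Q ∧ P < (nm w : ℝ) ∧ (nm w).Prime ∧ 0 < w.im ∧ w.im < w.re := by
  classical
  unfold PP at h
  rw [Finset.mem_filter, mem_ball] at h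
  exact h

theorem s2_odd_PP {P Q : ℝ} {w : G} (h : w ∈ PP P Q) : Odd (nm w) := by
  obtain ⟨-, -, hp, h1, h2⟩ := s2_mem_PP h
  rcases hp.eq_two_or_odd' with h3 | h3
  · exfalso
    have h4 : (nm w : ℤ) = w.re ^ 2 + w.im ^ 2 := nm_eq w
    rw [h3] at h4
    push_cast at h4
    have h5 : (1 : ℤ) ≤ w.im := h1
    have h6 : (1 : ℤ) ≤ w.im ^ 2 := one_le_pow₀ h5
    have h7 : (2 : ℤ) ^ 2 ≤ w.re ^ 2 := pow_le_pow_left₀ (by norm_num) (by omega) 2
    linarith only [h4, h6, h7]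
  · exact h3

theorem s2_mem_blk {P Q ρ : ℝ} {v : ℕ} {w : G} (h : w ∈ blk P Q ρ v) :
    w ∈ PP P Q ∧ Real.exp (v * ρ) < (nm w : ℝ) ∧ (nm w : ℝ) ≤ Real.exp ((v + 1) * ρ) := by
  classical
  unfold blk at h
  rw [Finset.mem_filter] at h
  exact h

theorem s2_xi_one (k : ℤ) : xi k 1 = 1 := by
  have h : (1 : G) = ((1 : ℕ) : G) := by simp
  unfold xi
  rw [h, dir_natCast one_pos, one_zpow]

theorem s2_xi_prod (k : ℤ) {l : ℕ} (x : Fin l → G) : xi k (∏ i, x i) = ∏ i, xi k (x i) := by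
  have h : ∀ s : Finset (Fin l), xi k (∏ i ∈ s, x i) = ∏ i ∈ s, xi k (x i) := by
    intro s
    classical
    induction s using Finset.induction_on with
    | empty => simp [s2_xi_one]
    | insert a s ha ih => rw [Finset.prod_insert ha, Finset.prod_insert ha, xi_mul, ih]
  exact h _

theorem s2_nm_prod {l : ℕ} (x : Fin l → G) : nm (∏ i, x i) = ∏ i, nm (x i) := by
  have h : ∀ s : Finset (Fin l), nm (∏ i ∈ s, x i) = ∏ i ∈ s, nm (x i) := by
    intro s
    classical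
    induction s using Finset.induction_on with
    | empty => simp
    | insert a s ha ih => rw [Finset.prod_insert ha, Finset.prod_insert ha, nm_mul, ih]
  exact h _

/-- second moment of `(U_w)^l fc` -/
theorem s2_moment (l : ℕ) : ∃ C : ℝ, 0 < C ∧ ∀ (F : G → ℝ), PM F →
    ∀ (P Q ρ X' Y : ℝ) (T w : ℕ), 0 < ρ → ρ ≤ 1 → 0 ≤ X' → 1 ≤ Y →
    Real.exp ((w + 1) * ρ) ^ l * X' ≤ Y →
    ∑ k ∈ fr T, ‖U F P Q ρ w k ^ l * fc F X' k‖ ^ 2 ≤
      C * (T + Y) * (Real.exp (w * ρ) ^ l * X') := by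
  obtain ⟨C1, hC1, h1⟩ := large_sieve_fam
  obtain ⟨C2, hC2, h2⟩ := pairsU l
  refine ⟨C1 * C2, mul_pos hC1 hC2, ?_⟩
  intro F hF P Q ρ X' Y T w hρ hρ1 hX' hY hle
  classical
  set s : Finset ((Fin l → G) × G) :=
    (Fintype.piFinset fun _ : Fin l => blk P Q ρ w) ×ˢ V X' with hs
  have hmem : ∀ i ∈ s, (∀ j, i.1 j ∈ blk P Q ρ w) ∧ i.2 ∈ V X' := by
    intro i hi
    rw [hs, Finset.mem_product, Fintype.mem_piFinset] at hi
    exact hi
  have hid : ∀ k : ℤ, U F P Q ρ w k ^ l * fc F X' k =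
      ∑ i ∈ s, ((∏ j, (F (i.1 j) : ℂ)) * (F i.2 : ℂ)) * xi (-k) ((∏ j, i.1 j) * i.2) := by
    intro k
    have e1 : U F P Q ρ w k ^ l = ∑ x ∈ Fintype.piFinset (fun _ : Fin l => blk P Q ρ w),
        ∏ j, ((F (x j) : ℂ) * xi (-k) (x j)) := by
      have := Finset.prod_univ_sum (fun _ : Fin l => blk P Q ρ w)
        (fun _ (u : G) => (F u : ℂ) * xi (-k) u)
      rw [← this, Finset.prod_const, Finset.card_univ, Fintype.card_fin]
      rfl
    rw [e1, hs, Finset.sum_product]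
    unfold fc
    rw [Finset.sum_mul_sum]
    refine Finset.sum_congr rfl fun x _ => Finset.sum_congr rfl fun z _ => ?_
    dsimp only
    rw [xi_mul, s2_xi_prod, Finset.prod_mul_distrib]
    ring
  have hodd : ∀ i ∈ s, ∀ j, Odd (nm (i.1 j)) := fun i hi j =>
    s2_odd_PP (s2_mem_blk ((hmem i hi).1 j)).1
  have hc : ∀ i ∈ s, ‖(∏ j, (F (i.1 j) : ℂ)) * (F i.2 : ℂ)‖ ≤ 1 := by
    intro i hi
    rw [norm_mul, norm_prod, hF.norm (mem_V.1 (hmem i hi).2).2.1, mul_one]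
    rw [Finset.prod_congr rfl fun j _ => hF.norm (hodd i hi j)]
    simp
  have hg : ∀ i ∈ s, Odd (nm ((∏ j, i.1 j) * i.2)) ∧ (nm ((∏ j, i.1 j) * i.2) : ℝ) ≤ Y := by
    intro i hi
    constructor
    · rw [odd_nm_mul]
      refine ⟨?_, (mem_V.1 (hmem i hi).2).2.1⟩
      rw [s2_nm_prod]
      exact Finset.prod_induction _ Odd (fun a b => Odd.mul) odd_one fun j _ => hodd i hi j
    · rw [nm_mul, s2_nm_prod]
      push_cast
      refine le_trans ?_ hle
      refine mul_le_mul ?_ (mem_V.1 (hmem i hi).2).1 (Nat.cast_nonneg _) (by positivity)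
      refine (Finset.prod_le_prod (fun j _ => Nat.cast_nonneg _)
        (fun j _ => (s2_mem_blk ((hmem i hi).1 j)).2.2)).trans ?_
      rw [Finset.prod_const, Finset.card_univ, Fintype.card_fin]
  have h3 := h1 _ s (fun i => (∏ j, i.1 j) * i.2) (fun i => (∏ j, (F (i.1 j) : ℂ)) * (F i.2 : ℂ))
    Y T hY hc hg
  have h4 := h2 P Q (Real.exp (w * ρ)) X' (blk P Q ρ w)
    (fun u hu => (s2_mem_blk hu).1) (Real.one_le_exp (by positivity)) hX' (by
      intro u hu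
      have hu' := (s2_mem_blk hu).2
      refine ⟨hu'.1, hu'.2.trans ?_⟩
      have : Real.exp ((w + 1) * ρ) = Real.exp ρ * Real.exp (w * ρ) := by
        rw [← Real.exp_add]
        congr 1
        ring
      rw [this]
      have h5 : Real.exp ρ ≤ 3 :=
        (Real.exp_le_exp.2 hρ1).trans (by linarith [Real.exp_one_lt_d9])
      exact mul_le_mul_of_nonneg_right h5 (Real.exp_pos _).le)
  have hset : {p : ((Fin l → G) × G) × ((Fin l → G) × G) | p.1 ∈ s ∧ p.2 ∈ s ∧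
      pr ((∏ j, p.1.1 j) * p.1.2) = pr ((∏ j, p.2.1 j) * p.2.2)} =
      {q : ((Fin l → G) × G) × ((Fin l → G) × G) |
      (∀ i, q.1.1 i ∈ blk P Q ρ w) ∧ q.1.2 ∈ V X' ∧ (∀ i, q.2.1 i ∈ blk P Q ρ w) ∧
      q.2.2 ∈ V X' ∧ pr ((∏ i, q.1.1 i) * q.1.2) = pr ((∏ i, q.2.1 i) * q.2.2)} := by
    ext q
    simp only [Set.mem_setOf_eq, hs, Finset.mem_product, Fintype.mem_piFinset]
    tauto
  rw [hset] at h3
  calc ∑ k ∈ fr T, ‖U F P Q ρ w k ^ l * fc F X' k‖ ^ 2
      = ∑ k ∈ fr T, ‖∑ i ∈ s, ((∏ j, (F (i.1 j) : ℂ)) * (F i.2 : ℂ)) *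
          xi (-k) ((∏ j, i.1 j) * i.2)‖ ^ 2 := by
        refine Finset.sum_congr rfl fun k _ => ?_
        rw [hid k]
    _ ≤ C1 * (T + Y) * (C2 * Real.exp (w * ρ) ^ l * X') := by
        refine h3.trans ?_
        refine mul_le_mul_of_nonneg_left h4 ?_
        have : (0 : ℝ) ≤ T := Nat.cast_nonneg _
        have : 0 ≤ T + Y := by linarith
        positivity
    _ = C1 * C2 * (T + Y) * (Real.exp (w * ρ) ^ l * X') := by ring

theorem s2_blk_ne {F : G → ℝ} {P Q ρ : ℝ} {v : ℕ} {k : ℤ} (h : U F P Q ρ v k ≠ 0) :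
    P < Real.exp ((v + 1) * ρ) ∧ Real.exp (v * ρ) < Q := by
  unfold U at h
  obtain ⟨u, hu, -⟩ := Finset.exists_ne_zero_of_sum_ne_zero h
  have h1 := s2_mem_blk hu
  have h2 := s2_mem_PP h1.1
  exact ⟨h2.2.1.trans_le h1.2.2, h1.2.1.trans_le h2.1⟩

/-- Let `v` be a second stage block and `w` a first stage block, both nonempty, `l = ⌈v / w⌉`
(so `v ≤ l w < v + w`, and `l ≤ 2 l0 + 1`, since `w ρ ≥ log P1 - ρ ≥ log P1 / 2`). For `k ∈ S` with
`‖U1_w k‖ > e^((1-α1) w ρ)`: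
`e^(2(1-α2) v ρ) ‖fc_v k‖² ≤ e^(2(1-α2) v ρ - 2 l (1-α1) w ρ) ‖(U1_w k)^l fc_v k‖²
≤ e^(-2(α2-α1) v ρ) ‖(U1_w k)^l fc_v k‖²`, and `(U1_w)^l fc_v` is a sum over the family
`(x, z) ∈ blk^l × V (X e^(-vρ))`, `g = (∏ x) z` of norm `≤ X e^(ρ l) e^(w ρ)`; `large_sieve_fam` and
`pairsU l` with `Y = e^(w ρ)` bound its mean square by `C (T + X e^(ρ l) e^(wρ)) e^(wρl) X e^(-vρ)
≤ C_l X² Q1²`. Sum over `w` and `v` (Cauchy-Schwarz over `v`). -/
theorem small2 (l0 : ℕ) : ∃ C : ℝ, 0 < C ∧ ∀ (F : G → ℝ), PM F →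
    ∀ (P1 Q1 P2 Q2 ρ X α1 α2 : ℝ) (T : ℕ) (S : Finset ℤ),
    Real.exp 2 ≤ P1 → P1 ≤ Q1 → Q1 ≤ P2 → P2 ≤ Q2 → Q2 ≤ X → Real.log Q2 ≤ l0 * Real.log P1 →
    0 < ρ → ρ ≤ 1 → 0 ≤ α1 → α1 ≤ α2 → α2 ≤ 1 → (T : ℝ) ≤ X → S ⊆ fr T →
    (∀ k ∈ S, ∃ w : ℕ, Real.exp ((1 - α1) * (w * ρ)) < ‖U F P1 Q1 ρ w k‖) →
    (∀ k ∈ S, ∀ v : ℕ, ‖U F P2 Q2 ρ v k‖ ≤ Real.exp ((1 - α2) * (v * ρ))) →
    ∑ k ∈ S, ‖UZ F P2 Q2 ρ X k‖ ^ 2 ≤
      C * X ^ 2 * (Real.log Q2 / ρ + 1) ^ 3 * Q1 ^ 3 * P2 ^ (-(2 * (α2 - α1))) := by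
  choose Cl hCl0 hCl using s2_moment
  set C0 : ℝ := ∑ l ∈ Finset.range (2 * l0 + 2), Cl l with hC0
  have hClC0 : ∀ l, l ≤ 2 * l0 + 1 → Cl l ≤ C0 := by
    intro l hl
    exact Finset.single_le_sum (f := Cl) (fun i _ => (hCl0 i).le)
      (Finset.mem_range.2 (by omega))
  have hC0pos : 0 < C0 := lt_of_lt_of_le (hCl0 0) (hClC0 0 (by omega))
  set E : ℝ := Real.exp (2 * l0 + 1) with hE
  have hEpos : 0 < E := Real.exp_pos _
  refine ⟨C0 * (1 + E) * Real.exp 2, by positivity, ?_⟩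
  intro F hF P1 Q1 P2 Q2 ρ X α1 α2 T S hP1 hPQ1 hQP hPQ2 hQX hlog hρ hρ1 hα1 hα12 hα2 hTX hST hw hv
  have he2 : (1 : ℝ) ≤ Real.exp 2 := Real.one_le_exp (by norm_num)
  have hP1' : 1 ≤ P1 := he2.trans hP1
  have hQ1' : 1 ≤ Q1 := hP1'.trans hPQ1
  have hP2' : 1 ≤ P2 := hQ1'.trans hQP
  have hQ2' : 1 ≤ Q2 := hP2'.trans hPQ2
  have hX' : 1 ≤ X := hQ2'.trans hQX
  have hlP1 : 2 ≤ Real.log P1 := by
    rw [Real.le_log_iff_exp_le (by linarith)]
    exact hP1
  have hlQ : Real.log Q1 ≤ Real.log Q2 := Real.log_le_log (by linarith) (hQP.trans hPQ2)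
  have hlQ1 : 0 ≤ Real.log Q1 := Real.log_nonneg hQ1'
  have hlQ2 : 0 ≤ Real.log Q2 := Real.log_nonneg hQ2'
  set N : ℕ := nv Q2 ρ with hN
  set M : ℕ := nv Q1 ρ with hM
  have hNle : (N : ℝ) ≤ Real.log Q2 / ρ + 1 := by
    rw [hN]
    unfold nv
    push_cast
    have := Nat.floor_le (div_nonneg hlQ2 hρ.le)
    linarith
  have hMle : (M : ℝ) ≤ Real.log Q2 / ρ + 1 := by
    rw [hM]
    unfold nv
    push_cast
    have h1 := Nat.floor_le (div_nonneg hlQ1 hρ.le)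
    have h2 := div_le_div_of_nonneg_right hlQ hρ.le
    linarith
  set K : ℝ := C0 * (1 + E) * Real.exp 2 * X ^ 2 * Q1 ^ 3 * P2 ^ (-(2 * (α2 - α1))) with hK
  have hP2pow : 0 < P2 ^ (-(2 * (α2 - α1))) := Real.rpow_pos_of_pos (by linarith) _
  have hKpos : 0 < K := by positivity
  -- bound for one pair of blocks
  have hpair : ∀ v w : ℕ, (∃ k, U F P2 Q2 ρ v k ≠ 0) → (∃ k, U F P1 Q1 ρ w k ≠ 0) →
      ∀ S' : Finset ℤ, S' ⊆ fr T →
      (∀ k ∈ S', Real.exp ((1 - α1) * (w * ρ)) < ‖U F P1 Q1 ρ w k‖) →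
      ∑ k ∈ S', Real.exp ((1 - α2) * (v * ρ)) ^ 2 * ‖fc F (X * Real.exp (-(v * ρ))) k‖ ^ 2 ≤ K := by
    rintro v w ⟨k2, hk2⟩ ⟨k1, hk1⟩ S' hS' hcond
    obtain ⟨a1, a2⟩ := s2_blk_ne hk2
    obtain ⟨b1, b2⟩ := s2_blk_ne hk1
    have a1' : Real.log P2 < (v + 1) * ρ := by
      rw [Real.log_lt_iff_lt_exp (by linarith)]
      exact a1
    have b1' : Real.log P1 < (w + 1) * ρ := by
      rw [Real.log_lt_iff_lt_exp (by linarith)]
      exact b1
    have a2' : v * ρ < Real.log Q2 := by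
      rw [Real.lt_log_iff_exp_lt (by linarith)]
      exact a2
    have hwρ : Real.log P1 / 2 < w * ρ := by linarith
    have hwpos : 0 < w := by
      rcases Nat.eq_zero_or_pos w with h0 | h0
      · exfalso
        rw [h0] at hwρ
        simp at hwρ
        linarith
      · exact h0
    have hvw : (v : ℝ) ≤ w * (2 * l0) := by
      have h1 : v * ρ ≤ (w * (2 * l0)) * ρ := by
        have h2 : (l0 : ℝ) * Real.log P1 ≤ l0 * (2 * (w * ρ)) :=
          mul_le_mul_of_nonneg_left (by linarith) (Nat.cast_nonneg _)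
        calc v * ρ ≤ Real.log Q2 := a2'.le
          _ ≤ l0 * Real.log P1 := hlog
          _ ≤ l0 * (2 * (w * ρ)) := h2
          _ = (w * (2 * l0)) * ρ := by ring
      exact le_of_mul_le_mul_right h1 hρ
    have hvw' : v ≤ w * (2 * l0) := by exact_mod_cast hvw
    set l : ℕ := v / w + 1 with hl
    have hl1 : l ≤ 2 * l0 + 1 := by
      have : v / w ≤ 2 * l0 := Nat.div_le_of_le_mul hvw'
      omega
    have hl2 : v ≤ l * w := by
      have := Nat.lt_mul_div_succ v hwpos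
      rw [hl]
      calc v ≤ w * (v / w + 1) := this.le
        _ = (v / w + 1) * w := by ring
    have hl3 : l * w ≤ v + w := by
      have := Nat.div_mul_le_self v w
      rw [hl, add_mul, one_mul]
      omega
    have hl2' : (v : ℝ) ≤ l * w := by exact_mod_cast hl2
    have hl3' : (l : ℝ) * w ≤ v + w := by exact_mod_cast hl3
    have hl1' : (l : ℝ) ≤ 2 * l0 + 1 := by exact_mod_cast hl1
    have hexpw : Real.exp (w * ρ) ^ l * (X * Real.exp (-(v * ρ))) ≤ Q1 * X := by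
      have e1 : Real.exp (w * ρ) ^ l * (X * Real.exp (-(v * ρ))) =
          Real.exp ((l * w - v) * ρ) * X := by
        rw [← Real.exp_nat_mul, mul_left_comm, ← Real.exp_add, mul_comm]
        congr 2
        ring
      rw [e1]
      refine mul_le_mul_of_nonneg_right ?_ (by linarith)
      refine le_trans (Real.exp_le_exp.2 ?_) b2.le
      exact mul_le_mul_of_nonneg_right (by linarith) hρ.le
    have hexpY : Real.exp ((w + 1) * ρ) ^ l * (X * Real.exp (-(v * ρ))) ≤ E * Q1 * X := by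
      have e1 : Real.exp ((w + 1) * ρ) ^ l * (X * Real.exp (-(v * ρ))) =
          Real.exp (l * ρ) * (Real.exp (w * ρ) ^ l * (X * Real.exp (-(v * ρ)))) := by
        have e2 : Real.exp ((w + 1) * ρ) ^ l = Real.exp (l * ρ) * Real.exp (w * ρ) ^ l := by
          rw [← Real.exp_nat_mul, ← Real.exp_nat_mul, ← Real.exp_add]
          congr 1
          ring
        rw [e2, mul_assoc]
      rw [e1, mul_assoc E]
      refine mul_le_mul ?_ hexpw (by positivity) hEpos.le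
      rw [hE]
      refine Real.exp_le_exp.2 ?_
      calc (l : ℝ) * ρ ≤ l * 1 := mul_le_mul_of_nonneg_left hρ1 (Nat.cast_nonneg _)
        _ ≤ 2 * l0 + 1 := by linarith
    have hY1 : 1 ≤ E * Q1 * X := by
      have h1 : 1 ≤ E := Real.one_le_exp (by positivity)
      have h2 : 1 ≤ E * Q1 := one_le_mul_of_one_le_of_one_le h1 hQ1'
      exact one_le_mul_of_one_le_of_one_le h2 hX'
    have hmom := hCl l F hF P1 Q1 ρ (X * Real.exp (-(v * ρ))) (E * Q1 * X) T w hρ hρ1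
      (by positivity) hY1 hexpY
    have hmom2 : ∑ k ∈ fr T, ‖U F P1 Q1 ρ w k ^ l * fc F (X * Real.exp (-(v * ρ))) k‖ ^ 2 ≤
        C0 * (1 + E) * X ^ 2 * Q1 ^ 2 := by
      refine hmom.trans ?_
      have h1 : (T : ℝ) + E * Q1 * X ≤ (1 + E) * Q1 * X := by
        have h0 : X ≤ Q1 * X := le_mul_of_one_le_left (zero_le_one.trans hX') hQ1'
        calc (T : ℝ) + E * Q1 * X ≤ Q1 * X + E * Q1 * X := add_le_add (hTX.trans h0) le_rfl
          _ = (1 + E) * Q1 * X := by ring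
      have h2 : 0 ≤ (T : ℝ) + E * Q1 * X := by positivity
      calc Cl l * (T + E * Q1 * X) * (Real.exp (w * ρ) ^ l * (X * Real.exp (-(v * ρ))))
          ≤ C0 * ((1 + E) * Q1 * X) * (Q1 * X) := by
            refine mul_le_mul ?_ hexpw (by positivity) (by positivity)
            exact mul_le_mul (hClC0 l hl1) h1 h2 hC0pos.le
        _ = C0 * (1 + E) * X ^ 2 * Q1 ^ 2 := by ring
    -- amplification
    have hamp : ∀ k ∈ S', Real.exp ((1 - α2) * (v * ρ)) ^ 2 *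
        ‖fc F (X * Real.exp (-(v * ρ))) k‖ ^ 2 ≤ Real.exp (-(2 * (α2 - α1) * (v * ρ))) *
        ‖U F P1 Q1 ρ w k ^ l * fc F (X * Real.exp (-(v * ρ))) k‖ ^ 2 := by
      intro k hk
      rw [norm_mul, mul_pow, ← mul_assoc (Real.exp (-(2 * (α2 - α1) * (v * ρ))))]
      refine mul_le_mul_of_nonneg_right ?_ (sq_nonneg _)
      have h1 : Real.exp ((1 - α1) * (v * ρ)) ^ 2 ≤ ‖U F P1 Q1 ρ w k ^ l‖ ^ 2 := by
        refine pow_le_pow_left₀ (Real.exp_pos _).le ?_ 2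
        rw [norm_pow]
        calc Real.exp ((1 - α1) * (v * ρ)) ≤ Real.exp ((1 - α1) * (w * ρ)) ^ l := by
              rw [← Real.exp_nat_mul]
              refine Real.exp_le_exp.2 ?_
              have h2 : (v : ℝ) * ρ ≤ (l * w) * ρ := mul_le_mul_of_nonneg_right hl2' hρ.le
              calc (1 - α1) * (v * ρ) ≤ (1 - α1) * ((l * w) * ρ) :=
                    mul_le_mul_of_nonneg_left h2 (by linarith)
                _ = l * ((1 - α1) * (w * ρ)) := by ring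
          _ ≤ ‖U F P1 Q1 ρ w k‖ ^ l := pow_le_pow_left₀ (Real.exp_pos _).le (hcond k hk).le l
      calc Real.exp ((1 - α2) * (v * ρ)) ^ 2
          = Real.exp (-(2 * (α2 - α1) * (v * ρ))) * Real.exp ((1 - α1) * (v * ρ)) ^ 2 := by
            rw [← Real.exp_nat_mul, ← Real.exp_nat_mul, ← Real.exp_add]
            congr 1
            push_cast
            ring
        _ ≤ _ := mul_le_mul_of_nonneg_left h1 (Real.exp_pos _).le
    have hexpP : Real.exp (-(2 * (α2 - α1) * (v * ρ))) ≤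
        Real.exp 2 * P2 ^ (-(2 * (α2 - α1))) := by
      rw [Real.rpow_def_of_pos (by linarith), ← Real.exp_add]
      refine Real.exp_le_exp.2 ?_
      have h1 : Real.log P2 - v * ρ ≤ 1 := by linarith
      have h2 : (α2 - α1) * (Real.log P2 - v * ρ) ≤ (α2 - α1) * 1 :=
        mul_le_mul_of_nonneg_left h1 (sub_nonneg.2 hα12)
      linarith only [h2, hα1, hα2]
    calc ∑ k ∈ S', Real.exp ((1 - α2) * (v * ρ)) ^ 2 * ‖fc F (X * Real.exp (-(v * ρ))) k‖ ^ 2
        ≤ ∑ k ∈ S', Real.exp (-(2 * (α2 - α1) * (v * ρ))) *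
          ‖U F P1 Q1 ρ w k ^ l * fc F (X * Real.exp (-(v * ρ))) k‖ ^ 2 :=
          Finset.sum_le_sum hamp
      _ ≤ ∑ k ∈ fr T, Real.exp (-(2 * (α2 - α1) * (v * ρ))) *
          ‖U F P1 Q1 ρ w k ^ l * fc F (X * Real.exp (-(v * ρ))) k‖ ^ 2 :=
          Finset.sum_le_sum_of_subset_of_nonneg hS' fun k _ _ => by positivity
      _ = Real.exp (-(2 * (α2 - α1) * (v * ρ))) * ∑ k ∈ fr T,
          ‖U F P1 Q1 ρ w k ^ l * fc F (X * Real.exp (-(v * ρ))) k‖ ^ 2 := by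
          rw [Finset.mul_sum]
      _ ≤ (Real.exp 2 * P2 ^ (-(2 * (α2 - α1)))) * (C0 * (1 + E) * X ^ 2 * Q1 ^ 2) :=
          mul_le_mul hexpP hmom2 (Finset.sum_nonneg fun k _ => by positivity) (by positivity)
      _ ≤ K := by
          rw [hK]
          have h1 : Q1 ^ 2 ≤ Q1 ^ 3 := pow_le_pow_right₀ hQ1' (by norm_num)
          have h2 : (0 : ℝ) ≤ C0 * (1 + E) * Real.exp 2 * X ^ 2 * P2 ^ (-(2 * (α2 - α1))) := by
            positivity
          calc (Real.exp 2 * P2 ^ (-(2 * (α2 - α1)))) * (C0 * (1 + E) * X ^ 2 * Q1 ^ 2)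
              = (C0 * (1 + E) * Real.exp 2 * X ^ 2 * P2 ^ (-(2 * (α2 - α1)))) * Q1 ^ 2 := by
                ring
            _ ≤ (C0 * (1 + E) * Real.exp 2 * X ^ 2 * P2 ^ (-(2 * (α2 - α1)))) * Q1 ^ 3 :=
                mul_le_mul_of_nonneg_left h1 h2
            _ = _ := by ring
  -- one second stage block
  have hblock : ∀ v : ℕ, ∑ k ∈ S, ‖U F P2 Q2 ρ v k * fc F (X * Real.exp (-(v * ρ))) k‖ ^ 2 ≤
      M * K := by
    intro v
    classical
    by_cases hv0 : ∃ k, U F P2 Q2 ρ v k ≠ 0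
    · have h1 : ∀ k ∈ S, ‖U F P2 Q2 ρ v k * fc F (X * Real.exp (-(v * ρ))) k‖ ^ 2 ≤
          ∑ w ∈ Finset.range M, if Real.exp ((1 - α1) * (w * ρ)) < ‖U F P1 Q1 ρ w k‖ then
            Real.exp ((1 - α2) * (v * ρ)) ^ 2 * ‖fc F (X * Real.exp (-(v * ρ))) k‖ ^ 2 else 0 := by
        intro k hk
        obtain ⟨w, hwk⟩ := hw k hk
        have hUne : U F P1 Q1 ρ w k ≠ 0 := by
          intro h0
          rw [h0, norm_zero] at hwk
          exact absurd hwk (not_lt.2 (Real.exp_pos _).le)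
        have hwM : w ∈ Finset.range M := by
          rw [Finset.mem_range, hM]
          unfold nv
          rw [Nat.lt_succ_iff]
          apply Nat.le_floor
          rw [le_div_iff₀ hρ]
          refine le_of_lt ?_
          rw [Real.lt_log_iff_exp_lt (by linarith)]
          exact (s2_blk_ne hUne).2
        have h2 := Finset.single_le_sum (f := fun w : ℕ =>
          if Real.exp ((1 - α1) * (w * ρ)) < ‖U F P1 Q1 ρ w k‖ then
            Real.exp ((1 - α2) * (v * ρ)) ^ 2 * ‖fc F (X * Real.exp (-(v * ρ))) k‖ ^ 2 else 0)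
          (fun i _ => by positivity) hwM
        refine le_trans ?_ h2
        simp only [hwk, if_true]
        rw [norm_mul, mul_pow]
        exact mul_le_mul_of_nonneg_right (pow_le_pow_left₀ (norm_nonneg _) (hv k hk v) 2)
          (by positivity)
      refine (Finset.sum_le_sum h1).trans ?_
      rw [Finset.sum_comm]
      calc ∑ w ∈ Finset.range M, ∑ k ∈ S,
          (if Real.exp ((1 - α1) * (w * ρ)) < ‖U F P1 Q1 ρ w k‖ then
            Real.exp ((1 - α2) * (v * ρ)) ^ 2 * ‖fc F (X * Real.exp (-(v * ρ))) k‖ ^ 2 else 0)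
          ≤ ∑ w ∈ Finset.range M, K := by
            refine Finset.sum_le_sum fun w _ => ?_
            rw [← Finset.sum_filter]
            by_cases hne : (S.filter fun k =>
                Real.exp ((1 - α1) * (w * ρ)) < ‖U F P1 Q1 ρ w k‖).Nonempty
            · obtain ⟨k, hk⟩ := hne
              rw [Finset.mem_filter] at hk
              have hUne : U F P1 Q1 ρ w k ≠ 0 := by
                intro h0
                have h3 := hk.2
                rw [h0, norm_zero] at h3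
                exact absurd h3 (not_lt.2 (Real.exp_pos _).le)
              exact hpair v w hv0 ⟨k, hUne⟩ _ ((Finset.filter_subset _ _).trans hST)
                fun k hk => (Finset.mem_filter.1 hk).2
            · rw [Finset.not_nonempty_iff_eq_empty.1 hne, Finset.sum_empty]
              exact hKpos.le
        _ = M * K := by rw [Finset.sum_const, Finset.card_range, nsmul_eq_mul]
    · have h1 : ∀ k, U F P2 Q2 ρ v k = 0 := fun k => by
        by_contra h0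
        exact hv0 ⟨k, h0⟩
      have h2 : ∑ k ∈ S, ‖U F P2 Q2 ρ v k * fc F (X * Real.exp (-(v * ρ))) k‖ ^ 2 = 0 := by
        refine Finset.sum_eq_zero fun k _ => ?_
        rw [h1 k]
        simp
      rw [h2]
      positivity
  have hNM : (0 : ℝ) ≤ Real.log Q2 / ρ + 1 := by positivity
  calc ∑ k ∈ S, ‖UZ F P2 Q2 ρ X k‖ ^ 2
      ≤ ∑ k ∈ S, N * ∑ v ∈ Finset.range N,
          ‖U F P2 Q2 ρ v k * fc F (X * Real.exp (-(v * ρ))) k‖ ^ 2 := by
        refine Finset.sum_le_sum fun k _ => ?_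
        unfold UZ
        rw [← hN]
        have h1 := norm_sum_le (Finset.range N)
          (fun v : ℕ => U F P2 Q2 ρ v k * fc F (X * Real.exp (-(v * ρ))) k)
        refine (pow_le_pow_left₀ (norm_nonneg _) h1 2).trans ?_
        have h2 := sq_sum_le_card_mul_sum_sq (s := Finset.range N)
          (f := fun v : ℕ => ‖U F P2 Q2 ρ v k * fc F (X * Real.exp (-(v * ρ))) k‖)
        rw [Finset.card_range] at h2
        exact h2
    _ = N * ∑ v ∈ Finset.range N, ∑ k ∈ S,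
          ‖U F P2 Q2 ρ v k * fc F (X * Real.exp (-(v * ρ))) k‖ ^ 2 := by
        rw [← Finset.mul_sum, Finset.sum_comm]
    _ ≤ N * ∑ v ∈ Finset.range N, (M * K) := by
        refine mul_le_mul_of_nonneg_left (Finset.sum_le_sum fun v _ => hblock v)
          (Nat.cast_nonneg _)
    _ = N * (N * (M * K)) := by
        rw [Finset.sum_const, Finset.card_range, nsmul_eq_mul]
    _ ≤ (Real.log Q2 / ρ + 1) * ((Real.log Q2 / ρ + 1) * ((Real.log Q2 / ρ + 1) * K)) := by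
        refine mul_le_mul hNle ?_ (by positivity) hNM
        refine mul_le_mul hNle ?_ (by positivity) hNM
        exact mul_le_mul_of_nonneg_right hMle hKpos.le
    _ = C0 * (1 + E) * Real.exp 2 * X ^ 2 * (Real.log Q2 / ρ + 1) ^ 3 * Q1 ^ 3 *
          P2 ^ (-(2 * (α2 - α1))) := by
        rw [hK]
        ring

end Pool.Agent.GaussMR
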