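import Pool.Agent.Lib_MP_f1a94e_mr.Params
import Pool.Agent.Lib_MP_f1a94e_mr.StepB
import Pool.Agent.Lib_MP_f1a94e_mr.EdgeCount
import Pool.Agent.Lib_MP_f1a94e_mr.Mass
import Pool.Agent.Lib_MP_f1a94e_mr.Stage
import Pool.Agent.Lib_MP_f1a94e_mr.Small1
import Pool.Agent.Lib_MP_f1a94e_mr.Small2
import Pool.Agent.Lib_MP_f1a94e_mr.Few
import Pool.Agent.Lib_MP_f1a94e_mr.ConjTrick
import Pool.Agent.Lib_MP_f1a94e_mr.Last
import Pool.Agent.Lib_MP_f1a94e_mr.MertensB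

/-!
# The strong theorem for sign functions
-/

set_option autoImplicit false

namespace Pool.Agent.GaussMR

open Filter

theorem set_bound (L : ℝ) (hL : 1 ≤ L) (f g : ℤ → ℂ) (S' T' : Finset ℤ) (hS : S' ⊆ T') (E1 E2 : ℝ)
    (h1 : ∑ k ∈ T', ‖(L : ℂ) * f k - g k‖ ^ 2 ≤ E1 * L ^ 2) (h2 : ∑ k ∈ S', ‖g k‖ ^ 2 ≤ E2) :
    ∑ k ∈ S', ‖f k‖ ^ 2 ≤ 2 * E1 + 2 * E2 := by
  have hE2 : 0 ≤ E2 := (Finset.sum_nonneg fun k _ => by positivity).trans h2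
  have h3 : ∑ k ∈ S', ‖(L : ℂ) * f k - g k‖ ^ 2 ≤ E1 * L ^ 2 :=
    (Finset.sum_le_sum_of_subset_of_nonneg hS fun k _ _ => by positivity).trans h1
  have h4 : L ^ 2 * ∑ k ∈ S', ‖f k‖ ^ 2 ≤ 2 * (E1 * L ^ 2) + 2 * E2 := by
    calc L ^ 2 * ∑ k ∈ S', ‖f k‖ ^ 2
        = ∑ k ∈ S', L ^ 2 * ‖f k‖ ^ 2 := Finset.mul_sum _ _ _
      _ ≤ ∑ k ∈ S', (2 * ‖(L : ℂ) * f k - g k‖ ^ 2 + 2 * ‖g k‖ ^ 2) := by
          refine Finset.sum_le_sum fun k _ => ?_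
          have e1 : L ^ 2 * ‖f k‖ ^ 2 = ‖(L : ℂ) * f k‖ ^ 2 := by
            rw [norm_mul, Complex.norm_real, Real.norm_eq_abs, mul_pow, sq_abs]
          rw [e1]
          have e2 : ‖(L : ℂ) * f k‖ ≤ ‖(L : ℂ) * f k - g k‖ + ‖g k‖ := by
            calc ‖(L : ℂ) * f k‖ = ‖((L : ℂ) * f k - g k) + g k‖ := by rw [sub_add_cancel]
              _ ≤ _ := norm_add_le _ _
          calc ‖(L : ℂ) * f k‖ ^ 2 ≤ (‖(L : ℂ) * f k - g k‖ + ‖g k‖) ^ 2 :=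
                pow_le_pow_left₀ (norm_nonneg _) e2 2
            _ ≤ _ := by nlinarith [sq_nonneg (‖(L : ℂ) * f k - g k‖ - ‖g k‖)]
      _ = 2 * ∑ k ∈ S', ‖(L : ℂ) * f k - g k‖ ^ 2 + 2 * ∑ k ∈ S', ‖g k‖ ^ 2 := by
          rw [Finset.sum_add_distrib, Finset.mul_sum, Finset.mul_sum]
      _ ≤ _ := by linarith
  have hL2 : 1 ≤ L ^ 2 := one_le_pow₀ hL
  have h5 : L ^ 2 * ∑ k ∈ S', ‖f k‖ ^ 2 ≤ L ^ 2 * (2 * E1 + 2 * E2) := by nlinarith
  exact le_of_mul_le_mul_left h5 (by linarith)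

theorem Ls_large (L0 CL : ℝ) (hCL : ∀ P Q : ℝ, 2 ≤ P → P ≤ Q →
    |Ls P Q - (Real.log (Real.log Q) - Real.log (Real.log P)) / 2| ≤ CL) (hL0 : 0 ≤ L0)
    (Y c M : ℝ) (hY : 0 < Y) (hM : M = Real.exp (2 * (L0 + |CL|))) (h2 : 2 ≤ Y ^ c) :
    L0 ≤ Ls (Y ^ c) (Y ^ (c * M)) := by
  have hM1 : 1 ≤ M := by
    rw [hM]
    exact Real.one_le_exp (by positivity)
  have hPQ : Y ^ c ≤ Y ^ (c * M) := by
    rw [Real.rpow_mul hY.le]
    calc Y ^ c = (Y ^ c) ^ (1 : ℝ) := (Real.rpow_one _).symm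
      _ ≤ (Y ^ c) ^ M := Real.rpow_le_rpow_of_exponent_le (by linarith) hM1
  have h := hCL _ _ h2 hPQ
  have e1 : Real.log (Y ^ (c * M)) = M * Real.log (Y ^ c) := by
    rw [Real.rpow_mul hY.le, Real.log_rpow (by linarith)]
  have hlog : 0 < Real.log (Y ^ c) := Real.log_pos (by linarith)
  have e2 : Real.log (Real.log (Y ^ (c * M))) = Real.log M + Real.log (Real.log (Y ^ c)) := by
    rw [e1, Real.log_mul (by linarith) hlog.ne']
  have e3 : Real.log M = 2 * (L0 + |CL|) := by rw [hM, Real.log_exp]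
  rw [e2, e3] at h
  have := (abs_le.1 h).1
  have := le_abs_self CL
  linarith

theorem main_real (F : G → ℝ) (hF : PM F) (v : G) (hv : Odd (nm v)) (hp : Prim v) (hFv : F v = -1)
    (A : ℝ) (hA : Real.log 2 < A) : ∃ X0 : ℝ, ∀ X : ℝ, X0 ≤ X →
    X / Real.log X ^ A ≤
      (Set.ncard {m : ℕ | (m : ℝ) ≤ X ∧ Even m ∧ F ⟨(m : ℤ), 1⟩ = -1} : ℝ) := by
  classical
  obtain ⟨cB, CB, hcB, hCB, hB⟩ := stepB A hA
  obtain ⟨cM, hcM, hmass⟩ := mass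
  obtain ⟨CS, hCS, hstage⟩ := stage
  obtain ⟨C1, hC1, hsmall1⟩ := small1
  obtain ⟨δK, CK, XK, hδK, hCK, hconj⟩ := conj_trick
  obtain ⟨cL', XL, hcL', hlast'⟩ := zero_coeff F hF v hv hp hFv
  obtain ⟨c0, hc0, hN⟩ := card_V_ge
  obtain ⟨CL, hCL⟩ := Ls_bounds
  -- parameters
  set cL : ℝ := min cL' 1 with hcLdef
  have hcL : 0 < cL := lt_min hcL' one_pos
  have hcL1 : cL ≤ 1 := min_le_right _ _
  set ε : ℝ := cL / (6 * (1 + CK)) with hεdef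
  have hε : 0 < ε := by positivity
  have hε1 : ε ≤ 1 := by
    rw [hεdef, div_le_one (by positivity)]
    linarith
  have h3ε : 3 * ε * (1 + CK) = cL / 2 := by
    rw [hεdef]
    field_simp
    ring
  set θ : ℝ := ε * c0 ^ 2 / (12 * CS) with hθdef
  have hθ : 0 < θ := by positivity
  have hθ6 : 6 * CS * θ = ε * c0 ^ 2 / 2 := by
    rw [hθdef]
    field_simp
    ring
  set ρ : ℝ := min 1 θ with hρdef
  have hρ : 0 < ρ := lt_min one_pos hθ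
  have hρ1 : ρ ≤ 1 := min_le_left _ _
  have hρθ : ρ ≤ θ := min_le_right _ _
  set L0 : ℝ := max 1 (1 / θ) with hL0def
  have hL01 : 1 ≤ L0 := le_max_left _ _
  have hL0θ : 1 / θ ≤ L0 := le_max_right _ _
  obtain ⟨M, hMdef⟩ : ∃ M : ℝ, M = Real.exp (2 * (L0 + |CL|)) := ⟨_, rfl⟩
  have hM1 : 1 ≤ M := by
    rw [hMdef]
    exact Real.one_le_exp (by positivity)
  have hM0 : 0 < M := by linarith
  set δ' : ℝ := min δK 1 with hδ'def
  have hδ' : 0 < δ' := lt_min hδK one_pos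
  have hδ'1 : δ' ≤ 1 := min_le_right _ _
  have hδ'K : δ' ≤ δK := min_le_left _ _
  set α2 : ℝ := δ' / 8 with hα2def
  set α1 : ℝ := δ' / 16 with hα1def
  set C2 : ℝ := 32 / δ' with hC2def
  have hα1 : 0 < α1 := by positivity
  have hα2 : 0 < α2 := by positivity
  have hα2q : α2 ≤ 1 / 4 := by rw [hα2def]; linarith
  have hα12 : α1 ≤ α2 := by rw [hα1def, hα2def]; linarith
  have hα21 : α2 ≤ 1 := by linarith
  have hC2 : 32 ≤ C2 := by
    rw [hC2def, le_div_iff₀ hδ']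
    linarith
  have hC2δ : 1 / C2 = δ' / 32 := by
    rw [hC2def]
    field_simp
  set κ : ℝ := min cB 1 / 2 with hκdef
  have hκ : 0 < κ := by
    have : 0 < min cB 1 := lt_min hcB one_pos
    positivity
  have hκ1 : κ ≤ 1 / 2 := by
    have := min_le_right cB 1
    rw [hκdef]; linarith
  have hκB : κ < cB := by
    have h1 := min_le_left cB 1
    have h2 : 0 < min cB 1 := lt_min hcB one_pos
    rw [hκdef]; linarith
  set c1 : ℝ := κ / M with hc1def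
  have hc1 : 0 < c1 := by positivity
  have hc1M : c1 * M = κ := by
    rw [hc1def]
    field_simp
  have hc1κ : c1 ≤ κ := by
    rw [hc1def, div_le_iff₀ hM0]
    exact le_mul_of_one_le_right hκ.le hM1
  obtain ⟨C3, hC3, hsmall2⟩ := small2 ⌈C2 * M / c1⌉₊
  obtain ⟨XF, hfew⟩ := few α2 C2 M ρ (δ' / 4) hα2 hα2q (by linarith) hM1 hρ hρ1 (by positivity)
  have hexp : C2 * (2 * (α2 - α1)) = 4 := by
    rw [hC2def, hα2def, hα1def]
    field_simp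
    ring
  have hev := eventually_good CB cB cM C1 C3 CK δK XK XL XF c0 ε θ ρ c1 M C2 α1 α2 cL κ
    hcM hδK hc0 hε hθ hρ hc1 hM0 (by linarith) hα1 hcL hκ hκB (by rw [hc1M, hexp]; linarith)
  obtain ⟨X0, hX0⟩ := eventually_atTop.1 hev
  refine ⟨X0, fun X hX => ?_⟩
  have hg := hX0 X hX
  by_contra hcon
  push Not at hcon
  have hX3 := hg.h3
  have hXpos : 0 < X := by linarith
  have hX1 : 1 ≤ X := by linarith
  have hlog : 1 < Real.log X := by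
    rw [Real.lt_log_iff_exp_lt hXpos]
    have := Real.exp_one_lt_d9
    linarith
  have hlog0 : 0 < Real.log X := by linarith
  -- the set of m
  have hfin : {m : ℕ | (m : ℝ) ≤ X ∧ Even m ∧ F ⟨(m : ℤ), 1⟩ = -1}.Finite := by
    refine (Set.finite_Iic ⌊X⌋₊).subset fun m hm => ?_
    exact Nat.le_floor hm.1
  set B : Finset ℕ := hfin.toFinset with hBdef
  have hBmem : ∀ m, m ∈ B ↔ ((m : ℝ) ≤ X ∧ Even m ∧ F ⟨(m : ℤ), 1⟩ = -1) := by
    intro m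
    rw [hBdef, Set.Finite.mem_toFinset]
    rfl
  have hBcard : (B.card : ℝ) ≤ X / Real.log X ^ A := by
    rw [Set.ncard_eq_toFinset_card _ hfin] at hcon
    exact hcon.le
  have hedge : ((edges F X).card : ℝ) ≤ 16 * (CB * X / Real.log X ^ cB) := by
    refine (edge_count F hF X B fun m h1 h2 h3 => (hBmem m).2 ⟨h2, h1, h3⟩).trans ?_
    refine mul_le_mul_of_nonneg_left ?_ (by norm_num)
    exact hB X hX3 B (fun m hm => ⟨((hBmem m).1 hm).2.1, ((hBmem m).1 hm).1⟩) hBcard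
  -- T
  have hQpos : 0 < Real.log X ^ κ := Real.rpow_pos_of_pos hlog0 _
  have hQ1 : 1 ≤ Real.log X ^ κ := Real.one_le_rpow hlog.le hκ.le
  set T : ℕ := ⌊X / Real.log X ^ κ⌋₊ with hTdef
  have hTle : (T : ℝ) ≤ X / Real.log X ^ κ := Nat.floor_le (by positivity)
  have hTge : X / Real.log X ^ κ - 1 ≤ T := (Nat.sub_one_lt_floor _).le
  have hTX : (T : ℝ) ≤ X := hTle.trans (div_le_self hXpos.le hQ1)
  have hTX' : (T : ℝ) / X ≤ 1 / Real.log X ^ κ := by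
    rw [div_le_div_iff₀ hXpos hQpos, one_mul]
    calc (T : ℝ) * Real.log X ^ κ ≤ (X / Real.log X ^ κ) * Real.log X ^ κ :=
          mul_le_mul_of_nonneg_right hTle hQpos.le
      _ = X := by field_simp
  have hmassX := hmass F hF X T ε hX1 hε hε1
    (hg.hT.trans (mul_le_mul_of_nonneg_left hTge (by positivity))) hTX
    ((hedge.trans hg.hE).trans (mul_le_mul_of_nonneg_left hTge (by positivity)))
  set N : ℝ := ((V X).card : ℝ) with hNdef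
  have hNX : c0 * X ≤ N := hN X hX1
  have hN0 : 0 < N := lt_of_lt_of_le (by positivity) hNX
  have hNX2 : c0 ^ 2 * X ^ 2 ≤ N ^ 2 := by
    rw [← mul_pow]
    exact pow_le_pow_left₀ (by positivity) hNX 2
  -- stage parameters
  set P1 : ℝ := Real.log X ^ c1 with hP1def
  set Q1 : ℝ := Real.log X ^ (c1 * M) with hQ1def
  set P2 : ℝ := Real.log X ^ C2 with hP2def
  set Q2 : ℝ := Real.log X ^ (C2 * M) with hQ2def
  have he2 : (2 : ℝ) ≤ Real.exp 2 := by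
    have := Real.add_one_le_exp (2 : ℝ)
    linarith
  have hP1e : Real.exp 2 ≤ P1 := hg.hP1
  have hP12 : 2 ≤ P1 := he2.trans hP1e
  have hmono : ∀ a b : ℝ, a ≤ b → Real.log X ^ a ≤ Real.log X ^ b := fun a b hab =>
    Real.rpow_le_rpow_of_exponent_le hlog.le hab
  have hPQ1 : P1 ≤ Q1 := hmono _ _ (by rw [hc1M]; exact hc1κ)
  have hQP : Q1 ≤ P2 := hmono _ _ (by rw [hc1M]; linarith)
  have hPQ2 : P2 ≤ Q2 := hmono _ _ (le_mul_of_one_le_right (by linarith only [hC2]) hM1)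
  have hP22 : 2 ≤ P2 := hP12.trans (hPQ1.trans hQP)
  have hQ11 : 1 ≤ Q1 := by linarith
  have hQ21 : 1 ≤ Q2 := by linarith
  have hQ1X : Q1 ≤ X := (le_self_pow₀ hQ11 (by norm_num)).trans hg.hQ1
  have hQ2X : Q2 ≤ X := (le_self_pow₀ hQ21 (by norm_num)).trans hg.hQ2
  have hL1 : L0 ≤ Ls P1 Q1 := Ls_large L0 CL hCL (by linarith) _ c1 M hlog0 hMdef hP12
  have hL2 : L0 ≤ Ls P2 Q2 := Ls_large L0 CL hCL (by linarith) _ C2 M hlog0 hMdef hP22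
  have hinv : ∀ L : ℝ, L0 ≤ L → 1 / L ≤ θ := by
    intro L hL
    have h1 : 1 / θ ≤ L := hL0θ.trans hL
    rw [div_le_iff₀ (by linarith)]
    rw [div_le_iff₀ hθ] at h1
    linarith
  have hTX1 : (T : ℝ) ≤ X / Q1 := by
    rw [hQ1def, hc1M]
    exact hTle
  have hE1 : ∀ L : ℝ, L0 ≤ L → 2 * (CS * X ^ 2 * (1 / L + T / X + ρ)) ≤ ε / 2 * N ^ 2 := by
    intro L hL
    have h1 : 1 / L + T / X + ρ ≤ 3 * θ := by
      have := hinv L hL
      have := hTX'.trans hg.hθ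
      linarith
    calc 2 * (CS * X ^ 2 * (1 / L + T / X + ρ)) ≤ 2 * (CS * X ^ 2 * (3 * θ)) := by
          gcongr
      _ = (6 * CS * θ) * X ^ 2 := by ring
      _ = ε / 2 * (c0 ^ 2 * X ^ 2) := by rw [hθ6]; ring
      _ ≤ ε / 2 * N ^ 2 := by gcongr
  -- the three sets
  set S1 : Finset ℤ := (fr T).filter (fun k => ∀ v : ℕ,
    ‖U F P1 Q1 ρ v k‖ ≤ Real.exp ((1 - α1) * (v * ρ))) with hS1def
  set S' : Finset ℤ := (fr T).filter (fun k => ¬∀ v : ℕ,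
    ‖U F P1 Q1 ρ v k‖ ≤ Real.exp ((1 - α1) * (v * ρ))) with hS'def
  set S2 : Finset ℤ := S'.filter (fun k => ∀ v : ℕ,
    ‖U F P2 Q2 ρ v k‖ ≤ Real.exp ((1 - α2) * (v * ρ))) with hS2def
  set S : Finset ℤ := S'.filter (fun k => ¬∀ v : ℕ,
    ‖U F P2 Q2 ρ v k‖ ≤ Real.exp ((1 - α2) * (v * ρ))) with hSdef
  have hsplit : ∑ k ∈ fr T, ‖fc F X k‖ ^ 2 = ∑ k ∈ S1, ‖fc F X k‖ ^ 2 +
      (∑ k ∈ S2, ‖fc F X k‖ ^ 2 + ∑ k ∈ S, ‖fc F X k‖ ^ 2) := by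
    rw [hS2def, hSdef, Finset.sum_filter_add_sum_filter_not, hS1def, hS'def,
      Finset.sum_filter_add_sum_filter_not]
  have hS1sub : S1 ⊆ fr T := Finset.filter_subset _ _
  have hS'sub : S' ⊆ fr T := Finset.filter_subset _ _
  have hS2sub : S2 ⊆ fr T := (Finset.filter_subset _ _).trans hS'sub
  have hSsub : S ⊆ fr T := (Finset.filter_subset _ _).trans hS'sub
  -- first set
  have hb1 : ∑ k ∈ S1, ‖fc F X k‖ ^ 2 ≤ ε * N ^ 2 := by
    have hst := hstage F hF P1 Q1 ρ X T hP12 hPQ1 hg.hQ1 hρ hρ1 hg.hρ hTX (hL01.trans hL1)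
    have hsm := hsmall1 F hF P1 Q1 ρ X α1 T S1 hP12 hPQ1 hQ1X hρ hρ1 hα1.le (by linarith) hTX1 hS1sub
      (fun k hk v => (Finset.mem_filter.1 hk).2 v)
    have h1 := set_bound (Ls P1 Q1) (hL01.trans hL1) (fun k => fc F X k) (fun k => UZ F P1 Q1 ρ X k)
      S1 (fr T) hS1sub (CS * X ^ 2 * (1 / Ls P1 Q1 + T / X + ρ)) _
      (hst.trans (le_of_eq (by ring))) hsm
    have h2 := hE1 _ hL1
    have h3 : 2 * (C1 * X ^ 2 * (Real.log Q1 / ρ + 1) ^ 2 * P1 ^ (-(2 * α1))) ≤ ε / 2 * N ^ 2 := by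
      calc 2 * (C1 * X ^ 2 * (Real.log Q1 / ρ + 1) ^ 2 * P1 ^ (-(2 * α1)))
          = 2 * (C1 * (Real.log Q1 / ρ + 1) ^ 2 * P1 ^ (-(2 * α1))) * X ^ 2 := by ring
        _ ≤ 2 * (ε * c0 ^ 2 / 4) * X ^ 2 := by
            have := hg.hS1
            gcongr
        _ = ε / 2 * (c0 ^ 2 * X ^ 2) := by ring
        _ ≤ ε / 2 * N ^ 2 := by gcongr
    linarith
  -- second set
  have hb2 : ∑ k ∈ S2, ‖fc F X k‖ ^ 2 ≤ ε * N ^ 2 := by
    have hst := hstage F hF P2 Q2 ρ X T hP22 hPQ2 hg.hQ2 hρ hρ1 hg.hρ hTX (hL01.trans hL2)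
    have hl0 : Real.log Q2 ≤ (⌈C2 * M / c1⌉₊ : ℕ) * Real.log P1 := by
      rw [hQ2def, hP1def, Real.log_rpow hlog0, Real.log_rpow hlog0]
      have h1 : C2 * M / c1 ≤ (⌈C2 * M / c1⌉₊ : ℕ) := Nat.le_ceil _
      have h2 : 0 < Real.log (Real.log X) := Real.log_pos hlog
      rw [div_le_iff₀ hc1] at h1
      linarith only [mul_le_mul_of_nonneg_right h1 h2.le]
    have hsm := hsmall2 F hF P1 Q1 P2 Q2 ρ X α1 α2 T S2 hP1e hPQ1 hQP hPQ2 hQ2X hl0 hρ hρ1 hα1.le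
      hα12 hα21 hTX hS2sub
      (fun k hk => by
        have h1 := (Finset.mem_filter.1 (Finset.mem_filter.1 hk).1).2
        push Not at h1
        exact h1)
      (fun k hk v => (Finset.mem_filter.1 hk).2 v)
    have h1 := set_bound (Ls P2 Q2) (hL01.trans hL2) (fun k => fc F X k) (fun k => UZ F P2 Q2 ρ X k)
      S2 (fr T) hS2sub (CS * X ^ 2 * (1 / Ls P2 Q2 + T / X + ρ)) _
      (hst.trans (le_of_eq (by ring))) hsm
    have h2 := hE1 _ hL2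
    have h3 : 2 * (C3 * X ^ 2 * (Real.log Q2 / ρ + 1) ^ 3 * Q1 ^ 3 * P2 ^ (-(2 * (α2 - α1)))) ≤
        ε / 2 * N ^ 2 := by
      calc 2 * (C3 * X ^ 2 * (Real.log Q2 / ρ + 1) ^ 3 * Q1 ^ 3 * P2 ^ (-(2 * (α2 - α1))))
          = 2 * (C3 * (Real.log Q2 / ρ + 1) ^ 3 * Q1 ^ 3 * P2 ^ (-(2 * (α2 - α1)))) * X ^ 2 := by
            ring
        _ ≤ 2 * (ε * c0 ^ 2 / 4) * X ^ 2 := by
            have := hg.hS2
            gcongr
        _ = ε / 2 * (c0 ^ 2 * X ^ 2) := by ring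
        _ ≤ ε / 2 * N ^ 2 := by gcongr
    linarith
  -- the remaining set
  have hSmass : (1 - 3 * ε) * N ^ 2 ≤ ∑ k ∈ S, ‖fc F X k‖ ^ 2 := by
    rw [hsplit] at hmassX
    linarith
  have hScard : (S.card : ℝ) ≤ X ^ δK := by
    have h1 := hfew X hg.hXF F hF T hTX
    have hfinS : {k : ℤ | k ∈ fr T ∧ ∃ v : ℕ, Real.exp ((1 - α2) * (v * ρ)) <
        ‖U F (Real.log X ^ C2) (Real.log X ^ (C2 * M)) ρ v k‖}.Finite :=
      (fr T).finite_toSet.subset fun k hk => hk.1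
    have h2' : S.card ≤ Set.ncard {k : ℤ | k ∈ fr T ∧ ∃ v : ℕ,
        Real.exp ((1 - α2) * (v * ρ)) <
        ‖U F (Real.log X ^ C2) (Real.log X ^ (C2 * M)) ρ v k‖} := by
      rw [← Set.ncard_coe_finset S]
      refine Set.ncard_le_ncard (fun k hk => ?_) hfinS
      have hk' : k ∈ S := hk
      have h3 := (Finset.mem_filter.1 hk').2
      push Not at h3
      exact ⟨hSsub hk', h3⟩
    have h2 : (S.card : ℝ) ≤ (Set.ncard {k : ℤ | k ∈ fr T ∧ ∃ v : ℕ,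
        Real.exp ((1 - α2) * (v * ρ)) <
        ‖U F (Real.log X ^ C2) (Real.log X ^ (C2 * M)) ρ v k‖} : ℝ) := by
      exact_mod_cast h2'
    refine (h2.trans h1).trans ?_
    apply Real.rpow_le_rpow_of_exponent_le hX1
    rw [hC2δ, hα2def]
    linarith
  have hfinal := hconj X hg.hXK F hF T hTX S hSsub hScard (3 * ε) (by positivity) hSmass
  have hzero : ‖fc F X 0‖ ≤ (1 - cL) * N := by
    refine (hlast' X hg.hXL).trans ?_
    apply mul_le_mul_of_nonneg_right _ hN0.le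
    have := min_le_left cL' 1
    linarith
  have hzero2 : ‖fc F X 0‖ ^ 2 ≤ (1 - cL) * N ^ 2 := by
    calc ‖fc F X 0‖ ^ 2 ≤ ((1 - cL) * N) ^ 2 := pow_le_pow_left₀ (norm_nonneg _) hzero 2
      _ = (1 - cL) * (1 - cL) * N ^ 2 := by ring
      _ ≤ (1 - cL) * 1 * N ^ 2 := by
          have : 0 ≤ 1 - cL := by linarith
          gcongr
          linarith
      _ = (1 - cL) * N ^ 2 := by ring
  have hsum : ∑ k ∈ S, ‖fc F X k‖ ^ 2 ≤ ‖fc F X 0‖ ^ 2 + ∑ k ∈ S.erase 0, ‖fc F X k‖ ^ 2 := by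
    by_cases h0 : (0 : ℤ) ∈ S
    · exact (Finset.add_sum_erase S (fun k => ‖fc F X k‖ ^ 2) h0).ge
    · rw [Finset.erase_eq_of_notMem h0]
      have : 0 ≤ ‖fc F X 0‖ ^ 2 := by positivity
      linarith
  have hK := hg.hK
  have hN2 : 0 < N ^ 2 := by positivity
  have h9 : (1 - 3 * ε) * N ^ 2 ≤ ((1 - cL) + CK * (3 * ε + X ^ (-δK))) * N ^ 2 := by
    calc (1 - 3 * ε) * N ^ 2 ≤ _ := hSmass.trans hsum
      _ ≤ (1 - cL) * N ^ 2 + CK * (3 * ε + X ^ (-δK)) * N ^ 2 := by linarith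
      _ = _ := by ring
  have h10 := le_of_mul_le_mul_right h9 hN2
  linarith only [h10, hK, h3ε]

end Pool.Agent.GaussMR
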