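import Pool.Agent.Lib_MP_f1a94e_mr.HTLog

/-!
# Piece HT: sums of `y ^ Ω(n)` over integers composed of primes `1 mod 4`
-/

set_option autoImplicit false

namespace Pool.Agent.GaussMR

open ArithmeticFunction

/-- `F` as an arithmetic function -/
noncomputable def FA (y : ℝ) : ArithmeticFunction ℝ := ⟨FN y, FN_zero y⟩

theorem FA_apply (y : ℝ) (n : ℕ) : FA y n = FN y n := rfl

/-- `Λ F` -/
noncomputable def LFA (y : ℝ) : ArithmeticFunction ℝ :=
  ⟨fun n => vonMangoldt n * FN y n, by simp [FN_zero]⟩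

theorem LFA_apply (y : ℝ) (n : ℕ) : LFA y n = vonMangoldt n * FN y n := rfl

theorem LFA_nonneg {y : ℝ} (hy : 0 < y) (n : ℕ) : 0 ≤ LFA y n :=
  mul_nonneg vonMangoldt_nonneg (FN_nonneg hy n)

theorem FA_mul_LFA (y : ℝ) (n : ℕ) : (FA y * LFA y) n = FN y n * Real.log n := by
  rw [ArithmeticFunction.mul_apply,
    Nat.sum_divisorsAntidiagonal' (fun a b => FA y a * LFA y b), ← vonMangoldt_sum,
    Finset.mul_sum]
  apply Finset.sum_congr rfl
  intro d hd
  have hdv := Nat.dvd_of_mem_divisors hd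
  rw [FA_apply, LFA_apply]
  have h1 : FN y n = FN y (n / d) * FN y d := by
    rw [← FN_mul, Nat.div_mul_cancel hdv]
  rw [h1]
  ring

open Classical in
/-- powers of `p` up to `w` -/
theorem powsum (p : ℕ) (hp : 2 ≤ p) (w : ℕ) (hw : 1 ≤ w) :
    ∑ d ∈ (Finset.Ioc 0 w).filter (fun d => ∃ k : ℕ, d = p ^ k), (d:ℝ) ≤ 2 * w := by
  have hsub : (Finset.Ioc 0 w).filter (fun d => ∃ k : ℕ, d = p ^ k) ⊆
      (Finset.range (Nat.log p w + 1)).image (fun k => p ^ k) := by
    intro d hd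
    rw [Finset.mem_filter, Finset.mem_Ioc] at hd
    obtain ⟨⟨_, h2⟩, k, rfl⟩ := hd
    rw [Finset.mem_image]
    refine ⟨k, ?_, rfl⟩
    rw [Finset.mem_range]
    have := Nat.le_log_of_pow_le (by omega) h2
    omega
  have h1 : ∀ K : ℕ, ∑ k ∈ Finset.range (K + 1), ((p:ℝ) ^ k) ≤ 2 * (p:ℝ) ^ K := by
    intro K
    have hp' : (2:ℝ) ≤ p := by exact_mod_cast hp
    induction K with
    | zero => simp
    | succ K ih =>
      rw [Finset.sum_range_succ]
      have : (p:ℝ) ^ (K + 1) = p * p ^ K := by ring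
      have h0 : (0:ℝ) < (p:ℝ) ^ K := by positivity
      nlinarith
  have h2 : p ^ (Nat.log p w) ≤ w := Nat.pow_log_le_self p (by omega)
  calc ∑ d ∈ (Finset.Ioc 0 w).filter (fun d => ∃ k : ℕ, d = p ^ k), (d:ℝ)
      ≤ ∑ d ∈ (Finset.range (Nat.log p w + 1)).image (fun k => p ^ k), (d:ℝ) :=
        Finset.sum_le_sum_of_subset_of_nonneg hsub (fun i _ _ => Nat.cast_nonneg i)
    _ = ∑ k ∈ Finset.range (Nat.log p w + 1), ((p ^ k : ℕ):ℝ) := by
        apply Finset.sum_image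
        intro a _ b _ hab
        exact Nat.pow_right_injective hp hab
    _ = ∑ k ∈ Finset.range (Nat.log p w + 1), ((p:ℝ) ^ k) := by push_cast; rfl
    _ ≤ 2 * (p:ℝ) ^ (Nat.log p w) := h1 _
    _ ≤ 2 * w := by
        have : ((p ^ (Nat.log p w) : ℕ) : ℝ) ≤ w := by exact_mod_cast h2
        push_cast at this
        linarith

theorem FN_prime_pow_le {y : ℝ} (hy : 0 < y) (hy4 : y ≤ 4) {p k : ℕ} (hp : p.Prime)
    (h : N1 (p ^ k)) : FN y (p ^ k) ≤ 4 ^ k := by
  unfold FN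
  rw [if_pos h, cardFactors_apply_prime_pow hp]
  exact pow_le_pow_left₀ hy.le hy4 k

open Classical in
/-- pointwise bound of `Λ(d) F(d)` -/
theorem LFA_le {y : ℝ} (hy : 0 < y) (hy4 : y ≤ 4) {w d : ℕ} (hd : d ∈ Finset.Ioc 0 w) :
    LFA y d ≤ 4 * (if d.Prime then Real.log d else 0) +
      Real.sqrt w * (if d.Prime then 0 else vonMangoldt d) +
      Real.log 5 * (if ∃ k : ℕ, d = 5 ^ k then (d:ℝ) else 0) +
      Real.log 13 * (if ∃ k : ℕ, d = 13 ^ k then (d:ℝ) else 0) := by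
  have hlog5 : 0 ≤ Real.log 5 := Real.log_nonneg (by norm_num)
  have hlog13 : 0 ≤ Real.log 13 := Real.log_nonneg (by norm_num)
  have hd0 : 0 < d := (Finset.mem_Ioc.1 hd).1
  have hd1 : (1:ℝ) ≤ d := by exact_mod_cast hd0
  have hlogd : 0 ≤ Real.log d := Real.log_nonneg hd1
  have t1 : 0 ≤ 4 * (if d.Prime then Real.log d else 0) := by split_ifs <;> positivity
  have t2 : 0 ≤ Real.sqrt w * (if d.Prime then 0 else vonMangoldt d) := by
    apply mul_nonneg (Real.sqrt_nonneg _)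
    split_ifs
    · exact le_rfl
    · exact vonMangoldt_nonneg
  have t3 : 0 ≤ Real.log 5 * (if ∃ k : ℕ, d = 5 ^ k then (d:ℝ) else 0) := by
    apply mul_nonneg hlog5
    split_ifs
    · exact Nat.cast_nonneg d
    · exact le_rfl
  have t4 : 0 ≤ Real.log 13 * (if ∃ k : ℕ, d = 13 ^ k then (d:ℝ) else 0) := by
    apply mul_nonneg hlog13
    split_ifs
    · exact Nat.cast_nonneg d
    · exact le_rfl
  have s1 : 4 * (if d.Prime then Real.log d else 0) ≤
      4 * (if d.Prime then Real.log d else 0) +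
      Real.sqrt w * (if d.Prime then 0 else vonMangoldt d) +
      Real.log 5 * (if ∃ k : ℕ, d = 5 ^ k then (d:ℝ) else 0) +
      Real.log 13 * (if ∃ k : ℕ, d = 13 ^ k then (d:ℝ) else 0) := by linarith
  have s2 : Real.sqrt w * (if d.Prime then 0 else vonMangoldt d) ≤
      4 * (if d.Prime then Real.log d else 0) +
      Real.sqrt w * (if d.Prime then 0 else vonMangoldt d) +
      Real.log 5 * (if ∃ k : ℕ, d = 5 ^ k then (d:ℝ) else 0) +
      Real.log 13 * (if ∃ k : ℕ, d = 13 ^ k then (d:ℝ) else 0) := by linarith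
  have s3 : Real.log 5 * (if ∃ k : ℕ, d = 5 ^ k then (d:ℝ) else 0) ≤
      4 * (if d.Prime then Real.log d else 0) +
      Real.sqrt w * (if d.Prime then 0 else vonMangoldt d) +
      Real.log 5 * (if ∃ k : ℕ, d = 5 ^ k then (d:ℝ) else 0) +
      Real.log 13 * (if ∃ k : ℕ, d = 13 ^ k then (d:ℝ) else 0) := by linarith
  have s4 : Real.log 13 * (if ∃ k : ℕ, d = 13 ^ k then (d:ℝ) else 0) ≤
      4 * (if d.Prime then Real.log d else 0) +
      Real.sqrt w * (if d.Prime then 0 else vonMangoldt d) +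
      Real.log 5 * (if ∃ k : ℕ, d = 5 ^ k then (d:ℝ) else 0) +
      Real.log 13 * (if ∃ k : ℕ, d = 13 ^ k then (d:ℝ) else 0) := by linarith
  by_cases hN : N1 d
  swap
  · have h0 : LFA y d = 0 := by
      rw [LFA_apply]
      have : FN y d = 0 := by unfold FN; rw [if_neg hN]
      rw [this, mul_zero]
    rw [h0]
    exact t1.trans s1
  by_cases hL : vonMangoldt d = 0
  · have h0 : LFA y d = 0 := by rw [LFA_apply, hL, zero_mul]
    rw [h0]
    exact t1.trans s1
  have hpp : IsPrimePow d := by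
    by_contra hc
    exact hL (vonMangoldt_eq_zero_iff.2 hc)
  obtain ⟨p, k, hp, hk, rfl⟩ := (isPrimePow_nat_iff d).1 hpp
  have hp4 : p % 4 = 1 := hN.2 p hp (dvd_pow_self p hk.ne')
  have hF := FN_prime_pow_le hy hy4 hp hN
  have hLam : vonMangoldt (p ^ k) = Real.log p := by
    rw [vonMangoldt_apply_pow hk.ne', vonMangoldt_apply_prime hp]
  have hlogp : 0 ≤ Real.log p := Real.log_nonneg (by exact_mod_cast hp.one_lt.le)
  have hFnn := FN_nonneg hy (p ^ k)
  rw [LFA_apply]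
  by_cases hk1 : k = 1
  · -- prime
    subst hk1
    refine le_trans ?_ s1
    have hpr : (p ^ 1).Prime := by rwa [pow_one]
    rw [if_pos hpr, hLam]
    have h4 : FN y (p ^ 1) ≤ 4 := by simpa using hF
    have e : Real.log ((p ^ 1 : ℕ) : ℝ) = Real.log p := by simp
    rw [e]
    nlinarith
  · have hnp : ¬ (p ^ k).Prime := Nat.Prime.not_prime_pow (by omega)
    rcases eq_or_ne p 5 with h5 | h5
    · subst h5
      refine le_trans ?_ s3
      have hex : ∃ j : ℕ, 5 ^ k = 5 ^ j := ⟨k, rfl⟩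
      rw [if_pos hex, hLam]
      have h6 : FN y (5 ^ k) ≤ ((5 ^ k : ℕ) : ℝ) := by
        refine hF.trans ?_
        push_cast
        exact pow_le_pow_left₀ (by norm_num) (by norm_num) k
      have e : ((5:ℕ):ℝ) = 5 := by norm_num
      rw [e]
      exact mul_le_mul_of_nonneg_left h6 hlog5
    rcases eq_or_ne p 13 with h13 | h13
    · subst h13
      refine le_trans ?_ s4
      have hex : ∃ j : ℕ, 13 ^ k = 13 ^ j := ⟨k, rfl⟩
      rw [if_pos hex, hLam]
      have h6 : FN y (13 ^ k) ≤ ((13 ^ k : ℕ) : ℝ) := by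
        refine hF.trans ?_
        push_cast
        exact pow_le_pow_left₀ (by norm_num) (by norm_num) k
      have e : ((13:ℕ):ℝ) = 13 := by norm_num
      rw [e]
      exact mul_le_mul_of_nonneg_left h6 hlog13
    · -- p ≥ 17
      refine le_trans ?_ s2
      have hp16 : 16 ≤ p := by
        have h2 := hp.two_le
        by_contra hc
        push Not at hc
        interval_cases p <;> first | omega | exact absurd hp (by norm_num)
      have hle : (p ^ k : ℕ) ≤ w := (Finset.mem_Ioc.1 hd).2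
      have h6 : FN y (p ^ k) ≤ Real.sqrt w := by
        refine hF.trans ?_
        apply Real.le_sqrt_of_sq_le
        have e1 : ((4:ℝ) ^ k) ^ 2 = 16 ^ k := by
          rw [← pow_mul, mul_comm k 2, pow_mul]; norm_num
        rw [e1]
        have e2 : ((16:ℝ)) ^ k ≤ (p:ℝ) ^ k := by
          apply pow_le_pow_left₀ (by norm_num)
          exact_mod_cast hp16
        have e3 : ((p ^ k : ℕ) : ℝ) ≤ w := by exact_mod_cast hle
        push_cast at e3
        linarith
      rw [if_neg hnp, mul_comm]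
      exact mul_le_mul_of_nonneg_right h6 vonMangoldt_nonneg

theorem LFA_sum_le {y : ℝ} (hy : 0 < y) (hy4 : y ≤ 4) : ∃ C : ℝ, 0 < C ∧ ∀ w : ℕ,
    ∑ d ∈ Finset.Ioc 0 w, LFA y d ≤ C * w := by
  classical
  obtain ⟨C1, hC1⟩ := Chebyshev.psi_sub_theta_le_mul_sqrt
  refine ⟨4 * Real.log 4 + |C1| + 2 * Real.log 5 + 2 * Real.log 13 + 1, by positivity, ?_⟩
  intro w
  rcases Nat.eq_zero_or_pos w with h0 | hw
  · subst h0; simp
  have hlog5 : 0 ≤ Real.log 5 := Real.log_nonneg (by norm_num)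
  have hlog13 : 0 ≤ Real.log 13 := Real.log_nonneg (by norm_num)
  have hw0 : (0:ℝ) ≤ w := Nat.cast_nonneg w
  have h1 : ∑ d ∈ Finset.Ioc 0 w, LFA y d ≤
      ∑ d ∈ Finset.Ioc 0 w, (4 * (if d.Prime then Real.log d else 0) +
      Real.sqrt w * (if d.Prime then 0 else vonMangoldt d) +
      Real.log 5 * (if ∃ k : ℕ, d = 5 ^ k then (d:ℝ) else 0) +
      Real.log 13 * (if ∃ k : ℕ, d = 13 ^ k then (d:ℝ) else 0)) :=
    Finset.sum_le_sum (fun d hd => LFA_le hy hy4 hd)
  rw [Finset.sum_add_distrib, Finset.sum_add_distrib, Finset.sum_add_distrib, ← Finset.mul_sum,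
    ← Finset.mul_sum, ← Finset.mul_sum, ← Finset.mul_sum] at h1
  have h2 : ∑ d ∈ Finset.Ioc 0 w, (if d.Prime then Real.log d else 0) ≤ Real.log 4 * w := by
    rw [← Finset.sum_filter]
    have := Chebyshev.theta_le_log4_mul_x hw0
    unfold Chebyshev.theta at this
    rwa [Nat.floor_natCast] at this
  have h3 : ∑ d ∈ Finset.Ioc 0 w, (if d.Prime then 0 else vonMangoldt d) ≤ C1 * Real.sqrt w := by
    have := hC1 w
    have e : Chebyshev.psi (w:ℝ) - Chebyshev.theta (w:ℝ) =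
        ∑ d ∈ Finset.Ioc 0 w, (if d.Prime then 0 else vonMangoldt d) := by
      unfold Chebyshev.theta Chebyshev.psi
      rw [Nat.floor_natCast, Finset.sum_filter, ← Finset.sum_sub_distrib]
      apply Finset.sum_congr rfl
      intro d _
      split_ifs with h
      · rw [vonMangoldt_apply_prime h, sub_self]
      · rw [sub_zero]
    rw [e] at this
    exact this
  have h4 := powsum 5 (by norm_num) w hw
  have h5 := powsum 13 (by norm_num) w hw
  rw [Finset.sum_filter] at h4 h5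
  have h6 : Real.sqrt w * ∑ d ∈ Finset.Ioc 0 w, (if d.Prime then 0 else vonMangoldt d) ≤
      |C1| * w := by
    calc Real.sqrt w * ∑ d ∈ Finset.Ioc 0 w, (if d.Prime then 0 else vonMangoldt d)
        ≤ Real.sqrt w * (C1 * Real.sqrt w) := mul_le_mul_of_nonneg_left h3 (Real.sqrt_nonneg _)
      _ = C1 * (Real.sqrt w * Real.sqrt w) := by ring
      _ = C1 * w := by rw [Real.mul_self_sqrt hw0]
      _ ≤ |C1| * w := mul_le_mul_of_nonneg_right (le_abs_self _) hw0
  have h7 : Real.log 5 * ∑ d ∈ Finset.Ioc 0 w, (if ∃ k : ℕ, d = 5 ^ k then (d:ℝ) else 0) ≤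
      Real.log 5 * (2 * w) := mul_le_mul_of_nonneg_left h4 hlog5
  have h8 : Real.log 13 * ∑ d ∈ Finset.Ioc 0 w, (if ∃ k : ℕ, d = 13 ^ k then (d:ℝ) else 0) ≤
      Real.log 13 * (2 * w) := mul_le_mul_of_nonneg_left h5 hlog13
  have h9 : (4 * Real.log 4 + |C1| + 2 * Real.log 5 + 2 * Real.log 13 + 1) * (w:ℝ) =
      4 * (Real.log 4 * w) + |C1| * w + Real.log 5 * (2 * w) + Real.log 13 * (2 * w) + w := by ring
  rw [h9]
  linarith

open Classical in
/-- Let `f(n) = y ^ Ω(n)` for `N1 n`. Then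
`∑_{n ≤ N} f(n) log n = ∑_{n ≤ N} f(n) ∑_{p^k ∣ n} log p = ∑_{m ≤ N} f(m) ∑_{p^k ≤ N/m, p = 1 mod 4} y^k log p
≤ C N ∑_{m ≤ N} f(m) / m` (Chebyshev `∑_{p ≤ w} log p ≤ C w`; the prime powers with `k ≥ 2` contribute
`≤ C w` because `y ≤ 4 < 5`), and `∑ f(n) log (N / n) ≤ N ∑ f(n) / n`. Add the two and use `ht_log`. -/
theorem ht (y : ℝ) (hy : 0 < y) (hy4 : y ≤ 4) : ∃ C : ℝ, 0 < C ∧ ∀ N : ℕ, 1 ≤ N →
    ∑ n ∈ (Finset.Icc 1 N).filter N1, y ^ (ArithmeticFunction.cardFactors n) ≤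
      C * N * (1 + Real.log N) ^ (y / 2 - 1) := by
  obtain ⟨C0, hC0, hlog⟩ := ht_log y hy hy4
  obtain ⟨C1, hC1, hL⟩ := LFA_sum_le hy hy4
  refine ⟨(C1 + 2) * C0, by positivity, ?_⟩
  intro N hN
  have hNr : (1:ℝ) ≤ N := by exact_mod_cast hN
  have hN0 : (0:ℝ) ≤ N := by linarith
  have hlN : 0 ≤ Real.log N := Real.log_nonneg hNr
  have hIcc : Finset.Icc 1 N = Finset.Ioc 0 N := rfl
  set S : ℝ := ∑ n ∈ Finset.Ioc 0 N, FN y n with hS
  set T : ℝ := ∑ n ∈ Finset.Ioc 0 N, FN y n / (n:ℝ) with hT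
  have e1 : ∑ n ∈ (Finset.Icc 1 N).filter N1, y ^ (ArithmeticFunction.cardFactors n) = S := by
    rw [Finset.sum_filter, hIcc, hS]
    rfl
  have e2 : ∑ n ∈ (Finset.Icc 1 N).filter N1, y ^ (ArithmeticFunction.cardFactors n) / (n:ℝ) = T := by
    rw [Finset.sum_filter, hIcc, hT]
    apply Finset.sum_congr rfl
    intro n _
    unfold FN
    split_ifs <;> simp
  have hT1 := hlog N hN
  rw [e2] at hT1
  rw [e1]
  have hS0 : 0 ≤ S := Finset.sum_nonneg (fun n _ => FN_nonneg hy n)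
  have hT0 : 0 ≤ T := Finset.sum_nonneg (fun n _ => div_nonneg (FN_nonneg hy n) (Nat.cast_nonneg n))
  -- the log weighted sum
  have h1 : ∑ n ∈ Finset.Ioc 0 N, FN y n * Real.log n ≤ C1 * N * T := by
    have e3 : ∑ n ∈ Finset.Ioc 0 N, FN y n * Real.log n =
        ∑ n ∈ Finset.Ioc 0 N, (FA y * LFA y) n := by
      apply Finset.sum_congr rfl
      intro n _
      rw [FA_mul_LFA]
    rw [e3, sum_Ioc_mul_eq_sum_sum, hT, Finset.mul_sum]
    apply Finset.sum_le_sum
    intro m hm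
    have hm0 : 0 < m := (Finset.mem_Ioc.1 hm).1
    have hm0' : (0:ℝ) < m := by exact_mod_cast hm0
    rw [FA_apply]
    have h2 : ∑ d ∈ Finset.Ioc 0 (N / m), LFA y d ≤ C1 * ((N:ℝ) / m) := by
      refine (hL (N / m)).trans ?_
      apply mul_le_mul_of_nonneg_left _ hC1.le
      exact Nat.cast_div_le
    calc FN y m * ∑ d ∈ Finset.Ioc 0 (N / m), LFA y d
        ≤ FN y m * (C1 * ((N:ℝ) / m)) := mul_le_mul_of_nonneg_left h2 (FN_nonneg hy m)
      _ = C1 * N * (FN y m / m) := by ring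
  have h2 : ∑ n ∈ Finset.Ioc 0 N, FN y n * (Real.log N - Real.log n) ≤ N * T := by
    rw [hT, Finset.mul_sum]
    apply Finset.sum_le_sum
    intro n hn
    have hn0 : 0 < n := (Finset.mem_Ioc.1 hn).1
    have hn0' : (0:ℝ) < n := by exact_mod_cast hn0
    have hN0' : (0:ℝ) < N := by linarith
    have h3 : Real.log N - Real.log n ≤ (N:ℝ) / n := by
      rw [← Real.log_div hN0'.ne' hn0'.ne']
      have := Real.log_le_sub_one_of_pos (show (0:ℝ) < N / n by positivity)
      linarith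
    calc FN y n * (Real.log N - Real.log n) ≤ FN y n * ((N:ℝ) / n) :=
          mul_le_mul_of_nonneg_left h3 (FN_nonneg hy n)
      _ = N * (FN y n / n) := by ring
  have h3 : S ≤ N * T := by
    rw [hS, hT, Finset.mul_sum]
    apply Finset.sum_le_sum
    intro n hn
    have hn0 : 0 < n := (Finset.mem_Ioc.1 hn).1
    have hn0' : (0:ℝ) < n := by exact_mod_cast hn0
    have hnN : (n:ℝ) ≤ N := by exact_mod_cast (Finset.mem_Ioc.1 hn).2
    have hF := FN_nonneg hy n
    have e4 : (N:ℝ) * (FN y n / n) = FN y n * ((N:ℝ) / n) := by ring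
    rw [e4]
    have : 1 ≤ (N:ℝ) / n := by rw [le_div_iff₀ hn0']; linarith
    nlinarith
  have h4 : (1 + Real.log N) * S ≤ (C1 + 2) * N * T := by
    have e5 : Real.log N * S = ∑ n ∈ Finset.Ioc 0 N, FN y n * Real.log n +
        ∑ n ∈ Finset.Ioc 0 N, FN y n * (Real.log N - Real.log n) := by
      rw [← Finset.sum_add_distrib, hS, Finset.mul_sum]
      apply Finset.sum_congr rfl
      intro n _
      ring
    have : (1 + Real.log N) * S = S + Real.log N * S := by ring
    rw [this, e5]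
    nlinarith
  have hpos : 0 < 1 + Real.log N := by linarith
  have h5 : (1 + Real.log N) * S ≤ (C1 + 2) * N * (C0 * (1 + Real.log N) ^ (y / 2)) := by
    refine h4.trans ?_
    apply mul_le_mul_of_nonneg_left hT1
    positivity
  have h6 : (1 + Real.log N) ^ (y / 2) = (1 + Real.log N) ^ (y / 2 - 1) * (1 + Real.log N) := by
    rw [Real.rpow_sub_one hpos.ne']
    field_simp
  rw [h6] at h5
  have h7 : S * (1 + Real.log N) ≤
      ((C1 + 2) * C0 * N * (1 + Real.log N) ^ (y / 2 - 1)) * (1 + Real.log N) := by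
    have e6 : (C1 + 2) * N * (C0 * ((1 + Real.log N) ^ (y / 2 - 1) * (1 + Real.log N))) =
      ((C1 + 2) * C0 * N * (1 + Real.log N) ^ (y / 2 - 1)) * (1 + Real.log N) := by ring
    rw [e6] at h5
    linarith
  exact le_of_mul_le_mul_right h7 hpos

end Pool.Agent.GaussMR
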