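import Pool.Agent.Lib_MP_f1a94e_mr.MertensB

/-!
# Piece HTLOG: logarithmic sums of `y ^ Ω(n)`
-/

set_option autoImplicit false

namespace Pool.Agent.GaussMR

theorem N1_one : N1 1 := by
  refine ⟨one_ne_zero, ?_⟩
  intro p hp h
  exact absurd (Nat.dvd_one.1 h) hp.one_lt.ne'

theorem N1_zero : ¬ N1 0 := fun h => h.1 rfl

theorem N1_mul {m n : ℕ} : N1 (m * n) ↔ N1 m ∧ N1 n := by
  constructor
  · rintro ⟨h1, h2⟩
    refine ⟨⟨left_ne_zero_of_mul h1, fun p hp hd => h2 p hp (hd.mul_right n)⟩,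
      ⟨right_ne_zero_of_mul h1, fun p hp hd => h2 p hp (hd.mul_left m)⟩⟩
  · rintro ⟨⟨h1, h2⟩, ⟨h3, h4⟩⟩
    refine ⟨mul_ne_zero h1 h3, ?_⟩
    intro p hp hd
    rcases (Nat.Prime.dvd_mul hp).1 hd with h | h
    · exact h2 p hp h
    · exact h4 p hp h

theorem N1_prime {p : ℕ} (hp : p.Prime) : N1 p ↔ p % 4 = 1 := by
  constructor
  · intro h; exact h.2 p hp dvd_rfl
  · intro h
    refine ⟨hp.ne_zero, ?_⟩
    intro q hq hd
    rw [(Nat.prime_dvd_prime_iff_eq hq hp).1 hd]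
    exact h

open Classical in
/-- `F(n) = y ^ Ω(n)` if `N1 n`, otherwise `0`. -/
noncomputable def FN (y : ℝ) (n : ℕ) : ℝ :=
  if N1 n then y ^ (ArithmeticFunction.cardFactors n) else 0

theorem FN_nonneg {y : ℝ} (hy : 0 < y) (n : ℕ) : 0 ≤ FN y n := by
  unfold FN
  split_ifs
  · positivity
  · exact le_rfl

theorem FN_one (y : ℝ) : FN y 1 = 1 := by
  unfold FN
  rw [if_pos N1_one]
  simp

theorem FN_zero (y : ℝ) : FN y 0 = 0 := by
  unfold FN
  rw [if_neg N1_zero]

theorem FN_mul (y : ℝ) (m n : ℕ) : FN y (m * n) = FN y m * FN y n := by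
  unfold FN
  by_cases hm : N1 m
  · by_cases hn : N1 n
    · rw [if_pos hm, if_pos hn, if_pos (N1_mul.2 ⟨hm, hn⟩),
        ArithmeticFunction.cardFactors_mul hm.1 hn.1, pow_add]
    · rw [if_neg hn, if_neg (fun h => hn (N1_mul.1 h).2), mul_zero]
  · rw [if_neg hm, if_neg (fun h => hm (N1_mul.1 h).1), zero_mul]

/-- the completely multiplicative function `F(n) / n`. -/
noncomputable def fN (y : ℝ) : ℕ →* ℝ where
  toFun n := FN y n / n
  map_one' := by simp [FN_one]
  map_mul' m n := by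
    simp only [FN_mul]
    push_cast
    rw [mul_div_mul_comm]

theorem fN_apply (y : ℝ) (n : ℕ) : fN y n = FN y n / n := rfl

open Classical in
theorem fN_prime (y : ℝ) {p : ℕ} (hp : p.Prime) :
    fN y p = if p % 4 = 1 then y / p else 0 := by
  rw [fN_apply, FN]
  by_cases h : p % 4 = 1
  · rw [if_pos h, if_pos ((N1_prime hp).2 h), ArithmeticFunction.cardFactors_apply_prime hp, pow_one]
  · rw [if_neg h, if_neg (fun h' => h ((N1_prime hp).1 h')), zero_div]

theorem five_le {p : ℕ} (hp : p.Prime) (h : p % 4 = 1) : 5 ≤ p := by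
  have h2 := hp.two_le
  omega

theorem fN_prime_le {y : ℝ} (hy : 0 < y) (hy4 : y ≤ 4) {p : ℕ} (hp : p.Prime) :
    0 ≤ fN y p ∧ fN y p ≤ 4 / 5 := by
  classical
  rw [fN_prime y hp]
  split_ifs with h
  · have h5 : (5:ℝ) ≤ p := by exact_mod_cast five_le hp h
    constructor
    · positivity
    · rw [div_le_div_iff₀ (by linarith) (by norm_num)]
      nlinarith
  · constructor <;> norm_num

theorem inv_le_exp {t : ℝ} (h0 : 0 ≤ t) (h1 : t ≤ 4 / 5) : (1 - t)⁻¹ ≤ Real.exp (t + 5 * t ^ 2) := by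
  have h2 : 0 < 1 - t := by linarith
  rw [inv_le_iff_one_le_mul₀ h2]
  have h3 := Real.quadratic_le_exp_of_nonneg (show 0 ≤ t + 5 * t ^ 2 by positivity)
  have h4 : 1 ≤ (1 + (t + 5 * t ^ 2) + (t + 5 * t ^ 2) ^ 2 / 2) * (1 - t) := by
    have h5 : t ^ 2 ≤ (t + 5 * t ^ 2) ^ 2 := by
      apply pow_le_pow_left₀ h0
      nlinarith [sq_nonneg t]
    have h6 : (1 + (t + 5 * t ^ 2) + t ^ 2 / 2) * (1 - t) ≤
        (1 + (t + 5 * t ^ 2) + (t + 5 * t ^ 2) ^ 2 / 2) * (1 - t) := by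
      apply mul_le_mul_of_nonneg_right _ h2.le
      linarith
    have h7 : 1 ≤ (1 + (t + 5 * t ^ 2) + t ^ 2 / 2) * (1 - t) := by
      have : (1 + (t + 5 * t ^ 2) + t ^ 2 / 2) * (1 - t) = 1 + t ^ 2 * (9 / 2 - 11 / 2 * t) := by ring
      rw [this]
      have : 0 ≤ t ^ 2 * (9 / 2 - 11 / 2 * t) := by
        apply mul_nonneg (sq_nonneg t)
        linarith
      linarith
    linarith
  exact h4.trans (mul_le_mul_of_nonneg_right h3 h2.le)

theorem sum_inv_sq_le (N : ℕ) : ∑ n ∈ Finset.Icc 1 N, (1:ℝ) / (n:ℝ) ^ 2 ≤ 2 := by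
  have key : ∀ N : ℕ, ∑ n ∈ Finset.Icc 1 (N + 1), (1:ℝ) / (n:ℝ) ^ 2 ≤ 2 - 1 / ((N:ℝ) + 1) := by
    intro N
    induction N with
    | zero => simp; norm_num
    | succ N ih =>
      rw [Finset.sum_Icc_succ_top (by omega)]
      have hN : (0:ℝ) ≤ N := Nat.cast_nonneg N
      have h1 : (1:ℝ) / (((N + 1 + 1 : ℕ) : ℝ)) ^ 2 ≤
          1 / ((N:ℝ) + 1) - 1 / (((N + 1 : ℕ) : ℝ) + 1) := by
        push_cast
        rw [div_sub_div _ _ (by positivity) (by positivity),
          div_le_div_iff₀ (by positivity) (by positivity)]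
        nlinarith
      linarith
  rcases N with _ | N
  · simp
  · have := key N
    have h2 : 0 ≤ 1 / ((N:ℝ) + 1) := by positivity
    linarith

open Classical in
/-- `f(n) = y ^ Ω(n) / n` for `N1 n`, `0` otherwise, is completely multiplicative and
`∑_{n ≤ N} f(n) ≤ ∏_{p ≤ N, p = 1 mod 4} (1 - y / p)⁻¹` (Euler product over smooth numbers, Mathlib
`EulerProduct.summable_and_hasSum_smoothNumbers_prod_primesBelow_geometric`; `y / p ≤ 4 / 5`), which by
`mertens` is at most `C (1 + log N) ^ (y / 2)`. -/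
theorem ht_log (y : ℝ) (hy : 0 < y) (hy4 : y ≤ 4) : ∃ C : ℝ, 0 < C ∧ ∀ N : ℕ, 1 ≤ N →
    ∑ n ∈ (Finset.Icc 1 N).filter N1, y ^ (ArithmeticFunction.cardFactors n) / (n : ℝ) ≤
      C * (1 + Real.log N) ^ (y / 2) := by
  obtain ⟨C0, hC0⟩ := mertens
  have hnonneg : ∀ n : ℕ, 0 ≤ fN y n := by
    intro n
    rw [fN_apply]
    exact div_nonneg (FN_nonneg hy n) (Nat.cast_nonneg n)
  refine ⟨Real.exp (y * C0 + 160) + 1, by positivity, ?_⟩
  intro N hN
  have hsum : ∑ n ∈ (Finset.Icc 1 N).filter N1, y ^ (ArithmeticFunction.cardFactors n) / (n : ℝ) =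
      ∑ n ∈ Finset.Icc 1 N, fN y n := by
    rw [Finset.sum_filter]
    apply Finset.sum_congr rfl
    intro n _
    rw [fN_apply, FN]
    split_ifs <;> simp
  rw [hsum]
  rcases Nat.lt_or_ge N 2 with h2 | h2
  · have hN1 : N = 1 := by omega
    subst hN1
    simp only [Finset.Icc_self, Finset.sum_singleton, map_one, Nat.cast_one, Real.log_one, add_zero,
      Real.one_rpow, mul_one]
    have := Real.exp_pos (y * C0 + 160)
    linarith
  -- Euler product
  have hlt : ∀ {p : ℕ}, p.Prime → ‖fN y p‖ < 1 := by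
    intro p hp
    have := fN_prime_le hy hy4 hp
    rw [Real.norm_eq_abs, abs_of_nonneg this.1]
    linarith [this.2]
  obtain ⟨hs, hh⟩ := EulerProduct.summable_and_hasSum_smoothNumbers_prod_primesBelow_geometric
    hlt (N + 1)
  have h3 : ∑ n ∈ Finset.Icc 1 N, fN y n ≤ ∏ p ∈ (N + 1).primesBelow, (1 - fN y p)⁻¹ := by
    have hmem : ∀ n ∈ Finset.Icc 1 N, n ∈ (N + 1).smoothNumbers := by
      intro n hn
      have := Finset.mem_Icc.1 hn
      exact Nat.mem_smoothNumbers_of_lt (by omega) (by omega)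
    have e1 : ∑ n ∈ Finset.Icc 1 N, fN y n =
        ∑ m ∈ (Finset.Icc 1 N).subtype (fun n => n ∈ (N + 1).smoothNumbers), fN y m := by
      rw [Finset.sum_subtype_of_mem (fun n => fN y n) hmem]
    rw [e1]
    exact sum_le_hasSum _ (fun m _ => hnonneg m) hh
  -- bound of the product
  have h4 : ∏ p ∈ (N + 1).primesBelow, (1 - fN y p)⁻¹ ≤
      ∏ p ∈ (N + 1).primesBelow, Real.exp (fN y p + 5 * (fN y p) ^ 2) := by
    apply Finset.prod_le_prod
    · intro p hp
      have := fN_prime_le hy hy4 (Nat.prime_of_mem_primesBelow hp)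
      apply inv_nonneg.2
      linarith [this.2]
    · intro p hp
      have := fN_prime_le hy hy4 (Nat.prime_of_mem_primesBelow hp)
      exact inv_le_exp this.1 this.2
  rw [← Real.exp_sum, Finset.sum_add_distrib, ← Finset.mul_sum] at h4
  have hfl : ⌊(N:ℝ)⌋₊ = N := Nat.floor_natCast N
  have h5 : ∑ p ∈ (N + 1).primesBelow, fN y p =
      y * ∑ p ∈ (Finset.Icc 1 ⌊(N:ℝ)⌋₊).filter (fun p => p.Prime ∧ p % 4 = 1), (1 : ℝ) / p := by
    rw [hfl, Finset.mul_sum]
    have e1 : (Finset.Icc 1 N).filter (fun p => p.Prime ∧ p % 4 = 1) =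
        ((N + 1).primesBelow).filter (fun p => p % 4 = 1) := by
      ext p
      simp only [Finset.mem_filter, Finset.mem_Icc, Nat.mem_primesBelow]
      constructor
      · rintro ⟨⟨h1, h2⟩, h3, h4⟩
        exact ⟨⟨by omega, h3⟩, h4⟩
      · rintro ⟨⟨h1, h3⟩, h4⟩
        exact ⟨⟨h3.one_lt.le, by omega⟩, h3, h4⟩
    rw [e1, Finset.sum_filter]
    apply Finset.sum_congr rfl
    intro p hp
    rw [fN_prime y (Nat.prime_of_mem_primesBelow hp)]
    split_ifs
    · rw [mul_one_div]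
    · rfl
  have h6 : ∑ p ∈ (N + 1).primesBelow, (fN y p) ^ 2 ≤ 32 := by
    have hsub : (N + 1).primesBelow ⊆ Finset.Icc 1 N := by
      intro p hp
      rw [Nat.mem_primesBelow] at hp
      exact Finset.mem_Icc.2 ⟨hp.2.one_lt.le, by omega⟩
    calc ∑ p ∈ (N + 1).primesBelow, (fN y p) ^ 2
        ≤ ∑ p ∈ (N + 1).primesBelow, 16 * (1 / (p:ℝ) ^ 2) := by
          apply Finset.sum_le_sum
          intro p hp
          have hpp := Nat.prime_of_mem_primesBelow hp
          rw [fN_prime y hpp]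
          have hp0 : (0:ℝ) < p := by exact_mod_cast hpp.pos
          split_ifs
          · rw [div_pow, mul_one_div]
            apply div_le_div_of_nonneg_right _ (by positivity)
            nlinarith
          · simp only [ne_eq, OfNat.ofNat_ne_zero, not_false_eq_true, zero_pow]
            positivity
      _ ≤ ∑ n ∈ Finset.Icc 1 N, 16 * (1 / (n:ℝ) ^ 2) := by
          apply Finset.sum_le_sum_of_subset_of_nonneg hsub
          intro i _ _
          positivity
      _ = 16 * ∑ n ∈ Finset.Icc 1 N, 1 / (n:ℝ) ^ 2 := by rw [Finset.mul_sum]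
      _ ≤ 16 * 2 := by
          have := sum_inv_sq_le N
          linarith
      _ = 32 := by norm_num
  have hNr : (2:ℝ) ≤ N := by exact_mod_cast h2
  have h7 := (abs_le.1 (hC0 N hNr)).2
  have hlog : 0 < Real.log N := Real.log_pos (by linarith)
  have h8 : ∑ p ∈ (N + 1).primesBelow, fN y p + 5 * ∑ p ∈ (N + 1).primesBelow, (fN y p) ^ 2 ≤
      (y * C0 + 160) + Real.log (Real.log N) * (y / 2) := by
    rw [h5]
    have h9 : y * ∑ p ∈ (Finset.Icc 1 ⌊(N:ℝ)⌋₊).filter (fun p => p.Prime ∧ p % 4 = 1), (1 : ℝ) / p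
        ≤ y * (C0 + Real.log (Real.log N) / 2) := by
      apply mul_le_mul_of_nonneg_left _ hy.le
      linarith
    linarith
  have h9 : Real.exp (∑ p ∈ (N + 1).primesBelow, fN y p +
      5 * ∑ p ∈ (N + 1).primesBelow, (fN y p) ^ 2) ≤
      Real.exp (y * C0 + 160) * (Real.log N) ^ (y / 2) := by
    rw [Real.rpow_def_of_pos hlog, ← Real.exp_add]
    exact Real.exp_le_exp.2 h8
  have h10 : (Real.log N) ^ (y / 2) ≤ (1 + Real.log N) ^ (y / 2) :=
    Real.rpow_le_rpow hlog.le (by linarith) (by positivity)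
  have h11 : 0 ≤ (1 + Real.log N) ^ (y / 2) := Real.rpow_nonneg (by linarith) _
  calc ∑ n ∈ Finset.Icc 1 N, fN y n
      ≤ Real.exp (y * C0 + 160) * (Real.log N) ^ (y / 2) := h3.trans (h4.trans h9)
    _ ≤ Real.exp (y * C0 + 160) * (1 + Real.log N) ^ (y / 2) :=
        mul_le_mul_of_nonneg_left h10 (Real.exp_pos _).le
    _ ≤ (Real.exp (y * C0 + 160) + 1) * (1 + Real.log N) ^ (y / 2) := by
        apply mul_le_mul_of_nonneg_right _ h11
        linarith

end Pool.Agent.GaussMR
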