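import Pool.Agent.Lib_MP_f1a94e_mr.Defs

/-!
# Piece KL: Kusmin-Landau inequality (discrete form)
-/

set_option autoImplicit false

namespace Pool.Agent.GaussMR

theorem kl_norm_ee (x : ℝ) : ‖ee x‖ = 1 := by
  unfold ee
  have h : (2 * Real.pi * x * Complex.I : ℂ) = ((2 * Real.pi * x : ℝ) : ℂ) * Complex.I := by
    push_cast; ring
  rw [h, Complex.norm_exp_ofReal_mul_I]

theorem kl_ee_add (x y : ℝ) : ee (x + y) = ee x * ee y := by
  unfold ee
  rw [← Complex.exp_add]
  congr 1
  push_cast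
  ring

theorem kl_ee_int (c : ℤ) : ee (c : ℝ) = 1 := by
  unfold ee
  rw [Complex.exp_eq_one_iff]
  exact ⟨c, by push_cast; ring⟩

/-- `cot (π t)` -/
noncomputable def klCot (t : ℝ) : ℝ := Real.cos (Real.pi * t) / Real.sin (Real.pi * t)

/-- `1 / (1 - ee t)` -/
noncomputable def klC (t : ℝ) : ℂ := 1 / 2 + ((klCot t / 2 : ℝ) : ℂ) * Complex.I

theorem kl_sin_lower {t θ : ℝ} (hθ : 0 < θ) (h1 : θ ≤ t) (h2 : t ≤ 1 - θ) :
    2 * θ ≤ Real.sin (Real.pi * t) := by
  have hpi := Real.pi_pos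
  rcases le_total t (1 / 2) with h | h
  · have ht : 0 ≤ t := by linarith
    have h3 := Real.mul_le_sin (x := Real.pi * t) (by positivity) (by nlinarith)
    have h4 : 2 / Real.pi * (Real.pi * t) = 2 * t := by field_simp
    rw [h4] at h3
    linarith
  · have h3 := Real.mul_le_sin (x := Real.pi * (1 - t)) (by
      have : 0 ≤ 1 - t := by linarith
      positivity) (by nlinarith)
    have h4 : 2 / Real.pi * (Real.pi * (1 - t)) = 2 * (1 - t) := by field_simp
    have h5 : Real.sin (Real.pi * (1 - t)) = Real.sin (Real.pi * t) := by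
      rw [← Real.sin_pi_sub]
      congr 1
      ring
    rw [h4, h5] at h3
    linarith

theorem kl_mul (t : ℝ) (hs : Real.sin (Real.pi * t) ≠ 0) : (1 - ee t) * klC t = 1 := by
  have he : ee t = ((Real.cos (2 * (Real.pi * t)) : ℝ) : ℂ)
      + ((Real.sin (2 * (Real.pi * t)) : ℝ) : ℂ) * Complex.I := by
    unfold ee
    rw [Complex.ofReal_cos, Complex.ofReal_sin, ← Complex.exp_mul_I]
    congr 1
    push_cast
    ring
  rw [he, Real.cos_two_mul, Real.sin_two_mul]
  unfold klC klCot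
  have h1 : Real.sin (Real.pi * t) ^ 2 + Real.cos (Real.pi * t) ^ 2 = 1 := Real.sin_sq_add_cos_sq _
  generalize Real.sin (Real.pi * t) = s at *
  generalize Real.cos (Real.pi * t) = c at *
  have h2 : (s : ℂ) ^ 2 + (c : ℂ) ^ 2 = 1 := by exact_mod_cast h1
  have h3 : (s : ℂ) ≠ 0 := by exact_mod_cast hs
  push_cast
  field_simp
  linear_combination (-2) * ((s : ℂ) + c * Complex.I) * h2 + 2 * (s : ℂ) * h2
    - 2 * (s : ℂ) * (c : ℂ) ^ 2 * Complex.I_sq

theorem kl_norm_C {t θ : ℝ} (hθ : 0 < θ) (h1 : θ ≤ t) (h2 : t ≤ 1 - θ) :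
    ‖klC t‖ ≤ 1 / (4 * θ) ∧ ‖1 - klC t‖ ≤ 1 / (4 * θ) := by
  have hs := kl_sin_lower hθ h1 h2
  have hspos : 0 < Real.sin (Real.pi * t) := by linarith
  have hn : ∀ z : ℂ, z.re ^ 2 + z.im ^ 2 = (1 / (2 * Real.sin (Real.pi * t))) ^ 2 →
      ‖z‖ ≤ 1 / (4 * θ) := by
    intro z hz
    have h3 : ‖z‖ ^ 2 = (1 / (2 * Real.sin (Real.pi * t))) ^ 2 := by
      rw [← hz, Complex.sq_norm, Complex.normSq_apply]
      ring
    have h4 : ‖z‖ = 1 / (2 * Real.sin (Real.pi * t)) := by
      rwa [sq_eq_sq₀ (norm_nonneg _) (by positivity)] at h3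
    rw [h4]
    apply one_div_le_one_div_of_le (by positivity)
    linarith
  have h5 : Real.sin (Real.pi * t) ^ 2 + Real.cos (Real.pi * t) ^ 2 = 1 :=
    Real.sin_sq_add_cos_sq _
  have h6 : klCot t ^ 2 = 1 / Real.sin (Real.pi * t) ^ 2 - 1 := by
    unfold klCot
    field_simp
    linarith
  have h7 : (1 / (2 * Real.sin (Real.pi * t))) ^ 2 = (1 + klCot t ^ 2) / 4 := by
    rw [h6]
    field_simp
    ring
  have hre : (klC t).re = 1 / 2 := by simp [klC]
  have him : (klC t).im = klCot t / 2 := by simp [klC]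
  constructor
  · apply hn
    rw [h7, hre, him]
    ring
  · apply hn
    rw [h7, Complex.sub_re, Complex.sub_im, hre, him]
    simp
    ring

theorem kl_cot_bound {t θ : ℝ} (hθ : 0 < θ) (h1 : θ ≤ t) (h2 : t ≤ 1 - θ) :
    |klCot t| ≤ 1 / (2 * θ) := by
  have hs := kl_sin_lower hθ h1 h2
  have hspos : 0 < Real.sin (Real.pi * t) := by linarith
  unfold klCot
  rw [abs_div, abs_of_pos hspos]
  calc |Real.cos (Real.pi * t)| / Real.sin (Real.pi * t) ≤ 1 / Real.sin (Real.pi * t) := by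
        apply div_le_div_of_nonneg_right (Real.abs_cos_le_one _) hspos.le
    _ ≤ 1 / (2 * θ) := one_div_le_one_div_of_le (by positivity) hs

theorem kl_cot_anti {t t' θ : ℝ} (hθ : 0 < θ) (h1 : θ ≤ t) (h2 : t ≤ t') (h3 : t' ≤ 1 - θ) :
    klCot t' ≤ klCot t := by
  have hpi := Real.pi_pos
  have hs := kl_sin_lower hθ h1 (h2.trans h3)
  have hs' := kl_sin_lower hθ (h1.trans h2) h3
  have hp : 0 < Real.sin (Real.pi * t) := by linarith
  have hp' : 0 < Real.sin (Real.pi * t') := by linarith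
  have hd : 0 ≤ Real.sin (Real.pi * t' - Real.pi * t) := by
    apply Real.sin_nonneg_of_nonneg_of_le_pi
    · nlinarith
    · nlinarith
  rw [Real.sin_sub] at hd
  unfold klCot
  rw [div_le_div_iff₀ hp' hp]
  linarith

theorem kl_sub {t t' θ : ℝ} (hθ : 0 < θ) (h1 : θ ≤ t) (h2 : t ≤ t') (h3 : t' ≤ 1 - θ) :
    ‖klC t' - klC t‖ = (klCot t - klCot t') / 2 := by
  have h := kl_cot_anti hθ h1 h2 h3
  have h4 : klC t' - klC t = (((klCot t' - klCot t) / 2 : ℝ) : ℂ) * Complex.I := by
    unfold klC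
    push_cast
    ring
  rw [h4, norm_mul, Complex.norm_I, mul_one, Complex.norm_real, Real.norm_eq_abs,
    abs_of_nonpos (by linarith)]
  ring

/-- sums over integer intervals as sums over ranges -/
theorem kl_sum_Icc {M : Type*} [AddCommMonoid M] (f : ℤ → M) (a : ℤ) (N : ℕ) :
    ∑ n ∈ Finset.Icc a (a + N), f n = ∑ k ∈ Finset.range (N + 1), f (a + k) := by
  induction N with
  | zero => simp
  | succ N ih =>
    rw [Finset.sum_range_succ, ← ih]
    have h : Finset.Icc a (a + (N + 1 : ℕ)) = insert (a + (N + 1 : ℕ)) (Finset.Icc a (a + N)) := by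
      ext x
      simp only [Finset.mem_Icc, Finset.mem_insert]
      push_cast
      omega
    rw [h, Finset.sum_insert]
    · rw [add_comm]
    · simp only [Finset.mem_Icc]
      push_cast
      omega

/-- the inequality for sequences indexed by natural numbers -/
theorem kl_range (x : ℕ → ℝ) (N : ℕ) (θ : ℝ) (hθ : 0 < θ) (c : ℤ)
    (hmono : ∀ k, k + 1 < N → x (k + 1) - x k ≤ x (k + 2) - x (k + 1))
    (h1 : ∀ k, k < N → (c : ℝ) + θ ≤ x (k + 1) - x k)
    (h2 : ∀ k, k < N → x (k + 1) - x k ≤ (c : ℝ) + 1 - θ) (n : ℕ) (hn : n + 1 ≤ N) :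
    ‖∑ k ∈ Finset.range (n + 2), ee (x k) - (1 - klC (x (n + 1) - x n - c)) * ee (x (n + 1))‖ ≤
      1 / (4 * θ) + (klCot (x 1 - x 0 - c) - klCot (x (n + 1) - x n - c)) / 2 := by
  have key : ∀ k, k < N → ee (x k) = (ee (x k) - ee (x (k + 1))) * klC (x (k + 1) - x k - c) := by
    intro k hk
    have e1 : ee (x (k + 1)) = ee (x k) * ee (x (k + 1) - x k - c) := by
      have e2 : x (k + 1) = x k + ((x (k + 1) - x k - c) + c) := by ring
      conv_lhs => rw [e2]
      rw [kl_ee_add, kl_ee_add, kl_ee_int, mul_one]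
    have e3 := kl_mul (x (k + 1) - x k - c) (by
      have := kl_sin_lower (t := x (k + 1) - x k - c) hθ (by linarith [h1 k hk])
        (by linarith [h2 k hk])
      exact (by linarith : (0 : ℝ) < _).ne')
    rw [e1]
    calc ee (x k) = ee (x k) * ((1 - ee (x (k + 1) - x k - c)) * klC (x (k + 1) - x k - c)) := by
          rw [e3, mul_one]
      _ = _ := by ring
  induction n with
  | zero =>
    have e1 := key 0 (by omega)
    have e2 : ∑ k ∈ Finset.range (0 + 2), ee (x k) - (1 - klC (x (0 + 1) - x 0 - c)) * ee (x (0 + 1))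
        = klC (x 1 - x 0 - c) * ee (x 0) := by
      rw [Finset.sum_range_succ, Finset.sum_range_one]
      simp only [zero_add] at e1 ⊢
      linear_combination e1
    rw [e2, norm_mul, kl_norm_ee, mul_one]
    simp only [zero_add, sub_self, zero_div, add_zero]
    exact (kl_norm_C hθ (by linarith [h1 0 (by omega)]) (by
      have := h2 0 (by omega)
      simp only [zero_add] at this
      linarith)).1
  | succ n ih =>
    have ih' := ih (by omega)
    have e1 := key (n + 1) (by omega)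
    have e2 : ∑ k ∈ Finset.range (n + 1 + 2), ee (x k)
        - (1 - klC (x (n + 1 + 1) - x (n + 1) - c)) * ee (x (n + 1 + 1))
        = (∑ k ∈ Finset.range (n + 2), ee (x k)
          - (1 - klC (x (n + 1) - x n - c)) * ee (x (n + 1)))
        + (klC (x (n + 1 + 1) - x (n + 1) - c) - klC (x (n + 1) - x n - c)) * ee (x (n + 1)) := by
      rw [Finset.sum_range_succ]
      linear_combination e1
    rw [e2]
    refine (norm_add_le _ _).trans ?_
    rw [norm_mul, kl_norm_ee, mul_one]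
    have e3 := kl_sub (t := x (n + 1) - x n - c) (t' := x (n + 1 + 1) - x (n + 1) - c) hθ
      (by linarith [h1 n (by omega)])
      (by
        have := hmono n (by omega)
        linarith)
      (by linarith [h2 (n + 1) (by omega)])
    rw [e3]
    linarith

/-- Differences `Δ n = φ (n+1) - φ n` monotone and in `[c + θ, c + 1 - θ]` with `c` an integer. With
`C_n = 1 / (1 - ee (Δ n)) = (1 + i cot (π Δ n)) / 2`:
`∑_{n=a}^{b} ee(φ n) = ∑_{n=a}^{b-1} (ee(φ n) - ee(φ (n+1))) C_n + ee(φ b)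
= C_a ee(φ a) + ∑_{n=a+1}^{b-1} (C_n - C_{n-1}) ee(φ n) + (1 - C_{b-1}) ee(φ b)`, `|C_n|, |1 - C_n| ≤
1 / (4 θ)` (`|sin (π Δ)| ≥ 2 θ`), and `∑ |C_n - C_{n-1}| = |cot(π Δ_{b-1}) - cot (π Δ_a)| / 2 ≤ 1 / (2 θ)`
by monotonicity. -/
theorem kusmin_landau (φ : ℤ → ℝ) (a b : ℤ) (hab : a ≤ b) (θ : ℝ) (hθ : 0 < θ) (hθ' : θ ≤ 1 / 2)
    (c : ℤ) (hmono : ∀ n, a ≤ n → n + 1 < b → φ (n + 1) - φ n ≤ φ (n + 2) - φ (n + 1))
    (h1 : ∀ n, a ≤ n → n < b → (c : ℝ) + θ ≤ φ (n + 1) - φ n)
    (h2 : ∀ n, a ≤ n → n < b → φ (n + 1) - φ n ≤ (c : ℝ) + 1 - θ) :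
    ‖∑ n ∈ Finset.Icc a b, ee (φ n)‖ ≤ 1 / θ := by
  obtain ⟨N, rfl⟩ := Int.le.dest hab
  rw [kl_sum_Icc]
  rcases N with _ | n
  · simp only [zero_add, Finset.sum_range_one, kl_norm_ee]
    rw [le_div_iff₀ hθ]
    linarith
  · set x : ℕ → ℝ := fun k => φ (a + k) with hx
    have hx1 : ∀ k : ℕ, x (k + 1) = φ (a + k + 1) := by
      intro k
      simp only [hx]
      congr 1
      push_cast
      ring
    have hx2 : ∀ k : ℕ, x (k + 2) = φ (a + k + 2) := by
      intro k
      simp only [hx]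
      congr 1
      push_cast
      ring
    have hm' : ∀ k : ℕ, k + 1 < n + 1 → x (k + 1) - x k ≤ x (k + 2) - x (k + 1) := by
      intro k hk
      rw [hx1, hx2]
      exact hmono (a + k) (by omega) (by push_cast; omega)
    have h1' : ∀ k : ℕ, k < n + 1 → (c : ℝ) + θ ≤ x (k + 1) - x k := by
      intro k hk
      rw [hx1]
      exact h1 (a + k) (by omega) (by push_cast; omega)
    have h2' : ∀ k : ℕ, k < n + 1 → x (k + 1) - x k ≤ (c : ℝ) + 1 - θ := by
      intro k hk
      rw [hx1]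
      exact h2 (a + k) (by omega) (by push_cast; omega)
    have hmain := kl_range x (n + 1) θ hθ c hm' h1' h2' n le_rfl
    have hC := (kl_norm_C (t := x (n + 1) - x n - c) hθ (by linarith [h1' n (by omega)])
      (by linarith [h2' n (by omega)])).2
    have hc1 := (abs_le.1 (kl_cot_bound (t := x (n + 1) - x n - c) hθ
      (by linarith [h1' n (by omega)]) (by linarith [h2' n (by omega)]))).1
    have hc2 := (abs_le.1 (kl_cot_bound (t := x 1 - x 0 - c) hθ
      (by
        have := h1' 0 (by omega)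
        simp only [zero_add] at this
        linarith)
      (by
        have := h2' 0 (by omega)
        simp only [zero_add] at this
        linarith))).2
    have e1 : ∑ k ∈ Finset.range (n + 1 + 1), ee (φ (a + k))
        = (∑ k ∈ Finset.range (n + 2), ee (x k)
          - (1 - klC (x (n + 1) - x n - c)) * ee (x (n + 1)))
          + (1 - klC (x (n + 1) - x n - c)) * ee (x (n + 1)) := by
      simp only [hx]
      ring
    rw [e1]
    refine (norm_add_le _ _).trans ?_
    rw [norm_mul, kl_norm_ee, mul_one]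
    have e2 : 1 / θ = 1 / (4 * θ) + 1 / (4 * θ) + (1 / (2 * θ) + 1 / (2 * θ)) / 2 := by
      field_simp
      ring
    rw [e2]
    linarith

end Pool.Agent.GaussMR
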