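import Mathlib

/-!
# Piece MERTONE: Mertens' first theorem
-/

set_option autoImplicit false

namespace Pool.Agent.GaussMR

open Finset in
/-- `log N! = ∑_{n ≤ N} Λ(n) ⌊N/n⌋`. -/
theorem mert_one_log_factorial (N : ℕ) :
    Real.log (N.factorial : ℝ)
      = ∑ d ∈ Finset.Icc 1 N, ArithmeticFunction.vonMangoldt d * ((N / d : ℕ) : ℝ) := by
  have h1 : Real.log (N.factorial : ℝ) = ∑ k ∈ Finset.Icc 1 N, Real.log (k : ℝ) := by
    rw [← Finset.prod_Ico_id_eq_factorial, show Finset.Ico 1 (N + 1) = Finset.Icc 1 N by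
      ext x
      simp only [Finset.mem_Ico, Finset.mem_Icc]
      omega]
    push_cast
    rw [Real.log_prod]
    intro k hk
    have : 1 ≤ k := (Finset.mem_Icc.1 hk).1
    positivity
  rw [h1]
  have h2 : ∀ k ∈ Finset.Icc 1 N, Real.log (k : ℝ)
      = ∑ d ∈ Finset.Icc 1 N, if d ∣ k then ArithmeticFunction.vonMangoldt d else 0 := by
    intro k hk
    have hk1 : 1 ≤ k := (Finset.mem_Icc.1 hk).1
    have hk2 : k ≤ N := (Finset.mem_Icc.1 hk).2
    rw [← ArithmeticFunction.vonMangoldt_sum, ← Finset.sum_filter]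
    apply Finset.sum_congr _ fun _ _ => rfl
    ext d
    simp only [Nat.mem_divisors, Finset.mem_filter, Finset.mem_Icc]
    constructor
    · rintro ⟨hd, hk0⟩
      exact ⟨⟨Nat.pos_of_dvd_of_pos hd (by omega), (Nat.le_of_dvd (by omega) hd).trans hk2⟩, hd⟩
    · rintro ⟨_, hd⟩
      exact ⟨hd, by omega⟩
  rw [Finset.sum_congr rfl h2, Finset.sum_comm]
  refine Finset.sum_congr rfl fun d hd => ?_
  rw [← Finset.sum_filter, Finset.sum_const, nsmul_eq_mul, mul_comm]
  congr 2
  rw [← Nat.Ioc_filter_dvd_card_eq_div N d]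
  congr 1

/-- From `log N! = ∑_{n ≤ N} Λ(n) ⌊N/n⌋ = N log N + O(N)` and `∑_{n ≤ N} Λ(n) ≤ C N` (Chebyshev). -/
theorem mert_one : ∃ C : ℝ, ∀ N : ℕ, 1 ≤ N →
    |∑ n ∈ Finset.Icc 1 N, ArithmeticFunction.vonMangoldt n / (n : ℝ) - Real.log N| ≤ C := by
  refine ⟨Real.log 4 + 4, fun N hN => ?_⟩
  have hNpos : (0 : ℝ) < N := by exact_mod_cast hN
  have hfac := mert_one_log_factorial N
  set S := ∑ n ∈ Finset.Icc 1 N, ArithmeticFunction.vonMangoldt n / (n : ℝ) with hS
  have hfpos : (0 : ℝ) < (N.factorial : ℝ) := by exact_mod_cast N.factorial_pos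
  -- bounds of the factorial
  have hlow : (N : ℝ) * Real.log N - N ≤ Real.log (N.factorial : ℝ) := by
    have h1 := Real.pow_div_factorial_le_exp (N : ℝ) hNpos.le N
    have h2 := Real.log_le_log (by positivity) h1
    rw [Real.log_exp, Real.log_div (by positivity) hfpos.ne', Real.log_pow] at h2
    linarith
  have hup : Real.log (N.factorial : ℝ) ≤ (N : ℝ) * Real.log N := by
    have h1 : (N.factorial : ℝ) ≤ (N : ℝ) ^ N := by exact_mod_cast Nat.factorial_le_pow N
    have h2 := Real.log_le_log hfpos h1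
    rwa [Real.log_pow] at h2
  -- comparison of the sum with the floor
  have hNS : (N : ℝ) * S = ∑ d ∈ Finset.Icc 1 N,
      ArithmeticFunction.vonMangoldt d * ((N : ℝ) / d) := by
    rw [hS, Finset.mul_sum]
    exact Finset.sum_congr rfl fun d _ => by ring
  have hge : Real.log (N.factorial : ℝ) ≤ (N : ℝ) * S := by
    rw [hfac, hNS]
    refine Finset.sum_le_sum fun d _ => ?_
    exact mul_le_mul_of_nonneg_left Nat.cast_div_le ArithmeticFunction.vonMangoldt_nonneg
  have hpsi : ∑ d ∈ Finset.Icc 1 N, ArithmeticFunction.vonMangoldt d ≤ (Real.log 4 + 4) * N := by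
    have h1 := Chebyshev.psi_le_const_mul_self (x := (N : ℝ)) hNpos.le
    refine le_trans (le_of_eq ?_) h1
    unfold Chebyshev.psi
    rw [Nat.floor_natCast]
    rfl
  have hle : (N : ℝ) * S ≤ Real.log (N.factorial : ℝ) + (Real.log 4 + 4) * N := by
    refine le_trans ?_ (add_le_add_right hpsi _)
    rw [hfac, hNS, ← Finset.sum_add_distrib]
    refine Finset.sum_le_sum fun d hd => ?_
    have hd1 : 1 ≤ d := (Finset.mem_Icc.1 hd).1
    have hdpos : (0 : ℝ) < d := by exact_mod_cast hd1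
    have h3 : (N : ℝ) / d ≤ ((N / d : ℕ) : ℝ) + 1 := by
      rw [div_le_iff₀ hdpos]
      have h4 : N < d * (N / d + 1) := Nat.lt_mul_div_succ N hd1
      have h5 : (N : ℝ) < d * (((N / d : ℕ) : ℝ) + 1) := by exact_mod_cast h4
      linarith
    calc ArithmeticFunction.vonMangoldt d * ((N : ℝ) / d)
        ≤ ArithmeticFunction.vonMangoldt d * (((N / d : ℕ) : ℝ) + 1) :=
          mul_le_mul_of_nonneg_left h3 ArithmeticFunction.vonMangoldt_nonneg
      _ = _ := by ring
  have hlog4 : 0 ≤ Real.log 4 := Real.log_nonneg (by norm_num)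
  rw [abs_le]
  constructor
  · have h5 : (N : ℝ) * (Real.log N - 1) ≤ N * S := by linarith
    have h6 := le_of_mul_le_mul_left h5 hNpos
    linarith
  · have h5 : (N : ℝ) * S ≤ N * (Real.log N + (Real.log 4 + 4)) := by linarith
    have h6 := le_of_mul_le_mul_left h5 hNpos
    linarith

end Pool.Agent.GaussMR
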