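import Pool.Agent.Lib_MP_f1a94e_mr.Block
import Pool.Agent.Lib_MP_f1a94e_mr.MidJa

/-!
# Piece MIDJ: the sum of `xi j` over a disc, `t^(3/20) ≤ |j| ≤ t^(11/5)`
-/

set_option autoImplicit false

namespace Pool.Agent.GaussMR

theorem row_bound : ∃ C : ℝ, 0 < C ∧ ∀ (q : ℕ), 2 ≤ q → q ≤ 5 → ∀ (r : ℝ) (j : ℤ) (b : ℕ) (s : ℕ),
    1 ≤ r → r ^ ((q : ℝ) - 17 / 10) ≤ |(j : ℝ)| → |(j : ℝ)| ≤ r ^ ((q : ℝ) - 2 ^ q / 64 - 1 / 100) →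
    r ^ (1 - 1 / 2000 : ℝ) ≤ b → (s : ℝ) ^ 2 + (b : ℝ) ^ 2 ≤ r ^ 2 →
    ‖∑ x ∈ Finset.Icc (-(s : ℤ)) s, xi j ⟨x, b⟩‖ ≤ C * r ^ (1 - 1 / 8000 : ℝ) :=
  row_bound_of block

theorem mid_j : ∃ C : ℝ, 0 < C ∧ ∀ (t : ℝ) (j : ℤ), 1 ≤ t → t ^ (3 / 20 : ℝ) ≤ |(j : ℝ)| →
    |(j : ℝ)| ≤ t ^ (11 / 5 : ℝ) → ‖∑ z ∈ ball t, xi j z‖ ≤ C * t ^ (1 - 1 / 16000 : ℝ) :=
  mid_j_of row_bound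

end Pool.Agent.GaussMR
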