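import Pool.Agent.Lib_MP_f1a94e_mr.Basic

/-!
# Piece SPACE: the directions of `V X` are `1 / X`-separated; primitive parts
-/

set_option autoImplicit false

namespace Pool.Agent.GaussMR

/-- parallel primitive vectors are equal up to sign -/
theorem parallel_prim (z w : G) (hz : Prim z) (hw : Prim w) (h : det z w = 0) :
    w = z ∨ w = -z := by
  obtain ⟨α, β, hab⟩ := hz
  unfold det at h
  set c := α * w.re + β * w.im with hc
  have h1 : w.re = z.re * c := by
    rw [hc]
    linear_combination (-w.re) * hab - β * h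
  have h2 : w.im = z.im * c := by
    rw [hc]
    linear_combination (-w.im) * hab + α * h
  have hu : IsUnit c := by
    refine hw.isUnit_of_dvd' ?_ ?_
    · rw [h1]; exact dvd_mul_left _ _
    · rw [h2]; exact dvd_mul_left _ _
  rcases Int.isUnit_iff.1 hu with h3 | h3
  · left
    apply Zsqrtd.ext
    · rw [h1, h3, mul_one]
    · rw [h2, h3, mul_one]
  · right
    apply Zsqrtd.ext
    · rw [h1, h3]; simp
    · rw [h2, h3]; simp

theorem toComplex_re' (z : G) : (z : ℂ).re = z.re := GaussianInt.intCast_re z |>.symm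

theorem toComplex_im' (z : G) : (z : ℂ).im = z.im := GaussianInt.intCast_im z |>.symm

/-- the distance of two directions is at least the sine of the angle -/
theorem det_le_dist (z w : G) (hz : z ≠ 0) (hw : w ≠ 0) :
    |(det z w : ℝ)| ≤ ‖dir z - dir w‖ * (‖(z : ℂ)‖ * ‖(w : ℂ)‖) := by
  have hz0 := norm_pos hz
  have hw0 := norm_pos hw
  have h1 : ((starRingEnd ℂ) (dir z) * dir w).im = (det z w : ℝ) / (‖(z : ℂ)‖ * ‖(w : ℂ)‖) := by
    unfold dir
    rw [map_div₀, Complex.conj_ofReal, div_mul_div_comm, ← Complex.ofReal_mul,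
      Complex.div_ofReal_im]
    congr 1
    rw [Complex.mul_im, Complex.conj_re, Complex.conj_im, toComplex_re', toComplex_re',
      toComplex_im', toComplex_im']
    unfold det
    push_cast
    ring
  have h2 : ((starRingEnd ℂ) (dir z) * dir w).im =
      ((starRingEnd ℂ) (dir z) * (dir w - dir z)).im := by
    rw [mul_sub, Complex.sub_im]
    have h3 : ((starRingEnd ℂ) (dir z) * dir z).im = 0 := by
      rw [mul_comm, Complex.mul_conj]
      exact Complex.ofReal_im _
    rw [h3, sub_zero]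
  have h4 : |((starRingEnd ℂ) (dir z) * dir w).im| ≤ ‖dir z - dir w‖ := by
    rw [h2]
    refine (Complex.abs_im_le_norm _).trans ?_
    rw [norm_mul, Complex.norm_conj, norm_dir hz, one_mul, norm_sub_rev]
  rw [h1, abs_div, abs_of_pos (mul_pos hz0 hw0), div_le_iff₀ (mul_pos hz0 hw0)] at h4
  exact h4

/-- `‖dir z - dir w‖ ≥ |det z w| / (|z| |w|)`, and `det z w = 0` only for `w = ± z` -/
theorem spaced (X : ℝ) (z w : G) (hz : z ∈ V X) (hw : w ∈ V X) (hne : z ≠ w) :
    1 / X ≤ ‖dir z - dir w‖ := by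
  obtain ⟨hzX, hzo, hzp⟩ := mem_V.1 hz
  obtain ⟨hwX, hwo, hwp⟩ := mem_V.1 hw
  have hz0 := ne_zero_of_odd hzo
  have hw0 := ne_zero_of_odd hwo
  have hnz : (1 : ℝ) ≤ nm z := by exact_mod_cast nm_pos hz0
  have hX : 1 ≤ X := hnz.trans hzX
  have hXpos : 0 < X := by linarith
  by_cases hdet : det z w = 0
  · rcases parallel_prim z w hzp hwp hdet with h | h
    · exact absurd h.symm hne
    · rw [h, dir_neg, sub_neg_eq_add, ← two_mul, norm_mul, norm_dir hz0, mul_one]
      have h1 : 1 / X ≤ 1 := by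
        rw [div_le_one hXpos]
        exact hX
      have h2 : ‖(2 : ℂ)‖ = 2 := by simp
      rw [h2]
      linarith
  · have h1 := det_le_dist z w hz0 hw0
    have h2 : (1 : ℝ) ≤ |(det z w : ℝ)| := by
      rw [← Int.cast_abs]
      exact_mod_cast Int.one_le_abs hdet
    have h3 : ‖(z : ℂ)‖ * ‖(w : ℂ)‖ ≤ X := by
      rw [norm_eq_sqrt, norm_eq_sqrt, ← Real.sqrt_mul (Nat.cast_nonneg _)]
      rw [Real.sqrt_le_left (by linarith), sq]
      exact mul_le_mul hzX hwX (Nat.cast_nonneg _) (by linarith)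
    rw [div_le_iff₀ hXpos]
    have h4 : 0 ≤ ‖dir z - dir w‖ := norm_nonneg _
    nlinarith

/-- the primitive part: `z = g * pr z` with `g = gcd(re, im) > 0` -/
theorem pr_spec (z : G) (hz : z ≠ 0) :
    z = ((Int.gcd z.re z.im : ℕ) : G) * pr z ∧ 0 < Int.gcd z.re z.im ∧ Prim (pr z) := by
  have hg : 0 < Int.gcd z.re z.im := by
    rw [Int.gcd_pos_iff]
    by_contra h
    push Not at h
    exact hz (Zsqrtd.ext h.1 h.2)
  refine ⟨?_, hg, ?_⟩
  · have h1 : (Int.gcd z.re z.im : ℤ) * (z.re / Int.gcd z.re z.im) = z.re :=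
      Int.mul_ediv_cancel' (Int.gcd_dvd_left _ _)
    have h2 : (Int.gcd z.re z.im : ℤ) * (z.im / Int.gcd z.re z.im) = z.im :=
      Int.mul_ediv_cancel' (Int.gcd_dvd_right _ _)
    unfold pr
    apply Zsqrtd.ext
    · simp only [Zsqrtd.re_mul, Zsqrtd.re_natCast, Zsqrtd.im_natCast]
      linarith
    · simp only [Zsqrtd.im_mul, Zsqrtd.re_natCast, Zsqrtd.im_natCast]
      linarith
  · unfold Prim pr
    rw [Int.isCoprime_iff_gcd_eq_one]
    exact Int.gcd_div_gcd_div_gcd hg

theorem nm_natCast (n : ℕ) : nm (n : G) = n ^ 2 := by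
  have h : (nm (n : G) : ℤ) = (n ^ 2 : ℕ) := by
    rw [nm_eq]
    simp
  exact_mod_cast h

theorem nm_pr_mul (z : G) (hz : z ≠ 0) : nm z = Int.gcd z.re z.im ^ 2 * nm (pr z) := by
  have h := (pr_spec z hz).1
  conv_lhs => rw [h]
  rw [nm_mul, nm_natCast]

theorem nm_pr_le (z : G) : nm (pr z) ≤ nm z := by
  by_cases hz : z = 0
  · subst hz
    have : pr 0 = 0 := by
      unfold pr
      apply Zsqrtd.ext <;> simp
    rw [this]
  · rw [nm_pr_mul z hz]
    have := (pr_spec z hz).2.1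
    have h1 : 1 ≤ Int.gcd z.re z.im ^ 2 := Nat.one_le_pow _ _ this
    nlinarith

theorem odd_pr (z : G) (hz : Odd (nm z)) : Odd (nm (pr z)) := by
  rw [nm_pr_mul z (ne_zero_of_odd hz)] at hz
  exact (Nat.odd_mul.1 hz).2

theorem xi_pr (k : ℤ) (z : G) (hz : z ≠ 0) : xi k (pr z) = xi k z := by
  obtain ⟨h1, h2, _⟩ := pr_spec z hz
  conv_rhs => rw [h1]
  exact (xi_natCast_mul k h2 (pr z)).symm

theorem pr_eq_self (z : G) (hz : Prim z) : pr z = z := by
  unfold Prim at hz
  rw [Int.isCoprime_iff_gcd_eq_one] at hz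
  unfold pr
  rw [hz]
  apply Zsqrtd.ext <;> simp

/-- the primitive part of an odd `z` of norm at most `X` lies in `V X` -/
theorem pr_mem_V (X : ℝ) (z : G) (hz : Odd (nm z)) (hX : (nm z : ℝ) ≤ X) : pr z ∈ V X := by
  rw [mem_V]
  refine ⟨?_, odd_pr z hz, (pr_spec z (ne_zero_of_odd hz)).2.2⟩
  have : (nm (pr z) : ℝ) ≤ nm z := by exact_mod_cast nm_pr_le z
  exact this.trans hX

end Pool.Agent.GaussMR
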