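import Pool.Agent.Lib_MP_f1a94e_mr.Consec
import Pool.Agent.Lib_MP_f1a94e_mr.Circ
import Pool.Agent.Lib_MP_f1a94e_mr.Space

/-!
# Piece PAIRS: close pairs with different signs
-/

set_option autoImplicit false

namespace Pool.Agent.GaussMR

/-- the sine of the angle between two directions -/
theorem im_conj_dir (z w : G) : ((starRingEnd ℂ) (dir z) * dir w).im =
    (det z w : ℝ) / (‖(z : ℂ)‖ * ‖(w : ℂ)‖) := by
  unfold dir
  rw [map_div₀, Complex.conj_ofReal, div_mul_div_comm, ← Complex.ofReal_mul,
    Complex.div_ofReal_im]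
  congr 1
  rw [Complex.mul_im, Complex.conj_re, Complex.conj_im, toComplex_re', toComplex_re',
    toComplex_im', toComplex_im']
  unfold det
  push_cast
  ring

theorem im_conj_dir_pos {z w : G} (hz : z ≠ 0) (hw : w ≠ 0) (h : 0 < det z w) :
    0 < ((starRingEnd ℂ) (dir z) * dir w).im := by
  rw [im_conj_dir]
  have h1 : (0 : ℝ) < det z w := by exact_mod_cast h
  exact div_pos h1 (mul_pos (norm_pos hz) (norm_pos hw))

theorem normsq_sub_unit (p q : ℂ) (hp : ‖p‖ = 1) (hq : ‖q‖ = 1) :
    ‖p - q‖ ^ 2 = 2 - 2 * ((starRingEnd ℂ) p * q).re := by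
  have h1 : p.re * p.re + p.im * p.im = 1 := by
    rw [← Complex.normSq_apply, Complex.normSq_eq_norm_sq, hp, one_pow]
  have h2 : q.re * q.re + q.im * q.im = 1 := by
    rw [← Complex.normSq_apply, Complex.normSq_eq_norm_sq, hq, one_pow]
  rw [← Complex.normSq_eq_norm_sq, Complex.normSq_apply, Complex.sub_re, Complex.sub_im,
    Complex.mul_re, Complex.conj_re, Complex.conj_im]
  linear_combination h1 + h2

/-- a point on a short arc is close to both end points -/
theorem arc_near (p q r : ℂ) (hp : ‖p‖ = 1) (hq : ‖q‖ = 1) (hr : ‖r‖ = 1)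
    (h1 : 0 < ((starRingEnd ℂ) p * q).im) (h2 : 0 < ((starRingEnd ℂ) p * r).im)
    (h3 : 0 < ((starRingEnd ℂ) r * q).im) (hle : ‖p - q‖ ≤ 1) :
    ‖p - r‖ ≤ ‖p - q‖ ∧ ‖q - r‖ ≤ ‖p - q‖ := by
  set a := (starRingEnd ℂ) p * q with ha
  set b := (starRingEnd ℂ) p * r with hb
  have hpp : p * (starRingEnd ℂ) p = 1 := by
    rw [Complex.mul_conj, Complex.normSq_eq_norm_sq, hp]
    simp
  have hrq : (starRingEnd ℂ) r * q = (starRingEnd ℂ) b * a := by
    rw [ha, hb, map_mul, Complex.conj_conj]
    calc (starRingEnd ℂ) r * q = (p * (starRingEnd ℂ) p) * ((starRingEnd ℂ) r * q) := by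
          rw [hpp, one_mul]
      _ = _ := by ring
  have hna : a.re * a.re + a.im * a.im = 1 := by
    rw [← Complex.normSq_apply, Complex.normSq_eq_norm_sq, ha, norm_mul, Complex.norm_conj, hp, hq]
    norm_num
  have hnb : b.re * b.re + b.im * b.im = 1 := by
    rw [← Complex.normSq_apply, Complex.normSq_eq_norm_sq, hb, norm_mul, Complex.norm_conj, hp, hr]
    norm_num
  have e1 := normsq_sub_unit p q hp hq
  have e2 := normsq_sub_unit p r hp hr
  have e3 := normsq_sub_unit q r hq hr
  have e4 : ((starRingEnd ℂ) q * r).re = a.re * b.re + a.im * b.im := by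
    have h5 : (starRingEnd ℂ) q * r = (starRingEnd ℂ) ((starRingEnd ℂ) r * q) := by
      rw [map_mul, Complex.conj_conj, mul_comm]
    rw [h5, hrq, Complex.conj_re, Complex.mul_re, Complex.conj_re, Complex.conj_im]
    ring
  have h3' : 0 < b.re * a.im - b.im * a.re := by
    rw [hrq, Complex.mul_im, Complex.conj_re, Complex.conj_im] at h3
    linarith
  rw [← ha] at e1
  rw [← hb] at e2
  rw [e4] at e3
  have hc : 1 / 2 ≤ a.re := by
    have h5 : ‖p - q‖ ^ 2 ≤ 1 := by
      have := norm_nonneg (p - q)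
      nlinarith
    linarith
  have hcb : a.re ≤ b.re := by
    by_contra hlt
    push Not at hlt
    rcases le_or_gt b.re 0 with hb0 | hb0
    · nlinarith
    · have hs : a.im < b.im := by
        by_contra h6
        push Not at h6
        nlinarith
      nlinarith
  have hb1 : b.re ≤ 1 := by nlinarith
  have hd : a.re ≤ a.re * b.re + a.im * b.im := by
    have h7 : a.re = (a.re * b.re + a.im * b.im) * b.re - (b.re * a.im - b.im * a.re) * b.im := by
      linear_combination (-a.re) * hnb
    have h8 : 0 ≤ a.re * b.re + a.im * b.im := by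
      have : 0 ≤ b.re := by linarith
      have h9 : 0 ≤ a.re * b.re := by positivity
      have h10 : 0 ≤ a.im * b.im := by positivity
      linarith
    have h9 : 0 < (b.re * a.im - b.im * a.re) * b.im := mul_pos h3' h2
    nlinarith
  constructor
  · apply le_of_sq_le_sq _ (norm_nonneg _)
    rw [e1, e2]
    linarith
  · apply le_of_sq_le_sq _ (norm_nonneg _)
    rw [e1, e3]
    linarith

theorem det_identity (z w u v : G) :
    det z u * det v w = det z w * det v u + det u w * det z v := by
  unfold det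
  ring

open Classical in
/-- between two vectors with different signs there is a consecutive pair with different signs -/
theorem exists_consec (F : G → ℝ) (X : ℝ) : ∀ n : ℕ, ∀ z w : G, z ∈ V X → w ∈ V X →
    0 < det z w → F z ≠ F w →
    ((V X).filter (fun u => 0 < det z u ∧ 0 < det u w)).card = n →
    ∃ a b, Consec X a b ∧ F a ≠ F b ∧ (a = z ∨ (a ∈ V X ∧ 0 < det z a ∧ 0 < det a w)) := by
  intro n
  induction n using Nat.strong_induction_on with
  | _ n ih =>
    intro z w hz hw hdet hF hn
    by_cases hS : ∃ u ∈ V X, 0 < det z u ∧ 0 < det u w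
    · obtain ⟨u, hu, hzu, huw⟩ := hS
      have humem : u ∈ (V X).filter (fun u => 0 < det z u ∧ 0 < det u w) :=
        Finset.mem_filter.2 ⟨hu, hzu, huw⟩
      by_cases hFu : F z = F u
      · -- the pair `(u, w)`
        have hF' : F u ≠ F w := by rw [← hFu]; exact hF
        have hsub : ∀ v, 0 < det u v → 0 < det v w → 0 < det z v := by
          intro v h1 h2
          -- `det z v * det u w = det z w * det u v + det v w * det z u`
          have h3 := det_identity z w v u
          have h4 : 0 < det z v * det u w := by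
            rw [h3]
            have h5 : 0 < det z w * det u v := mul_pos hdet h1
            have h6 : 0 < det v w * det z u := mul_pos h2 hzu
            linarith
          exact (pos_iff_pos_of_mul_pos h4).2 huw
        have hlt : ((V X).filter (fun v => 0 < det u v ∧ 0 < det v w)).card < n := by
          rw [← hn]
          apply Finset.card_lt_card
          rw [Finset.ssubset_iff_of_subset]
          · refine ⟨u, humem, ?_⟩
            rw [Finset.mem_filter, det_self]
            exact fun h => lt_irrefl _ h.2.1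
          · intro v hv
            rw [Finset.mem_filter] at hv ⊢
            exact ⟨hv.1, hsub v hv.2.1 hv.2.2, hv.2.2⟩
        obtain ⟨a, b, hab, hFab, ha⟩ := ih _ hlt u w hu hw huw hF' rfl
        refine ⟨a, b, hab, hFab, Or.inr ?_⟩
        rcases ha with rfl | ⟨ha1, ha2, ha3⟩
        · exact ⟨hu, hzu, huw⟩
        · exact ⟨ha1, hsub a ha2 ha3, ha3⟩
      · -- the pair `(z, u)`
        have hsub : ∀ v, 0 < det z v → 0 < det v u → 0 < det v w := by
          intro v h1 h2
          have h3 := det_identity z w u v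
          have h4 : 0 < det z u * det v w := by
            rw [h3]
            have h5 : 0 < det z w * det v u := mul_pos hdet h2
            have h6 : 0 < det u w * det z v := mul_pos huw h1
            linarith
          exact (pos_iff_pos_of_mul_pos h4).1 hzu
        have hlt : ((V X).filter (fun v => 0 < det z v ∧ 0 < det v u)).card < n := by
          rw [← hn]
          apply Finset.card_lt_card
          rw [Finset.ssubset_iff_of_subset]
          · refine ⟨u, humem, ?_⟩
            rw [Finset.mem_filter, det_self]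
            exact fun h => lt_irrefl _ h.2.2
          · intro v hv
            rw [Finset.mem_filter] at hv ⊢
            exact ⟨hv.1, hv.2.1, hsub v hv.2.1 hv.2.2⟩
        obtain ⟨a, b, hab, hFab, ha⟩ := ih _ hlt z u hz hu hzu hFu rfl
        refine ⟨a, b, hab, hFab, ?_⟩
        rcases ha with rfl | ⟨ha1, ha2, ha3⟩
        · exact Or.inl rfl
        · exact Or.inr ⟨ha1, ha2, hsub a ha2 ha3⟩
    · push Not at hS
      refine ⟨z, w, ⟨hz, hw, hdet, ?_⟩, hF, Or.inl rfl⟩
      rintro u hu ⟨h1, h2⟩
      exact absurd h2 (not_lt.2 (hS u hu h1))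

open Classical in
theorem pairs_le : ∃ C : ℝ, 0 < C ∧ ∀ (F : G → ℝ), PM F → ∀ (X η : ℝ), 1 ≤ X → 0 ≤ η → η ≤ 1 →
    (((V X ×ˢ V X).filter (fun p => F p.1 ≠ F p.2 ∧ ‖dir p.1 - dir p.2‖ ≤ η)).card : ℝ) ≤
      C * (1 + η * X) ^ 2 * (edges F X).card := by
  refine ⟨32, by norm_num, ?_⟩
  intro F hF X η hX hη hη1
  have hX0 : 0 < X := by linarith
  set P := (V X ×ˢ V X).filter (fun p => F p.1 ≠ F p.2 ∧ ‖dir p.1 - dir p.2‖ ≤ η) with hP
  set Pp := P.filter (fun p => 0 < det p.1 p.2) with hPp
  set E := (V X ×ˢ V X).filter (fun p => Consec X p.1 p.2 ∧ F p.1 ≠ F p.2) with hE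
  set nr : G → Finset G := fun a => (V X).filter (fun z => ‖dir z - dir a‖ ≤ η) with hnr
  -- number of near points
  have hnear : ∀ a ∈ V X, ((nr a).card : ℝ) ≤ 4 * (1 + η * X) := by
    intro a ha
    have h1 := count_near (nr a) dir (1 / X) (by positivity)
      (fun z hz => norm_dir (V_ne_zero (Finset.mem_filter.1 hz).1))
      (fun z hz w hw hne => spaced X z w (Finset.mem_filter.1 hz).1 (Finset.mem_filter.1 hw).1 hne)
      (dir a) (norm_dir (V_ne_zero ha)) η hη (fun z hz => (Finset.mem_filter.1 hz).2)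
    have h2 : η / (1 / X) = η * X := by field_simp
    rw [h2] at h1
    exact h1
  -- the positive pairs are covered
  have hcov : Pp ⊆ E.biUnion (fun e => nr e.1 ×ˢ nr e.1) := by
    intro p hp
    obtain ⟨hpP, hdet⟩ := Finset.mem_filter.1 hp
    obtain ⟨hpV, hpF, hpn⟩ := Finset.mem_filter.1 hpP
    obtain ⟨hz, hw⟩ := Finset.mem_product.1 hpV
    obtain ⟨a, b, hab, hFab, ha⟩ := exists_consec F X _ p.1 p.2 hz hw hdet hpF rfl
    rw [Finset.mem_biUnion]
    refine ⟨(a, b), Finset.mem_filter.2 ⟨Finset.mem_product.2 ⟨hab.1, hab.2.1⟩, hab, hFab⟩, ?_⟩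
    rw [Finset.mem_product]
    rcases ha with rfl | ⟨haV, ha1, ha2⟩
    · refine ⟨Finset.mem_filter.2 ⟨hz, ?_⟩, Finset.mem_filter.2 ⟨hw, ?_⟩⟩
      · simpa using hη
      · show ‖dir p.2 - dir p.1‖ ≤ η
        rw [norm_sub_rev]
        exact hpn
    · have hz0 := V_ne_zero hz
      have hw0 := V_ne_zero hw
      have ha0 := V_ne_zero haV
      have h1 := arc_near (dir p.1) (dir p.2) (dir a) (norm_dir hz0) (norm_dir hw0) (norm_dir ha0)
        (im_conj_dir_pos hz0 hw0 hdet) (im_conj_dir_pos hz0 ha0 ha1) (im_conj_dir_pos ha0 hw0 ha2)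
        (hpn.trans hη1)
      exact ⟨Finset.mem_filter.2 ⟨hz, h1.1.trans hpn⟩, Finset.mem_filter.2 ⟨hw, h1.2.trans hpn⟩⟩
  have hPpc : (Pp.card : ℝ) ≤ (edges F X).card * (16 * (1 + η * X) ^ 2) := by
    have h1 : (Pp.card : ℝ) ≤ ∑ e ∈ E, ((nr e.1 ×ˢ nr e.1).card : ℝ) := by
      have h2 := (Finset.card_le_card hcov).trans Finset.card_biUnion_le
      exact_mod_cast h2
    refine h1.trans ?_
    have h3 : ∀ e ∈ E, ((nr e.1 ×ˢ nr e.1).card : ℝ) ≤ 16 * (1 + η * X) ^ 2 := by
      intro e he
      have haV := (Finset.mem_product.1 (Finset.mem_filter.1 he).1).1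
      have h4 := hnear e.1 haV
      rw [Finset.card_product]
      push_cast
      have h5 : (0 : ℝ) ≤ (nr e.1).card := Nat.cast_nonneg _
      calc ((nr e.1).card : ℝ) * (nr e.1).card ≤ (4 * (1 + η * X)) * (4 * (1 + η * X)) :=
            mul_le_mul h4 h4 h5 (h5.trans h4)
        _ = _ := by ring
    calc ∑ e ∈ E, ((nr e.1 ×ˢ nr e.1).card : ℝ) ≤ ∑ e ∈ E, 16 * (1 + η * X) ^ 2 :=
          Finset.sum_le_sum h3
      _ = E.card * (16 * (1 + η * X) ^ 2) := by rw [Finset.sum_const, nsmul_eq_mul]
      _ ≤ (edges F X).card * (16 * (1 + η * X) ^ 2) := by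
          refine mul_le_mul_of_nonneg_right ?_ (by positivity)
          exact_mod_cast consec_card F hF X
  -- the two orders
  have hPc : P.card ≤ 2 * Pp.card := by
    have h1 : P ⊆ Pp ∪ Pp.image Prod.swap := by
      intro p hp
      obtain ⟨hpV, hpF, hpn⟩ := Finset.mem_filter.1 hp
      obtain ⟨hz, hw⟩ := Finset.mem_product.1 hpV
      rw [Finset.mem_union]
      rcases lt_trichotomy 0 (det p.1 p.2) with h | h | h
      · exact Or.inl (Finset.mem_filter.2 ⟨hp, h⟩)
      · exfalso
        rcases parallel_prim p.1 p.2 (mem_V.1 hz).2.2 (mem_V.1 hw).2.2 h.symm with h' | h'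
        · exact hpF (by rw [h'])
        · rw [h', dir_neg, sub_neg_eq_add, ← two_mul, norm_mul, norm_dir (V_ne_zero hz),
            mul_one] at hpn
          have h2 : ‖(2 : ℂ)‖ = 2 := by simp
          rw [h2] at hpn
          linarith
      · right
        refine Finset.mem_image.2 ⟨p.swap, ?_, Prod.swap_swap p⟩
        refine Finset.mem_filter.2 ⟨Finset.mem_filter.2 ⟨Finset.mem_product.2 ⟨hw, hz⟩, ?_, ?_⟩, ?_⟩
        · exact fun h' => hpF h'.symm
        · show ‖dir p.2 - dir p.1‖ ≤ η
          rw [norm_sub_rev]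
          exact hpn
        · show 0 < det p.2 p.1
          rw [det_comm]
          omega
    calc P.card ≤ (Pp ∪ Pp.image Prod.swap).card := Finset.card_le_card h1
      _ ≤ Pp.card + (Pp.image Prod.swap).card := Finset.card_union_le _ _
      _ ≤ Pp.card + Pp.card := by
          exact Nat.add_le_add_left Finset.card_image_le _
      _ = 2 * Pp.card := by ring
  have h5 : (P.card : ℝ) ≤ 2 * Pp.card := by exact_mod_cast hPc
  calc (P.card : ℝ) ≤ 2 * Pp.card := h5
    _ ≤ 2 * ((edges F X).card * (16 * (1 + η * X) ^ 2)) := by gcongr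
    _ = _ := by ring

end Pool.Agent.GaussMR
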