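import Pool.Agent.Lib_MP_f1a94e_mr.Space
import Pool.Agent.Lib_MP_f1a94e_mr.Ball0
import Pool.Agent.Lib_MP_f1a94e_mr.Perm

/-!
# Piece PAIRSA: number of `(z, z')` with `u z`, `u' z'` in the same direction
-/

set_option autoImplicit false

namespace Pool.Agent.GaussMR

theorem pr_nat_mul (n : ℕ) (hn : 0 < n) (z : G) : pr ((n : G) * z) = pr z := by
  have h1 : ((n : G) * z).re = n * z.re := by simp
  have h2 : ((n : G) * z).im = n * z.im := by simp
  have hn' : (0 : ℤ) < n := by exact_mod_cast hn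
  have hg : ((Int.gcd ((n : ℤ) * z.re) ((n : ℤ) * z.im) : ℕ) : ℤ) = n * (Int.gcd z.re z.im : ℤ) := by
    rw [Int.gcd_mul_left]
    simp
  unfold pr
  rw [h1, h2, hg]
  rw [Int.mul_ediv_mul_of_pos _ _ hn', Int.mul_ediv_mul_of_pos _ _ hn']

theorem mul_star_self (z : G) : z * star z = ((nm z : ℕ) : G) := by
  apply Zsqrtd.ext
  · have := nm_eq z
    simp only [Zsqrtd.re_mul, Zsqrtd.re_star, Zsqrtd.im_star, Zsqrtd.re_natCast]
    rw [this]
    ring
  · simp only [Zsqrtd.im_mul, Zsqrtd.re_star, Zsqrtd.im_star, Zsqrtd.im_natCast]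
    ring

theorem nm_natCast_pairsa (n : ℕ) : nm (n : G) = n ^ 2 := by
  have h : (nm (n : G) : ℤ) = (n : ℤ) ^ 2 := by
    rw [nm_eq]
    simp
  exact_mod_cast h

theorem prime_of_nm {d : G} {p : ℕ} (hp : p.Prime) (h : nm d = p) : Prime d := by
  have hirr : Irreducible d := by
    constructor
    · intro hu
      rw [← nm_eq_one_iff, h] at hu
      exact hp.one_lt.ne' hu
    · intro x y hxy
      rw [hxy, nm_mul] at h
      rcases (Nat.prime_mul_iff.mp (h ▸ hp)) with h1 | h1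
      · right
        exact nm_eq_one_iff.mp h1.2
      · left
        exact nm_eq_one_iff.mp h1.2
  exact hirr.prime

/-- the product of a primitive number and the conjugate of a coprime primitive number is primitive -/
theorem prim_mul_star {a b : G} (ha : Prim a) (hb : Prim b) (hab : IsCoprime a b) :
    Prim (a * star b) := by
  have ha' := prim_iff.mp ha
  have hb' := prim_iff.mp (prim_star.mpr hb)
  have hab' := prim_iff.mp hb
  rw [prim_iff]
  intro n hn
  by_contra hn1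
  obtain ⟨p, hp, hpn⟩ := Nat.exists_prime_and_dvd hn1
  have hpn' : (p : G) ∣ (n : G) := by
    obtain ⟨c, rfl⟩ := hpn
    exact ⟨(c : G), by push_cast; ring⟩
  have hpd : (p : G) ∣ a * star b := hpn'.trans hn
  have hp1 := hp.one_lt.ne'
  have hp0 : (p : G) ≠ 0 := by
    intro h0
    have : nm (p : G) = 0 := by rw [h0, nm_zero]
    rw [nm_natCast_pairsa] at this
    have := hp.pos
    nlinarith
  set δ := EuclideanDomain.gcd a (p : G) with hδ
  have hδa : δ ∣ a := EuclideanDomain.gcd_dvd_left _ _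
  have hδp : δ ∣ (p : G) := EuclideanDomain.gcd_dvd_right _ _
  have hnm : nm δ ∣ p ^ 2 := by
    have := nm_dvd hδp
    rwa [nm_natCast_pairsa] at this
  obtain ⟨k, hk, hk2⟩ := (Nat.dvd_prime_pow hp).mp hnm
  interval_cases k
  · -- unit
    rw [pow_zero] at hk2
    have hu : IsUnit δ := nm_eq_one_iff.mp hk2
    have hcop : IsCoprime (p : G) a := (EuclideanDomain.gcd_isUnit_iff.mp hu).symm
    exact hp1 (hb' p (hcop.dvd_of_dvd_mul_left hpd))
  · rw [pow_one] at hk2
    have hprime : Prime δ := prime_of_nm hp hk2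
    have hprime' : Prime (star δ) := prime_of_nm hp (by rw [nm_star]; exact hk2)
    have hpp : (p : G) = δ * star δ := by rw [mul_star_self, hk2]
    obtain ⟨a1, ha1⟩ := hδa
    have hδ0 : δ ≠ 0 := hprime.ne_zero
    have h1 : star δ ∣ a1 * star b := by
      have h2 : δ * star δ ∣ δ * (a1 * star b) := by
        rw [← hpp, ← mul_assoc, ← ha1]
        exact hpd
      exact (mul_dvd_mul_iff_left hδ0).mp h2
    rcases hprime'.dvd_or_dvd h1 with h2 | h2
    · apply hp1
      apply ha' p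
      rw [hpp, ha1]
      exact mul_dvd_mul_left _ h2
    · have h3 : δ ∣ b := by
        obtain ⟨c, hc⟩ := h2
        refine ⟨star c, ?_⟩
        have := congrArg star hc
        rw [star_star, star_mul, star_star] at this
        rw [this, mul_comm]
      have h4 : IsUnit δ := hab.isUnit_of_dvd' ⟨a1, ha1⟩ h3
      exact hprime.not_isUnit h4
  · obtain ⟨c, hc⟩ := hδp
    have h1 : nm (p : G) = nm δ * nm c := by rw [hc, nm_mul]
    rw [nm_natCast_pairsa, hk2] at h1
    have h2 : nm c = 1 := by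
      have : 0 < p ^ 2 := pow_pos hp.pos 2
      nlinarith
    have h3 : IsUnit c := nm_eq_one_iff.mp h2
    apply hp1
    apply ha' p
    rw [hc]
    exact (h3.mul_right_dvd).mpr hδa

/-- the content of `ω z` is at most the norm of the gcd of `z` and `star ω` -/
theorem content_dvd {ω z : G} {c : ℕ} (hω : Prim ω) (hz : Prim z) (hc : (c : G) ∣ ω * z) :
    c ∣ nm (EuclideanDomain.gcd z (star ω)) := by
  have key : ∀ (n : ℕ) (y : G), Prim y → (c : G) ∣ (n : G) * y → c ∣ n := by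
    intro n y hy hd
    have h1 : (((c : ℤ)) : G) ∣ (n : G) * y := by simpa using hd
    rw [Zsqrtd.intCast_dvd] at h1
    have h2 : ((n : G) * y).re = n * y.re := by simp
    have h3 : ((n : G) * y).im = n * y.im := by simp
    rw [h2, h3] at h1
    have h4 : (c : ℤ) ∣ (Int.gcd ((n : ℤ) * y.re) ((n : ℤ) * y.im) : ℕ) :=
      Int.dvd_coe_gcd h1.1 h1.2
    rw [Int.gcd_mul_left, Int.isCoprime_iff_gcd_eq_one.mp hy] at h4
    have h5 : c ∣ (n : ℤ).natAbs * 1 := by exact_mod_cast h4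
    simpa using h5
  have h1 : c ∣ nm ω := by
    apply key (nm ω) z hz
    rw [← mul_star_self, mul_comm ω (star ω), mul_assoc]
    exact hc.mul_left _
  set h := EuclideanDomain.gcd z (star ω) with hh
  have hbez := EuclideanDomain.gcd_eq_gcd_ab z (star ω)
  rw [← hh] at hbez
  have h2 : (c : G) ∣ ω * h := by
    rw [hbez, mul_add]
    apply dvd_add
    · rw [← mul_assoc]
      exact hc.mul_right _
    · rw [← mul_assoc, mul_star_self]
      apply Dvd.dvd.mul_right
      obtain ⟨k, hk⟩ := h1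
      exact ⟨(k : G), by rw [hk]; push_cast; ring⟩
  have h3 : h ∣ star ω := EuclideanDomain.gcd_dvd_right _ _
  obtain ⟨k, hk⟩ := h3
  have h4 : ω = star h * star k := by
    have := congrArg star hk
    rw [star_star, star_mul, mul_comm] at this
    exact this
  have h5 : Prim (star k) := by
    rw [h4] at hω
    exact (prim_of_mul hω).2
  apply key (nm h) (star k) h5
  rw [← mul_star_self]
  have : h * star h * star k = ω * h := by
    rw [h4]
    ring
  rw [this]
  exact h2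

theorem pairsA (l : ℕ) : ∃ C : ℝ, 0 < C ∧ ∀ (P Q X : ℝ) (x y : Fin l → G), (∀ i, x i ∈ PP P Q) →
    (∀ i, y i ∈ PP P Q) → 0 ≤ X →
    (Set.ncard {p : G × G | p.1 ∈ V X ∧ p.2 ∈ V X ∧
      pr ((∏ i, x i) * p.1) = pr ((∏ i, y i) * p.2)} : ℝ) ≤
      C * X * (nm (EuclideanDomain.gcd (∏ i, x i) (∏ i, y i)) : ℝ) /
        Real.sqrt (nm (∏ i, x i) * nm (∏ i, y i) : ℝ) := by
  classical
  refine ⟨9 * 2 ^ (l + l), by positivity, ?_⟩
  intro P Q X x y hx hy hX
  set u := ∏ i, x i with hu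
  set u' := ∏ i, y i with hu'
  obtain ⟨hup, huo⟩ := prim_prod x hx
  obtain ⟨hup', huo'⟩ := prim_prod y hy
  rw [← hu] at hup huo
  rw [← hu'] at hup' huo'
  have hu0 : u ≠ 0 := ne_zero_of_odd huo
  have hu0' : u' ≠ 0 := ne_zero_of_odd huo'
  set g := EuclideanDomain.gcd u u' with hg
  obtain ⟨a, ha⟩ : g ∣ u := EuclideanDomain.gcd_dvd_left _ _
  obtain ⟨b, hb⟩ : g ∣ u' := EuclideanDomain.gcd_dvd_right _ _
  have hg0 : g ≠ 0 := by
    intro h0
    rw [h0, zero_mul] at ha
    exact hu0 ha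
  have hap : Prim a := by
    rw [ha] at hup
    exact (prim_of_mul hup).2
  have hbp : Prim b := by
    rw [hb] at hup'
    exact (prim_of_mul hup').2
  have hcop : IsCoprime a b := by
    have hbez := EuclideanDomain.gcd_eq_gcd_ab u u'
    rw [← hg] at hbez
    refine ⟨EuclideanDomain.gcdA u u', EuclideanDomain.gcdB u u', ?_⟩
    have h1 : g * 1 = g * (EuclideanDomain.gcdA u u' * a + EuclideanDomain.gcdB u u' * b) := by
      rw [mul_one]
      calc g = u * EuclideanDomain.gcdA u u' + u' * EuclideanDomain.gcdB u u' := hbez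
        _ = (g * a) * EuclideanDomain.gcdA u u' + (g * b) * EuclideanDomain.gcdB u u' := by
            rw [← ha, ← hb]
        _ = _ := by ring
    exact (mul_left_cancel₀ hg0 h1).symm
  set ω := a * star b with hω
  have hωp : Prim ω := prim_mul_star hap hbp hcop
  have ha0 : a ≠ 0 := by
    rintro rfl
    rw [mul_zero] at ha
    exact hu0 ha
  have hb0 : b ≠ 0 := by
    rintro rfl
    rw [mul_zero] at hb
    exact hu0' hb
  have hω0 : ω ≠ 0 := mul_ne_zero ha0 (star_ne_zero' hb0)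
  have hωpos : 0 < nm ω := nm_pos hω0
  -- the structure of the pairs
  have hstruct : ∀ p : G × G, p.1 ∈ V X → p.2 ∈ V X → pr (u * p.1) = pr (u' * p.2) →
      ∃ c : ℕ, 0 < c ∧ ω * p.1 = (c : G) * p.2 := by
    intro p hp1 hp2 hpr
    have h10 := V_ne_zero hp1
    have h20 := V_ne_zero hp2
    obtain ⟨e1, e2, e3⟩ := pr_spec (u * p.1) (mul_ne_zero hu0 h10)
    obtain ⟨f1, f2, f3⟩ := pr_spec (u' * p.2) (mul_ne_zero hu0' h20)
    set m := Int.gcd (u * p.1).re (u * p.1).im with hm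
    set m' := Int.gcd (u' * p.2).re (u' * p.2).im with hm'
    -- m' * u * z = m * u' * z'
    have h1 : (m' : G) * (u * p.1) = (m : G) * (u' * p.2) := by
      rw [e1, f1, hpr]
      ring
    have h2 : (m' : G) * (a * p.1) = (m : G) * (b * p.2) := by
      apply mul_left_cancel₀ hg0
      calc g * ((m' : G) * (a * p.1)) = (m' : G) * ((g * a) * p.1) := by ring
        _ = (m : G) * ((g * b) * p.2) := by rw [← ha, ← hb]; exact h1
        _ = g * ((m : G) * (b * p.2)) := by ring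
    have h3 : (m' : G) * (ω * p.1) = ((m * nm b : ℕ) : G) * p.2 := by
      calc (m' : G) * (ω * p.1) = star b * ((m' : G) * (a * p.1)) := by rw [hω]; ring
        _ = star b * ((m : G) * (b * p.2)) := by rw [h2]
        _ = (m : G) * (b * star b) * p.2 := by ring
        _ = ((m * nm b : ℕ) : G) * p.2 := by rw [mul_star_self]; push_cast; ring
    have h4 : pr (ω * p.1) = p.2 := by
      rw [← pr_nat_mul m' f2, h3, pr_nat_mul (m * nm b) (Nat.mul_pos e2 (nm_pos hb0)),
        pr_eq_self _ (mem_V.mp hp2).2.2]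
    obtain ⟨g1, g2, g3⟩ := pr_spec (ω * p.1) (mul_ne_zero hω0 h10)
    rw [h4] at g1
    exact ⟨_, g2, g1⟩
  -- the prime factors of star ω
  let q : Fin l ⊕ Fin l → G := Sum.elim (fun i => star (x i)) y
  have hq : ∀ j ∈ (Finset.univ : Finset (Fin l ⊕ Fin l)), Prime (q j) := by
    rintro (i | i) _
    · exact (PP_spl (hx i)).conj.prime
    · exact (PP_spl (hy i)).prime
  have hprod : ∏ j, q j = star u * u' := by
    rw [Fintype.prod_sum_type]
    simp only [q, Sum.elim_inl, Sum.elim_inr]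
    rw [hu, hu', star_prod]
  have hωdvd : star ω ∣ ∏ j, q j := by
    rw [hprod, hω, ha, hb, star_mul, star_mul, star_star]
    exact ⟨star g * g, by ring⟩
  set t : ℝ := X / Real.sqrt (nm ω) with ht
  have hsq0 : 0 < Real.sqrt (nm ω) := Real.sqrt_pos.mpr (by exact_mod_cast hωpos)
  have ht0 : 0 ≤ t := div_nonneg hX hsq0.le
  set B := (ball t).filter (fun z => z ≠ 0) with hB
  -- the first coordinates
  have hfirst : ∀ p : G × G, p.1 ∈ V X → p.2 ∈ V X → pr (u * p.1) = pr (u' * p.2) →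
      ∃ A : Finset (Fin l ⊕ Fin l), ∃ z1 ∈ B, p.1 = (∏ j ∈ A, q j) * z1 := by
    intro p hp1 hp2 hpr
    obtain ⟨c, hc0, hc⟩ := hstruct p hp1 hp2 hpr
    have h10 := V_ne_zero hp1
    have hprim := (mem_V.mp hp1).2.2
    have hcd := content_dvd hωp hprim (Dvd.intro _ hc.symm)
    set h := EuclideanDomain.gcd p.1 (star ω) with hh
    have hh1 : h ∣ p.1 := EuclideanDomain.gcd_dvd_left _ _
    have hh2 : h ∣ star ω := EuclideanDomain.gcd_dvd_right _ _
    have hh0 : h ≠ 0 := by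
      intro h0
      rw [h0] at hh1
      exact h10 (zero_dvd_iff.mp hh1)
    obtain ⟨k, hk⟩ := hh2.trans hωdvd
    obtain ⟨A, A', e, e', hAA, hdis, hee, hhA, hkA⟩ :=
      mul_eq_mul_prime_prod (x := h) (y := k) (a := 1) hq (by rw [one_mul]; exact hk.symm)
    have heu : IsUnit e := IsUnit.of_mul_eq_one _ hee.symm
    have hnm1 : nm (∏ j ∈ A, q j) = nm h := by
      rw [hhA, nm_mul, nm_eq_one_iff.mpr heu, one_mul]
    have hdvd : (∏ j ∈ A, q j) ∣ p.1 := by
      refine Dvd.dvd.trans ?_ hh1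
      rw [hhA]
      exact dvd_mul_left _ _
    obtain ⟨z1, hz1⟩ := hdvd
    refine ⟨A, z1, ?_, hz1⟩
    have hz10 : z1 ≠ 0 := by
      rintro rfl
      rw [mul_zero] at hz1
      exact h10 hz1
    rw [hB, Finset.mem_filter, mem_ball]
    refine ⟨?_, hz10⟩
    -- the estimate
    have hcle : c ≤ nm h := Nat.le_of_dvd (nm_pos hh0) hcd
    have hn1 : nm ω * nm p.1 = c ^ 2 * nm p.2 := by
      rw [← nm_mul, hc, nm_mul, nm_natCast_pairsa]
    have hn2 : (nm p.1 : ℝ) = nm h * nm z1 := by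
      rw [hz1, nm_mul, hnm1]
      push_cast
      ring
    have hX1 : (nm p.1 : ℝ) ≤ X := (mem_V.mp hp1).1
    have hX2 : (nm p.2 : ℝ) ≤ X := (mem_V.mp hp2).1
    have hn3 : (nm ω : ℝ) * nm p.1 ≤ (nm h : ℝ) ^ 2 * X := by
      have h1 : (nm ω : ℝ) * nm p.1 = (c : ℝ) ^ 2 * nm p.2 := by exact_mod_cast hn1
      rw [h1]
      have h2 : (c : ℝ) ≤ nm h := by exact_mod_cast hcle
      have h3 : (c : ℝ) ^ 2 ≤ (nm h : ℝ) ^ 2 := pow_le_pow_left₀ (by positivity) h2 2
      exact mul_le_mul h3 hX2 (by positivity) (by positivity)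
    have hnh : (0 : ℝ) < nm h := by exact_mod_cast nm_pos hh0
    have hωr : (0 : ℝ) < nm ω := by exact_mod_cast hωpos
    -- (nm z1)^2 nm ω ≤ X^2
    have hn4 : (nm z1 : ℝ) ^ 2 * nm ω ≤ X ^ 2 := by
      have h1 : (nm h : ℝ) ^ 2 * ((nm z1 : ℝ) ^ 2 * nm ω) ≤ (nm h : ℝ) ^ 2 * X ^ 2 := by
        calc (nm h : ℝ) ^ 2 * ((nm z1 : ℝ) ^ 2 * nm ω) = (nm ω * nm p.1) * nm p.1 := by
              rw [hn2]; ring
          _ ≤ ((nm h : ℝ) ^ 2 * X) * X :=
              mul_le_mul hn3 hX1 (by positivity) (by positivity)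
          _ = (nm h : ℝ) ^ 2 * X ^ 2 := by ring
      exact le_of_mul_le_mul_left h1 (by positivity)
    rw [ht, le_div_iff₀ hsq0]
    apply le_of_sq_le_sq _ hX
    rw [mul_pow, Real.sq_sqrt hωr.le]
    exact hn4
  -- counting
  set S := {p : G × G | p.1 ∈ V X ∧ p.2 ∈ V X ∧ pr (u * p.1) = pr (u' * p.2)} with hS
  set T : Finset G := ((Finset.univ : Finset (Finset (Fin l ⊕ Fin l))) ×ˢ B).image
    (fun r => (∏ j ∈ r.1, q j) * r.2) with hT
  have hmaps : Set.MapsTo (fun p : G × G => p.1) S (T : Set G) := by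
    rintro p ⟨hp1, hp2, hpr⟩
    obtain ⟨A, z1, hz1, heq⟩ := hfirst p hp1 hp2 hpr
    rw [hT, Finset.mem_coe, Finset.mem_image]
    exact ⟨(A, z1), Finset.mem_product.mpr ⟨Finset.mem_univ _, hz1⟩, heq.symm⟩
  have hinj : Set.InjOn (fun p : G × G => p.1) S := by
    rintro p ⟨hp1, hp2, hpr⟩ p' ⟨hp1', hp2', hpr'⟩ heq
    have heq' : p.1 = p'.1 := heq
    obtain ⟨c, hc0, hc⟩ := hstruct p hp1 hp2 hpr
    obtain ⟨c', hc0', hc'⟩ := hstruct p' hp1' hp2' hpr'
    have h1 : pr (ω * p.1) = p.2 := by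
      rw [hc, pr_nat_mul c hc0, pr_eq_self _ (mem_V.mp hp2).2.2]
    have h2 : pr (ω * p'.1) = p'.2 := by
      rw [hc', pr_nat_mul c' hc0', pr_eq_self _ (mem_V.mp hp2').2.2]
    have h3 : p.2 = p'.2 := by rw [← h1, ← h2, heq']
    exact Prod.ext heq' h3
  have hcard1 : Set.ncard S ≤ T.card := by
    have := Set.ncard_le_ncard_of_injOn (fun p : G × G => p.1) hmaps hinj (Finset.finite_toSet T)
    rwa [Set.ncard_coe_finset] at this
  have hcard2 : T.card ≤ 2 ^ (l + l) * B.card := by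
    refine Finset.card_image_le.trans ?_
    rw [Finset.card_product, Finset.card_univ, Fintype.card_finset, Fintype.card_sum,
      Fintype.card_fin]
  have hcard3 : (B.card : ℝ) ≤ 9 * t := card_ball_le t ht0
  have hfin : (Set.ncard S : ℝ) ≤ 2 ^ (l + l) * (9 * t) := by
    calc (Set.ncard S : ℝ) ≤ (T.card : ℝ) := by exact_mod_cast hcard1
      _ ≤ ((2 ^ (l + l) * B.card : ℕ) : ℝ) := by exact_mod_cast hcard2
      _ = 2 ^ (l + l) * (B.card : ℝ) := by push_cast; ring
      _ ≤ 2 ^ (l + l) * (9 * t) := mul_le_mul_of_nonneg_left hcard3 (by positivity)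
  refine hfin.trans (le_of_eq ?_)
  have hgr : (0 : ℝ) < nm g := by exact_mod_cast nm_pos hg0
  have hnn : (nm u * nm u' : ℝ) = (nm g : ℝ) ^ 2 * nm ω := by
    have h1 : nm u = nm g * nm a := by rw [ha, nm_mul]
    have h2 : nm u' = nm g * nm b := by rw [hb, nm_mul]
    have h3 : nm ω = nm a * nm b := by rw [hω, nm_mul, nm_star]
    rw [h1, h2, h3]
    push_cast
    ring
  rw [hnn, Real.sqrt_mul (by positivity), Real.sqrt_sq hgr.le, ht]
  field_simp

end Pool.Agent.GaussMR
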