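import Pool.Agent.Lib_MP_f1a94e_mr.Asym

/-!
# The choice of parameters: eventual inequalities
-/

set_option autoImplicit false

namespace Pool.Agent.GaussMR

open Filter Asymptotics Topology

/-- all inequalities needed for large `X` -/
structure Good (CB cB cM C1 C3 CK δK XK XL XF c0 ε θ ρ c1 M C2 α1 α2 cL κ : ℝ) (X : ℝ) : Prop where
  h3 : 3 ≤ X
  hP1 : Real.exp 2 ≤ Real.log X ^ c1
  hQ1 : (Real.log X ^ (c1 * M)) ^ 20 ≤ X
  hQ2 : (Real.log X ^ (C2 * M)) ^ 20 ≤ X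
  hρ : X ^ (-(1 / 4 : ℝ)) ≤ ρ
  hE : 16 * (CB * X / Real.log X ^ cB) ≤ cM * ε ^ 3 * (X / Real.log X ^ κ - 1)
  hT : 1 ≤ cM * ε * (X / Real.log X ^ κ - 1)
  hθ : 1 / Real.log X ^ κ ≤ θ
  hS1 : C1 * (Real.log (Real.log X ^ (c1 * M)) / ρ + 1) ^ 2 * (Real.log X ^ c1) ^ (-(2 * α1)) ≤
    ε * c0 ^ 2 / 4
  hS2 : C3 * (Real.log (Real.log X ^ (C2 * M)) / ρ + 1) ^ 3 * (Real.log X ^ (c1 * M)) ^ 3 *
    (Real.log X ^ C2) ^ (-(2 * (α2 - α1))) ≤ ε * c0 ^ 2 / 4
  hK : CK * X ^ (-δK) < cL / 2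
  hXK : XK ≤ X
  hXL : XL ≤ X
  hXF : XF ≤ X

theorem eventually_good (CB cB cM C1 C3 CK δK XK XL XF c0 ε θ ρ c1 M C2 α1 α2 cL κ : ℝ)
    (hcM : 0 < cM) (hδK : 0 < δK) (hc0 : 0 < c0) (hε : 0 < ε) (hθ : 0 < θ) (hρ : 0 < ρ)
    (hc1 : 0 < c1) (hM : 0 < M) (hC2 : 0 < C2) (hα1 : 0 < α1) (hcL : 0 < cL)
    (hκ : 0 < κ) (hκB : κ < cB) (hC2κ : 3 * (c1 * M) < C2 * (2 * (α2 - α1))) :
    ∀ᶠ X : ℝ in atTop, Good CB cB cM C1 C3 CK δK XK XL XF c0 ε θ ρ c1 M C2 α1 α2 cL κ X := by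
  have hlog : Tendsto Real.log atTop atTop := Real.tendsto_log_atTop
  have hlogpos : ∀ᶠ X : ℝ in atTop, 1 < Real.log X := hlog.eventually_gt_atTop 1
  -- powers of log
  have hpow : ∀ c : ℝ, 0 < c → Tendsto (fun X : ℝ => Real.log X ^ c) atTop atTop := fun c hc =>
    (tendsto_rpow_atTop hc).comp hlog
  have hP1 := (hpow c1 hc1).eventually_ge_atTop (Real.exp 2)
  have hQ1 := eventually_log_rpow_le (c1 * M * 20)
  have hQ2 := eventually_log_rpow_le (C2 * M * 20)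
  have hρ' : ∀ᶠ X : ℝ in atTop, X ^ (-(1 / 4 : ℝ)) ≤ ρ :=
    ((tendsto_rpow_neg_atTop (by norm_num : (0 : ℝ) < 1 / 4)).eventually_le_const hρ)
  have hdiv : ∀ᶠ X : ℝ in atTop, Real.log X ^ κ ≤ X / 2 := by
    have h := (isLittleO_log_rpow_rpow_atTop κ (s := 1) one_pos).bound (c := 1 / 2) (by norm_num)
    filter_upwards [h, eventually_gt_atTop 1] with X hX h1
    rw [Real.rpow_one, Real.norm_eq_abs, Real.norm_eq_abs,
      abs_of_pos (by linarith : (0 : ℝ) < X)] at hX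
    have := (le_abs_self (Real.log X ^ κ)).trans hX
    linarith
  have hE1 : ∀ᶠ X : ℝ in atTop, 32 * CB * Real.log X ^ (-(cB - κ)) ≤ cM * ε ^ 3 := by
    have h : Tendsto (fun X : ℝ => 32 * CB * Real.log X ^ (-(cB - κ))) atTop (𝓝 (32 * CB * 0)) :=
      ((tendsto_rpow_neg_atTop (by linarith : (0 : ℝ) < cB - κ)).comp hlog).const_mul _
    rw [mul_zero] at h
    exact h.eventually_le_const (by positivity)
  have hT1 : ∀ᶠ X : ℝ in atTop, Real.log X ^ κ * (1 / (cM * ε) + 1) ≤ X := by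
    have h := (isLittleO_log_rpow_rpow_atTop κ (s := 1) one_pos).bound
      (c := 1 / (1 / (cM * ε) + 1)) (by positivity)
    filter_upwards [h, eventually_gt_atTop 1] with X hX h1
    rw [Real.rpow_one, Real.norm_eq_abs, Real.norm_eq_abs,
      abs_of_pos (by linarith : (0 : ℝ) < X)] at hX
    have h2 := (le_abs_self (Real.log X ^ κ)).trans hX
    have h3 : (0 : ℝ) < 1 / (cM * ε) + 1 := by positivity
    calc Real.log X ^ κ * (1 / (cM * ε) + 1) ≤ (1 / (1 / (cM * ε) + 1) * X) * (1 / (cM * ε) + 1) :=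
          mul_le_mul_of_nonneg_right h2 h3.le
      _ = X := by field_simp
  have hθ' : ∀ᶠ X : ℝ in atTop, 1 / Real.log X ^ κ ≤ θ := by
    have h : Tendsto (fun X : ℝ => 1 / Real.log X ^ κ) atTop (𝓝 0) := by
      simp only [one_div]
      exact tendsto_inv_atTop_zero.comp (hpow κ hκ)
    exact h.eventually_le_const hθ
  have hS1 : ∀ᶠ X : ℝ in atTop, C1 * ((c1 * M / ρ * Real.log (Real.log X) + 1) ^ 2 *
      Real.log X ^ (-(c1 * (2 * α1)))) ≤ ε * c0 ^ 2 / 4 := by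
    have h := ((tendsto_loglog_pow (c1 * M / ρ) (c1 * (2 * α1)) 2 (by positivity)).comp
      hlog).const_mul C1
    rw [mul_zero] at h
    exact h.eventually_le_const (by positivity)
  have hS2 : ∀ᶠ X : ℝ in atTop, C3 * ((C2 * M / ρ * Real.log (Real.log X) + 1) ^ 3 *
      Real.log X ^ (-(C2 * (2 * (α2 - α1)) - 3 * (c1 * M)))) ≤ ε * c0 ^ 2 / 4 := by
    have h := ((tendsto_loglog_pow (C2 * M / ρ) (C2 * (2 * (α2 - α1)) - 3 * (c1 * M)) 3
      (by linarith)).comp hlog).const_mul C3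
    rw [mul_zero] at h
    exact h.eventually_le_const (by positivity)
  have hK : ∀ᶠ X : ℝ in atTop, CK * X ^ (-δK) < cL / 2 := by
    have h : Tendsto (fun X : ℝ => CK * X ^ (-δK)) atTop (𝓝 (CK * 0)) :=
      (tendsto_rpow_neg_atTop hδK).const_mul _
    rw [mul_zero] at h
    exact h.eventually_lt_const (by positivity)
  filter_upwards [eventually_ge_atTop 3, hP1, hQ1, hQ2, hρ', hdiv, hE1, hT1, hθ', hS1, hS2, hK,
    eventually_ge_atTop XK, eventually_ge_atTop XL, eventually_ge_atTop XF, hlogpos] with X g3 gP1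
    gQ1 gQ2 gρ gdiv gE1 gT1 gθ gS1 gS2 gK gXK gXL gXF glog
  have hl0 : 0 < Real.log X := by linarith
  have hX0 : 0 < X := by linarith
  have hκp : 0 < Real.log X ^ κ := Real.rpow_pos_of_pos hl0 _
  refine ⟨g3, gP1, ?_, ?_, gρ, ?_, ?_, gθ, ?_, ?_, gK, gXK, gXL, gXF⟩
  · rw [← Real.rpow_natCast, ← Real.rpow_mul hl0.le]
    exact_mod_cast gQ1
  · rw [← Real.rpow_natCast, ← Real.rpow_mul hl0.le]
    exact_mod_cast gQ2
  · have h1 : X / (2 * Real.log X ^ κ) ≤ X / Real.log X ^ κ - 1 := by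
      rw [le_sub_iff_add_le, div_add_one (by positivity), div_le_div_iff₀ (by positivity) hκp]
      nlinarith
    have h2 : 16 * (CB * X / Real.log X ^ cB) =
        (32 * CB * Real.log X ^ (-(cB - κ))) * (X / (2 * Real.log X ^ κ)) := by
      rw [neg_sub, Real.rpow_sub hl0]
      field_simp
      ring
    rw [h2]
    calc (32 * CB * Real.log X ^ (-(cB - κ))) * (X / (2 * Real.log X ^ κ))
        ≤ (cM * ε ^ 3) * (X / (2 * Real.log X ^ κ)) :=
          mul_le_mul_of_nonneg_right gE1 (by positivity)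
      _ ≤ (cM * ε ^ 3) * (X / Real.log X ^ κ - 1) := mul_le_mul_of_nonneg_left h1 (by positivity)
  · have h1 : 1 / (cM * ε) + 1 ≤ X / Real.log X ^ κ := by
      rw [le_div_iff₀ hκp]
      linarith
    have h2 : 1 / (cM * ε) ≤ X / Real.log X ^ κ - 1 := by linarith
    calc (1 : ℝ) = cM * ε * (1 / (cM * ε)) := by field_simp
      _ ≤ cM * ε * (X / Real.log X ^ κ - 1) := mul_le_mul_of_nonneg_left h2 (by positivity)
  · rw [Real.log_rpow hl0, ← Real.rpow_mul hl0.le]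
    calc _ = C1 * ((c1 * M / ρ * Real.log (Real.log X) + 1) ^ 2 *
      Real.log X ^ (-(c1 * (2 * α1)))) := by
          rw [show c1 * -(2 * α1) = -(c1 * (2 * α1)) by ring]
          ring
      _ ≤ _ := gS1
  · rw [Real.log_rpow hl0, ← Real.rpow_mul hl0.le, ← Real.rpow_natCast (Real.log X ^ (c1 * M)) 3,
      ← Real.rpow_mul hl0.le]
    calc _ = C3 * ((C2 * M / ρ * Real.log (Real.log X) + 1) ^ 3 *
      (Real.log X ^ (c1 * M * ((3 : ℕ) : ℝ)) * Real.log X ^ (C2 * -(2 * (α2 - α1))))) := by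
          ring
      _ = C3 * ((C2 * M / ρ * Real.log (Real.log X) + 1) ^ 3 *
      Real.log X ^ (-(C2 * (2 * (α2 - α1)) - 3 * (c1 * M)))) := by
          rw [← Real.rpow_add hl0]
          congr 3
          push_cast
          ring
      _ ≤ _ := gS2

end Pool.Agent.GaussMR
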