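import Pool.Agent.Lib_MP_f1a94e_mr.Basic

/-!
# Piece PSUM: partial summation with weights `1 / nm z`
-/

set_option autoImplicit false

namespace Pool.Agent.GaussMR

open MeasureTheory

open Classical in
/-- the sum of `c` over the circle of norm `n` -/
noncomputable def circSum (c : G → ℂ) (n : ℕ) : ℂ :=
  ∑ z ∈ (ball (n : ℝ)).filter (fun z => nm z = n), c z

theorem circSum_icc (c : G → ℂ) {t : ℝ} (ht : 0 ≤ t) :
    ∑ n ∈ Finset.Icc 0 ⌊t⌋₊, circSum c n = ∑ z ∈ ball t, c z := by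
  classical
  rw [← Finset.sum_fiberwise_of_maps_to (s := ball t) (t := Finset.Icc 0 ⌊t⌋₊) (g := nm)
    (f := c)]
  · apply Finset.sum_congr rfl
    intro n hn
    unfold circSum
    apply Finset.sum_congr _ (fun _ _ => rfl)
    ext z
    simp only [Finset.mem_filter, mem_ball]
    constructor
    · rintro ⟨_, h⟩
      refine ⟨?_, h⟩
      rw [h]
      exact (Nat.le_floor_iff ht).1 (Finset.mem_Icc.1 hn).2
    · rintro ⟨_, h⟩
      exact ⟨by rw [h], h⟩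
  · intro z hz
    rw [Finset.mem_Icc]
    exact ⟨Nat.zero_le _, Nat.le_floor (mem_ball.1 hz)⟩

theorem circSum_ioc (c : G → ℂ) {t1 t2 : ℝ} (h1 : 0 ≤ t1) (h2 : t1 ≤ t2) :
    ∑ n ∈ Finset.Ioc ⌊t1⌋₊ ⌊t2⌋₊, ((n : ℝ) : ℂ)⁻¹ * circSum c n =
      ∑ z ∈ ball t2 \ ball t1, c z / (nm z : ℂ) := by
  classical
  rw [← Finset.sum_fiberwise_of_maps_to (s := ball t2 \ ball t1) (t := Finset.Ioc ⌊t1⌋₊ ⌊t2⌋₊)
    (g := nm) (f := fun z => c z / (nm z : ℂ))]
  · apply Finset.sum_congr rfl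
    intro n hn
    unfold circSum
    rw [Finset.mul_sum]
    have hset : (ball (n : ℝ)).filter (fun z => nm z = n) =
        (ball t2 \ ball t1).filter (fun z => nm z = n) := by
      ext z
      simp only [Finset.mem_filter, Finset.mem_sdiff, mem_ball]
      rw [Finset.mem_Ioc] at hn
      constructor
      · rintro ⟨_, h⟩
        refine ⟨⟨?_, ?_⟩, h⟩
        · rw [h]
          exact (Nat.le_floor_iff (h1.trans h2)).1 hn.2
        · rw [h]
          exact not_le.2 ((Nat.floor_lt h1).1 hn.1)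
      · rintro ⟨_, h⟩
        exact ⟨by rw [h], h⟩
    rw [hset]
    apply Finset.sum_congr rfl
    intro z hz
    rw [(Finset.mem_filter.1 hz).2]
    push_cast
    rw [div_eq_mul_inv, mul_comm]
  · intro z hz
    rw [Finset.mem_sdiff, mem_ball, mem_ball] at hz
    rw [Finset.mem_Ioc]
    exact ⟨(Nat.floor_lt h1).2 (not_le.1 hz.2), Nat.le_floor hz.1⟩

/-- `∑_{t1 < nm z ≤ t2} c z / nm z = S(t2)/t2 - S(t1)/t1 + ∫_{t1}^{t2} S(t) / t² dt`,
`S(t) = ∑_{z ∈ ball t} c z = κ t + R(t)`, `|R(t)| ≤ E t^(1-δ)` -/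
theorem partial_sum (δ : ℝ) (hδ : 0 < δ) (hδ1 : δ ≤ 1) (c : G → ℂ) (κ : ℂ) (E t1 t2 : ℝ)
    (h1 : 1 ≤ t1) (h2 : t1 ≤ t2) (hE : 0 ≤ E)
    (h : ∀ t : ℝ, t1 ≤ t → t ≤ t2 → ‖∑ z ∈ ball t, c z - κ * t‖ ≤ E * t ^ (1 - δ)) :
    ‖∑ z ∈ ball t2 \ ball t1, c z / (nm z : ℂ) - κ * (Real.log (t2 / t1) : ℂ)‖ ≤
      4 * E / δ * t1 ^ (-δ) := by
  have p1 : 0 < t1 := by linarith
  have p2 : 0 < t2 := by linarith
  have hderiv : ∀ t : ℝ, t ≠ 0 → HasDerivAt (fun t : ℝ => ((t : ℝ) : ℂ)⁻¹)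
      (-((((t : ℝ) : ℂ) ^ 2)⁻¹)) t := by
    intro t ht
    have h3 := (hasDerivAt_inv (𝕜 := ℂ) (x := (t : ℂ)) (by exact_mod_cast ht)).comp_ofReal
    exact h3
  have hne : ∀ t ∈ Set.Icc t1 t2, t ≠ 0 := fun t ht => (p1.trans_le ht.1).ne'
  have hdiff : ∀ t ∈ Set.Icc t1 t2, DifferentiableAt ℝ (fun t : ℝ => ((t : ℝ) : ℂ)⁻¹) t :=
    fun t ht => (hderiv t (hne t ht)).differentiableAt
  have hdv : ∀ t ∈ Set.Icc t1 t2, deriv (fun t : ℝ => ((t : ℝ) : ℂ)⁻¹) t =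
      -((((t : ℝ) : ℂ) ^ 2)⁻¹) := fun t ht => (hderiv t (hne t ht)).deriv
  have hcont : ContinuousOn (fun t : ℝ => -((((t : ℝ) : ℂ) ^ 2)⁻¹)) (Set.Icc t1 t2) := by
    apply ContinuousOn.neg
    apply ContinuousOn.inv₀
    · exact (Complex.continuous_ofReal.pow 2).continuousOn
    · intro t ht
      exact pow_ne_zero 2 (by exact_mod_cast hne t ht)
  have hint : IntegrableOn (deriv (fun t : ℝ => ((t : ℝ) : ℂ)⁻¹)) (Set.Icc t1 t2) := by
    refine (hcont.integrableOn_compact isCompact_Icc).congr_fun ?_ measurableSet_Icc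
    intro t ht
    exact (hdv t ht).symm
  have habel := sum_mul_eq_sub_sub_integral_mul (circSum c) p1.le h2 hdiff hint
  rw [circSum_ioc c p1.le h2, circSum_icc c p1.le, circSum_icc c p2.le] at habel
  have hintS : IntegrableOn (fun t => deriv (fun t : ℝ => ((t : ℝ) : ℂ)⁻¹) t *
      ∑ k ∈ Finset.Icc 0 ⌊t⌋₊, circSum c k) (Set.Icc t1 t2) :=
    integrableOn_mul_sum_Icc (circSum c) p1.le hint
  have hI1 : ∫ t in Set.Ioc t1 t2, deriv (fun t : ℝ => ((t : ℝ) : ℂ)⁻¹) t *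
      ∑ k ∈ Finset.Icc 0 ⌊t⌋₊, circSum c k =
      ∫ t in Set.Ioc t1 t2, -((((t : ℝ) : ℂ) ^ 2)⁻¹) * ∑ z ∈ ball t, c z := by
    apply setIntegral_congr_fun measurableSet_Ioc
    intro t ht
    simp only
    rw [hdv t ⟨ht.1.le, ht.2⟩, circSum_icc c (p1.trans ht.1).le]
  have hintS2 : IntegrableOn (fun t : ℝ => -((((t : ℝ) : ℂ) ^ 2)⁻¹) * ∑ z ∈ ball t, c z)
      (Set.Ioc t1 t2) := by
    refine (hintS.mono_set Set.Ioc_subset_Icc_self).congr_fun ?_ measurableSet_Ioc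
    intro t ht
    simp only
    rw [hdv t ⟨ht.1.le, ht.2⟩, circSum_icc c (p1.trans ht.1).le]
  have hcont3 : ContinuousOn (fun t : ℝ => -((((t : ℝ) : ℂ) ^ 2)⁻¹) * (κ * t)) (Set.Icc t1 t2) :=
    hcont.mul (continuous_const.mul Complex.continuous_ofReal).continuousOn
  have hintS3 : IntegrableOn (fun t : ℝ => -((((t : ℝ) : ℂ) ^ 2)⁻¹) * (κ * t))
      (Set.Ioc t1 t2) :=
    (hcont3.integrableOn_compact isCompact_Icc).mono_set Set.Ioc_subset_Icc_self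
  have hmain : ∫ t in Set.Ioc t1 t2, -((((t : ℝ) : ℂ) ^ 2)⁻¹) * (κ * t) =
      -(κ * (Real.log (t2 / t1) : ℂ)) := by
    have e1 : ∀ t ∈ Set.Ioc t1 t2, -((((t : ℝ) : ℂ) ^ 2)⁻¹) * (κ * t) =
        (-κ) * ((t⁻¹ : ℝ) : ℂ) := by
      intro t ht
      have ht0 : ((t : ℝ) : ℂ) ≠ 0 := by exact_mod_cast (p1.trans ht.1).ne'
      push_cast
      field_simp
    rw [setIntegral_congr_fun measurableSet_Ioc e1, integral_const_mul, integral_complex_ofReal]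
    rw [← intervalIntegral.integral_of_le h2, integral_inv_of_pos p1 p2]
    ring
  have hrem : ∫ t in Set.Ioc t1 t2, -((((t : ℝ) : ℂ) ^ 2)⁻¹) * ∑ z ∈ ball t, c z =
      -(κ * (Real.log (t2 / t1) : ℂ)) +
      ∫ t in Set.Ioc t1 t2, -((((t : ℝ) : ℂ) ^ 2)⁻¹) * (∑ z ∈ ball t, c z - κ * t) := by
    rw [← hmain, ← integral_add hintS3]
    · apply integral_congr_ae
      apply Filter.Eventually.of_forall
      intro t
      simp only
      ring
    · have := hintS2.sub hintS3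
      refine this.congr_fun ?_ measurableSet_Ioc
      intro t _
      simp only [Pi.sub_apply]
      ring
  rw [hI1, hrem] at habel
  have hfin : ∑ z ∈ ball t2 \ ball t1, c z / (nm z : ℂ) - κ * (Real.log (t2 / t1) : ℂ) =
      ((t2 : ℝ) : ℂ)⁻¹ * (∑ z ∈ ball t2, c z - κ * t2) -
      ((t1 : ℝ) : ℂ)⁻¹ * (∑ z ∈ ball t1, c z - κ * t1) -
      ∫ t in Set.Ioc t1 t2, -((((t : ℝ) : ℂ) ^ 2)⁻¹) * (∑ z ∈ ball t, c z - κ * t) := by
    rw [habel]
    have c1 : ((t1 : ℝ) : ℂ) ≠ 0 := by exact_mod_cast p1.ne'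
    have c2 : ((t2 : ℝ) : ℂ) ≠ 0 := by exact_mod_cast p2.ne'
    have d1 : ((t1 : ℝ) : ℂ)⁻¹ * (κ * t1) = κ := by field_simp
    have d2 : ((t2 : ℝ) : ℂ)⁻¹ * (κ * t2) = κ := by field_simp
    rw [mul_sub, mul_sub, d1, d2]
    ring
  rw [hfin]
  have hb : ∀ t : ℝ, t1 ≤ t → t ≤ t2 →
      ‖((t : ℝ) : ℂ)⁻¹ * (∑ z ∈ ball t, c z - κ * t)‖ ≤ E * t1 ^ (-δ) := by
    intro t ht1 ht2
    have pt : 0 < t := by linarith
    rw [norm_mul, norm_inv, Complex.norm_real, Real.norm_of_nonneg pt.le]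
    calc t⁻¹ * ‖∑ z ∈ ball t, c z - κ * t‖ ≤ t⁻¹ * (E * t ^ (1 - δ)) :=
          mul_le_mul_of_nonneg_left (h t ht1 ht2) (by positivity)
      _ = E * t ^ (-δ) := by
          rw [show (1 - δ) = 1 + (-δ) by ring, Real.rpow_add pt, Real.rpow_one]
          field_simp
      _ ≤ E * t1 ^ (-δ) := by
          apply mul_le_mul_of_nonneg_left _ hE
          exact Real.rpow_le_rpow_of_nonpos p1 ht1 (by linarith)
  have hc : ‖∫ t in Set.Ioc t1 t2, -((((t : ℝ) : ℂ) ^ 2)⁻¹) * (∑ z ∈ ball t, c z - κ * t)‖ ≤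
      E / δ * t1 ^ (-δ) := by
    rw [← intervalIntegral.integral_of_le h2]
    have h0 : (0 : ℝ) ∉ Set.uIcc t1 t2 := by
      rw [Set.uIcc_of_le h2]
      intro h3
      linarith [h3.1]
    have hg : IntervalIntegrable (fun t : ℝ => E * t ^ (-1 - δ)) volume t1 t2 := by
      apply IntervalIntegrable.const_mul
      exact intervalIntegral.intervalIntegrable_rpow (Or.inr h0)
    refine (intervalIntegral.norm_integral_le_of_norm_le h2 ?_ hg).trans ?_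
    · apply Filter.Eventually.of_forall
      intro t ht
      have pt : 0 < t := by linarith [ht.1]
      rw [norm_mul, norm_neg, norm_inv, norm_pow, Complex.norm_real, Real.norm_of_nonneg pt.le]
      calc (t ^ 2)⁻¹ * ‖∑ z ∈ ball t, c z - κ * t‖ ≤ (t ^ 2)⁻¹ * (E * t ^ (1 - δ)) :=
            mul_le_mul_of_nonneg_left (h t ht.1.le ht.2) (by positivity)
        _ = E * t ^ (-1 - δ) := by
            rw [show (1 - δ) = 2 + (-1 - δ) by ring, Real.rpow_add pt, Real.rpow_two]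
            field_simp
    · rw [intervalIntegral.integral_const_mul, integral_rpow (Or.inr ⟨by linarith, h0⟩)]
      have e2 : (-1 - δ + 1) = -δ := by ring
      rw [e2]
      have q2 : 0 ≤ t2 ^ (-δ) := Real.rpow_nonneg p2.le _
      have e3 : (t2 ^ (-δ) - t1 ^ (-δ)) / (-δ) = (t1 ^ (-δ) - t2 ^ (-δ)) / δ := by
        field_simp
        ring
      rw [e3]
      calc E * ((t1 ^ (-δ) - t2 ^ (-δ)) / δ) ≤ E * (t1 ^ (-δ) / δ) := by
            apply mul_le_mul_of_nonneg_left _ hE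
            apply div_le_div_of_nonneg_right _ hδ.le
            linarith
        _ = E / δ * t1 ^ (-δ) := by ring
  have q1 : 0 ≤ t1 ^ (-δ) := Real.rpow_nonneg p1.le _
  have hEd : E ≤ E / δ := by
    rw [le_div_iff₀ hδ]
    nlinarith
  calc _ ≤ ‖((t2 : ℝ) : ℂ)⁻¹ * (∑ z ∈ ball t2, c z - κ * t2) -
      ((t1 : ℝ) : ℂ)⁻¹ * (∑ z ∈ ball t1, c z - κ * t1)‖ +
      ‖∫ t in Set.Ioc t1 t2, -((((t : ℝ) : ℂ) ^ 2)⁻¹) * (∑ z ∈ ball t, c z - κ * t)‖ :=
        norm_sub_le _ _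
    _ ≤ (E * t1 ^ (-δ) + E * t1 ^ (-δ)) + E / δ * t1 ^ (-δ) := by
        apply add_le_add _ hc
        exact (norm_sub_le _ _).trans (add_le_add (hb t2 h2 le_rfl) (hb t1 le_rfl h2))
    _ ≤ (E / δ * t1 ^ (-δ) + E / δ * t1 ^ (-δ)) + 2 * (E / δ * t1 ^ (-δ)) := by
        have := mul_le_mul_of_nonneg_right hEd q1
        have : 0 ≤ E / δ * t1 ^ (-δ) := by positivity
        linarith
    _ = 4 * E / δ * t1 ^ (-δ) := by ring

end Pool.Agent.GaussMR
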