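import Pool.Agent.Lib_MP_f1a94e_mr.DivPairs
import Pool.Agent.Lib_MP_f1a94e_nt.Second
import Pool.Agent.Lib_MP_f1a94e_mr.SecCount

/-!
# Piece SECOND: second moment of a restricted divisor function of `m ^ 2 + 1`
-/

set_option autoImplicit false

namespace Pool.Agent.GaussMR

open Finset in
/-- coincidences between two maps are controlled by the self coincidences -/
theorem coinc_le_sec {α β : Type} [DecidableEq α] [DecidableEq β] (s : Finset α) (t : Finset β)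
    (φ : α → ℤ) (ψ : β → ℤ) :
    2 * ((((s ×ˢ t).filter (fun p => φ p.1 = ψ p.2)).card : ℕ) : ℝ) ≤
      (((s ×ˢ s).filter (fun p => φ p.1 = φ p.2)).card : ℝ) +
      (((t ×ˢ t).filter (fun p => ψ p.1 = ψ p.2)).card : ℝ) := by
  set I : Finset ℤ := s.image φ ∪ t.image ψ with hI
  have gen : ∀ {γ δ : Type} [DecidableEq γ] [DecidableEq δ] (u : Finset γ) (v : Finset δ)
      (f : γ → ℤ) (g : δ → ℤ), (∀ x ∈ u, f x ∈ I) →
      ((((u ×ˢ v).filter (fun p => f p.1 = g p.2)).card : ℕ) : ℝ) =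
        ∑ i ∈ I, ((u.filter (fun x => f x = i)).card : ℝ) * ((v.filter (fun y => g y = i)).card : ℝ) := by
    intro γ δ _ _ u v f g hf
    have h1 := Finset.card_eq_sum_card_fiberwise (f := fun p : γ × δ => f p.1)
      (s := (u ×ˢ v).filter (fun p => f p.1 = g p.2)) (t := I) (by
        intro p hp
        have hp' := Finset.mem_coe.mp hp
        rw [mem_filter, mem_product] at hp'
        exact hf _ hp'.1.1)
    rw [h1]
    push_cast
    refine Finset.sum_congr rfl fun i _ => ?_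
    rw [← Nat.cast_mul, ← Finset.card_product]
    congr 2
    ext p
    simp only [mem_filter, mem_product]
    constructor
    · rintro ⟨⟨⟨h1, h2⟩, h3⟩, h4⟩
      exact ⟨⟨h1, h4⟩, ⟨h2, by rw [← h3]; exact h4⟩⟩
    · rintro ⟨⟨h1, h2⟩, ⟨h3, h4⟩⟩
      exact ⟨⟨⟨h1, h3⟩, by rw [h2, h4]⟩, h2⟩
  have hs : ∀ x ∈ s, φ x ∈ I := fun x hx =>
    mem_union_left _ (mem_image_of_mem φ hx)
  have ht : ∀ x ∈ t, ψ x ∈ I := fun x hx =>
    mem_union_right _ (mem_image_of_mem ψ hx)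
  rw [gen s t φ ψ hs, gen s s φ φ hs, gen t t ψ ψ ht, Finset.mul_sum, ← Finset.sum_add_distrib]
  refine Finset.sum_le_sum fun i _ => ?_
  nlinarith [sq_nonneg (((s.filter (fun x => φ x = i)).card : ℝ) -
    ((t.filter (fun y => ψ y = i)).card : ℝ))]

/-- the bin of a natural number in base `2 J` -/
noncomputable def binS (J : ℝ) (e : ℕ) : ℤ := ⌊Real.log e / Real.log (2 * J)⌋

theorem binS_close {J : ℝ} (hJ : 1 ≤ J) {e e' : ℕ} (he : 0 < e) (he' : 0 < e')
    (h : (e : ℝ) ≤ J * e') : binS J e ≤ binS J e' + 1 := by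
  have hL : 0 < Real.log (2 * J) := Real.log_pos (by linarith)
  have heR : (0 : ℝ) < e := by exact_mod_cast he
  have heR' : (0 : ℝ) < e' := by exact_mod_cast he'
  have h1 : Real.log e ≤ Real.log (2 * J) + Real.log e' := by
    rw [← Real.log_mul (by positivity) (by positivity)]
    apply Real.log_le_log heR
    nlinarith
  have h2 : Real.log e / Real.log (2 * J) ≤ Real.log e' / Real.log (2 * J) + 1 := by
    rw [div_add_one hL.ne', div_le_div_iff_of_pos_right hL]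
    linarith
  unfold binS
  have h3 := Int.floor_le_floor h2
  rw [Int.floor_add_one] at h3
  exact h3

theorem binS_eq {J : ℝ} (hJ : 1 ≤ J) {e e' : ℕ} (he : 0 < e) (he' : 0 < e')
    (h : binS J e = binS J e') : (e : ℝ) ≤ (2 * J) * e' := by
  have hL : 0 < Real.log (2 * J) := Real.log_pos (by linarith)
  have heR : (0 : ℝ) < e := by exact_mod_cast he
  have heR' : (0 : ℝ) < e' := by exact_mod_cast he'
  unfold binS at h
  have h1 := Int.lt_floor_add_one (Real.log e / Real.log (2 * J))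
  have h2 := Int.floor_le (Real.log e' / Real.log (2 * J))
  rw [h] at h1
  have h3 : Real.log e / Real.log (2 * J) ≤ Real.log e' / Real.log (2 * J) + 1 := by linarith
  rw [div_add_one hL.ne', div_le_div_iff_of_pos_right hL] at h3
  have h4 : Real.log e ≤ Real.log ((2 * J) * e') := by
    rw [Real.log_mul (by positivity) (by positivity)]
    linarith
  exact (Real.log_le_log_iff heR (by positivity)).mp h4

open Classical in
/-- close pairs of divisors of two numbers -/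
noncomputable def clS (J : ℝ) (a b : ℕ) : ℕ :=
  ((a.divisors ×ˢ b.divisors).filter (fun p : ℕ × ℕ => (p.1 : ℝ) ≤ J * p.2 ∧ (p.2 : ℝ) ≤ J * p.1)).card

open Classical in
theorem self_le_dpr_sec {J : ℝ} (hJ : 1 ≤ J) (a : ℕ) (ha : a ≠ 0) (k : ℤ) :
    ((a.divisors ×ˢ a.divisors).filter (fun p => binS J p.1 + k = binS J p.2 + k)).card ≤
      dpr (2 * J) a := by
  unfold dpr
  rw [← Set.ncard_coe_finset]
  apply Set.ncard_le_ncard
  · intro p hp
    rw [Finset.mem_coe, Finset.mem_filter, Finset.mem_product, Nat.mem_divisors,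
      Nat.mem_divisors] at hp
    obtain ⟨⟨⟨h1, _⟩, ⟨h2, _⟩⟩, h3⟩ := hp
    have p1 : 0 < p.1 := Nat.pos_of_dvd_of_pos h1 (Nat.pos_of_ne_zero ha)
    have p2 : 0 < p.2 := Nat.pos_of_dvd_of_pos h2 (Nat.pos_of_ne_zero ha)
    have h4 : binS J p.1 = binS J p.2 := by linarith
    exact ⟨h1, h2, binS_eq hJ p1 p2 h4, binS_eq hJ p2 p1 h4.symm⟩
  · refine ((a.divisors ×ˢ a.divisors).finite_toSet).subset ?_
    rintro p ⟨h1, h2, _⟩
    rw [Finset.mem_coe, Finset.mem_product, Nat.mem_divisors, Nat.mem_divisors]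
    exact ⟨⟨h1, ha⟩, ⟨h2, ha⟩⟩

open Classical in
theorem clS_le {J : ℝ} (hJ : 1 ≤ J) (a b : ℕ) (ha : a ≠ 0) (hb : b ≠ 0) :
    2 * (clS J a b : ℝ) ≤ 3 * (dpr (2 * J) a + dpr (2 * J) b) := by
  have hk : ∀ k : ℤ, 2 * ((((a.divisors ×ˢ b.divisors).filter
      (fun p : ℕ × ℕ => binS J p.1 + 0 = binS J p.2 + k)).card : ℕ) : ℝ) ≤
      dpr (2 * J) a + dpr (2 * J) b := by
    intro k
    refine (coinc_le_sec a.divisors b.divisors (fun e => binS J e + 0) (fun e => binS J e + k)).trans ?_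
    have h1 := self_le_dpr_sec hJ a ha 0
    have h2 := self_le_dpr_sec hJ b hb k
    have h1' : ((((a.divisors ×ˢ a.divisors).filter
      (fun p => binS J p.1 + 0 = binS J p.2 + 0)).card : ℕ) : ℝ) ≤ dpr (2 * J) a := by
      exact_mod_cast h1
    have h2' : ((((b.divisors ×ˢ b.divisors).filter
      (fun p => binS J p.1 + k = binS J p.2 + k)).card : ℕ) : ℝ) ≤ dpr (2 * J) b := by
      exact_mod_cast h2
    refine le_trans (le_of_eq ?_) (add_le_add h1' h2')
    congr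
  have hsub : (a.divisors ×ˢ b.divisors).filter
      (fun p : ℕ × ℕ => (p.1 : ℝ) ≤ J * p.2 ∧ (p.2 : ℝ) ≤ J * p.1) ⊆
      ((a.divisors ×ˢ b.divisors).filter (fun p : ℕ × ℕ => binS J p.1 + 0 = binS J p.2 + (-1))) ∪
      (((a.divisors ×ˢ b.divisors).filter (fun p : ℕ × ℕ => binS J p.1 + 0 = binS J p.2 + 0)) ∪
      ((a.divisors ×ˢ b.divisors).filter (fun p : ℕ × ℕ => binS J p.1 + 0 = binS J p.2 + 1))) := by
    intro p hp
    rw [Finset.mem_filter] at hp
    obtain ⟨hm, h1, h2⟩ := hp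
    have hm' := hm
    rw [Finset.mem_product, Nat.mem_divisors, Nat.mem_divisors] at hm'
    have p1 : 0 < p.1 := Nat.pos_of_dvd_of_pos hm'.1.1 (Nat.pos_of_ne_zero ha)
    have p2 : 0 < p.2 := Nat.pos_of_dvd_of_pos hm'.2.1 (Nat.pos_of_ne_zero hb)
    have c1 := binS_close hJ p1 p2 h1
    have c2 := binS_close hJ p2 p1 h2
    rw [Finset.mem_union, Finset.mem_union, Finset.mem_filter, Finset.mem_filter, Finset.mem_filter]
    have : binS J p.1 + 0 = binS J p.2 + (-1) ∨ binS J p.1 + 0 = binS J p.2 + 0 ∨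
        binS J p.1 + 0 = binS J p.2 + 1 := by omega
    rcases this with h | h | h
    · exact Or.inl ⟨hm, h⟩
    · exact Or.inr (Or.inl ⟨hm, h⟩)
    · exact Or.inr (Or.inr ⟨hm, h⟩)
  have hcard : (clS J a b : ℝ) ≤
      (((a.divisors ×ˢ b.divisors).filter (fun p : ℕ × ℕ => binS J p.1 + 0 = binS J p.2 + (-1))).card : ℝ) +
      ((((a.divisors ×ˢ b.divisors).filter (fun p : ℕ × ℕ => binS J p.1 + 0 = binS J p.2 + 0)).card : ℝ) +
      (((a.divisors ×ˢ b.divisors).filter (fun p : ℕ × ℕ => binS J p.1 + 0 = binS J p.2 + 1)).card : ℝ)) := by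
    unfold clS
    have h1 := (Finset.card_le_card hsub).trans (Finset.card_union_le _ _)
    have h2 := Finset.card_union_le
      ((a.divisors ×ˢ b.divisors).filter (fun p : ℕ × ℕ => binS J p.1 + 0 = binS J p.2 + 0))
      ((a.divisors ×ˢ b.divisors).filter (fun p : ℕ × ℕ => binS J p.1 + 0 = binS J p.2 + 1))
    have h3 := h1.trans (Nat.add_le_add_left h2 _)
    exact_mod_cast h3
  have e1 := hk (-1)
  have e2 := hk 0
  have e3 := hk 1
  linarith

open Finset in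
/-- pairs of divisors of `n` in `[X / J, X]` -/
theorem sq_card_le_sec {X J : ℝ} (n : ℕ) (hn : n ≠ 0) (T : Finset ℕ)
    (hT : ∀ d ∈ T, d ∣ n ∧ X ≤ J * d ∧ (d : ℝ) ≤ X) :
    (T.card : ℝ) ^ 2 ≤ ∑ d ∈ T, (clS J d (n / d) : ℝ) := by
  classical
  have h1 : (T ×ˢ T).card ≤ (T.sigma fun d => ((d.divisors ×ˢ (n / d).divisors).filter
      (fun p : ℕ × ℕ => (p.1 : ℝ) ≤ J * p.2 ∧ (p.2 : ℝ) ≤ J * p.1))).card := by
    apply Finset.card_le_card_of_injOn
      (fun p : ℕ × ℕ => (⟨p.1, (p.1 / Nat.gcd p.1 p.2, p.2 / Nat.gcd p.1 p.2)⟩ : (_ : ℕ) × (ℕ × ℕ)))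
    · intro p hp
      have hp' := Finset.mem_coe.mp hp
      rw [mem_product] at hp'
      obtain ⟨m1, m2⟩ := hp'
      obtain ⟨d1, l1, u1⟩ := hT _ m1
      obtain ⟨d2, l2, u2⟩ := hT _ m2
      have p1 : 0 < p.1 := Nat.pos_of_dvd_of_pos d1 (Nat.pos_of_ne_zero hn)
      have p2 : 0 < p.2 := Nat.pos_of_dvd_of_pos d2 (Nat.pos_of_ne_zero hn)
      have hg : 0 < Nat.gcd p.1 p.2 := Nat.gcd_pos_of_pos_left _ p1
      have hgR : (0 : ℝ) < Nat.gcd p.1 p.2 := by exact_mod_cast hg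
      have g1 := Nat.gcd_dvd_left p.1 p.2
      have g2 := Nat.gcd_dvd_right p.1 p.2
      rw [Finset.mem_coe, mem_sigma, mem_filter, mem_product, Nat.mem_divisors, Nat.mem_divisors]
      have hnd : n / p.1 ≠ 0 := by
        have := Nat.div_pos (Nat.le_of_dvd (Nat.pos_of_ne_zero hn) d1) p1
        omega
      refine ⟨m1, ⟨⟨⟨Nat.div_dvd_of_dvd g1, p1.ne'⟩, ⟨?_, hnd⟩⟩, ?_, ?_⟩⟩
      · -- p.2 / g divides n / p.1
        have hco : Nat.Coprime (p.2 / Nat.gcd p.1 p.2) (p.1 / Nat.gcd p.1 p.2) :=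
          (Nat.coprime_div_gcd_div_gcd hg).symm
        apply hco.dvd_of_dvd_mul_left
        apply Nat.dvd_of_mul_dvd_mul_left hg
        have e1 : Nat.gcd p.1 p.2 * (p.2 / Nat.gcd p.1 p.2) = p.2 := Nat.mul_div_cancel' g2
        have e2 : Nat.gcd p.1 p.2 * (p.1 / Nat.gcd p.1 p.2 * (n / p.1)) = n := by
          rw [← mul_assoc, Nat.mul_div_cancel' g1, Nat.mul_div_cancel' d1]
        rw [e1, e2]
        exact d2
      · have e1 : ((p.1 / Nat.gcd p.1 p.2 : ℕ) : ℝ) = (p.1 : ℝ) / (Nat.gcd p.1 p.2 : ℕ) :=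
          Nat.cast_div g1 hgR.ne'
        have e2 : ((p.2 / Nat.gcd p.1 p.2 : ℕ) : ℝ) = (p.2 : ℝ) / (Nat.gcd p.1 p.2 : ℕ) :=
          Nat.cast_div g2 hgR.ne'
        simp only
        rw [e1, e2, ← mul_div_assoc]
        apply div_le_div_of_nonneg_right _ hgR.le
        linarith
      · have e1 : ((p.1 / Nat.gcd p.1 p.2 : ℕ) : ℝ) = (p.1 : ℝ) / (Nat.gcd p.1 p.2 : ℕ) :=
          Nat.cast_div g1 hgR.ne'
        have e2 : ((p.2 / Nat.gcd p.1 p.2 : ℕ) : ℝ) = (p.2 : ℝ) / (Nat.gcd p.1 p.2 : ℕ) :=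
          Nat.cast_div g2 hgR.ne'
        simp only
        rw [e1, e2, ← mul_div_assoc]
        apply div_le_div_of_nonneg_right _ hgR.le
        linarith
    · intro p hp q hq h
      have hp' := Finset.mem_coe.mp hp
      have hq' := Finset.mem_coe.mp hq
      rw [mem_product] at hp' hq'
      have d1 := (hT _ hp'.1).1
      have d2 := (hT _ hq'.1).1
      have p1 : 0 < p.1 := Nat.pos_of_dvd_of_pos d1 (Nat.pos_of_ne_zero hn)
      have h' := Sigma.mk.inj_iff.mp h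
      obtain ⟨h1, h2⟩ := h'
      have h2' := eq_of_heq h2
      have h3 := (Prod.mk.injEq _ _ _ _).mp h2'
      obtain ⟨h4, h5⟩ := h3
      have gp : 0 < Nat.gcd p.1 p.2 := Nat.gcd_pos_of_pos_left _ p1
      have gq : 0 < Nat.gcd q.1 q.2 := Nat.gcd_pos_of_pos_left _ (by rw [← h1]; exact p1)
      have a1 : Nat.gcd p.1 p.2 * (p.1 / Nat.gcd p.1 p.2) = p.1 :=
        Nat.mul_div_cancel' (Nat.gcd_dvd_left _ _)
      have a2 : Nat.gcd p.1 p.2 * (p.2 / Nat.gcd p.1 p.2) = p.2 :=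
        Nat.mul_div_cancel' (Nat.gcd_dvd_right _ _)
      have b1 : Nat.gcd q.1 q.2 * (q.1 / Nat.gcd q.1 q.2) = q.1 :=
        Nat.mul_div_cancel' (Nat.gcd_dvd_left _ _)
      have b2 : Nat.gcd q.1 q.2 * (q.2 / Nat.gcd q.1 q.2) = q.2 :=
        Nat.mul_div_cancel' (Nat.gcd_dvd_right _ _)
      have hgg : Nat.gcd p.1 p.2 = Nat.gcd q.1 q.2 := by
        have hpos : 0 < p.1 / Nat.gcd p.1 p.2 :=
          Nat.div_pos (Nat.le_of_dvd p1 (Nat.gcd_dvd_left _ _)) gp
        apply Nat.eq_of_mul_eq_mul_right hpos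
        rw [a1, h4, b1, h1]
      apply Prod.ext h1
      rw [← a2, ← b2, h5, hgg]
  have h2 : (T.card : ℝ) ^ 2 = ((T ×ˢ T).card : ℝ) := by
    rw [Finset.card_product]
    push_cast
    ring
  rw [h2]
  refine ((Nat.cast_le (α := ℝ)).mpr h1).trans ?_
  rw [Finset.card_sigma]
  push_cast
  refine Finset.sum_le_sum fun d _ => ?_
  unfold clS
  exact le_of_eq (by congr)

/-- the divisors `d` of `m ^ 2 + 1` with `d` and `(m ^ 2 + 1) / d` in `[X / K², X]` and with at most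
`W` prime factors each -/
def S2 (X K W : ℝ) (m : ℕ) : Set ℕ :=
  {d : ℕ | d ∣ m ^ 2 + 1 ∧ X ≤ K ^ 2 * d ∧ (d : ℝ) ≤ X ∧ X ≤ K ^ 2 * ((m ^ 2 + 1) / d : ℕ) ∧
    (((m ^ 2 + 1) / d : ℕ) : ℝ) ≤ X ∧ (ArithmeticFunction.cardFactors d : ℝ) ≤ W ∧
    (ArithmeticFunction.cardFactors ((m ^ 2 + 1) / d) : ℝ) ≤ W}

theorem S2_symm {X K W : ℝ} {m d : ℕ} (h : d ∈ S2 X K W m) : (m ^ 2 + 1) / d ∈ S2 X K W m := by
  obtain ⟨h1, h2, h3, h4, h5, h6, h7⟩ := h
  have hdd : (m ^ 2 + 1) / ((m ^ 2 + 1) / d) = d := Nat.div_div_self h1 (by omega)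
  refine ⟨Nat.div_dvd_of_dvd h1, h4, h5, ?_, ?_, h7, ?_⟩
  · rw [hdd]; exact h2
  · rw [hdd]; exact h3
  · rw [hdd]; exact h6

/-- Put `J = K²`. A pair `(d₁, d₂)` in `S2 m` gives `g = gcd`, `e = d₁ / g ∣ d₁`,
`e' = d₂ / g ∣ (m² + 1) / d₁`, `e / e' = d₁ / d₂ ∈ [1/J, J]`, and `(d₁, e, e')` determines `d₂`. So
`#S2² ≤ ∑_{d ∈ S2} #{(e, e') : e ∣ d, e' ∣ d', e ~ e'}` with `d' = (m² + 1) / d`. Cut the divisors into
bins `[(2J)^i, (2J)^(i+1))`; with `D_n(i)` the number of divisors of `n` in bin `i`, as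
`Ω(d), Ω(d') ≤ W`,
`#{(e,e')} ≤ ∑_{|i-i'| ≤ 1} D_d(i) D_{d'}(i') ≤ 2^W (3/2) (2^(-Ω d) ∑ D_d(i)² + 2^(-Ω d') ∑ D_{d'}(i)²)`
and `∑_i D_d(i)² ≤ dpr (2 J) d`. By the symmetry `d ↔ d'` the total is at most
`3 · 2^W ∑_{X/K² ≤ d ≤ X, N1 d} 2^(-Ω d) dpr (2J) d · #{m ≤ X : d ∣ m² + 1}`, the last factor being at
most `τ(d) (2X/d + 1) + 1 ≤ 2^(Ω d) (2 K² + 2)` (`ParityQuad.count_roots`, `τ ≤ 2^Ω`); then `divPairs`. -/
theorem second : ∃ C : ℝ, 0 < C ∧ ∀ X K W : ℝ, 1 ≤ X → 1 ≤ K → 0 ≤ W →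
    ∑ m ∈ (Finset.range (⌊X⌋₊ + 1)).filter (fun m => Even m), ((S2 X K W m).ncard : ℝ) ^ 2 ≤
      C * (2 : ℝ) ^ W * K ^ 2 * (1 + Real.log K) ^ 2 * X * (1 + Real.log (1 + Real.log X)) := by
  classical
  obtain ⟨C, hC, hdp⟩ := divPairs
  refine ⟨48 * C, by positivity, fun X K W hX hK hW => ?_⟩
  have hX0 : 0 < X := by linarith
  have hK0 : 0 < K := by linarith
  have hK2 : (1 : ℝ) ≤ K ^ 2 := one_le_pow₀ hK
  have hN1 : 1 ≤ ⌊X⌋₊ := (Nat.one_le_floor_iff X).mpr hX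
  have hNX : (⌊X⌋₊ : ℝ) ≤ X := Nat.floor_le hX0.le
  set N := ⌊X⌋₊ with hN
  set E := (Finset.range (N + 1)).filter (fun m => Even m) with hE
  set D := (Finset.Icc 1 N).filter N1 with hD
  set T : ℕ → Finset ℕ := fun m => ((m ^ 2 + 1).divisors).filter (fun d => d ∈ S2 X K W m) with hT
  set h : ℕ → ℝ := fun d => (dpr (2 * K ^ 2) d : ℝ) / 2 ^ ArithmeticFunction.cardFactors d with hh
  have hhn : ∀ d, 0 ≤ h d := fun d => by simp only [hh]; positivity
  have hTS : ∀ m, (S2 X K W m).ncard = (T m).card := by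
    intro m
    rw [← Set.ncard_coe_finset]
    congr 1
    ext d
    rw [Finset.mem_coe, Finset.mem_filter, Nat.mem_divisors]
    constructor
    · intro hd
      exact ⟨⟨hd.1, by omega⟩, hd⟩
    · intro hd
      exact hd.2
  have hmemT : ∀ m d, d ∈ T m → d ∈ S2 X K W m := fun m d hd => (Finset.mem_filter.mp hd).2
  have hmemT' : ∀ m d, d ∈ S2 X K W m → d ∈ T m := fun m d hd =>
    Finset.mem_filter.mpr ⟨Nat.mem_divisors.mpr ⟨hd.1, by omega⟩, hd⟩
  -- step 1
  have step1 : ∀ m, ((S2 X K W m).ncard : ℝ) ^ 2 ≤ 3 * (2 : ℝ) ^ W * ∑ d ∈ T m, h d := by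
    intro m
    rw [hTS m]
    refine (sq_card_le_sec (X := X) (J := K ^ 2) (m ^ 2 + 1) (by omega) (T m) (fun d hd => ?_)).trans ?_
    · obtain ⟨h1, h2, h3, _⟩ := hmemT m d hd
      exact ⟨h1, h2, h3⟩
    · have hsym : ∑ d ∈ T m, h ((m ^ 2 + 1) / d) = ∑ d ∈ T m, h d := by
        refine Finset.sum_nbij' (fun d => (m ^ 2 + 1) / d) (fun d => (m ^ 2 + 1) / d) ?_ ?_ ?_ ?_ ?_
        · intro d hd
          exact hmemT' m _ (S2_symm (hmemT m d hd))
        · intro d hd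
          exact hmemT' m _ (S2_symm (hmemT m d hd))
        · intro d hd
          exact Nat.div_div_self (hmemT m d hd).1 (by omega)
        · intro d hd
          exact Nat.div_div_self (hmemT m d hd).1 (by omega)
        · intro d _
          rfl
      have hw : ∀ e, (ArithmeticFunction.cardFactors e : ℝ) ≤ W →
          (dpr (2 * K ^ 2) e : ℝ) ≤ (2 : ℝ) ^ W * h e := by
        intro e he
        simp only [hh]
        rw [mul_div_assoc', le_div_iff₀ (by positivity), mul_comm]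
        gcongr
        rw [← Real.rpow_natCast]
        exact Real.rpow_le_rpow_of_exponent_le (by norm_num) he
      calc ∑ d ∈ T m, (clS (K ^ 2) d ((m ^ 2 + 1) / d) : ℝ)
          ≤ ∑ d ∈ T m, (3 / 2 * (2 : ℝ) ^ W * (h d + h ((m ^ 2 + 1) / d))) := by
            refine Finset.sum_le_sum fun d hd => ?_
            obtain ⟨h1, h2, h3, h4, h5, h6, h7⟩ := hmemT m d hd
            have hd0 : d ≠ 0 := by
              rintro rfl
              rw [zero_dvd_iff] at h1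
              omega
            have hd0' : (m ^ 2 + 1) / d ≠ 0 := by
              have := Nat.div_pos (Nat.le_of_dvd (by omega) h1) (Nat.pos_of_ne_zero hd0)
              omega
            have h8 := clS_le hK2 d ((m ^ 2 + 1) / d) hd0 hd0'
            have h9 := hw d h6
            have h10 := hw _ h7
            nlinarith
        _ = 3 / 2 * (2 : ℝ) ^ W * (∑ d ∈ T m, h d + ∑ d ∈ T m, h ((m ^ 2 + 1) / d)) := by
            rw [← Finset.sum_add_distrib, Finset.mul_sum]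
        _ = 3 * (2 : ℝ) ^ W * ∑ d ∈ T m, h d := by
            rw [hsym]
            ring
  -- step 2
  have step2 : ∑ m ∈ E, ∑ d ∈ T m, h d ≤ 4 * K ^ 2 * ∑ d ∈ D, (dpr (2 * K ^ 2) d : ℝ) := by
    have h1 : ∑ m ∈ E, ∑ d ∈ T m, h d = ∑ m ∈ E, ∑ d ∈ D, if d ∈ T m then h d else 0 := by
      refine Finset.sum_congr rfl fun m hm => ?_
      rw [← Finset.sum_filter]
      refine Finset.sum_congr ?_ fun _ _ => rfl
      ext d
      constructor
      · intro hd
        refine Finset.mem_filter.mpr ⟨?_, hd⟩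
        have hd' := hmemT m d hd
        have hN1 := N1_of_dvd_sq (Finset.mem_filter.mp hm).2 hd'.1
        rw [Finset.mem_filter, Finset.mem_Icc]
        exact ⟨⟨Nat.pos_of_ne_zero hN1.1, Nat.le_floor hd'.2.2.1⟩, hN1⟩
      · intro hd
        exact (Finset.mem_filter.mp hd).2
    rw [h1, Finset.sum_comm, Finset.mul_sum]
    refine Finset.sum_le_sum fun d hd => ?_
    rw [← Finset.sum_filter, Finset.sum_const, nsmul_eq_mul]
    rw [Finset.mem_filter, Finset.mem_Icc] at hd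
    have hd0 : (0 : ℝ) < d := by exact_mod_cast hd.1.1
    by_cases hc : X ≤ K ^ 2 * (d : ℝ)
    · have hsub : E.filter (fun m => d ∈ T m) ⊆
          (Finset.range (N + 1)).filter (fun m => Even m ∧ d ∣ m ^ 2 + 1) := by
        intro m hm
        rw [Finset.mem_filter, Finset.mem_filter] at hm
        rw [Finset.mem_filter]
        exact ⟨hm.1.1, hm.1.2, (hmemT m d hm.2).1⟩
      have h2 := (Nat.cast_le (α := ℝ)).mpr (Finset.card_le_card hsub)
      have h3 := h2.trans (count_even_sec N d (by omega))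
      have h4 : 2 * (N : ℝ) / d + 2 ≤ 4 * K ^ 2 := by
        have h5 : (N : ℝ) / d ≤ K ^ 2 := by
          rw [div_le_iff₀ hd0]
          linarith
        have h6 : 2 * (N : ℝ) / d = 2 * ((N : ℝ) / d) := by ring
        rw [h6]
        linarith
      have h5 : (((E.filter (fun m => d ∈ T m)).card : ℕ) : ℝ) ≤
          2 ^ ArithmeticFunction.cardFactors d * (4 * K ^ 2) := by
        refine h3.trans ?_
        gcongr
      calc (((E.filter (fun m => d ∈ T m)).card : ℕ) : ℝ) * h d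
          ≤ 2 ^ ArithmeticFunction.cardFactors d * (4 * K ^ 2) * h d :=
            mul_le_mul_of_nonneg_right h5 (hhn d)
        _ = 4 * K ^ 2 * (dpr (2 * K ^ 2) d : ℝ) := by
            simp only [hh]
            field_simp
    · have : E.filter (fun m => d ∈ T m) = ∅ := by
        rw [Finset.filter_eq_empty_iff]
        intro m _ hm
        exact hc (hmemT m d hm).2.1
      rw [this]
      simp only [Finset.card_empty, Nat.cast_zero, zero_mul]
      positivity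
  have h3 := hdp N (2 * K ^ 2) hN1 (by linarith)
  have hlogK : 0 ≤ Real.log K := Real.log_nonneg hK
  have hlogJ : 1 + Real.log (2 * K ^ 2) ≤ 2 * (1 + Real.log K) := by
    rw [Real.log_mul (by norm_num) (by positivity), Real.log_pow]
    have := Real.log_two_lt_d9
    push_cast
    linarith
  have hlogJ0 : 0 ≤ 1 + Real.log (2 * K ^ 2) := by
    have : 0 ≤ Real.log (2 * K ^ 2) := Real.log_nonneg (by linarith)
    linarith
  have hlN0 : 0 ≤ Real.log (N : ℝ) := Real.log_nonneg (by exact_mod_cast hN1)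
  have hlN : Real.log (N : ℝ) ≤ Real.log X := Real.log_le_log (by exact_mod_cast hN1) hNX
  have hll : 1 + Real.log (1 + Real.log (N : ℝ)) ≤ 1 + Real.log (1 + Real.log X) := by
    have := Real.log_le_log (by linarith : (0 : ℝ) < 1 + Real.log (N : ℝ))
      (by linarith : 1 + Real.log (N : ℝ) ≤ 1 + Real.log X)
    linarith
  have hll0 : 0 ≤ 1 + Real.log (1 + Real.log (N : ℝ)) := by
    have : 0 ≤ Real.log (1 + Real.log (N : ℝ)) := Real.log_nonneg (by linarith)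
    linarith
  calc ∑ m ∈ E, ((S2 X K W m).ncard : ℝ) ^ 2
      ≤ ∑ m ∈ E, 3 * (2 : ℝ) ^ W * ∑ d ∈ T m, h d := Finset.sum_le_sum fun m _ => step1 m
    _ = 3 * (2 : ℝ) ^ W * ∑ m ∈ E, ∑ d ∈ T m, h d := by rw [Finset.mul_sum]
    _ ≤ 3 * (2 : ℝ) ^ W * (4 * K ^ 2 * ∑ d ∈ D, (dpr (2 * K ^ 2) d : ℝ)) := by gcongr
    _ ≤ 3 * (2 : ℝ) ^ W * (4 * K ^ 2 * (C * X * (2 * (1 + Real.log K)) ^ 2 *
        (1 + Real.log (1 + Real.log X)))) := by
        have h4 : C * (N : ℝ) * (1 + Real.log (2 * K ^ 2)) ^ 2 *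
            (1 + Real.log (1 + Real.log (N : ℝ))) ≤ C * X * (2 * (1 + Real.log K)) ^ 2 *
            (1 + Real.log (1 + Real.log X)) := by gcongr
        have h5 := h3.trans h4
        gcongr
    _ = 48 * C * (2 : ℝ) ^ W * K ^ 2 * (1 + Real.log K) ^ 2 * X *
        (1 + Real.log (1 + Real.log X)) := by ring

end Pool.Agent.GaussMR
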