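import Pool.Agent.Lib_MP_f1a94e_mr.KL

/-!
# Piece SD: van der Corput's second derivative test (discrete form)
-/

set_option autoImplicit false

namespace Pool.Agent.GaussMR

theorem sd_sep (Δ : ℤ → ℝ) (a b : ℤ) (lam Lam : ℝ)
    (h : ∀ n, a ≤ n → n + 1 < b → lam ≤ Δ (n + 1) - Δ n ∧ Δ (n + 1) - Δ n ≤ Lam) (n : ℤ)
    (hn : a ≤ n) : ∀ m : ℤ, n ≤ m → m < b →
      lam * ((m : ℝ) - n) ≤ Δ m - Δ n ∧ Δ m - Δ n ≤ Lam * ((m : ℝ) - n) := by
  intro m hm
  induction m, hm using Int.leInduction with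
  | base =>
    intro _
    simp
  | succ m hm ih =>
    intro hb
    have h1 := ih (by omega)
    have h2 := h m (by omega) hb
    push_cast
    constructor
    · nlinarith [h1.1, h2.1]
    · nlinarith [h1.2, h2.2]

/-- one block -/
theorem sd_block (φ Δ : ℤ → ℝ) (hΔ : ∀ n, Δ n = φ (n + 1) - φ n) (a b : ℤ) (lam θ : ℝ)
    (h0 : 0 < lam) (hθ : 0 < θ) (hθ' : θ ≤ 1 / 2)
    (hsep : ∀ n m : ℤ, a ≤ n → n ≤ m → m < b → lam * ((m : ℝ) - n) ≤ Δ m - Δ n) (v : ℤ) :
    ‖∑ n ∈ (Finset.Ico a b).filter (fun n => ⌊Δ n + θ⌋ = v), ee (φ n)‖ ≤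
      2 * θ / lam + 1 + 1 / θ := by
  classical
  set S := (Finset.Ico a b).filter (fun n => ⌊Δ n + θ⌋ = v) with hS
  have hmem : ∀ n, n ∈ S ↔ (a ≤ n ∧ n < b) ∧ (v : ℝ) - θ ≤ Δ n ∧ Δ n < v + 1 - θ := by
    intro n
    rw [hS, Finset.mem_filter, Finset.mem_Ico, Int.floor_eq_iff]
    constructor
    · rintro ⟨h1, h2, h3⟩
      exact ⟨h1, by linarith, by linarith⟩
    · rintro ⟨h1, h2, h3⟩
      exact ⟨h1, by linarith, by linarith⟩
  have hmono : ∀ n m : ℤ, a ≤ n → n ≤ m → m < b → Δ n ≤ Δ m := by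
    intro n m h1 h2 h3
    have h4 := hsep n m h1 h2 h3
    have h5 : (n : ℝ) ≤ m := by exact_mod_cast h2
    have h6 : 0 ≤ lam * ((m : ℝ) - n) := mul_nonneg h0.le (by linarith)
    linarith
  rw [← Finset.sum_filter_add_sum_filter_not S (fun n => Δ n < v + θ)]
  refine (norm_add_le _ _).trans (add_le_add ?_ ?_)
  · -- the points close to the integer
    set F := S.filter (fun n => Δ n < v + θ) with hF
    have h1 : ‖∑ n ∈ F, ee (φ n)‖ ≤ F.card := by
      refine (norm_sum_le _ _).trans ?_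
      simp [kl_norm_ee]
    refine h1.trans ?_
    rcases F.eq_empty_or_nonempty with he | hne
    · rw [he]
      simp only [Finset.card_empty, Nat.cast_zero]
      positivity
    · set p := F.min' hne with hp
      set q := F.max' hne with hq
      have hpF : p ∈ F := Finset.min'_mem _ _
      have hqF : q ∈ F := Finset.max'_mem _ _
      have hpq : p ≤ q := Finset.min'_le _ _ hqF
      have hp1 := (hmem p).1 (Finset.mem_filter.1 hpF).1
      have hq1 := (hmem q).1 (Finset.mem_filter.1 hqF).1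
      have hq2 : Δ q < v + θ := (Finset.mem_filter.1 hqF).2
      have hsub : F ⊆ Finset.Icc p q := fun n hn =>
        Finset.mem_Icc.2 ⟨Finset.min'_le _ _ hn, Finset.le_max' _ _ hn⟩
      have hc := Finset.card_le_card hsub
      rw [Int.card_Icc] at hc
      have hc' : (F.card : ℝ) ≤ (q : ℝ) - p + 1 := by
        have h2 : (F.card : ℤ) ≤ q + 1 - p := by omega
        have h3 : ((F.card : ℤ) : ℝ) ≤ ((q + 1 - p : ℤ) : ℝ) := by exact_mod_cast h2
        push_cast at h3
        linarith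
      have h4 := hsep p q hp1.1.1 hpq hq1.1.2
      have h5 : (q : ℝ) - p ≤ 2 * θ / lam := by
        rw [le_div_iff₀ h0]
        linarith [hp1.2.1]
      linarith
  · -- the points away from the integers
    set F := S.filter (fun n => ¬ Δ n < v + θ) with hF
    rcases F.eq_empty_or_nonempty with he | hne
    · rw [he]
      simp only [Finset.sum_empty, norm_zero]
      positivity
    · set p := F.min' hne with hp
      set q := F.max' hne with hq
      have hpF : p ∈ F := Finset.min'_mem _ _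
      have hqF : q ∈ F := Finset.max'_mem _ _
      have hpq : p ≤ q := Finset.min'_le _ _ hqF
      have hp1 := (hmem p).1 (Finset.mem_filter.1 hpF).1
      have hp2 := not_lt.1 (Finset.mem_filter.1 hpF).2
      have hq1 := (hmem q).1 (Finset.mem_filter.1 hqF).1
      have hFeq : F = Finset.Icc p q := by
        ext n
        constructor
        · intro hn
          exact Finset.mem_Icc.2 ⟨Finset.min'_le _ _ hn, Finset.le_max' _ _ hn⟩
        · intro hn
          rw [Finset.mem_Icc] at hn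
          have h2 := hmono p n hp1.1.1 hn.1 (by omega)
          have h3 := hmono n q (by omega) hn.2 hq1.1.2
          rw [hF, Finset.mem_filter, hmem]
          exact ⟨⟨⟨by omega, by omega⟩, by linarith, by linarith [hq1.2.2]⟩, by linarith⟩
      rw [hFeq]
      refine kusmin_landau φ p q hpq θ hθ hθ' v ?_ ?_ ?_
      · intro n hn hn2
        have h2 := hmono n (n + 1) (by omega) (by omega) (by omega)
        rw [hΔ, hΔ, show n + 1 + 1 = n + 2 by ring] at h2
        exact h2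
      · intro n hn hn2
        rw [← hΔ]
        have h2 := hmono p n hp1.1.1 hn (by omega)
        linarith
      · intro n hn hn2
        rw [← hΔ]
        have h3 := hmono n q (by omega) hn2.le hq1.1.2
        linarith [hq1.2.2]

/-- Second differences between `lam` and `Lam`, `0 < lam ≤ Lam ≤ 1`. The first differences `Δ n` are
increasing, with steps in `[lam, Lam]`, total variation `≤ (b - a) Lam`. With `θ = √lam / 2 ≤ 1/2`:
for each integer `ν` the `n` with `|Δ n - ν| < θ` form an interval with at most `2 θ / lam + 1` elements,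
those with `Δ n ∈ [ν + θ, ν + 1 - θ]` an interval, on which `kusmin_landau` gives at most `1 / θ` (plus one
endpoint). At most `(b - a) Lam + 2` integers `ν` are needed. -/
theorem second_deriv (φ : ℤ → ℝ) (a b : ℤ) (hab : a ≤ b) (lam Lam : ℝ) (h0 : 0 < lam)
    (hl : lam ≤ Lam) (hL : Lam ≤ 1)
    (h1 : ∀ n, a ≤ n → n + 1 < b → lam ≤ φ (n + 2) - 2 * φ (n + 1) + φ n)
    (h2 : ∀ n, a ≤ n → n + 1 < b → φ (n + 2) - 2 * φ (n + 1) + φ n ≤ Lam) :
    ‖∑ n ∈ Finset.Icc a b, ee (φ n)‖ ≤ 20 * (((b : ℝ) - a) * Lam + 1) * (1 / Real.sqrt lam + 1) := by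
  classical
  have hs : 0 < Real.sqrt lam := Real.sqrt_pos.2 h0
  have hs1 : Real.sqrt lam ≤ 1 := by
    rw [Real.sqrt_le_left (by norm_num)]
    linarith
  have hss : Real.sqrt lam * Real.sqrt lam = lam := Real.mul_self_sqrt h0.le
  have hi : 0 < 1 / Real.sqrt lam := by positivity
  have hLam : 0 < Lam := by linarith
  rcases hab.eq_or_lt with heq | hlt
  · subst heq
    simp only [Finset.Icc_self, Finset.sum_singleton, kl_norm_ee, sub_self, zero_mul, zero_add,
      mul_one]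
    nlinarith
  · set θ : ℝ := Real.sqrt lam / 2 with hθ
    have hθ0 : 0 < θ := by positivity
    have hθ1 : θ ≤ 1 / 2 := by rw [hθ]; linarith
    set Δ : ℤ → ℝ := fun n => φ (n + 1) - φ n with hΔ
    have hstep : ∀ n, a ≤ n → n + 1 < b → lam ≤ Δ (n + 1) - Δ n ∧ Δ (n + 1) - Δ n ≤ Lam := by
      intro n hn hn2
      have e : Δ (n + 1) - Δ n = φ (n + 2) - 2 * φ (n + 1) + φ n := by
        simp only [hΔ]
        rw [show n + 1 + 1 = n + 2 by ring]
        ring
      rw [e]
      exact ⟨h1 n hn hn2, h2 n hn hn2⟩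
    have hsep := sd_sep Δ a b lam Lam hstep
    set B : ℝ := 2 * θ / lam + 1 + 1 / θ with hB
    have hblock := sd_block φ Δ (fun n => rfl) a b lam θ h0 hθ0 hθ1
      (fun n m hn hm hb => (hsep n hn m hm hb).1)
    have hBv : B = 3 * (1 / Real.sqrt lam) + 1 := by
      have e1 : 2 * θ / lam = 1 / Real.sqrt lam := by
        rw [hθ, div_eq_div_iff h0.ne' hs.ne']
        nlinarith
      have e2 : 1 / θ = 2 * (1 / Real.sqrt lam) := by
        rw [hθ]
        field_simp
      rw [hB, e1, e2]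
      ring
    have hIcc : Finset.Icc a b = insert b (Finset.Ico a b) := by
      ext x
      simp only [Finset.mem_Icc, Finset.mem_insert, Finset.mem_Ico]
      omega
    rw [hIcc, Finset.sum_insert (by simp)]
    refine (norm_add_le _ _).trans ?_
    rw [kl_norm_ee]
    have hmono : ∀ n m : ℤ, a ≤ n → n ≤ m → m < b → Δ n ≤ Δ m := by
      intro n m e1 e2 e3
      have e4 := (hsep n e1 m e2 e3).1
      have e5 : (n : ℝ) ≤ m := by exact_mod_cast e2
      have e6 : 0 ≤ lam * ((m : ℝ) - n) := mul_nonneg h0.le (by linarith)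
      linarith
    have hmaps : ∀ n ∈ Finset.Ico a b, ⌊Δ n + θ⌋ ∈ Finset.Icc ⌊Δ a + θ⌋ ⌊Δ (b - 1) + θ⌋ := by
      intro n hn
      rw [Finset.mem_Ico] at hn
      rw [Finset.mem_Icc]
      exact ⟨Int.floor_le_floor (by linarith [hmono a n le_rfl hn.1 hn.2]),
        Int.floor_le_floor (by linarith [hmono n (b - 1) hn.1 (by omega) (by omega)])⟩
    rw [← Finset.sum_fiberwise_of_maps_to hmaps]
    have hsum : ‖∑ v ∈ Finset.Icc ⌊Δ a + θ⌋ ⌊Δ (b - 1) + θ⌋,
        ∑ n ∈ (Finset.Ico a b).filter (fun n => ⌊Δ n + θ⌋ = v), ee (φ n)‖ ≤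
        (Finset.Icc ⌊Δ a + θ⌋ ⌊Δ (b - 1) + θ⌋).card * B := by
      refine (norm_sum_le_of_le _ (fun v _ => hblock v)).trans ?_
      rw [Finset.sum_const, nsmul_eq_mul]
    have hcard : ((Finset.Icc ⌊Δ a + θ⌋ ⌊Δ (b - 1) + θ⌋).card : ℝ) ≤ ((b : ℝ) - a) * Lam + 2 := by
      rw [Int.card_Icc]
      have e1 : ⌊Δ a + θ⌋ ≤ ⌊Δ (b - 1) + θ⌋ :=
        Int.floor_le_floor (by linarith [hmono a (b - 1) le_rfl (by omega) (by omega)])
      have e2 : (((⌊Δ (b - 1) + θ⌋ + 1 - ⌊Δ a + θ⌋).toNat : ℤ) : ℝ)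
          = ((⌊Δ (b - 1) + θ⌋ + 1 - ⌊Δ a + θ⌋ : ℤ) : ℝ) := by
        rw [Int.toNat_of_nonneg (by omega)]
      have e3 : (((⌊Δ (b - 1) + θ⌋ + 1 - ⌊Δ a + θ⌋).toNat : ℕ) : ℝ)
          = (⌊Δ (b - 1) + θ⌋ : ℝ) + 1 - ⌊Δ a + θ⌋ := by
        have := e2
        push_cast at this
        exact this
      rw [e3]
      have e4 := Int.floor_le (Δ (b - 1) + θ)
      have e5 := Int.lt_floor_add_one (Δ a + θ)
      have e6 := (hsep a le_rfl (b - 1) (by omega) (by omega)).2
      push_cast at e6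
      nlinarith
    have hB0 : 0 ≤ B := by rw [hBv]; positivity
    have e7 : ((Finset.Icc ⌊Δ a + θ⌋ ⌊Δ (b - 1) + θ⌋).card : ℝ) * B ≤
        (((b : ℝ) - a) * Lam + 2) * B := mul_le_mul_of_nonneg_right hcard hB0
    have e8 : (0 : ℝ) < (b : ℝ) - a := by
      have : (a : ℝ) < b := by exact_mod_cast hlt
      linarith
    have e9 : 0 < ((b : ℝ) - a) * Lam := mul_pos e8 hLam
    rw [hBv] at e7
    rw [hBv] at hsum
    have e10 : 0 < ((b : ℝ) - a) * Lam * (1 / Real.sqrt lam) := mul_pos e9 hi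
    nlinarith

end Pool.Agent.GaussMR
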